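import Mathlib

set_option autoImplicit false

open Finset

namespace Pool.Agent.H29.APTest

lemma thr {m : ℕ} (a : Fin m → ℕ) {x y : ℕ}
    (h : (univ.filter (fun i => a i ≤ x)).card = (univ.filter (fun i => a i ≤ y)).card) (i : Fin m) :
    a i ≤ x ↔ a i ≤ y := by
  have key : ∀ x y : ℕ, x ≤ y →
      (univ.filter (fun i => a i ≤ x)).card = (univ.filter (fun i => a i ≤ y)).card →
      univ.filter (fun i => a i ≤ x) = univ.filter (fun i => a i ≤ y) := by
    intro x y hxy h
    apply eq_of_subset_of_card_le _ h.ge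
    intro i hi
    simp only [mem_filter, mem_univ, true_and] at hi ⊢
    omega
  have : univ.filter (fun i => a i ≤ x) = univ.filter (fun i => a i ≤ y) := by
    rcases le_total x y with l | l
    · exact key x y l h
    · exact (key y x l h.symm).symm
  have := congrArg (fun s => i ∈ s) this
  simpa using this

lemma mem_ap {a d L x : ℕ} (hd : 0 < d) :
    x ∈ (range L).image (fun j => a + d * j) ↔ a ≤ x ∧ ¬ (a + d * L ≤ x) ∧ x % d = a % d := by
  simp only [mem_image, mem_range]
  constructor
  · rintro ⟨j, hj, rfl⟩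
    refine ⟨by omega, ?_, by simp⟩
    have := Nat.mul_lt_mul_of_pos_left hj hd
    omega
  · rintro ⟨h1, h2, h3⟩
    have : d ∣ x - a := (Nat.modEq_iff_dvd' h1).mp h3.symm
    obtain ⟨j, hj⟩ := this
    refine ⟨j, ?_, by omega⟩
    by_contra hc
    have := Nat.mul_le_mul_left d (not_lt.mp hc)
    omega

lemma card_ap {a d L n t : ℕ} (h : (range L).image (fun j => a + d * j) ⊆ range n)
    (hd : d = 0 ∨ t < d) (ht : t ≤ n) : t * ((range L).image (fun j => a + d * j)).card ≤ 2 * n := by
  rcases hd with rfl | hd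
  · have : ((range L).image (fun j => a + 0 * j)).card ≤ 1 := by
      rw [card_le_one]
      intro x hx y hy
      simp only [mem_image] at hx hy
      obtain ⟨_, _, rfl⟩ := hx
      obtain ⟨_, _, rfl⟩ := hy
      simp
    nlinarith
  · have h1 : ((range L).image (fun j => a + d * j)).card ≤ L := card_image_le.trans (by simp)
    rcases L with _ | L
    · simp
    · have : a + d * L ∈ range n := h (mem_image.mpr ⟨L, by simp, rfl⟩)
      rw [mem_range] at this
      nlinarith

lemma card_small (m w : ℕ) :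
    ((range (w + 1)).biUnion (fun j => powersetCard j (univ : Finset (Fin m)))).card ≤
      (w + 1) * (m + 1) ^ w := by
  refine card_biUnion_le.trans ?_
  have : ∀ j ∈ range (w + 1), (powersetCard j (univ : Finset (Fin m))).card ≤ (m + 1) ^ w := by
    intro j hj
    rw [card_powersetCard, card_univ, Fintype.card_fin]
    refine (Nat.choose_le_pow m j).trans ?_
    refine (Nat.pow_le_pow_left (Nat.le_succ m) j).trans ?_
    exact Nat.pow_le_pow_right (Nat.succ_pos m) (by simpa [Nat.lt_succ_iff] using hj)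
  refine (sum_le_card_nsmul _ _ _ this).trans ?_
  simp

theorem core (n m t w D : ℕ) (a d L : Fin m → ℕ) (T : Fin m → Finset ℕ)
    (hT : ∀ i, T i = (range (L i)).image (fun j => a i + d i * j)) (hsub : ∀ i, T i ⊆ range n)
    (ht : t ≤ n) (hw : 4 * m ≤ t * (w + 1)) (hm : 0 < t * (w + 1))
    (hD : ∀ x, ((range n).filter (fun y => ∀ i, (y ∈ T i ↔ x ∈ T i))).card ≤ D + 1) :
    n ≤ 2 * ((D + 1) * (t.factorial * ((m + 1) * ((m + 1) * ((w + 1) * (m + 1) ^ w))))) := by
  classical
  let big : ℕ → Finset (Fin m) := fun x => univ.filter (fun i => (d i = 0 ∨ t < d i) ∧ x ∈ T i)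
  let H := (range n).filter (fun x => w < (big x).card)
  let Lt := (range n).filter (fun x => ¬ w < (big x).card)
  have hH : 2 * H.card ≤ n := by
    have h1 : (w + 1) * H.card ≤ ∑ x ∈ range n, (big x).card := by
      calc (w + 1) * H.card = ∑ _x ∈ H, (w + 1) := by simp [mul_comm]
        _ ≤ ∑ x ∈ H, (big x).card := sum_le_sum (fun x hx => (mem_filter.mp hx).2)
        _ ≤ _ := sum_le_sum_of_subset (filter_subset _ _)
    have h2 : t * ∑ x ∈ range n, (big x).card ≤ m * (2 * n) := by
      have : ∑ x ∈ range n, (big x).card =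
          ∑ i : Fin m, ((range n).filter (fun x => (d i = 0 ∨ t < d i) ∧ x ∈ T i)).card := by
        simp only [big, card_filter]
        exact sum_comm
      rw [this, mul_sum]
      have h3 : ∀ i ∈ (univ : Finset (Fin m)),
          t * ((range n).filter (fun x => (d i = 0 ∨ t < d i) ∧ x ∈ T i)).card ≤ 2 * n := by
        intro i _
        by_cases hb : d i = 0 ∨ t < d i
        · have h4 := card_ap (hT i ▸ hsub i) hb ht
          rw [← hT i] at h4
          refine le_trans (Nat.mul_le_mul_left _ (card_le_card ?_)) h4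
          intro x hx
          exact (mem_filter.mp hx).2.2
        · simp [hb]
      refine (sum_le_card_nsmul _ _ _ h3).trans ?_
      simp
    have h5 : t * (w + 1) * (2 * H.card) ≤ t * (w + 1) * n := by nlinarith
    exact Nat.le_of_mul_le_mul_left h5 hm
  have hsplit : H.card + Lt.card = n := by
    have := card_filter_add_card_filter_not (s := range n) (fun x => w < (big x).card)
    rw [card_range] at this
    exact this
  have hL : Lt.card ≤ (D + 1) * (range t.factorial ×ˢ range (m + 1) ×ˢ range (m + 1) ×ˢ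
      ((range (w + 1)).biUnion (fun j => powersetCard j (univ : Finset (Fin m))))).card := by
    apply card_le_mul_card_image_of_maps_to (f := fun x => (x % t.factorial,
      (univ.filter (fun i => a i ≤ x)).card, (univ.filter (fun i => a i + d i * L i ≤ x)).card, big x))
    · intro x hx
      simp only [mem_product, mem_range, mem_biUnion, mem_powersetCard, subset_univ, true_and]
      refine ⟨Nat.mod_lt _ (Nat.factorial_pos t), ?_, ?_, (big x).card, ?_, rfl⟩
      · exact Nat.lt_succ_of_le ((card_filter_le _ _).trans (by simp))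
      · exact Nat.lt_succ_of_le ((card_filter_le _ _).trans (by simp))
      · have := (mem_filter.mp hx).2; omega
    · intro b _
      rcases (Lt.filter (fun x => (x % t.factorial, (univ.filter (fun i => a i ≤ x)).card,
        (univ.filter (fun i => a i + d i * L i ≤ x)).card, big x) = b)).eq_empty_or_nonempty with he | ⟨x, hx⟩
      · rw [he]; simp
      refine le_trans (card_le_card ?_) (hD x)
      intro y hy
      obtain ⟨hy1, hy2⟩ := mem_filter.mp hy
      have hx2 := (mem_filter.mp hx).2
      rw [← hx2] at hy2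
      simp only [Prod.mk.injEq] at hy2
      obtain ⟨e1, e2, e3, e4⟩ := hy2
      refine mem_filter.mpr ⟨(mem_filter.mp hy1).1, fun i => ?_⟩
      by_cases hb : d i = 0 ∨ t < d i
      · have := congrArg (fun s => i ∈ s) e4
        simpa [big, hb] using this
      · have hd0 : 0 < d i := by omega
        have hdt : d i ∣ t.factorial := Nat.dvd_factorial hd0 (by omega)
        rw [hT i, mem_ap hd0, mem_ap hd0, thr a e2 i, thr (fun i => a i + d i * L i) e3 i,
          ← Nat.mod_mod_of_dvd y hdt, e1, Nat.mod_mod_of_dvd x hdt]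
  simp only [card_product, card_range] at hL
  have := card_small m w
  have h6 : Lt.card ≤ (D + 1) * (t.factorial * ((m + 1) * ((m + 1) * ((w + 1) * (m + 1) ^ w)))) :=
    hL.trans (by gcongr)
  omega

lemma numeric (c D : ℕ) : ∃ t : ℕ, 2 ≤ t ∧ ∀ m, m ≤ c * t ^ 2 →
    2 * ((D + 1) * (t.factorial * ((m + 1) * ((m + 1) * ((4 * c * t + 1) * (m + 1) ^ (4 * c * t))))))
      < 2 ^ (t ^ 2) := by
  obtain ⟨s, hs1, hs2⟩ : ∃ s : ℕ, 4 * c + D + 2 ≤ 2 ^ s ∧ s * (12 * c + 12) < 2 ^ s := by
    let s := 2 * (12 * c + 12) + D + 4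
    have h1 : ∀ u : ℕ, u ^ 2 < 2 ^ (u + 1) := by
      intro u
      induction u with
      | zero => simp
      | succ u ih =>
        have : u < 2 ^ u := Nat.lt_two_pow_self
        rw [pow_succ 2 (u + 1), pow_succ 2 u] at *
        nlinarith
    have h2 := h1 (s - 1)
    have h3 : s - 1 + 1 = s := by omega
    rw [h3] at h2
    have h4 : s < 2 ^ s := Nat.lt_two_pow_self
    refine ⟨s, by omega, lt_of_le_of_lt ?_ h2⟩
    have h5 : s - 1 = 2 * (12 * c + 12) + D + 3 := by omega
    rw [h5]
    simp only [s]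
    nlinarith
  refine ⟨2 ^ s, by omega, fun m hm => ?_⟩
  set t := 2 ^ s with ht
  have t2 : 2 ≤ t := by omega
  have a1 : D + 1 ≤ t := by omega
  have a2 : t.factorial ≤ t ^ t := Nat.factorial_le_pow t
  have a3 : m + 1 ≤ t ^ 3 := by
    have : c + 1 ≤ t := by omega
    have h0 : 1 ≤ t ^ 2 := Nat.one_le_pow _ _ (by omega)
    calc m + 1 ≤ (c + 1) * t ^ 2 := by nlinarith
      _ ≤ t * t ^ 2 := by gcongr
      _ = t ^ 3 := by ring
  have a4 : 4 * c * t + 1 ≤ t ^ 2 := by
    have : 4 * c + 1 ≤ t := by omega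
    nlinarith
  calc _ ≤ t * (t * (t ^ t * (t ^ 3 * (t ^ 3 * (t ^ 2 * (t ^ 3) ^ (4 * c * t)))))) := by gcongr
    _ = t ^ (10 + t + 12 * c * t) := by ring
    _ ≤ t ^ ((12 * c + 12) * t) := Nat.pow_le_pow_right (by omega) (by nlinarith)
    _ = 2 ^ (s * ((12 * c + 12) * t)) := by rw [ht, ← pow_mul]
    _ < 2 ^ (t ^ 2) := Nat.pow_lt_pow_right (by norm_num) (by nlinarith)

end Pool.Agent.H29.APTest
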