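import Mathlib

set_option autoImplicit false

namespace Pool.Agent.H29.Ann

def Band (n : ℕ) (φ : Module.End ℚ (ℤ → ℚ)) : Prop :=
  ∀ (f : ℤ → ℚ) (i : ℤ), (∀ j, |j - i| ≤ n → f j = 0) → φ f i = 0

theorem Band.mono {n m : ℕ} {φ : Module.End ℚ (ℤ → ℚ)} (h : Band n φ) (hnm : n ≤ m) : Band m φ :=
  fun f i hf => h f i fun j hj => hf j (hj.trans (by exact_mod_cast hnm))

/-- banded operators -/
def B : Subalgebra ℚ (Module.End ℚ (ℤ → ℚ)) where
  carrier := {φ | ∃ n, Band n φ}
  mul_mem' := by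
    rintro φ ψ ⟨n, hn⟩ ⟨m, hm⟩
    refine ⟨n + m, fun f i hf => hn _ i fun j hj => hm f j fun l hl => hf l ?_⟩
    have := abs_sub_le l j i
    push_cast; linarith
  add_mem' := by
    rintro φ ψ ⟨n, hn⟩ ⟨m, hm⟩
    refine ⟨n + m, fun f i hf => ?_⟩
    simp [hn.mono (Nat.le_add_right n m) f i hf, hm.mono (Nat.le_add_left m n) f i hf]
  algebraMap_mem' r := ⟨0, fun f i hf => by simp [hf i (by simp)]⟩

open Classical in
noncomputable def sg (i : ℤ) : ℚ := if ∃ m : ℕ, i = 2 ^ m then -1 else 1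

theorem sg_sq (i : ℤ) : sg i * sg i = 1 := by unfold sg; split_ifs <;> simp

/-- weighted shift -/
def op (c : ℤ → ℚ) (l : ℤ) : B :=
  ⟨{ toFun := fun f i => c i * f (i + l)
     map_add' := fun f g => by ext n; simp [mul_add]
     map_smul' := fun a f => by ext n; simp; ring },
   ⟨l.natAbs, fun f i hf => by
      have := hf (i + l) (by simp)
      simp [this]⟩⟩

theorem op_apply (c : ℤ → ℚ) (l : ℤ) (f : ℤ → ℚ) (i : ℤ) : (op c l).1 f i = c i * f (i + l) := rfl

theorem op_mul (c d : ℤ → ℚ) (l m : ℤ) :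
    op c l * op d m = op (fun i => c i * d (i + l)) (l + m) := by
  refine Subtype.ext (LinearMap.ext fun f => funext fun n => ?_)
  change c n * (d (n + l) * f (n + l + m)) = c n * d (n + l) * f (n + (l + m))
  rw [mul_assoc, add_assoc]

theorem op_one : op (fun _ => 1) 0 = 1 := by
  refine Subtype.ext (LinearMap.ext fun f => funext fun n => ?_)
  change 1 * f (n + 0) = f n
  simp

noncomputable def a (L : ℤ) : Bˣ :=
  ⟨op (fun i => sg (i + L)) 0, op (fun i => sg (i + L)) 0,
    by rw [op_mul]; simp [sg_sq, op_one], by rw [op_mul]; simp [sg_sq, op_one]⟩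

noncomputable def t : Bˣ :=
  ⟨op (fun _ => 1) 1, op (fun _ => 1) (-1), by rw [op_mul]; simp [op_one],
    by rw [op_mul]; simp [op_one]⟩

theorem a_sq (L : ℤ) : a L * a L = 1 := Units.ext (a L).val_inv

theorem a_comm (L M : ℤ) : a L * a M = a M * a L := by
  refine Units.ext ?_
  simp only [a, Units.val_mul, op_mul, add_zero, mul_comm]

theorem t_pow (n : ℕ) : ((t ^ n : Bˣ) : B) = op (fun _ => 1) n := by
  induction n with
  | zero => simp [op_one]
  | succ n ih =>
    rw [pow_succ, Units.val_mul, ih]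
    simp [t, op_mul]

theorem t_pow_a (n : ℕ) : t ^ n * a 0 = a n * t ^ n := by
  refine Units.ext ?_
  simp only [Units.val_mul, t_pow, a, op_mul]
  simp

open MonoidAlgebra

noncomputable abbrev R := MonoidAlgebra ℚ Bˣ

noncomputable def o : Bˣ →* R := MonoidAlgebra.of ℚ Bˣ

noncomputable def rho : R →ₐ[ℚ] B := MonoidAlgebra.lift ℚ B Bˣ (Units.coeHom B)

theorem rho_o (g : Bˣ) : rho (o g) = g := by simp [rho, o]

noncomputable def al : R := (1 - o t) * (1 + o (a 0))

noncomputable def g (L : ℕ) : R :=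
  (1 - o (a 0)) * (1 - o (a L)) * ∑ j ∈ Finset.range L, o t ^ j

theorem g_al (L : ℕ) : g L * al = 0 := by
  have h1 : o (a 0) * o (a 0) = 1 := by rw [← map_mul, a_sq, map_one]
  have h2 : o (a L) * o (a L) = 1 := by rw [← map_mul, a_sq, map_one]
  have h3 : o (a L) * o (a 0) = o (a 0) * o (a L) := by rw [← map_mul, a_comm, map_mul]
  have h4 : o t ^ L * o (a 0) = o (a L) * o t ^ L := by
    rw [← map_pow, ← map_mul, t_pow_a, map_mul]
  have h5 : (1 - o (a L)) * (1 + o (a L)) = 0 := by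
    rw [sub_mul, mul_add, mul_add, h2]; simp [add_comm]
  have h6 : (1 - o (a 0)) * (1 + o (a 0)) = 0 := by
    rw [sub_mul, mul_add, mul_add, h1]; simp [add_comm]
  have h7 : (1 - o (a L)) * (1 + o (a 0)) = (1 + o (a 0)) * (1 - o (a L)) := by
    simp only [sub_mul, mul_add, add_mul, mul_sub, one_mul, mul_one, h3]; abel
  have h8 : (1 - o t ^ L) * (1 + o (a 0)) = (1 + o (a 0)) - (1 + o (a L)) * o t ^ L := by
    rw [sub_mul, mul_add (o t ^ L), h4, add_mul]; simp
  unfold g al
  rw [mul_assoc, ← mul_assoc (∑ j ∈ Finset.range L, o t ^ j), geom_sum_mul_neg, h8, mul_sub,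
    mul_assoc, h7, ← mul_assoc, h6, zero_mul, mul_assoc, ← mul_assoc (1 - o (a L)), h5]
  simp

noncomputable def dl (p : ℤ) : ℤ → ℚ := Pi.single p 1

theorem rho_g (m : ℕ) : (rho (g (2 ^ m))).1 (dl (2 ^ m)) (2 ^ m) = 4 := by
  have hs : (rho (∑ j ∈ Finset.range (2 ^ m), o t ^ j)).1 (dl (2 ^ m)) (2 ^ m) = 1 := by
    simp only [map_sum, ← map_pow, rho_o, t_pow]
    rw [AddSubmonoidClass.coe_finsetSum, LinearMap.sum_apply, Finset.sum_apply]
    simp only [op_apply, dl, Pi.single_apply, one_mul]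
    rw [Finset.sum_eq_single 0]
    · simp
    · intro b _ hb; simp [hb]
    · intro h; exact absurd (Finset.mem_range.mpr (by positivity)) h
  have e1 : sg (2 ^ m + 0) = -1 := by unfold sg; rw [if_pos ⟨m, by simp⟩]
  have e2 : sg (2 ^ m + ((2 ^ m : ℕ) : ℤ)) = -1 := by
    unfold sg; rw [if_pos ⟨m + 1, by push_cast; ring⟩]
  have e3 : ∀ (L : ℤ) (f : ℤ → ℚ) (i : ℤ), (1 - (a L : B)).1 f i = (1 - sg (i + L)) * f i := by
    intro L f i
    change f i - sg (i + L) * f (i + 0) = _
    rw [add_zero]; ring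
  unfold g
  rw [map_mul, map_mul, map_sub, map_sub, map_one, rho_o, rho_o, mul_assoc]
  change (1 - (a 0 : B)).1 ((1 - (a ((2 ^ m : ℕ) : ℤ) : B)).1 _) _ = 4
  rw [e3, e3, e1, e2, hs]; norm_num

theorem step {b : R} (hb : b * al = 0) (q : ℤ) (hq : ¬ ∃ m : ℕ, q = 2 ^ m) :
    (rho b).1 (dl q) = (rho b).1 (dl (q - 1)) := by
  have h1 : (rho al).1 (dl q) = (2 : ℚ) • (dl q - dl (q - 1)) := by
    unfold al
    rw [map_mul, map_sub, map_add, map_one, rho_o, rho_o]
    ext i
    change (dl q i + sg (i + 0) * dl q (i + 0)) -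
      1 * (dl q (i + 1) + sg (i + 1 + 0) * dl q (i + 1 + 0)) = 2 * (dl q i - dl (q - 1) i)
    have hs : sg q = 1 := by unfold sg; rw [if_neg hq]
    simp only [dl, Pi.single_apply, add_zero]
    by_cases h1 : i = q
    · subst h1; rw [hs]; simp [show i ≠ i - 1 by omega]; norm_num
    · by_cases h2 : i + 1 = q
      · rw [h2, hs]; simp [h1, show i = q - 1 by omega]; norm_num
      · simp [h1, h2, show i ≠ q - 1 by omega]
  have h2 : (rho b).1 ((rho al).1 (dl q)) = 0 := by
    change (rho b * rho al).1 (dl q) = 0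
    rw [← map_mul, hb, map_zero]; rfl
  rw [h1, map_smul, map_sub, smul_eq_zero, sub_eq_zero] at h2
  exact h2.resolve_left (by norm_num)

theorem kill {b : R} (hb : b * al = 0) {n : ℕ} (hn : Band n (rho b).1) (m : ℕ)
    (hm : 2 * n + 1 < 2 ^ m) : (rho b).1 (dl (2 ^ m)) = 0 := by
  have h1 : ∀ k : ℕ, k < 2 ^ m → (rho b).1 (dl (2 ^ m + k)) = (rho b).1 (dl (2 ^ m)) := by
    intro k
    induction k with
    | zero => simp
    | succ k ih =>
      intro hk
      rw [step hb, ← ih (by omega)]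
      · congr 2; push_cast; ring
      · rintro ⟨l, hl⟩
        have hl' : 2 ^ m + (k + 1) = 2 ^ l := by exact_mod_cast hl
        have : m < l := (Nat.pow_lt_pow_iff_right (a := 2) (by norm_num)).mp (by omega)
        have : 2 ^ (m + 1) ≤ 2 ^ l := Nat.pow_le_pow_right (by norm_num) this
        rw [pow_succ] at this
        omega
  ext i
  by_cases hi : |(2 : ℤ) ^ m - i| ≤ n
  · rw [← h1 (2 * n + 1) hm]
    refine hn _ i fun j hj => ?_
    have : j ≠ 2 ^ m + ((2 * n + 1 : ℕ) : ℤ) := by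
      rintro rfl
      rw [abs_le] at hi hj
      push_cast at hj
      omega
    simp only [dl, Pi.single_apply, if_neg this]
  · refine hn _ i fun j hj => ?_
    have : j ≠ 2 ^ m := by rintro rfl; exact hi hj
    simp only [dl, Pi.single_apply, if_neg this]

theorem main (s : Finset R) (hs : (Submodule.span R (s : Set R) : Set R) = {x : R | x * al = 0}) :
    False := by
  have h1 : ∀ b : R, ∃ n, Band n (rho b).1 := fun b => (rho b).2
  choose n hn using h1
  set N := s.sup n with hN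
  have hm : 2 * N + 1 < 2 ^ (2 * N + 1) := Nat.lt_two_pow_self
  have h2 : ∀ b ∈ Submodule.span R (s : Set R), (rho b).1 (dl (2 ^ (2 * N + 1))) = 0 := by
    intro b hb
    induction hb using Submodule.span_induction with
    | mem x hx =>
      have hx' : x ∈ (Submodule.span R (s : Set R) : Set R) := Submodule.subset_span hx
      rw [hs] at hx'
      exact kill hx' ((hn x).mono (Finset.le_sup (f := n) hx)) _ hm
    | zero => simp
    | add x y _ _ hx hy =>
      rw [map_add]
      change (rho x).1 _ + (rho y).1 _ = 0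
      rw [hx, hy, add_zero]
    | smul c x _ hx =>
      rw [smul_eq_mul, map_mul]
      change (rho c).1 ((rho x).1 _) = 0
      rw [hx, map_zero]
  have h3 : g (2 ^ (2 * N + 1)) ∈ (Submodule.span R (s : Set R) : Set R) := by
    rw [hs]; exact g_al _
  have h4 := rho_g (2 * N + 1)
  rw [h2 _ h3] at h4
  simp at h4

end Pool.Agent.H29.Ann
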