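import Mathlib

set_option autoImplicit false

namespace Pool.Agent.H29.BBL

open MeasureTheory Set Pointwise Filter
open scoped ENNReal

lemma vol_aff (K : Set ℝ) {t : ℝ} (ht : 0 < t) (c : ℝ) :
    volume ((fun x => t * x + c) '' K) = ENNReal.ofReal t * volume K := by
  have : (fun x => t * x + c) '' K = c +ᵥ (t • K) := by
    ext z; simp [mem_vadd_set, mem_smul_set, add_comm]
  rw [this, measure_vadd, Measure.addHaar_smul_of_nonneg _ ht.le]; simp

lemma bm_compact {K L C : Set ℝ} (hK : IsCompact K) (hL : IsCompact L) (nK : K.Nonempty)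
    (nL : L.Nonempty) {t : ℝ} (t0 : 0 < t) (t1 : t < 1)
    (h : ∀ x ∈ K, ∀ y ∈ L, t * x + (1 - t) * y ∈ C) :
    ENNReal.ofReal t * volume K + ENNReal.ofReal (1 - t) * volume L ≤ volume C := by
  obtain ⟨a, ha, ha'⟩ := hK.exists_isGreatest nK
  obtain ⟨b, hb, hb'⟩ := hL.exists_isLeast nL
  rw [← vol_aff K t0 ((1 - t) * b), ← vol_aff L (by linarith : 0 < 1 - t) (t * a),
    ← measure_union₀]
  · refine measure_mono (union_subset ?_ ?_)
    · rintro _ ⟨x, hx, rfl⟩; exact h x hx b hb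
    · rintro _ ⟨y, hy, rfl⟩; simpa [add_comm] using h a ha y hy
  · exact (hL.image (by fun_prop)).measurableSet.nullMeasurableSet
  · refine measure_mono_null (t := {t * a + (1 - t) * b}) ?_ (measure_singleton _)
    rintro _ ⟨⟨x, hx, rfl⟩, y, hy, e⟩
    have h1 := mul_le_mul_of_nonneg_left (ha' hx) t0.le
    have h2 := mul_le_mul_of_nonneg_left (hb' hy) (by linarith : 0 ≤ 1 - t)
    simp only [mem_singleton_iff] at e ⊢
    linarith

lemma bm {A B C : Set ℝ} (hA : MeasurableSet A) (hB : MeasurableSet B) (nA : A.Nonempty)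
    (nB : B.Nonempty) {t : ℝ} (t0 : 0 < t) (t1 : t < 1)
    (h : ∀ x ∈ A, ∀ y ∈ B, t * x + (1 - t) * y ∈ C) :
    ENNReal.ofReal t * volume A + ENNReal.ofReal (1 - t) * volume B ≤ volume C := by
  obtain ⟨a, ha⟩ := nA
  obtain ⟨b, hb⟩ := nB
  rw [hA.measure_eq_iSup_isCompact, hB.measure_eq_iSup_isCompact]
  simp only [iSup_and', ENNReal.mul_iSup]
  refine ENNReal.biSup_add_biSup_le' ⟨∅, by simp⟩ ⟨∅, by simp⟩ fun K hK L hL => ?_
  refine le_trans ?_ (bm_compact (hK.2.insert a) (hL.2.insert b) (insert_nonempty _ _)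
    (insert_nonempty _ _) t0 t1 fun x hx y hy =>
      h x (insert_subset ha hK.1 hx) y (insert_subset hb hL.1 hy))
  gcongr <;> exact subset_insert _ _

lemma norm1 {f g h : ℝ → ℝ} (mf : Measurable f) (mg : Measurable g) (mh : Measurable h)
    (f0 : ∀ x, 0 ≤ f x) (g0 : ∀ x, 0 ≤ g x) (h0 : ∀ x, 0 ≤ h x) (f1 : ∀ x, f x ≤ 1)
    (g1 : ∀ x, g x ≤ 1) (fs : ∀ s < 1, ∃ x, s < f x) (gs : ∀ s < 1, ∃ x, s < g x)
    {t : ℝ} (t0 : 0 < t) (t1 : t < 1)
    (H : ∀ s, 0 < s → ∀ x y, s < f x → s < g y → s ≤ h (t * x + (1 - t) * y)) :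
    ENNReal.ofReal t * (∫⁻ x, ENNReal.ofReal (f x))
      + ENNReal.ofReal (1 - t) * (∫⁻ x, ENNReal.ofReal (g x)) ≤ ∫⁻ x, ENNReal.ofReal (h x) := by
  rw [lintegral_eq_lintegral_meas_lt _ (Eventually.of_forall f0) mf.aemeasurable,
    lintegral_eq_lintegral_meas_lt _ (Eventually.of_forall g0) mg.aemeasurable,
    lintegral_eq_lintegral_meas_le _ (Eventually.of_forall h0) mh.aemeasurable,
    ← lintegral_const_mul' _ _ (by simp), ← lintegral_const_mul' _ _ (by simp),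
    ← lintegral_add_left]
  · refine setLIntegral_mono' measurableSet_Ioi fun s hs => ?_
    by_cases h1 : s < 1
    · exact bm (measurableSet_lt measurable_const mf) (measurableSet_lt measurable_const mg)
        (fs s h1) (gs s h1) t0 t1 fun x hx y hy => H s hs x y hx hy
    · have e1 : {x | s < f x} = ∅ := eq_empty_of_forall_notMem fun x hx => h1 (hx.trans_le (f1 x))
      have e2 : {x | s < g x} = ∅ := eq_empty_of_forall_notMem fun x hx => h1 (hx.trans_le (g1 x))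
      simp [e1, e2]
  · refine Measurable.const_mul (Antitone.measurable fun a b hab => measure_mono ?_) _
    exact fun x hx => hab.trans_lt hx

lemma root (n : ℕ) (hn : n ≠ 0) {z : ℝ} (hz : 0 < z) : ∃ r, 0 < r ∧ r ^ n = z :=
  ⟨z ^ (n : ℝ)⁻¹, Real.rpow_pos_of_pos hz _, Real.rpow_inv_natCast_pow hz.le hn⟩

lemma sup_root (n : ℕ) (hn : n ≠ 0) {f : ℝ → ℝ} {M : ℝ} (fM : ∀ x, f x ≤ M)
    (fp : ∫⁻ x, ENNReal.ofReal (f x) ≠ 0) :
    ∃ α, 0 < α ∧ (∀ x, α ^ n * f x ≤ 1) ∧ ∀ s < 1, ∃ x, s < α ^ n * f x := by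
  have bd : BddAbove (range f) := ⟨M, by rintro _ ⟨x, rfl⟩; exact fM x⟩
  have hp : 0 < ⨆ x, f x := by
    by_contra hc
    apply fp
    have : ∀ x, ENNReal.ofReal (f x) = 0 := fun x =>
      ENNReal.ofReal_eq_zero.2 ((le_ciSup bd x).trans (not_lt.1 hc))
    simp [this]
  obtain ⟨α, a0, a1⟩ := root n hn (inv_pos.2 hp)
  refine ⟨α, a0, fun x => ?_, fun s hs => ?_⟩
  · rw [a1, inv_mul_le_iff₀ hp, mul_one]; exact le_ciSup bd x
  · obtain ⟨x, hx⟩ := exists_lt_of_lt_ciSup (show (⨆ x, f x) * s < ⨆ x, f x by nlinarith)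
    exact ⟨x, by rwa [a1, lt_inv_mul_iff₀ hp]⟩

lemma core (n : ℕ) (hn : n ≠ 0) {f g h : ℝ → ℝ} (mf : Measurable f) (mg : Measurable g)
    (mh : Measurable h) (f0 : ∀ x, 0 ≤ f x) (g0 : ∀ x, 0 ≤ g x) (h0 : ∀ x, 0 ≤ h x) {M : ℝ}
    (fM : ∀ x, f x ≤ M) (gM : ∀ x, g x ≤ M) (fp : ∫⁻ x, ENNReal.ofReal (f x) ≠ 0)
    (gp : ∫⁻ x, ENNReal.ofReal (g x) ≠ 0) {t : ℝ} (t0 : 0 < t) (t1 : t < 1)
    (H : ∀ a b x y, 0 < a → 0 < b → 1 ≤ a ^ n * f x → 1 ≤ b ^ n * g y →
      1 ≤ (t * a + (1 - t) * b) ^ n * h (t * x + (1 - t) * y)) :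
    ∃ α β, 0 < α ∧ 0 < β ∧ ENNReal.ofReal (t * α ^ n) * (∫⁻ x, ENNReal.ofReal (f x))
      + ENNReal.ofReal ((1 - t) * β ^ n) * (∫⁻ x, ENNReal.ofReal (g x))
      ≤ ENNReal.ofReal ((t * α + (1 - t) * β) ^ n) * ∫⁻ x, ENNReal.ofReal (h x) := by
  obtain ⟨α, a0, a1, a2⟩ := sup_root n hn fM fp
  obtain ⟨β, b0, b1, b2⟩ := sup_root n hn gM gp
  have t2 : 0 < 1 - t := by linarith
  refine ⟨α, β, a0, b0, ?_⟩
  have := norm1 (f := fun x => α ^ n * f x) (g := fun x => β ^ n * g x)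
    (h := fun x => (t * α + (1 - t) * β) ^ n * h x) (by fun_prop) (by fun_prop) (by fun_prop)
    (fun x => by have := f0 x; positivity) (fun x => by have := g0 x; positivity)
    (fun x => by have := h0 x; positivity) a1 b1 a2 b2 t0 t1 (fun s hs x y hx hy => by
      obtain ⟨r, r0, r1⟩ := root n hn (inv_pos.2 hs)
      have := H (r * α) (r * β) x y (by positivity) (by positivity)
        (by rw [mul_pow, r1, mul_assoc, le_inv_mul_iff₀ hs, mul_one]; exact hx.le)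
        (by rw [mul_pow, r1, mul_assoc, le_inv_mul_iff₀ hs, mul_one]; exact hy.le)
      rwa [show t * (r * α) + (1 - t) * (r * β) = r * (t * α + (1 - t) * β) by ring, mul_pow, r1,
        mul_assoc, le_inv_mul_iff₀ hs, mul_one] at this)
  simp only [ENNReal.ofReal_mul (pow_pos a0 n).le, ENNReal.ofReal_mul (pow_pos b0 n).le,
    ENNReal.ofReal_mul (by positivity : 0 ≤ (t * α + (1 - t) * β) ^ n),
    lintegral_const_mul' _ _ ENNReal.ofReal_ne_top] at this
  rwa [ENNReal.ofReal_mul t0.le, ENNReal.ofReal_mul t2.le, mul_assoc, mul_assoc]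

theorem bbl2 {f g h : ℝ × ℝ → ℝ} (mf : Measurable f) (mg : Measurable g) (mh : Measurable h)
    {R : ℝ} (hf : ∀ x, 0 ≤ f x ∧ f x ≤ (Icc (-R) R).indicator 1 x.2)
    (hg : ∀ x, 0 ≤ g x ∧ g x ≤ (Icc (-R) R).indicator 1 x.2)
    (hh : ∀ x, 0 ≤ h x ∧ h x ≤ (Icc (-R) R).indicator 1 x.2) {t : ℝ} (t0 : 0 < t) (t1 : t < 1)
    (H : ∀ a b x y, 0 < a → 0 < b → 1 ≤ a ^ 2 * f x → 1 ≤ b ^ 2 * g y →
      1 ≤ (t * a + (1 - t) * b) ^ 2 * h (t • x + (1 - t) • y)) :
    min (∫⁻ x, ENNReal.ofReal (f x)) (∫⁻ x, ENNReal.ofReal (g x))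
      ≤ ∫⁻ x, ENNReal.ofReal (h x) := by
  have t2 : 0 < 1 - t := by linarith
  have sec : ∀ u : ℝ × ℝ → ℝ, (∀ x, 0 ≤ u x ∧ u x ≤ (Icc (-R) R).indicator 1 x.2) → ∀ x,
      ∫⁻ y, ENNReal.ofReal (u (x, y)) ≤ ENNReal.ofReal (R - -R) := by
    intro u hu x
    rw [← Real.volume_Icc, ← lintegral_indicator_one measurableSet_Icc]
    refine lintegral_mono fun y => ?_
    have := (hu (x, y)).2
    by_cases hy : y ∈ Icc (-R) R <;> simp_all
  have le1 : ∀ u : ℝ × ℝ → ℝ, (∀ x, 0 ≤ u x ∧ u x ≤ (Icc (-R) R).indicator 1 x.2) → ∀ x,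
      u x ≤ 1 := fun u hu x => (hu x).2.trans (indicator_apply_le' (fun _ => le_rfl)
        fun _ => zero_le_one)
  have fin : ∀ u : ℝ × ℝ → ℝ, (∀ x, 0 ≤ u x ∧ u x ≤ (Icc (-R) R).indicator 1 x.2) → ∀ x,
      ∫⁻ y, ENNReal.ofReal (u (x, y)) ≠ ⊤ := fun u hu x =>
    ne_top_of_le_ne_top (by simp) (sec u hu x)
  have fub : ∀ u : ℝ × ℝ → ℝ, Measurable u →
      (∀ x, 0 ≤ u x ∧ u x ≤ (Icc (-R) R).indicator 1 x.2) → ∫⁻ x, ENNReal.ofReal (u x)
      = ∫⁻ x, ENNReal.ofReal (∫⁻ y, ENNReal.ofReal (u (x, y))).toReal := by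
    intro u mu hu
    simp only [ENNReal.ofReal_toReal (fin u hu _)]
    rw [Measure.volume_eq_prod, lintegral_prod _ (by fun_prop)]
  have ms : ∀ u : ℝ × ℝ → ℝ, Measurable u →
      Measurable fun x => (∫⁻ y, ENNReal.ofReal (u (x, y))).toReal := fun u mu =>
    (Measurable.lintegral_prod_right' (f := fun p => ENNReal.ofReal (u p))
      (by fun_prop)).ennreal_toReal
  by_cases z : min (∫⁻ x, ENNReal.ofReal (f x)) (∫⁻ x, ENNReal.ofReal (g x)) = 0
  · rw [z]; exact zero_le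
  rw [min_eq_zero, not_or] at z
  rw [fub f mf hf] at z ⊢
  rw [fub g mg hg] at z ⊢
  rw [fub h mh hh]
  obtain ⟨α, β, a0, b0, k⟩ := core 1 one_ne_zero (ms f mf) (ms g mg) (ms h mh)
    (fun _ => ENNReal.toReal_nonneg) (fun _ => ENNReal.toReal_nonneg)
    (fun _ => ENNReal.toReal_nonneg) (M := (ENNReal.ofReal (R - -R)).toReal)
    (fun x => ENNReal.toReal_mono (by simp) (sec f hf x))
    (fun x => ENNReal.toReal_mono (by simp) (sec g hg x)) z.1 z.2 t0 t1 (by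
      intro a b x y a0 b0 ha hb
      have p1 : ∫⁻ y, ENNReal.ofReal (f (x, y)) ≠ 0 := fun e => by
        rw [e] at ha; norm_num at ha
      have p2 : ∫⁻ z, ENNReal.ofReal (g (y, z)) ≠ 0 := fun e => by
        rw [e] at hb; norm_num at hb
      obtain ⟨α, β, α0, β0, k⟩ := core 2 two_ne_zero (f := fun z => f (x, z))
        (g := fun z => g (y, z)) (h := fun z => h (t * x + (1 - t) * y, z)) (by fun_prop)
        (by fun_prop) (by fun_prop) (fun _ => (hf _).1) (fun _ => (hg _).1) (fun _ => (hh _).1)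
        (fun _ => le1 f hf _) (fun _ => le1 g hg _) p1 p2 t0 t1
        (fun a b u v a0 b0 h1 h2 => H a b (x, u) (y, v) a0 b0 h1 h2)
      have k' := ENNReal.toReal_mono (ENNReal.mul_ne_top (by simp) (fin h hh _)) k
      rw [ENNReal.toReal_add (ENNReal.mul_ne_top (by simp) (fin f hf _))
        (ENNReal.mul_ne_top (by simp) (fin g hg _)), ENNReal.toReal_mul, ENNReal.toReal_mul,
        ENNReal.toReal_mul, ENNReal.toReal_ofReal (by positivity),
        ENNReal.toReal_ofReal (by positivity), ENNReal.toReal_ofReal (by positivity)] at k'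
      generalize (∫⁻ y, ENNReal.ofReal (f (x, y))).toReal = I at *
      generalize (∫⁻ z, ENNReal.ofReal (g (y, z))).toReal = J at *
      generalize (∫⁻ z, ENNReal.ofReal (h (t * x + (1 - t) * y, z))).toReal = K at *
      rw [pow_one] at *
      have i1 : 1 / a ≤ I := by rw [div_le_iff₀' a0]; exact ha
      have i2 : 1 / b ≤ J := by rw [div_le_iff₀' b0]; exact hb
      have cs : (t * α + (1 - t) * β) ^ 2
          ≤ (t * a + (1 - t) * b) * (t * α ^ 2 * (1 / a) + (1 - t) * β ^ 2 * (1 / b)) := by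
        have : (t * a + (1 - t) * b) * (t * α ^ 2 * (1 / a) + (1 - t) * β ^ 2 * (1 / b))
            - (t * α + (1 - t) * β) ^ 2 = t * (1 - t) * (a * β - b * α) ^ 2 / (a * b) := by
          field_simp; ring
        have : 0 ≤ t * (1 - t) * (a * β - b * α) ^ 2 / (a * b) := by positivity
        linarith
      have c0 : 0 < (t * α + (1 - t) * β) ^ 2 := by positivity
      refine le_of_mul_le_mul_left ?_ c0
      calc _ = (t * α + (1 - t) * β) ^ 2 := mul_one _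
        _ ≤ _ := cs
        _ ≤ (t * a + (1 - t) * b) * (t * α ^ 2 * I + (1 - t) * β ^ 2 * J) := by gcongr
        _ ≤ (t * a + (1 - t) * b) * ((t * α + (1 - t) * β) ^ 2 * K) := by gcongr
        _ = _ := by ring)
  simp only [pow_one] at k
  refine (ENNReal.mul_le_mul_iff_right (a := ENNReal.ofReal (t * α + (1 - t) * β))
    (by simp only [ne_eq, ENNReal.ofReal_eq_zero, not_le]; positivity) (by simp)).1
    (le_trans ?_ k)
  rw [ENNReal.ofReal_add (by positivity) (by positivity), add_mul]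
  gcongr
  · exact min_le_left _ _
  · exact min_le_right _ _

end Pool.Agent.H29.BBL
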