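import Mathlib

open Set Filter

namespace Pool.Agent.H29.Brauer

theorem vdw_fin (κ : Type) [Finite κ] (L : ℕ) : ∃ M : ℕ, ∀ χ : ℕ → κ, ∃ b e : ℕ, 0 < b ∧ 0 < e ∧
    b + L * e ≤ M ∧ ∀ s ≤ L, χ (b + s * e) = χ b := by
  let _ : TopologicalSpace κ := ⊥
  have : DiscreteTopology κ := ⟨rfl⟩
  let U : ℕ × ℕ → Set (ℕ → κ) := fun p =>
    {χ | ∀ s ∈ Finset.range (L + 1), χ (p.1 + 1 + s * (p.2 + 1)) = χ (p.1 + 1)}
  have hU : ∀ p, IsOpen (U p) := fun p => by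
    simp only [U, ofPred_forall]
    refine isOpen_biInter_finset fun s _ => ?_
    have hc : Continuous fun χ : ℕ → κ => (χ (p.1 + 1 + s * (p.2 + 1)), χ (p.1 + 1)) :=
      (continuous_apply _).prodMk (continuous_apply _)
    exact (isOpen_discrete {q : κ × κ | q.1 = q.2}).preimage hc
  obtain ⟨t, ht⟩ := isCompact_univ.elim_finite_subcover U hU fun χ _ => by
    obtain ⟨e, he, b, c, h⟩ := Combinatorics.exists_mono_homothetic_copy (Finset.range (L + 1))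
      fun n => χ (n + 1)
    refine mem_iUnion.2 ⟨(b, e - 1), fun s hs => ?_⟩
    have h1 := h s hs
    have h0 := h 0 (by simp)
    simp only [smul_eq_mul, mul_zero, zero_add] at h1 h0
    rw [h0, ← h1, Nat.sub_add_cancel he]
    congr 1
    ring
  refine ⟨t.sup fun p => p.1 + 1 + L * (p.2 + 1), fun χ => ?_⟩
  obtain ⟨p, hp, hχ⟩ := mem_iUnion₂.1 (ht (mem_univ χ))
  exact ⟨p.1 + 1, p.2 + 1, by omega, by omega,
    Finset.le_sup (f := fun p : ℕ × ℕ => p.1 + 1 + L * (p.2 + 1)) hp,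
    fun s hs => hχ s (Finset.mem_range.2 (by omega))⟩

theorem brauer_fin (κ : Type) [Finite κ] (n : ℕ) : ∃ N : ℕ, ∀ S : Finset κ, S.card ≤ n →
    ∀ χ : ℕ → κ, (∀ j, 1 ≤ j → j ≤ N → χ j ∈ S) → ∃ a d : ℕ, 0 < a ∧ 0 < d ∧ a + 2 * d ≤ N ∧
      χ d = χ a ∧ χ (a + d) = χ a ∧ χ (a + 2 * d) = χ a := by
  classical
  induction n with
  | zero =>
    refine ⟨1, fun S hS χ h => ?_⟩
    have := h 1 le_rfl le_rfl
    rw [Finset.card_eq_zero.1 (Nat.le_zero.1 hS)] at this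
    simp at this
  | succ n ih =>
    obtain ⟨N, hN⟩ := ih
    obtain ⟨M, hM⟩ := vdw_fin κ (2 * N)
    refine ⟨M, fun S hS χ h => ?_⟩
    obtain ⟨b, e, hb, he, hle, hmono⟩ := hM χ
    by_cases hj : ∃ j, 1 ≤ j ∧ j ≤ N ∧ χ (j * e) = χ b
    · obtain ⟨j, h1, h2, h3⟩ := hj
      refine ⟨b, j * e, hb, by positivity, by nlinarith, h3, hmono j (by omega), ?_⟩
      rw [← mul_assoc]
      exact hmono _ (by omega)
    · push Not at hj
      have hbS : χ b ∈ S := h b hb (by omega)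
      obtain ⟨a, d, ha, hd, h1, h2, h3, h4⟩ := hN (S.erase (χ b))
        (by rw [Finset.card_erase_of_mem hbS]; omega) (fun j => χ (j * e)) fun j h1 h2 =>
          Finset.mem_erase.2 ⟨hj j h1 h2, h _ (Nat.mul_pos h1 he) (by nlinarith)⟩
      refine ⟨a * e, d * e, by positivity, by positivity, by nlinarith, h2, ?_, ?_⟩
      · rw [← add_mul]; exact h3
      · rw [← mul_assoc, ← add_mul]; exact h4

def Br (A : Set ℕ) : Prop := ∃ a d : ℕ, 0 < a ∧ 0 < d ∧ d ∈ A ∧ a ∈ A ∧ a + d ∈ A ∧ a + 2 * d ∈ A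

theorem exists_ultra : ∃ U : Ultrafilter ℕ, ∀ A ∈ U, Br A := by
  classical
  obtain ⟨U, hU⟩ := Ultrafilter.exists_ultrafilter_of_finite_inter_nonempty {B | ¬ Br Bᶜ}
    fun T hT => by
      by_contra hno
      have : ∀ n : ℕ, ∃ B : T, n ∉ (B : Set ℕ) := fun n => by
        by_contra h
        push Not at h
        exact hno ⟨n, fun B hB => h ⟨B, hB⟩⟩
      choose χ hχ using this
      obtain ⟨N, hN⟩ := brauer_fin T (Fintype.card T)
      obtain ⟨a, d, ha, hd, -, h2, h3, h4⟩ := hN Finset.univ le_rfl χ fun _ _ _ => Finset.mem_univ _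
      exact hT (χ a).2 ⟨a, d, ha, hd, h2 ▸ hχ d, hχ a, h3 ▸ hχ _, h4 ▸ hχ _⟩
  refine ⟨U, fun A hA => ?_⟩
  by_contra h
  have : Aᶜ ∈ U := hU (show ¬ Br Aᶜᶜ by rwa [compl_compl])
  exact (Ultrafilter.compl_mem_iff_notMem.1 this) hA

theorem exists_idem : ∃ U : Ultrafilter ℕ, (∀ A ∈ U, Br A) ∧
    ∀ A ∈ U, ∀ᶠ w in (U : Filter ℕ), ∀ᶠ x in (U : Filter ℕ), w * x ∈ A := by
  let _ := @Ultrafilter.semigroup ℕ _
  obtain ⟨U, hU, hUU⟩ := exists_idempotent_in_compact_subsemigroup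
    (M := Ultrafilter ℕ) Ultrafilter.continuous_mul_left {U | ∀ A ∈ U, Br A} exists_ultra
    (by
      apply IsClosed.isCompact
      have : {U : Ultrafilter ℕ | ∀ A ∈ U, Br A} = ⋂ A ∈ {A | ¬ Br A}, {U | Aᶜ ∈ U} := by
        ext U
        simp only [mem_ofPred_eq, mem_iInter, Ultrafilter.compl_mem_iff_notMem]
        exact forall_congr' fun A => not_imp_not.symm
      rw [this]
      exact isClosed_biInter fun A _ => ultrafilter_isClosed_basic _)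
    (by
      intro U hU V hV A hA
      obtain ⟨w, e, hw, -, -, hwA, -⟩ := hU _ ((Ultrafilter.eventually_mul U V (· ∈ A)).1 hA)
      obtain ⟨a, d, ha, hd, h1, h2, h3, h4⟩ := hV _ hwA
      refine ⟨w * a, w * d, by positivity, by positivity, h1, h2, ?_, ?_⟩
      · rw [← mul_add]; exact h3
      · rw [mul_left_comm, ← mul_left_comm 2, mul_left_comm, ← mul_add]; exact h4)
  refine ⟨U, hU, fun A hA => (Ultrafilter.eventually_mul U U (· ∈ A)).1 ?_⟩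
  rw [hUU]
  exact hA

theorem config (r : ℕ) (χ : ℕ → Fin r) : ∃ w a d : ℕ, ∃ c, 0 < w ∧ 0 < a ∧ 0 < d ∧ χ w = c ∧
    χ d = c ∧ χ (a + d) = c ∧ χ (w * a) = c ∧ χ (w * d) = c ∧ χ (w * (a + 2 * d)) = c := by
  obtain ⟨U, hU, hUU⟩ := exists_idem
  obtain ⟨c, hc⟩ : ∃ c, {n | χ n = c} ∈ U := by
    obtain ⟨c, hc⟩ := Ultrafilter.eq_pure_of_finite (U.map χ)
    exact ⟨c, show {c} ∈ U.map χ by rw [hc]; simp⟩
  obtain ⟨w, e, hw, -, -, ⟨hwc, hwA⟩, -⟩ := hU _ (inter_mem hc (hUU _ hc))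
  obtain ⟨a, d, ha, hd, h1, h2, h3, h4⟩ := hU _ (inter_mem hc hwA)
  exact ⟨w, a, d, c, hw, ha, hd, hwc, h1.1, h3.1, h2.2, h1.2, h4.2⟩

end Pool.Agent.H29.Brauer
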