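import Mathlib

set_option autoImplicit false

namespace Pool.Agent.H29.Burau

open Matrix
open scoped ComplexOrder

/-- A continuous path of nondegenerate Hermitian matrices starting positive definite stays so. -/
theorem posdef_path {n : Type} [Fintype n] [DecidableEq n] (K : ℝ → Matrix n n ℂ)
    (hc : Continuous K) (hh : ∀ θ, (K θ).IsHermitian)
    (hnd : ∀ θ x, K θ *ᵥ x = 0 → x = 0)
    (h0 : ∀ x, x ≠ 0 → 0 < (star x ⬝ᵥ K 0 *ᵥ x).re) :
    ∀ θ x, x ≠ 0 → 0 < (star x ⬝ᵥ K θ *ᵥ x).re := by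
  intro θ₁ x₁ hx₁
  by_contra hneg
  push Not at hneg
  set S : Set (n → ℂ) := Metric.sphere 0 1 with hS
  have hScomp : IsCompact S := isCompact_sphere 0 1
  set q : ℝ → (n → ℂ) → ℝ := fun θ x => (star x ⬝ᵥ K θ *ᵥ x).re with hq
  have hqc : Continuous (fun p : ℝ × (n → ℂ) => q p.1 p.2) := by
    simp only [hq]
    refine Complex.continuous_re.comp ?_
    refine Continuous.dotProduct (continuous_star.comp continuous_snd) ?_
    exact Continuous.matrix_mulVec (hc.comp continuous_fst) continuous_snd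
  have hscale : ∀ θ (x : n → ℂ) (c : ℝ), q θ ((c : ℂ) • x) = c ^ 2 * q θ x := by
    intro θ x c
    simp only [hq, star_smul, mulVec_smul, smul_dotProduct, dotProduct_smul, smul_eq_mul]
    have : (star (c : ℂ)) = (c : ℂ) := by simp
    rw [this, ← mul_assoc, ← Complex.ofReal_mul, Complex.re_ofReal_mul]; ring
  have hnorm : ∀ x : n → ℂ, x ≠ 0 → (((‖x‖⁻¹ : ℝ) : ℂ) • x) ∈ S := by
    intro x hx
    have : ‖x‖ ≠ 0 := norm_ne_zero_iff.mpr hx
    simp [hS, norm_smul, this]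
  have hSne : S.Nonempty := ⟨_, hnorm x₁ hx₁⟩
  set f : ℝ → ℝ := fun θ => sInf (q θ '' S) with hf
  have hfc : Continuous f := hScomp.continuous_sInf (f := q) hqc
  have hqc' : ∀ θ, ContinuousOn (q θ) S := fun θ =>
    (hqc.comp (Continuous.prodMk continuous_const continuous_id)).continuousOn
  have hmin : ∀ θ, ∃ x ∈ S, f θ = q θ x := fun θ => by
    obtain ⟨x, hx, h⟩ := hScomp.exists_sInf_image_eq hSne (hqc' θ)
    exact ⟨x, hx, h⟩
  have hle : ∀ θ, ∀ x ∈ S, f θ ≤ q θ x := fun θ x hx =>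
    csInf_le (hScomp.bddBelow_image (hqc' θ)) ⟨x, hx, rfl⟩
  have hne0 : ∀ x ∈ S, x ≠ 0 := by
    intro x hx h
    rw [h] at hx
    simp [hS] at hx
  have hf0 : 0 < f 0 := by
    obtain ⟨x, hx, h⟩ := hmin 0
    rw [h]; exact h0 x (hne0 x hx)
  have hf1 : f θ₁ ≤ 0 := by
    refine (hle θ₁ _ (hnorm x₁ hx₁)).trans ?_
    rw [hscale]
    exact mul_nonpos_of_nonneg_of_nonpos (sq_nonneg _) hneg
  obtain ⟨θ₀, hθ₀⟩ : ∃ θ₀, f θ₀ = 0 := by
    have := intermediate_value_univ θ₁ 0 hfc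
    exact this ⟨hf1, hf0.le⟩
  have hpsd : (K θ₀).PosSemidef := by
    refine PosSemidef.of_dotProduct_mulVec_nonneg (hh θ₀) ?_
    intro x
    have him : (star x ⬝ᵥ K θ₀ *ᵥ x).im = 0 := by
      have := (hh θ₀).im_star_dotProduct_mulVec_self x
      simpa using this
    have hre : 0 ≤ (star x ⬝ᵥ K θ₀ *ᵥ x).re := by
      by_cases hx : x = 0
      · simp [hx]
      · have h1 := hle θ₀ _ (hnorm x hx)
        rw [hscale, hθ₀] at h1
        have hpos : 0 < (‖x‖⁻¹) ^ 2 := by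
          have : 0 < ‖x‖ := norm_pos_iff.mpr hx
          positivity
        exact (mul_nonneg_iff_of_pos_left hpos).mp h1
    rw [Complex.nonneg_iff]
    exact ⟨hre, him.symm⟩
  obtain ⟨x, hx, h⟩ := hmin θ₀
  have hz : star x ⬝ᵥ K θ₀ *ᵥ x = 0 := by
    apply Complex.ext
    · rw [hθ₀] at h; simpa [hq] using h.symm
    · have := (hh θ₀).im_star_dotProduct_mulVec_self x
      simpa using this
  have := (hpsd.dotProduct_mulVec_zero_iff x).mp hz
  exact hne0 x hx (hnd θ₀ x this)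


/-- The invariant sesquilinear form. -/
def Om (n : ℕ) (t : ℂ) : Matrix (Fin n) (Fin n) ℂ :=
  Matrix.of fun a b => if a = b then 1 else if b < a then 1 - t else 0

def Inv {n : ℕ} (t : ℂ) (B : Matrix (Fin n) (Fin n) ℂ) : Prop :=
  Bᵀᴴ * Om n t * Bᵀ = Om n t ∧ B *ᵥ (fun _ => 1) = fun _ => 1

theorem Inv.one {n : ℕ} (t : ℂ) : Inv (n := n) t 1 := by
  constructor <;> simp

theorem Inv.mul {n : ℕ} {t : ℂ} {B C : Matrix (Fin n) (Fin n) ℂ} (hB : Inv t B) (hC : Inv t C) :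
    Inv t (B * C) := by
  constructor
  · rw [transpose_mul, conjTranspose_mul]
    calc Bᵀᴴ * Cᵀᴴ * Om n t * (Cᵀ * Bᵀ) = Bᵀᴴ * (Cᵀᴴ * Om n t * Cᵀ) * Bᵀ := by
          simp only [Matrix.mul_assoc]
      _ = _ := by rw [hC.1, hB.1]
  · rw [← mulVec_mulVec, hC.2, hB.2]

theorem Om_det (n : ℕ) (t : ℂ) : (Om n t).det = 1 := by
  rw [Matrix.det_of_isLowerTriangular]
  · simp [Om]
  · intro a b hab
    have h : a < b := hab
    simp [Om, h.ne, not_lt.mpr h.le]

theorem Om_sub (n : ℕ) (t : ℂ) (ht : t * star t = 1) :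
    Om n t - t • (Om n t)ᴴ = (1 - t) • vecMulVec (fun _ => 1) (fun _ => 1) := by
  ext a b
  simp only [Om, Matrix.sub_apply, Matrix.smul_apply, conjTranspose_apply, of_apply,
    vecMulVec_apply, smul_eq_mul]
  rcases lt_trichotomy a b with h | h | h
  · simp only [h.ne, h.ne', h, not_lt.mpr h.le, if_true, if_false, star_sub, star_one]
    linear_combination ht
  · subst h; simp
  · simp [h.ne, h.ne', h, not_lt.mpr h.le]

theorem rank_one {n : ℕ} (t c : ℂ) (i j : Fin n) (hij : (j : ℕ) = i + 1) (ht : t * star t = 1)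
    (hc : -star c - c * t + star c * c * (1 + t) = 0) :
    Inv t (1 + c • vecMulVec (Pi.single i (-t) + Pi.single j 1 : Fin n → ℂ)
      (Pi.single i 1 - Pi.single j 1 : Fin n → ℂ)) := by
  set u : Fin n → ℂ := Pi.single i (-t) + Pi.single j 1 with hu
  set v : Fin n → ℂ := Pi.single i 1 - Pi.single j 1 with hv
  have hlt : i < j := by rw [Fin.lt_def]; omega
  have hsv : star v = v := by
    ext a; simp only [hv, Pi.star_apply, Pi.sub_apply, Pi.single_apply, star_sub]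
    split_ifs <;> simp
  have h1 : Om n t *ᵥ v = (-t) • star u := by
    ext a
    simp only [hv, hu, mulVec_sub, mulVec_single_one, Pi.sub_apply, Pi.smul_apply, Pi.star_apply,
      Pi.add_apply, Pi.single_apply, col_apply, Om, of_apply, smul_eq_mul, star_add, Fin.ext_iff,
      Fin.lt_def]
    split_ifs <;> first | omega | (simp; done) | (simp only [star_neg, star_zero]; linear_combination -ht) | skip
  have h2 : v ᵥ* Om n t = -u := by
    ext a
    simp only [hv, hu, sub_vecMul, single_one_vecMul, Pi.sub_apply, Pi.neg_apply,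
      Pi.add_apply, Pi.single_apply, row_apply, Om, of_apply, Fin.ext_iff,
      Fin.lt_def]
    split_ifs <;> first | omega | (simp; done) | skip
  have h3 : v ᵥ* Om n t ⬝ᵥ v = 1 + t := by
    rw [h2]
    simp [hu, hv, hlt.ne, hlt.ne', add_comm]
  constructor
  · simp only [transpose_add, transpose_one, transpose_smul, transpose_vecMulVec,
      conjTranspose_add, conjTranspose_one, conjTranspose_smul, conjTranspose_vecMulVec, hsv,
      Matrix.add_mul, Matrix.mul_add, Matrix.one_mul, Matrix.mul_one, Matrix.smul_mul,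
      Matrix.mul_smul, vecMulVec_mul, mul_vecMulVec]
    rw [add_mulVec, smul_mulVec, h1, vecMulVec_mulVec, h3, h2]
    ext a b
    simp only [Matrix.add_apply, Matrix.smul_apply, vecMulVec_apply, Pi.smul_apply, Pi.neg_apply,
      Pi.add_apply,
      smul_eq_mul, MulOpposite.smul_eq_mul_unop, MulOpposite.unop_op]
    linear_combination (star u a * u b) * hc
  · rw [add_mulVec, one_mulVec, smul_mulVec, vecMulVec_mulVec]
    have : v ⬝ᵥ (fun _ => (1 : ℂ)) = 0 := by
      simp [hv, sub_dotProduct]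
    rw [this]; simp


theorem Inv.pow {n : ℕ} {t : ℂ} {B : Matrix (Fin n) (Fin n) ℂ} (hB : Inv t B) (k : ℕ) :
    Inv t (B ^ k) := by
  induction k with
  | zero => simpa using Inv.one t
  | succ k ih => rw [pow_succ]; exact ih.mul hB

/-- averaging projector -/
noncomputable def Pj {n : ℕ} (k : ℕ) (A : Matrix (Fin n) (Fin n) ℂ) : Matrix (Fin n) (Fin n) ℂ :=
  ((k : ℂ)⁻¹) • ∑ j ∈ Finset.range k, A ^ j

theorem mul_Pj {n k : ℕ} {A : Matrix (Fin n) (Fin n) ℂ} (hA : A ^ k = 1) :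
    A * Pj k A = Pj k A := by
  unfold Pj
  rw [Matrix.mul_smul, Finset.mul_sum]
  congr 1
  have h1 := Finset.sum_range_succ (fun j => A ^ j) k
  have h2 := Finset.sum_range_succ' (fun j => A ^ j) k
  simp only [hA, pow_zero] at h1 h2
  rw [h1] at h2
  have := add_right_cancel h2
  rw [this]
  simp only [pow_succ']

theorem pow_mul_Pj {n k : ℕ} {A : Matrix (Fin n) (Fin n) ℂ} (hA : A ^ k = 1) (j : ℕ) :
    A ^ j * Pj k A = Pj k A := by
  induction j with
  | zero => simp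
  | succ j ih => rw [pow_succ, Matrix.mul_assoc, mul_Pj hA, ih]

theorem Pj_comm {n k : ℕ} (A : Matrix (Fin n) (Fin n) ℂ) (j : ℕ) :
    Pj k A * A ^ j = A ^ j * Pj k A := by
  unfold Pj
  rw [Matrix.mul_smul, Matrix.smul_mul, Finset.mul_sum, Finset.sum_mul]
  congr 1
  refine Finset.sum_congr rfl fun i _ => ?_
  rw [← pow_add, ← pow_add, add_comm]

theorem Pj_idem {n k : ℕ} {A : Matrix (Fin n) (Fin n) ℂ} (hA : A ^ k = 1) (hk : 0 < k) :
    Pj k A * Pj k A = Pj k A := by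
  have hk' : (k : ℂ) ≠ 0 := by exact_mod_cast hk.ne'
  conv_lhs => enter [1]; unfold Pj
  rw [Matrix.smul_mul, Finset.sum_mul]
  simp only [pow_mul_Pj hA, Finset.sum_const, Finset.card_range]
  rw [← Nat.cast_smul_eq_nsmul ℂ, smul_smul, inv_mul_cancel₀ hk', one_smul]

theorem Pj_adj {n k : ℕ} {t : ℂ} {B : Matrix (Fin n) (Fin n) ℂ} (hB : Inv t B) (hA : Bᵀ ^ k = 1)
    (hk : 0 < k) : (Pj k Bᵀ)ᴴ * Om n t = Om n t * Pj k Bᵀ := by
  have hk' : (k : ℂ) ≠ 0 := by exact_mod_cast hk.ne'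
  have hj : ∀ j, (Bᵀ ^ j)ᴴ * Om n t * Bᵀ ^ j = Om n t := fun j => by
    have := (hB.pow j).1
    rwa [transpose_pow] at this
  -- (A^j)ᴴ Ω P = Ω P
  have h1 : ∀ j, (Bᵀ ^ j)ᴴ * (Om n t * Pj k Bᵀ) = Om n t * Pj k Bᵀ := fun j => by
    conv_lhs => rw [← pow_mul_Pj hA j]
    rw [← Matrix.mul_assoc, ← Matrix.mul_assoc, hj]
  have h2 : ∀ j, ((Pj k Bᵀ)ᴴ * Om n t) * Bᵀ ^ j = (Pj k Bᵀ)ᴴ * Om n t := fun j => by
    have : (Pj k Bᵀ)ᴴ = (Pj k Bᵀ)ᴴ * (Bᵀ ^ j)ᴴ := by
      rw [← conjTranspose_mul, pow_mul_Pj hA]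
    conv_lhs => rw [this]
    rw [Matrix.mul_assoc (Pj k Bᵀ)ᴴ, Matrix.mul_assoc (Pj k Bᵀ)ᴴ, hj]
  have h3 : (Pj k Bᵀ)ᴴ * (Om n t * Pj k Bᵀ) = Om n t * Pj k Bᵀ := by
    conv_lhs => enter [1]; unfold Pj
    rw [conjTranspose_smul, conjTranspose_sum, Matrix.smul_mul, Finset.sum_mul]
    simp only [h1, Finset.sum_const, Finset.card_range]
    rw [← Nat.cast_smul_eq_nsmul ℂ, smul_smul]
    simp [hk']
  have h4 : ((Pj k Bᵀ)ᴴ * Om n t) * Pj k Bᵀ = (Pj k Bᵀ)ᴴ * Om n t := by
    conv_lhs => enter [2]; unfold Pj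
    rw [Matrix.mul_smul, Finset.mul_sum]
    simp only [h2, Finset.sum_const, Finset.card_range]
    rw [← Nat.cast_smul_eq_nsmul ℂ, smul_smul]
    simp [hk']
  rw [← h4, Matrix.mul_assoc, h3]

theorem one_vecMul_Pj {n k : ℕ} {t : ℂ} {B : Matrix (Fin n) (Fin n) ℂ} (hB : Inv t B)
    (hk : 0 < k) : (fun _ => (1 : ℂ)) ᵥ* Pj k Bᵀ = fun _ => 1 := by
  have hk' : (k : ℂ) ≠ 0 := by exact_mod_cast hk.ne'
  have hj : ∀ j, (fun _ => (1 : ℂ)) ᵥ* Bᵀ ^ j = fun _ => 1 := fun j => by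
    have := (hB.pow j).2
    rw [← transpose_pow, vecMul_transpose, this]
  unfold Pj
  rw [vecMul_smul, vecMul_sum]
  simp only [hj, Finset.sum_const, Finset.card_range]
  ext a
  simp [hk']

/-- The Hermitian form attached to a torsion element. -/
noncomputable def Kf {n : ℕ} (k : ℕ) (s : ℂ) (B : Matrix (Fin n) (Fin n) ℂ) :
    Matrix (Fin n) (Fin n) ℂ :=
  star s • ((1 - Pj k Bᵀ)ᴴ * Om n (s ^ 2) * (1 - Pj k Bᵀ)) + (Pj k Bᵀ)ᴴ * Pj k Bᵀ

theorem Kf_herm {n k : ℕ} {s : ℂ} {B : Matrix (Fin n) (Fin n) ℂ} (hs : s * star s = 1)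
    (hB : Inv (s ^ 2) B) (hk : 0 < k) : (Kf k s B).IsHermitian := by
  have ht : s ^ 2 * star (s ^ 2) = 1 := by rw [star_pow, ← mul_pow, hs, one_pow]
  have h0 : (fun _ => (1 : ℂ)) ᵥ* (1 - Pj k Bᵀ) = 0 := by
    rw [vecMul_sub, one_vecMul_Pj hB hk, vecMul_one, sub_self]
  have h1 : (Om n (s ^ 2) - s ^ 2 • (Om n (s ^ 2))ᴴ) * (1 - Pj k Bᵀ) = 0 := by
    rw [Om_sub n _ ht, Matrix.smul_mul, vecMulVec_mul, h0]; simp
  have h2 : Om n (s ^ 2) * (1 - Pj k Bᵀ) = s ^ 2 • ((Om n (s ^ 2))ᴴ * (1 - Pj k Bᵀ)) := by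
    rw [Matrix.sub_mul, Matrix.smul_mul, sub_eq_zero] at h1
    exact h1
  unfold Kf
  refine IsHermitian.add ?_ (isHermitian_conjTranspose_mul_self _)
  unfold IsHermitian
  rw [conjTranspose_smul, conjTranspose_mul, conjTranspose_mul, conjTranspose_conjTranspose,
    star_star, Matrix.mul_assoc _ (Om n (s ^ 2)), h2, Matrix.mul_smul, smul_smul]
  congr 1
  linear_combination (-s) * hs

theorem Kf_nondeg {n k : ℕ} {s : ℂ} {B : Matrix (Fin n) (Fin n) ℂ} (hs : s * star s = 1)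
    (hB : Inv (s ^ 2) B) (hA : Bᵀ ^ k = 1) (hk : 0 < k) (x : Fin n → ℂ)
    (hx : Kf k s B *ᵥ x = 0) : x = 0 := by
  have hs0 : star s ≠ 0 := by rintro h; rw [h] at hs; simp at hs
  set P := Pj k Bᵀ with hP
  have hPP : P * P = P := Pj_idem hA hk
  have hQP : (1 - P) * P = 0 := by rw [Matrix.sub_mul, hPP]; simp
  have hQQ : (1 - P) * (1 - P) = 1 - P := by rw [Matrix.mul_sub, hQP]; simp
  have hadj : (1 - P)ᴴ * Om n (s ^ 2) = Om n (s ^ 2) * (1 - P) := by
    rw [conjTranspose_sub, conjTranspose_one, Matrix.sub_mul, Matrix.mul_sub, Pj_adj hB hA hk]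
    simp [hP]
  have hK : Kf k s B = star s • (Om n (s ^ 2) * (1 - P)) + Pᴴ * P := by
    unfold Kf
    rw [← hP, hadj, Matrix.mul_assoc, hQQ]
  have h1 : Pᴴ * Kf k s B = Pᴴ * P := by
    unfold Kf
    rw [← hP, Matrix.mul_add, Matrix.mul_smul, ← Matrix.mul_assoc, ← Matrix.mul_assoc,
      ← conjTranspose_mul, hQP, ← Matrix.mul_assoc, ← conjTranspose_mul, hPP]
    simp
  have h2 : (Pᴴ * P) *ᵥ x = 0 := by rw [← h1, ← mulVec_mulVec, hx, mulVec_zero]
  have h3 : P *ᵥ x = 0 := (conjTranspose_mul_self_mulVec_eq_zero P x).mp h2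
  rw [hK, add_mulVec, h2, add_zero, smul_mulVec, smul_eq_zero] at hx
  rcases hx with hx | hx
  · exact absurd hx hs0
  · rw [← mulVec_mulVec] at hx
    have h4 : (1 - P) *ᵥ x = 0 :=
      Matrix.eq_zero_of_mulVec_eq_zero (by rw [Om_det]; exact one_ne_zero) hx
    rw [sub_mulVec, h3, one_mulVec, sub_zero] at h4
    exact h4

theorem Kf_one {n k : ℕ} {B : Matrix (Fin n) (Fin n) ℂ} (x : Fin n → ℂ) (hx : x ≠ 0) :
    0 < (star x ⬝ᵥ Kf k 1 B *ᵥ x).re := by
  have hO : Om n (1 ^ 2) = 1 := by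
    ext a b; simp [Om, Matrix.one_apply]
  unfold Kf
  set P := Pj k Bᵀ
  rw [hO, star_one, one_smul, Matrix.mul_one, add_mulVec, dotProduct_add, ← mulVec_mulVec,
    ← mulVec_mulVec, dotProduct_mulVec, dotProduct_mulVec (star x) Pᴴ, ← star_mulVec,
    ← star_mulVec]
  have h1 := dotProduct_star_self_nonneg ((1 - P) *ᵥ x)
  have h2 := dotProduct_star_self_nonneg (P *ᵥ x)
  have h3 : 0 < star ((1 - P) *ᵥ x) ⬝ᵥ (1 - P) *ᵥ x + star (P *ᵥ x) ⬝ᵥ P *ᵥ x := by
    by_cases h : P *ᵥ x = 0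
    · have : (1 - P) *ᵥ x = x := by rw [sub_mulVec, h]; simp
      rw [this, h]
      simpa using hx
    · exact add_pos_of_nonneg_of_pos h1 (dotProduct_star_self_pos_iff.mpr h)
  exact (Complex.pos_iff.mp h3).1

theorem key {n k : ℕ} (hk : 0 < k) (F : ℂ → Matrix (Fin n) (Fin n) ℂ)
    (hc : Continuous fun θ : ℝ => F (Complex.exp (θ * Complex.I) ^ 2))
    (hI : ∀ t : ℂ, t * star t = 1 → Inv t (F t) ∧ F t ^ k = 1) (θ : ℝ) :
    F (Complex.exp (θ * Complex.I) ^ 2) = 1 := by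
  set s : ℝ → ℂ := fun θ => Complex.exp (θ * Complex.I) with hs
  have hs1 : ∀ θ, s θ * star (s θ) = 1 := fun θ => by
    simp only [hs]
    rw [Complex.star_def, Complex.mul_conj, Complex.normSq_eq_norm_sq,
      Complex.norm_exp_ofReal_mul_I]
    simp
  have ht : ∀ θ, s θ ^ 2 * star (s θ ^ 2) = 1 := fun θ => by
    rw [star_pow, ← mul_pow, hs1, one_pow]
  have hA : ∀ θ, (F (s θ ^ 2))ᵀ ^ k = 1 := fun θ => by
    rw [← transpose_pow, (hI _ (ht θ)).2, transpose_one]
  have hsc : Continuous s := by simp only [hs]; fun_prop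
  have hPc : Continuous fun θ => Pj k (F (s θ ^ 2))ᵀ := by
    unfold Pj
    have : Continuous fun θ => ∑ j ∈ Finset.range k, (F (s θ ^ 2))ᵀ ^ j :=
      continuous_finsetSum _ fun j _ => (hc.matrix_transpose).pow j
    exact this.const_smul ((k : ℂ)⁻¹)
  have hOc : Continuous fun θ => Om n (s θ ^ 2) := by
    refine continuous_matrix fun a b => ?_
    simp only [Om, of_apply]
    split_ifs <;> fun_prop
  have hKc : Continuous fun θ => Kf k (s θ) (F (s θ ^ 2)) := by
    unfold Kf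
    refine Continuous.add (Continuous.smul (continuous_star.comp hsc) ?_)
      (hPc.matrix_conjTranspose.matrix_mul hPc)
    exact (((continuous_const.sub hPc).matrix_conjTranspose).matrix_mul hOc).matrix_mul
      (continuous_const.sub hPc)
  have hpos := posdef_path (fun θ => Kf k (s θ) (F (s θ ^ 2))) hKc
    (fun θ => Kf_herm (hs1 θ) (hI _ (ht θ)).1 hk)
    (fun θ x hx => Kf_nondeg (hs1 θ) (hI _ (ht θ)).1 (hA θ) hk x hx)
    (fun x hx => by
      have : s 0 = 1 := by simp [hs]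
      simp only [this]
      exact Kf_one x hx)
  have hneg : s (θ + Real.pi) = - s θ := by
    simp only [hs]
    rw [Complex.ofReal_add, add_mul, Complex.exp_add, Complex.exp_pi_mul_I]; ring
  set B := F (s θ ^ 2) with hB
  set P := Pj k Bᵀ with hP
  have hPP : P * P = P := Pj_idem (hA θ) hk
  have hQ : ∀ y, (1 - P) *ᵥ y = 0 := by
    intro y
    by_contra hy
    have h1 := hpos θ _ hy
    have h2 := hpos (θ + Real.pi) _ hy
    simp only [hneg, neg_sq] at h1 h2
    have hz : (Pᴴ * P) *ᵥ ((1 - P) *ᵥ y) = 0 := by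
      rw [mulVec_mulVec, Matrix.mul_assoc, Matrix.mul_sub, hPP]; simp
    unfold Kf at h1 h2
    rw [← hB, ← hP, add_mulVec, hz, add_zero] at h1 h2
    rw [neg_sq, star_neg, neg_smul, neg_mulVec, dotProduct_neg, Complex.neg_re] at h2
    linarith
  have hP1 : P = 1 := by
    have : (1 - P) = 0 := by
      ext a b
      have := congrFun (hQ (Pi.single b 1)) a
      simpa using this
    exact (sub_eq_zero.mp this).symm
  have := mul_Pj (hA θ)
  rw [← hB, ← hP, hP1, Matrix.mul_one] at this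
  rw [← transpose_transpose B, this, transpose_one]


open LaurentPolynomial in
/-- evaluation of a Laurent polynomial at a complex number (junk at zero). -/
noncomputable def ev (t : ℂ) : LaurentPolynomial ℤ →+* ℂ :=
  if h : t = 0 then LaurentPolynomial.eval₂ (Int.castRingHom ℂ) 1
  else LaurentPolynomial.eval₂ (Int.castRingHom ℂ) (Units.mk0 t h)

theorem ev_T {t : ℂ} (h : t ≠ 0) (m : ℤ) : ev t (LaurentPolynomial.T m) = t ^ m := by
  simp [ev, h, LaurentPolynomial.eval₂_T]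

theorem ev_C (t : ℂ) (a : ℤ) : ev t (LaurentPolynomial.C a) = a := by
  have : (LaurentPolynomial.C a : LaurentPolynomial ℤ) = (a : LaurentPolynomial ℤ) := by simp
  rw [this, map_intCast]

theorem ev_cont (f : LaurentPolynomial ℤ) :
    Continuous fun θ : ℝ => ev (Complex.exp (θ * Complex.I) ^ 2) f := by
  induction f using LaurentPolynomial.induction_on' with
  | add p q hp hq => simp only [map_add]; exact hp.add hq
  | C_mul_T m a =>
    have : ∀ θ : ℝ, ev (Complex.exp (θ * Complex.I) ^ 2)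
        (LaurentPolynomial.C a * LaurentPolynomial.T m) =
        a * (Complex.exp (θ * Complex.I) ^ 2) ^ m := fun θ => by
      rw [map_mul, ev_C, ev_T (pow_ne_zero _ (Complex.exp_ne_zero _))]
    simp only [this]
    refine continuous_const.mul (Continuous.zpow₀ (by fun_prop) m fun θ => Or.inl ?_)
    exact pow_ne_zero _ (Complex.exp_ne_zero _)

theorem ev_toLaurent {t : ℂ} (h : t ≠ 0) (p : Polynomial ℤ) :
    ev t (Polynomial.toLaurent p) = (p.map (Int.castRingHom ℂ)).eval t := by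
  simp [ev, h, Polynomial.eval_map]

theorem ev_inj (f : LaurentPolynomial ℤ)
    (h : ∀ θ : ℝ, ev (Complex.exp (θ * Complex.I) ^ 2) f = 0) : f = 0 := by
  obtain ⟨m, p, hp⟩ := LaurentPolynomial.exists_T_pow f
  have hroot : ∀ θ : ℝ, (p.map (Int.castRingHom ℂ)).IsRoot (Complex.exp (θ * Complex.I) ^ 2) := by
    intro θ
    rw [Polynomial.IsRoot, ← ev_toLaurent (pow_ne_zero _ (Complex.exp_ne_zero _)), hp, map_mul, h,
      zero_mul]
  have hinf : Set.Infinite {x | (p.map (Int.castRingHom ℂ)).IsRoot x} := by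
    have hinj : Set.InjOn (fun θ : ℝ => Complex.exp (θ * Complex.I) ^ 2) (Set.Ioo 0 1) := by
      intro a ha b hb hab
      simp only at hab
      rw [← Complex.exp_nat_mul, ← Complex.exp_nat_mul] at hab
      have him := congrArg Complex.re hab
      have e : ∀ x : ℝ, ((2 : ℕ) : ℂ) * (x * Complex.I) = ((2 * x : ℝ) : ℂ) * Complex.I := by
        intro x; push_cast; ring
      rw [e, e, Complex.exp_ofReal_mul_I_re, Complex.exp_ofReal_mul_I_re] at him
      have hpi := Real.pi_gt_three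
      have := Real.injOn_cos ⟨by linarith [ha.1], by linarith [ha.2]⟩
        ⟨by linarith [hb.1], by linarith [hb.2]⟩ him
      linarith
    have h1 := (Set.Ioo_infinite (zero_lt_one (α := ℝ))).image hinj
    refine h1.mono ?_
    rintro _ ⟨θ, _, rfl⟩
    exact hroot θ
  have hp0 : p.map (Int.castRingHom ℂ) = 0 := Polynomial.eq_zero_of_infinite_isRoot _ hinf
  have hp1 : p = 0 := by
    rwa [Polynomial.map_eq_zero_iff (RingHom.injective_int _)] at hp0
  rw [hp1, map_zero] at hp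
  have hu : IsUnit (LaurentPolynomial.T (m : ℤ) : LaurentPolynomial ℤ) :=
    LaurentPolynomial.isUnit_T _
  exact (hu.mul_left_eq_zero).mp hp.symm

theorem main {n : ℕ} (S : Set (Matrix (Fin n) (Fin n) (LaurentPolynomial ℤ)))
    (hS : ∀ A ∈ S, ∀ t : ℂ, t * star t = 1 → Inv t ((ev t).mapMatrix A))
    (M : Matrix (Fin n) (Fin n) (LaurentPolynomial ℤ)) (hM : M ∈ Submonoid.closure S)
    (k : ℕ) (hk : 0 < k) (h : M ^ k = 1) : M = 1 := by
  have hI : ∀ t : ℂ, t * star t = 1 → Inv t ((ev t).mapMatrix M) := by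
    intro t ht
    clear h
    induction hM using Submonoid.closure_induction with
    | mem A hA => exact hS A hA t ht
    | one => rw [map_one]; exact Inv.one t
    | mul A B _ _ hA hB => rw [map_mul]; exact hA.mul hB
  have hkey := key hk (fun t => (ev t).mapMatrix M)
    (continuous_matrix fun a b => ev_cont (M a b))
    (fun t ht => ⟨hI t ht, by rw [← map_pow, h, map_one]⟩)
  ext1 a b
  rw [← sub_eq_zero]
  refine ev_inj _ fun θ => ?_
  have := congrFun (congrFun (hkey θ) a) b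
  rw [map_sub, sub_eq_zero]
  simp only [RingHom.mapMatrix_apply, map_apply] at this
  rw [this]
  simp only [Matrix.one_apply]
  split_ifs <;> simp

end Pool.Agent.H29.Burau
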