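import Mathlib

set_option autoImplicit false

namespace Pool.Agent.H29.Cluster

open Finset

/-- reachability avoiding a vertex set -/
def RA {V : Type} (G : SimpleGraph V) (X : Set V) (a b : V) : Prop :=
  Relation.ReflTransGen (fun x y => G.Adj x y ∧ x ∉ X ∧ y ∉ X) a b

theorem RA.refl {V : Type} (G : SimpleGraph V) (X : Set V) (a : V) : RA G X a a :=
  Relation.ReflTransGen.refl

theorem RA.trans {V : Type} {G : SimpleGraph V} {X : Set V} {a b c : V} (h : RA G X a b)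
    (h' : RA G X b c) : RA G X a c := Relation.ReflTransGen.trans h h'

theorem RA.single {V : Type} {G : SimpleGraph V} {X : Set V} {a b : V} (h : G.Adj a b)
    (ha : a ∉ X) (hb : b ∉ X) : RA G X a b := Relation.ReflTransGen.single ⟨h, ha, hb⟩

theorem RA.symm {V : Type} {G : SimpleGraph V} {X : Set V} {a b : V} (h : RA G X a b) :
    RA G X b a := by
  induction h with
  | refl => exact RA.refl _ _ _
  | tail _ h2 ih => exact (RA.single h2.1.symm h2.2.2 h2.2.1).trans ih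

theorem RA.notMem {V : Type} {G : SimpleGraph V} {X : Set V} {a b : V} (h : RA G X a b)
    (ha : a ∉ X) : b ∉ X := by
  induction h with
  | refl => exact ha
  | tail _ h2 _ => exact h2.2.2

theorem RA.ind {V : Type} {G : SimpleGraph V} {X : Set V} {a b : V} (h : RA G X a b)
    (P : V → Prop) (ha : P a) (hs : ∀ x y, P x → G.Adj x y → x ∉ X → y ∉ X → P y) : P b := by
  induction h with
  | refl => exact ha
  | tail _ h2 ih => exact hs _ _ ih h2.1 h2.2.1 h2.2.2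

theorem exists_nbr {I : Type} (T : SimpleGraph I) (t a s : I) (w : T.Walk a s) (hs : s ≠ t) :
    (a ≠ t ∧ RA T {t} a s) ∨ ∃ c, T.Adj t c ∧ RA T {t} c s := by
  induction w with
  | nil => exact Or.inl ⟨hs, RA.refl _ _ _⟩
  | @cons u v x h p ih =>
    rcases ih hs with ⟨h1, h2⟩ | h1
    · by_cases hu : u = t
      · subst hu; exact Or.inr ⟨v, h, h2⟩
      · exact Or.inl ⟨hu, (RA.single h hu h1).trans h2⟩
    · exact Or.inr h1

theorem RA.reach_del {I : Type} {T : SimpleGraph I} {t c x a b : I} (h : RA T {x} a b)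
    (hx : x = t ∨ x = c) : (T.deleteEdges {s(t, c)}).Reachable a b := by
  induction h with
  | refl => exact SimpleGraph.Reachable.refl _
  | @tail u v _ h2 ih =>
    refine ih.trans (SimpleGraph.Adj.reachable ?_)
    rw [SimpleGraph.deleteEdges_adj]
    refine ⟨h2.1, ?_⟩
    have h3 : u ≠ x := h2.2.1
    have h4 : v ≠ x := h2.2.2
    simp only [Set.mem_singleton_iff, Sym2.eq, Sym2.rel_iff', Prod.mk.injEq, Prod.swap_prod_mk,
      not_or, not_and]
    rcases hx with rfl | rfl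
    · exact ⟨fun h => absurd h h3, fun _ h => absurd h h4⟩
    · exact ⟨fun _ h => absurd h h4, fun h => absurd h h3⟩

open Classical in
theorem centroid {I V : Type} [Fintype I] (T : SimpleGraph I) (hT : T.IsTree) (Y : Finset V)
    (τ : V → I) : ∃ t, ∀ s, s ≠ t → 2 * (Y.filter (fun y => RA T {t} s (τ y))).card ≤ Y.card := by
  by_contra hcon
  push Not at hcon
  choose f hf1 hf2 using hcon
  have hne : (univ : Finset I).Nonempty := by
    obtain ⟨x⟩ := hT.connected.nonempty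
    exact ⟨x, mem_univ _⟩
  obtain ⟨t, _, ht⟩ := Finset.exists_min_image univ
    (fun t => (univ.filter (fun x => RA T {t} (f t) x)).card) hne
  obtain ⟨w⟩ := hT.connected.preconnected t (f t)
  rcases exists_nbr T t t (f t) w (hf1 t) with ⟨h, _⟩ | ⟨c, hc1, hc2⟩
  · exact h rfl
  have hy : ∃ y, RA T {t} (f t) (τ y) ∧ RA T {c} (f c) (τ y) := by
    by_contra hn
    push Not at hn
    have hd : Disjoint (Y.filter (fun y => RA T {t} (f t) (τ y)))
        (Y.filter (fun y => RA T {c} (f c) (τ y))) := by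
      rw [Finset.disjoint_left]
      intro y h1 h2
      exact hn y (mem_filter.1 h1).2 (mem_filter.1 h2).2
    have h1 := Finset.card_union_of_disjoint hd
    have h2 : ((Y.filter (fun y => RA T {t} (f t) (τ y))) ∪
        (Y.filter (fun y => RA T {c} (f c) (τ y)))).card ≤ Y.card :=
      Finset.card_le_card (union_subset (filter_subset _ _) (filter_subset _ _))
    have := hf2 t
    have := hf2 c
    omega
  obtain ⟨y, hy1, hy2⟩ := hy
  have hnt : ¬ RA T {c} (f c) t := by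
    intro h
    have h1 : (T.deleteEdges {s(t, c)}).Reachable t (τ y) :=
      (h.symm.trans hy2).reach_del (Or.inr rfl)
    have h2 : (T.deleteEdges {s(t, c)}).Reachable c (τ y) :=
      (hc2.trans hy1).reach_del (Or.inl rfl)
    have h3 := (SimpleGraph.isAcyclic_iff_forall_adj_isBridge.1 hT.isAcyclic) hc1
    rw [SimpleGraph.isBridge_iff] at h3
    exact h3 (h1.trans h2.symm)
  have hsub : univ.filter (fun x => RA T {c} (f c) x) ⊂ univ.filter (fun x => RA T {t} (f t) x) := by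
    rw [Finset.ssubset_iff_of_subset]
    · refine ⟨c, by simpa using hc2.symm, ?_⟩
      simp only [mem_filter, mem_univ, true_and]
      intro h
      exact h.notMem (hf1 c) rfl
    · intro x hx
      simp only [mem_filter, mem_univ, true_and] at hx ⊢
      have := (hy2.symm.trans hx).ind (fun z => RA T {t} (f t) z ∧ RA T {c} (f c) z) ⟨hy1, hy2⟩ (by
        intro u v ⟨h1, h2⟩ huv hu hv
        have h3 := h2.trans (RA.single huv hu hv)
        refine ⟨h1.trans (RA.single huv ?_ ?_), h3⟩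
        · intro h; rw [Set.mem_singleton_iff] at h; subst h; exact hnt h2
        · intro h; rw [Set.mem_singleton_iff] at h; subst h; exact hnt h3)
      exact this.1
  have := Finset.card_lt_card hsub
  have := ht c (mem_univ _)
  omega

open Classical in
/-- balanced separators -/
def Sep {V : Type} (G : SimpleGraph V) (k : ℕ) : Prop :=
  ∀ Y : Finset V, ∃ S : Finset V, S.card ≤ k ∧
    ∀ u, u ∉ S → 2 * (Y.filter (fun y => RA G (S : Set V) u y)).card ≤ Y.card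

theorem sep_of_td {V : Type} (G : SimpleGraph V) (k n : ℕ) (T : SimpleGraph (Fin n))
    (hT : T.IsTree) (B : Fin n → Finset V) (h1 : ∀ i, (B i).card ≤ k) (h2 : ∀ v, ∃ i, v ∈ B i)
    (h3 : ∀ u v, G.Adj u v → ∃ i, u ∈ B i ∧ v ∈ B i)
    (h4 : ∀ v, (T.induce {i | v ∈ B i}).Connected) : Sep G k := by
  classical
  intro Y
  choose τ hτ using h2
  obtain ⟨t, ht⟩ := centroid T hT Y τ
  refine ⟨B t, h1 t, ?_⟩
  intro u hu
  have key : ∀ v, v ∉ B t → ∀ i j, v ∈ B i → v ∈ B j → RA T {t} i j := by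
    intro v hv i j hi hj
    obtain ⟨w⟩ := (h4 v).preconnected ⟨i, hi⟩ ⟨j, hj⟩
    have : ∀ (a b : {i | v ∈ B i}) (_ : (T.induce {i | v ∈ B i}).Walk a b), RA T {t} a.1 b.1 := by
      intro a b w
      induction w with
      | nil => exact RA.refl _ _ _
      | @cons x y z h p ih =>
        refine (RA.single (G := T) (a := x.1) (b := y.1) h ?_ ?_).trans ih
        · intro h; rw [Set.mem_singleton_iff] at h; have := x.2; rw [h] at this; exact hv this
        · intro h; rw [Set.mem_singleton_iff] at h; have := y.2; rw [h] at this; exact hv this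
    exact this _ _ w
  have hs : τ u ≠ t := by intro h; apply hu; rw [← h]; exact hτ u
  refine le_trans ?_ (ht (τ u) hs)
  apply Nat.mul_le_mul_left
  apply Finset.card_le_card
  intro y hy
  simp only [mem_filter] at hy ⊢
  refine ⟨hy.1, ?_⟩
  apply hy.2.ind (fun z => RA T {t} (τ u) (τ z)) (RA.refl _ _ _)
  intro x z hx hxz hx' hz'
  obtain ⟨i, hi1, hi2⟩ := h3 x z hxz
  exact (hx.trans (key x hx' _ _ (hτ x) hi1)).trans (key z hz' _ _ hi2 (hτ z))

/-- `X` contains `Y` and every component of `G - X` has at most `b` neighbours -/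
def Good {V : Type} (G : SimpleGraph V) (b : ℕ) (X : Finset V) : Prop :=
  ∀ u, u ∉ X → ∃ Bd : Finset V, Bd.card ≤ b ∧
    ∀ v x, RA G (X : Set V) u v → G.Adj v x → x ∈ X → x ∈ Bd

theorem split (k m : ℕ) : ∃ f : ℕ, ∀ (V : Type) (G : SimpleGraph V), Sep G k →
    ∀ Y : Finset V, Y.card ≤ m → ∃ X : Finset V, Y ⊆ X ∧ X.card ≤ f ∧ Good G (2 * k + 1) X := by
  classical
  induction m with
  | zero =>
    refine ⟨0, fun V G _ Y hY => ⟨Y, subset_refl _, hY, fun u _ => ⟨Y, by omega, fun _ _ _ _ h => h⟩⟩⟩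
  | succ m ih =>
    by_cases hm : m + 1 ≤ 2 * k + 1
    · exact ⟨m + 1, fun V G _ Y hY =>
        ⟨Y, subset_refl _, hY, fun u _ => ⟨Y, by omega, fun _ _ _ _ h => h⟩⟩⟩
    obtain ⟨f, hf⟩ := ih
    refine ⟨k + (m + 1) * f, fun V G hS Y hY => ?_⟩
    obtain ⟨S, hS1, hS2⟩ := hS Y
    have hf' : ∀ Z : Finset V, ∃ X : Finset V, Z.card ≤ m →
        Z ⊆ X ∧ X.card ≤ f ∧ Good G (2 * k + 1) X := by
      intro Z
      by_cases hZ : Z.card ≤ m
      · obtain ⟨X, hX⟩ := hf V G hS Z hZ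
        exact ⟨X, fun _ => hX⟩
      · exact ⟨∅, fun h => absurd h hZ⟩
    choose g hg using hf'
    set Z : V → Finset V := fun u => Y.filter (fun y => RA G (S : Set V) u y) ∪ S with hZ
    have hZc : ∀ u, u ∉ S → (Z u).card ≤ m := by
      intro u hu
      have h1 := hS2 u hu
      have h2 : (Z u).card ≤ (Y.filter (fun y => RA G (S : Set V) u y)).card + S.card :=
        Finset.card_union_le _ _
      omega
    have hZeq : ∀ u v, RA G (S : Set V) u v → Z u = Z v := by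
      intro u v h
      simp only [hZ]
      congr 1
      apply Finset.filter_congr
      intro y _
      exact ⟨fun h' => h.symm.trans h', fun h' => h.trans h'⟩
    set X : Finset V := S ∪ (Y \ S).biUnion
      (fun y => (g (Z y)).filter (fun x => RA G (S : Set V) y x)) with hX
    have hSX : S ⊆ X := subset_union_left
    refine ⟨X, ?_, ?_, ?_⟩
    · intro y hy
      by_cases hyS : y ∈ S
      · exact hSX hyS
      · refine mem_union_right _ (mem_biUnion.2 ⟨y, mem_sdiff.2 ⟨hy, hyS⟩, ?_⟩)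
        refine mem_filter.2 ⟨(hg _ (hZc y hyS)).1 ?_, RA.refl _ _ _⟩
        exact mem_union_left _ (mem_filter.2 ⟨hy, RA.refl _ _ _⟩)
    · refine le_trans (Finset.card_union_le _ _) (Nat.add_le_add hS1 ?_)
      refine le_trans (Finset.card_biUnion_le_card_mul _ _ f ?_) ?_
      · intro y hy
        exact le_trans (Finset.card_filter_le _ _) (hg _ (hZc y (mem_sdiff.1 hy).2)).2.1
      · exact Nat.mul_le_mul_right _ (le_trans (Finset.card_le_card sdiff_subset) hY)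
    · intro u hu
      have huS : u ∉ S := fun h => hu (hSX h)
      have hRS : ∀ v, RA G (X : Set V) u v → RA G (S : Set V) u v := by
        intro v hv
        apply hv.ind (fun z => RA G (S : Set V) u z) (RA.refl _ _ _)
        intro x y h1 h2 h3 h4
        exact h1.trans (RA.single h2 (fun h => h3 (hSX h)) (fun h => h4 (hSX h)))
      by_cases hex : ∃ y ∈ Y, RA G (S : Set V) u y
      · obtain ⟨y0, hy0, hy1⟩ := hex
        have hy0S : y0 ∉ S := hy1.notMem huS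
        have hagree : ∀ x, RA G (S : Set V) u x → (x ∈ X ↔ x ∈ g (Z u)) := by
          intro x hx
          have hxS : x ∉ S := hx.notMem huS
          constructor
          · intro h
            rcases mem_union.1 h with h | h
            · exact absurd h hxS
            · obtain ⟨y, _, hy⟩ := mem_biUnion.1 h
              rw [mem_filter] at hy
              rw [hZeq u y (hx.trans hy.2.symm)]
              exact hy.1
          · intro h
            refine mem_union_right _ (mem_biUnion.2 ⟨y0, mem_sdiff.2 ⟨hy0, hy0S⟩, ?_⟩)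
            rw [hZeq u y0 hy1] at h
            exact mem_filter.2 ⟨h, hy1.symm.trans hx⟩
        obtain ⟨h1, _, h3⟩ := hg _ (hZc u huS)
        obtain ⟨Bd, hB1, hB2⟩ := h3 u (fun h => hu ((hagree u (RA.refl _ _ _)).2 h))
        refine ⟨Bd, hB1, fun v x hv hvx hx => hB2 v x ?_ hvx ?_⟩
        · have := hv.ind (fun z => RA G (X : Set V) u z ∧ RA G (g (Z u) : Set V) u z)
            ⟨RA.refl _ _ _, RA.refl _ _ _⟩ (by
              intro a b ⟨h1, h2⟩ hab ha hb
              have h5 := h1.trans (RA.single hab ha hb)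
              exact ⟨h5, h2.trans (RA.single hab (fun h => ha ((hagree a (hRS a h1)).2 h))
                (fun h => hb ((hagree b (hRS b h5)).2 h)))⟩)
          exact this.2
        · by_cases hxS : x ∈ S
          · exact h1 (mem_union_right _ hxS)
          · exact (hagree x ((hRS v hv).trans (RA.single hvx ((hRS v hv).notMem huS) hxS))).1 hx
      · refine ⟨S, by omega, fun v x hv hvx hx => ?_⟩
        by_contra hxS
        apply hex
        rcases mem_union.1 hx with h | h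
        · exact absurd h hxS
        · obtain ⟨y, hy', hy⟩ := mem_biUnion.1 h
          rw [mem_filter] at hy
          exact ⟨y, (mem_sdiff.1 hy').1,
            ((hRS v hv).trans (RA.single hvx ((hRS v hv).notMem huS) hxS)).trans hy.2.symm⟩

structure G7 {V : Type} (G : SimpleGraph V) : Prop where
  n3 : ∀ a b c, G.Adj a b → G.Adj b c → G.Adj c a → False
  n4 : ∀ a b c d, G.Adj a b → G.Adj b c → G.Adj c d → G.Adj d a → a ≠ c → b ≠ d → False
  n6 : ∀ a b c d e f, G.Adj a b → G.Adj b c → G.Adj c d → G.Adj d e → G.Adj e f → G.Adj f a →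
    a ≠ c → a ≠ d → a ≠ e → b ≠ d → b ≠ e → b ≠ f → c ≠ e → c ≠ f → d ≠ f → False

theorem g7_of_egirth {V : Type} (G : SimpleGraph V) (h : ((7 : ℕ) : ℕ∞) ≤ G.egirth) : G7 G := by
  rw [SimpleGraph.le_egirth] at h
  refine ⟨?_, ?_, ?_⟩
  · intro a b c h1 h2 h3
    have := h a (.cons h1 (.cons h2 (.cons h3 .nil))) (by
      have := h1.ne; have := h2.ne; have := h3.ne
      simp [SimpleGraph.Walk.isCycle_def, SimpleGraph.Walk.isTrail_def]
      aesop)
    simp at this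
    norm_num at this
  · intro a b c d h1 h2 h3 h4 _ _
    have := h a (.cons h1 (.cons h2 (.cons h3 (.cons h4 .nil)))) (by
      have := h1.ne; have := h2.ne; have := h3.ne; have := h4.ne
      simp [SimpleGraph.Walk.isCycle_def, SimpleGraph.Walk.isTrail_def]
      aesop)
    simp at this
    norm_num at this
  · intro a b c d e f h1 h2 h3 h4 h5 h6 _ _ _ _ _ _ _ _ _
    have := h a (.cons h1 (.cons h2 (.cons h3 (.cons h4 (.cons h5 (.cons h6 .nil)))))) (by
      have := h1.ne; have := h2.ne; have := h3.ne; have := h4.ne; have := h5.ne; have := h6.ne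
      simp [SimpleGraph.Walk.isCycle_def, SimpleGraph.Walk.isTrail_def]
      aesop)
    simp at this
    norm_num at this

theorem countZ {V : Type} {G : SimpleGraph V} (hG : G7 G) (A Z : Finset V)
    (h : ∀ w ∈ Z, w ∉ A ∧ ∃ a ∈ A, G.Adj w a ∧ ((∃ o ∈ A, o ≠ a ∧ G.Adj w o) ∨
      (∃ w' a', a' ∈ A ∧ w' ∉ A ∧ G.Adj w w' ∧ G.Adj w' a'))) : Z.card ≤ 2 * A.card ^ 2 := by
  classical
  set Z1 := Z.filter (fun w => ∃ a ∈ A, G.Adj w a ∧ ∃ o ∈ A, o ≠ a ∧ G.Adj w o) with hZ1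
  set Z2 := Z.filter (fun w => w ∉ A ∧ ∃ a ∈ A, G.Adj w a ∧
    ∃ w' a', a' ∈ A ∧ w' ∉ A ∧ G.Adj w w' ∧ G.Adj w' a') with hZ2
  have hsub : Z ⊆ Z1 ∪ Z2 := by
    intro w hw
    obtain ⟨h1, a, ha, h2, h3 | h3⟩ := h w hw
    · exact mem_union_left _ (mem_filter.2 ⟨hw, a, ha, h2, h3⟩)
    · exact mem_union_right _ (mem_filter.2 ⟨hw, h1, a, ha, h2, h3⟩)
  have h1 : Z1.card ≤ (A ×ˢ A).card := by
    apply Finset.card_le_card_of_forall_subsingleton (fun w p => G.Adj w p.1 ∧ p.2 ≠ p.1 ∧ G.Adj w p.2)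
    · intro w hw
      obtain ⟨_, a, ha, h2, o, ho, h3, h4⟩ := mem_filter.1 hw
      exact ⟨(a, o), mem_product.2 ⟨ha, ho⟩, h2, h3, h4⟩
    · rintro ⟨a, o⟩ _ w ⟨_, hw⟩ w2 ⟨_, hw2⟩
      by_contra hne
      exact hG.n4 w a w2 o hw.1 hw2.1.symm hw2.2.2 hw.2.2.symm hne (Ne.symm hw.2.1)
  have h2 : Z2.card ≤ (A ×ˢ A).card := by
    apply Finset.card_le_card_of_forall_subsingleton (fun w p => w ∉ A ∧ G.Adj w p.1 ∧
      ∃ w', w' ∉ A ∧ G.Adj w w' ∧ G.Adj w' p.2)
    · intro w hw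
      obtain ⟨_, h0, a, ha, h2, w', a', h3, h4, h5, h6⟩ := mem_filter.1 hw
      exact ⟨(a, a'), mem_product.2 ⟨ha, h3⟩, h0, h2, w', h4, h5, h6⟩
    · rintro ⟨a, a'⟩ hp w ⟨_, hw0, hw1, w', hw2, hw3, hw4⟩ z ⟨_, hz0, hz1, z', hz2, hz3, hz4⟩
      obtain ⟨ha, ha'⟩ := mem_product.1 hp
      simp only at ha ha' hw1 hw4 hz1 hz4
      by_contra hne
      by_cases h1 : w' = z'
      · subst h1
        exact hG.n4 w w' z a hw3 hz3.symm hz1 hw1.symm hne (fun h => hw2 (h ▸ ha))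
      · refine hG.n6 a w w' a' z' z hw1.symm hw3 hw4 hz4.symm hz3.symm hz1
          (fun h => hw2 (h ▸ ha)) ?_ (fun h => hz2 (h ▸ ha)) (fun h => hw0 (h ▸ ha')) ?_ hne h1 ?_
          (fun h => hz0 (h ▸ ha'))
        · intro h; subst h; exact hG.n3 w w' a hw3 hw4 hw1.symm
        · intro h; subst h; exact hG.n3 w w' a' hw3 hw4 hz4.symm
        · intro h; subst h; exact hG.n3 w w' a hw3 hz1 hw1.symm
  have h3 := Finset.card_le_card hsub
  have h4 := Finset.card_union_le Z1 Z2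
  rw [card_product] at h1 h2
  nlinarith

theorem conn_sub {V : Type} {G : SimpleGraph V} (s K : Finset V)
    (hc : (G.induce (s : Set V)).Connected) (x : V) (hx : x ∈ s) (hxK : x ∈ K)
    (h : ∀ v w, v ∈ s → w ∈ s → v ∈ K → G.Adj v w → w ∈ K) : s ⊆ K := by
  intro y hy
  obtain ⟨p⟩ := hc.preconnected ⟨x, hx⟩ ⟨y, hy⟩
  have : ∀ (a b : (s : Set V)) (_ : (G.induce (s : Set V)).Walk a b), a.1 ∈ K → b.1 ∈ K := by
    intro a b p
    induction p with
    | nil => exact id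
    | @cons u v z huv p ih => exact fun hu => ih (h u.1 v.1 u.2 v.2 hu huv)
  exact this _ _ p hxK

def H1 {V : Type} (G : SimpleGraph V) (η : ℕ) (U : Finset V) : Prop :=
  ∀ u ∈ U, ∃ P : Finset V, u ∈ P ∧ P ⊆ U ∧ (∀ v ∈ P, ∀ w ∈ U, G.Adj v w → w ∈ P) ∧
    ∃ Bd : Finset V, Bd.card ≤ η ∧ ∀ v ∈ P, ∀ w, w ∉ U → G.Adj v w → w ∈ Bd

def H2 {V : Type} (G : SimpleGraph V) (U : Finset V) (φ : V → Bool) : Prop :=
  ∀ u ∈ U, ∀ y y', y ∉ U → y' ∉ U → G.Adj u y → G.Adj u y' → φ y = φ y'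

def bnd (b : ℕ) : ℕ := b + 2 * b ^ 2 + 2 * (b + 2 * b ^ 2) ^ 2

theorem step {V : Type} [Fintype V] [DecidableEq V] {G : SimpleGraph V} (hG : G7 G) (b F : ℕ)
    (hsp : ∀ Y : Finset V, Y.card ≤ bnd b + 1 → ∃ X : Finset V, Y ⊆ X ∧ X.card ≤ F ∧ Good G b X)
    (U : Finset V) (φ : V → Bool) (u0 : V) (hu0 : u0 ∈ U) (h1 : H1 G (bnd b) U) (h2 : H2 G U φ) :
    ∃ (K : Finset V) (φ' : V → Bool), u0 ∈ K ∧ K ⊆ U ∧ K.card ≤ bnd F ∧ (∀ v, v ∉ U → φ' v = φ v) ∧
      (∀ u ∈ K, ∀ y, y ∉ U → G.Adj u y → φ' u ≠ φ y) ∧ H1 G (bnd b) (U \ K) ∧ H2 G (U \ K) φ' := by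
  classical
  obtain ⟨D0, hD1, hD2, hD3, B0, hB1, hB2⟩ := h1 u0 hu0
  obtain ⟨X, hX1, hX2, hX3⟩ := hsp (insert u0 B0) (le_trans (card_insert_le _ _) (by omega))
  have hB0X : ∀ v ∈ D0, ∀ w, w ∉ U → G.Adj v w → w ∈ X :=
    fun v hv w hw h => hX1 (mem_insert_of_mem (hB2 v hv w hw h))
  -- forced red (true) : adjacent to an old blue (false) vertex
  set FR : V → Prop := fun w => ∃ a, a ∉ U ∧ φ a = false ∧ G.Adj w a with hFR
  set Zr : Finset V := D0.filter (fun w => w ∉ X ∧ FR w ∧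
    ((∃ o ∈ U, o ∈ X ∧ G.Adj w o) ∨ ∃ w' ∈ U, w' ∉ X ∧ G.Adj w w' ∧ FR w')) with hZr
  set K1 : Finset V := D0.filter (fun w => w ∈ X) ∪ Zr with hK1
  set φ1 : V → Bool := fun v => if v ∉ U then φ v else if v ∈ Zr then true else
    if v ∈ X ∧ ¬ ∃ a, a ∉ U ∧ φ a = true ∧ G.Adj v a then true else false with hφ1
  set FB : V → Prop := fun w => ∃ a, (a ∉ U ∨ a ∈ K1) ∧ φ1 a = true ∧ G.Adj w a with hFB
  set Zb : Finset V := D0.filter (fun w => w ∉ K1 ∧ FB w ∧
    ((∃ o ∈ U, o ∈ X ∧ φ1 o = false ∧ G.Adj w o) ∨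
      ∃ w' ∈ U, w' ∉ K1 ∧ G.Adj w w' ∧ FB w')) with hZb
  have mZr : ∀ w, w ∈ Zr ↔ w ∈ D0 ∧ w ∉ X ∧ FR w ∧
    ((∃ o ∈ U, o ∈ X ∧ G.Adj w o) ∨ ∃ w' ∈ U, w' ∉ X ∧ G.Adj w w' ∧ FR w') := by
    intro w; rw [hZr, mem_filter]
  have mK1 : ∀ w, w ∈ K1 ↔ (w ∈ D0 ∧ w ∈ X) ∨ w ∈ Zr := by
    intro w; rw [hK1, mem_union, mem_filter]
  have mZb : ∀ w, w ∈ Zb ↔ w ∈ D0 ∧ w ∉ K1 ∧ FB w ∧
    ((∃ o ∈ U, o ∈ X ∧ φ1 o = false ∧ G.Adj w o) ∨
      ∃ w' ∈ U, w' ∉ K1 ∧ G.Adj w w' ∧ FB w') := by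
    intro w; rw [hZb, mem_filter]
  have hK1D : ∀ w ∈ K1, w ∈ D0 := by
    intro w hw
    rcases (mK1 w).1 hw with h | h
    · exact h.1
    · exact ((mZr w).1 h).1
  have hφout : ∀ v, v ∉ U → φ1 v = φ v := by
    intro v hv; simp only [hφ1]; rw [if_pos hv]
  have hφZr : ∀ v ∈ Zr, φ1 v = true := by
    intro v hv
    simp only [hφ1]
    rw [if_neg (not_not.2 (hD2 ((mZr v).1 hv).1)), if_pos hv]
  have hφZb : ∀ v ∈ Zb, φ1 v = false := by
    intro v hv
    obtain ⟨h3, h4, _⟩ := (mZb v).1 hv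
    simp only [hφ1]
    rw [if_neg (not_not.2 (hD2 h3)), if_neg (fun h => h4 ((mK1 v).2 (Or.inr h))),
      if_neg (fun h => h4 ((mK1 v).2 (Or.inl ⟨h3, h.1⟩)))]
  -- a forced red vertex of `U` adjacent to `K1` lies in `K1`
  have hclose : ∀ w ∈ U, FR w → ∀ a ∈ K1, G.Adj w a → w ∈ K1 := by
    intro w hw hfr a ha hwa
    have hwD : w ∈ D0 := hD3 a (hK1D a ha) w hw hwa.symm
    by_cases hwX : w ∈ X
    · exact (mK1 w).2 (Or.inl ⟨hwD, hwX⟩)
    refine (mK1 w).2 (Or.inr ((mZr w).2 ⟨hwD, hwX, hfr, ?_⟩))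
    rcases (mK1 a).1 ha with h | h
    · exact Or.inl ⟨a, hD2 h.1, h.2, hwa⟩
    · obtain ⟨h3, h4, h5, _⟩ := (mZr a).1 h
      exact Or.inr ⟨a, hD2 h3, h4, hwa, h5⟩
  have hnot : ∀ w ∈ U, w ∉ K1 → FR w → FB w → False := by
    intro w hw hwK hfr ⟨a, ha, ha1, ha2⟩
    rcases ha with ha | ha
    · obtain ⟨a', h3, h4, h5⟩ := hfr
      have := h2 w hw a a' ha h3 ha2 h5
      rw [← hφout a ha, ha1, h4] at this
      exact absurd this (by simp)
    · exact hwK (hclose w hw hfr a ha ha2)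
  -- local counting
  have hloc : ∀ (D Bd : Finset V), (∀ v ∈ D, v ∉ X) →
      (∀ v ∈ D, ∀ w, G.Adj v w → w ∉ X → w ∈ D) → (∀ v ∈ D, ∀ w, G.Adj v w → w ∈ X → w ∈ Bd) →
      (Bd ∪ Zr ∩ D ∪ Zb ∩ D).card ≤ bnd Bd.card := by
    intro D Bd hd1 hd2 hd3
    set A : Finset V := Bd.filter (fun x => x ∈ X) with hA
    have hAc : A.card ≤ Bd.card := card_filter_le _ _
    have mA : ∀ x, x ∈ A ↔ x ∈ Bd ∧ x ∈ X := fun x => by rw [hA, mem_filter]
    have c1 : (Zr ∩ D).card ≤ 2 * A.card ^ 2 := by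
      apply countZ hG
      intro w hw
      obtain ⟨hw1, hw2⟩ := mem_inter.1 hw
      obtain ⟨h3, h4, ⟨a, ha1, _, ha3⟩, h6⟩ := (mZr w).1 hw1
      have haX := hB0X w h3 a ha1 ha3
      refine ⟨fun h => h4 ((mA w).1 h).2, a, (mA a).2 ⟨hd3 w hw2 a ha3 haX, haX⟩, ha3, ?_⟩
      rcases h6 with ⟨o, ho1, ho2, ho3⟩ | ⟨w', hw'1, hw'2, hw'3, a', ha'1, _, ha'3⟩
      · exact Or.inl ⟨o, (mA o).2 ⟨hd3 w hw2 o ho3 ho2, ho2⟩, fun h => ha1 (h ▸ ho1), ho3⟩
      · have h7 := hB0X w' (hD3 w h3 w' hw'1 hw'3) a' ha'1 ha'3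
        exact Or.inr ⟨w', a', (mA a').2 ⟨hd3 w' (hd2 w hw2 w' hw'3 hw'2) a' ha'3 h7, h7⟩,
          fun h => hw'2 ((mA w').1 h).2, hw'3, ha'3⟩
    have hin : ∀ w ∈ D, w ∈ D0 → ∀ a, (a ∉ U ∨ a ∈ K1) → G.Adj w a → a ∈ A ∪ Zr ∩ D := by
      intro w hw hw0 a ha hwa
      by_cases haX : a ∈ X
      · exact mem_union_left _ ((mA a).2 ⟨hd3 w hw a hwa haX, haX⟩)
      · rcases ha with ha | ha
        · exact absurd (hB0X w hw0 a ha hwa) haX
        · rcases (mK1 a).1 ha with h | h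
          · exact absurd h.2 haX
          · exact mem_union_right _ (mem_inter.2 ⟨h, hd2 w hw a hwa haX⟩)
    have hout : ∀ w ∈ D0, w ∉ K1 → w ∉ A ∪ Zr ∩ D := by
      intro w hw hwK h
      rcases mem_union.1 h with h | h
      · exact hwK ((mK1 w).2 (Or.inl ⟨hw, ((mA w).1 h).2⟩))
      · exact hwK ((mK1 w).2 (Or.inr (mem_inter.1 h).1))
    have c2 : (Zb ∩ D).card ≤ 2 * (A ∪ Zr ∩ D).card ^ 2 := by
      apply countZ hG
      intro w hw
      obtain ⟨hw1, hw2⟩ := mem_inter.1 hw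
      obtain ⟨h3, h4, ⟨a, ha1, ha2, ha3⟩, h6⟩ := (mZb w).1 hw1
      refine ⟨hout w h3 h4, a, hin w hw2 h3 a ha1 ha3, ha3, ?_⟩
      rcases h6 with ⟨o, ho1, ho2, ho3, ho4⟩ | ⟨w', hw'1, hw'2, hw'3, a', ha'1, _, ha'3⟩
      · refine Or.inl ⟨o, mem_union_left _ ((mA o).2 ⟨hd3 w hw2 o ho4 ho2, ho2⟩), ?_, ho4⟩
        intro h; rw [h, ha2] at ho3; exact absurd ho3 (by simp)
      · have h7 := hD3 w h3 w' hw'1 hw'3
        have h8 : w' ∉ X := fun h => hw'2 ((mK1 w').2 (Or.inl ⟨h7, h⟩))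
        exact Or.inr ⟨w', a', hin w' (hd2 w hw2 w' hw'3 h8) h7 a' ha'1 ha'3, hout w' h7 hw'2,
          hw'3, ha'3⟩
    have c3 : (A ∪ Zr ∩ D).card ≤ Bd.card + 2 * Bd.card ^ 2 := by
      have := card_union_le A (Zr ∩ D)
      have := Nat.pow_le_pow_left hAc 2
      omega
    have c4 := Nat.pow_le_pow_left c3 2
    have c5 := card_union_le (Bd ∪ Zr ∩ D) (Zb ∩ D)
    have c6 := card_union_le Bd (Zr ∩ D)
    have := Nat.pow_le_pow_left hAc 2
    unfold bnd
    omega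
  have hmono : ∀ x y : ℕ, x ≤ y → bnd x ≤ bnd y := by
    intro x y h
    unfold bnd
    gcongr
  have hZbD : ∀ w ∈ Zb, w ∈ D0 := fun w hw => ((mZb w).1 hw).1
  have hKD : ∀ w ∈ K1 ∪ Zb, w ∈ D0 := by
    intro w hw
    rcases mem_union.1 hw with h | h
    · exact hK1D w h
    · exact hZbD w h
  refine ⟨K1 ∪ Zb, φ1, ?_, ?_, ?_, hφout, ?_, ?_, ?_⟩
  · exact mem_union_left _ ((mK1 u0).2 (Or.inl ⟨hD1, hX1 (mem_insert_self _ _)⟩))
  · exact fun w hw => hD2 (hKD w hw)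
  · have := hloc Xᶜ X (fun v hv => mem_compl.1 hv) (fun v _ w _ hw => mem_compl.2 hw)
      (fun v _ w _ hw => hw)
    refine le_trans (card_le_card ?_) (le_trans this (hmono _ _ hX2))
    intro w hw
    by_cases hwX : w ∈ X
    · exact mem_union_left _ (mem_union_left _ hwX)
    rcases mem_union.1 hw with h | h
    · rcases (mK1 w).1 h with h | h
      · exact absurd h.2 hwX
      · exact mem_union_left _ (mem_union_right _ (mem_inter.2 ⟨h, mem_compl.2 hwX⟩))
    · exact mem_union_right _ (mem_inter.2 ⟨h, mem_compl.2 hwX⟩)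
  · intro u hu y hy huy
    have huU : u ∈ U := hD2 (hKD u hu)
    by_cases hur : u ∈ Zr
    · obtain ⟨_, _, ⟨a, ha1, ha2, ha3⟩, _⟩ := (mZr u).1 hur
      rw [hφZr u hur, h2 u huU y a hy ha1 huy ha3, ha2]
      simp
    rcases mem_union.1 hu with h | h
    · rcases (mK1 u).1 h with h | h
      · simp only [hφ1]
        rw [if_neg (not_not.2 huU), if_neg hur]
        by_cases hex : ∃ a, a ∉ U ∧ φ a = true ∧ G.Adj u a
        · rw [if_neg (fun h => h.2 hex)]
          obtain ⟨a, ha1, ha2, ha3⟩ := hex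
          rw [h2 u huU y a hy ha1 huy ha3, ha2]
          simp
        · rw [if_pos ⟨h.2, hex⟩]
          intro h3
          exact hex ⟨y, hy, h3.symm, huy⟩
      · exact absurd h hur
    · rw [hφZb u h]
      intro h3
      obtain ⟨_, h5, h6, _⟩ := (mZb u).1 h
      exact hnot u huU h5 ⟨y, hy, h3.symm, huy⟩ h6
  · intro u hu
    obtain ⟨huU, huK⟩ := mem_sdiff.1 hu
    by_cases huD : u ∈ D0
    · have huX : u ∉ X := fun h => huK (mem_union_left _ ((mK1 u).2 (Or.inl ⟨huD, h⟩)))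
      obtain ⟨Bd, hBd1, hBd2⟩ := hX3 u huX
      set D : Finset V := univ.filter (fun v => RA G (X : Set V) u v) with hD
      have mD : ∀ v, v ∈ D ↔ RA G (X : Set V) u v := fun v => by simp [hD]
      have hDX : ∀ v ∈ D, v ∉ X := fun v hv => ((mD v).1 hv).notMem huX
      have hDc : ∀ v ∈ D, ∀ w, G.Adj v w → w ∉ X → w ∈ D :=
        fun v hv w hvw hw => (mD w).2 (((mD v).1 hv).trans (RA.single hvw (hDX v hv) hw))
      have hDD0 : ∀ v ∈ D, v ∈ D0 := by
        intro v hv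
        apply ((mD v).1 hv).ind (fun z => z ∈ D0) huD
        intro x y hx hxy _ hy
        by_cases hyU : y ∈ U
        · exact hD3 x hx y hyU hxy
        · exact absurd (hB0X x hx y hyU hxy) hy
      refine ⟨D \ (K1 ∪ Zb), mem_sdiff.2 ⟨(mD u).2 (RA.refl _ _ _), huK⟩, ?_, ?_,
        Bd ∪ Zr ∩ D ∪ Zb ∩ D, le_trans (hloc D Bd hDX hDc
          (fun v hv w hvw hw => hBd2 v w ((mD v).1 hv) hvw hw)) (hmono _ _ hBd1), ?_⟩
      · intro v hv
        exact mem_sdiff.2 ⟨hD2 (hDD0 v (mem_sdiff.1 hv).1), (mem_sdiff.1 hv).2⟩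
      · intro v hv w hw hvw
        obtain ⟨hv1, _⟩ := mem_sdiff.1 hv
        obtain ⟨hw1, hw2⟩ := mem_sdiff.1 hw
        refine mem_sdiff.2 ⟨hDc v hv1 w hvw ?_, hw2⟩
        exact fun h => hw2 (mem_union_left _ ((mK1 w).2 (Or.inl ⟨hD3 v (hDD0 v hv1) w hw1 hvw, h⟩)))
      · intro v hv w hw hvw
        obtain ⟨hv1, _⟩ := mem_sdiff.1 hv
        by_cases hwX : w ∈ X
        · exact mem_union_left _ (mem_union_left _ (hBd2 v w ((mD v).1 hv1) hvw hwX))
        have hwD := hDc v hv1 w hvw hwX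
        have hwK : w ∈ K1 ∪ Zb := by
          by_contra h
          exact hw (mem_sdiff.2 ⟨hD2 (hDD0 w hwD), h⟩)
        rcases mem_union.1 hwK with h | h
        · rcases (mK1 w).1 h with h | h
          · exact absurd h.2 hwX
          · exact mem_union_left _ (mem_union_right _ (mem_inter.2 ⟨h, hwD⟩))
        · exact mem_union_right _ (mem_inter.2 ⟨h, hwD⟩)
    · obtain ⟨P, hP1, hP2, hP3, Bd, hBd1, hBd2⟩ := h1 u huU
      refine ⟨P \ D0, mem_sdiff.2 ⟨hP1, huD⟩, ?_, ?_, Bd, hBd1, ?_⟩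
      · intro v hv
        exact mem_sdiff.2 ⟨hP2 (mem_sdiff.1 hv).1, fun h => (mem_sdiff.1 hv).2 (hKD v h)⟩
      · intro v hv w hw hvw
        obtain ⟨hv1, hv2⟩ := mem_sdiff.1 hv
        obtain ⟨hw1, _⟩ := mem_sdiff.1 hw
        exact mem_sdiff.2 ⟨hP3 v hv1 w hw1 hvw, fun h => hv2 (hD3 w h v (hP2 hv1) hvw.symm)⟩
      · intro v hv w hw hvw
        obtain ⟨hv1, hv2⟩ := mem_sdiff.1 hv
        refine hBd2 v hv1 w ?_ hvw
        intro hwU
        have hwK : w ∈ K1 ∪ Zb := by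
          by_contra h
          exact hw (mem_sdiff.2 ⟨hwU, h⟩)
        exact hv2 (hD3 w (hKD w hwK) v (hP2 hv1) hvw.symm)
  · have key : ∀ w ∈ U \ (K1 ∪ Zb), ∀ y y', y ∉ U \ (K1 ∪ Zb) → y' ∉ U \ (K1 ∪ Zb) →
        G.Adj w y → G.Adj w y' → φ1 y = true → φ1 y' = false → False := by
      intro w hw y y' hy hy' hwy hwy' e1 e2
      obtain ⟨hwU, hwK⟩ := mem_sdiff.1 hw
      have hwK1 : w ∉ K1 := fun h => hwK (mem_union_left _ h)
      have hfb : FB w := by
        refine ⟨y, ?_, e1, hwy⟩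
        by_cases hyU : y ∈ U
        · right
          have hyK : y ∈ K1 ∪ Zb := by
            by_contra h
            exact hy (mem_sdiff.2 ⟨hyU, h⟩)
          rcases mem_union.1 hyK with h | h
          · exact h
          · rw [hφZb y h] at e1; exact absurd e1 (by simp)
        · exact Or.inl hyU
      by_cases hy'U : y' ∈ U
      · have hyK : y' ∈ K1 ∪ Zb := by
          by_contra h
          exact hy' (mem_sdiff.2 ⟨hy'U, h⟩)
        have hwD : w ∈ D0 := hD3 y' (hKD y' hyK) w hwU hwy'.symm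
        apply hwK
        refine mem_union_right _ ((mZb w).2 ⟨hwD, hwK1, hfb, ?_⟩)
        rcases mem_union.1 hyK with h | h
        · rcases (mK1 y').1 h with h | h
          · exact Or.inl ⟨y', hy'U, h.2, e2, hwy'⟩
          · rw [hφZr y' h] at e2; exact absurd e2 (by simp)
        · obtain ⟨_, h4, h5, _⟩ := (mZb y').1 h
          exact Or.inr ⟨y', hy'U, h4, hwy', h5⟩
      · exact hnot w hwU hwK1 ⟨y', hy'U, by rw [← hφout y' hy'U]; exact e2, hwy'⟩ hfb
    intro w hw y y' hy hy' hwy hwy'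
    cases e1 : φ1 y <;> cases e2 : φ1 y'
    · rfl
    · exact (key w hw y' y hy' hy hwy' hwy e2 e1).elim
    · exact (key w hw y y' hy hy' hwy hwy' e1 e2).elim
    · rfl

theorem main {V : Type} [Fintype V] [DecidableEq V] {G : SimpleGraph V} (hG : G7 G) (b F : ℕ)
    (hsp : ∀ Y : Finset V, Y.card ≤ bnd b + 1 → ∃ X : Finset V, Y ⊆ X ∧ X.card ≤ F ∧ Good G b X)
    (n : ℕ) : ∀ (U : Finset V) (φ : V → Bool), U.card ≤ n → H1 G (bnd b) U → H2 G U φ →
    ∃ ψ : V → Bool, (∀ v, v ∉ U → ψ v = φ v) ∧ (∀ u ∈ U, ∀ y, y ∉ U → G.Adj u y → ψ u ≠ φ y) ∧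
      ∀ s : Finset V, s ⊆ U → (∀ x ∈ s, ∀ y ∈ s, ψ x = ψ y) →
        (G.induce (s : Set V)).Connected → s.card ≤ bnd F := by
  induction n with
  | zero =>
    intro U φ hU _ _
    have : U = ∅ := card_eq_zero.1 (by omega)
    subst this
    refine ⟨φ, fun _ _ => rfl, fun u hu => absurd hu (by simp), fun s hs _ _ => ?_⟩
    rw [subset_empty.1 hs]; simp
  | succ n ih =>
    intro U φ hU h1 h2
    by_cases hn : U.card ≤ n
    · exact ih U φ hn h1 h2
    obtain ⟨u0, hu0⟩ : U.Nonempty := card_pos.1 (by omega)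
    obtain ⟨K, φ', k1, k2, k3, k4, k5, k6, k7⟩ := step hG b F hsp U φ u0 hu0 h1 h2
    have hc : (U \ K).card ≤ n := by
      have : (U \ K).card < U.card := card_lt_card
        ⟨sdiff_subset, fun h => (mem_sdiff.1 (h hu0)).2 k1⟩
      omega
    obtain ⟨ψ, p1, p2, p3⟩ := ih (U \ K) φ' hc k6 k7
    refine ⟨ψ, ?_, ?_, ?_⟩
    · intro v hv
      rw [p1 v (fun h => hv (mem_sdiff.1 h).1), k4 v hv]
    · intro u hu y hy huy
      by_cases huK : u ∈ K
      · rw [p1 u (fun h => (mem_sdiff.1 h).2 huK)]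
        exact k5 u huK y hy huy
      · rw [← k4 y hy]
        exact p2 u (mem_sdiff.2 ⟨hu, huK⟩) y (fun h => hy (mem_sdiff.1 h).1) huy
    · intro s hs hm hc
      by_cases hex : ∃ x ∈ s, x ∈ K
      · obtain ⟨x, hx1, hx2⟩ := hex
        refine le_trans (card_le_card (conn_sub s K hc x hx1 hx2 ?_)) k3
        intro v w hv hw hvK hvw
        by_contra hwK
        have hv' : v ∉ U \ K := fun h => (mem_sdiff.1 h).2 hvK
        apply p2 w (mem_sdiff.2 ⟨hs hw, hwK⟩) v hv' hvw.symm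
        rw [← p1 v hv']
        exact hm w hw v hv
      · push Not at hex
        exact p3 s (fun x hx => mem_sdiff.2 ⟨hs hx, hex x hx⟩) hm hc

theorem final (k : ℕ) : ∃ c : ℕ, ∀ (V : Type) [Fintype V] (G : SimpleGraph V), G7 G → Sep G k →
    ∃ f : V → Fin 2, ∀ s : Finset V, (∀ x ∈ s, ∀ y ∈ s, f x = f y) →
      (G.induce (s : Set V)).Connected → s.card ≤ c := by
  classical
  obtain ⟨F, hF⟩ := split k (bnd (2 * k + 1) + 1)
  refine ⟨bnd F, fun V _ G hG hS => ?_⟩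
  obtain ⟨ψ, _, _, h⟩ := main hG (2 * k + 1) F (hF V G hS) _ univ (fun _ => true) le_rfl
    (fun u _ => ⟨univ, mem_univ _, subset_refl _, fun _ _ _ _ _ => mem_univ _, ∅, by simp,
      fun _ _ w hw => absurd (mem_univ w) hw⟩) (fun _ _ _ _ _ _ _ _ => rfl)
  refine ⟨fun v => if ψ v then 1 else 0, fun s hs hc => h s (subset_univ _) ?_ hc⟩
  intro x hx y hy
  have := hs x hx y hy
  cases h1 : ψ x <;> cases h2 : ψ y <;> simp_all

end Pool.Agent.H29.Cluster
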