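import Mathlib

set_option autoImplicit false

namespace Pool.Agent.H29.CoCons
open Set

/-- Scott-open families of open sets. -/
def ScottOpen {T : Type} [TopologicalSpace T] (F : Set (Set T)) : Prop :=
  (∀ U ∈ F, IsOpen U) ∧ (∀ U V : Set T, U ∈ F → IsOpen V → U ⊆ V → V ∈ F) ∧
    (∀ D : Set (Set T), D.Nonempty → (∀ U ∈ D, IsOpen U) → DirectedOn (· ⊆ ·) D →
      ⋃₀ D ∈ F → ∃ U ∈ D, U ∈ F)

/-- Co-consonant spaces. -/
def CoConsonant (T : Type) [TopologicalSpace T] : Prop :=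
  ∀ F : Set (Set T), ScottOpen F → ∀ U ∈ F, ∃ E : Set (Set T), E.Finite ∧ (∀ A ∈ E, IsClosed A) ∧
    (∀ A ∈ E, (U ∩ A).Nonempty) ∧
    ∀ V : Set T, IsOpen V → (∀ A ∈ E, (V ∩ A).Nonempty) → V ∈ F

/-- Point form of co-consonance. -/
def PF (T : Type) [TopologicalSpace T] : Prop :=
  ∀ F : Set (Set T), ScottOpen F → ∀ U ∈ F, ∃ E : Set T, E.Finite ∧ E ⊆ U ∧
    ∀ V : Set T, IsOpen V → E ⊆ V → V ∈ F

theorem cc_iff {T : Type} [TopologicalSpace T] : CoConsonant T ↔ PF T := by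
  constructor
  · intro h F hF U hU
    obtain ⟨E, hE, -, h1, h2⟩ := h F hF U hU
    choose a ha using fun A : E => h1 A.1 A.2
    have := hE.to_subtype
    refine ⟨range a, finite_range a, ?_, fun V hV h3 => h2 V hV fun A hA =>
      ⟨a ⟨A, hA⟩, h3 ⟨_, rfl⟩, (ha ⟨A, hA⟩).2⟩⟩
    rintro _ ⟨A, rfl⟩
    exact (ha A).1
  · intro h F hF U hU
    obtain ⟨E, hE, h1, h2⟩ := h F hF U hU
    refine ⟨(fun x => closure {x}) '' E, hE.image _, ?_, ?_, fun V hV h3 => h2 V hV fun x hx => ?_⟩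
    · rintro _ ⟨x, -, rfl⟩; exact isClosed_closure
    · rintro _ ⟨x, hx, rfl⟩; exact ⟨x, h1 hx, subset_closure rfl⟩
    · obtain ⟨y, hyV, hy⟩ := h3 _ ⟨x, hx, rfl⟩
      obtain ⟨_, hV', rfl⟩ := mem_closure_iff.1 hy V hV hyV
      exact hV'

theorem ScottOpen.idx {T : Type} [TopologicalSpace T] {F : Set (Set T)} (hF : ScottOpen F)
    {ι : Type} [Nonempty ι] (f : ι → Set T) (ho : ∀ i, IsOpen (f i))
    (hd : Directed (· ⊆ ·) f) {U : Set T} (hU : U ∈ F) (h : U ⊆ ⋃ i, f i) : ∃ i, f i ∈ F := by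
  obtain ⟨_, ⟨i, rfl⟩, hi⟩ := hF.2.2 (range f) (range_nonempty f)
    (by rintro _ ⟨i, rfl⟩; exact ho i) (directedOn_range.2 hd)
    (by rw [sUnion_range]; exact hF.2.1 _ _ hU (isOpen_iUnion ho) h)
  exact ⟨i, hi⟩

theorem pull {A T : Type} [TopologicalSpace A] [TopologicalSpace T] (i : A → T) (M : Set T)
    (ho : ∀ G, IsOpen G → IsOpen (i '' G ∪ M)) {F : Set (Set T)} (hF : ScottOpen F) :
    ScottOpen {G : Set A | IsOpen G ∧ i '' G ∪ M ∈ F} := by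
  refine ⟨fun U hU => hU.1, fun U V hU hV h => ⟨hV, hF.2.1 _ _ hU.2 (ho V hV)
    (union_subset_union_left _ (image_mono h))⟩, fun D hne hD hd hU => ?_⟩
  have := hne.to_subtype
  obtain ⟨G, hG⟩ := hF.idx (fun G : D => i '' G.1 ∪ M) (fun G => ho _ (hD _ G.2))
    (fun G H => by
      obtain ⟨K, hK, a, b⟩ := hd G.1 G.2 H.1 H.2
      exact ⟨⟨K, hK⟩, union_subset_union_left _ (image_mono a),
        union_subset_union_left _ (image_mono b)⟩) hU.2
    (by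
      rintro x (⟨y, ⟨G, hG, hy⟩, rfl⟩ | hx)
      · exact mem_iUnion.2 ⟨⟨G, hG⟩, Or.inl ⟨y, hy, rfl⟩⟩
      · obtain ⟨G, hG⟩ := hne
        exact mem_iUnion.2 ⟨⟨G, hG⟩, Or.inr hx⟩)
  exact ⟨G.1, G.2, hD _ G.2, hG⟩

/-- Countable subsets of `ℕ × ℝ`. -/
structure Y where
  s : Set (ℕ × ℝ)
  c : s.Countable

def B (f : Y) (N : ℕ) : Set Y := {g | ∀ z ∈ g.s, z.1 < N → z ∈ f.s}

theorem B_self (f : Y) (N : ℕ) : f ∈ B f N := fun _ h _ => h

theorem B_anti (f : Y) {N M : ℕ} (h : N ≤ M) : B f M ⊆ B f N :=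
  fun _ hg z hz hN => hg z hz (hN.trans_le h)

theorem B_sub {f g : Y} {N : ℕ} (h : g ∈ B f N) : B g N ⊆ B f N :=
  fun _ hk z hz hN => h z (hk z hz hN) hN

instance : TopologicalSpace Y where
  IsOpen U := ∀ f ∈ U, ∃ N, B f N ⊆ U
  isOpen_univ := fun _ _ => ⟨0, subset_univ _⟩
  isOpen_inter := fun U V hU hV f hf => by
    obtain ⟨N, hN⟩ := hU f hf.1
    obtain ⟨M, hM⟩ := hV f hf.2
    exact ⟨max N M, subset_inter ((B_anti f (le_max_left _ _)).trans hN)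
      ((B_anti f (le_max_right _ _)).trans hM)⟩
  isOpen_sUnion := fun S hS f ⟨U, hU, hf⟩ => by
    obtain ⟨N, hN⟩ := hS U hU f hf
    exact ⟨N, hN.trans (subset_sUnion_of_mem hU)⟩

theorem openY {U : Set Y} : IsOpen U ↔ ∀ f ∈ U, ∃ N, B f N ⊆ U := Iff.rfl

theorem B_open (f : Y) (N : ℕ) : IsOpen (B f N) := fun _ hg => ⟨N, B_sub hg⟩

def Y.u (f g : Y) : Y := ⟨f.s ∪ g.s, f.c.union g.c⟩

instance : Nonempty Y := ⟨⟨∅, countable_empty⟩⟩

theorem pfY : PF Y := by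
  intro F hF U hU
  have hUo := hF.1 U hU
  obtain ⟨N, hN⟩ := hF.idx (fun N : ℕ => {f | B f N ⊆ U})
    (fun N f hf => ⟨N, fun g hg => (B_sub hg).trans hf⟩)
    (Monotone.directed_le fun N M h f hf => (B_anti f h).trans hf) hU
    (fun f hf => mem_iUnion.2 (hUo f hf))
  have : Nonempty {E : Set Y // E.Finite ∧ ∀ f ∈ E, B f N ⊆ U} :=
    ⟨⟨∅, finite_empty, fun _ h => h.elim⟩⟩
  obtain ⟨⟨E, hE, hEU⟩, hEF⟩ := hF.idx
    (fun E : {E : Set Y // E.Finite ∧ ∀ f ∈ E, B f N ⊆ U} => ⋃ f ∈ E.1, B f N)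
    (fun E => isOpen_biUnion fun f _ => B_open f N)
    (fun E E' => ⟨⟨E.1 ∪ E'.1, E.2.1.union E'.2.1, fun f hf => hf.elim (E.2.2 f) (E'.2.2 f)⟩,
      biUnion_subset_biUnion_left subset_union_left,
      biUnion_subset_biUnion_left subset_union_right⟩) hN
    (fun f hf => mem_iUnion.2 ⟨⟨{f}, finite_singleton f, by rintro _ rfl; exact hf⟩,
      mem_biUnion (mem_singleton f) (B_self f N)⟩)
  have key : ∀ M : ℕ, ∃ t : Y, (⋃ f ∈ E, B f N) ∩ B t M ∈ F := fun M =>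
    hF.idx (fun t : Y => (⋃ f ∈ E, B f N) ∩ B t M)
      (fun t => (isOpen_biUnion fun f _ => B_open f N).inter (B_open t M))
      (fun t t' => ⟨t.u t', inter_subset_inter_right _ fun g hg z hz hM => Or.inl (hg z hz hM),
        inter_subset_inter_right _ fun g hg z hz hM => Or.inr (hg z hz hM)⟩) hEF
      (fun g hg => mem_iUnion.2 ⟨g, hg, B_self g M⟩)
  choose t ht using key
  let st : Y → Y := fun f => ⟨{z | z ∈ f.s ∨ N ≤ z.1 ∧ z ∈ ⋃ M, (t M).s},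
    (f.c.union (countable_iUnion fun M => (t M).c)).mono fun z hz => hz.imp id And.right⟩
  refine ⟨st '' E, hE.image _, ?_, fun V hV h => ?_⟩
  · rintro _ ⟨f, hf, rfl⟩
    exact hEU f hf fun z hz hN => hz.resolve_right fun h => absurd hN (not_lt.2 h.1)
  · choose! n hn using fun f (hf : f ∈ E) => hV (st f) (h ⟨f, hf, rfl⟩)
    obtain ⟨M, hM⟩ := (hE.image n).bddAbove
    refine hF.2.1 _ _ (ht M) hV ?_
    rintro g ⟨hg, hgt⟩
    obtain ⟨f, hf, hgf⟩ := mem_iUnion₂.1 hg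
    refine hn f hf (B_anti _ (hM ⟨f, hf, rfl⟩) fun z hz hzM => ?_)
    rcases lt_or_ge z.1 N with h1 | h1
    · exact Or.inl (hgf z hz h1)
    · exact Or.inr ⟨h1, mem_iUnion.2 ⟨M, hgt z hz hzM⟩⟩

/-- `ℕ × ℝ` with the cocountable topology. -/
def Z : Type := ℕ × ℝ

instance : TopologicalSpace Z where
  IsOpen U := U.Nonempty → Uᶜ.Countable
  isOpen_univ := fun _ => by simp
  isOpen_inter := fun U V hU hV ⟨x, hx⟩ => by
    rw [compl_inter]; exact (hU ⟨x, hx.1⟩).union (hV ⟨x, hx.2⟩)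
  isOpen_sUnion := fun S hS ⟨x, U, hU, hx⟩ =>
    (hS U hU ⟨x, hx⟩).mono (compl_subset_compl.2 (subset_sUnion_of_mem hU))

theorem openZ {U : Set Z} : IsOpen U ↔ (U.Nonempty → Uᶜ.Countable) := Iff.rfl

theorem pfZ : PF Z := by
  intro F hF U hU
  rcases U.eq_empty_or_nonempty with rfl | ⟨z0, hz0⟩
  · exact ⟨∅, finite_empty, Subset.rfl, fun V hV _ => hF.2.1 _ _ hU hV (empty_subset _)⟩
  by_contra hc
  have hc' : ∀ E : Set Z, ∃ V : Set Z, Vᶜ.Countable ∧ (E.Finite → E ⊆ U → E ⊆ V ∧ V ∉ F) := by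
    intro E
    by_cases h : E.Finite ∧ E ⊆ U
    · by_contra h2
      refine hc ⟨insert z0 E, h.1.insert _, insert_subset hz0 h.2, fun V hV hE => ?_⟩
      by_contra h3
      exact h2 ⟨V, hV ⟨z0, hE (mem_insert _ _)⟩, fun _ _ => ⟨(subset_insert _ _).trans hE, h3⟩⟩
    · exact ⟨univ, by simp, fun a b => absurd ⟨a, b⟩ h⟩
  choose V hV1 hV2 using hc'
  let D : ℕ → Set Z := fun k => Nat.rec Uᶜ
    (fun _ D => D ∪ ⋃ E ∈ {E : Set Z | E.Finite ∧ E ⊆ D}, (V E)ᶜ) k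
  have hDc : ∀ k, (D k).Countable := by
    intro k
    induction k with
    | zero => exact hF.1 U hU ⟨z0, hz0⟩
    | succ k ih => exact ih.union ((countable_ofPred_finite_subset ih).biUnion fun E _ => hV1 E)
  have hDm : Monotone D := monotone_nat_of_le_succ fun k => subset_union_left
  have : Nonempty {E : Set Z // E.Finite ∧ E ⊆ U ∩ ⋃ k, D k} := ⟨⟨∅, finite_empty, empty_subset _⟩⟩
  obtain ⟨⟨E, hE, hEU⟩, hEF⟩ := hF.idx
    (fun E : {E : Set Z // E.Finite ∧ E ⊆ U ∩ ⋃ k, D k} => (⋃ k, D k)ᶜ ∪ E.1)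
    (fun E _ => (countable_iUnion hDc).mono (by rw [compl_union, compl_compl]; exact inter_subset_left))
    (fun E E' => ⟨⟨E.1 ∪ E'.1, E.2.1.union E'.2.1, union_subset E.2.2 E'.2.2⟩,
      union_subset_union_right _ subset_union_left,
      union_subset_union_right _ subset_union_right⟩) hU
    (fun x hx => by
      by_cases h : x ∈ ⋃ k, D k
      · exact mem_iUnion.2 ⟨⟨{x}, finite_singleton x, singleton_subset_iff.2 ⟨hx, h⟩⟩, Or.inr rfl⟩
      · exact mem_iUnion.2 ⟨⟨∅, finite_empty, empty_subset _⟩, Or.inl h⟩)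
  obtain ⟨k, hk⟩ := hDm.directed_le.exists_mem_subset_of_finset_subset_biUnion
    (s := hE.toFinset) (by rw [hE.coe_toFinset]; exact hEU.trans inter_subset_right)
  rw [hE.coe_toFinset] at hk
  obtain ⟨h1, h2⟩ := hV2 E hE (hEU.trans inter_subset_left)
  refine h2 (hF.2.1 _ _ hEF (fun _ => hV1 E) (union_subset (fun x hx => ?_) h1))
  by_contra h3
  exact hx (mem_iUnion.2 ⟨k + 1, Or.inr (mem_biUnion (show E ∈ {E : Set Z | E.Finite ∧ E ⊆ D k}
    from ⟨hE, hk⟩) h3)⟩)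

/-- The witness space. -/
inductive X : Type
  | y : Y → X
  | z : Z → X
  | m : X

instance : TopologicalSpace X where
  IsOpen U := IsOpen (X.y ⁻¹' U) ∧ IsOpen (X.z ⁻¹' U) ∧ ((X.z ⁻¹' U).Nonempty → ∀ g, X.y g ∈ U)
  isOpen_univ := ⟨isOpen_univ, isOpen_univ, fun _ _ => trivial⟩
  isOpen_inter := fun U V hU hV => ⟨hU.1.inter hV.1, hU.2.1.inter hV.2.1,
    fun ⟨x, hx⟩ g => ⟨hU.2.2 ⟨x, hx.1⟩ g, hV.2.2 ⟨x, hx.2⟩ g⟩⟩
  isOpen_sUnion := fun S hS => ⟨by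
      rw [preimage_sUnion]; exact isOpen_biUnion fun U hU => (hS U hU).1, by
      rw [preimage_sUnion]; exact isOpen_biUnion fun U hU => (hS U hU).2.1,
    fun ⟨x, U, hU, hx⟩ g => ⟨U, hU, (hS U hU).2.2 ⟨x, hx⟩ g⟩⟩

theorem openX {U : Set X} : IsOpen U ↔
    IsOpen (X.y ⁻¹' U) ∧ IsOpen (X.z ⁻¹' U) ∧ ((X.z ⁻¹' U).Nonempty → ∀ g, X.y g ∈ U) := Iff.rfl

theorem open_y {G : Set Y} (hG : IsOpen G) {M : Set X} (hM : M ⊆ {X.m}) :
    IsOpen (X.y '' G ∪ M) := by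
  have h1 : X.y ⁻¹' (X.y '' G ∪ M) = G := by
    ext g
    simp only [mem_preimage, mem_union, mem_image, X.y.injEq, exists_eq_right]
    exact ⟨fun h => h.resolve_right fun h => by simpa using hM h, Or.inl⟩
  have h2 : X.z ⁻¹' (X.y '' G ∪ M) = ∅ := by
    ext g
    simp only [mem_preimage, mem_union, mem_image, reduceCtorEq, and_false, exists_false,
      false_or, mem_empty_iff_false, iff_false]
    exact fun h => by simpa using hM h
  rw [openX, h1, h2]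
  exact ⟨hG, isOpen_empty, fun h => absurd h not_nonempty_empty⟩

theorem open_z {H : Set Z} (hH : IsOpen H) {M : Set X} (hM : M ⊆ {X.m}) :
    IsOpen (X.z '' H ∪ (range X.y ∪ M)) := by
  have h1 : X.y ⁻¹' (X.z '' H ∪ (range X.y ∪ M)) = univ := by
    ext g; simp
  have h2 : X.z ⁻¹' (X.z '' H ∪ (range X.y ∪ M)) = H := by
    ext g
    simp only [mem_preimage, mem_union, mem_image, X.z.injEq, exists_eq_right, mem_range,
      reduceCtorEq, exists_false, false_or]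
    exact ⟨fun h => h.resolve_right fun h => by simpa using hM h, Or.inl⟩
  rw [openX, h1, h2]
  exact ⟨isOpen_univ, hH, fun _ g => Or.inr (Or.inl ⟨g, rfl⟩)⟩

theorem pfX : PF X := by
  intro F hF U hU
  have hUo := openX.1 (hF.1 U hU)
  have hm : (U ∩ {X.m}).Finite := (finite_singleton _).subset inter_subset_right
  rcases (X.z ⁻¹' U).eq_empty_or_nonempty with h0 | ⟨z0, hz0⟩
  · obtain ⟨E, hE, h1, h2⟩ := pfY _ (pull X.y (U ∩ {X.m})
      (fun G hG => open_y hG inter_subset_right) hF) (X.y ⁻¹' U) ⟨hUo.1,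
        hF.2.1 _ _ hU (open_y hUo.1 inter_subset_right) (by
          rintro (g | p | _) hx
          · exact Or.inl ⟨g, hx, rfl⟩
          · exact absurd (show p ∈ X.z ⁻¹' U from hx) (by rw [h0]; exact id)
          · exact Or.inr ⟨hx, rfl⟩)⟩
    refine ⟨X.y '' E ∪ (U ∩ {X.m}), (hE.image _).union hm,
      union_subset (image_subset_iff.2 h1) inter_subset_left, fun V hV h => ?_⟩
    exact hF.2.1 _ _ (h2 (X.y ⁻¹' V) hV.1 (image_subset_iff.1 (subset_union_left.trans h))).2 hV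
      (union_subset (image_preimage_subset _ _) (subset_union_right.trans h))
  · obtain ⟨E, hE, h1, h2⟩ := pfZ _ (pull X.z (range X.y ∪ (U ∩ {X.m}))
      (fun G hG => open_z hG inter_subset_right) hF) (X.z ⁻¹' U) ⟨hUo.2.1,
        hF.2.1 _ _ hU (open_z hUo.2.1 inter_subset_right) (by
          rintro (g | p | _) hx
          · exact Or.inr (Or.inl ⟨g, rfl⟩)
          · exact Or.inl ⟨p, hx, rfl⟩
          · exact Or.inr (Or.inr ⟨hx, rfl⟩))⟩
    refine ⟨X.z '' insert z0 E ∪ (U ∩ {X.m}), ((hE.insert _).image _).union hm,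
      union_subset (image_subset_iff.2 (insert_subset hz0 h1)) inter_subset_left, fun V hV h => ?_⟩
    have h3 := image_subset_iff.1 (subset_union_left.trans h)
    refine hF.2.1 _ _ (h2 (X.z ⁻¹' V) hV.2.1 ((subset_insert _ _).trans h3)).2 hV
      (union_subset (image_preimage_subset _ _) (union_subset ?_ (subset_union_right.trans h)))
    rintro _ ⟨g, rfl⟩
    exact hV.2.2 ⟨z0, h3 (mem_insert _ _)⟩ g

theorem open_m : IsOpen ({X.m} : Set X) := by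
  simpa using open_y isOpen_empty (M := {X.m}) Subset.rfl

instance : T0Space X := by
  refine t0Space_iff_exists_isOpen_xor_mem X |>.2 ?_
  have hy : IsOpen (range X.y) := by
    simpa using open_y isOpen_univ (M := ∅) (empty_subset _)
  have hyy : ∀ f g : Y, ∀ z ∈ g.s, z ∉ f.s → ∃ U : Set X, IsOpen U ∧ X.y f ∈ U ∧ X.y g ∉ U := by
    intro f g z hz hz'
    refine ⟨_, open_y (B_open f (z.1 + 1)) (M := ∅) (empty_subset _),
      Or.inl ⟨f, B_self _ _, rfl⟩, ?_⟩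
    rintro (⟨k, hk, h⟩ | h)
    · obtain rfl := X.y.inj h
      exact hz' (hk z hz (Nat.lt_succ_self _))
    · exact h
  rintro (f | p | _) (g | q | _) hne
  · have : f.s ≠ g.s := fun h => hne (by cases f; cases g; cases h; rfl)
    by_cases h : g.s ⊆ f.s
    · obtain ⟨z, hz, hz'⟩ := not_subset.1 fun h' => this (Subset.antisymm h' h)
      obtain ⟨U, hU, a, b⟩ := hyy g f z hz hz'
      exact ⟨U, hU, Or.inr ⟨a, b⟩⟩
    · obtain ⟨z, hz, hz'⟩ := not_subset.1 h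
      obtain ⟨U, hU, a, b⟩ := hyy f g z hz hz'
      exact ⟨U, hU, Or.inl ⟨a, b⟩⟩
  · exact ⟨_, hy, Or.inl ⟨by simp, by simp⟩⟩
  · exact ⟨_, hy, Or.inl ⟨by simp, by simp⟩⟩
  · exact ⟨_, hy, Or.inr ⟨by simp, by simp⟩⟩
  · have hpq : p ≠ q := fun h => hne (by rw [h])
    exact ⟨_, open_z (H := {q}ᶜ) (fun _ => by simp) (M := ∅) (empty_subset _),
      Or.inl ⟨by simp [hpq], by simp⟩⟩
  · exact ⟨_, open_m, Or.inr ⟨by simp, by simp⟩⟩
  · exact ⟨_, open_m, Or.inl ⟨by simp, by simp⟩⟩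
  · exact ⟨_, open_m, Or.inl ⟨by simp, by simp⟩⟩
  · exact absurd rfl hne

def BadN (n : ℕ) (G : Set Y) (H : Set Z) : Prop :=
  ((n, (0 : ℝ)) : ℕ × ℝ) ∉ H ∧ ∀ g ∈ G, ∀ a : ℝ, (n, a) ∈ g.s → ((n, a) : ℕ × ℝ) ∉ H

theorem BadN.mono {n : ℕ} {G G' : Set Y} {H H' : Set Z} (h : BadN n G H) (h1 : G' ⊆ G)
    (h2 : H' ⊆ H) : BadN n G' H' :=
  ⟨fun a => h.1 (h2 a), fun g hg a ha b => h.2 g (h1 hg) a ha (h2 b)⟩

theorem not_cc {T : Type} [TopologicalSpace T] (i : Y → T) (j : Z → T) (hi : Continuous i)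
    (hj : Continuous j) (U : Set T) (hU : IsOpen U) (hiU : ∀ g, i g ∈ U) (hjU : ∀ p, j p ∈ U)
    (h : ∀ x ∈ U, ∃ (E1 : Set Y) (E2 : Set Z), E1.Finite ∧ E2.Finite ∧
      ∀ G H, IsOpen G → IsOpen H → E1 ⊆ G → E2 ⊆ H →
        ∃ V, IsOpen V ∧ x ∈ V ∧ i ⁻¹' V ⊆ G ∧ j ⁻¹' V ⊆ H) : ¬ CoConsonant T := by
  rw [cc_iff]
  intro hc
  let F : Set (Set T) := {W | IsOpen W ∧ (i ⁻¹' W).Nonempty ∧ ∀ n, ¬ BadN n (i ⁻¹' W) (j ⁻¹' W)}
  have hF : ScottOpen F := by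
    refine ⟨fun _ h => h.1, fun W V hW hV hWV => ⟨hV, hW.2.1.mono (preimage_mono hWV),
      fun n hn => hW.2.2 n (hn.mono (preimage_mono hWV) (preimage_mono hWV))⟩, ?_⟩
    rintro D hne hD hd ⟨-, ⟨f, W0, hW0, hf⟩, hb⟩
    obtain ⟨N, hN⟩ := openY.1 ((hD W0 hW0).preimage hi) f hf
    have h1 : ∀ n, ∃ W ∈ D, ¬ BadN n (i ⁻¹' W) (j ⁻¹' W) := by
      intro n
      by_contra h2
      push Not at h2
      refine hb n ⟨fun ⟨W, hW, hx⟩ => (h2 W hW).1 hx, ?_⟩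
      rintro g ⟨W, hW, hg⟩ a ha ⟨W', hW', hx⟩
      obtain ⟨K, hK, a1, a2⟩ := hd W hW W' hW'
      exact (h2 K hK).2 g (a1 hg) a ha (a2 hx)
    choose W hW hWb using h1
    have := hne.to_subtype
    obtain ⟨⟨K, hK⟩, hK2⟩ := hd.directed_val.finite_set_le
      (s := insert ⟨W0, hW0⟩ ((fun n => ⟨W n, hW n⟩) '' Iic N))
      (((finite_Iic N).image _).insert _)
    have a0 : W0 ⊆ K := hK2 _ (mem_insert _ _)
    have a1 : ∀ n ≤ N, W n ⊆ K := fun n hn => hK2 _ (mem_insert_of_mem _ ⟨n, hn, rfl⟩)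
    refine ⟨K, hK, hD K hK, ⟨f, a0 hf⟩, fun n hn => ?_⟩
    rcases le_or_gt n N with h2 | h2
    · exact hWb n (hn.mono (preimage_mono (a1 n h2)) (preimage_mono (a1 n h2)))
    · have hne' : (j ⁻¹' K).Nonempty := by
        by_contra h3
        rw [not_nonempty_iff_eq_empty] at h3
        refine hWb 0 (BadN.mono (G := univ) (H := ∅) ⟨id, fun _ _ _ _ => id⟩ (subset_univ _) ?_)
        rw [← h3]; exact preimage_mono (a1 0 (Nat.zero_le _))
      have hc := openZ.1 ((hD K hK).preimage hj) hne'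
      have : ∃ a : ℝ, j (n, a) ∈ K := by
        by_contra h4
        push Not at h4
        have := (hc.preimage_of_injOn (f := fun a : ℝ => ((n, a) : ℕ × ℝ))
          (fun a _ b _ h => (Prod.ext_iff.1 h).2)).mono (show univ ⊆ _ from fun a _ => h4 a)
        exact Set.not_countable_univ this
      obtain ⟨a, ha⟩ := this
      refine hn.2 (f.u ⟨{(n, a)}, countable_singleton _⟩) (a0 (hN ?_)) a (Or.inr rfl) ha
      rintro z (hz | rfl) hzN
      · exact hz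
      · exact absurd (h2.trans hzN) (lt_irrefl _)
  obtain ⟨E, hE, hEU, hE2⟩ := hc F hF U ⟨hU, ⟨_, hiU ⟨∅, countable_empty⟩⟩, fun n hn => hn.1 (hjU _)⟩
  choose! E1 E2 b1 b2 b3 using h
  have f1 : (⋃ x ∈ E, E1 x).Finite := hE.biUnion fun x hx => b1 x (hEU hx)
  have f2 : (⋃ x ∈ E, E2 x).Finite := hE.biUnion fun x hx => b2 x (hEU hx)
  obtain ⟨n, hn⟩ := (f2.image fun p : ℕ × ℝ => p.1).exists_notMem
  let t : Y := ⟨⋃ g ∈ ⋃ x ∈ E, E1 x, g.s, f1.countable.biUnion fun g _ => g.c⟩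
  let H : Set Z := {p : ℕ × ℝ | p.1 = n → p.2 ≠ 0 ∧ p ∉ t.s}
  have hH : IsOpen H := fun _ => (t.c.insert (n, 0)).mono fun p hp => by
    have hp' : ¬ (p.1 = n → p.2 ≠ 0 ∧ p ∉ t.s) := hp
    simp only [Classical.not_imp, not_and, not_not] at hp'
    by_cases h0 : p.2 = 0
    · exact Or.inl (Prod.ext hp'.1 h0)
    · exact Or.inr (hp'.2 h0)
  choose! V c1 c2 c3 c4 using fun x (hx : x ∈ E) => b3 x (hEU hx) (B t (n + 1)) H (B_open _ _) hH
    (fun g hg z hz _ => mem_biUnion (mem_biUnion hx hg) hz)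
    (fun p hp h => absurd ⟨p, mem_biUnion hx hp, h⟩ hn)
  refine (hE2 (⋃ x ∈ E, V x) (isOpen_biUnion c1) fun x hx => mem_biUnion hx (c2 x hx)).2.2 n
    (BadN.mono (G := B t (n + 1)) (H := H) ⟨fun h => (h rfl).1 rfl,
      fun g hg a ha h => (h rfl).2 (hg _ ha (Nat.lt_succ_self n))⟩ ?_ ?_)
  · intro g hg
    obtain ⟨x, hx, h⟩ := mem_iUnion₂.1 hg
    exact c3 x hx h
  · intro g hg
    obtain ⟨x, hx, h⟩ := mem_iUnion₂.1 hg
    exact c4 x hx h

end Pool.Agent.H29.CoCons
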