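import Mathlib

namespace Pool.Agent.H29.ConnDP

open SimpleGraph

abbrev V := Fin 16
abbrev Ed := V × V

def lab (σ : List ℕ) (v : V) : ℕ := σ.getD v.val 0

def relab (p q l : ℕ) : ℕ := if l = p ∨ l = q then min p q else l

def merge (σ : List ℕ) (e : Ed) : List ℕ := σ.map (relab (lab σ e.1) (lab σ e.2))

lemma lab_merge (σ : List ℕ) (h : σ.length = 16) (e : Ed) (v : V) :
    lab (merge σ e) v = relab (lab σ e.1) (lab σ e.2) (lab σ v) := by
  have hv : v.val < σ.length := by rw [h]; exact v.isLt
  simp [lab, merge, List.getD_eq_getElem?_getD, hv]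

lemma len_merge (σ : List ℕ) (e : Ed) : (merge σ e).length = σ.length := by simp [merge]

def allEq (σ : List ℕ) : Bool := (List.finRange 16).all fun v => lab σ v == lab σ 0

def addL : List ℕ → List ℕ → List ℕ
  | [], q => q
  | p, [] => p
  | a :: p, b :: q => (a + b) :: addL p q

lemma addL_getD (p q : List ℕ) (k : ℕ) : (addL p q).getD k 0 = p.getD k 0 + q.getD k 0 := by
  induction p generalizing q k with
  | nil => simp [addL]
  | cons a p ih =>
    cases q with
    | nil => simp [addL]
    | cons b q =>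
      cases k with
      | zero => simp [addL]
      | succ k => simpa [addL] using ih q k

def cnt : List Ed → List ℕ → List ℕ
  | [], σ => if allEq σ then [1] else []
  | e :: es, σ => addL (cnt es σ) (0 :: cnt es (merge σ e))

def deadAt (es : List Ed) (σ : List ℕ) (v : V) : Bool :=
  (es.all fun e => lab σ e.1 != lab σ v && lab σ e.2 != lab σ v) &&
    (List.finRange 16).any fun w => lab σ w != lab σ v

lemma relab_ne {p q l m : ℕ} (hp : p ≠ m) (hq : q ≠ m) (hl : l ≠ m) : relab p q l ≠ m := by
  unfold relab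
  split_ifs
  · rcases min_choice p q with h | h <;> rw [h] <;> assumption
  · exact hl

lemma relab_self {p q m : ℕ} (hp : p ≠ m) (hq : q ≠ m) : relab p q m = m := by
  unfold relab
  rw [if_neg]
  rintro (h | h)
  · exact hp h.symm
  · exact hq h.symm

lemma dead_cnt (es : List Ed) (σ : List ℕ) (h : σ.length = 16) (v : V)
    (hd : deadAt es σ v = true) (k : ℕ) : (cnt es σ).getD k 0 = 0 := by
  induction es generalizing σ k with
  | nil =>
    simp only [deadAt, List.all_nil, Bool.true_and, List.any_eq_true, bne_iff_ne] at hd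
    obtain ⟨w, -, hw⟩ := hd
    have : allEq σ = false := by
      by_contra hc
      simp only [Bool.not_eq_false, allEq, List.all_eq_true, beq_iff_eq] at hc
      exact hw ((hc w (List.mem_finRange w)).trans (hc v (List.mem_finRange v)).symm)
    simp [cnt, this]
  | cons e es ih =>
    simp only [deadAt, List.all_cons, Bool.and_eq_true, List.all_eq_true, List.any_eq_true,
      bne_iff_ne] at hd
    obtain ⟨⟨⟨h1, h2⟩, h3⟩, w, hw0, hw⟩ := hd
    have d1 : deadAt es σ v = true := by
      simp only [deadAt, Bool.and_eq_true, List.all_eq_true, List.any_eq_true, bne_iff_ne]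
      exact ⟨h3, w, hw0, hw⟩
    have d2 : deadAt es (merge σ e) v = true := by
      simp only [deadAt, Bool.and_eq_true, List.all_eq_true, List.any_eq_true, bne_iff_ne,
        lab_merge σ h, relab_self h1 h2]
      exact ⟨fun x hx => ⟨relab_ne h1 h2 (h3 x hx).1, relab_ne h1 h2 (h3 x hx).2⟩,
        w, hw0, relab_ne h1 h2 hw⟩
    rw [cnt, addL_getD, ih σ h d1]
    cases k with
    | zero => simp
    | succ k => simpa using ih (merge σ e) (by rw [len_merge, h]) d2 k

def find (σ : List ℕ) : List (List ℕ × List ℕ) → Option (List ℕ)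
  | [] => none
  | x :: T => if x.1 = σ then some x.2 else find σ T

lemma find_mem {σ p : List ℕ} {T : List (List ℕ × List ℕ)} (h : find σ T = some p) :
    (σ, p) ∈ T := by
  induction T with
  | nil => simp [find] at h
  | cons x T ih =>
    unfold find at h
    split_ifs at h with hx
    · obtain ⟨a, b⟩ := x
      simp only [Option.some.injEq] at h hx
      subst h hx
      exact List.mem_cons_self
    · exact List.mem_cons_of_mem _ (ih h)

def dead (e : Ed) (es : List Ed) (σ : List ℕ) : Bool := deadAt es σ e.1 || deadAt es σ e.2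

def look (e : Ed) (es : List Ed) (T : List (List ℕ × List ℕ)) (σ : List ℕ) : List ℕ :=
  match find σ T with
  | some p => p
  | none => if dead e es σ then [] else cnt es σ

def Good (es : List Ed) (T : List (List ℕ × List ℕ)) : Prop :=
  ∀ x ∈ T, ∀ k, x.2.getD k 0 = (cnt es x.1).getD k 0

lemma look_ok (e : Ed) (es : List Ed) (T : List (List ℕ × List ℕ)) (hT : Good es T)
    (σ : List ℕ) (h : σ.length = 16) (k : ℕ) :
    (look e es T σ).getD k 0 = (cnt es σ).getD k 0 := by
  unfold look
  split
  · rename_i p hp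
    exact hT _ (find_mem hp) k
  · split_ifs with hd
    · simp only [dead, Bool.or_eq_true] at hd
      rcases hd with hd | hd
      · rw [dead_cnt es σ h _ hd]; simp
      · rw [dead_cnt es σ h _ hd]; simp
    · rfl

def ins (e : Ed) (es : List Ed) (σ : List ℕ) (L : List (List ℕ)) : List (List ℕ) :=
  if L.contains σ || dead e es σ then L else σ :: L

def next (e : Ed) (es : List Ed) : List (List ℕ) → List (List ℕ)
  | [] => []
  | σ :: L => ins e es σ (ins e es (merge σ e) (next e es L))

lemma ins_len (e : Ed) (es : List Ed) (σ : List ℕ) (L : List (List ℕ)) (h : σ.length = 16)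
    (hL : ∀ τ ∈ L, τ.length = 16) : ∀ τ ∈ ins e es σ L, τ.length = 16 := by
  unfold ins
  split_ifs
  · exact hL
  · intro τ hτ
    rcases List.mem_cons.1 hτ with rfl | hτ
    · exact h
    · exact hL τ hτ

lemma next_len (e : Ed) (es : List Ed) (L : List (List ℕ)) (hL : ∀ τ ∈ L, τ.length = 16) :
    ∀ τ ∈ next e es L, τ.length = 16 := by
  induction L with
  | nil => simp [next]
  | cons σ L ih =>
    have h := hL σ List.mem_cons_self
    exact ins_len _ _ _ _ h (ins_len _ _ _ _ (by rw [len_merge, h])
      (ih fun τ hτ => hL τ (List.mem_cons_of_mem _ hτ)))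

def step (e : Ed) (es : List Ed) (T : List (List ℕ × List ℕ)) (Ss : List (List ℕ)) :
    List (List ℕ × List ℕ) :=
  Ss.map fun σ => (σ, addL (look e es T σ) (0 :: look e es T (merge σ e)))

def tab : List Ed → List (List ℕ) → List (List ℕ × List ℕ)
  | [], Ss => Ss.map fun σ => (σ, cnt [] σ)
  | e :: es, Ss => step e es (tab es (next e es Ss)) Ss

lemma step_good (e : Ed) (es : List Ed) (T : List (List ℕ × List ℕ)) (hT : Good es T)
    (Ss : List (List ℕ)) (hL : ∀ τ ∈ Ss, τ.length = 16) : Good (e :: es) (step e es T Ss) := by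
  intro x hx k
  obtain ⟨σ, hσ, rfl⟩ := List.mem_map.1 hx
  have h := hL σ hσ
  simp only [cnt, addL_getD]
  rw [look_ok e es T hT σ h]
  cases k with
  | zero => simp
  | succ k =>
    have := look_ok e es T hT (merge σ e) (by rw [len_merge, h]) k
    simpa using this

lemma tab_good (es : List Ed) (Ss : List (List ℕ)) (hL : ∀ τ ∈ Ss, τ.length = 16) :
    Good es (tab es Ss) := by
  induction es generalizing Ss with
  | nil =>
    intro x hx k
    obtain ⟨σ, -, rfl⟩ := List.mem_map.1 hx
    rfl
  | cons e es ih => exact step_good e es _ (ih _ (next_len e es Ss hL)) Ss hL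

def es0 : List Ed :=
  [(0, 1), (0, 2), (1, 2), (0, 3), (1, 3), (2, 3), (3, 4), (3, 5), (4, 5), (4, 6), (5, 6), (6, 7),
    (6, 8), (7, 8), (7, 9), (8, 9), (9, 10), (9, 11), (10, 11), (10, 12), (11, 12), (12, 13),
    (12, 14), (13, 14), (13, 15), (14, 15)]

def s0 : List ℕ := [0, 1, 2, 3, 4, 5, 6, 7, 8, 9, 10, 11, 12, 13, 14, 15]

def LA : List ℕ := [0, 0, 0, 0, 0, 0, 0, 0, 0, 0, 0, 0, 0, 0, 0, 65536, 225280, 364544, 365696,
  252272, 125503, 45906, 12339, 2388, 317, 26, 1]

def LB : List ℕ := [0, 0, 0, 0, 0, 0, 0, 0, 0, 0, 0, 0, 0, 0, 294912, 958464, 1487872, 1459456,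
  1009256, 519722, 204975, 62558, 14691, 2590, 325, 26, 1]

lemma tabA : tab es0 [s0] = [(s0, LA)] := by decide +kernel

lemma tabB : tab es0 [merge s0 (0, 15)] = [(merge s0 (0, 15), LB)] := by decide +kernel

lemma cntA (k : ℕ) : (cnt es0 s0).getD k 0 = LA.getD k 0 := by
  have := tab_good es0 [s0] (by decide)
  rw [tabA] at this
  exact (this _ List.mem_cons_self k).symm

lemma cntB (k : ℕ) : (cnt es0 (merge s0 (0, 15))).getD k 0 = LB.getD k 0 := by
  have := tab_good es0 [merge s0 (0, 15)] (by decide)
  rw [tabB] at this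
  exact (this _ List.mem_cons_self k).symm

end Pool.Agent.H29.ConnDP
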