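import Mathlib

set_option autoImplicit false

namespace Pool.Agent.H29.Corona

open Finset

/-- corona: attach a pendant vertex `(w,true)` to every vertex `(w,false)` -/
def cor {W : Type} (H : SimpleGraph W) : SimpleGraph (W × Bool) where
  Adj p q := (p.2 = false ∧ q.2 = false ∧ H.Adj p.1 q.1) ∨ (p.1 = q.1 ∧ p.2 ≠ q.2)
  symm := ⟨by
    rintro p q (⟨h1, h2, h3⟩ | ⟨h1, h2⟩)
    · exact Or.inl ⟨h2, h1, h3.symm⟩
    · exact Or.inr ⟨h1.symm, h2.symm⟩⟩
  loopless := ⟨by
    rintro p (⟨_, _, h3⟩ | ⟨_, h2⟩)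
    · exact H.loopless.irrefl _ h3
    · exact h2 rfl⟩

theorem cor_noiso {W : Type} (H : SimpleGraph W) (v : W × Bool) : ∃ w, (cor H).Adj v w :=
  ⟨(v.1, !v.2), Or.inr ⟨rfl, by cases v.2 <;> simp⟩⟩

theorem cor_max {W : Type} [Fintype W] (H : SimpleGraph W) (s : Finset (W × Bool))
    (hs : (cor H).IsIndepSet (s : Set (W × Bool)))
    (hm : ∀ v, v ∉ s → ¬ (cor H).IsIndepSet (insert v (s : Set (W × Bool)))) :
    s.card = Fintype.card W := by
  classical
  rw [← Finset.card_univ]
  apply Finset.card_bij (fun p _ => p.1)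
  · intro a _; exact mem_univ _
  · intro p hp q hq h
    by_contra hne
    have h2 : p.2 ≠ q.2 := fun h2 => hne (Prod.ext h h2)
    exact hs (by exact_mod_cast hp) (by exact_mod_cast hq) hne (Or.inr ⟨h, h2⟩)
  · intro w _
    by_cases h0 : (w, false) ∈ s
    · exact ⟨_, h0, rfl⟩
    by_cases h1 : (w, true) ∈ s
    · exact ⟨_, h1, rfl⟩
    exfalso
    apply hm _ h1
    have key : ∀ q ∈ s, ¬ (cor H).Adj (w, true) q := by
      rintro ⟨q1, q2⟩ hq (⟨h, _⟩ | ⟨h, h'⟩)
      · simp at h
      · simp only at h h'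
        subst h
        cases q2
        · exact h0 hq
        · exact h' rfl
    intro p hp q hq hne
    rcases hp with rfl | hp <;> rcases hq with rfl | hq
    · exact absurd rfl hne
    · exact key q hq
    · intro h; exact key p hp h.symm
    · exact hs hp hq hne

open Classical in
noncomputable def ind {V : Type} [Fintype V] (G : SimpleGraph V) : Finset (Finset V) :=
  univ.filter (fun s => G.IsIndepSet (s : Set V))

theorem mem_ind {V : Type} [Fintype V] (G : SimpleGraph V) (s : Finset V) :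
    s ∈ ind G ↔ G.IsIndepSet (s : Set V) := by
  simp [ind]

theorem sum_pow_powerset {α : Type} (U : Finset α) (x : ℚ) :
    ∑ T ∈ U.powerset, x ^ T.card = (1 + x) ^ U.card := by
  classical
  have := Finset.prod_one_add (s := U) (f := fun _ => x)
  simp only [prod_const] at this
  exact this.symm

theorem cor_sum {W : Type} [Fintype W] (H : SimpleGraph W) (x : ℚ) :
    ∑ s ∈ ind (cor H), x ^ s.card
      = ∑ A ∈ ind H, x ^ A.card * (1 + x) ^ (Fintype.card W - A.card) := by
  classical
  have h1 : ∀ A ∈ ind H, x ^ A.card * (1 + x) ^ (Fintype.card W - A.card)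
      = ∑ T ∈ (Aᶜ).powerset, x ^ (A.card + T.card) := by
    intro A _
    rw [← Finset.card_compl, ← sum_pow_powerset, Finset.mul_sum]
    simp [pow_add]
  rw [Finset.sum_congr rfl h1, Finset.sum_sigma']
  symm
  refine Finset.sum_nbij' (fun p => (p.1.image (fun w => (w, false))) ∪ (p.2.image (fun w => (w, true))))
    (fun s => ⟨univ.filter (fun w => (w, false) ∈ s), univ.filter (fun w => (w, true) ∈ s)⟩)
    ?_ ?_ ?_ ?_ ?_
  · rintro ⟨A, T⟩ hp
    simp only [mem_sigma, mem_powerset, mem_ind] at hp ⊢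
    obtain ⟨hA, hT⟩ := hp
    intro p hp q hq hne
    simp only [coe_union, coe_image, Set.mem_union, Set.mem_image, mem_coe] at hp hq
    rintro (⟨h1, h2, h3⟩ | ⟨h1, h2⟩)
    · rcases hp with ⟨w, hw, rfl⟩ | ⟨w, hw, rfl⟩ <;> rcases hq with ⟨w', hw', rfl⟩ | ⟨w', hw', rfl⟩
      · exact hA (by exact_mod_cast hw) (by exact_mod_cast hw') h3.ne h3
      all_goals simp at h1 h2
    · rcases hp with ⟨w, hw, rfl⟩ | ⟨w, hw, rfl⟩ <;> rcases hq with ⟨w', hw', rfl⟩ | ⟨w', hw', rfl⟩
      · exact h2 rfl
      · simp only at h1; subst h1; exact (mem_compl.1 (hT hw')) hw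
      · simp only at h1; subst h1; exact (mem_compl.1 (hT hw)) hw'
      · exact h2 rfl
  · intro s hs
    simp only [mem_sigma, mem_powerset, mem_ind] at hs ⊢
    constructor
    · intro w hw w' hw' hne hadj
      simp only [coe_filter, mem_univ, true_and, Set.mem_ofPred_eq] at hw hw'
      exact hs (by exact_mod_cast hw) (by exact_mod_cast hw') (by simpa using hne)
        (Or.inl ⟨rfl, rfl, hadj⟩)
    · intro w hw
      simp only [mem_filter, mem_univ, true_and, mem_compl] at hw ⊢
      intro hw'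
      exact hs (mem_coe.2 hw) (mem_coe.2 hw') (by simp) (Or.inr ⟨rfl, by simp⟩)
  · rintro ⟨A, T⟩ _
    refine Sigma.ext ?_ (heq_of_eq ?_) <;> ext w <;> simp
  · intro s _
    ext ⟨w, c⟩
    cases c <;> simp
  · rintro ⟨A, T⟩ _
    rw [Finset.card_union_of_disjoint, Finset.card_image_of_injective, Finset.card_image_of_injective]
    · intro a b h; simpa using h
    · intro a b h; simpa using h
    · rw [Finset.disjoint_left]
      intro p hp hq
      simp only [mem_image] at hp hq
      obtain ⟨w, _, rfl⟩ := hp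
      obtain ⟨w', _, h⟩ := hq
      simp at h

/-- join of an independent set `Fin a` with `b` disjoint cliques of order `r` -/
def jn (a b r : ℕ) : SimpleGraph (Fin a ⊕ (Fin b × Fin r)) where
  Adj p q := match p, q with
    | Sum.inl _, Sum.inl _ => False
    | Sum.inl _, Sum.inr _ => True
    | Sum.inr _, Sum.inl _ => True
    | Sum.inr u, Sum.inr v => u.1 = v.1 ∧ u ≠ v
  symm := ⟨by
    rintro (p | p) (q | q) h
    · exact h
    · trivial
    · trivial
    · exact ⟨h.1.symm, h.2.symm⟩⟩
  loopless := ⟨by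
    rintro (p | p) h
    · exact h
    · exact h.2 rfl⟩

open Classical in
noncomputable def tr (b r : ℕ) : Finset (Finset (Fin b × Fin r)) :=
  univ.filter (fun A => ∀ u ∈ A, ∀ v ∈ A, u.1 = v.1 → u = v)

theorem tr_sum (b r : ℕ) (y : ℚ) : ∑ A ∈ tr b r, y ^ A.card = (1 + r * y) ^ b := by
  classical
  have h1 : (1 + r * y) ^ b = ∏ _i : Fin b, ∑ o : Option (Fin r), (if o.isSome then y else 1) := by
    simp [Fintype.sum_option]
  rw [h1, Finset.prod_univ_sum, Fintype.piFinset_univ]
  symm
  refine Finset.sum_bij (fun g _ => univ.filter (fun p : Fin b × Fin r => g p.1 = some p.2))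
    ?_ ?_ ?_ ?_
  · intro g _
    simp only [tr, mem_filter, mem_univ, true_and]
    intro u hu v hv h
    rw [h, hv] at hu
    exact Prod.ext h (Option.some.inj hu).symm
  · intro g _ g' _ h
    funext i
    have : ∀ j, g i = some j ↔ g' i = some j := by
      intro j
      have := congrArg (fun s => (i, j) ∈ s) h
      simpa using this
    cases hg : g i with
    | none =>
      cases hg' : g' i with
      | none => rfl
      | some j => rw [← this, hg] at hg'; exact absurd hg' (by simp)
    | some j => exact ((this j).1 hg).symm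
  · intro A hA
    simp only [tr, mem_filter, mem_univ, true_and] at hA
    refine ⟨fun i => if h : ∃ j, (i, j) ∈ A then some h.choose else none, mem_univ _, ?_⟩
    ext ⟨i, j⟩
    simp only [mem_filter, mem_univ, true_and]
    constructor
    · intro h
      split_ifs at h with h'
      have := h'.choose_spec
      rw [Option.some.inj h] at this
      exact this
    · intro h
      have h' : ∃ j, (i, j) ∈ A := ⟨j, h⟩
      rw [dif_pos h']
      have := hA _ h'.choose_spec _ h rfl
      exact congrArg some (Prod.ext_iff.1 this).2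
  · intro g _
    rw [Finset.prod_ite]
    simp only [prod_const, one_pow, mul_one]
    congr 1
    symm
    refine Finset.card_bij (fun p _ => p.1) ?_ ?_ ?_
    · intro p hp
      simp only [mem_filter, mem_univ, true_and] at hp ⊢
      simp [hp]
    · intro p hp q hq h
      simp only [mem_filter, mem_univ, true_and] at hp hq
      rw [h, hq] at hp
      exact Prod.ext h (Option.some.inj hp).symm
    · intro i hi
      simp only [mem_filter, mem_univ, true_and] at hi
      obtain ⟨j, hj⟩ := Option.isSome_iff_exists.1 hi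
      exact ⟨(i, j), by simp [hj], rfl⟩

theorem jn_sum (a b r : ℕ) (y : ℚ) :
    ∑ A ∈ ind (jn a b r), y ^ A.card + 1 = (1 + y) ^ a + (1 + r * y) ^ b := by
  classical
  set L : Finset (Finset (Fin a ⊕ (Fin b × Fin r))) :=
    (univ : Finset (Fin a)).powerset.image (fun A => A.map ⟨Sum.inl, Sum.inl_injective⟩) with hL
  set R : Finset (Finset (Fin a ⊕ (Fin b × Fin r))) :=
    (tr b r).image (fun A => A.map ⟨Sum.inr, Sum.inr_injective⟩) with hR
  have hu : ind (jn a b r) = L ∪ R := by
    ext A
    simp only [mem_ind, hL, hR, mem_union, mem_image, mem_powerset, tr, mem_filter, mem_univ,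
      true_and]
    constructor
    · intro h
      by_cases h1 : ∃ u, Sum.inr u ∈ A
      · right
        obtain ⟨u0, hu0⟩ := h1
        refine ⟨A.toRight, ?_, ?_⟩
        · intro u hu v hv huv
          by_contra hne
          exact h (mem_coe.2 (mem_toRight.1 hu)) (mem_coe.2 (mem_toRight.1 hv))
            (by simpa using hne) ⟨huv, hne⟩
        · ext (p | p)
          · simp only [mem_map, Function.Embedding.coeFn_mk, reduceCtorEq, and_false, exists_false,
              false_iff]
            intro hp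
            exact h (mem_coe.2 hp) (mem_coe.2 hu0) (by simp) trivial
          · simp
      · left
        push Not at h1
        refine ⟨A.toLeft, subset_univ _, ?_⟩
        ext (p | p)
        · simp
        · simp [h1 p]
    · rintro (⟨C, _, rfl⟩ | ⟨C, hC, rfl⟩)
      · intro p hp q hq _ hadj
        simp only [coe_map, Function.Embedding.coeFn_mk, Set.mem_image, mem_coe] at hp hq
        obtain ⟨u, _, rfl⟩ := hp
        obtain ⟨v, _, rfl⟩ := hq
        exact hadj
      · intro p hp q hq _ hadj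
        simp only [coe_map, Function.Embedding.coeFn_mk, Set.mem_image, mem_coe] at hp hq
        obtain ⟨u, hu, rfl⟩ := hp
        obtain ⟨v, hv, rfl⟩ := hq
        exact hadj.2 (hC u hu v hv hadj.1)
  have hi : L ∩ R = {∅} := by
    ext A
    simp only [hL, hR, mem_inter, mem_image, mem_powerset, tr, mem_filter, mem_univ,
      true_and, mem_singleton]
    constructor
    · rintro ⟨⟨C, _, rfl⟩, ⟨D, _, hD⟩⟩
      rw [Finset.eq_empty_iff_forall_notMem]
      intro p hp
      have hp' := hp
      rw [← hD] at hp'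
      simp only [mem_map, Function.Embedding.coeFn_mk] at hp hp'
      obtain ⟨u, _, rfl⟩ := hp
      obtain ⟨v, _, h⟩ := hp'
      simp at h
    · rintro rfl
      exact ⟨⟨∅, by simp, by simp⟩, ⟨∅, by simp, by simp⟩⟩
  have := Finset.sum_union_inter (s₁ := L) (s₂ := R) (f := fun A => y ^ A.card)
  rw [hi] at this
  simp only [sum_singleton, card_empty, pow_zero] at this
  rw [hu, this, hL, hR, Finset.sum_image, Finset.sum_image]
  · simp only [card_map]
    rw [sum_pow_powerset, tr_sum]
    simp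
  · intro A _ B _ h; exact Finset.map_injective _ h
  · intro A _ B _ h; exact Finset.map_injective _ h

theorem gen (a b r : ℕ) (B : ℕ) :
    ∑ s ∈ ind (cor (jn a b (r + 1))), B ^ s.card + (1 + B) ^ (a + b * (r + 1))
      = (1 + B) ^ (b * (r + 1)) * (1 + 2 * B) ^ a
        + (1 + B) ^ (a + b * r) * (1 + (r + 2) * B) ^ b := by
  have hx : (1 + (B : ℚ)) ≠ 0 := by positivity
  have h1 := cor_sum (jn a b (r + 1)) (B : ℚ)
  have h2 := jn_sum a b (r + 1) ((B : ℚ) / (1 + B))
  have hc : Fintype.card (Fin a ⊕ (Fin b × Fin (r + 1))) = a + b * (r + 1) := by simp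
  have h3 : ∑ A ∈ ind (jn a b (r + 1)), (B : ℚ) ^ A.card *
      (1 + B) ^ (Fintype.card (Fin a ⊕ (Fin b × Fin (r + 1))) - A.card)
      = (1 + B) ^ (a + b * (r + 1)) * ∑ A ∈ ind (jn a b (r + 1)), ((B : ℚ) / (1 + B)) ^ A.card := by
    rw [Finset.mul_sum]
    apply Finset.sum_congr rfl
    intro A _
    have : A.card ≤ a + b * (r + 1) := by rw [← hc]; exact Finset.card_le_univ _
    rw [hc, div_pow, pow_sub₀ _ hx this]
    field_simp
  have e1 : (1 + (B : ℚ) / (1 + B)) = (1 + 2 * B) / (1 + B) := by field_simp; ring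
  have e2 : (1 + ((r + 1 : ℕ) : ℚ) * ((B : ℚ) / (1 + B))) = (1 + (r + 2) * B) / (1 + B) := by
    push_cast; field_simp; ring
  rw [e1, e2] at h2
  have h4 : (∑ s ∈ ind (cor (jn a b (r + 1))), (B : ℚ) ^ s.card) + (1 + B) ^ (a + b * (r + 1))
      = (1 + B) ^ (b * (r + 1)) * (1 + 2 * B) ^ a
        + (1 + B) ^ (a + b * r) * (1 + (r + 2) * B) ^ b := by
    rw [h1, h3, ← mul_add_one, h2, mul_add, div_pow, div_pow]
    congr 1
    · rw [pow_add]; field_simp
    · rw [show a + b * (r + 1) = (a + b * r) + b by ring, pow_add]; field_simp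
  exact_mod_cast h4

theorem digit (f : ℕ → ℕ) (B : ℕ) (hf : ∀ k, f k < B) (N k : ℕ) (hk : k < N) :
    (∑ i ∈ range N, f i * B ^ i) / B ^ k % B = f k := by
  induction k generalizing f N with
  | zero =>
    obtain ⟨M, rfl⟩ : ∃ M, N = M + 1 := ⟨N - 1, by omega⟩
    rw [Finset.sum_range_succ']
    simp only [pow_zero, mul_one, Nat.div_one]
    have : ∑ i ∈ range M, f (i + 1) * B ^ (i + 1) = B * ∑ i ∈ range M, f (i + 1) * B ^ i := by
      rw [Finset.mul_sum]; apply Finset.sum_congr rfl; intro i _; ring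
    rw [this, Nat.mul_add_mod, Nat.mod_eq_of_lt (hf 0)]
  | succ k ih =>
    obtain ⟨M, rfl⟩ : ∃ M, N = M + 1 := ⟨N - 1, by omega⟩
    rw [Finset.sum_range_succ']
    have : ∑ i ∈ range M, f (i + 1) * B ^ (i + 1) = B * ∑ i ∈ range M, f (i + 1) * B ^ i := by
      rw [Finset.mul_sum]; apply Finset.sum_congr rfl; intro i _; ring
    have hB : 0 < B := lt_of_le_of_lt (Nat.zero_le _) (hf 0)
    rw [this, pow_zero, mul_one, pow_succ', ← Nat.div_div_eq_div_mul, Nat.mul_add_div hB,
      Nat.div_eq_of_lt (hf 0), add_zero]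
    exact ih (fun i => f (i + 1)) (fun i => hf (i + 1)) M (by omega)

noncomputable def cnt {V : Type} (G : SimpleGraph V) (k : ℕ) : ℕ :=
  {s : Finset V | G.IsIndepSet (s : Set V) ∧ s.card = k}.ncard

theorem cnt_eq {V : Type} [Fintype V] (G : SimpleGraph V) (k : ℕ) :
    cnt G k = ((ind G).filter (fun s => s.card = k)).card := by
  rw [cnt, ← Set.ncard_coe_finset]
  congr 1
  ext s
  simp [mem_ind]

theorem cnt_digit {V : Type} [Fintype V] (G : SimpleGraph V) (B k : ℕ)
    (hB : 2 ^ Fintype.card V < B) (hk : k ≤ Fintype.card V) :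
    cnt G k = (∑ s ∈ ind G, B ^ s.card) / B ^ k % B := by
  classical
  have h1 : ∑ s ∈ ind G, B ^ s.card = ∑ i ∈ range (Fintype.card V + 1), cnt G i * B ^ i := by
    rw [← Finset.sum_fiberwise_of_maps_to (s := ind G) (t := range (Fintype.card V + 1))
      (g := fun s => s.card)]
    · apply Finset.sum_congr rfl
      intro i _
      rw [cnt_eq, Finset.sum_congr rfl (g := fun _ => B ^ i)]
      · simp
      · intro s hs; rw [(mem_filter.1 hs).2]
    · intro s _
      exact mem_range.2 (Nat.lt_succ_of_le (Finset.card_le_univ _))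
  rw [h1, digit _ _ _ _ _ (Nat.lt_succ_of_le hk)]
  intro k
  rw [cnt_eq]
  refine lt_of_le_of_lt (Finset.card_le_univ _) ?_
  rw [Fintype.card_finset]
  exact hB

def bigW : ℕ := (1 + 2 ^ 4700) ^ (160 * (9 + 1)) * (1 + 2 * 2 ^ 4700) ^ 707
  + (1 + 2 ^ 4700) ^ (707 + 160 * 9) * (1 + (9 + 2) * 2 ^ 4700) ^ 160
  - (1 + 2 ^ 4700) ^ (707 + 160 * (9 + 1))

def dg (k : ℕ) : ℕ := bigW / (2 ^ 4700) ^ k % 2 ^ 4700

theorem dg_dip : dg 1248 < dg 1247 ∧ dg 1248 < dg 1249 := by
  decide +kernel

theorem cnt_dg (k : ℕ) (hk : k ≤ 4614) : cnt (cor (jn 707 160 (9 + 1))) k = dg k := by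
  have hc : Fintype.card ((Fin 707 ⊕ (Fin 160 × Fin (9 + 1))) × Bool) = 4614 := by simp
  rw [cnt_digit _ (2 ^ 4700) k (by rw [hc]; exact Nat.pow_lt_pow_right (by norm_num) (by norm_num))
    (by rw [hc]; exact hk)]
  have := gen 707 160 9 (2 ^ 4700)
  rw [dg, bigW, ← this, Nat.add_sub_cancel]

theorem dip : cnt (cor (jn 707 160 (9 + 1))) 1248 < cnt (cor (jn 707 160 (9 + 1))) 1247 ∧
    cnt (cor (jn 707 160 (9 + 1))) 1248 < cnt (cor (jn 707 160 (9 + 1))) 1249 := by
  rw [cnt_dg _ (by norm_num), cnt_dg _ (by norm_num), cnt_dg _ (by norm_num)]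
  exact dg_dip

end Pool.Agent.H29.Corona
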