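import Pool.Agent.H29.RecIn

set_option autoImplicit false

open Set Pool.Agent.H29.RecIn
open Nat.Partrec (Code)

namespace Pool.Agent.H29.Cospec

noncomputable def chi (X : Set ℕ) (n : ℕ) : ℕ := X.indicator (fun _ => (1 : ℕ)) n

lemma chi_mem {X : Set ℕ} {n : ℕ} (h : n ∈ X) : chi X n = 1 := by simp [chi, h]
lemma chi_not {X : Set ℕ} {n : ℕ} (h : n ∉ X) : chi X n = 0 := by simp [chi, h]
lemma chi_eq_zero {X : Set ℕ} {n : ℕ} : chi X n = 0 ↔ n ∉ X := by
  by_cases h : n ∈ X <;> simp [chi, h]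

structure Ideal (I : Set (Set ℕ)) : Prop where
  ne : I.Nonempty
  red : ∀ X Y : Set ℕ, X ∈ I → ComputableIn {fun n => Part.some (chi X n)} (chi Y) → Y ∈ I
  join : ∀ X Y : Set ℕ, X ∈ I → Y ∈ I →
        {n : ℕ | (n % 2 = 0 ∧ n / 2 ∈ X) ∨ (n % 2 = 1 ∧ n / 2 ∈ Y)} ∈ I

variable {I : Set (Set ℕ)}

lemma Ideal.two (hI : Ideal I) {Y : Set ℕ} (hY : Y ∈ I) (h1 h2 : ℕ → ℕ) (p1 : Primrec h1)
    (p2 : Primrec h2) (c : ℕ × ℕ × ℕ → Prop) (pc : PrimrecPred c) :
    {y | c (y, chi Y (h1 y), chi Y (h2 y))} ∈ I := by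
  classical
  apply hI.red Y _ hY
  have h0 := oracle_tot (chi Y)
  have h3 : Primrec (fun q => if c q then 1 else 0 : ℕ × ℕ × ℕ → ℕ) :=
    Primrec.ite pc (Primrec.const 1) (Primrec.const 0)
  refine RecursiveIn.of_eq (ccomp h3.computableIn (rpair ComputableIn.id
    (rpair (ccomp h0 p1.computableIn) (ccomp h0 p2.computableIn)))) fun y => ?_
  apply congrArg Part.some
  by_cases h : c (y, chi Y (h1 y), chi Y (h2 y))
  · rw [chi_mem (by exact h)]; simp [h]
  · rw [chi_not (by exact h)]; simp [h]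

lemma Ideal.union (hI : Ideal I) {X Y : Set ℕ} (hX : X ∈ I) (hY : Y ∈ I) : X ∪ Y ∈ I := by
  have := hI.two (hI.join X Y hX hY) (fun n => 2 * n) (fun n => 2 * n + 1)
    (Primrec.nat_mul.comp (Primrec.const 2) Primrec.id)
    (Primrec.succ.comp (Primrec.nat_mul.comp (Primrec.const 2) Primrec.id))
    (fun q => ¬ q.2.1 = 0 ∨ ¬ q.2.2 = 0)
    (PrimrecPred.or (Primrec.eq.comp (Primrec.fst.comp Primrec.snd) (Primrec.const 0)).not
      (Primrec.eq.comp (Primrec.snd.comp Primrec.snd) (Primrec.const 0)).not)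
  convert this using 1
  ext n
  have e4 : (2 * n + 1) / 2 = n := by omega
  simp [chi_eq_zero, e4]

lemma Ideal.finite (hI : Ideal I) {X : Set ℕ} (hX : X.Finite) : X ∈ I := by
  obtain ⟨Y, hY⟩ := hI.ne
  induction X, hX using Set.Finite.induction_on with
  | empty =>
    have := hI.two hY id id Primrec.id Primrec.id (fun q => ¬ q.1 = q.1)
      (Primrec.eq.comp Primrec.fst Primrec.fst).not
    simpa using this
  | @insert a s _ _ ih =>
    have := hI.two hY id id Primrec.id Primrec.id (fun q => q.1 = a)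
      (Primrec.eq.comp Primrec.fst (Primrec.const a))
    exact hI.union this ih

lemma prim_l : Primrec (fun n : ℕ => n.unpair.1) := Primrec.fst.comp Primrec.unpair
lemma prim_r : Primrec (fun n : ℕ => n.unpair.2) := Primrec.snd.comp Primrec.unpair
lemma prim_pow : Primrec (fun n : ℕ => 2 ^ n) :=
  (Primrec₂.unpaired'.mp Nat.Primrec.pow).comp (Primrec.const 2) Primrec.id

lemma Ideal.col (hI : Ideal I) {Z : Set ℕ} (hZ : Z ∈ I) (k N : ℕ) :
    {y : ℕ | y.unpair.1.unpair.1 = k ∧ N ≤ y.unpair.1.unpair.2 ∧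
      y.unpair.2 = chi Z y.unpair.1.unpair.2} ∈ I :=
  hI.two hZ (fun y => y.unpair.1.unpair.2) id (prim_r.comp prim_l) Primrec.id
    (fun q => q.1.unpair.1.unpair.1 = k ∧ N ≤ q.1.unpair.1.unpair.2 ∧ q.1.unpair.2 = q.2.1)
    (PrimrecPred.and (Primrec.eq.comp ((prim_l.comp prim_l).comp Primrec.fst) (Primrec.const k))
      (PrimrecPred.and (Primrec.nat_le.comp (Primrec.const N) ((prim_r.comp prim_l).comp Primrec.fst))
        (Primrec.eq.comp (prim_r.comp Primrec.fst) (Primrec.fst.comp Primrec.snd))))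

lemma lt_of_bit {u y : ℕ} (h : u.testBit y = true) : y < u :=
  lt_of_lt_of_le Nat.lt_two_pow_self (Nat.ge_two_pow_of_testBit h)

lemma prim_bit : PrimrecRel (fun u y : ℕ => u.testBit y = true) := by
  have : PrimrecRel (fun u y : ℕ => u / 2 ^ y % 2 = 1) :=
    Primrec.eq.comp (Primrec.nat_mod.comp (Primrec.nat_div.comp Primrec.fst
      (prim_pow.comp Primrec.snd)) (Primrec.const 2)) (Primrec.const 1)
  exact this.of_eq (fun p => by simp [Nat.testBit_eq_decide_div_mod_eq])

/-- relativised Post theorem in the form needed -/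
lemma Ideal.post (hI : Ideal I) {W X : Set ℕ} (hW : W ∈ I) (c : Code)
    (h1 : ∀ x, ∃ u, (c.eval (Nat.pair (2 * x + (1 - chi X x)) u)).Dom ∧
      ∀ y, u.testBit y = true → y ∉ W)
    (h2 : ∀ x u0 u1, (c.eval (Nat.pair (2 * x) u0)).Dom → (c.eval (Nat.pair (2 * x + 1) u1)).Dom →
      (∀ y, u0.testBit y = true → y ∉ W) → (∀ y, u1.testBit y = true → y ∉ W) → False) :
    X ∈ I := by
  classical
  apply hI.red W _ hW
  let C : ℕ × ℕ × List ℕ → Prop := fun q =>
    (Nat.Partrec.Code.evaln q.2.1.unpair.2.unpair.2 c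
      (Nat.pair (2 * q.1 + q.2.1.unpair.2.unpair.1 % 2) q.2.1.unpair.1)).isSome = true ∧
    ∀ y < q.2.1.unpair.1, (q.2.1.unpair.1.testBit y = true → q.2.2.getD y 0 = 0)
  have pn : Primrec (fun q : ℕ × ℕ × List ℕ => q.2.1) := Primrec.fst.comp Primrec.snd
  have pb : Primrec (fun q : ℕ × ℕ × List ℕ => q.2.1.unpair.2.unpair.1 % 2) :=
    Primrec.nat_mod.comp ((prim_l.comp prim_r).comp pn) (Primrec.const 2)
  have hC : PrimrecPred C := by
    apply PrimrecPred.and
    · refine Primrec.eq.comp (Primrec.option_isSome.comp (Nat.Partrec.Code.primrec_evaln.comp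
        (Primrec.pair (Primrec.pair ((prim_r.comp prim_r).comp pn) (Primrec.const c))
          (Primrec₂.natPair.comp (Primrec.nat_add.comp
            (Primrec.nat_mul.comp (Primrec.const 2) Primrec.fst) pb) (prim_l.comp pn)))))
        (Primrec.const true)
    · have hR : PrimrecRel (fun (y : ℕ) (q : ℕ × List ℕ) =>
          ¬ (q.1.testBit y = true) ∨ q.2.getD y 0 = 0) :=
        PrimrecPred.or (prim_bit.comp (Primrec.fst.comp Primrec.snd) Primrec.fst).not
          (Primrec.eq.comp ((Primrec.list_getD 0).comp (Primrec.snd.comp Primrec.snd) Primrec.fst)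
            (Primrec.const 0))
      have hq : Primrec (fun q : ℕ × ℕ × List ℕ => (q.2.1.unpair.1, q.2.2)) :=
        Primrec.pair (prim_l.comp pn) (Primrec.snd.comp Primrec.snd)
      refine ((PrimrecRel.forall_mem_list hR).comp (Primrec.list_range.comp (prim_l.comp pn))
        hq).of_eq fun q => ?_
      simp only [imp_iff_not_or (a := q.2.1.unpair.1.testBit _ = true), List.mem_range]
  have hget : ∀ n y, y < n → ((List.range n).map (chi W)).getD y 0 = chi W y := by
    intro n y hy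
    simp [List.getD_eq_getElem?_getD, List.getElem?_range hy]
  refine master (oracle_tot (chi W))
    (fun q => if C q then some (1 - q.2.1.unpair.2.unpair.1 % 2) else none)
    (Primrec.ite hC (Primrec.option_some.comp (Primrec.nat_sub.comp (Primrec.const 1) pb))
      (Primrec.const none)).to_comp ?_ ?_
  · intro x
    obtain ⟨u, hu1, hu2⟩ := h1 x
    obtain ⟨s, hs⟩ := Nat.Partrec.Code.evaln_complete.mp (Part.get_mem hu1)
    refine ⟨Nat.pair u (Nat.pair (1 - chi X x) s), _, if_pos ⟨?_, ?_⟩⟩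
    · simp only [Nat.unpair_pair]
      have : (1 - chi X x) % 2 = 1 - chi X x := by omega
      rw [this, Option.mem_def.mp hs]; rfl
    · simp only [Nat.unpair_pair]
      intro y hy hb
      rw [hget _ _ (lt_of_lt_of_le hy (Nat.left_le_pair _ _))]
      exact chi_not (hu2 y hb)
  · intro x n v h
    split_ifs at h with hc
    obtain ⟨hc1, hc2⟩ := hc
    simp only at hc1 hc2 h
    obtain ⟨a, ha⟩ := Option.isSome_iff_exists.mp hc1
    have hd := Part.dom_iff_mem.mpr ⟨a, Nat.Partrec.Code.evaln_sound (Option.mem_def.mpr ha)⟩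
    have hc3 : ∀ y, n.unpair.1.testBit y = true → y ∉ W := by
      intro y hb
      have := hc2 y (lt_of_bit hb) hb
      rw [hget _ _ (lt_of_lt_of_le (lt_of_bit hb) (Nat.unpair_left_le n))] at this
      exact chi_eq_zero.mp this
    obtain ⟨u, hu1, hu2⟩ := h1 x
    have hv := Option.some.inj h
    by_cases hx : x ∈ X
    · rw [chi_mem hx] at hu1 ⊢
      by_contra hne
      have : n.unpair.2.unpair.1 % 2 = 1 := by omega
      rw [this] at hd
      exact h2 x u _ hu1 hd hu2 hc3
    · rw [chi_not hx] at hu1 ⊢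
      by_contra hne
      have : n.unpair.2.unpair.1 % 2 = 0 := by omega
      rw [this] at hd
      exact h2 x _ u hd hu1 hc3 hu2

def Gr (p : ℕ → Option ℕ) : Set ℕ := {y | p y.unpair.1 = some y.unpair.2}

def Inv (I : Set (Set ℕ)) (k : ℕ) (p : ℕ → Option ℕ) : Prop :=
  Gr p ∈ I ∧ ∀ j, k ≤ j → ∃ N, ∀ n, N ≤ n → p (Nat.pair j n) = none

def Ext (p q : ℕ → Option ℕ) : Prop := ∀ m v, p m = some v → q m = some v

def Req (c : Code) (p q : ℕ → Option ℕ) : Prop :=
  (∀ x u0 u1, (c.eval (Nat.pair (2 * x) u0)).Dom → (c.eval (Nat.pair (2 * x + 1) u1)).Dom →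
      (∀ y, u0.testBit y = true → y ∉ Gr p) → (∀ y, u1.testBit y = true → y ∉ Gr p) → False) ∨
  ∃ x u0 u1, (c.eval (Nat.pair (2 * x) u0)).Dom ∧ (c.eval (Nat.pair (2 * x + 1) u1)).Dom ∧
      ∀ y, (u0.testBit y = true ∨ u1.testBit y = true) →
        ∃ v, q y.unpair.1 = some v ∧ v ≠ y.unpair.2

lemma step1 (hI : Ideal I) (c : Code) (k : ℕ) (p : ℕ → Option ℕ) (hp : Inv I k p) :
    ∃ q, Inv I k q ∧ Ext p q ∧ Req c p q := by
  classical
  by_cases h : ∀ x u0 u1, (c.eval (Nat.pair (2 * x) u0)).Dom →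
      (c.eval (Nat.pair (2 * x + 1) u1)).Dom →
      (∀ y, u0.testBit y = true → y ∉ Gr p) → (∀ y, u1.testBit y = true → y ∉ Gr p) → False
  · exact ⟨p, hp, fun _ _ h => h, Or.inl h⟩
  push Not at h
  obtain ⟨x, u0, u1, d0, d1, c0, c1, -⟩ := h
  let q : ℕ → Option ℕ := fun m => if p m = none ∧ m < u0 + u1 then some (u0 + u1) else p m
  refine ⟨q, ⟨?_, ?_⟩, ?_, Or.inr ⟨x, u0, u1, d0, d1, ?_⟩⟩
  · have hf : {y : ℕ | p y.unpair.1 = none ∧ y.unpair.1 < u0 + u1 ∧ y.unpair.2 = u0 + u1}.Finite := by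
      refine ((finite_Iio (u0 + u1)).image (fun m => Nat.pair m (u0 + u1))).subset ?_
      rintro y ⟨_, h2, h3⟩
      exact ⟨_, h2, by simp only; rw [← h3, Nat.pair_unpair]⟩
    convert hI.union hp.1 (hI.finite hf) using 1
    ext y
    simp only [Gr, q, mem_union, mem_ofPred_eq]
    split_ifs with h
    · simp [h.1, h.2, eq_comm]
    · constructor
      · exact Or.inl
      · rintro (h' | h')
        · exact h'
        · exact absurd ⟨h'.1, h'.2.1⟩ h
  · intro j hj
    obtain ⟨N, hN⟩ := hp.2 j hj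
    refine ⟨N + (u0 + u1), fun n hn => ?_⟩
    have := Nat.right_le_pair j n
    simp only [q]
    rw [if_neg (by omega)]
    exact hN n (by omega)
  · intro m v h
    simp [q, h]
  · intro y hy
    have h1 : y < u0 + u1 := by
      rcases hy with hy | hy <;> have := lt_of_bit hy <;> omega
    have h2 : y ∉ Gr p := by
      rcases hy with hy | hy
      · exact c0 y hy
      · exact c1 y hy
    have h3 := Nat.unpair_left_le y
    have h4 := Nat.unpair_right_le y
    rcases e : p y.unpair.1 with - | v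
    · exact ⟨u0 + u1, by simp only [q]; rw [if_pos ⟨e, by omega⟩], by omega⟩
    · refine ⟨v, by simp [q, e], ?_⟩
      rintro rfl
      exact h2 e

lemma step2 (hI : Ideal I) {Z : Set ℕ} (hZ : Z ∈ I) (k : ℕ) (p : ℕ → Option ℕ) (hp : Inv I k p) :
    ∃ q, Inv I (k + 1) q ∧ Ext p q ∧ ∃ N, ∀ n, N ≤ n → q (Nat.pair k n) = some (chi Z n) := by
  obtain ⟨N, hN⟩ := hp.2 k le_rfl
  let q : ℕ → Option ℕ := fun m =>
    if m.unpair.1 = k ∧ N ≤ m.unpair.2 then some (chi Z m.unpair.2) else p m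
  have hnone : ∀ m : ℕ, m.unpair.1 = k ∧ N ≤ m.unpair.2 → p m = none := by
    rintro m ⟨h1, h2⟩
    rw [← Nat.pair_unpair m, h1]
    exact hN _ h2
  refine ⟨q, ⟨?_, ?_⟩, ?_, N, ?_⟩
  · convert hI.union hp.1 (hI.col hZ k N) using 1
    ext y
    simp only [Gr, q, mem_union, mem_ofPred_eq]
    split_ifs with h
    · simp [hnone _ h, h.1, h.2, eq_comm]
    · constructor
      · exact Or.inl
      · rintro (h' | h')
        · exact h'
        · exact absurd ⟨h'.1, h'.2.1⟩ h
  · intro j hj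
    obtain ⟨M, hM⟩ := hp.2 j (by omega)
    refine ⟨M, fun n hn => ?_⟩
    simp only [q, Nat.unpair_pair]
    rw [if_neg (by omega)]
    exact hM n hn
  · intro m v h
    simp only [q]
    rw [if_neg (fun h' => by rw [hnone m h'] at h; cases h)]
    exact h
  · intro n hn
    simp [q, hn]

lemma prim_fin {L : Set ℕ} (hL : L.Finite) : PrimrecPred (fun x => x ∈ L) := by
  induction L, hL using Set.Finite.induction_on with
  | empty => exact (Primrec.eq.comp Primrec.id Primrec.id).not.of_eq (by simp)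
  | @insert a s _ _ ih =>
    exact (PrimrecPred.or (Primrec.eq.comp Primrec.id (Primrec.const a)) ih).of_eq (by simp)

theorem main (hI : Ideal I) (hc : I.Countable) : ∃ f : ℕ → ℕ, ∀ X : Set ℕ, X ∈ I ↔
        ∃ g : ℕ →. ℕ, Partrec g ∧
          ∀ x : ℕ, ((x % 2 = 0 ∧ x / 2 ∈ X) ∨ (x % 2 = 1 ∧ x / 2 ∉ X)) ↔
            ∃ u : ℕ, (g (Nat.pair x u)).Dom ∧
              ∀ y : ℕ, u.testBit y = true → f (Nat.unpair y).1 ≠ (Nat.unpair y).2 := by
  classical
  obtain ⟨Z, hZ⟩ := hc.exists_eq_range hI.ne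
  have hZI : ∀ k, Z k ∈ I := fun k => hZ ▸ mem_range_self k
  have step : ∀ k p, ∃ q, Inv I k p → Inv I (k + 1) q ∧ Ext p q ∧
      Req (Denumerable.ofNat Code k) p q ∧
      ∃ N, ∀ n, N ≤ n → q (Nat.pair k n) = some (chi (Z k) n) := by
    intro k p
    by_cases hp : Inv I k p
    · obtain ⟨q, h1, h2, h3⟩ := step1 hI (Denumerable.ofNat Code k) k p hp
      obtain ⟨r, g1, g2, g3⟩ := step2 hI (hZI k) k q h1
      refine ⟨r, fun _ => ⟨g1, fun m v h => g2 m v (h2 m v h), ?_, g3⟩⟩
      rcases h3 with h3 | ⟨x, u0, u1, d0, d1, h3⟩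
      · exact Or.inl h3
      · refine Or.inr ⟨x, u0, u1, d0, d1, fun y hy => ?_⟩
        obtain ⟨v, hv, hv'⟩ := h3 y hy
        exact ⟨v, g2 _ _ hv, hv'⟩
    · exact ⟨p, fun h => absurd h hp⟩
  choose F hF using step
  let P : ℕ → ℕ → Option ℕ := fun k => Nat.rec (fun _ => none) (fun k p => F k p) k
  have hInv : ∀ k, Inv I k (P k) := by
    intro k
    induction k with
    | zero =>
      refine ⟨?_, fun j _ => ⟨0, fun _ _ => rfl⟩⟩
      have : Gr (P 0) = ∅ := by ext y; simp [Gr, P]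
      rw [this]; exact hI.finite finite_empty
    | succ k ih => exact (hF k _ ih).1
  have hExt : ∀ k l, k ≤ l → Ext (P k) (P l) := by
    intro k l h
    induction h with
    | refl => exact fun _ _ h => h
    | @step l _ ih => exact fun m v h => (hF l _ (hInv l)).2.1 m v (ih m v h)
  let f : ℕ → ℕ := fun m =>
    @dite _ (∃ v k, P k m = some v) (Classical.dec _) (fun h => h.choose) (fun _ => 0)
  have hf : ∀ k m v, P k m = some v → f m = v := by
    intro k m v h
    have he : ∃ v k, P k m = some v := ⟨v, k, h⟩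
    simp only [f, dif_pos he]
    obtain ⟨l, hl⟩ := he.choose_spec
    have a1 := hExt k (max k l) (le_max_left _ _) _ _ h
    have a2 := hExt l (max k l) (le_max_right _ _) _ _ hl
    exact Option.some.inj (a2.symm.trans a1)
  refine ⟨f, fun X => ⟨fun hX => ?_, ?_⟩⟩
  · obtain ⟨k, rfl⟩ : X ∈ range Z := hZ ▸ hX
    obtain ⟨N, hN⟩ := (hF k _ (hInv k)).2.2.2
    have hfk : ∀ n, N ≤ n → f (Nat.pair k n) = chi (Z k) n := fun n hn => hf (k + 1) _ _ (hN n hn)
    let L : Set ℕ := {x | x / 2 < N ∧ ((x % 2 = 0 ∧ x / 2 ∈ Z k) ∨ (x % 2 = 1 ∧ x / 2 ∉ Z k))}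
    have hL : L.Finite := (finite_Iio (2 * N)).subset (fun x hx => by
      have := hx.1; simp only [mem_Iio]; omega)
    let C : ℕ → Prop := fun w => (N ≤ w.unpair.1 / 2 ∧
      w.unpair.2 = 2 ^ Nat.pair (Nat.pair k (w.unpair.1 / 2)) (w.unpair.1 % 2)) ∨
      (w.unpair.1 ∈ L ∧ w.unpair.2 = 0)
    have ph : Primrec (fun w : ℕ => w.unpair.1 / 2) := Primrec.nat_div.comp prim_l (Primrec.const 2)
    have hC : PrimrecPred C :=
      PrimrecPred.or (PrimrecPred.and (Primrec.nat_le.comp (Primrec.const N) ph)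
        (Primrec.eq.comp prim_r (prim_pow.comp (Primrec₂.natPair.comp
          (Primrec₂.natPair.comp (Primrec.const k) ph)
          (Primrec.nat_mod.comp prim_l (Primrec.const 2))))))
        (PrimrecPred.and ((prim_fin hL).comp prim_l) (Primrec.eq.comp prim_r (Primrec.const 0)))
    refine ⟨fun w => ((if C w then some 0 else none : Option ℕ) : Part ℕ),
      Computable.ofOption (Primrec.ite hC (Primrec.const _) (Primrec.const _)).to_comp, fun x => ?_⟩
    have hdom : ∀ u, (((if C (Nat.pair x u) then some 0 else none : Option ℕ) : Part ℕ)).Dom ↔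
        C (Nat.pair x u) := by
      intro u
      split_ifs with h <;> simp [h]
    simp only [hdom]
    simp only [C, Nat.unpair_pair]
    constructor
    · intro h
      by_cases hx : N ≤ x / 2
      · refine ⟨_, Or.inl ⟨hx, rfl⟩, fun y hy => ?_⟩
        rw [Nat.testBit_two_pow] at hy
        have := of_decide_eq_true hy
        subst this
        simp only [Nat.unpair_pair]
        rw [hfk _ hx]
        rcases h with h | h
        · rw [chi_mem h.2]; omega
        · rw [chi_not h.2]; omega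
      · exact ⟨0, Or.inr ⟨⟨by omega, h⟩, rfl⟩, by simp⟩
    · rintro ⟨u, ⟨h1, rfl⟩ | ⟨h1, rfl⟩, h2⟩
      · have := h2 _ (Nat.testBit_two_pow_self)
        simp only [Nat.unpair_pair] at this
        rw [hfk _ h1] at this
        by_cases hx : x / 2 ∈ Z k
        · rw [chi_mem hx] at this
          exact Or.inl ⟨by omega, hx⟩
        · rw [chi_not hx] at this
          exact Or.inr ⟨by omega, hx⟩
      · exact h1.2
  · rintro ⟨g, hg, hX⟩
    obtain ⟨c, rfl⟩ := Nat.Partrec.Code.exists_code.mp (Partrec.nat_iff.mp hg)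
    have hR := (hF (Encodable.encode c) _ (hInv _)).2.2.1
    rw [Denumerable.ofNat_encode] at hR
    rcases hR with hR | ⟨x, u0, u1, d0, d1, hR⟩
    · refine hI.post (hInv (Encodable.encode c)).1 c (fun x => ?_) hR
      obtain ⟨u, hu1, hu2⟩ := (hX (2 * x + (1 - chi X x))).mp (by
        by_cases hx : x ∈ X
        · rw [chi_mem hx]
          exact Or.inl ⟨by omega, by rwa [show (2 * x + (1 - 1)) / 2 = x by omega]⟩
        · rw [chi_not hx]
          exact Or.inr ⟨by omega, by rwa [show (2 * x + (1 - 0)) / 2 = x by omega]⟩)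
      exact ⟨u, hu1, fun y hy hm => hu2 y hy (hf _ _ _ hm)⟩
    · exfalso
      have a0 := (hX (2 * x)).mpr ⟨u0, d0, fun y hy => by
        obtain ⟨v, hv, hv'⟩ := hR y (Or.inl hy)
        rwa [hf (Encodable.encode c + 1) _ _ hv]⟩
      have a1 := (hX (2 * x + 1)).mpr ⟨u1, d1, fun y hy => by
        obtain ⟨v, hv, hv'⟩ := hR y (Or.inr hy)
        rwa [hf (Encodable.encode c + 1) _ _ hv]⟩
      rw [show (2 * x) / 2 = x by omega] at a0
      rw [show (2 * x + 1) / 2 = x by omega] at a1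
      rcases a0 with a0 | a0 <;> rcases a1 with a1 | a1
      · omega
      · exact a1.2 a0.2
      · omega
      · omega

end Pool.Agent.H29.Cospec
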