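import Mathlib

set_option autoImplicit false

namespace Pool.Agent.H29.CpLind

open Topology Filter

universe u v

theorem fin_supp {E : Type u} {ι : Type v} [AddCommGroup E] [Module ℝ E] [TopologicalSpace E]
    (ev : E →ₗ[ℝ] (ι → ℝ)) (hev : IsInducing ev) (φ : E →ₗ[ℝ] ℝ) (hφ : Continuous φ) :
    ∃ I : Set ι, I.Finite ∧ ∀ f, (∀ i ∈ I, ev f i = 0) → φ f = 0 := by
  have h1 : φ ⁻¹' Metric.ball 0 1 ∈ 𝓝 (0 : E) :=
    hφ.continuousAt.preimage_mem_nhds (by rw [map_zero]; exact Metric.ball_mem_nhds _ one_pos)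
  rw [hev.nhds_eq_comap, map_zero, nhds_pi, mem_comap] at h1
  obtain ⟨W, hW, hsub⟩ := h1
  obtain ⟨I, hI, t, ht, hIt⟩ := mem_pi.mp hW
  refine ⟨I, hI, fun f hf => ?_⟩
  by_contra hne
  have h2 : (φ f)⁻¹ • f ∈ φ ⁻¹' Metric.ball 0 1 := by
    refine hsub (hIt fun i hi => ?_)
    rw [map_smul, Pi.smul_apply, hf i hi, smul_zero]
    exact mem_of_mem_nhds (ht i)
  simp [inv_mul_cancel₀ hne] at h2

inductive Tm : Type
  | zero : Tm
  | add : Tm → Tm → Tm
  | wit : Tm → ℕ → ℕ → ℕ → Tm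
  deriving Countable

def Tm.ev {G : Type u} (z : G) (a : G → G → G) (w : G → ℕ → ℕ → ℕ → G) : Tm → G
  | .zero => z
  | .add s t => a (s.ev z a w) (t.ev z a w)
  | .wit s j k m => w (s.ev z a w) j k m

/-- the cut-off function -/
noncomputable def cut {Y : Type v} (h : Y → ℝ) (d : ℝ) : Y → ℝ := fun z => max 0 (1 - h z / d)

theorem cut_cont {Y : Type v} [TopologicalSpace Y] {h : Y → ℝ} (hh : Continuous h) (d : ℝ) :
    Continuous (cut h d) := by unfold cut; fun_prop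

theorem cut_zero {Y : Type v} {h : Y → ℝ} {d : ℝ} (hd : 0 < d) {z : Y} (hz : d ≤ h z) :
    cut h d z = 0 := by
  unfold cut
  exact max_eq_left (by rw [sub_nonpos, le_div_iff₀ hd]; linarith)

theorem cut_one {Y : Type v} {h : Y → ℝ} {d : ℝ} {z : Y} (hz : h z = 0) : cut h d z = 1 := by
  simp [cut, hz]

theorem fin_lower {Y : Type v} {S : Set Y} (hS : S.Finite) (h : Y → ℝ) (hp : ∀ z ∈ S, 0 < h z) :
    ∃ j : ℕ, ∀ z ∈ S, 1 / ((j : ℝ) + 1) ≤ h z := by
  induction S, hS using Set.Finite.induction_on with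
  | empty => exact ⟨0, by simp⟩
  | @insert a s _ _ ih =>
    obtain ⟨j, hj⟩ := ih fun z hz => hp z (Or.inr hz)
    obtain ⟨k, hk⟩ := exists_nat_one_div_lt (hp a (Or.inl rfl))
    refine ⟨j + k, ?_⟩
    rintro z (rfl | hz)
    · refine le_trans ?_ hk.le
      gcongr; omega
    · refine le_trans ?_ (hj z hz)
      gcongr; omega

theorem main {X : Type u} {Y : Type v} [TopologicalSpace X] [TopologicalSpace Y]
    [CompletelyRegularSpace Y] [LindelofSpace X]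
    (T : (Y → ℝ) → X → ℝ) (hT : ∀ f, Continuous f → Continuous (T f))
    (h1 : ∀ x, ∃ S : Set Y, S.Finite ∧ ∀ f g, Continuous f → Continuous g →
      (∀ z ∈ S, f z = g z) → T f x = T g x)
    (h0 : ∀ x, T 0 x = 0)
    (h2 : ∀ y, ∃ A : Set X, A.Finite ∧ ∀ f, Continuous f → (∀ x ∈ A, T f x = 0) → f y = 0) :
    LindelofSpace Y := by
  refine ⟨isLindelof_of_countable_subcover fun {ι} U hU hcov => ?_⟩
  choose S hS hST using h1
  let Good : (Y → ℝ) → Prop := fun h => Continuous h ∧ (∀ z, 0 ≤ h z) ∧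
    ∃ s : Set ι, s.Countable ∧ ∀ z, h z ≠ 0 → ∃ i ∈ s, z ∈ U i
  have g0 : Good 0 := ⟨continuous_const, fun _ => le_rfl, ∅, Set.countable_empty, by simp⟩
  have gadd : ∀ h h', Good h → Good h' → Good (h + h') := by
    rintro h h' ⟨c, p, s, hs, H⟩ ⟨c', p', s', hs', H'⟩
    refine ⟨c.add c', fun z => add_nonneg (p z) (p' z), s ∪ s', hs.union hs', fun z hz => ?_⟩
    by_cases e : h z = 0
    · obtain ⟨i, hi, hz⟩ := H' z (fun e' => hz (by simp [e, e']))
      exact ⟨i, Or.inr hi, hz⟩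
    · obtain ⟨i, hi, hz⟩ := H z e
      exact ⟨i, Or.inl hi, hz⟩
  have gpt : ∀ y, ∃ h, Good h ∧ 0 < h y := by
    intro y
    obtain ⟨i, hi⟩ := Set.mem_iUnion.mp (hcov (Set.mem_univ y))
    obtain ⟨f, hf, hf0, hf1⟩ := CompletelyRegularSpace.completely_regular y (U i)ᶜ
      (hU i).isClosed_compl (by simpa using hi)
    refine ⟨fun z => 1 - (f z : ℝ), ⟨by fun_prop, fun z => sub_nonneg.mpr (f z).2.2, {i},
      Set.countable_singleton i, fun z hz => ⟨i, rfl, ?_⟩⟩, by simp [hf0]⟩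
    by_contra hz'
    exact hz (by simp [hf1 hz'])
  have gfin : ∀ F : Set Y, F.Finite → ∃ h, Good h ∧ ∀ z ∈ F, 0 < h z := by
    intro F hF
    induction F, hF using Set.Finite.induction_on with
    | empty => exact ⟨0, g0, by simp⟩
    | @insert a s _ _ ih =>
      obtain ⟨h, hg, hp⟩ := ih
      obtain ⟨h', hg', hp'⟩ := gpt a
      refine ⟨h + h', gadd _ _ hg hg', ?_⟩
      rintro z (rfl | hz)
      · exact add_pos_of_nonneg_of_pos (hg.2.1 _) hp'
      · exact add_pos_of_pos_of_nonneg (hp z hz) (hg'.2.1 _)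
  have hw : ∀ (h : {h // Good h}) (j k : ℕ), ∃ w : ℕ → {h // Good h}, ∀ x, ∃ m, ∃ g : Y → ℝ,
      Continuous g ∧ (∀ z, 1 / ((j : ℝ) + 1) ≤ h.1 z → g z = 0) ∧ (∀ z, (w m).1 z = 0 → g z = 1) ∧
      |T g x| < 1 / ((k : ℝ) + 1) := by
    intro h j k
    have key : ∀ x, ∃ (h' : {h // Good h}) (g : Y → ℝ), Continuous g ∧
        (∀ z, 1 / ((j : ℝ) + 1) ≤ h.1 z → g z = 0) ∧ (∀ z, h'.1 z = 0 → g z = 1) ∧ T g x = 0 := by
      intro x
      obtain ⟨hx, hg, hp⟩ := gfin (S x) (hS x)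
      obtain ⟨l, hl⟩ := fin_lower (hS x) hx hp
      have hd : (0 : ℝ) < 1 / (((j + l : ℕ) : ℝ) + 1) := by positivity
      refine ⟨⟨h.1 + hx, gadd _ _ h.2 hg⟩, cut (h.1 + hx) (1 / (((j + l : ℕ) : ℝ) + 1)),
        cut_cont (h.2.1.add hg.1) _, fun z hz => cut_zero hd ?_, fun z hz => cut_one hz, ?_⟩
      · have : 1 / (((j + l : ℕ) : ℝ) + 1) ≤ 1 / ((j : ℝ) + 1) := by gcongr; omega
        have := hg.2.1 z
        simp only [Pi.add_apply]; linarith
      · rw [← h0 x]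
        refine hST x _ _ (cut_cont (h.2.1.add hg.1) _) continuous_const fun z hz => cut_zero hd ?_
        have : 1 / (((j + l : ℕ) : ℝ) + 1) ≤ 1 / ((l : ℝ) + 1) := by gcongr; omega
        have := h.2.2.1 z
        have := hl z hz
        simp only [Pi.add_apply]; linarith
    choose h' g hg using key
    obtain ⟨t, ht, htc⟩ := (isLindelof_univ (X := X)).elim_countable_subcover
      (fun x => {x' | |T (g x) x'| < 1 / ((k : ℝ) + 1)})
      (fun x => isOpen_lt (hT _ (hg x).1).abs continuous_const)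
      (fun x _ => Set.mem_iUnion.mpr ⟨x, by
        simp only [Set.mem_ofPred_eq, (hg x).2.2.2, abs_zero]; positivity⟩)
    obtain ⟨w, hw⟩ := ((ht.image h').insert ⟨0, g0⟩).exists_eq_range (Set.insert_nonempty _ _)
    refine ⟨w, fun x => ?_⟩
    obtain ⟨x', hx', hxx⟩ := Set.mem_iUnion₂.mp (htc (Set.mem_univ x))
    have : h' x' ∈ Set.range w := by rw [← hw]; exact Or.inr ⟨x', hx', rfl⟩
    obtain ⟨m, hm⟩ := this
    exact ⟨m, g x', (hg x').1, (hg x').2.1, by rw [hm]; exact (hg x').2.2.1, hxx⟩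
  choose w hw using hw
  let e : Tm → {h // Good h} :=
    Tm.ev ⟨0, g0⟩ (fun a b => ⟨a.1 + b.1, gadd _ _ a.2 b.2⟩) w
  choose s hs hsU using fun t : Tm => (e t).2.2.2
  refine ⟨⋃ t, s t, Set.countable_iUnion hs, fun y _ => ?_⟩
  suffices H : ∃ t, (e t).1 y ≠ 0 by
    obtain ⟨t, ht⟩ := H
    obtain ⟨i, hi, hy⟩ := hsU t y ht
    exact Set.mem_iUnion₂.mpr ⟨i, Set.mem_iUnion.mpr ⟨t, hi⟩, hy⟩
  by_contra hy
  push Not at hy
  obtain ⟨A, hA, hAy⟩ := h2 y
  have efin : ∀ F : Set Y, F.Finite → ∃ t, ∀ z ∈ F, (∃ t', (e t').1 z ≠ 0) → 0 < (e t).1 z := by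
    intro F hF
    induction F, hF using Set.Finite.induction_on with
    | empty => exact ⟨.zero, by simp⟩
    | @insert a s _ _ ih =>
      obtain ⟨t, ht⟩ := ih
      by_cases ha : ∃ t', (e t').1 a ≠ 0
      · obtain ⟨t', ht'⟩ := ha
        refine ⟨.add t t', ?_⟩
        rintro z (rfl | hz) hz'
        · exact add_pos_of_nonneg_of_pos ((e t).2.2.1 _) (((e t').2.2.1 _).lt_of_ne' ht')
        · exact add_pos_of_pos_of_nonneg (ht z hz hz') ((e t').2.2.1 _)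
      · refine ⟨t, ?_⟩
        rintro z (rfl | hz) hz'
        · exact absurd hz' ha
        · exact ht z hz hz'
  have hF : (⋃ x ∈ A, S x).Finite := hA.biUnion fun x _ => hS x
  obtain ⟨t, ht⟩ := efin _ hF
  obtain ⟨j, hj⟩ := fin_lower (S := {z ∈ ⋃ x ∈ A, S x | ∃ t', (e t').1 z ≠ 0})
    (hF.subset fun z hz => hz.1) (e t).1 fun z hz => ht z hz.1 hz.2
  have hd : (0 : ℝ) < 1 / ((j : ℝ) + 1) := by positivity
  have hc := cut_cont (e t).2.1 (1 / ((j : ℝ) + 1))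
  have := hAy _ hc fun x hx => ?_
  · rw [cut_one (hy t)] at this
    exact one_ne_zero this
  by_contra hne
  obtain ⟨k, hk⟩ := exists_nat_one_div_lt (abs_pos.mpr hne)
  obtain ⟨m, g, hg, hg0, hg1, hgx⟩ := hw (e t) j k x
  rw [hST x _ g hc hg fun z hz => ?_] at hk
  · exact lt_asymm hk hgx
  by_cases hz' : ∃ t', (e t').1 z ≠ 0
  · have := hj z ⟨Set.mem_iUnion₂.mpr ⟨x, hx, hz⟩, hz'⟩
    rw [cut_zero hd this, hg0 z this]
  · push Not at hz'
    rw [cut_one (hz' t), hg1 z (hz' (.wit t j k m))]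

end Pool.Agent.H29.CpLind
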