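import Mathlib

open Set Cardinal

namespace Pool.Agent.H29.Cut1

/-- `A` has cofinality `κ` and no largest element (for infinite `κ`). -/
def HC {X : Type} [LinearOrder X] (κ : Cardinal.{0}) (A : Set X) : Prop :=
  (∃ J ⊆ A, #J ≤ κ ∧ ∀ a ∈ A, ∃ j ∈ J, a ≤ j) ∧
  (∀ J ⊆ A, #J < κ → ∃ a ∈ A, ∀ j ∈ J, j < a)

theorem HC.unique {X : Type} [LinearOrder X] {κ μ : Cardinal.{0}} {A : Set X}
    (h1 : HC κ A) (h2 : HC μ A) : κ = μ := by
  have key : ∀ {κ μ : Cardinal.{0}}, HC κ A → HC μ A → μ ≤ κ := by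
    intro κ μ h1 h2
    by_contra hlt
    push Not at hlt
    obtain ⟨J, hJ, hc, hcof⟩ := h1.1
    obtain ⟨a, ha, hb⟩ := h2.2 J hJ (hc.trans_lt hlt)
    obtain ⟨j, hj, haj⟩ := hcof a ha
    exact absurd (hb j hj) (not_lt.2 haj)
  exact le_antisymm (key h2 h1) (key h1 h2)

theorem HC.countable_bdd {X : Type} [LinearOrder X] {κ : Cardinal.{0}} {A : Set X}
    (h : HC κ A) (hκ : ℵ₀ < κ) {J : Set X} (hJ : J ⊆ A) (hc : J.Countable) :
    ∃ a ∈ A, ∀ j ∈ J, j < a :=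
  h.2 J hJ (hc.le_aleph0.trans_lt hκ)

theorem HC.nonempty {X : Type} [LinearOrder X] {κ : Cardinal.{0}} {A : Set X}
    (h : HC κ A) (hκ : ℵ₀ < κ) : A.Nonempty := by
  obtain ⟨a, ha, -⟩ := h.countable_bdd hκ (empty_subset _) countable_empty
  exact ⟨a, ha⟩

theorem HC.noMax {X : Type} [LinearOrder X] {κ : Cardinal.{0}} {A : Set X}
    (h : HC κ A) (hκ : ℵ₀ < κ) {x : X} (hx : x ∈ A) : ∃ a ∈ A, x < a := by
  obtain ⟨a, ha, hb⟩ := h.countable_bdd hκ (singleton_subset_iff.2 hx) (countable_singleton x)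
  exact ⟨a, ha, hb x rfl⟩

theorem HC.cof_eq {X : Type} [LinearOrder X] {κ : Cardinal.{0}} {A : Set X}
    (h : HC κ A) : Order.cof A = κ := by
  apply le_antisymm
  · obtain ⟨J, hJ, hc, hcof⟩ := h.1
    have : IsCofinal ((Subtype.val : A → X) ⁻¹' J) := by
      intro a
      obtain ⟨j, hj, haj⟩ := hcof a a.2
      exact ⟨⟨j, hJ hj⟩, hj, haj⟩
    exact (Order.cof_le this).trans
      ((mk_preimage_of_injective _ _ Subtype.val_injective).trans hc)
  · rw [Order.le_cof_iff]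
    intro s hs
    by_contra hlt
    push Not at hlt
    obtain ⟨a, ha, hb⟩ := h.2 (Subtype.val '' s) (by rintro _ ⟨x, -, rfl⟩; exact x.2)
      (mk_image_le.trans_lt hlt)
    obtain ⟨j, hj, haj⟩ := hs ⟨a, ha⟩
    exact absurd (hb j ⟨j, hj, rfl⟩) (not_lt.2 haj)

theorem HC.of_cof {X : Type} [LinearOrder X] {κ : Cardinal.{0}} {A : Set X}
    (h : Order.cof A = κ) : HC κ A := by
  constructor
  · obtain ⟨s, hs, hc⟩ := Order.exists_cof_eq A
    refine ⟨Subtype.val '' s, by rintro _ ⟨x, -, rfl⟩; exact x.2,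
      mk_image_le.trans (hc.trans h).le, fun a ha => ?_⟩
    obtain ⟨j, hj, haj⟩ := hs ⟨a, ha⟩
    exact ⟨j, ⟨j, hj, rfl⟩, haj⟩
  · intro J hJ hc
    by_contra hno
    push Not at hno
    have : IsCofinal ((Subtype.val : A → X) ⁻¹' J) := by
      intro a
      obtain ⟨j, hj, haj⟩ := hno a a.2
      exact ⟨⟨j, hJ hj⟩, hj, haj⟩
    have h2 := (Order.cof_le this).trans (mk_preimage_of_injective _ _ Subtype.val_injective)
    rw [h] at h2
    exact absurd hc (not_lt.2 h2)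

/-- transfer along a strictly monotone map with cofinal image -/
theorem HC.map {X Y : Type} [LinearOrder X] [LinearOrder Y] {κ : Cardinal.{0}} {A : Set X}
    {B : Set Y} (h : HC κ A) (f : X → Y) (hf : StrictMono f) (hAB : ∀ a ∈ A, f a ∈ B)
    (hcof : ∀ b ∈ B, ∃ a ∈ A, b ≤ f a) : HC κ B := by
  constructor
  · obtain ⟨J, hJ, hc, hJc⟩ := h.1
    refine ⟨f '' J, by rintro _ ⟨x, hx, rfl⟩; exact hAB x (hJ hx), mk_image_le.trans hc,
      fun b hb => ?_⟩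
    obtain ⟨a, ha, hba⟩ := hcof b hb
    obtain ⟨j, hj, haj⟩ := hJc a ha
    exact ⟨f j, ⟨j, hj, rfl⟩, hba.trans (hf.monotone haj)⟩
  · intro J hJ hc
    choose g hg hg' using fun j : J => hcof j (hJ j.2)
    obtain ⟨a, ha, hb⟩ := h.2 (range g) (by rintro _ ⟨x, rfl⟩; exact hg x)
      (mk_range_le.trans_lt hc)
    exact ⟨f a, hAB a ha, fun j hj => (hg' ⟨j, hj⟩).trans_lt (hf (hb _ ⟨⟨j, hj⟩, rfl⟩))⟩

/-- coinitiality version -/
def HD {X : Type} [LinearOrder X] (κ : Cardinal.{0}) (B : Set X) : Prop :=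
  HC (X := Xᵒᵈ) κ B

theorem HD.iff {X : Type} [LinearOrder X] {κ : Cardinal.{0}} {B : Set X} :
    HD κ B ↔ (∃ J ⊆ B, #J ≤ κ ∧ ∀ a ∈ B, ∃ j ∈ J, j ≤ a) ∧
      (∀ J ⊆ B, #J < κ → ∃ a ∈ B, ∀ j ∈ J, a < j) := Iff.rfl

theorem HD.countable_bdd {X : Type} [LinearOrder X] {κ : Cardinal.{0}} {A : Set X}
    (h : HD κ A) (hκ : ℵ₀ < κ) {J : Set X} (hJ : J ⊆ A) (hc : J.Countable) :
    ∃ a ∈ A, ∀ j ∈ J, a < j :=
  HC.countable_bdd (X := Xᵒᵈ) h hκ hJ hc

theorem HD.nonempty {X : Type} [LinearOrder X] {κ : Cardinal.{0}} {A : Set X}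
    (h : HD κ A) (hκ : ℵ₀ < κ) : A.Nonempty := HC.nonempty (X := Xᵒᵈ) h hκ

theorem HD.noMin {X : Type} [LinearOrder X] {κ : Cardinal.{0}} {A : Set X}
    (h : HD κ A) (hκ : ℵ₀ < κ) {x : X} (hx : x ∈ A) : ∃ a ∈ A, a < x :=
  HC.noMax (X := Xᵒᵈ) h hκ hx

/-- a cut with at most one point in between -/
def Gap1 (X : Type) [LinearOrder X] (κ : Cardinal.{0}) : Prop :=
  ∃ A B : Set X, (∀ a ∈ A, ∀ b ∈ B, a < b) ∧ HC κ A ∧ HD κ B ∧
    (∀ x, x ∉ A → x ∉ B → (∀ a ∈ A, a < x) ∧ (∀ b ∈ B, x < b)) ∧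
    (∀ x y, x ∉ A → x ∉ B → y ∉ A → y ∉ B → x = y)

/-- a cut with no point in between -/
def Gap0 (X : Type) [LinearOrder X] (κ : Cardinal.{0}) : Prop :=
  ∃ A : Set X, (∀ a ∈ A, ∀ b, b ∉ A → a < b) ∧ HC κ A ∧ HD κ Aᶜ

theorem Gap0.gap1 {X : Type} [LinearOrder X] {κ : Cardinal.{0}} (h : Gap0 X κ) : Gap1 X κ := by
  obtain ⟨A, h1, h2, h3⟩ := h
  exact ⟨A, Aᶜ, h1, h2, h3, fun x hx hx' => absurd hx hx', fun x y hx hx' => absurd hx hx'⟩

abbrev H (Γ : Type) [LinearOrder Γ] : Type := Lex (HahnSeries Γ ℚ)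

variable {Γ : Type} [LinearOrder Γ]

def co (x : H Γ) (j : Γ) : ℚ := (ofLex x).coeff j

theorem lt_iff' (a b : H Γ) : a < b ↔ ∃ i, (∀ j < i, co a j = co b j) ∧ co a i < co b i :=
  HahnSeries.lt_iff a b

noncomputable def sg (g : Γ) (q : ℚ) : H Γ := toLex (HahnSeries.single g q)

theorem co_add (a b : H Γ) (j : Γ) : co (a + b) j = co a j + co b j := by
  simp [co]

theorem co_neg (a : H Γ) (j : Γ) : co (-a) j = - co a j := by
  simp [co]

theorem co_zero (j : Γ) : co (0 : H Γ) j = 0 := by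
  simp [co]

theorem co_sg_same (g : Γ) (q : ℚ) : co (sg g q) g = q := by
  simp [co, sg]

theorem co_sg_ne {g j : Γ} (q : ℚ) (h : j ≠ g) : co (sg g q) j = 0 := by
  simp [co, sg, HahnSeries.coeff_single_of_ne h]

theorem sandwich {x y z : H Γ} {S : Set Γ} (hS : ∀ j ∈ S, ∀ i < j, i ∈ S) (hxy : x ≤ y)
    (hyz : y ≤ z) (h : ∀ j ∈ S, co x j = co z j) : ∀ j ∈ S, co y j = co x j := by
  rcases hxy.eq_or_lt with rfl | hxy
  · exact fun _ _ => rfl
  obtain ⟨i, hi, hlt⟩ := (lt_iff' x y).1 hxy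
  by_cases hiS : i ∈ S
  · exfalso
    have : z < y := (lt_iff' z y).2 ⟨i, fun j hj => by
      rw [← h j (hS i hiS j hj), hi j hj], by rw [← h i hiS]; exact hlt⟩
    exact absurd this (not_lt.2 hyz)
  · intro j hj
    have : j < i := by
      by_contra hji
      push Not at hji
      rcases hji.eq_or_lt with rfl | hji
      · exact hiS hj
      · exact hiS (hS j hj i hji)
    exact (hi j this).symm

theorem lt_add_sg (x : H Γ) (g : Γ) {q : ℚ} (hq : 0 < q) : x < x + sg g q :=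
  (lt_iff' _ _).2 ⟨g, fun j hj => by rw [co_add, co_sg_ne q hj.ne, add_zero],
    by rw [co_add, co_sg_same]; linarith⟩

theorem half {κ : Cardinal.{0}} (hκ : ℵ₀ < κ) {A : Set (H Γ)} {F : Set Γ} (hF : F.Nonempty)
    {a1 : H Γ}
    (hD : ∀ x, (∀ j, j ∉ F → co x j = co a1 j) → x ∈ A)
    (hD' : ∀ a ∈ A, a1 ≤ a → ∀ j, j ∉ F → co a j = co a1 j) (hA : HC κ A) : HD κ F := by
  have hmem : ∀ f ∈ F, ∀ q, a1 + sg f q ∈ A := fun f hf q => hD _ fun j hj => by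
    rw [co_add, co_sg_ne q (by rintro rfl; exact hj hf), add_zero]
  have hu : ∀ a ∈ A, a1 < a → ∃ u ∈ F, (∀ j < u, co a1 j = co a j) ∧ co a1 u < co a u := by
    intro a ha hlt
    obtain ⟨u, hu1, hu2⟩ := (lt_iff' _ _).1 hlt
    refine ⟨u, ?_, hu1, hu2⟩
    by_contra huF
    exact hu2.ne' (hD' a ha hlt.le u huF)
  have : Nonempty Γ := ⟨hF.some⟩
  choose! u huF hu1 hu2 using hu
  rw [HD.iff]
  constructor
  · obtain ⟨J, hJ, hc, hcof⟩ := hA.1
    refine ⟨u '' (J ∩ Ioi a1), by rintro _ ⟨x, hx, rfl⟩; exact huF x (hJ hx.1) hx.2,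
      mk_image_le.trans ((mk_le_mk_of_subset inter_subset_left).trans hc), fun f hf => ?_⟩
    obtain ⟨a, ha, hle⟩ := hcof _ (hmem f hf 1)
    have hlt : a1 < a := (lt_add_sg a1 f one_pos).trans_le hle
    refine ⟨u a, ⟨a, ⟨ha, hlt⟩, rfl⟩, ?_⟩
    by_contra hfu
    push Not at hfu
    have : a < a1 + sg f 1 := (lt_iff' _ _).2 ⟨f, fun j hj => by
      rw [co_add, co_sg_ne _ hj.ne, add_zero, hu1 a (hJ ha) hlt j (hj.trans hfu)], by
      rw [co_add, co_sg_same, hu1 a (hJ ha) hlt f hfu]; linarith⟩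
    exact absurd this (not_lt.2 hle)
  · intro J hJ hc
    rcases J.eq_empty_or_nonempty with rfl | ⟨j0, hj0⟩
    · obtain ⟨f, hf⟩ := hF
      exact ⟨f, hf, fun j hj => absurd hj (notMem_empty j)⟩
    let g : J × ℕ → H Γ := fun p => a1 + sg (p.1 : Γ) ((p.2 : ℚ) + 1)
    have hcard : #(range g) < κ := by
      refine mk_range_le.trans_lt ?_
      rw [mk_prod, lift_id, lift_id, mk_nat]
      exact mul_lt_of_lt hκ.le hc hκ
    obtain ⟨a, ha, hb⟩ := hA.2 (range g) (by rintro _ ⟨p, rfl⟩; exact hmem _ (hJ p.1.2) _) hcard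
    have hlt : a1 < a := (lt_add_sg a1 j0 (q := ((0 : ℕ) : ℚ) + 1) (by norm_num)).trans (hb _ ⟨(⟨j0, hj0⟩, 0), rfl⟩)
    refine ⟨u a, huF a ha hlt, fun j hj => ?_⟩
    by_contra hju
    push Not at hju
    obtain ⟨n, hn⟩ := exists_nat_gt (co a j - co a1 j)
    have : a < a1 + sg j ((n : ℚ) + 1) := (lt_iff' _ _).2 ⟨j, fun i hi => by
      rw [co_add, co_sg_ne _ hi.ne, add_zero, hu1 a ha hlt i (hi.trans_le hju)], by
      rw [co_add, co_sg_same]; linarith⟩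
    exact absurd this (not_lt.2 (hb _ ⟨(⟨j, hj⟩, n), rfl⟩).le)

theorem cof_down [Nonempty Γ] {κ : Cardinal.{0}} (hκ : ℵ₀ < κ)
    (h : HC κ (univ : Set (H Γ))) : HD κ (univ : Set Γ) :=
  half hκ univ_nonempty (a1 := 0) (fun x _ => mem_univ x)
    (fun _ _ _ j hj => absurd (mem_univ j) hj) h

theorem gap_up {κ : Cardinal.{0}} (hκ : ℵ₀ < κ) (h : Gap0 Γ κ) : Gap0 (H Γ) κ := by
  obtain ⟨I, hI, h1, h2⟩ := h
  have hanti : ∀ f g : Γ, f < g → sg g 1 < sg f 1 := fun f g hfg =>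
    (lt_iff' _ _).2 ⟨f, fun j hj => by rw [co_sg_ne _ hj.ne, co_sg_ne _ (hj.trans hfg).ne],
      by rw [co_sg_same, co_sg_ne _ hfg.ne]; norm_num⟩
  have hdich : ∀ x : H Γ, (¬ ∃ f, f ∉ I ∧ x ≤ sg f 1) → ∃ g ∈ I, sg g 1 ≤ x := by
    intro x hx
    push Not at hx
    obtain ⟨f0, hf0⟩ := h2.nonempty hκ
    have hpos : (0 : H Γ) < x := by
      have := lt_add_sg (0 : H Γ) f0 one_pos
      rw [zero_add] at this
      exact this.trans (hx f0 hf0)
    obtain ⟨v, hv1, hv2⟩ := (lt_iff' _ _).1 hpos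
    by_cases hvI : v ∈ I
    · obtain ⟨g, hg, hvg⟩ := h1.noMax hκ hvI
      refine ⟨g, hg, le_of_lt ((lt_iff' _ _).2 ⟨v, fun j hj => ?_, ?_⟩)⟩
      · rw [co_sg_ne _ (hj.trans hvg).ne, ← hv1 j hj, co_zero]
      · rw [co_sg_ne _ hvg.ne]; rwa [co_zero] at hv2
    · exfalso
      obtain ⟨f, hf, hfv'⟩ := h2.noMin hκ (x := v) hvI
      have : x < sg f 1 := (lt_iff' _ _).2 ⟨f, fun j hj => by
        rw [co_sg_ne _ hj.ne, ← hv1 j (hj.trans hfv'), co_zero], by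
        rw [co_sg_same, ← hv1 f hfv', co_zero]; norm_num⟩
      exact absurd this (not_lt.2 (hx f hf).le)
  refine ⟨{x | ∃ f, f ∉ I ∧ x ≤ sg f 1}, ?_, ?_, ?_⟩
  · rintro a ⟨f, hf, haf⟩ b hb
    obtain ⟨g, hg, hgb⟩ := hdich b hb
    exact haf.trans_lt ((hanti g f (hI g hg f hf)).trans_le hgb)
  · exact HC.map (X := Γᵒᵈ) h2 (fun f => sg (OrderDual.ofDual f) 1) (fun f g hfg => hanti _ _ hfg)
      (fun f hf => ⟨f, hf, le_rfl⟩) (fun b ⟨f, hf, hb⟩ => ⟨f, hf, hb⟩)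
  · refine HC.map (Y := (H Γ)ᵒᵈ) h1 (fun g => OrderDual.toDual (sg g 1))
      (fun f g hfg => hanti _ _ hfg) (fun g hg => ?_) (fun b hb => hdich b hb)
    rintro ⟨f, hf, hle⟩
    exact absurd (hanti g f (hI g hg f hf)) (not_lt.2 hle)

theorem neg_HC {κ : Cardinal.{0}} {B : Set (H Γ)} (h : HD κ B) : HC κ {x : H Γ | -x ∈ B} :=
  HC.map (X := (H Γ)ᵒᵈ) h (fun x => - OrderDual.ofDual x) (fun _ _ hxy => neg_lt_neg hxy)
    (fun a ha => by
      show - - OrderDual.ofDual a ∈ B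
      rw [neg_neg]; exact ha) (fun b hb => ⟨OrderDual.toDual (-b), hb, by simp⟩)

theorem gap_down {κ : Cardinal.{0}} (hκ : ℵ₀ < κ) (h : Gap1 (H Γ) κ) :
    HC κ (univ : Set Γ) ∨ Gap0 Γ κ := by
  classical
  obtain ⟨A, B, hAB, hA, hB, hbet, huniq⟩ := h
  have hw : ∀ a ∈ A, ∀ b ∈ B, ∃ w, (∀ j < w, co a j = co b j) ∧ co a w < co b w :=
    fun a ha b hb => (lt_iff' _ _).1 (hAB a ha b hb)
  let I : Set Γ := {g | ∃ a ∈ A, ∃ b ∈ B, ∀ j ≤ g, co a j = co b j}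
  have hlow : ∀ j ∈ I, ∀ i < j, i ∈ I := by
    rintro j ⟨a, ha, b, hb, hab⟩ i hi
    exact ⟨a, ha, b, hb, fun k hk => hab k (hk.trans hi.le)⟩
  have hIic : ∀ g : Γ, ∀ j ∈ Iic g, ∀ i < j, i ∈ Iic g := fun g j hj i hi => hi.le.trans hj
  have hIio : ∀ g : Γ, ∀ j ∈ Iio g, ∀ i < j, i ∈ Iio g := fun g j hj i hi => hi.trans hj
  -- shrinking pairs
  have shrink : ∀ S : Set Γ, (∀ j ∈ S, ∀ i < j, i ∈ S) → ∀ a b a' b' : H Γ, a ≤ a' → a' ≤ b' →
      b' ≤ b → (∀ j ∈ S, co a j = co b j) → ∀ j ∈ S, co a' j = co a j ∧ co b' j = co a j :=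
    fun S hS a b a' b' h1 h2 h3 h j hj =>
      ⟨sandwich hS h1 (h2.trans h3) h j hj, sandwich hS (h1.trans h2) h3 h j hj⟩
  have hnot : ∀ x, x ∈ A → x ∉ B := fun x ha hb => lt_irrefl _ (hAB x ha x hb)
  by_cases hcase : ∃ a ∈ A, ∃ b ∈ B, ∃ w, (∀ j < w, co a j = co b j) ∧ w ∉ I
  · exfalso
    obtain ⟨a0, ha0, b0, hb0, w, hw0, hwI⟩ := hcase
    have hqa : ∀ q : ℚ, ∃ a ∈ A, a0 ≤ a ∧ ((∃ a' ∈ A, a0 ≤ a' ∧ co a' w = q) → co a w = q) := by
      intro q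
      by_cases hq : ∃ a' ∈ A, a0 ≤ a' ∧ co a' w = q
      · obtain ⟨a', h1, h2, h3⟩ := hq
        exact ⟨a', h1, h2, fun _ => h3⟩
      · exact ⟨a0, ha0, le_rfl, fun h => absurd h hq⟩
    have hqb : ∀ q : ℚ, ∃ b ∈ B, b ≤ b0 ∧ ((∃ b' ∈ B, b' ≤ b0 ∧ co b' w = q) → co b w = q) := by
      intro q
      by_cases hq : ∃ b' ∈ B, b' ≤ b0 ∧ co b' w = q
      · obtain ⟨a', h1, h2, h3⟩ := hq
        exact ⟨a', h1, h2, fun _ => h3⟩
      · exact ⟨b0, hb0, le_rfl, fun h => absurd h hq⟩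
    choose fa hfa1 hfa2 hfa3 using hqa
    choose fb hfb1 hfb2 hfb3 using hqb
    obtain ⟨as, has, hasb⟩ := hA.countable_bdd hκ (J := range fa)
      (by rintro _ ⟨q, rfl⟩; exact hfa1 q) (countable_range _)
    obtain ⟨bs, hbs, hbsb⟩ := hB.countable_bdd hκ (J := range fb)
      (by rintro _ ⟨q, rfl⟩; exact hfb1 q) (countable_range _)
    have has0 : a0 ≤ as := (hfa2 0).trans (hasb _ ⟨0, rfl⟩).le
    have hbs0 : bs ≤ b0 := (hbsb _ ⟨0, rfl⟩).le.trans (hfb2 0)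
    have agA : ∀ a ∈ A, a0 ≤ a → ∀ j < w, co a j = co a0 j := fun a ha h j hj =>
      sandwich (hIio w) h (hAB a ha b0 hb0).le hw0 j hj
    have agB : ∀ b ∈ B, b ≤ b0 → ∀ j < w, co b j = co a0 j := fun b hb h j hj =>
      sandwich (hIio w) (hAB a0 ha0 b hb).le h hw0 j hj
    have lew : ∀ x y : H Γ, x ≤ y → (∀ j < w, co x j = co y j) → co x w ≤ co y w := by
      intro x y hxy hag
      by_contra hlt
      push Not at hlt
      exact absurd ((lt_iff' y x).2 ⟨w, fun j hj => (hag j hj).symm, hlt⟩) (not_lt.2 hxy)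
    have maxA : ∀ a ∈ A, a0 ≤ a → co a w ≤ co as w := by
      intro a ha h
      rw [← hfa3 (co a w) ⟨a, ha, h, rfl⟩]
      exact lew _ _ (hasb _ ⟨_, rfl⟩).le fun j hj => by
        rw [agA _ (hfa1 _) (hfa2 _) j hj, agA _ has has0 j hj]
    have minB : ∀ b ∈ B, b ≤ b0 → co bs w ≤ co b w := by
      intro b hb h
      rw [← hfb3 (co b w) ⟨b, hb, h, rfl⟩]
      exact lew _ _ (hbsb _ ⟨_, rfl⟩).le fun j hj => by
        rw [agB _ (hfb1 _) (hfb2 _) j hj, agB _ hbs hbs0 j hj]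
    have hlt : co as w < co bs w := by
      refine lt_of_le_of_ne (lew _ _ (hAB _ has _ hbs).le fun j hj => by
        rw [agA _ has has0 j hj, agB _ hbs hbs0 j hj]) fun heq => hwI ⟨as, has, bs, hbs, ?_⟩
      intro j hj
      rcases hj.eq_or_lt with rfl | hj
      · exact heq
      · rw [agA _ has has0 j hj, agB _ hbs hbs0 j hj]
    have hx : ∀ γ, 0 < γ → γ < co bs w - co as w → as + sg w γ ∉ A ∧ as + sg w γ ∉ B := by
      intro γ h1 h2
      constructor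
      · intro hx
        have := maxA _ hx (has0.trans (lt_add_sg as w h1).le)
        rw [co_add, co_sg_same] at this
        linarith
      · intro hx
        have hlt2 : as + sg w γ < bs := (lt_iff' _ _).2 ⟨w, fun j hj => by
          rw [co_add, co_sg_ne _ hj.ne, add_zero, agA _ has has0 j hj, agB _ hbs hbs0 j hj], by
          rw [co_add, co_sg_same]; linarith⟩
        have := minB _ hx (hlt2.le.trans hbs0)
        rw [co_add, co_sg_same] at this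
        linarith
    have h1 := hx ((co bs w - co as w) / 3) (by linarith) (by linarith)
    have h2 := hx ((co bs w - co as w) / 2) (by linarith) (by linarith)
    have h3 := congrArg (fun x => co x w) (huniq _ _ h1.1 h1.2 h2.1 h2.2)
    simp only [co_add, co_sg_same] at h3
    linarith
  push Not at hcase
  obtain ⟨a0, ha0⟩ := hA.nonempty hκ
  obtain ⟨b0, hb0⟩ := hB.nonempty hκ
  obtain ⟨w0, -, -⟩ := hw a0 ha0 b0 hb0
  have : Nonempty Γ := ⟨w0⟩
  choose! w hw1 hw2 using hw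
  have hwI : ∀ a ∈ A, ∀ b ∈ B, w a b ∈ I := fun a ha b hb => hcase a ha b hb _ (hw1 a ha b hb)
  have hwgt : ∀ a ∈ A, ∀ b ∈ B, ∀ g, (∀ j ≤ g, co a j = co b j) → g < w a b := by
    intro a ha b hb g hg
    by_contra hle
    push Not at hle
    exact (hw2 a ha b hb).ne (hg _ hle)
  have hHI : HC κ I := by
    constructor
    · obtain ⟨JA, hJA, hcA, hcofA⟩ := hA.1
      obtain ⟨JB, hJB, hcB, hcofB⟩ := (HD.iff.1 hB).1
      refine ⟨image2 w JA JB, ?_, mk_image2_le.trans ?_, ?_⟩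
      · rintro _ ⟨a, ha, b, hb, rfl⟩
        exact hwI a (hJA ha) b (hJB hb)
      · exact (mul_le_mul' hcA hcB).trans (mul_eq_self hκ.le).le
      · rintro g ⟨a, ha, b, hb, hab⟩
        obtain ⟨a', ha', haa'⟩ := hcofA a ha
        obtain ⟨b', hb', hbb'⟩ := hcofB b hb
        refine ⟨w a' b', ⟨a', ha', b', hb', rfl⟩, (hwgt a' (hJA ha') b' (hJB hb') g ?_).le⟩
        intro j hj
        obtain ⟨e1, e2⟩ := shrink _ (hIic g) a b a' b' haa' (hAB _ (hJA ha') _ (hJB hb')).le hbb'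
          hab j hj
        rw [e1, e2]
    · intro J hJ hc
      choose fa hfa fb hfb hfab using fun j : J => hJ j.2
      obtain ⟨a', ha', hba⟩ := hA.2 (range fa) (by rintro _ ⟨j, rfl⟩; exact hfa j)
        (mk_range_le.trans_lt hc)
      obtain ⟨b', hb', hbb⟩ := (HD.iff.1 hB).2 (range fb) (by rintro _ ⟨j, rfl⟩; exact hfb j)
        (mk_range_le.trans_lt hc)
      refine ⟨w a' b', hwI a' ha' b' hb', fun g hg => hwgt a' ha' b' hb' g fun j hj => ?_⟩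
      obtain ⟨e1, e2⟩ := shrink _ (hIic g) (fa ⟨g, hg⟩) (fb ⟨g, hg⟩) a' b' (hba _ ⟨_, rfl⟩).le
        (hAB _ ha' _ hb').le (hbb _ ⟨_, rfl⟩).le (hfab ⟨g, hg⟩) j hj
      rw [e1, e2]
  by_cases hIu : I = Set.univ
  · left; rwa [← hIu]
  right
  have hF : (Iᶜ).Nonempty := nonempty_compl.2 hIu
  refine ⟨I, fun a ha b hb => ?_, hHI, ?_⟩
  · by_contra hle
    push Not at hle
    rcases hle.eq_or_lt with rfl | hlt
    · exact hb ha
    · exact hb (hlow a ha b hlt)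
  have hI' : ∀ g ∈ I, ∃ a ∈ A, ∃ b ∈ B, ∀ j ≤ g, co a j = co b j := fun g hg => hg
  have : Nonempty (H Γ) := ⟨0⟩
  choose! ag hag bg hbg habg using hI'
  let cc : Γ → ℚ := fun g => if g ∈ I then co (ag g) g else 0
  have hcc : ∀ a ∈ A, ∀ b ∈ B, ∀ g, (∀ j ≤ g, co a j = co b j) → ∀ j ≤ g, cc j = co a j := by
    intro a ha b hb g hg j hj
    have hjI : j ∈ I := ⟨a, ha, b, hb, fun k hk => hg k (hk.trans hj)⟩
    simp only [cc, if_pos hjI]
    rcases le_total a (ag j) with h | h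
    · exact sandwich (hIic g) h (hAB _ (hag j hjI) _ hb).le hg j hj
    · exact (sandwich (hIic j) h (hAB _ ha _ (hbg j hjI)).le (habg j hjI) j le_rfl).symm
  have hpwo : (Function.support cc).IsPWO := by
    apply Set.IsWF.isPWO
    rw [Set.isWF_iff_no_descending_seq]
    intro f hf hmem
    have h0 : f 0 ∈ I := by
      by_contra h
      exact hmem 0 (by simp only [cc, if_neg h])
    have := (Set.isWF_iff_no_descending_seq.1 (ofLex (ag (f 0))).isPWO_support'.isWF) f hf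
    refine this fun n => ?_
    have h1 := hcc _ (hag _ h0) _ (hbg _ h0) _ (habg _ h0) (f n) (hf.antitone (Nat.zero_le n))
    have h2 : cc (f n) ≠ 0 := hmem n
    rw [h1] at h2
    exact h2
  let c : H Γ := toLex ⟨cc, hpwo⟩
  have hc : ∀ j, co c j = cc j := fun j => rfl
  obtain ⟨f0, hf0⟩ := hF
  have hD : ∃ x, (∀ j ∈ I, co x j = cc j) ∧ (x ∈ A ∨ x ∈ B) := by
    by_contra hno
    push Not at hno
    have h1 := hno c fun j _ => hc j
    have h2 := hno (c + sg f0 1) fun j hj => by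
      rw [co_add, co_sg_ne _ (by rintro rfl; exact hf0 hj), add_zero, hc]
    exact (lt_add_sg c f0 one_pos).ne (huniq _ _ h1.1 h1.2 h2.1 h2.2)
  have hsep : ∀ a ∈ A, ∀ b ∈ B, (∀ j ∈ I, co a j = co b j) → False := fun a ha b hb h =>
    (hw2 a ha b hb).ne (h _ (hwI a ha b hb))
  obtain ⟨x, hx, hxA | hxB⟩ := hD
  · refine half hκ ⟨f0, hf0⟩ (a1 := x) (A := A) ?_ ?_ hA
    · intro y hy
      by_contra hyA
      have hyB : y ∉ B := fun hyB => hsep x hxA y hyB fun j hj => (hy j (not_not.2 hj)).symm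
      have hz : ∀ j ∈ I, co x j = co (y + sg f0 1) j := fun j hj => by
        rw [co_add, co_sg_ne _ (by rintro rfl; exact hf0 hj), add_zero, hy j (not_not.2 hj)]
      have hzB : y + sg f0 1 ∉ B := fun hzB => hsep x hxA _ hzB hz
      have hzA : y + sg f0 1 ∉ A := fun hzA =>
        absurd ((hbet y hyA hyB).1 _ hzA) (not_lt.2 (lt_add_sg y f0 one_pos).le)
      exact (lt_add_sg y f0 one_pos).ne (huniq _ _ hyA hyB hzA hzB)
    · intro a ha hxa g hg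
      have hg : g ∈ I := not_not.1 hg
      refine sandwich (hIic g) hxa (hAB a ha _ (hbg g hg)).le (fun j hj => ?_) g le_rfl
      have hjI : j ∈ I := ⟨_, hag g hg, _, hbg g hg, fun k hk => habg g hg k (hk.trans hj)⟩
      rw [hx j hjI, hcc _ (hag g hg) _ (hbg g hg) g (habg g hg) j hj, habg g hg j hj]
  · refine half hκ ⟨f0, hf0⟩ (a1 := -x) (A := {y | -y ∈ B}) ?_ ?_ (neg_HC hB)
    · intro y hy
      by_contra hyB
      have hyB : -y ∉ B := hyB
      have hy' : ∀ j ∈ I, co (-y) j = co x j := fun j hj => by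
        rw [co_neg, hy j (not_not.2 hj), co_neg, neg_neg]
      have hyA : -y ∉ A := fun hyA => hsep _ hyA x hxB hy'
      have hlt : -(y + sg f0 1) < -y := neg_lt_neg (lt_add_sg y f0 one_pos)
      have hz : ∀ j ∈ I, co (-(y + sg f0 1)) j = co x j := fun j hj => by
        rw [co_neg, co_add, co_sg_ne _ (by rintro rfl; exact hf0 hj), add_zero, ← co_neg, hy' j hj]
      have hzA : -(y + sg f0 1) ∉ A := fun hzA => hsep _ hzA x hxB hz
      have hzB : -(y + sg f0 1) ∉ B := fun hzB =>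
        absurd ((hbet _ hyA hyB).2 _ hzB) (not_lt.2 hlt.le)
      exact hlt.ne (huniq _ _ hzA hzB hyA hyB)
    · intro a ha hxa g hg
      have hg : g ∈ I := not_not.1 hg
      have ha' : -a ∈ B := ha
      have hle : -a ≤ x := by rw [neg_le]; exact hxa
      have hag' : ∀ j ∈ Iic g, co (ag g) j = co x j := fun j hj => by
        have hjI : j ∈ I := ⟨_, hag g hg, _, hbg g hg, fun k hk => habg g hg k (hk.trans hj)⟩
        rw [hx j hjI, hcc _ (hag g hg) _ (hbg g hg) g (habg g hg) j hj]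
      have := sandwich (hIic g) (hAB _ (hag g hg) _ ha').le hle hag' g le_rfl
      rw [hag' g le_rfl, co_neg] at this
      rw [co_neg, ← this, neg_neg]

end Pool.Agent.H29.Cut1
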