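import Mathlib

open Filter Topology Set

namespace Pool.Agent.H29.Foln

variable {G : Type} [Group G]

/-- The ball of radius `n` for the word length with respect to `X ∪ X⁻¹`. -/
def ball (X : Finset G) (n : ℕ) : Set G :=
  {g | ∃ l : List G, l.length ≤ n ∧ (∀ x ∈ l, x ∈ X ∨ x⁻¹ ∈ X) ∧ l.prod = g}

variable {X : Finset G}

theorem ball_mono {m n : ℕ} (h : m ≤ n) : ball X m ⊆ ball X n :=
  fun _ ⟨l, h1, h2⟩ => ⟨l, h1.trans h, h2⟩

theorem one_mem (n : ℕ) : (1 : G) ∈ ball X n := ⟨[], by simp, by simp, rfl⟩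

theorem mul_mem {m n : ℕ} {g h : G} (hg : g ∈ ball X m) (hh : h ∈ ball X n) :
    g * h ∈ ball X (m + n) := by
  obtain ⟨l, h1, h2, rfl⟩ := hg
  obtain ⟨k, h3, h4, rfl⟩ := hh
  exact ⟨l ++ k, by simp; omega, fun x hx => (List.mem_append.1 hx).elim (h2 x) (h4 x), by simp⟩

theorem inv_mem {n : ℕ} {g : G} (hg : g ∈ ball X n) : g⁻¹ ∈ ball X n := by
  obtain ⟨l, h1, h2, rfl⟩ := hg
  refine ⟨(l.map fun x => x⁻¹).reverse, by simpa using h1, fun x hx => ?_,
    (List.prod_inv_reverse l).symm⟩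
  obtain ⟨y, hy, rfl⟩ := List.mem_map.1 (List.mem_reverse.1 hx)
  rw [inv_inv]; exact (h2 y hy).symm

theorem pow_mem {n : ℕ} {g : G} (hg : g ∈ ball X n) (k : ℕ) : g ^ k ∈ ball X (n * k) := by
  induction k with
  | zero => simpa using one_mem 0
  | succ k ih => rw [pow_succ, mul_add, mul_one]; exact mul_mem ih hg

theorem split {m n : ℕ} {g : G} (hg : g ∈ ball X (m + n)) :
    ∃ h ∈ ball X m, ∃ u ∈ ball X n, g = h * u := by
  obtain ⟨l, h1, h2, rfl⟩ := hg
  exact ⟨_, ⟨l.take m, by simp, fun x hx => h2 x (List.mem_of_mem_take hx), rfl⟩, _,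
    ⟨l.drop m, by simp; omega, fun x hx => h2 x (List.mem_of_mem_drop hx), rfl⟩,
    (List.prod_take_mul_prod_drop l m).symm⟩

theorem ball_one : ball X 1 ⊆ insert 1 ((X : Set G) ∪ (X : Set G)⁻¹) := by
  rintro g ⟨l, h1, h2, rfl⟩
  match l, h1, h2 with
  | [], _, _ => exact Or.inl rfl
  | [x], _, h2 => exact Or.inr (by simpa using h2 x (by simp))

theorem ball_fin (n : ℕ) : (ball X n).Finite := by
  have h1 : (ball X 1).Finite := ((X.finite_toSet.union X.finite_toSet.inv).insert 1).subset ball_one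
  induction n with
  | zero => exact h1.subset (ball_mono zero_le_one)
  | succ n ih =>
    refine (ih.image2 (· * ·) h1).subset fun g hg => ?_
    obtain ⟨h, hh, u, hu, rfl⟩ := split hg
    exact ⟨h, hh, u, hu, rfl⟩

theorem exists_ball (hX : Subgroup.closure (X : Set G) = ⊤) (g : G) : ∃ n, g ∈ ball X n := by
  have : g ∈ Subgroup.closure (X : Set G) := hX ▸ trivial
  induction this using Subgroup.closure_induction with
  | mem x hx => exact ⟨1, [x], le_rfl, by simp [show x ∈ X from hx], by simp⟩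
  | one => exact ⟨0, one_mem 0⟩
  | mul x y _ _ hx hy => obtain ⟨m, hm⟩ := hx; obtain ⟨n, hn⟩ := hy; exact ⟨_, mul_mem hm hn⟩
  | inv x _ hx => obtain ⟨m, hm⟩ := hx; exact ⟨m, inv_mem hm⟩

/-- ball sizes -/
noncomputable def b (X : Finset G) (n : ℕ) : ℝ := (ball X n).ncard

theorem b_pos (n : ℕ) : 0 < b X n := by
  unfold b; exact_mod_cast (ncard_pos (ball_fin n)).2 ⟨1, one_mem n⟩

theorem b_mono {m n : ℕ} (h : m ≤ n) : b X m ≤ b X n := by
  unfold b; exact_mod_cast ncard_le_ncard (ball_mono h) (ball_fin n)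

theorem b_diff {m n : ℕ} (h : m ≤ n) : ((ball X n \ ball X m).ncard : ℝ) = b X n - b X m := by
  rw [ncard_diff (ball_mono h) (ball_fin m), Nat.cast_sub (ncard_le_ncard (ball_mono h) (ball_fin n))]
  rfl

theorem shell (p s : ℕ) : (b X (p + 4 * (s + 1)) - b X (p + 2 * (s + 1))) * b X s ≤
    (b X (p + 2 * (s + 1)) - b X p) * b X (4 * s + 4) := by
  classical
  have key : ∀ g ∈ ball X (p + 4 * (s + 1)) \ ball X (p + 2 * (s + 1)), ∃ h : G,
      ∀ z ∈ ball X s, h * z ∈ ball X (p + 2 * (s + 1)) \ ball X p ∧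
        (h * z)⁻¹ * g ∈ ball X (4 * s + 4) := by
    intro g hg
    have hex : ∃ n, g ∈ ball X n := ⟨_, hg.1⟩
    have h1 := Nat.find_spec hex
    have h2 : Nat.find hex ≤ p + 4 * (s + 1) := Nat.find_min' hex hg.1
    have h3 : p + 2 * (s + 1) < Nat.find hex := by
      by_contra! h; exact hg.2 (ball_mono h h1)
    obtain ⟨k, hk⟩ : ∃ k, Nat.find hex = (p + s + 1) + k := ⟨Nat.find hex - (p + s + 1), by omega⟩
    rw [hk] at h1
    obtain ⟨h, hh, u, hu, e⟩ := split h1
    refine ⟨h, fun z hz => ?_⟩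
    have e1 : (h * z)⁻¹ * g = z⁻¹ * u := by rw [e]; group
    have h4 := mul_mem (inv_mem hz) hu
    refine ⟨⟨ball_mono (by omega) (mul_mem hh hz), fun h5 => ?_⟩, e1 ▸ ball_mono (by omega) h4⟩
    have h6 := mul_mem h5 h4
    rw [← e1, mul_inv_cancel_left] at h6
    have := Nat.find_min' hex h6
    omega
  choose! h hh using key
  have := ncard_le_ncard_of_injOn
    (s := (ball X (p + 4 * (s + 1)) \ ball X (p + 2 * (s + 1))) ×ˢ ball X s)
    (t := (ball X (p + 2 * (s + 1)) \ ball X p) ×ˢ ball X (4 * s + 4))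
    (fun q : G × G => (h q.1 * q.2, (h q.1 * q.2)⁻¹ * q.1)) (fun q hq => hh q.1 hq.1 q.2 hq.2)
    (fun q _ r _ e => by
      obtain ⟨e1, e2⟩ := Prod.mk.inj e
      rw [e1] at e2
      have e3 := mul_left_cancel e2
      rw [e3] at e1
      exact Prod.ext e3 (mul_left_cancel e1))
    (((ball_fin _).subset diff_subset).prod (ball_fin _))
  rw [ncard_prod, ncard_prod] at this
  rw [← b_diff (by omega), ← b_diff (by omega)]
  unfold b
  exact_mod_cast this

theorem ratio {C : ℝ} (hC : ∀ s, b X (4 * s + 4) ≤ C * b X s) :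
    Tendsto (fun n => b X (n + 1) / b X n) atTop (𝓝 1) := by
  have hC0 : 0 < C := by
    have := hC 0
    have h1 := b_pos (X := X) 0
    have h2 := b_pos (X := X) (4 * 0 + 4)
    by_contra! h; nlinarith
  have sh : ∀ p r, 0 < r → b X (p + 4 * r) - b X (p + 2 * r) ≤ C * (b X (p + 2 * r) - b X p) := by
    intro p r hr
    obtain ⟨s, rfl⟩ : ∃ s, r = s + 1 := ⟨r - 1, by omega⟩
    have h1 := shell (X := X) p s
    have h2 := mul_le_mul_of_nonneg_left (hC s)
      (sub_nonneg.2 (b_mono (X := X) (show p ≤ p + 2 * (s + 1) by omega)))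
    have h3 := b_pos (X := X) s
    nlinarith
  have it : ∀ j n : ℕ, 2 * 2 ^ j ≤ n →
      (b X n - b X (n - 2)) * (C + j) ≤ C * (b X n - b X (n - 2 * 2 ^ j)) := by
    intro j
    induction j with
    | zero => intro n _; simp [mul_comm]
    | succ j ih =>
      intro n hn
      have h0 : 0 < 2 ^ j := by positivity
      rw [pow_succ] at hn
      have h1 := ih n (by omega)
      have h2 := sh (n - 2 * 2 ^ (j + 1)) (2 ^ j) h0
      rw [show n - 2 * 2 ^ (j + 1) + 4 * 2 ^ j = n by rw [pow_succ]; omega,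
        show n - 2 * 2 ^ (j + 1) + 2 * 2 ^ j = n - 2 * 2 ^ j by rw [pow_succ]; omega] at h2
      have h3 := b_mono (X := X) (show n - 2 * 2 ^ j ≤ n - 2 by omega)
      push_cast; nlinarith
  rw [Metric.tendsto_atTop]
  intro ε hε
  obtain ⟨j, hj⟩ := exists_nat_gt (C / ε)
  rw [div_lt_iff₀ hε] at hj
  refine ⟨2 * 2 ^ j, fun n hn => ?_⟩
  have h1 := it j (n + 2) (by omega)
  rw [Nat.add_sub_cancel] at h1
  have h2 := b_pos (X := X) n
  have h3 := b_pos (X := X) (n + 2 - 2 * 2 ^ j)
  have h4 := b_mono (X := X) (show n ≤ n + 1 by omega)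
  have h5 := b_mono (X := X) (show n + 1 ≤ n + 2 by omega)
  have hj0 : (0 : ℝ) < j := by nlinarith
  rw [Real.dist_eq, abs_of_nonneg (by rw [sub_nonneg, one_le_div h2]; exact h4), sub_lt_iff_lt_add,
    div_lt_iff₀ h2]
  have h6 : (b X (n + 2) - b X n) * j ≤ C * b X n := by nlinarith
  have h7 : (b X (n + 2) - b X n) * j < ε * b X n * j := by nlinarith
  have := lt_of_mul_lt_mul_right h7 hj0.le
  linarith

theorem ratio' (h : Tendsto (fun n => b X (n + 1) / b X n) atTop (𝓝 1)) (k : ℕ) :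
    Tendsto (fun n => b X (n + k) / b X n) atTop (𝓝 1) := by
  induction k with
  | zero => simpa [(b_pos _).ne'] using tendsto_const_nhds
  | succ k ih =>
    have := (h.comp (tendsto_add_atTop_nat k)).mul ih
    rw [mul_one] at this
    refine this.congr fun n => ?_
    simp only [Function.comp]
    rw [div_mul_div_cancel₀ (b_pos _).ne', add_assoc]

theorem doubling (hX : Subgroup.closure (X : Set G) = ⊤) (A : Subgroup G) [A.Normal] [A.FiniteIndex]
    [IsMulCommutative A] : ∃ C : ℝ, ∀ s, b X (4 * s + 4) ≤ C * b X s := by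
  classical
  let _ : CommGroup A := { (inferInstance : Group A) with mul_comm := fun a b => mul_comm' a b }
  let τ : G → G := fun g => (QuotientGroup.mk g : G ⧸ A).out
  have hτ : ∀ g, g * (τ g)⁻¹ ∈ A := fun g => by
    rw [← div_eq_mul_inv, ← QuotientGroup.eq_iff_div_mem]; simp [τ]
  let a : G → A := fun g => ⟨_, hτ g⟩
  have := (ball_fin (X := X) 1).to_subtype
  let ι := (G ⧸ A) × ball X 1
  let _ : Fintype ι := Fintype.ofFinite _
  let y : ι → A := fun i => a (i.1.out * i.2)
  let box : ℕ → Set A := fun r => (fun n : ι → ℕ => ∏ i, y i ^ n i) '' (Iic fun _ => r)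
  have hfin : ∀ r, (box r).Finite := fun r => (finite_Iic _).image _
  have h1 : ∀ n, ∀ g ∈ ball X n, a g * (a 1)⁻¹ ∈ box n := by
    intro n
    induction n with
    | zero =>
      rintro g ⟨l, h1, -, rfl⟩
      rw [List.length_eq_zero_iff.1 (Nat.le_zero.1 h1)]
      exact ⟨0, fun _ => le_rfl, by simp⟩
    | succ n ih =>
      intro g hg
      obtain ⟨h, hh, u, hu, rfl⟩ := split hg
      obtain ⟨m, hm, e⟩ := ih h hh
      let i : ι := (QuotientGroup.mk h, ⟨u, hu⟩)
      refine ⟨m + Pi.single i 1, fun j => ?_, ?_⟩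
      · have := hm j
        by_cases hj : j = i
        · subst hj; simpa using this
        · simp [Pi.single_eq_of_ne hj]; exact Nat.le_succ_of_le this
      · have e1 : a (h * u) = a h * y i := by
          apply Subtype.ext
          have : τ (τ h * u) = τ (h * u) := by simp [τ]
          show h * u * (τ (h * u))⁻¹ = h * (τ h)⁻¹ * (τ h * u * (τ (τ h * u))⁻¹)
          rw [this]; group
        have e2 : ∏ j, y j ^ (Pi.single i 1 : ι → ℕ) j = y i := by
          rw [Finset.prod_eq_single i (fun j _ hj => by simp [Pi.single_eq_of_ne hj]) (by simp)]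
          simp
        simp only [Pi.add_apply, pow_add, Finset.prod_mul_distrib, e2] at e ⊢
        rw [e, e1, mul_right_comm]
  have h2 : ∀ n, b X n ≤ (box n).ncard * Nat.card (G ⧸ A) := by
    intro n
    have := ncard_le_ncard_of_injOn (s := ball X n) (t := box n ×ˢ (univ : Set (G ⧸ A)))
      (fun g => (a g * (a 1)⁻¹, QuotientGroup.mk g)) (fun g hg => ⟨h1 n g hg, trivial⟩)
      (fun g _ h _ e => by
        obtain ⟨e1, e2⟩ := Prod.mk.inj e
        have e3 := congrArg Subtype.val (mul_right_cancel e1)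
        simp only [a, τ, e2] at e3
        exact mul_right_cancel e3) ((hfin n).prod finite_univ)
    rw [ncard_prod, ncard_univ] at this
    unfold b; exact_mod_cast this
  choose k hk using fun i => exists_ball hX (y i)
  set K := ∑ i, k i
  have h3 : ∀ s, ((box s).ncard : ℝ) ≤ b X (K * s) := by
    intro s
    have := ncard_le_ncard_of_injOn (s := box s) (t := ball X (K * s)) Subtype.val (by
      rintro _ ⟨m, hm, rfl⟩
      have : ∀ t : Finset ι, ((∏ i ∈ t, y i ^ m i : A) : G) ∈ ball X ((∑ i ∈ t, k i) * s) := by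
        intro t
        induction t using Finset.induction_on with
        | empty => simpa using one_mem 0
        | insert i t hi ih =>
          rw [Finset.prod_insert hi, Finset.sum_insert hi, add_mul]
          exact mul_mem (ball_mono (Nat.mul_le_mul_left _ (hm i)) (pow_mem (hk i) _)) ih
      exact this _) Subtype.val_injective.injOn (ball_fin _)
    unfold b; exact_mod_cast this
  have h4 : ∀ M s, ((box (M * (s + 1))).ncard : ℝ) ≤ (Iic (fun _ : ι => M)).ncard * (box s).ncard := by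
    intro M s
    have h5 : box (M * (s + 1)) ⊆ (fun q : (ι → ℕ) × A => (∏ i, y i ^ ((s + 1) * q.1 i)) * q.2) ''
        (Iic (fun _ : ι => M) ×ˢ box s) := by
      rintro _ ⟨m, hm, rfl⟩
      refine ⟨(fun i => m i / (s + 1), _), ⟨fun i => Nat.div_le_of_le_mul (by
        rw [mul_comm]; exact hm i), fun i => m i % (s + 1),
        fun i => Nat.lt_succ_iff.1 (Nat.mod_lt _ (by omega)), rfl⟩, ?_⟩
      show (∏ i, y i ^ ((s + 1) * (m i / (s + 1)))) * ∏ i, y i ^ (m i % (s + 1)) = ∏ i, y i ^ m i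
      rw [← Finset.prod_mul_distrib]
      exact Finset.prod_congr rfl fun i _ => by rw [← pow_add, Nat.div_add_mod]
    have := (ncard_le_ncard h5 (((finite_Iic _).prod (hfin s)).image _)).trans
      (ncard_image_le ((finite_Iic _).prod (hfin s)))
    rw [ncard_prod] at this
    exact_mod_cast this
  refine ⟨(Iic (fun _ : ι => 4 * (K + 1))).ncard * Nat.card (G ⧸ A), fun r => ?_⟩
  have a1 := Nat.div_add_mod r (K + 1)
  have a2 := Nat.mod_lt r (show 0 < K + 1 by omega)
  generalize r / (K + 1) = s at a1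
  generalize r % (K + 1) = t at a1 a2
  have a3 := b_mono (X := X) (show 4 * r + 4 ≤ 4 * (K + 1) * (s + 1) by
    have : 4 * (K + 1) * (s + 1) = 4 * ((K + 1) * s) + 4 * (K + 1) := by ring
    omega)
  have a4 := b_mono (X := X) (show K * s ≤ r by
    have : (K + 1) * s = K * s + s := by ring
    omega)
  have a5 := mul_le_mul_of_nonneg_left ((h3 s).trans a4)
    (Nat.cast_nonneg (α := ℝ) (Iic (fun _ : ι => 4 * (K + 1))).ncard)
  have a6 := mul_le_mul_of_nonneg_right ((h4 (4 * (K + 1)) s).trans a5)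
    (Nat.cast_nonneg (α := ℝ) (Nat.card (G ⧸ A)))
  linarith [h2 (4 * (K + 1) * (s + 1))]

end Pool.Agent.H29.Foln
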