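import Mathlib

namespace Pool.Agent.H29.G19

@[ext] structure G (K : Type) where
  x : K
  y : K
  z : K
  a : K
  a1 : K
  U : K
  V : K
  W : K
  c : K
  c1 : K
  c2 : K
  p : K
  P : K
  Q : K
  R : K
  S : K
  d : K
  d1 : K
  T : K

variable {K : Type} [CommRing K]

instance : Mul (G K) := ⟨fun g h => ⟨g.x + h.x,
  g.y + h.y,
  g.z + h.z - g.y*h.x,
  g.a + h.a,
  g.a1 + h.a1 + g.a*h.y,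
  g.U + h.U + g.a*h.y,
  g.V + h.V - g.U*h.x + g.a1*h.x,
  g.W + h.W - g.U*h.x + g.a*h.z,
  g.c + h.c,
  g.c1 + h.c1 + g.c*h.x,
  g.c2 + h.c2 + 2*g.c1*h.x + g.c*h.x*h.x,
  g.p + h.p + g.c*h.z + g.c1*h.y + g.c*h.x*h.y,
  g.P + h.P + g.c*h.z + g.c1*h.y + g.c*h.x*h.y,
  g.Q + h.Q + g.P*h.x + g.c1*h.z + g.c2*h.y + g.c*h.x*h.z + 2*g.c1*h.x*h.y + g.c*h.x*h.x*h.y,
  g.R + h.R - g.P*h.x + g.p*h.x,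
  g.S + h.S + 2*g.Q*h.y + 2*g.R*h.y + 2*g.p*h.z + g.c*h.z*h.z + 2*g.c1*h.y*h.z + g.c2*h.y*h.y + 2*g.p*h.x*h.y + 2*g.c*h.x*h.y*h.z + 2*g.c1*h.x*h.y*h.y + g.c*h.x*h.x*h.y*h.y,
  g.d + h.d - g.P*h.a + g.c*h.W + g.c1*h.U + g.c*h.U*h.x - g.c*h.a*h.z - g.c1*h.a*h.y - g.c*h.a*h.x*h.y,
  g.d1 + h.d1 - g.Q*h.a + g.c1*h.W + g.c2*h.U + g.d*h.x - g.P*h.a*h.x + g.c*h.W*h.x + 2*g.c1*h.U*h.x - g.c1*h.a*h.z - g.c2*h.a*h.y + g.c*h.U*h.x*h.x - g.c*h.a*h.x*h.z - 2*g.c1*h.a*h.x*h.y - g.c*h.a*h.x*h.x*h.y,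
  g.T + h.T + g.P*h.V - g.P*h.W + g.Q*h.U + g.R*h.U + g.R*h.a1 - g.S*h.a + g.d*h.z + g.d1*h.y - g.p*h.V + 2*g.p*h.W - g.P*h.a1*h.x - 2*g.Q*h.a*h.y - 2*g.R*h.a*h.y + g.c*h.W*h.z + g.c1*h.U*h.z + g.c1*h.W*h.y + g.c2*h.U*h.y + g.d*h.x*h.y + g.p*h.U*h.x - 2*g.p*h.a*h.z + g.p*h.a1*h.x + g.c*h.U*h.x*h.z + g.c*h.W*h.x*h.y - g.c*h.a*h.z*h.z + 2*g.c1*h.U*h.x*h.y - 2*g.c1*h.a*h.y*h.z - g.c2*h.a*h.y*h.y - 2*g.p*h.a*h.x*h.y + g.c*h.U*h.x*h.x*h.y - 2*g.c*h.a*h.x*h.y*h.z - 2*g.c1*h.a*h.x*h.y*h.y - g.c*h.a*h.x*h.x*h.y*h.y⟩⟩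

instance : Inv (G K) := ⟨fun g => ⟨-g.x,
  -g.y,
  -g.z - g.x*g.y,
  -g.a,
  -g.a1 + g.a*g.y,
  -g.U + g.a*g.y,
  -g.V - g.U*g.x + g.a1*g.x,
  -g.W - g.U*g.x + g.a*g.z + g.a*g.x*g.y,
  -g.c,
  -g.c1 + g.c*g.x,
  -g.c2 + 2*g.c1*g.x - g.c*g.x*g.x,
  -g.p + g.c*g.z + g.c1*g.y,
  -g.P + g.c*g.z + g.c1*g.y,
  -g.Q + g.P*g.x + g.c1*g.z + g.c2*g.y - g.c*g.x*g.z - g.c1*g.x*g.y,
  -g.R - g.P*g.x + g.p*g.x,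
  -g.S + 2*g.Q*g.y + 2*g.R*g.y + 2*g.p*g.z - g.c*g.z*g.z - 2*g.c1*g.y*g.z - g.c2*g.y*g.y,
  -g.d - g.P*g.a + g.U*g.c1 + g.W*g.c,
  -g.d1 - g.Q*g.a + g.U*g.c2 + g.W*g.c1 + g.d*g.x + g.P*g.a*g.x - g.U*g.c1*g.x - g.W*g.c*g.x,
  -g.T + g.P*g.V - g.P*g.W + g.Q*g.U + g.R*g.U + g.R*g.a1 - g.S*g.a - g.V*g.p + 2*g.W*g.p + g.d*g.z + g.d1*g.y + g.P*g.a*g.z + g.Q*g.a*g.y - g.U*g.c1*g.z - g.U*g.c2*g.y - g.W*g.c*g.z - g.W*g.c1*g.y⟩⟩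

instance : One (G K) := ⟨⟨0, 0, 0, 0, 0, 0, 0, 0, 0, 0, 0, 0, 0, 0, 0, 0, 0, 0, 0⟩⟩

theorem mul_x (g h : G K) : (g * h).x = g.x + h.x := rfl
theorem inv_x (g : G K) : (g⁻¹).x = -g.x := rfl
theorem one_x : (1 : G K).x = 0 := rfl
theorem mul_y (g h : G K) : (g * h).y = g.y + h.y := rfl
theorem inv_y (g : G K) : (g⁻¹).y = -g.y := rfl
theorem one_y : (1 : G K).y = 0 := rfl
theorem mul_z (g h : G K) : (g * h).z = g.z + h.z - g.y*h.x := rfl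
theorem inv_z (g : G K) : (g⁻¹).z = -g.z - g.x*g.y := rfl
theorem one_z : (1 : G K).z = 0 := rfl
theorem mul_a (g h : G K) : (g * h).a = g.a + h.a := rfl
theorem inv_a (g : G K) : (g⁻¹).a = -g.a := rfl
theorem one_a : (1 : G K).a = 0 := rfl
theorem mul_a1 (g h : G K) : (g * h).a1 = g.a1 + h.a1 + g.a*h.y := rfl
theorem inv_a1 (g : G K) : (g⁻¹).a1 = -g.a1 + g.a*g.y := rfl
theorem one_a1 : (1 : G K).a1 = 0 := rfl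
theorem mul_U (g h : G K) : (g * h).U = g.U + h.U + g.a*h.y := rfl
theorem inv_U (g : G K) : (g⁻¹).U = -g.U + g.a*g.y := rfl
theorem one_U : (1 : G K).U = 0 := rfl
theorem mul_V (g h : G K) : (g * h).V = g.V + h.V - g.U*h.x + g.a1*h.x := rfl
theorem inv_V (g : G K) : (g⁻¹).V = -g.V - g.U*g.x + g.a1*g.x := rfl
theorem one_V : (1 : G K).V = 0 := rfl
theorem mul_W (g h : G K) : (g * h).W = g.W + h.W - g.U*h.x + g.a*h.z := rfl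
theorem inv_W (g : G K) : (g⁻¹).W = -g.W - g.U*g.x + g.a*g.z + g.a*g.x*g.y := rfl
theorem one_W : (1 : G K).W = 0 := rfl
theorem mul_c (g h : G K) : (g * h).c = g.c + h.c := rfl
theorem inv_c (g : G K) : (g⁻¹).c = -g.c := rfl
theorem one_c : (1 : G K).c = 0 := rfl
theorem mul_c1 (g h : G K) : (g * h).c1 = g.c1 + h.c1 + g.c*h.x := rfl
theorem inv_c1 (g : G K) : (g⁻¹).c1 = -g.c1 + g.c*g.x := rfl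
theorem one_c1 : (1 : G K).c1 = 0 := rfl
theorem mul_c2 (g h : G K) : (g * h).c2 = g.c2 + h.c2 + 2*g.c1*h.x + g.c*h.x*h.x := rfl
theorem inv_c2 (g : G K) : (g⁻¹).c2 = -g.c2 + 2*g.c1*g.x - g.c*g.x*g.x := rfl
theorem one_c2 : (1 : G K).c2 = 0 := rfl
theorem mul_p (g h : G K) : (g * h).p = g.p + h.p + g.c*h.z + g.c1*h.y + g.c*h.x*h.y := rfl
theorem inv_p (g : G K) : (g⁻¹).p = -g.p + g.c*g.z + g.c1*g.y := rfl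
theorem one_p : (1 : G K).p = 0 := rfl
theorem mul_P (g h : G K) : (g * h).P = g.P + h.P + g.c*h.z + g.c1*h.y + g.c*h.x*h.y := rfl
theorem inv_P (g : G K) : (g⁻¹).P = -g.P + g.c*g.z + g.c1*g.y := rfl
theorem one_P : (1 : G K).P = 0 := rfl
theorem mul_Q (g h : G K) : (g * h).Q = g.Q + h.Q + g.P*h.x + g.c1*h.z + g.c2*h.y + g.c*h.x*h.z + 2*g.c1*h.x*h.y + g.c*h.x*h.x*h.y := rfl
theorem inv_Q (g : G K) : (g⁻¹).Q = -g.Q + g.P*g.x + g.c1*g.z + g.c2*g.y - g.c*g.x*g.z - g.c1*g.x*g.y := rfl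
theorem one_Q : (1 : G K).Q = 0 := rfl
theorem mul_R (g h : G K) : (g * h).R = g.R + h.R - g.P*h.x + g.p*h.x := rfl
theorem inv_R (g : G K) : (g⁻¹).R = -g.R - g.P*g.x + g.p*g.x := rfl
theorem one_R : (1 : G K).R = 0 := rfl
theorem mul_S (g h : G K) : (g * h).S = g.S + h.S + 2*g.Q*h.y + 2*g.R*h.y + 2*g.p*h.z + g.c*h.z*h.z + 2*g.c1*h.y*h.z + g.c2*h.y*h.y + 2*g.p*h.x*h.y + 2*g.c*h.x*h.y*h.z + 2*g.c1*h.x*h.y*h.y + g.c*h.x*h.x*h.y*h.y := rfl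
theorem inv_S (g : G K) : (g⁻¹).S = -g.S + 2*g.Q*g.y + 2*g.R*g.y + 2*g.p*g.z - g.c*g.z*g.z - 2*g.c1*g.y*g.z - g.c2*g.y*g.y := rfl
theorem one_S : (1 : G K).S = 0 := rfl
theorem mul_d (g h : G K) : (g * h).d = g.d + h.d - g.P*h.a + g.c*h.W + g.c1*h.U + g.c*h.U*h.x - g.c*h.a*h.z - g.c1*h.a*h.y - g.c*h.a*h.x*h.y := rfl
theorem inv_d (g : G K) : (g⁻¹).d = -g.d - g.P*g.a + g.U*g.c1 + g.W*g.c := rfl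
theorem one_d : (1 : G K).d = 0 := rfl
theorem mul_d1 (g h : G K) : (g * h).d1 = g.d1 + h.d1 - g.Q*h.a + g.c1*h.W + g.c2*h.U + g.d*h.x - g.P*h.a*h.x + g.c*h.W*h.x + 2*g.c1*h.U*h.x - g.c1*h.a*h.z - g.c2*h.a*h.y + g.c*h.U*h.x*h.x - g.c*h.a*h.x*h.z - 2*g.c1*h.a*h.x*h.y - g.c*h.a*h.x*h.x*h.y := rfl
theorem inv_d1 (g : G K) : (g⁻¹).d1 = -g.d1 - g.Q*g.a + g.U*g.c2 + g.W*g.c1 + g.d*g.x + g.P*g.a*g.x - g.U*g.c1*g.x - g.W*g.c*g.x := rfl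
theorem one_d1 : (1 : G K).d1 = 0 := rfl
theorem mul_T (g h : G K) : (g * h).T = g.T + h.T + g.P*h.V - g.P*h.W + g.Q*h.U + g.R*h.U + g.R*h.a1 - g.S*h.a + g.d*h.z + g.d1*h.y - g.p*h.V + 2*g.p*h.W - g.P*h.a1*h.x - 2*g.Q*h.a*h.y - 2*g.R*h.a*h.y + g.c*h.W*h.z + g.c1*h.U*h.z + g.c1*h.W*h.y + g.c2*h.U*h.y + g.d*h.x*h.y + g.p*h.U*h.x - 2*g.p*h.a*h.z + g.p*h.a1*h.x + g.c*h.U*h.x*h.z + g.c*h.W*h.x*h.y - g.c*h.a*h.z*h.z + 2*g.c1*h.U*h.x*h.y - 2*g.c1*h.a*h.y*h.z - g.c2*h.a*h.y*h.y - 2*g.p*h.a*h.x*h.y + g.c*h.U*h.x*h.x*h.y - 2*g.c*h.a*h.x*h.y*h.z - 2*g.c1*h.a*h.x*h.y*h.y - g.c*h.a*h.x*h.x*h.y*h.y := rfl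
theorem inv_T (g : G K) : (g⁻¹).T = -g.T + g.P*g.V - g.P*g.W + g.Q*g.U + g.R*g.U + g.R*g.a1 - g.S*g.a - g.V*g.p + 2*g.W*g.p + g.d*g.z + g.d1*g.y + g.P*g.a*g.z + g.Q*g.a*g.y - g.U*g.c1*g.z - g.U*g.c2*g.y - g.W*g.c*g.z - g.W*g.c1*g.y := rfl
theorem one_T : (1 : G K).T = 0 := rfl

instance : Group (G K) := Group.ofLeftAxioms
  (fun g h k => by ext <;> simp only [mul_x, mul_y, mul_z, mul_a, mul_a1, mul_U, mul_V, mul_W, mul_c, mul_c1, mul_c2, mul_p, mul_P, mul_Q, mul_R, mul_S, mul_d, mul_d1, mul_T] <;> ring)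
  (fun g => by ext <;> simp only [mul_x, mul_y, mul_z, mul_a, mul_a1, mul_U, mul_V, mul_W, mul_c, mul_c1, mul_c2, mul_p, mul_P, mul_Q, mul_R, mul_S, mul_d, mul_d1, mul_T, one_x, one_y, one_z, one_a, one_a1, one_U, one_V, one_W, one_c, one_c1, one_c2, one_p, one_P, one_Q, one_R, one_S, one_d, one_d1, one_T] <;> ring)
  (fun g => by ext <;> simp only [mul_x, mul_y, mul_z, mul_a, mul_a1, mul_U, mul_V, mul_W, mul_c, mul_c1, mul_c2, mul_p, mul_P, mul_Q, mul_R, mul_S, mul_d, mul_d1, mul_T, one_x, one_y, one_z, one_a, one_a1, one_U, one_V, one_W, one_c, one_c1, one_c2, one_p, one_P, one_Q, one_R, one_S, one_d, one_d1, one_T, inv_x, inv_y, inv_z, inv_a, inv_a1, inv_U, inv_V, inv_W, inv_c, inv_c1, inv_c2, inv_p, inv_P, inv_Q, inv_R, inv_S, inv_d, inv_d1, inv_T] <;> ring)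

def eqv : G K ≃ (Fin 19 → K) where
  toFun g := ![g.x, g.y, g.z, g.a, g.a1, g.U, g.V, g.W, g.c, g.c1, g.c2, g.p, g.P, g.Q, g.R, g.S, g.d, g.d1, g.T]
  invFun f := ⟨f 0, f 1, f 2, f 3, f 4, f 5, f 6, f 7, f 8, f 9, f 10, f 11, f 12, f 13, f 14, f 15, f 16, f 17, f 18⟩
  left_inv g := rfl
  right_inv f := by funext i; fin_cases i <;> rfl

def A : Subgroup (G K) where
  carrier := {g | g.x = 0 ∧ g.y = 0 ∧ g.z = 0 ∧ g.U = 0 ∧ g.V = 0 ∧ g.W = 0 ∧ g.P = 0 ∧ g.Q = 0 ∧ g.R = 0 ∧ g.S = 0 ∧ g.T = 0}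
  mul_mem' := by
    rintro g h ⟨gx, gy, gz, gU, gV, gW, gP, gQ, gR, gS, gT⟩ ⟨hx, hy, hz, hU, hV, hW, hP, hQ, hR, hS, hT⟩
    simp only [Set.mem_ofPred_eq, mul_x, mul_y, mul_z, mul_a, mul_a1, mul_U, mul_V, mul_W, mul_c, mul_c1, mul_c2, mul_p, mul_P, mul_Q, mul_R, mul_S, mul_d, mul_d1, mul_T, gx, gy, gz, gU, gV, gW, gP, gQ, gR, gS, gT, hx, hy, hz, hU, hV, hW, hP, hQ, hR, hS, hT]
    refine ⟨?_, ?_, ?_, ?_, ?_, ?_, ?_, ?_, ?_, ?_, ?_⟩ <;> ring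
  one_mem' := ⟨rfl, rfl, rfl, rfl, rfl, rfl, rfl, rfl, rfl, rfl, rfl⟩
  inv_mem' := by
    rintro g ⟨gx, gy, gz, gU, gV, gW, gP, gQ, gR, gS, gT⟩
    simp only [Set.mem_ofPred_eq, inv_x, inv_y, inv_z, inv_a, inv_a1, inv_U, inv_V, inv_W, inv_c, inv_c1, inv_c2, inv_p, inv_P, inv_Q, inv_R, inv_S, inv_d, inv_d1, inv_T, gx, gy, gz, gU, gV, gW, gP, gQ, gR, gS, gT]
    refine ⟨?_, ?_, ?_, ?_, ?_, ?_, ?_, ?_, ?_, ?_, ?_⟩ <;> ring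

def B : Subgroup (G K) where
  carrier := {g | g.a = 0 ∧ g.a1 = 0 ∧ g.c = 0 ∧ g.c1 = 0 ∧ g.c2 = 0 ∧ g.p = 0 ∧ g.d = 0 ∧ g.d1 = 0}
  mul_mem' := by
    rintro g h ⟨ga, ga1, gc, gc1, gc2, gp, gd, gd1⟩ ⟨ha, ha1, hc, hc1, hc2, hp, hd, hd1⟩
    simp only [Set.mem_ofPred_eq, mul_x, mul_y, mul_z, mul_a, mul_a1, mul_U, mul_V, mul_W, mul_c, mul_c1, mul_c2, mul_p, mul_P, mul_Q, mul_R, mul_S, mul_d, mul_d1, mul_T, ga, ga1, gc, gc1, gc2, gp, gd, gd1, ha, ha1, hc, hc1, hc2, hp, hd, hd1]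
    refine ⟨?_, ?_, ?_, ?_, ?_, ?_, ?_, ?_⟩ <;> ring
  one_mem' := ⟨rfl, rfl, rfl, rfl, rfl, rfl, rfl, rfl⟩
  inv_mem' := by
    rintro g ⟨ga, ga1, gc, gc1, gc2, gp, gd, gd1⟩
    simp only [Set.mem_ofPred_eq, inv_x, inv_y, inv_z, inv_a, inv_a1, inv_U, inv_V, inv_W, inv_c, inv_c1, inv_c2, inv_p, inv_P, inv_Q, inv_R, inv_S, inv_d, inv_d1, inv_T, ga, ga1, gc, gc1, gc2, gp, gd, gd1]
    refine ⟨?_, ?_, ?_, ?_, ?_, ?_, ?_, ?_⟩ <;> ring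

theorem A_comm (g h : G K) (hg : g ∈ A) (hh : h ∈ A) : g * h = h * g := by
  obtain ⟨gx, gy, gz, gU, gV, gW, gP, gQ, gR, gS, gT⟩ := hg
  obtain ⟨hx, hy, hz, hU, hV, hW, hP, hQ, hR, hS, hT⟩ := hh
  ext <;> simp only [mul_x, mul_y, mul_z, mul_a, mul_a1, mul_U, mul_V, mul_W, mul_c, mul_c1, mul_c2, mul_p, mul_P, mul_Q, mul_R, mul_S, mul_d, mul_d1, mul_T, gx, gy, gz, gU, gV, gW, gP, gQ, gR, gS, gT, hx, hy, hz, hU, hV, hW, hP, hQ, hR, hS, hT] <;> ring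

theorem AB_inf (g : G K) (h1 : g ∈ A) (h2 : g ∈ B) : g = 1 := by
  obtain ⟨gx, gy, gz, gU, gV, gW, gP, gQ, gR, gS, gT⟩ := h1
  obtain ⟨ga, ga1, gc, gc1, gc2, gp, gd, gd1⟩ := h2
  ext <;> assumption

theorem BA (g : G K) : ∃ b ∈ B, ∃ a ∈ A, g = b * a := by
  refine ⟨⟨g.x, g.y, g.z, 0, 0, g.U, g.V, g.W, 0, 0, 0, 0, g.P, g.Q, g.R, g.S, 0, 0, g.T - g.R * g.a1 + g.S * g.a⟩,
    ⟨rfl, rfl, rfl, rfl, rfl, rfl, rfl, rfl⟩,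
    ⟨0, 0, 0, g.a, g.a1, 0, 0, 0, g.c, g.c1, g.c2, g.p, 0, 0, 0, 0, g.d + g.P * g.a, g.d1 + g.Q * g.a, 0⟩,
    ⟨rfl, rfl, rfl, rfl, rfl, rfl, rfl, rfl, rfl, rfl, rfl⟩, ?_⟩
  ext <;> simp only [mul_x, mul_y, mul_z, mul_a, mul_a1, mul_U, mul_V, mul_W, mul_c, mul_c1, mul_c2, mul_p, mul_P, mul_Q, mul_R, mul_S, mul_d, mul_d1, mul_T] <;> ring

def cm (g h : G K) : G K := ⟨0, 0, g.x*h.y - g.y*h.x, 0, 0, 0, -g.U*h.x + g.x*h.U, -g.U*h.x + g.x*h.U, 0, 0, 0, 0, 0, g.P*h.x - g.x*h.P, -g.P*h.x + g.x*h.P, 2*g.Q*h.y + 2*g.R*h.y - 2*g.y*h.Q - 2*g.y*h.R, 0, 0, g.P*h.V - g.P*h.W + g.Q*h.U + g.R*h.U - g.U*h.Q - g.U*h.R - g.V*h.P + g.W*h.P⟩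

theorem cm_spec (g h : G K) (hg : g ∈ B) (hh : h ∈ B) : g * h = h * g * cm g h := by
  obtain ⟨ga, ga1, gc, gc1, gc2, gp, gd, gd1⟩ := hg
  obtain ⟨ha, ha1, hc, hc1, hc2, hp, hd, hd1⟩ := hh
  ext <;> simp only [cm, mul_x, mul_y, mul_z, mul_a, mul_a1, mul_U, mul_V, mul_W, mul_c, mul_c1, mul_c2, mul_p, mul_P, mul_Q, mul_R, mul_S, mul_d, mul_d1, mul_T, ga, ga1, gc, gc1, gc2, gp, gd, gd1, ha, ha1, hc, hc1, hc2, hp, hd, hd1] <;> ring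

theorem cm_central (g h k : G K) (hk : k ∈ B) : cm g h * k = k * cm g h := by
  obtain ⟨ka, ka1, kc, kc1, kc2, kp, kd, kd1⟩ := hk
  ext <;> simp only [cm, mul_x, mul_y, mul_z, mul_a, mul_a1, mul_U, mul_V, mul_W, mul_c, mul_c1, mul_c2, mul_p, mul_P, mul_Q, mul_R, mul_S, mul_d, mul_d1, mul_T, ka, ka1, kc, kc1, kc2, kp, kd, kd1] <;> ring

theorem comm_eq (g h : G K) (hg : g ∈ B) (hh : h ∈ B) : g * h * g⁻¹ * h⁻¹ = cm g h := by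
  rw [cm_spec g h hg hh, mul_assoc h, ← cm_central g h g hg, ← mul_assoc,
    ← cm_central g h h hh]
  group

def ex : G K := ⟨1, 0, 0, 0, 0, 0, 0, 0, 0, 0, 0, 0, 0, 0, 0, 0, 0, 0, 0⟩
def ey : G K := ⟨0, 1, 0, 0, 0, 0, 0, 0, 0, 0, 0, 0, 0, 0, 0, 0, 0, 0, 0⟩
def ez : G K := ⟨0, 0, 1, 0, 0, 0, 0, 0, 0, 0, 0, 0, 0, 0, 0, 0, 0, 0, 0⟩
def ea : G K := ⟨0, 0, 0, 1, 0, 0, 0, 0, 0, 0, 0, 0, 0, 0, 0, 0, 0, 0, 0⟩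
def ec : G K := ⟨0, 0, 0, 0, 0, 0, 0, 0, 1, 0, 0, 0, 0, 0, 0, 0, 0, 0, 0⟩
def ep : G K := ⟨0, 0, 0, 0, 0, 0, 0, 0, 0, 0, 0, -1, 0, 0, 0, 0, 0, 0, 0⟩
def eW : G K := ⟨0, 0, 0, 0, 0, 0, 0, 1, 0, 0, 0, 0, 0, 0, 0, 0, 0, 0, 0⟩
def eP : G K := ⟨0, 0, 0, 0, 0, 0, 0, 0, 0, 0, 0, 0, 1, 0, 0, -1, 0, 0, 0⟩

theorem hz : (ex : G K) * ey * ex⁻¹ * ey⁻¹ = ez := by
  ext <;> simp only [ex, ey, ez, mul_x, mul_y, mul_z, mul_a, mul_a1, mul_U, mul_V, mul_W, mul_c, mul_c1, mul_c2, mul_p, mul_P, mul_Q, mul_R, mul_S, mul_d, mul_d1, mul_T, inv_x, inv_y, inv_z, inv_a, inv_a1, inv_U, inv_V, inv_W, inv_c, inv_c1, inv_c2, inv_p, inv_P, inv_Q, inv_R, inv_S, inv_d, inv_d1, inv_T] <;> ring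

theorem hW : (ea : G K) * ez * ea⁻¹ * ez⁻¹ = eW := by
  ext <;> simp only [ea, eW, ez, mul_x, mul_y, mul_z, mul_a, mul_a1, mul_U, mul_V, mul_W, mul_c, mul_c1, mul_c2, mul_p, mul_P, mul_Q, mul_R, mul_S, mul_d, mul_d1, mul_T, inv_x, inv_y, inv_z, inv_a, inv_a1, inv_U, inv_V, inv_W, inv_c, inv_c1, inv_c2, inv_p, inv_P, inv_Q, inv_R, inv_S, inv_d, inv_d1, inv_T] <;> ring

theorem hP : (ec : G K) * ez * ec⁻¹ * ez⁻¹ * ep = eP := by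
  ext <;> simp only [ec, ep, eP, ez, mul_x, mul_y, mul_z, mul_a, mul_a1, mul_U, mul_V, mul_W, mul_c, mul_c1, mul_c2, mul_p, mul_P, mul_Q, mul_R, mul_S, mul_d, mul_d1, mul_T, inv_x, inv_y, inv_z, inv_a, inv_a1, inv_U, inv_V, inv_W, inv_c, inv_c1, inv_c2, inv_p, inv_P, inv_Q, inv_R, inv_S, inv_d, inv_d1, inv_T] <;> ring

theorem PW [Nontrivial K] : (eP : G K) * eW ≠ eW * eP := by
  intro h
  have := congrArg G.T h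
  simp [eP, eW, mul_T] at this

theorem xy [Nontrivial K] : (ex : G K) * ey ≠ ey * ex := by
  intro h
  have := congrArg G.z h
  simp [ex, ey, mul_z] at this

theorem ex_mem : (ex : G K) ∈ B := ⟨rfl, rfl, rfl, rfl, rfl, rfl, rfl, rfl⟩
theorem ey_mem : (ey : G K) ∈ B := ⟨rfl, rfl, rfl, rfl, rfl, rfl, rfl, rfl⟩
theorem eW_mem : (eW : G K) ∈ B := ⟨rfl, rfl, rfl, rfl, rfl, rfl, rfl, rfl⟩
theorem eP_mem : (eP : G K) ∈ B := ⟨rfl, rfl, rfl, rfl, rfl, rfl, rfl, rfl⟩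
theorem ea_mem : (ea : G K) ∈ A := ⟨rfl, rfl, rfl, rfl, rfl, rfl, rfl, rfl, rfl, rfl, rfl⟩
theorem ec_mem : (ec : G K) ∈ A := ⟨rfl, rfl, rfl, rfl, rfl, rfl, rfl, rfl, rfl, rfl, rfl⟩
theorem ep_mem : (ep : G K) ∈ A := ⟨rfl, rfl, rfl, rfl, rfl, rfl, rfl, rfl, rfl, rfl, rfl⟩

end Pool.Agent.H29.G19
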