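import Mathlib

set_option autoImplicit false

namespace Pool.Agent.H29.GKNil

open Classical in
/-- indicator of the powers of two -/
noncomputable def chi (n : ℕ) : ℚ := if ∃ i, n = 2 ^ i then 1 else 0

/-- weighted shift -/
def op (l : ℕ) : (ℕ → ℚ) →ₗ[ℚ] Module.End ℚ (ℕ → ℚ) where
  toFun c :=
    { toFun := fun f n => c n * f (n + l)
      map_add' := fun f g => by ext n; simp [mul_add]
      map_smul' := fun a f => by ext n; simp; ring }
  map_add' c d := by ext f n; simp [add_mul]
  map_smul' a c := by ext f n; simp [mul_assoc]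

theorem op_apply (l : ℕ) (c f : ℕ → ℚ) (n : ℕ) : op l c f n = c n * f (n + l) := rfl

noncomputable def S : Module.End ℚ (ℕ → ℚ) := op 1 1
noncomputable def Y : Module.End ℚ (ℕ → ℚ) := op 0 chi

theorem op_mul (l m : ℕ) (c d : ℕ → ℚ) :
    op l c * op m d = op (l + m) (fun n => c n * d (n + l)) := by
  refine LinearMap.ext fun f => funext fun n => ?_
  simp only [Module.End.mul_apply, op_apply, mul_assoc, add_assoc]

theorem op_one : op 0 1 = 1 := by
  refine LinearMap.ext fun f => funext fun n => ?_
  simp [op_apply]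

noncomputable def cf (t b : ℕ) : ℕ → ℚ :=
  if t = 0 then 1 else if t = 1 then (fun n => chi (n + b)) else Pi.single b 1

open Classical in
noncomputable def gen (L : ℕ) : Finset (Module.End ℚ (ℕ → ℚ)) :=
  (Finset.range (L + 1) ×ˢ Finset.range 3 ×ˢ Finset.range (L + 1)).image
    fun p => op p.1 (cf p.2.1 p.2.2)

noncomputable def W (L : ℕ) : Submodule ℚ (Module.End ℚ (ℕ → ℚ)) :=
  Submodule.span ℚ (gen L : Set _)

theorem mem_W {L l t b : ℕ} (hl : l ≤ L) (ht : t < 3) (hb : b ≤ L) : op l (cf t b) ∈ W L := by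
  classical
  refine Submodule.subset_span ?_
  simp only [gen, Finset.coe_image]
  exact ⟨(l, t, b), by simp; omega, rfl⟩

theorem W_rank (L : ℕ) : Module.finrank ℚ (W L) ≤ 3 * (L + 1) ^ 2 := by
  classical
  refine (finrank_span_finset_le_card (gen L)).trans ?_
  refine Finset.card_image_le.trans ?_
  simp; nlinarith

theorem small_mem {L l : ℕ} (hl : l ≤ L) (c : ℕ → ℚ) (hc : ∀ n, L < n → c n = 0) :
    op l c ∈ W L := by
  have : c = ∑ m ∈ Finset.range (L + 1), c m • cf 2 m := by
    ext n
    simp only [cf, Finset.sum_apply, Pi.smul_apply, smul_eq_mul]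
    simp only [Pi.single_apply, OfNat.ofNat_ne_zero, OfNat.ofNat_ne_one, if_false, mul_ite,
      mul_one, mul_zero, Finset.sum_ite_eq, Finset.mem_range]
    split_ifs with h
    · rfl
    · exact hc n (by omega)
  rw [this, map_sum]
  refine Submodule.sum_mem _ fun m hm => ?_
  rw [map_smul]
  exact Submodule.smul_mem _ _ (mem_W hl (by norm_num) (by simp at hm; omega))

theorem chi_lt {n a b : ℕ} (hab : a < b) (hn : b < n) : chi (n + a) * chi (n + b) = 0 := by
  unfold chi
  split_ifs with h1 h2
  · obtain ⟨i, hi⟩ := h1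
    obtain ⟨j, hj⟩ := h2
    have hij : i < j := by
      have : 2 ^ i < 2 ^ j := by omega
      exact (Nat.pow_lt_pow_iff_right (by norm_num)).mp this
    have : 2 ^ (i + 1) ≤ 2 ^ j := Nat.pow_le_pow_right (by norm_num) hij
    rw [pow_succ] at this
    omega
  all_goals simp

theorem chi_sq (n : ℕ) : chi n * chi n = chi n := by
  unfold chi; split_ifs <;> simp

theorem W_step {L : ℕ} {a : Module.End ℚ (ℕ → ℚ)} (ha : a ∈ W L) :
    a ∈ W (L + 1) ∧ a * S ∈ W (L + 1) ∧ a * Y ∈ W (L + 1) := by
  classical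
  induction ha using Submodule.span_induction with
  | mem x hx =>
    simp only [gen, Finset.coe_image] at hx
    obtain ⟨⟨l, t, b⟩, hp, rfl⟩ := hx
    simp only [Finset.coe_product, Finset.coe_range, Set.mem_prod, Set.mem_Iio] at hp
    obtain ⟨hl, ht, hb⟩ := hp
    dsimp only
    refine ⟨mem_W (by omega) ht (by omega), ?_, ?_⟩
    · rw [S, op_mul]
      simp only [Pi.one_apply, mul_one]
      exact mem_W (by omega) ht (by omega)
    · rw [Y, op_mul, add_zero]
      by_cases h0 : t = 0
      · have : (fun n => cf t b n * chi (n + l)) = cf 1 l := by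
          ext n; simp [cf, h0]
        rw [this]; exact mem_W (by omega) (by norm_num) (by omega)
      by_cases h1 : t = 1
      · rcases lt_trichotomy b l with h | h | h
        · refine small_mem (by omega) _ fun n hn => ?_
          simp only [cf, h1, one_ne_zero, if_false, if_true]
          exact chi_lt h (by omega)
        · have : (fun n => cf t b n * chi (n + l)) = cf 1 l := by
            ext n; simp [cf, h1, h, chi_sq]
          rw [this]; exact mem_W (by omega) (by norm_num) (by omega)
        · refine small_mem (by omega) _ fun n hn => ?_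
          simp only [cf, h1, one_ne_zero, if_false, if_true]
          rw [mul_comm]
          exact chi_lt h (by omega)
      · refine small_mem (by omega) _ fun n hn => ?_
        have : n ≠ b := by omega
        simp [cf, h0, h1, this]
  | zero => simp
  | add x y _ _ hx hy =>
    exact ⟨add_mem hx.1 hy.1, by rw [add_mul]; exact add_mem hx.2.1 hy.2.1,
      by rw [add_mul]; exact add_mem hx.2.2 hy.2.2⟩
  | smul c x _ hx =>
    exact ⟨Submodule.smul_mem _ _ hx.1, by rw [smul_mul_assoc]; exact Submodule.smul_mem _ _ hx.2.1,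
      by rw [smul_mul_assoc]; exact Submodule.smul_mem _ _ hx.2.2⟩

noncomputable abbrev A : Subalgebra ℚ (Module.End ℚ (ℕ → ℚ)) := Algebra.adjoin ℚ {S, Y}

noncomputable def sA : A := ⟨S, Algebra.subset_adjoin (by simp)⟩
noncomputable def yA : A := ⟨Y, Algebra.subset_adjoin (by simp)⟩

noncomputable def V : Submodule ℚ A := Submodule.span ℚ {1, sA, yA}

theorem V_top : Algebra.adjoin ℚ (V : Set A) = ⊤ := by
  rw [eq_top_iff]
  rintro ⟨a, ha⟩ -
  induction ha using Algebra.adjoin_induction with
  | mem x hx =>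
    refine Algebra.subset_adjoin (Submodule.subset_span ?_)
    rcases hx with rfl | rfl
    · right; left; rfl
    · right; right; rfl
  | algebraMap r => exact Subalgebra.algebraMap_mem _ r
  | add x y _ _ hx hy => exact add_mem hx hy
  | mul x y _ _ hx hy => exact mul_mem hx hy

theorem V_pow (n : ℕ) : ∀ a ∈ V ^ n, (a : Module.End ℚ (ℕ → ℚ)) ∈ W n := by
  induction n with
  | zero =>
    intro a ha
    rw [pow_zero, Submodule.one_eq_span, Submodule.mem_span_singleton] at ha
    obtain ⟨c, rfl⟩ := ha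
    refine Submodule.smul_mem _ _ ?_
    have := mem_W (L := 0) (l := 0) (t := 0) (b := 0) le_rfl (by norm_num) le_rfl
    simpa [cf, op_one] using this
  | succ n ih =>
    intro a ha
    rw [pow_succ] at ha
    refine Submodule.mul_induction_on ha (fun x hx y hy => ?_)
      (fun x y hx hy => by simpa using add_mem hx hy)
    have h := W_step (ih x hx)
    induction hy using Submodule.span_induction with
    | mem y hy =>
      rcases hy with rfl | rfl | rfl
      · simpa using h.1
      · exact h.2.1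
      · exact h.2.2
    | zero => simp
    | add y z _ _ hy hz => rw [mul_add]; exact add_mem hy hz
    | smul c y _ hy => rw [mul_smul_comm]; exact Submodule.smul_mem _ _ hy

theorem V_rank (n : ℕ) : Module.finrank ℚ ↥(V ^ n) ≤ 3 * (n + 1) ^ 2 := by
  refine le_trans ?_ (W_rank n)
  haveI : FiniteDimensional ℚ (W n) := FiniteDimensional.span_finset ℚ _
  let f : ↥(V ^ n) →ₗ[ℚ] W n :=
    LinearMap.codRestrict (W n) (A.val.toLinearMap ∘ₗ (V ^ n).subtype) fun a => V_pow n a a.2
  refine LinearMap.finrank_le_finrank_of_injective (f := f) fun a b h => ?_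
  have h' := congrArg Subtype.val h
  exact Subtype.ext (Subtype.ext h')

def Z (n : ℕ) (f : ℕ → ℚ) : Prop := ∀ i, n ≤ i → f i = 0

theorem A_tri (a : A) : ∀ n f, Z n f → Z n (a.1 f) := by
  obtain ⟨a, ha⟩ := a
  induction ha using Algebra.adjoin_induction with
  | mem x hx =>
    intro n f hf i hi
    rcases hx with rfl | rfl
    · simp [S, op_apply, hf (i + 1) (by omega)]
    · simp [Y, op_apply, hf i hi]
  | algebraMap r => intro n f hf i hi; simp [hf i hi]
  | add x y _ _ hx hy =>
    intro n f hf i hi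
    have h1 := hx n f hf i hi
    have h2 := hy n f hf i hi
    simp only at h1 h2
    simp [h1, h2]
  | mul x y _ _ hx hy => intro n f hf; exact hx n _ (hy n f hf)

noncomputable def I (m : ℕ) : TwoSidedIdeal A :=
  TwoSidedIdeal.mk' {a | (∀ f, Z m (a.1 f)) ∧ ∀ n f, Z (n + 1) f → Z n (a.1 f)}
    ⟨fun f i _ => rfl, fun n f _ i _ => rfl⟩
    (fun {x y} hx hy => ⟨fun f i hi => by simp [hx.1 f i hi, hy.1 f i hi],
      fun n f hf i hi => by simp [hx.2 n f hf i hi, hy.2 n f hf i hi]⟩)
    (fun {x} hx => ⟨fun f i hi => by simp [hx.1 f i hi],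
      fun n f hf i hi => by simp [hx.2 n f hf i hi]⟩)
    (fun {x y} hy => ⟨fun f => A_tri x m _ (hy.1 f), fun n f hf => A_tri x n _ (hy.2 n f hf)⟩)
    (fun {x y} hx => ⟨fun f => hx.1 _, fun n f hf => hx.2 n _ (A_tri y _ f hf)⟩)

theorem mem_I {m : ℕ} {a : A} :
    a ∈ I m ↔ (∀ f, Z m (a.1 f)) ∧ ∀ n f, Z (n + 1) f → Z n (a.1 f) := by
  unfold I
  rw [TwoSidedIdeal.mem_mk']
  rfl

theorem I_list (m : ℕ) (l : List A) (hl : ∀ a ∈ l, a ∈ I m) (j : ℕ) (hj : l.length = j + 1)
    (f : ℕ → ℚ) : Z (m - j) (l.prod.1 f) := by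
  induction l generalizing j with
  | nil => simp at hj
  | cons a l ih =>
    have ha := mem_I.mp (hl a (by simp))
    rw [List.prod_cons]
    change Z (m - j) (a.1 (l.prod.1 f))
    rcases j with _ | j
    · exact ha.1 _
    · have := ih (fun b hb => hl b (by simp [hb])) j (by simpa using hj)
      refine ha.2 _ _ fun i hi => this i (by omega)

theorem I_nil (m : ℕ) (f : Fin (m + 1) → A) (hf : ∀ i, f i ∈ I m) : (List.ofFn f).prod = 0 := by
  refine Subtype.ext (LinearMap.ext fun g => funext fun i => ?_)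
  have := I_list m (List.ofFn f) (fun a ha => by obtain ⟨i, rfl⟩ := List.mem_ofFn.mp ha; exact hf i) m (by simp) g i (by omega)
  simpa using this

noncomputable def e (j : ℕ) : A := yA * sA ^ (2 ^ j) * yA

theorem S_pow (n : ℕ) : S ^ n = op n 1 := by
  induction n with
  | zero => simp [op_one]
  | succ n ih => rw [pow_succ, ih, S, op_mul]; congr 1; ext; simp

theorem e_apply (j : ℕ) (f : ℕ → ℚ) (n : ℕ) :
    (e j).1 f n = chi n * chi (n + 2 ^ j) * f (n + 2 ^ j) := by
  change (Y * S ^ (2 ^ j) * Y) f n = _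
  rw [S_pow, Y, op_mul, op_mul, op_apply]; simp

theorem e_mem (j : ℕ) : e j ∈ I (2 ^ j + 1) := by
  rw [mem_I]
  refine ⟨fun f i hi => ?_, fun n f hf i hi => ?_⟩
  · have := chi_lt (n := i) (a := 0) (b := 2 ^ j) (by positivity) (by omega)
    rw [e_apply]; rw [add_zero] at this; rw [this, zero_mul]
  · have : 0 < 2 ^ j := by positivity
    rw [e_apply, hf _ (by omega), mul_zero]

theorem e_prod (m j : ℕ) :
    ((List.ofFn fun i : Fin m => e (j + i)).prod).1 1 (2 ^ j) = 1 := by
  induction m generalizing j with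
  | zero => simp
  | succ m ih =>
    rw [List.ofFn_succ, List.prod_cons]
    change (e (j + 0)).1 (((List.ofFn fun i : Fin m => e (j + (i.succ : ℕ))).prod).1 1) (2 ^ j) = 1
    have h2 : 2 ^ j + 2 ^ j = 2 ^ (j + 1) := by ring
    have h3 : (fun i : Fin m => e (j + (i.succ : ℕ))) = fun i : Fin m => e (j + 1 + i) := by
      ext1 i; congr 1; simp; omega
    have h4 : ∀ i, chi (2 ^ i) = 1 := fun i => by unfold chi; rw [if_pos ⟨i, rfl⟩]
    rw [add_zero, e_apply, h2, h3, ih, h4, h4]; simp

end Pool.Agent.H29.GKNil
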