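import Mathlib

set_option autoImplicit false
open Set MeasureTheory

namespace Pool.Agent.H29.IET

def pi4 : Equiv.Perm (Fin 4) := ⟨![1, 3, 0, 2], ![2, 0, 3, 1], by decide, by decide⟩

noncomputable def T (α t x : ℝ) : ℝ :=
  x + ((Ico 0 α).indicator (fun _ => α + t) x + (Ico α (1 + t)).indicator (fun _ => 1 + t) x +
    (Ico (1 + t) (1 + α + 2 * t)).indicator (fun _ => -(1 + t)) x +
    (Ico (1 + α + 2 * t) (2 + 2 * t)).indicator (fun _ => -(1 - α + t)) x)

lemma T_meas (α t : ℝ) : Measurable (T α t) := by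
  unfold T
  refine measurable_id.add (((Measurable.add ?_ ?_).add ?_).add ?_) <;>
    exact measurable_const.indicator measurableSet_Ico

lemma T_eq (α t : ℝ) (v : Fin 4 → ℝ) (h0 : v 0 = α) (h1 : v 1 = 1 - α + t) (h2 : v 2 = α + t)
    (h3 : v 3 = 1 - α) :
    (fun x : ℝ => x + ∑ j : Fin 4,
          (Set.Ico (∑ i ∈ (Finset.univ : Finset (Fin 4)).filter (fun i : Fin 4 => i < j), v i)
             ((∑ i ∈ (Finset.univ : Finset (Fin 4)).filter (fun i : Fin 4 => i < j), v i) + v j)).indicator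
            (fun _ : ℝ => (∑ i ∈ (Finset.univ : Finset (Fin 4)).filter (fun i : Fin 4 => pi4 i < pi4 j), v i) -
                      ∑ i ∈ (Finset.univ : Finset (Fin 4)).filter (fun i : Fin 4 => i < j), v i) x) = T α t := by
  have a0 : (Finset.univ : Finset (Fin 4)).filter (fun i : Fin 4 => i < 0) = ∅ := by decide
  have a1 : (Finset.univ : Finset (Fin 4)).filter (fun i : Fin 4 => i < 1) = {0} := by decide
  have a2 : (Finset.univ : Finset (Fin 4)).filter (fun i : Fin 4 => i < 2) = {0, 1} := by decide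
  have a3 : (Finset.univ : Finset (Fin 4)).filter (fun i : Fin 4 => i < 3) = {0, 1, 2} := by decide
  have b0 : (Finset.univ : Finset (Fin 4)).filter (fun i : Fin 4 => pi4 i < pi4 0) = {2} := by decide
  have b1 : (Finset.univ : Finset (Fin 4)).filter (fun i : Fin 4 => pi4 i < pi4 1) = {0, 2, 3} := by
    decide
  have b2 : (Finset.univ : Finset (Fin 4)).filter (fun i : Fin 4 => pi4 i < pi4 2) = ∅ := by decide
  have b3 : (Finset.univ : Finset (Fin 4)).filter (fun i : Fin 4 => pi4 i < pi4 3) = {0, 2} := by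
    decide
  funext x
  rw [Fin.sum_univ_four, a0, a1, a2, a3, b0, b1, b2, b3]
  have s1 : ∑ i ∈ ({0, 1} : Finset (Fin 4)), v i = 1 + t := by
    rw [Finset.sum_pair (by decide), h0, h1]; ring
  have s2 : ∑ i ∈ ({0, 1, 2} : Finset (Fin 4)), v i = 1 + α + 2 * t := by
    rw [Finset.sum_insert (by decide), Finset.sum_pair (by decide), h0, h1, h2]; ring
  have s3 : ∑ i ∈ ({0, 2, 3} : Finset (Fin 4)), v i = 1 + α + t := by
    rw [Finset.sum_insert (by decide), Finset.sum_pair (by decide), h0, h2, h3]; ring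
  have s4 : ∑ i ∈ ({0, 2} : Finset (Fin 4)), v i = 2 * α + t := by
    rw [Finset.sum_pair (by decide), h0, h2]; ring
  rw [s1, s2, s3, s4]
  simp only [Finset.sum_empty, Finset.sum_singleton, h0, h1, h2, h3, T]
  have e1 : (0:ℝ) + α = α := by ring
  have e2 : α + t - 0 = α + t := by ring
  have e3 : α + (1 - α + t) = 1 + t := by ring
  have e4 : 1 + α + t - α = 1 + t := by ring
  have e5 : 1 + t + (α + t) = 1 + α + 2 * t := by ring
  have e6 : 0 - (1 + t) = -(1 + t) := by ring
  have e7 : 1 + α + 2 * t + (1 - α) = 2 + 2 * t := by ring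
  have e8 : 2 * α + t - (1 + α + 2 * t) = -(1 - α + t) := by ring
  rw [e1, e2, e3, e4, e5, e6, e7, e8]

section
variable {α t : ℝ} (h0 : 0 < α) (h1 : α < 1) (ht : 0 ≤ t)
include h0 h1 ht

lemma T_cases (x : ℝ) :
    (x < 0 ∧ T α t x = x) ∨ (0 ≤ x ∧ x < α ∧ T α t x = x + (α + t)) ∨
    (α ≤ x ∧ x < 1 + t ∧ T α t x = x + (1 + t)) ∨
    (1 + t ≤ x ∧ x < 1 + α + 2 * t ∧ T α t x = x - (1 + t)) ∨
    (1 + α + 2 * t ≤ x ∧ x < 2 + 2 * t ∧ T α t x = x - (1 - α + t)) ∨
    (2 + 2 * t ≤ x ∧ T α t x = x) := by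
  unfold T
  simp only [Set.indicator, Set.mem_Ico]
  rcases lt_or_ge x 0 with a | a
  · left
    refine ⟨a, ?_⟩
    rw [if_neg (fun h => by linarith [h.1]), if_neg (fun h => by linarith [h.1]),
      if_neg (fun h => by linarith [h.1]), if_neg (fun h => by linarith [h.1])]
    ring
  rcases lt_or_ge x α with b | b
  · right; left
    refine ⟨a, b, ?_⟩
    rw [if_pos ⟨a, b⟩, if_neg (fun h => by linarith [h.1]),
      if_neg (fun h => by linarith [h.1]), if_neg (fun h => by linarith [h.1])]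
    ring
  rcases lt_or_ge x (1 + t) with c | c
  · right; right; left
    refine ⟨b, c, ?_⟩
    rw [if_neg (fun h => by linarith [h.2]), if_pos ⟨b, c⟩,
      if_neg (fun h => by linarith [h.1]), if_neg (fun h => by linarith [h.1])]
    ring
  rcases lt_or_ge x (1 + α + 2 * t) with d | d
  · right; right; right; left
    refine ⟨c, d, ?_⟩
    rw [if_neg (fun h => by linarith [h.2]), if_neg (fun h => by linarith [h.2]), if_pos ⟨c, d⟩,
      if_neg (fun h => by linarith [h.1])]
    ring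
  rcases lt_or_ge x (2 + 2 * t) with e | e
  · right; right; right; right; left
    refine ⟨d, e, ?_⟩
    rw [if_neg (fun h => by linarith [h.2]), if_neg (fun h => by linarith [h.2]),
      if_neg (fun h => by linarith [h.2]), if_pos ⟨d, e⟩]
    ring
  · right; right; right; right; right
    refine ⟨e, ?_⟩
    rw [if_neg (fun h => by linarith [h.2]), if_neg (fun h => by linarith [h.2]),
      if_neg (fun h => by linarith [h.2]), if_neg (fun h => by linarith [h.2])]
    ring
end

section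
variable {α : ℝ} (h0 : 0 < α) (h1 : α < 1)
include h0 h1

lemma pre1 {x : ℝ} (hx : x ≤ α) : T α 0 ⁻¹' Ico α (x + α) = Ico 0 x := by
  ext y
  simp only [mem_preimage, mem_Ico]
  rcases T_cases h0 h1 le_rfl y with ⟨a, e⟩ | ⟨a, b, e⟩ | ⟨a, b, e⟩ | ⟨a, b, e⟩ | ⟨a, b, e⟩ | ⟨a, e⟩ <;>
    rw [e] <;> constructor <;> rintro ⟨p, q⟩ <;> constructor <;> linarith

lemma pre2 {x : ℝ} (hx : x ≤ 1) : T α 0 ⁻¹' Ico (1 + α) (x + 1) = Ico α x := by
  ext y
  simp only [mem_preimage, mem_Ico]
  rcases T_cases h0 h1 le_rfl y with ⟨a, e⟩ | ⟨a, b, e⟩ | ⟨a, b, e⟩ | ⟨a, b, e⟩ | ⟨a, b, e⟩ | ⟨a, e⟩ <;>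
    rw [e] <;> constructor <;> rintro ⟨p, q⟩ <;> constructor <;> linarith

lemma pre3 {x : ℝ} (hx : x ≤ α) : T α 0 ⁻¹' Ico 0 x = Ico 1 (x + 1) := by
  ext y
  simp only [mem_preimage, mem_Ico]
  rcases T_cases h0 h1 le_rfl y with ⟨a, e⟩ | ⟨a, b, e⟩ | ⟨a, b, e⟩ | ⟨a, b, e⟩ | ⟨a, b, e⟩ | ⟨a, e⟩ <;>
    rw [e] <;> constructor <;> rintro ⟨p, q⟩ <;> constructor <;> linarith

lemma pre4 {x : ℝ} (hx : x ≤ 1) : T α 0 ⁻¹' Ico (α + α) (x + α) = Ico (1 + α) (x + 1) := by
  ext y
  simp only [mem_preimage, mem_Ico]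
  rcases T_cases h0 h1 le_rfl y with ⟨a, e⟩ | ⟨a, b, e⟩ | ⟨a, b, e⟩ | ⟨a, b, e⟩ | ⟨a, b, e⟩ | ⟨a, e⟩ <;>
    rw [e] <;> constructor <;> rintro ⟨p, q⟩ <;> constructor <;> linarith
end

lemma mono_lin {α c : ℝ} (hirr : Irrational α) (G : ℝ → ℝ) (hG : Monotone G) (hz : G 0 = 0)
    (hp : ∀ x, G (x + 1) = G x + 1 / 2) (ha : ∀ x, G (x + α) = G x + c) (x : ℝ) : G x = x / 2 := by
  have hn : ∀ n : ℕ, G (n * α) = n * c := by
    intro n
    induction n with
    | zero => simpa using hz
    | succ n ih => push_cast; rw [add_mul, one_mul, ha, ih]; ring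
  have hz' : ∀ n : ℤ, G n = n / 2 := by
    intro n
    induction n using Int.induction_on with
    | zero => simpa using hz
    | succ n ih => push_cast at ih ⊢; rw [hp, ih]; ring
    | pred n ih =>
      push_cast at ih ⊢
      have := hp (-(n:ℝ) - 1)
      rw [show -(n:ℝ) - 1 + 1 = -(n:ℝ) by ring, ih] at this
      linarith
  have hb : ∀ y, |G y - y / 2| ≤ 1 := by
    intro y
    have a := hG (Int.floor_le y)
    have b := hG (Int.lt_floor_add_one y).le
    rw [hp] at b
    rw [hz'] at a b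
    have := Int.floor_le y
    have := Int.lt_floor_add_one y
    rw [abs_le]; constructor <;> linarith
  have hc : c = α / 2 := by
    by_contra hne
    have hpos : 0 < |c - α / 2| := abs_pos.2 (sub_ne_zero.2 hne)
    obtain ⟨n, hn'⟩ := exists_nat_gt (1 / |c - α / 2|)
    have := hb (n * α)
    rw [hn, show (n:ℝ) * c - n * α / 2 = n * (c - α / 2) by ring, abs_mul, Nat.abs_cast] at this
    rw [div_lt_iff₀ hpos] at hn'
    linarith
  have hS : ∀ z ∈ AddSubgroup.closure ({α, 1} : Set ℝ), ∀ y, G (y + z) = G y + z / 2 := by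
    intro z hz
    induction hz using AddSubgroup.closure_induction with
    | mem z hz =>
      rcases hz with rfl | rfl
      · intro y; rw [ha, hc]
      · exact hp
    | zero => intro y; simp
    | add a b _ _ iha ihb => intro y; rw [← add_assoc, ihb, iha]; ring
    | neg a _ ih =>
      intro y
      have := ih (y + -a)
      rw [show y + -a + a = y by ring] at this
      linarith
  have hd : Dense (AddSubgroup.closure ({α, 1} : Set ℝ) : Set ℝ) :=
    dense_addSubgroupClosure_pair_iff.2 (by simpa using hirr)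
  apply le_antisymm
  · refine le_of_forall_pos_le_add fun ε hε => ?_
    obtain ⟨z, hz1, hz2⟩ := hd.exists_between (show x < x + ε by linarith)
    have := hS z hz1 0
    rw [zero_add, hz] at this
    have := hG hz2.1.le
    linarith [hz2.2]
  · refine le_of_forall_pos_le_add fun ε hε => ?_
    obtain ⟨z, hz1, hz2⟩ := hd.exists_between (show x - ε < x by linarith)
    have := hS z hz1 0
    rw [zero_add, hz] at this
    have := hG hz2.2.le
    linarith [hz2.1]

noncomputable def mu0 : Measure ℝ := (2 : ENNReal)⁻¹ • volume.restrict (Ico (0:ℝ) 2)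

lemma real_Ico (μ : Measure ℝ) [IsFiniteMeasure μ] {u v : ℝ} (h : u ≤ v) :
    μ.real (Ico u v) = μ.real (Iio v) - μ.real (Iio u) := by
  have := measureReal_union (μ := μ) (s₁ := Iio u) (s₂ := Ico u v)
    (by rw [Set.disjoint_left]; intro x a b; exact absurd a (not_lt.2 b.1)) measurableSet_Ico
  rw [Iio_union_Ico_eq_Iio h] at this
  linarith

lemma cdf_eq {α : ℝ} (h0 : 0 < α) (h1 : α < 1) (hirr : Irrational α) (μ : Measure ℝ)
    [IsProbabilityMeasure μ] (hs : μ (Ico (0:ℝ) 2)ᶜ = 0) (hT : μ.map (T α 0) = μ) (x : ℝ)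
    (hx0 : 0 ≤ x) (hx2 : x ≤ 2) : μ.real (Iio x) = x / 2 := by
  set F : ℝ → ℝ := fun x => μ.real (Iio x) with hF
  have hFm : Monotone F := fun a b hab => measureReal_mono (Iio_subset_Iio hab)
  have hF0 : F 0 = 0 := by
    have : μ (Iio 0) = 0 := measure_mono_null (t := (Ico (0:ℝ) 2)ᶜ) (fun y hy h => absurd hy (not_lt.2 h.1)) hs
    simp [hF, Measure.real, this]
  have hF2 : F 2 = 1 := by
    have : μ (Iio 2)ᶜ = 0 := measure_mono_null (t := (Ico (0:ℝ) 2)ᶜ) (fun y hy h => hy h.2) hs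
    have h2 := prob_add_prob_compl (μ := μ) (s := Iio (2:ℝ)) measurableSet_Iio
    rw [this, add_zero] at h2
    simp [hF, Measure.real, h2]
  have inv : ∀ u v : ℝ, μ.real (T α 0 ⁻¹' Ico u v) = μ.real (Ico u v) := by
    intro u v
    conv_rhs => rw [← hT]
    rw [map_measureReal_apply (T_meas _ _) measurableSet_Ico]
  have r1 : ∀ x, 0 ≤ x → x ≤ α → F (x + α) - F α = F x := by
    intro x a b
    have := inv α (x + α)
    rw [pre1 h0 h1 b, real_Ico μ a, real_Ico μ (by linarith)] at this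
    simp only [hF] at hF0 ⊢; linarith
  have r2 : ∀ x, α ≤ x → x ≤ 1 → F (x + 1) - F (1 + α) = F x - F α := by
    intro x a b
    have := inv (1 + α) (x + 1)
    rw [pre2 h0 h1 b, real_Ico μ a, real_Ico μ (by linarith)] at this
    simp only [hF] at hF0 ⊢; linarith
  have r3 : ∀ x, 0 ≤ x → x ≤ α → F (x + 1) - F 1 = F x := by
    intro x a b
    have := inv 0 x
    rw [pre3 h0 h1 b, real_Ico μ a, real_Ico μ (by linarith)] at this
    simp only [hF] at hF0 ⊢; linarith
  have r4 : ∀ x, α ≤ x → x ≤ 1 → F (x + α) - F (α + α) = F (x + 1) - F (1 + α) := by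
    intro x a b
    have := inv (α + α) (x + α)
    rw [pre4 h0 h1 b, real_Ico μ (by linarith), real_Ico μ (by linarith)] at this
    simp only [hF] at hF0 ⊢; linarith
  have q1 : F (1 + α) = F 1 + F α := by
    have := r3 α h0.le le_rfl
    rw [add_comm α 1] at this; linarith
  have p1 : ∀ x, 0 ≤ x → x ≤ 1 → F (x + 1) = F x + F 1 := by
    intro x a b
    rcases le_total x α with c | c
    · have := r3 x a c; linarith
    · have := r2 x c b; linarith
  have f1 : F 1 = 1 / 2 := by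
    have := p1 1 zero_le_one le_rfl
    rw [show (1:ℝ) + 1 = 2 by norm_num] at this; linarith
  have pa : ∀ x, 0 ≤ x → x ≤ 1 → F (x + α) = F x + F α := by
    intro x a b
    rcases le_total x α with c | c
    · have := r1 x a c; linarith
    · have := r4 x c b
      have := r1 α h0.le le_rfl
      have := p1 x a b
      linarith
  set G : ℝ → ℝ := fun x => F (Int.fract x) + (⌊x⌋ : ℝ) / 2 with hG
  have GF : ∀ (n : ℤ) (y : ℝ), 0 ≤ y → y ≤ 2 → G (y + n) = F y + n / 2 := by
    intro n y a b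
    simp only [hG, Int.fract_add_intCast, Int.floor_add_intCast]
    rcases lt_or_ge y 1 with c | c
    · rw [Int.fract_eq_self.2 ⟨a, c⟩, Int.floor_eq_zero_iff.2 ⟨a, c⟩]; simp
    rcases lt_or_eq_of_le b with d | d
    · have e : ⌊y⌋ = 1 := Int.floor_eq_iff.2 ⟨by simpa using c, by push_cast; linarith⟩
      have := p1 (y - 1) (by linarith) (by linarith)
      rw [Int.fract, e]; push_cast
      rw [sub_add_cancel] at this; linarith
    · subst d
      have e : ⌊(2:ℝ)⌋ = 2 := by simp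
      rw [Int.fract, e]; push_cast
      rw [sub_self, hF0, hF2]; ring
  have hGm : Monotone G := by
    intro a b hab
    simp only [hG]
    rcases lt_or_eq_of_le (Int.floor_le_floor hab) with c | c
    · have c' : (⌊a⌋ : ℝ) + 1 ≤ ⌊b⌋ := by exact_mod_cast c
      have := hFm (Int.fract_lt_one a).le
      have := hFm (Int.fract_nonneg b)
      linarith
    · have : Int.fract a ≤ Int.fract b := by
        simp only [Int.fract, c]; linarith
      have := hFm this
      rw [c]; linarith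
  have key := mono_lin (c := F α) hirr G hGm (by simpa [hG] using hF0)
    (fun x => by
      simp only [hG, Int.fract_add_one, Int.floor_add_one]; push_cast; ring)
    (fun x => by
      have a := GF ⌊x⌋ (Int.fract x + α) (by linarith [Int.fract_nonneg x])
        (by linarith [Int.fract_lt_one x])
      rw [show Int.fract x + α + ⌊x⌋ = x + α by rw [Int.fract]; ring] at a
      rw [a, pa _ (Int.fract_nonneg x) (Int.fract_lt_one x).le]
      simp only [hG]; ring) x
  have := GF 0 x hx0 hx2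
  simp only [Int.cast_zero, add_zero, zero_div] at this
  rw [← key, this]

lemma uniq {α : ℝ} (h0 : 0 < α) (h1 : α < 1) (hirr : Irrational α) (μ ν : Measure ℝ)
    [IsProbabilityMeasure μ] (hs : μ (Ico (0:ℝ) 2)ᶜ = 0) (hT : μ.map (T α 0) = μ)
    [IsProbabilityMeasure ν] (hs' : ν (Ico (0:ℝ) 2)ᶜ = 0) (hT' : ν.map (T α 0) = ν) : μ = ν := by
  have cdf : ∀ (μ : Measure ℝ) [IsProbabilityMeasure μ], μ (Ico (0:ℝ) 2)ᶜ = 0 →
      μ.map (T α 0) = μ → ∀ x, μ.real (Iio x) = max 0 (min x 2) / 2 := by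
    intro μ _ hs hT x
    rcases le_total x 0 with a | a
    · have : μ (Iio x) = 0 :=
        measure_mono_null (t := (Ico (0:ℝ) 2)ᶜ) (fun y hy h => absurd (lt_of_lt_of_le hy a) (not_lt.2 h.1)) hs
      rw [min_eq_left (by linarith), max_eq_left a]
      simp [Measure.real, this]
    rcases le_total x 2 with b | b
    · rw [min_eq_left b, max_eq_right a]; exact cdf_eq h0 h1 hirr μ hs hT x a b
    · have : μ (Iio x)ᶜ = 0 := measure_mono_null (t := (Ico (0:ℝ) 2)ᶜ) (fun y hy h => hy (lt_of_lt_of_le h.2 b)) hs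
      have h2 := prob_add_prob_compl (μ := μ) (s := Iio x) measurableSet_Iio
      rw [this, add_zero] at h2
      rw [min_eq_right b, max_eq_right (by norm_num)]
      simp [Measure.real, h2]
  refine Measure.ext_of_Ico_finite μ ν (by simp) fun a b hab => ?_
  rw [← measureReal_eq_measureReal_iff (measure_ne_top _ _) (measure_ne_top _ _), real_Ico μ hab.le,
    real_Ico ν hab.le, cdf μ hs hT, cdf μ hs hT, cdf ν hs' hT', cdf ν hs' hT']

instance : IsProbabilityMeasure mu0 := ⟨by
  simp only [mu0, Measure.smul_apply, Measure.restrict_apply MeasurableSet.univ, univ_inter,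
    Real.volume_Ico, smul_eq_mul, sub_zero]
  rw [ENNReal.ofReal_ofNat]
  exact ENNReal.inv_mul_cancel (by norm_num) (by norm_num)⟩

lemma map_piece (f : ℝ → ℝ) (u v d : ℝ) (h : ∀ x ∈ Ico u v, f x = x + d) :
    (volume.restrict (Ico u v)).map f = volume.restrict (Ico (u + d) (v + d)) := by
  have e : (volume.restrict (Ico u v)).map f = (volume.restrict (Ico u v)).map (fun x => x + d) :=
    Measure.map_congr ((ae_restrict_iff' measurableSet_Ico).2 (Filter.Eventually.of_forall h))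
  rw [e]
  have := ((measurePreserving_add_right (volume : Measure ℝ) d).restrict_preimage
    (measurableSet_Ico (a := u + d) (b := v + d))).map_eq
  rw [← this]
  congr 2
  ext x; simp

lemma split (u v w : ℝ) (a : u ≤ v) (b : v ≤ w) :
    (volume : Measure ℝ).restrict (Ico u w) = volume.restrict (Ico u v) + volume.restrict (Ico v w) := by
  rw [← Ico_union_Ico_eq_Ico a b, Measure.restrict_union _ measurableSet_Ico]
  rw [Set.disjoint_left]; intro x p q; exact absurd p.2 (not_lt.2 q.1)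

lemma mu0_inv {α : ℝ} (h0 : 0 < α) (h1 : α < 1) : mu0.map (T α 0) = mu0 := by
  unfold mu0
  rw [Measure.map_smul]
  congr 1
  have tc := T_cases h0 h1 (le_refl (0:ℝ))
  have m1 := map_piece (T α 0) 0 α α (fun x hx => by
    obtain ⟨p, q⟩ := hx
    rcases tc x with ⟨a, e⟩ | ⟨a, b, e⟩ | ⟨a, b, e⟩ | ⟨a, b, e⟩ | ⟨a, b, e⟩ | ⟨a, e⟩ <;> linarith)
  have m2 := map_piece (T α 0) α 1 1 (fun x hx => by
    obtain ⟨p, q⟩ := hx
    rcases tc x with ⟨a, e⟩ | ⟨a, b, e⟩ | ⟨a, b, e⟩ | ⟨a, b, e⟩ | ⟨a, b, e⟩ | ⟨a, e⟩ <;> linarith)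
  have m3 := map_piece (T α 0) 1 (1 + α) (-1) (fun x hx => by
    obtain ⟨p, q⟩ := hx
    rcases tc x with ⟨a, e⟩ | ⟨a, b, e⟩ | ⟨a, b, e⟩ | ⟨a, b, e⟩ | ⟨a, b, e⟩ | ⟨a, e⟩ <;> linarith)
  have m4 := map_piece (T α 0) (1 + α) 2 (α - 1) (fun x hx => by
    obtain ⟨p, q⟩ := hx
    rcases tc x with ⟨a, e⟩ | ⟨a, b, e⟩ | ⟨a, b, e⟩ | ⟨a, b, e⟩ | ⟨a, b, e⟩ | ⟨a, e⟩ <;> linarith)
  conv_lhs => rw [split 0 α 2 h0.le (by linarith), split α 1 2 h1.le (by linarith),
    split 1 (1 + α) 2 (by linarith) (by linarith)]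
  rw [Measure.map_add _ _ (T_meas _ _), Measure.map_add _ _ (T_meas _ _),
    Measure.map_add _ _ (T_meas _ _), m1, m2, m3, m4,
    split 0 α 2 h0.le (by linarith), split α (α + α) 2 (by linarith) (by linarith),
    split (α + α) (1 + α) 2 (by linarith) (by linarith)]
  rw [show (0:ℝ) + α = α by ring, show α + 1 = 1 + α by ring, show (1:ℝ) + 1 = 2 by ring,
    show (1:ℝ) + -1 = 0 by ring, show 1 + α + -1 = α by ring, show 1 + α + (α - 1) = α + α by ring,
    show 2 + (α - 1) = 1 + α by ring]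
  abel

lemma ue {α : ℝ} (h0 : 0 < α) (h1 : α < 1) (hirr : Irrational α) :
    ∃! μ : Measure ℝ, IsProbabilityMeasure μ ∧ μ (Ico (0:ℝ) 2)ᶜ = 0 ∧ μ.map (T α 0) = μ := by
  have hs : mu0 (Ico (0:ℝ) 2)ᶜ = 0 := by
    simp [mu0, Measure.restrict_apply (measurableSet_Ico (a := (0:ℝ)) (b := 2)).compl]
  refine ⟨mu0, ⟨inferInstance, hs, mu0_inv h0 h1⟩, ?_⟩
  rintro ν ⟨hν, hs', hT'⟩
  exact uniq h0 h1 hirr ν mu0 hs' hT' hs (mu0_inv h0 h1)

lemma not_ue {α t : ℝ} (h0 : 0 < α) (h1 : α < 1) (ht : 0 < t) :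
    ¬ ∃! μ : Measure ℝ, IsProbabilityMeasure μ ∧ μ (Ico (0:ℝ) (2 + 2 * t))ᶜ = 0 ∧
      μ.map (T α t) = μ := by
  intro h
  have tc := T_cases h0 h1 ht.le
  have good : ∀ x, α ≤ x → x < α + t →
      IsProbabilityMeasure ((2 : ENNReal)⁻¹ • (Measure.dirac x + Measure.dirac (x + (1 + t)))) ∧
      ((2 : ENNReal)⁻¹ • (Measure.dirac x + Measure.dirac (x + (1 + t)))) (Ico (0:ℝ) (2 + 2 * t))ᶜ = 0 ∧
      ((2 : ENNReal)⁻¹ • (Measure.dirac x + Measure.dirac (x + (1 + t)))).map (T α t) =
        ((2 : ENNReal)⁻¹ • (Measure.dirac x + Measure.dirac (x + (1 + t)))) := by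
    intro x p q
    have e1 : T α t x = x + (1 + t) := by
      rcases tc x with ⟨a, e⟩ | ⟨a, b, e⟩ | ⟨a, b, e⟩ | ⟨a, b, e⟩ | ⟨a, b, e⟩ | ⟨a, e⟩ <;> linarith
    have e2 : T α t (x + (1 + t)) = x := by
      rcases tc (x + (1 + t)) with
        ⟨a, e⟩ | ⟨a, b, e⟩ | ⟨a, b, e⟩ | ⟨a, b, e⟩ | ⟨a, b, e⟩ | ⟨a, e⟩ <;> linarith
    refine ⟨⟨?_⟩, ?_, ?_⟩
    · simp only [Measure.smul_apply, Measure.add_apply, measure_univ, smul_eq_mul]
      rw [one_add_one_eq_two]
      exact ENNReal.inv_mul_cancel (by norm_num) (by norm_num)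
    · have m1 : x ∈ Ico (0:ℝ) (2 + 2 * t) := ⟨by linarith, by linarith⟩
      have m2 : x + (1 + t) ∈ Ico (0:ℝ) (2 + 2 * t) := ⟨by linarith, by linarith⟩
      simp only [Measure.smul_apply, Measure.add_apply, smul_eq_mul]
      rw [Measure.dirac_apply' _ measurableSet_Ico.compl, Measure.dirac_apply' _ measurableSet_Ico.compl,
        indicator_of_notMem (by simpa using m1), indicator_of_notMem (by simpa using m2)]
      simp
    · rw [Measure.map_smul, Measure.map_add _ _ (T_meas _ _), Measure.map_dirac' (T_meas _ _),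
        Measure.map_dirac' (T_meas _ _), e1, e2, add_comm]
  have := h.unique (good α le_rfl (by linarith)) (good (α + t / 2) (by linarith) (by linarith))
  have := congrArg (fun μ : Measure ℝ => μ {α}) this
  simp only [Measure.smul_apply, Measure.add_apply, smul_eq_mul] at this
  rw [Measure.dirac_apply' _ (measurableSet_singleton _), Measure.dirac_apply' _ (measurableSet_singleton _),
    Measure.dirac_apply' _ (measurableSet_singleton _), Measure.dirac_apply' _ (measurableSet_singleton _),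
    indicator_of_mem (by simp), indicator_of_notMem (by simp; linarith),
    indicator_of_notMem (by simp; linarith), indicator_of_notMem (by
      simp only [mem_singleton_iff]; intro h; linarith)] at this
  simp at this

end Pool.Agent.H29.IET
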