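import Mathlib

set_option autoImplicit false

namespace Pool.Agent.H29.ILE

open Set Relation SimpleGraph

abbrev Gr : Type := SimpleGraph ℕ

def B (G : Gr) (v w : ℕ) : Set ℕ := {z | ReflTransGen (fun a b => G.Adj a b ∧ a ≠ v ∧ b ≠ v) w z}

def core (G : Gr) (v w : ℕ) : Prop := G.Adj v w ∧ (B G v w).Infinite ∧ (B G w v).Infinite

def out (G : Gr) (v w : ℕ) : Prop := G.Adj v w ∧ ¬ (B G w v).Infinite

variable {G : Gr} {u v w : ℕ}

lemma core.symm (h : core G v w) : core G w v := ⟨h.1.symm, h.2.2, h.2.1⟩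

lemma self_mem : w ∈ B G v w := ReflTransGen.refl

lemma not_mem_B (h : G.Adj v w) : v ∉ B G v w := by
  intro hv
  rcases ReflTransGen.cases_tail hv with e | ⟨c, -, hc⟩
  · exact h.ne e
  · exact hc.2.2 rfl

lemma cover (hG : G.Connected) (v z : ℕ) : z = v ∨ ∃ w, G.Adj v w ∧ z ∈ B G v w := by
  have := (reachable_iff_reflTransGen _ _).1 (hG v z)
  induction this with
  | refl => exact Or.inl rfl
  | @tail a b _ hab ih =>
    by_cases h1 : b = v
    · exact Or.inl h1
    by_cases h2 : a = v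
    · exact Or.inr ⟨b, h2 ▸ hab, self_mem⟩
    obtain ⟨w, hw, hz⟩ := ih.resolve_left h2
    exact Or.inr ⟨w, hw, hz.tail ⟨hab, h2, h1⟩⟩

lemma disj (hG : G.IsAcyclic) (h1 : G.Adj v w) (h2 : G.Adj v u) (hne : w ≠ u) : u ∉ B G v w := by
  intro hu
  apply isBridge_iff.1 (isAcyclic_iff_forall_adj_isBridge.1 hG h2)
  refine (Adj.reachable (v := w) ?_).trans ((reachable_iff_reflTransGen _ _).2 (ReflTransGen.mono ?_ _ _ hu))
  · simp [h1, hne, h2.ne]
  · rintro a b ⟨h, ha, hb⟩
    simp [h, ha, hb]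

lemma sub (hG : G.IsAcyclic) (h1 : G.Adj v w) (h2 : G.Adj v u) (hne : w ≠ u) :
    B G v w ⊆ B G u v := by
  intro z hz
  induction hz with
  | refl => exact ReflTransGen.single ⟨h1, h2.ne, hne⟩
  | @tail a b ha hab ih =>
    exact ih.tail ⟨hab.1, fun e => disj hG h1 h2 hne (e ▸ ha),
      fun e => disj hG h1 h2 hne (e ▸ ha.tail hab)⟩

lemma split {z : ℕ} (hz : z ∈ B G w v) : z = v ∨ ∃ u, G.Adj v u ∧ u ≠ w ∧ z ∈ B G v u := by
  induction hz with
  | refl => exact Or.inl rfl
  | @tail a b _ hab ih =>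
    by_cases h1 : b = v
    · exact Or.inl h1
    by_cases h2 : a = v
    · exact Or.inr ⟨b, h2 ▸ hab.1, hab.2.2, self_mem⟩
    obtain ⟨w, hw, hw', hz⟩ := ih.resolve_left h2
    exact Or.inr ⟨w, hw, hw', hz.tail ⟨hab.1, h2, h1⟩⟩

lemma two_sides (hG : G.IsTree) (h : G.Adj v w) : (B G v w).Infinite ∨ (B G w v).Infinite := by
  rw [← infinite_union]
  refine infinite_univ.mono fun z _ => ?_
  rcases cover hG.connected v z with rfl | ⟨u, hu, hz⟩
  · exact Or.inr self_mem
  · by_cases e : u = w
    · exact Or.inl (e ▸ hz)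
    · exact Or.inr (sub hG.isAcyclic hu h e hz)

lemma core_two (hG : G.IsTree) (hf : (G.neighborSet v).Finite) (h : core G v w) :
    ∃ u, u ≠ w ∧ core G v u := by
  by_contra hc
  push Not at hc
  refine h.2.2 (((hf.subset (fun u (hu : G.Adj v u ∧ u ≠ w) => hu.1)).biUnion
    (t := fun u => B G v u) fun u hu => ?_).insert v |>.subset fun z hz => ?_)
  · by_contra hi
    exact hc u hu.2 ⟨hu.1, hi, h.2.1.mono (sub hG.isAcyclic h.1 hu.1 hu.2.symm)⟩
  · rcases split hz with e | ⟨u, h1, h2, h3⟩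
    · exact Or.inl e
    · exact Or.inr (mem_biUnion (show u ∈ {u | G.Adj v u ∧ u ≠ w} from ⟨h1, h2⟩) h3)

lemma out_other (hG : G.IsTree) (h : out G v w) (hu : G.Adj v u) (hne : u ≠ w) : out G u v :=
  ⟨hu.symm, fun hi => h.2 (hi.mono (sub hG.isAcyclic hu h.1 hne))⟩

lemma out_asymm (hG : G.IsTree) (h : out G v w) : ¬ out G w v := fun h' =>
  (two_sides hG h.1).elim h'.2 h.2

lemma out_unique (hG : G.IsTree) (h : out G v w) (h' : out G v u) : u = w := by
  by_contra hne
  exact out_asymm hG h' (out_other hG h h'.1 hne)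

lemma out_le (hG : G.IsTree) (v : ℕ) : {w | out G v w}.encard ≤ 1 :=
  encard_le_one_iff.2 fun _ _ ha hb => out_unique hG hb ha

lemma deg1 (G : Gr) (v : ℕ) : (G.neighborSet v).encard
    ≤ {w | core G v w}.encard + {w | out G v w}.encard + {w | out G w v}.encard := by
  refine le_trans (encard_le_encard fun w hw => ?_)
    ((encard_union_le _ _).trans (add_le_add_left (encard_union_le _ _) _))
  by_cases h1 : (B G w v).Infinite
  · by_cases h2 : (B G v w).Infinite
    · exact Or.inl (Or.inl ⟨hw, h2, h1⟩)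
    · exact Or.inr ⟨Adj.symm hw, h2⟩
  · exact Or.inl (Or.inr ⟨hw, h1⟩)

lemma deg2 (hG : G.IsTree) {d : ℕ} (hd : (G.neighborSet v).encard ≤ d) :
    (G.neighborSet v).encard + d * {w | out G v w}.encard
      ≤ d + {w | out G v w}.encard + {w | out G w v}.encard := by
  rcases encard_le_one_iff_eq.1 (out_le hG v) with e | ⟨w, e⟩
  · rw [e, encard_empty, mul_zero, add_zero, add_zero]; exact le_add_right hd
  · have hw : out G v w := by have := e ▸ mem_singleton w; exact this
    rw [e, encard_singleton, mul_one, add_comm, add_assoc, add_comm 1]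
    gcongr
    refine le_trans (encard_le_encard fun u hu => ?_) (encard_insert_le _ w)
    by_cases h : u = w
    · exact Or.inl h
    · exact Or.inr (out_other hG hw hu h)

def leaf (G : Gr) (v : ℕ) : Prop := (G.neighborSet v).encard = 1

lemma deg3 (hG : G.IsTree) (hd : (G.neighborSet v).encard ≤ 2) :
    {w | out G w v}.encard ≤ {w | out G v w}.encard ∧
      (leaf G v → {w | out G w v}.encard + 1 ≤ {w | out G v w}.encard) := by
  have hf : (G.neighborSet v).Finite := finite_of_encard_le_coe (k := 2) hd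
  have three : ∀ a b c, G.Adj v a → G.Adj v b → G.Adj v c → a ≠ b → a ≠ c → b ≠ c → False := by
    intro a b c ha hb hc h1 h2 h3
    have : ({a, b, c} : Set ℕ).encard ≤ 2 := (encard_le_encard (by
      rintro z (rfl | rfl | rfl) <;> assumption)).trans hd
    rw [encard_eq_three.2 ⟨a, b, c, h1, h2, h3, rfl⟩] at this
    exact absurd this (by decide)
  constructor
  · rcases encard_le_one_iff_eq.1 (out_le hG v) with e | ⟨w, e⟩
    · have no : ∀ w, ¬ out G v w := fun w hw => by
        have : w ∈ {w | out G v w} := hw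
        rw [e] at this; exact this
      rw [e, encard_empty, nonpos_iff_eq_zero, encard_eq_zero, eq_empty_iff_forall_notMem]
      intro u hu
      have : ∃ a, G.Adj v a ∧ (B G v a).Infinite := by
        by_contra hc
        push Not at hc
        refine infinite_univ ((hf.biUnion (t := fun u => B G v u) fun u hu => hc u hu).insert v
          |>.subset fun z _ => ?_)
        rcases cover hG.connected v z with e | ⟨u, h1, h3⟩
        · exact Or.inl e
        · exact Or.inr (mem_biUnion (show u ∈ G.neighborSet v from h1) h3)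
      obtain ⟨a, h1, h2⟩ := this
      have ca : core G v a := ⟨h1, h2, by by_contra hc; exact no a ⟨h1, hc⟩⟩
      obtain ⟨b, hb, cb⟩ := core_two hG hf ca
      exact three a b u h1 cb.1 hu.1.symm hb.symm (fun e => hu.2 (e ▸ h2))
        (fun e => hu.2 (e ▸ cb.2.1))
    · have hw : out G v w := by have := e ▸ mem_singleton w; exact this
      rw [e, encard_singleton]
      refine encard_le_one_iff.2 fun a b ha hb => ?_
      by_contra hne
      exact three a b w ha.1.symm hb.1.symm hw.1 hne (fun e => out_asymm hG hw (e ▸ ha))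
        (fun e => out_asymm hG hw (e ▸ hb))
  · intro hl
    obtain ⟨w, e⟩ := encard_eq_one.1 hl
    have k : ∀ u, G.Adj v u ↔ u = w := fun u => by
      rw [← mem_neighborSet, e, mem_singleton_iff]
    have hw : out G v w := ⟨(k w).2 rfl, not_not.2 ((finite_singleton v).subset fun z hz => by
      rcases split hz with e | ⟨u, h1, h2, -⟩
      · exact e
      · exact absurd ((k u).1 h1) h2)⟩
    have : {w | out G w v} = ∅ := eq_empty_iff_forall_notMem.2 fun u hu =>
      out_asymm hG hw ((k u).1 hu.1.symm ▸ hu)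
    rw [this, encard_empty, zero_add]
    exact one_le_encard_iff_nonempty.2 ⟨w, hw⟩

lemma no_out (hG : G.IsTree) (hl : ∀ v, ¬ leaf G v) (v w : ℕ) : ¬ out G v w := by
  induction h : (B G w v).ncard using Nat.strong_induction_on generalizing v w with
  | _ n ih =>
    intro ho
    have : ∃ u, G.Adj v u ∧ u ≠ w := by
      by_contra hc
      push Not at hc
      exact hl v (encard_eq_one.2 ⟨w, eq_singleton_iff_unique_mem.2 ⟨ho.1, hc⟩⟩)
    obtain ⟨u, h1, h2⟩ := this
    refine ih _ ?_ u v rfl (out_other hG ho h1 h2)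
    rw [← h]
    exact ncard_lt_ncard ⟨sub hG.isAcyclic h1 ho.1 h2, fun hs => not_mem_B h1 (hs self_mem)⟩
      (not_not.1 ho.2)

def tr {Ω : Type} (T : ℕ → ℕ → Equiv.Perm Ω) : {a b : ℕ} → G.Walk a b → Ω → Ω
  | _, _, .nil, ω => ω
  | a, _, .cons (v := c) _ p, ω => tr T p ((T c a).symm (T a c ω))

lemma tr_concat {Ω : Type} (T : ℕ → ℕ → Equiv.Perm Ω) {a b c : ℕ} (p : G.Walk a b)
    (h : G.Adj b c) (ω : Ω) : tr T (p.concat h) ω = (T c b).symm (T b c (tr T p ω)) := by
  induction p generalizing ω with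
  | nil => rfl
  | cons h' p ih => simp only [Walk.concat_cons, tr, ih]

lemma flat_ex (hG : G.IsTree) {Ω : Type} (T : ℕ → ℕ → Equiv.Perm Ω) (x : ℕ) (ω : Ω) :
    ∃ s : ℕ → Ω, s x = ω ∧ ∀ a b, G.Adj a b → T a b (s a) = T b a (s b) := by
  choose p hp hu using fun v => hG.existsUnique_path x v
  refine ⟨fun v => tr T (p v) ω, ?_, fun a b h => ?_⟩
  · simp only [← hu x .nil .nil, tr]
  · by_cases ha : a ∈ (p b).support
    · simp only [hG.isAcyclic.path_concat (hp a) (hp b) h ha, tr_concat, Equiv.apply_symm_apply]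
    · have := hG.isAcyclic.mem_support_of_ne_mem_support_of_adj_of_isPath (hp a) (hp b) h ha
      simp only [hG.isAcyclic.path_concat (hp b) (hp a) h.symm this, tr_concat,
        Equiv.apply_symm_apply]

lemma flat_iff (hG : G.Connected) {Ω : Type} (T : ℕ → ℕ → Equiv.Perm Ω) {s : ℕ → Ω}
    (hs : ∀ a b, G.Adj a b → T a b (s a) = T b a (s b)) (x : ℕ) (q : ℕ × Ω) :
    ReflTransGen (fun p q : ℕ × Ω => G.Adj p.1 q.1 ∧ T p.1 q.1 p.2 = T q.1 p.1 q.2) (x, s x) q
      ↔ q.2 = s q.1 := by
  constructor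
  · intro h
    induction h with
    | refl => rfl
    | @tail a b _ hab ih =>
      have := hab.2
      rw [ih, hs _ _ hab.1] at this
      exact ((T _ _).injective this).symm
  · obtain ⟨v, j⟩ := q
    intro e
    obtain rfl : j = s v := e
    have := (reachable_iff_reflTransGen _ _).1 (hG x v)
    induction this with
    | refl => exact .refl
    | tail _ hab ih => exact ih.tail ⟨hab, hs _ _ hab⟩

end Pool.Agent.H29.ILE
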