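import Pool.Agent.H29.ILE1

set_option autoImplicit false

namespace Pool.Agent.H29.ILE

open Set Relation SimpleGraph
open scoped Classical

def It {α : Type} (r : α → α → Prop) : ℕ → α → α → Prop
  | 0, a, b => a = b
  | n + 1, a, b => ∃ c, It r n a c ∧ r c b

lemma rtg_iff {α : Type} (r : α → α → Prop) (a b : α) : ReflTransGen r a b ↔ ∃ n, It r n a b := by
  constructor
  · intro h
    induction h with
    | refl => exact ⟨0, rfl⟩
    | tail _ h ih => obtain ⟨n, hn⟩ := ih; exact ⟨n + 1, _, hn, h⟩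
  · rintro ⟨n, h⟩
    induction n generalizing b with
    | zero => obtain rfl : a = b := h; exact .refl
    | succ n ih => obtain ⟨c, h1, h2⟩ := h; exact (ih c h1).tail h2

lemma meas_rtg {α X : Type} [Countable α] [MeasurableSpace X] {r : X → α → α → Prop}
    (h : ∀ a b, Measurable fun x => r x a b) (a b : α) :
    Measurable fun x => ReflTransGen (r x) a b := by
  simp only [rtg_iff]
  refine Measurable.exists fun n => ?_
  induction n generalizing b with
  | zero => exact measurable_const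
  | succ n ih => exact Measurable.exists fun c => (ih c).and (h c b)

lemma rtg_equiv {α : Type} (r : α → α → Prop) (e : α ≃ α) (a b : α) :
    ReflTransGen (fun a b => r (e a) (e b)) a b ↔ ReflTransGen r (e a) (e b) := by
  constructor
  · intro h
    induction h with
    | refl => exact .refl
    | tail _ h ih => exact ih.tail h
  · intro h
    obtain ⟨c, hc⟩ : ∃ c, c = e b := ⟨_, rfl⟩
    rw [← hc] at h
    induction h generalizing b with
    | refl => rw [e.injective hc]
    | @tail p q _ h ih =>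
      exact (ih (e.symm p) (by simp)).tail (by simpa [← hc] using h)

lemma encard_pre (σ : Equiv.Perm ℕ) (S : Set ℕ) : (σ ⁻¹' S).encard = S.encard := by
  rw [← σ.injective.encard_image, σ.surjective.image_preimage]

lemma ncard_pre (σ : Equiv.Perm ℕ) (S : Set ℕ) : (σ ⁻¹' S).ncard = S.ncard := by
  rw [ncard, encard_pre, ncard]

lemma madj (a b : ℕ) : Measurable fun G : Gr => G.Adj a b := by fun_prop

lemma mB (v w : ℕ) : Measurable fun G : Gr => (B G v w).Infinite := by
  simp only [← encard_eq_top_iff]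
  have : Measurable fun G : Gr => B G v w := measurable_set_iff.2 fun z =>
    meas_rtg (fun a b => (madj a b).and measurable_const) w z
  exact (measurable_of_countable fun n : ℕ∞ => n = ⊤).comp (measurable_encard.comp this)

lemma mcore (v w : ℕ) : Measurable fun G : Gr => core G v w := (madj v w).and ((mB v w).and (mB w v))

lemma mout (v w : ℕ) : Measurable fun G : Gr => out G v w := (madj v w).and (mB w v).not

lemma mleaf (v : ℕ) : Measurable fun G : Gr => leaf G v :=
  (measurable_of_countable fun n : ℕ∞ => n = 1).comp (measurable_encard.comp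
    (measurable_set_iff.2 fun z => madj v z))

lemma B_comap (G : Gr) (σ : Equiv.Perm ℕ) (v w : ℕ) :
    (B (G.comap σ) v w).Infinite ↔ (B G (σ v) (σ w)).Infinite := by
  have : B (G.comap σ) v w = σ ⁻¹' B G (σ v) (σ w) := by
    ext z
    simp only [B, mem_preimage, mem_ofPred_eq, ← rtg_equiv, comap_adj, ne_eq,
      EmbeddingLike.apply_eq_iff_eq]
  rw [this, ← encard_eq_top_iff, encard_pre, encard_eq_top_iff]

lemma core_comap (G : Gr) (σ : Equiv.Perm ℕ) (v w : ℕ) :
    core (G.comap σ) v w ↔ core G (σ v) (σ w) := by simp only [core, B_comap, comap_adj]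

lemma out_comap (G : Gr) (σ : Equiv.Perm ℕ) (v w : ℕ) :
    out (G.comap σ) v w ↔ out G (σ v) (σ w) := by simp only [out, B_comap, comap_adj]

lemma deg_comap (G : Gr) (σ : Equiv.Perm ℕ) (v : ℕ) :
    ((G.comap σ).neighborSet v).encard = (G.neighborSet (σ v)).encard := encard_pre σ _

noncomputable def kk (G : Gr) (v : ℕ) : ℕ := {u | core G v u}.ncard

noncomputable def rk (G : Gr) (U : ℕ → ℝ) (v w : ℕ) : ℕ := {u | core G v u ∧ U u < U w}.ncard

def mem (k r j : ℕ) : Prop := j < k ∧ (r = j ∨ r = (j + 1) % k)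

noncomputable def τ (d k r : ℕ) : Equiv.Perm (Fin d) :=
  if h : ∃ e : Equiv.Perm (Fin d), ∀ j : Fin d, mem k r j ↔ (e j : ℕ) < 2 then h.choose else 1

lemma τ_spec {d k r : ℕ} (h2 : 2 ≤ k) (hd : k ≤ d) (hr : r < k) (j : Fin d) :
    mem k r j ↔ (τ d k r j : ℕ) < 2 := by
  have : ∃ e : Equiv.Perm (Fin d), ∀ j : Fin d, mem k r j ↔ (e j : ℕ) < 2 := by
    let a : Fin d := ⟨r, by omega⟩
    let b : Fin d := ⟨if r = 0 then k - 1 else r - 1, by split_ifs <;> omega⟩
    let z : Fin d := ⟨0, by omega⟩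
    let o : Fin d := ⟨1, by omega⟩
    have ab : a ≠ b := fun e => by
      have := congrArg Fin.val e
      simp only [a, b] at this; split_ifs at this <;> omega
    obtain ⟨e, he⟩ := Equiv.Perm.exists_extending_pair (f := ![a, b]) (g := ![z, o])
      (by intro i j; fin_cases i <;> fin_cases j <;> simp [ab, ab.symm])
      (by intro i j; fin_cases i <;> fin_cases j <;> simp [z, o])
    have e1 : e a = z := he 0
    have e2 : e b = o := he 1
    refine ⟨e, fun j => ?_⟩
    have k1 : mem k r j ↔ j = a ∨ j = b := by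
      simp only [mem, Fin.ext_iff, a, b]
      by_cases hj : (j : ℕ) + 1 < k
      · rw [Nat.mod_eq_of_lt hj]; split_ifs <;> omega
      · by_cases hj' : (j : ℕ) + 1 = k
        · rw [hj', Nat.mod_self]; split_ifs <;> omega
        · split_ifs <;> omega
    rw [k1, ← e.injective.eq_iff, ← e.injective.eq_iff (a := j) (b := b), e1, e2]
    simp only [Fin.ext_iff, z, o]; omega
  rw [τ, dif_pos this]; exact this.choose_spec j

noncomputable def T (d : ℕ) (G : Gr) (U : ℕ → ℝ) (v w : ℕ) : Equiv.Perm (Fin d) :=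
  if core G v w then τ d (kk G v) (rk G U v w) else 1

def Rl (d : ℕ) (G : Gr) (U : ℕ → ℝ) : ℕ × Fin d → ℕ × Fin d → Prop :=
  ReflTransGen fun p q => G.Adj p.1 q.1 ∧ T d G U p.1 q.1 p.2 = T d G U q.1 p.1 q.2

def L (d : ℕ) (G : Gr) (U : ℕ → ℝ) (x : ℕ × Fin d) : Gr where
  Adj v w := core G v w ∧ (∃ j, Rl d G U x (v, j) ∧ (T d G U v w j : ℕ) < 2) ∧
    ∃ j, Rl d G U x (w, j) ∧ (T d G U w v j : ℕ) < 2
  symm := ⟨fun _ _ h => ⟨h.1.symm, h.2.2, h.2.1⟩⟩
  loopless := ⟨fun _ h => h.1.1.ne rfl⟩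

lemma mT (d v w : ℕ) (j : Fin d) : Measurable fun p : Gr × (ℕ → ℝ) => T d p.1 p.2 v w j := by
  have h1 : Measurable fun p : Gr × (ℕ → ℝ) => kk p.1 v :=
    measurable_ncard.comp (measurable_set_iff.2 fun u => (mcore v u).comp measurable_fst)
  have h2 : Measurable fun p : Gr × (ℕ → ℝ) => rk p.1 p.2 v w :=
    measurable_ncard.comp (measurable_set_iff.2 fun u => ((mcore v u).comp measurable_fst).and
      (measurableSet_setOfPred.1 (measurableSet_lt (by fun_prop) (by fun_prop))))
  have : (fun p : Gr × (ℕ → ℝ) => T d p.1 p.2 v w j) = fun p => if core p.1 v w then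
      τ d (kk p.1 v) (rk p.1 p.2 v w) j else j := by
    ext p; unfold T; split_ifs <;> rfl
  rw [this]
  exact Measurable.ite (measurableSet_setOfPred.2 ((mcore v w).comp measurable_fst))
    ((measurable_of_countable fun q : ℕ × ℕ => τ d q.1 q.2 j).comp (h1.prodMk h2))
    measurable_const

lemma mL (d : ℕ) (x : ℕ × Fin d) : Measurable fun p : Gr × (ℕ → ℝ) => L d p.1 p.2 x := by
  have r : ∀ y, Measurable fun p : Gr × (ℕ → ℝ) => Rl d p.1 p.2 x y := fun y =>
    meas_rtg (fun a b => ((madj _ _).comp measurable_fst).and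
      ((measurable_of_countable fun q : Fin d × Fin d => q.1 = q.2).comp
        ((mT d _ _ _).prodMk (mT d _ _ _)))) x y
  have t : ∀ v w j, Measurable fun p : Gr × (ℕ → ℝ) => (T d p.1 p.2 v w j : ℕ) < 2 := fun v w j =>
    (measurable_of_countable fun q : Fin d => (q : ℕ) < 2).comp (mT d v w j)
  exact measurable_iff_adj.2 fun v w => ((mcore v w).comp measurable_fst).and
    ((Measurable.exists fun j => (r _).and (t _ _ _)).and
      (Measurable.exists fun j => (r _).and (t _ _ _)))

lemma T_comap (d : ℕ) (G : Gr) (U : ℕ → ℝ) (σ : Equiv.Perm ℕ) (v w : ℕ) :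
    T d (G.comap σ) (U ∘ σ) v w = T d G U (σ v) (σ w) := by
  have h1 : kk (G.comap σ) v = kk G (σ v) := by
    simp only [kk, core_comap]; exact ncard_pre σ {u | core G (σ v) u}
  have h2 : rk (G.comap σ) (U ∘ σ) v w = rk G U (σ v) (σ w) := by
    simp only [rk, core_comap]; exact ncard_pre σ {u | core G (σ v) u ∧ U u < U (σ w)}
  simp only [T, h1, h2, core_comap]

lemma L_comap (d : ℕ) (G : Gr) (U : ℕ → ℝ) (σ : Equiv.Perm ℕ) (x : ℕ) (ω : Fin d) :
    L d (G.comap σ) (U ∘ σ) (x, ω) = (L d G U (σ x, ω)).comap σ := by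
  have r : ∀ v j, Rl d (G.comap σ) (U ∘ σ) (x, ω) (v, j) ↔ Rl d G U (σ x, ω) (σ v, j) := by
    intro v j
    simp only [Rl, T_comap]
    exact rtg_equiv (fun p q : ℕ × Fin d =>
      G.Adj p.1 q.1 ∧ T d G U p.1 q.1 p.2 = T d G U q.1 p.1 q.2) (σ.prodCongr (Equiv.refl _))
      (x, ω) (v, j)
  ext v w
  simp only [L, comap_adj, r, core_comap, T_comap]

lemma L_adj {d : ℕ} {G : Gr} (hG : G.IsTree) {U : ℕ → ℝ} {s : ℕ → Fin d}
    (hs : ∀ a b, G.Adj a b → T d G U a b (s a) = T d G U b a (s b)) (x v w : ℕ) :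
    (L d G U (x, s x)).Adj v w ↔ core G v w ∧ (T d G U v w (s v) : ℕ) < 2 := by
  simp only [L, Rl, flat_iff hG.connected _ hs, exists_eq_left]
  exact and_congr_right fun h => by rw [hs v w h.1, and_self]

lemma root_change {d : ℕ} {G : Gr} (hG : G.IsTree) (U : ℕ → ℝ) (x y : ℕ) :
    ∃ e : Equiv.Perm (Fin d), ∀ ω, L d G U (x, ω) = L d G U (y, e ω) := by
  choose s h1 h2 using flat_ex hG (T d G U) x
  have inj : Function.Injective fun ω => s ω y := fun a b (h : s a y = s b y) => by
    have := (flat_iff hG.connected _ (h2 a) y (x, s a x)).2 rfl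
    rw [h, flat_iff hG.connected _ (h2 b)] at this
    rw [← h1 a, ← h1 b]; exact this
  refine ⟨Equiv.ofBijective _ inj.bijective_of_finite, fun ω => ?_⟩
  ext v w
  conv_lhs => rw [← h1 ω]
  exact (L_adj hG (h2 ω) x v w).trans (L_adj hG (h2 ω) y v w).symm

lemma rk_bij {G : Gr} {U : ℕ → ℝ} (hU : Function.Injective U) {v : ℕ}
    (hf : {u | core G v u}.Finite) : BijOn (rk G U v) {u | core G v u} (Iio (kk G v)) := by
  have mt : MapsTo (rk G U v) {u | core G v u} (Iio (kk G v)) := fun w hw =>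
    ncard_lt_ncard ⟨fun u hu => hu.1, fun h => lt_irrefl _ (h hw).2⟩ hf
  have lt : ∀ a b, core G v a → U a < U b → rk G U v a < rk G U v b := fun a b ha h =>
    ncard_lt_ncard ⟨fun u hu => ⟨hu.1, hu.2.trans h⟩, fun h' => lt_irrefl _ (h' ⟨ha, h⟩).2⟩
      (hf.subset fun u hu => hu.1)
  have inj : InjOn (rk G U v) {u | core G v u} := fun a ha b hb e => by
    rcases lt_trichotomy (U a) (U b) with h | h | h
    · exact absurd e (lt a b ha h).ne
    · exact hU h
    · exact absurd e (lt b a hb h).ne'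
  refine ⟨mt, inj, (eq_of_subset_of_ncard_le mt.image_subset ?_ (finite_Iio _)).ge⟩
  rw [inj.ncard_image]; simp [kk]

lemma L_deg {d : ℕ} {G : Gr} (hG : G.IsTree) (hd : ∀ v, (G.neighborSet v).encard ≤ d)
    {U : ℕ → ℝ} (hU : Function.Injective U) (x : ℕ) (ω : Fin d) :
    ∃ s : ℕ → Fin d, s x = ω ∧ ∀ v, ((L d G U (x, ω)).neighborSet v).encard
      = if (s v : ℕ) < kk G v then 2 else 0 := by
  obtain ⟨s, rfl, hs⟩ := flat_ex hG (T d G U) x ω
  refine ⟨s, rfl, fun v => ?_⟩
  have hf := finite_of_encard_le_coe (hd v)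
  have sb : {u | core G v u} ⊆ G.neighborSet v := fun u hu => hu.1
  have hc := hf.subset sb
  have bij := rk_bij hU hc
  have k1 : kk G v ≤ d := by
    have := (encard_le_encard sb).trans (hd v)
    rwa [← hc.cast_ncard_eq, Nat.cast_le] at this
  have k2 : ∀ w, core G v w → 2 ≤ kk G v := fun w hw => by
    obtain ⟨u, h1, h2⟩ := core_two hG hf hw
    exact (one_lt_ncard hc).2 ⟨u, h2, w, hw, h1⟩
  have e : (L d G U (x, s x)).neighborSet v
      = {w | core G v w ∧ mem (kk G v) (rk G U v w) (s v)} := by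
    ext w
    rw [mem_neighborSet, L_adj hG hs]
    exact and_congr_right fun h => by rw [T, if_pos h, τ_spec (k2 w h) k1 (bij.1 h)]
  rw [e]
  split_ifs with h
  · obtain ⟨a, ha, ea⟩ := bij.2.2 h
    have := k2 a ha
    obtain ⟨b, hb, eb⟩ := bij.2.2 (Nat.mod_lt ((s v : ℕ) + 1) (by omega : 0 < kk G v))
    refine encard_eq_two.2 ⟨a, b, ?_, ?_⟩
    · rintro rfl
      rw [ea] at eb
      by_cases hj : (s v : ℕ) + 1 < kk G v
      · rw [Nat.mod_eq_of_lt hj] at eb; omega
      · rw [show (s v : ℕ) + 1 = kk G v by omega, Nat.mod_self] at eb; omega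
    · ext w
      constructor
      · rintro ⟨h1, -, h2 | h2⟩
        · exact Or.inl (bij.2.1 h1 ha (h2.trans ea.symm))
        · exact Or.inr (bij.2.1 h1 hb (h2.trans eb.symm))
      · rintro (rfl | rfl)
        · exact ⟨ha, h, Or.inl ea⟩
        · exact ⟨hb, h, Or.inr eb⟩
  · rw [encard_eq_zero, eq_empty_iff_forall_notMem]
    exact fun w hw => h hw.2.1

end Pool.Agent.H29.ILE
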