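import Mathlib

open Subgroup
open scoped Pointwise

namespace Pool.Agent.H29.Invol
universe u

section
variable {G : Type u} [Group G]

def cls (a : G) : Set G := Set.range fun g => g * a * g⁻¹

noncomputable def ix (a : G) : ℕ := (centralizer ({a} : Set G)).index

lemma cls_card (a : G) : (cls a).ncard = ix a := by
  unfold ix
  rw [centralizer_eq_comap_stabilizer]
  refine Eq.trans ?_ (index_comap_of_surjective _ ConjAct.toConjAct.surjective).symm
  rw [MulAction.index_stabilizer]
  congr 1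

lemma mem_C {a g : G} : g ∈ centralizer ({a} : Set G) ↔ g * a = a * g := by
  rw [mem_centralizer_singleton_iff]

lemma ix_pos [Finite G] (a : G) : 0 < ix a := Nat.pos_of_ne_zero index_ne_zero_of_finite

lemma ix_mul [Finite G] (a b : G) : ix (a * b) ≤ ix a * ix b := by
  refine le_trans (index_antitone ?_) index_inf_le
  intro g hg
  rw [mem_inf, mem_C, mem_C] at hg
  rw [mem_C, ← mul_assoc, hg.1, mul_assoc, hg.2, mul_assoc]

lemma ix_inv (a : G) : ix a⁻¹ = ix a := by
  unfold ix
  congr 1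
  ext g
  rw [mem_C, mem_C]
  exact ⟨fun h => (Commute.inv_right_iff.1 h : Commute g a), fun h => (Commute.inv_right h : Commute g a⁻¹)⟩

lemma ix_one : ix (1 : G) = 1 := by
  unfold ix
  rw [index_eq_one, eq_top_iff]
  intro g _
  rw [mem_C]; simp

lemma ix_conj (a g : G) : ix (g * a * g⁻¹) = ix a := by
  rw [← cls_card, ← cls_card]
  congr 1
  ext x
  constructor
  · rintro ⟨h, rfl⟩; exact ⟨h * g, by simp only; group⟩
  · rintro ⟨h, rfl⟩; exact ⟨h * g⁻¹, by simp only; group⟩

lemma enum [Finite G] (s : Set G) (n : ℕ) (h : s.ncard ≤ n) :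
    ∃ e : Fin n → G, s ⊆ Set.range e := by
  classical
  haveI := Fintype.ofFinite s
  have : Fintype.card s ≤ Fintype.card (Fin n) := by
    rw [Fintype.card_fin, ← Nat.card_eq_fintype_card]; exact h
  obtain ⟨f⟩ := Function.Embedding.nonempty_of_card_le this
  exact ⟨Function.extend f Subtype.val 1, fun x hx =>
    ⟨f ⟨x, hx⟩, f.injective.extend_apply _ _ _⟩⟩

lemma ix_inter [Finite G] (s : Set G) (n : ℕ) (h : ∀ a ∈ s, ix a ≤ n) :
    (centralizer s).index ≤ n ^ s.ncard := by
  classical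
  haveI := Fintype.ofFinite s
  have e : centralizer s = ⨅ a : s, centralizer ({a.1} : Set G) := by
    ext g
    rw [mem_centralizer_iff]
    simp only [mem_iInf, mem_C, Subtype.forall]
    exact ⟨fun h a ha => (h a ha).symm, fun h a ha => (h a ha).symm⟩
  rw [e]
  refine (index_iInf_le _).trans ?_
  refine (Finset.prod_le_pow_card _ _ n fun a _ => h a.1 a.2).trans ?_
  rw [Finset.card_univ, ← Nat.card_eq_fintype_card]; rfl

lemma bfc0 [Finite G] (n : ℕ) (h : ∀ a : G, ix a ≤ n) :
    Nat.card (commutatorSet G) ≤ n ^ n * (n * (n * n)) := by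
  classical
  obtain ⟨a, ha⟩ := Finite.exists_max (ix : G → ℕ)
  have hn : 0 < n := (ix_pos (1 : G)).trans_le (h 1)
  have ht : ∀ c : cls a, ∃ t : G, t * a * t⁻¹ = c := fun c => c.2
  choose t ht using ht
  set K := centralizer (Set.range t) with hK
  have hKi : K.index ≤ n ^ n := by
    refine (ix_inter _ n fun b _ => h b).trans (Nat.pow_le_pow_right hn ?_)
    rw [← Set.image_univ]
    refine (Set.ncard_image_le (Set.toFinite _)).trans ?_
    rw [Set.ncard_univ]
    exact (cls_card a).le.trans (h a)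
  have key : ∀ x ∈ K, ∀ g : G, ∃ c ∈ cls a, g * (x * a) * g⁻¹ = x * c := by
    intro x hx g
    have hsub : (fun c => x * c) '' cls a ⊆ cls (x * a) := by
      rintro _ ⟨c, hc, rfl⟩
      refine ⟨t ⟨c, hc⟩, ?_⟩
      have h1 := mem_centralizer_iff.1 hx _ ⟨⟨c, hc⟩, rfl⟩
      have h2 := ht ⟨c, hc⟩
      simp only at h2 ⊢
      rw [← mul_assoc, h1]
      conv_rhs => rw [← h2]
      group
    have := Set.eq_of_subset_of_ncard_le hsub (by
      rw [Set.ncard_image_of_injective _ (mul_right_injective x), cls_card, cls_card]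
      exact ha _) (Set.toFinite _)
    have hm : g * (x * a) * g⁻¹ ∈ (fun c => x * c) '' cls a := by rw [this]; exact ⟨g, rfl⟩
    obtain ⟨c, hc, e⟩ := hm
    exact ⟨c, hc, e.symm⟩
  have he : ∀ b : G, ∃ e : Fin n → G, cls b ⊆ Set.range e := fun b =>
    enum _ n ((cls_card b).le.trans (h b))
  choose e he using he
  have hsub : commutatorSet G ⊆ (fun p : (G ⧸ K) × Fin n × Fin n × Fin n =>
      p.1.out * e a p.2.1 * (e a p.2.2.1)⁻¹ * e p.1.out⁻¹ p.2.2.2) '' Set.univ := by
    rintro _ ⟨y, g, rfl⟩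
    obtain ⟨k, hk⟩ := QuotientGroup.mk_out_eq_mul K y
    obtain ⟨c, ⟨v, rfl⟩, hc⟩ := key _ (K.inv_mem k.2) g
    obtain ⟨i, hi⟩ := he a ⟨(k : G)⁻¹ * g, rfl⟩
    obtain ⟨j, hj⟩ := he a ⟨(k : G)⁻¹ * v, rfl⟩
    obtain ⟨l, hl⟩ := he ((QuotientGroup.mk y : G ⧸ K).out⁻¹) ⟨g, rfl⟩
    refine ⟨(QuotientGroup.mk y, i, j, l), trivial, ?_⟩
    simp only at hi hj hl hc ⊢
    rw [hi, hj, hl, hk, commutatorElement_def]
    have : v * a⁻¹ * v⁻¹ = g * a⁻¹ * k * g⁻¹ * (k : G)⁻¹ := by
      have h3 : v * a * v⁻¹ = k * (g * ((k : G)⁻¹ * a) * g⁻¹) := by rw [hc]; group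
      have h4 : v * a⁻¹ * v⁻¹ = (v * a * v⁻¹)⁻¹ := by group
      rw [h4, h3]; group
    calc _ = y * g * a * g⁻¹ * (v * a⁻¹ * v⁻¹) * k * g * (k : G)⁻¹ * y⁻¹ * g⁻¹ := by group
      _ = _ := by rw [this]; group
  refine (Set.ncard_le_ncard hsub (Set.toFinite _)).trans
    ((Set.ncard_image_le (Set.toFinite _)).trans ?_)
  rw [Set.ncard_univ, Nat.card_prod, Nat.card_prod, Nat.card_prod, Nat.card_fin]
  exact Nat.mul_le_mul_right _ hKi
end

lemma bfc (n : ℕ) : ∃ C, ∀ (G : Type u) [Group G] [Finite G], (∀ a : G, ix a ≤ n) →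
    Nat.card (commutator G) ≤ C := by
  refine ⟨(Finset.range (n ^ n * (n * (n * n)) + 1)).sup cardCommutatorBound, fun G _ _ h => ?_⟩
  refine (card_commutator_le_of_finite_commutatorSet G).trans (Finset.le_sup ?_)
  exact Finset.mem_range.2 (Nat.lt_succ_of_le (bfc0 n h))

section
variable {G : Type u} [Group G] [Finite G]

def X (G : Type u) [Group G] (t : ℕ) : Set G := {a | ix a ≤ t}

def I (G : Type u) [Group G] : Set G := {x | x * x = 1}

lemma many (k : ℕ) (h : Nat.card G ≤ k * (I G).ncard) :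
    Nat.card G ≤ 2 * k ^ 2 * (X G (2 * k ^ 2)).ncard := by
  classical
  haveI := Fintype.ofFinite G
  set r : G → ℕ := fun a => (Finset.univ.filter fun x => x ∈ I G ∧ x * a ∈ I G).card with hr
  have h1 : ∑ a, r a = (I G).ncard * (I G).ncard := by
    simp only [hr, Finset.card_filter]
    rw [Finset.sum_comm]
    have : ∀ x : G, (∑ a, if x ∈ I G ∧ x * a ∈ I G then 1 else 0) =
        if x ∈ I G then (I G).ncard else 0 := by
      intro x
      split_ifs with hx
      · simp only [hx, true_and]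
        rw [Fintype.sum_equiv (Equiv.mulLeft x) (fun y => if x * y ∈ I G then 1 else 0)
          (fun y => if y ∈ I G then 1 else 0) (fun _ => rfl), ← Finset.card_filter, Set.ncard_eq_toFinset_card']
        congr 1; ext; simp
      · simp [hx]
    simp_rw [this]
    rw [← Finset.sum_filter, Finset.sum_const, smul_eq_mul]
    congr 1
    rw [Set.ncard_eq_toFinset_card']
    congr 1; ext; simp
  have h2 : ∀ a, r a * ix a ≤ Nat.card G := by
    intro a
    rw [← (centralizer ({a} : Set G)).card_mul_index]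
    refine Nat.mul_le_mul_right _ ?_
    rcases (Finset.univ.filter fun x => x ∈ I G ∧ x * a ∈ I G).eq_empty_or_nonempty with he | ⟨y, hy⟩
    · simp only [hr]; rw [he]; simp
    · have hi : ∀ x ∈ (Finset.univ.filter fun x => x ∈ I G ∧ x * a ∈ I G), x * a = a⁻¹ * x := by
        intro x hx
        obtain ⟨p, q⟩ := (Finset.mem_filter.1 hx).2
        have p' : x * x = 1 := p
        have q' : x * a * (x * a) = 1 := q
        have : x⁻¹ = x := inv_eq_of_mul_eq_one_right p'
        rw [eq_inv_of_mul_eq_one_left q', mul_inv_rev, this]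
      rw [Nat.card_eq_fintype_card, Fintype.card_subtype]
      refine Finset.card_le_card_of_injOn (fun x => y⁻¹ * x) (fun x hx => ?_)
        (fun x _ x' _ e => by simpa using e)
      simp only [Finset.coe_filter, Finset.mem_univ, true_and, Set.mem_ofPred_eq]
      rw [mem_C, mul_assoc, hi x hx]
      have := hi y hy
      calc y⁻¹ * (a⁻¹ * x) = y⁻¹ * (a⁻¹ * y) * y⁻¹ * x := by group
        _ = _ := by rw [← this]; group
  have h3 : ∀ a, 2 * k ^ 2 * r a ≤ (if a ∈ X G (2 * k ^ 2) then 2 * k ^ 2 * Nat.card G else 0) +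
      Nat.card G := by
    intro a
    split_ifs with ha
    · have : r a ≤ Nat.card G := le_trans (Nat.le_mul_of_pos_right _ (ix_pos a)) (h2 a)
      have := Nat.mul_le_mul_left (2 * k ^ 2) this
      omega
    · have ha' : 2 * k ^ 2 ≤ ix a := le_of_lt (not_le.1 ha)
      have := h2 a
      nlinarith [Nat.mul_le_mul_left (r a) ha']
  have h4 := Finset.sum_le_sum fun a (_ : a ∈ Finset.univ) => h3 a
  rw [← Finset.mul_sum, h1, Finset.sum_add_distrib, ← Finset.sum_filter, Finset.sum_const,
    Finset.sum_const, Finset.card_univ, ← Nat.card_eq_fintype_card, smul_eq_mul, smul_eq_mul] at h4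
  have h5 : (Finset.univ.filter fun a => a ∈ X G (2 * k ^ 2)).card = (X G (2 * k ^ 2)).ncard := by
    rw [Set.ncard_eq_toFinset_card']
    congr 1; ext; simp
  rw [h5] at h4
  have hp : 0 < Nat.card G := Nat.card_pos
  have h6 := Nat.mul_le_mul h h
  apply Nat.le_of_mul_le_mul_right _ hp
  nlinarith

lemma sub (b : ℕ) (h : Nat.card G ≤ b * (X G b).ncard) :
    ∃ E : Subgroup G, E.Normal ∧ E.index ≤ b ∧ ∀ a ∈ E, ix a ≤ (b ^ 5 ^ b) ^ 2 := by
  have hp : 0 < Nat.card G := Nat.card_pos
  have hb : 0 < b := by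
    rcases b with _ | b
    · omega
    · omega
  have mono : ∀ {s t}, s ≤ t → X G s ⊆ X G t := fun hst a ha => le_trans ha hst
  have hj : ∃ j < b, (X G ((b ^ 5 ^ j) ^ 5)).ncard < 2 * (X G (b ^ 5 ^ j)).ncard := by
    by_contra hc
    push Not at hc
    have : ∀ j ≤ b, 2 ^ j * (X G b).ncard ≤ (X G (b ^ 5 ^ j)).ncard := by
      intro j
      induction j with
      | zero => simp
      | succ j ih =>
        intro hj
        have := hc j hj
        have := ih (by omega)
        rw [pow_succ 5, pow_mul, pow_succ]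
        nlinarith
    have h1 := this b le_rfl
    have h2 : (X G (b ^ 5 ^ b)).ncard ≤ Nat.card G := Set.ncard_le_card _
    have h3 : b < 2 ^ b := Nat.lt_two_pow_self
    have h4 : 0 < (X G b).ncard := by
      rcases Nat.eq_zero_or_pos (X G b).ncard with h0 | h0
      · rw [h0] at h; omega
      · exact h0
    nlinarith
  obtain ⟨j, hjb, hj⟩ := hj
  set t := b ^ 5 ^ j with ht
  have hbt : b ≤ t := Nat.le_self_pow (by positivity) b
  have ht1 : 1 ≤ t := hb.trans_le hbt
  let E : Subgroup G :=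
    { carrier := X G (t ^ 2)
      one_mem' := by show ix _ ≤ _; rw [ix_one]; exact Nat.one_le_pow _ _ ht1
      inv_mem' := fun {a} ha => by show ix _ ≤ _; rw [ix_inv]; exact ha
      mul_mem' := fun {a c} ha hc => by
        have hac : ix (a * c) ≤ t ^ 4 :=
          (ix_mul a c).trans ((Nat.mul_le_mul ha hc).trans (le_of_eq (by ring)))
        by_contra hn
        have hd : Disjoint ((fun x => a * c * x) '' X G t) (X G t) := by
          rw [Set.disjoint_left]
          rintro _ ⟨x, hx, rfl⟩ hy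
          apply hn
          have : a * c = a * c * x * x⁻¹ := by group
          show ix _ ≤ _
          rw [this]
          refine (ix_mul _ _).trans ?_
          rw [ix_inv, sq]
          exact Nat.mul_le_mul hy hx
        have hs : (fun x => a * c * x) '' X G t ∪ X G t ⊆ X G (t ^ 5) := by
          rintro _ (⟨x, hx, rfl⟩ | hy)
          · exact (ix_mul _ _).trans ((Nat.mul_le_mul hac hx).trans (le_of_eq (by ring)))
          · exact mono (Nat.le_self_pow (by norm_num) t) hy
        have := Set.ncard_le_ncard hs (Set.toFinite _)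
        rw [Set.ncard_union_eq hd (Set.toFinite _) (Set.toFinite _),
          Set.ncard_image_of_injective _ (mul_right_injective _)] at this
        omega }
  refine ⟨E, ⟨fun a ha g => ?_⟩, ?_, fun a ha => ?_⟩
  · show ix _ ≤ _
    rw [ix_conj]; exact ha
  · have h1 : (X G b).ncard ≤ Nat.card E :=
      Set.ncard_le_ncard (mono (hbt.trans (Nat.le_self_pow (by norm_num) t))) (Set.toFinite _)
    have h2 := E.card_mul_index
    have h3 : 0 < Nat.card E := Nat.card_pos
    apply Nat.le_of_mul_le_mul_left _ h3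
    nlinarith [Nat.mul_le_mul_left b h1]
  · refine le_trans ha (Nat.pow_le_pow_left (Nat.pow_le_pow_right hb ?_) 2)
    exact Nat.pow_le_pow_right (by norm_num) hjb.le
end

theorem struct (k : ℕ) : ∃ C : ℕ, ∀ (G : Type u) [Group G] [Finite G],
    Nat.card G ≤ k * (I G).ncard → ∃ N Z : Subgroup G, N.Normal ∧ N.index ≤ C ∧
      Nat.card Z ≤ C ∧ Z ≤ N ∧ (∀ a ∈ N, ∀ b ∈ N, a * b * a⁻¹ * b⁻¹ ∈ Z) ∧
      ∀ z ∈ Z, ∀ n ∈ N, z * n = n * z := by
  generalize hb : 2 * k ^ 2 = b
  generalize hn : (b ^ 5 ^ b) ^ 2 = n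
  obtain ⟨C, hC⟩ := bfc.{u} n
  refine ⟨b * (n + 1) ^ C + C, fun G _ _ h => ?_⟩
  obtain ⟨E, hE, hEi, hEn⟩ := sub b (hb ▸ many k h)
  rw [hn] at hEn
  have hK : Nat.card (⁅E, E⁆ : Subgroup G) ≤ C := by
    rw [← map_subtype_commutator,
      ← Nat.card_congr ((commutator E).equivMapOfInjective _ E.subtype_injective).toEquiv]
    refine hC E fun a => le_trans ?_ (hEn a.1 a.2)
    have : centralizer ({a} : Set E) = (centralizer ({a.1} : Set G)).subgroupOf E := by
      ext g
      rw [mem_subgroupOf, mem_C, mem_C, Subtype.ext_iff]; rfl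
    unfold ix
    rw [this, ← relIndex_top_right (centralizer ({a.1} : Set G))]
    exact relIndex_le_of_le_right le_top (by rw [relIndex_top_right]; exact index_ne_zero_of_finite)
  refine ⟨E ⊓ centralizer (⁅E, E⁆ : Subgroup G), ⁅E, E⁆ ⊓ (E ⊓ centralizer (⁅E, E⁆ : Subgroup G)),
    inferInstance, ?_, ?_, inf_le_right, fun a ha c hc => ⟨?_, ?_⟩, fun z hz m hm => ?_⟩
  · refine index_inf_le.trans (le_trans (Nat.mul_le_mul hEi ?_) (Nat.le_add_right _ _))
    refine (ix_inter _ (n + 1) fun a ha => (hEn a (commutator_le_left E E ha)).trans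
      (Nat.le_succ n)).trans (Nat.pow_le_pow_right (Nat.succ_pos n) hK)
  · exact ((card_le_of_le inf_le_left).trans hK).trans (Nat.le_add_left _ _)
  · exact commutator_mem_commutator ha.1 hc.1
  · exact Subgroup.mul_mem _ (Subgroup.mul_mem _ (Subgroup.mul_mem _ ha hc) (Subgroup.inv_mem _ ha))
      (Subgroup.inv_mem _ hc)
  · exact mem_centralizer_iff.1 hm.2 z hz.1

end Pool.Agent.H29.Invol
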