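import Pool.Agent.H29.LcS2

set_option autoImplicit false
open Set Filter Topology

namespace Pool.Agent.H29.Jia

open LcS (Om L cut Λ T xx T_pos xx_lev xx_bd L_of_gt L_union L_add)

abbrev On : Type := Λ × ℕ
abbrev At : Type := ℕ ⊕ On

noncomputable def nm (b : On) : Set Om := cut b.2 (xx b.1)

theorem nm_lev (b : On) : L (T / 2) (nm b) := (xx_lev _).mono (fun _ h => h.1) le_rfl

@[ext] structure R : Type where
  r : ℕ
  t : ℝ
  y : Set Om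
  Φ : On → Set At
  h1 : T / 2 ≤ t
  h2 : t < T
  hL : L t y
  hf : {b | (Φ b).Nonempty}.Finite
  hr : ∀ b c, .inr c ∈ Φ b → c.1 < b.1
  hn : ∀ b a, a ∈ Φ b → nm b ⊆ y
  hm : ∀ b c, .inr c ∈ Φ b → nm c ⊆ y

def U (w : R) (Z : Set On) : Set At := {a | ∃ z ∈ Z, a ∈ w.Φ z}

def PP (F : Set At) (x w : R) (Z : Set On) (b z : On) : Prop :=
  ∀ c : On, .inr c ∈ F → (c = b ∨ (c.1 < b.1 ∧ nm c ⊆ w.y)) → c.1 < z.1 ∨ .inr c ∈ U x Z

def RZ (F : Set At) (x w : R) (Z : Set On) : Prop :=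
  (.inl w.r ∈ F → w.r = x.r ∨ .inl w.r ∈ U x Z) ∧
    ∀ b, ∀ a ∈ w.Φ b, a ∈ F → (b ∉ Z ∧ a ∈ x.Φ b) ∨ ∃ z ∈ Z, a ∈ x.Φ z ∧ PP F x w Z b z

theorem U_mono {x x' : R} {Z Z' : Set On} (h : ∀ b, x.Φ b ⊆ x'.Φ b) (hZ : Z ⊆ Z') :
    U x Z ⊆ U x' Z' := fun _ ⟨z, h1, h2⟩ => ⟨z, hZ h1, h z h2⟩

theorem RZ.trans {F : Set At} {x w u : R} {Z Z' : Set On} (h : RZ F x w Z) (h' : RZ univ w u Z')
    (hy : u.y ⊆ w.y) : RZ F x u (Z ∪ Z') := by
  have nam : ∀ a ∈ F, a ∈ U w Z' → a ∈ U x (Z ∪ Z') := by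
    rintro a ha ⟨l, hl, h1⟩
    rcases h.2 l a h1 ha with h2 | ⟨z, hz, h2, -⟩
    · exact ⟨l, Or.inr hl, h2.2⟩
    · exact ⟨z, Or.inl hz, h2⟩
  have um : U x Z ⊆ U x (Z ∪ Z') := U_mono (fun _ => subset_rfl) subset_union_left
  refine ⟨fun hF => ?_, fun b a ha hF => ?_⟩
  · rcases h'.1 trivial with e | e
    · rw [e] at hF ⊢
      exact (h.1 hF).imp id fun h => um h
    · exact Or.inr (nam _ hF e)
  · rcases h'.2 b a ha trivial with ⟨e1, e2⟩ | ⟨l, hl, e1, e2⟩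
    · rcases h.2 b a e2 hF with ⟨f1, f2⟩ | ⟨z, hz, f1, f2⟩
      · exact Or.inl ⟨fun h => h.elim f1 e1, f2⟩
      · exact Or.inr ⟨z, Or.inl hz, f1, fun c hc h =>
          (f2 c hc (h.imp id fun h => ⟨h.1, h.2.trans hy⟩)).imp id fun h => um h⟩
    · rcases h.2 l a e1 hF with ⟨-, f2⟩ | ⟨z, hz, f1, f2⟩
      · exact Or.inr ⟨l, Or.inr hl, f2, fun c hc h => (e2 c trivial h).imp id (nam _ hc)⟩
      · refine Or.inr ⟨z, Or.inl hz, f1, fun c hc h => ?_⟩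
        rcases e2 c trivial h with g | g
        · refine (f2 c hc (Or.inr ⟨g, ?_⟩)).imp id fun h => um h
          rcases h with rfl | h
          · exact (u.hn _ a ha).trans hy
          · exact h.2.trans hy
        · exact Or.inr (nam _ hc g)

def Pu (w u : R) : Prop := u.t ≤ w.t ∧ u.y ⊆ w.y ∧ u.r = w.r ∧ ∀ b, u.Φ b ⊆ w.Φ b

theorem Pu.rz {w u : R} (h : Pu w u) (F : Set At) : RZ F w u ∅ :=
  ⟨fun _ => Or.inl h.2.2.1, fun b _ ha _ => Or.inl ⟨notMem_empty _, h.2.2.2 b ha⟩⟩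

theorem Pu.refl (w : R) : Pu w w := ⟨le_rfl, subset_rfl, rfl, fun _ => subset_rfl⟩

theorem Pu.trans {u v w : R} (h : Pu u v) (h' : Pu v w) : Pu u w :=
  ⟨h'.1.trans h.1, h'.2.1.trans h.2.1, h'.2.2.1.trans h.2.2.1,
    fun b => (h'.2.2.2 b).trans (h.2.2.2 b)⟩

noncomputable def ms (w : R) : Multiset Λ := w.hf.toFinset.val.map Prod.fst

theorem dich {w u : R} {Z : Set On} (h : RZ univ w u Z) :
    ((u.r = w.r ∧ ∀ b, u.Φ b ⊆ w.Φ b) ∧ ms u = ms w) ∨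
      Multiset.IsDershowitzMannaLT (ms u) (ms w) := by
  classical
  let X := (u.hf.toFinset ∩ w.hf.toFinset).filter (· ∉ Z)
  have x1 : X ⊆ u.hf.toFinset := (Finset.filter_subset _ _).trans Finset.inter_subset_left
  have x2 : X ⊆ w.hf.toFinset := (Finset.filter_subset _ _).trans Finset.inter_subset_right
  have mem : ∀ z ∈ Z, ∀ a ∈ w.Φ z, z ∈ w.hf.toFinset \ X := fun z hz a ha =>
    Finset.mem_sdiff.2 ⟨w.hf.mem_toFinset.2 ⟨a, ha⟩, fun h => (Finset.mem_filter.1 h).2 hz⟩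
  have key : ∀ b ∈ u.hf.toFinset \ X, ∃ z ∈ w.hf.toFinset \ X, b.1 < z.1 := fun b hb => by
    obtain ⟨b1, b2⟩ := Finset.mem_sdiff.1 hb
    obtain ⟨a, ha⟩ := u.hf.mem_toFinset.1 b1
    rcases h.2 b a ha trivial with ⟨e1, e2⟩ | ⟨z, hz, e1, e2⟩
    · exact absurd (Finset.mem_filter.2 ⟨Finset.mem_inter.2 ⟨b1, w.hf.mem_toFinset.2 ⟨a, e2⟩⟩, e1⟩) b2
    · rcases e2 b trivial (Or.inl rfl) with e | ⟨l, hl, e⟩
      · exact ⟨z, mem z hz a e1, e⟩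
      · exact ⟨l, mem l hl _ e, w.hr _ _ e⟩
  have sp : ∀ s : Finset On, X ⊆ s → s.val.map Prod.fst =
      X.val.map Prod.fst + (s \ X).val.map Prod.fst := fun s hs => by
    rw [← Multiset.map_add, Finset.sdiff_val, add_tsub_cancel_of_le (Finset.val_le_iff.2 hs)]
  by_cases he : w.hf.toFinset \ X = ∅
  · refine Or.inl ⟨⟨?_, fun b a ha => ?_⟩, ?_⟩
    · rcases h.1 trivial with e | ⟨z, hz, e⟩
      · exact e
      · exact absurd (he ▸ mem z hz _ e) (Finset.notMem_empty _)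
    · rcases h.2 b a ha trivial with e | ⟨z, hz, e, -⟩
      · exact e.2
      · exact absurd (he ▸ mem z hz _ e) (Finset.notMem_empty _)
    · have : u.hf.toFinset \ X = ∅ := Finset.eq_empty_of_forall_notMem fun b hb => by
        obtain ⟨z, hz, -⟩ := key b hb
        exact Finset.notMem_empty _ (he ▸ hz)
      rw [ms, ms, sp _ x1, sp _ x2, he, this]
  · refine Or.inr ⟨_, _, _, ?_, sp _ x1, sp _ x2, fun y hy => ?_⟩
    · exact fun h => he (Finset.val_eq_zero.1 (Multiset.map_eq_zero.1 h))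
    · obtain ⟨b, hb, rfl⟩ := Multiset.mem_map.1 hy
      obtain ⟨z, hz, e⟩ := key b hb
      exact ⟨z.1, Multiset.mem_map_of_mem _ hz, e⟩

theorem wfDM : WellFounded (Multiset.IsDershowitzMannaLT (α := Λ)) :=
  Multiset.wellFounded_isDershowitzMannaLT

instance : PartialOrder R where
  le w u := u.t ≤ w.t ∧ u.y ⊆ w.y ∧ ∃ Z, RZ univ w u Z
  le_refl w := ⟨le_rfl, subset_rfl, _, (Pu.refl w).rz _⟩
  le_trans _ _ _ h h' := ⟨h'.1.trans h.1, h'.2.1.trans h.2.1, by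
    obtain ⟨Z, e⟩ := h.2.2
    obtain ⟨Z', e'⟩ := h'.2.2
    exact ⟨_, e.trans e' h'.2.1⟩⟩
  le_antisymm w u h h' := by
    obtain ⟨Z, e⟩ := h.2.2
    obtain ⟨Z', e'⟩ := h'.2.2
    rcases dich e with f | f <;> rcases dich e' with g | g
    · exact R.ext g.1.1 (le_antisymm h'.1 h.1) (subset_antisymm h'.2.1 h.2.1)
        (funext fun b => subset_antisymm (g.1.2 b) (f.1.2 b))
    · exact absurd (f.2 ▸ g) (wfDM.irrefl.irrefl _)
    · exact absurd (g.2 ▸ f) (wfDM.irrefl.irrefl _)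
    · exact absurd (f.trans g) (wfDM.irrefl.irrefl _)

theorem Pu.le {w u : R} (h : Pu w u) : w ≤ u := ⟨h.1, h.2.1, _, h.rz _⟩

theorem exists_d0 {D : Set R} (hne : D.Nonempty) (hD : DirectedOn (· ≤ ·) D) :
    ∃ d0 ∈ D, DirectedOn Pu (D ∩ Ici d0) := by
  obtain ⟨_, ⟨d0, h0, rfl⟩, hmin⟩ := wfDM.has_min (ms '' D) (hne.image _)
  have e : ∀ d ∈ D ∩ Ici d0, ms d = ms d0 := fun d hd => by
    obtain ⟨Z, h⟩ := hd.2.2.2
    exact ((dich h).resolve_right (hmin _ ⟨d, hd.1, rfl⟩)).2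
  have p : ∀ d ∈ D ∩ Ici d0, ∀ c ∈ D, d ≤ c → Pu d c := fun d hd c hc h => by
    obtain ⟨Z, h'⟩ := h.2.2
    have := ((dich h').resolve_right (e d hd ▸ hmin _ ⟨c, hc, rfl⟩)).1
    exact ⟨h.1, h.2.1, this⟩
  refine ⟨d0, h0, fun a ha b hb => ?_⟩
  obtain ⟨c, hc, e1, e2⟩ := hD a ha.1 b hb.1
  exact ⟨c, ⟨hc, le_trans ha.2 e1⟩, p a ha c hc e1, p b hb c hc e2⟩

theorem fin_ev {ι : Type} {D : Set R} (hne : D.Nonempty) (hD : DirectedOn Pu D) {s : Set ι}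
    (hs : s.Finite) (Q : ι → R → Prop) (mono : ∀ i a b, Pu a b → Q i a → Q i b)
    (ex : ∀ i ∈ s, ∃ d ∈ D, Q i d) : ∃ d ∈ D, ∀ i ∈ s, Q i d := by
  induction s, hs using Set.Finite.induction_on with
  | empty => obtain ⟨d, hd⟩ := hne; exact ⟨d, hd, by simp⟩
  | insert _ _ ih =>
    obtain ⟨a, ha, h⟩ := ih fun i hi => ex i (mem_insert_of_mem _ hi)
    obtain ⟨b, hb, h'⟩ := ex _ (mem_insert _ _)
    obtain ⟨c, hc, e1, e2⟩ := hD a ha b hb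
    refine ⟨c, hc, ?_⟩
    rintro i (rfl | hi)
    · exact mono _ _ _ e2 h'
    · exact mono _ _ _ e1 (h i hi)

theorem fin_all {ι : Type} {D : Set R} (hne : D.Nonempty) (hD : DirectedOn Pu D) {s : Set ι}
    (hs : s.Finite) (Q : ι → R → Prop) (anti : ∀ i a b, Pu a b → Q i b → Q i a)
    (ex : ∀ d ∈ D, ∃ i ∈ s, Q i d) : ∃ i ∈ s, ∀ d ∈ D, Q i d := by
  by_contra hc
  push Not at hc
  obtain ⟨d, hd, h⟩ := fin_ev hne hD hs (fun i d => ¬ Q i d)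
    (fun i a b h h1 h2 => h1 (anti i a b h h2)) hc
  obtain ⟨i, hi, h'⟩ := ex d hd
  exact h i hi h'

/-- `s` is the pointwise limit of `D`. -/
def Lim (D : Set R) (s : R) : Prop := (∀ d ∈ D, s.r = d.r) ∧ IsGLB (R.t '' D) s.t ∧
  (∀ p, p ∈ s.y ↔ ∀ d ∈ D, p ∈ d.y) ∧ ∀ b a, a ∈ s.Φ b ↔ ∀ d ∈ D, a ∈ d.Φ b

theorem Lim.pu {D : Set R} {s : R} (h : Lim D s) {d : R} (hd : d ∈ D) : Pu d s :=
  ⟨h.2.1.1 ⟨d, hd, rfl⟩, fun p hp => (h.2.2.1 p).1 hp d hd, h.1 d hd,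
    fun b a ha => (h.2.2.2 b a).1 ha d hd⟩

theorem exists_lim {D : Set R} (hne : D.Nonempty) (hD : DirectedOn Pu D) : ∃ s, Lim D s := by
  obtain ⟨d0, h0⟩ := hne
  have bd : T / 2 ∈ lowerBounds (R.t '' D) := by rintro _ ⟨d, -, rfl⟩; exact d.h1
  have ht : IsGLB (R.t '' D) (sInf (R.t '' D)) := isGLB_csInf ⟨_, d0, h0, rfl⟩ ⟨_, bd⟩
  refine ⟨⟨d0.r, sInf (R.t '' D), {p | ∀ d ∈ D, p ∈ d.y}, fun b => {a | ∀ d ∈ D, a ∈ d.Φ b},
    ht.2 bd, (ht.1 ⟨d0, h0, rfl⟩).trans_lt d0.h2, L_of_gt fun u hu => ?_,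
    d0.hf.subset fun b ⟨a, ha⟩ => ⟨a, ha d0 h0⟩, fun b c h => d0.hr b c (h d0 h0),
    fun b a h p hp d hd => d.hn b a (h d hd) hp, fun b c h p hp d hd => d.hm b c (h d hd) hp⟩,
    fun d hd => ?_, ht, fun _ => Iff.rfl, fun _ _ => Iff.rfl⟩
  · obtain ⟨_, ⟨d, hd, rfl⟩, h⟩ := exists_lt_of_csInf_lt (s := R.t '' D) ⟨_, d0, h0, rfl⟩ hu
    exact d.hL.mono (fun p hp => hp d hd) h.le
  · obtain ⟨c, -, e1, e2⟩ := hD d0 h0 d hd
    exact e1.2.2.1.symm.trans e2.2.2.1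

theorem RZ.anti {F : Set At} {a b u : R} {Z : Set On} (h : Pu a b) (h' : RZ F b u Z) :
    RZ F a u Z := by
  have um : U b Z ⊆ U a Z := U_mono h.2.2.2 subset_rfl
  refine ⟨fun hF => (h'.1 hF).imp (fun e => e.trans h.2.2.1) fun e => um e, fun c x hx hF => ?_⟩
  rcases h'.2 c x hx hF with e | ⟨z, hz, e1, e2⟩
  · exact Or.inl ⟨e.1, h.2.2.2 c e.2⟩
  · exact Or.inr ⟨z, hz, h.2.2.2 z e1, fun c hc h => (e2 c hc h).imp id fun e => um e⟩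

theorem RZ.cut {F : Set At} {a u : R} {Z S : Set On} (h : RZ F a u Z)
    (hS : ∀ b, (a.Φ b).Nonempty → b ∈ S) : RZ F a u (Z ∩ S) := by
  have um : U a Z ⊆ U a (Z ∩ S) := fun x ⟨z, hz, h⟩ => ⟨z, ⟨hz, hS z ⟨x, h⟩⟩, h⟩
  refine ⟨fun hF => (h.1 hF).imp id fun e => um e, fun c x hx hF => ?_⟩
  rcases h.2 c x hx hF with e | ⟨z, hz, e1, e2⟩
  · exact Or.inl ⟨fun h => e.1 h.1, e.2⟩
  · exact Or.inr ⟨z, ⟨hz, hS z ⟨x, e1⟩⟩, e1, fun c hc h => (e2 c hc h).imp id fun e => um e⟩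

theorem Lim.isLUB {D : Set R} (hne : D.Nonempty) (hD : DirectedOn Pu D) {s : R} (h : Lim D s) :
    IsLUB D s := by
  refine ⟨fun d hd => (h.pu hd).le, fun u hu => ⟨h.2.1.2 ?_,
    fun p hp => (h.2.2.1 p).2 fun d hd => (hu hd).2.1 hp, ?_⟩⟩
  · rintro _ ⟨d, hd, rfl⟩
    exact (hu hd).1
  obtain ⟨d0, h0⟩ := id hne
  obtain ⟨Z, hZ, hz⟩ := fin_all hne hD d0.hf.finite_subsets (fun Z d => RZ univ d u Z)
    (fun _ _ _ h h' => h'.anti h) fun d hd => by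
      obtain ⟨c, hc, e1, e2⟩ := hD d hd d0 h0
      obtain ⟨Z, e⟩ := (hu hc).2.2
      exact ⟨_, inter_subset_right, (e.cut (S := {b | (d0.Φ b).Nonempty})
        fun b hb => hb.mono (e2.2.2.2 b)).anti e1⟩
  have fz : Z.Finite := d0.hf.subset hZ
  have ul : ∀ a, (∀ d ∈ D, a ∈ U d Z) → a ∈ U s Z := fun a ha => by
    obtain ⟨z, e1, e2⟩ := fin_all hne hD fz (fun z d => a ∈ d.Φ z)
      (fun z _ _ h h' => h.2.2.2 z h') ha
    exact ⟨z, e1, (h.2.2.2 z a).2 e2⟩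
  refine ⟨Z, fun _ => ?_, fun b a ha _ => ?_⟩
  · by_cases e : u.r = s.r
    · exact Or.inl e
    · exact Or.inr (ul _ fun d hd => ((hz d hd).1 trivial).resolve_left (h.1 d hd ▸ e))
  · by_cases e : b ∉ Z ∧ a ∈ s.Φ b
    · exact Or.inl e
    obtain ⟨z, e1, e2⟩ := fin_all hne hD fz (fun z d => a ∈ d.Φ z ∧ PP univ d u Z b z)
      (fun z _ _ h h' => ⟨h.2.2.2 z h'.1, fun c hc g => (h'.2 c hc g).imp id
        fun e => U_mono h.2.2.2 subset_rfl e⟩) fun d hd => by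
        by_cases hb : b ∈ Z
        · exact ((hz d hd).2 b a ha trivial).resolve_left fun h => h.1 hb
        · obtain ⟨d1, g1, g2⟩ : ∃ d1 ∈ D, a ∉ d1.Φ b := by
            by_contra hc
            push Not at hc
            exact e ⟨hb, (h.2.2.2 b a).2 hc⟩
          obtain ⟨c, hc, f1, f2⟩ := hD d hd d1 g1
          obtain ⟨z, hz, k1, k2⟩ := ((hz c hc).2 b a ha trivial).resolve_left
            fun h => g2 (f2.2.2.2 b h.2)
          exact ⟨z, hz, f1.2.2.2 z k1, fun c hc g => (k2 c hc g).imp id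
            fun e => U_mono f1.2.2.2 subset_rfl e⟩
    refine Or.inr ⟨z, e1, (h.2.2.2 z a).2 fun d hd => (e2 d hd).1, fun c hc g => ?_⟩
    by_cases k : c.1 < z.1
    · exact Or.inl k
    · exact Or.inr (ul _ fun d hd => ((e2 d hd).2 c hc g).resolve_left k)

theorem exists_lub {D : Set R} (hne : D.Nonempty) (hD : DirectedOn (· ≤ ·) D) :
    ∃ s, IsLUB D s ∧ ∃ E ⊆ D, E.Nonempty ∧ DirectedOn Pu E ∧ Lim E s := by
  obtain ⟨d0, h0, h⟩ := exists_d0 hne hD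
  have ne : (D ∩ Ici d0).Nonempty := ⟨d0, h0, self_mem_Ici⟩
  obtain ⟨s, hs⟩ := exists_lim ne h
  have := hs.isLUB ne h
  refine ⟨s, ⟨fun d hd => ?_, fun u hu => this.2 fun d hd => hu hd.1⟩, _, inter_subset_left,
    ne, h, hs⟩
  obtain ⟨c, hc, e1, e2⟩ := hD d hd d0 h0
  exact e1.trans (this.1 ⟨hc, e2⟩)

instance : TopologicalSpace R := Topology.scott R univ
instance : Topology.IsScott R univ := ⟨rfl⟩

theorem open_of {V : Set R} (h1 : IsUpperSet V) (h2 : ∀ D : Set R, D.Nonempty → DirectedOn Pu D →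
    ∀ s ∈ V, Lim D s → ∃ d ∈ D, d ∈ V) : IsOpen V := by
  rw [← isClosed_compl_iff]
  refine IsScott.isClosed_iff_isLowerSet_and_dirSupClosed.2 ⟨h1.compl, fun D hD hne hd s hs h => ?_⟩
  obtain ⟨s', e1, E, e2, e3, e4, e5⟩ := exists_lub hne hd
  obtain ⟨d, g1, g2⟩ := h2 E e3 e4 s' (hs.unique e1 ▸ h) e5
  exact hD (e2 g1) g2

theorem mem_of_dir {C : Set R} (hC : IsClosed C) {ι : Type} [Nonempty ι] (d : ι → R)
    (hd : Directed Pu d) (hm : ∀ i, d i ∈ C) (q : R) (hr : ∀ i, (d i).r = q.r)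
    (ht : ∀ r, q.t < r → ∃ i, (d i).t ≤ r) (hy : ∀ p, (∀ i, p ∈ (d i).y) → p ∈ q.y)
    (hA : ∀ b a, (∀ i, a ∈ (d i).Φ b) → a ∈ q.Φ b) : q ∈ C := by
  obtain ⟨s, e⟩ := exists_lim (range_nonempty d) hd.directedOn_range
  have := IsScott.dirSupClosed_of_isClosed hC (range_subset_iff.2 hm) (range_nonempty d)
    (hd.directedOn_range.mono fun _ _ => Pu.le) (e.isLUB (range_nonempty d) hd.directedOn_range)
  refine IsScott.isLowerSet_of_isClosed hC (Pu.le (w := q) ⟨?_, ?_, ?_, ?_⟩) this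
  · refine le_of_forall_gt_imp_ge_of_dense fun r hr => ?_
    obtain ⟨j, hj⟩ := ht r hr
    exact (e.pu ⟨j, rfl⟩).1.trans hj
  · exact fun p hp => hy p fun j => (e.pu ⟨j, rfl⟩).2.1 hp
  · exact (e.1 _ ⟨Classical.arbitrary ι, rfl⟩).trans (hr _)
  · exact fun b a ha => hA b a fun j => (e.pu ⟨j, rfl⟩).2.2.2 b ha

end Pool.Agent.H29.Jia
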