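import Pool.Agent.H29.Jia1

set_option autoImplicit false
open Set Filter Topology

namespace Pool.Agent.H29.Jia

open LcS (Om L cut Λ T xx T_pos xx_lev xx_bd L_of_gt L_union L_add lim_agree lim_L fin_low)

theorem above {w : Set Om} (h : L T w) : ∃ ξ : Λ, ∀ c : On, nm c ⊆ w → c.1 < ξ := by
  obtain ⟨ξ, h⟩ := xx_bd w h
  exact ⟨ξ, fun c hc => h _ _ hc⟩

def wy (q : R) (s : ℝ) (w : Set Om) (h1 : q.t ≤ s) (h2 : s < T) (h3 : L s w) (h4 : q.y ⊆ w) : R :=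
  ⟨q.r, s, w, q.Φ, q.h1.trans h1, h2, h3, q.hf, q.hr, fun b a h => (q.hn b a h).trans h4,
    fun b a h => (q.hm b a h).trans h4⟩

theorem SL {C : Set R} (hC : IsClosed C) (q : R)
    (h : ∀ s, q.t < s → s < T → ∀ M : ℕ, ∃ p ∈ C, p.r = q.r ∧ (∀ b, p.Φ b ⊆ q.Φ b) ∧ p.t ≤ s ∧
      ∀ x ∈ p.y, x.1 < M → x ∈ q.y) : q ∈ C := by
  have _ : Nonempty (Ioo q.t T) := (nonempty_Ioo.2 q.h2).to_subtype
  refine mem_of_dir hC (fun s : Ioo q.t T => wy q s.1 q.y s.2.1.le s.2.2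
    (q.hL.mono subset_rfl s.2.1.le) subset_rfl)
    (fun a b => ⟨min a b, ⟨(min_le_left a b : min a b ≤ a), subset_rfl, rfl, fun _ => subset_rfl⟩,
      ⟨(min_le_right a b : min a b ≤ b), subset_rfl, rfl, fun _ => subset_rfl⟩⟩)
    (fun ⟨s, s1, s2⟩ => ?_) q (fun _ => rfl) (fun r hr => ?_)
    (fun _ ha => ha (Classical.arbitrary _)) fun _ _ ha => ha (Classical.arbitrary _)
  · obtain ⟨N, hN, hU⟩ := L_union (show (q.t + s) / 2 < s by linarith)
    choose p p1 p2 p3 p4 p5 using fun j => h ((q.t + s) / 2) (by linarith) (by linarith) (N j)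
    have hL := hU q.y (fun j => (p j).y) (q.hL.mono subset_rfl (by linarith))
      (fun j => (p j).hL.mono subset_rfl (p4 j)) p5
    let e : ℕ → R := fun k => wy q s (q.y ∪ {x | ∃ j, k ≤ j ∧ x ∈ (p j).y}) s1.le s2
      (hL.mono (union_subset_union_right _ fun x ⟨j, _, h⟩ => mem_iUnion.2 ⟨j, h⟩) le_rfl)
      subset_union_left
    have mono : ∀ a b, a ≤ b → Pu (e a) (e b) := fun a b h => ⟨le_rfl,
      union_subset_union_right _ fun _ ⟨j, h1, h2⟩ => ⟨j, h.trans h1, h2⟩, rfl, fun _ => subset_rfl⟩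
    refine mem_of_dir hC e (fun a b => ⟨max a b, mono _ _ (le_max_left _ _),
      mono _ _ (le_max_right _ _)⟩) (fun k => IsScott.isLowerSet_of_isClosed hC
        (Pu.le (w := e k) ⟨(p4 k).trans (show _ ≤ s by linarith),
          fun x hx => Or.inr ⟨k, le_rfl, hx⟩, p2 k, p3 k⟩) (p1 k)) _ (fun _ => rfl)
      (fun r hr => ⟨0, hr.le⟩) (fun x hx => ?_) fun _ _ ha => ha 0
    rcases hx (x.1 + 1) with h | ⟨j, h1, h2⟩
    · exact h
    · exact p5 j x h2 (lt_of_lt_of_le h1 (hN j))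
  · have := q.h2
    exact ⟨⟨min r ((q.t + T) / 2), lt_min hr (by linarith),
      (min_le_right _ _).trans_lt (by linarith)⟩, min_le_left _ _⟩

def OK (p : R) (β : On) (J : Set At) (s : ℝ) (w : Set Om) : Prop :=
  p.t ≤ s ∧ s < T ∧ L s w ∧ p.y ⊆ w ∧ nm β ⊆ w ∧ ∀ c, .inr c ∈ J → c.1 < β.1 ∧ nm c ⊆ w

def ins (p : R) (β : On) (J : Set At) (s : ℝ) (w : Set Om) (h : OK p β J s w) : R where
  r := p.r
  t := s
  y := w
  Φ b := {a | a ∈ p.Φ b ∨ (b = β ∧ a ∈ J)}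
  h1 := p.h1.trans h.1
  h2 := h.2.1
  hL := h.2.2.1
  hf := (p.hf.insert β).subset fun _ ⟨a, ha⟩ => ha.elim (fun h => Or.inr ⟨a, h⟩) fun h => Or.inl h.1
  hr b c hc := hc.elim (p.hr b c) fun e => e.1 ▸ (h.2.2.2.2.2 c e.2).1
  hn b a ha := ha.elim (fun e => (p.hn b a e).trans h.2.2.2.1) fun e => e.1 ▸ h.2.2.2.2.1
  hm b c hc := hc.elim (fun e => (p.hm b c e).trans h.2.2.2.1) fun e => (h.2.2.2.2.2 c e.2).2

def In (w : Set Om) : Set At := {a | ∀ c, a = .inr c → nm c ⊆ w}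

theorem In_iff {w : Set Om} {c : On} : .inr c ∈ In w ↔ nm c ⊆ w :=
  ⟨fun h => h c rfl, fun h _ e => Sum.inr_injective e ▸ h⟩

theorem In_of {p : R} {b : On} {a : At} (h : a ∈ p.Φ b) : a ∈ In p.y :=
  fun c e => p.hm b c (e ▸ h)

def lS (W : Ultrafilter R) : Set Om := {x | ∀ᶠ p in (W : Filter R), x ∈ p.y}

theorem lS_L {W : Ultrafilter R} {s : ℝ} (h : ∀ᶠ p in (W : Filter R), p.t ≤ s) : L s (lS W) :=
  lim_L W R.y (h.mono fun p hp => p.hL.mono subset_rfl hp)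

theorem conv {C : Set R} (hC : IsClosed C) (W : Ultrafilter R) (hW : C ∈ W) {F : Set At} {x : R}
    (hx : ∀ᶠ w in (W : Filter R), ∃ Z, RZ F x w Z) (q : R) {β : On}
    (ht : ∀ᶠ w in (W : Filter R), w.t ≤ q.t) (hy : lS W ⊆ q.y) (hr : q.r = x.r)
    (hΦ : ∀ b, x.Φ b ⊆ q.Φ b) (hβ : ∀ a, a ∉ x.Φ β) (hB : In (lS W) \ F ⊆ q.Φ β)
    (hβ' : ∀ c : On, nm c ⊆ lS W → c.1 < β.1) : q ∈ C := by
  refine SL hC q fun s s1 s2 M => ?_
  obtain ⟨N, hN, hU⟩ := L_union (show q.t < (q.t + s) / 2 by linarith)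
  obtain ⟨M', hM⟩ := L_add (show (q.t + s) / 2 < s by linarith)
  choose z z1 z2 z3 z4 using fun j => ((show ∀ᶠ p in (W : Filter R), p ∈ C from hW).and
    (hx.and (ht.and (lim_agree W R.y (N j))))).exists
  have hL := hU q.y (fun j => (z j).y) q.hL (fun j => (z j).hL.mono subset_rfl (z3 j))
    fun j p hp h => hy ((z4 j p h).1 hp)
  obtain ⟨ξ, hξ⟩ := above (hL.mono subset_rfl (by linarith))
  have q1 := q.h1
  have hL' := hM _ (nm (ξ, max M M')) hL ((nm_lev _).mono subset_rfl (by linarith))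
    fun p hp => (le_max_right _ _).trans hp.2
  have zs : ∀ j, (z j).y ⊆ q.y ∪ ⋃ j, (z j).y := fun j =>
    (subset_iUnion (fun j => (z j).y) j).trans subset_union_right
  have ok : ∀ k, OK q (ξ, max M M') {a | ∃ j, k ≤ j ∧ a ∈ In (z j).y \ In (lS W)} s
      ((q.y ∪ {x | ∃ j, k ≤ j ∧ x ∈ (z j).y}) ∪ nm (ξ, max M M')) := fun k =>
    ⟨s1.le, s2, hL'.mono (union_subset_union_left _ (union_subset_union_right _
      fun x ⟨j, _, h⟩ => mem_iUnion.2 ⟨j, h⟩)) le_rfl, subset_union_left.trans subset_union_left,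
      subset_union_right, fun c ⟨j, h1, h2⟩ => ⟨hξ c ((In_iff.1 h2.1).trans (zs j)),
        fun p hp => Or.inl (Or.inr ⟨j, h1, In_iff.1 h2.1 hp⟩)⟩⟩
  let e : ℕ → R := fun k => ins _ _ _ _ _ (ok k)
  have mono : ∀ a b, a ≤ b → Pu (e a) (e b) := fun a b h => ⟨le_rfl, union_subset_union_left _
    (union_subset_union_right _ fun _ ⟨j, h1, h2⟩ => ⟨j, h.trans h1, h2⟩), rfl,
    fun _ _ => Or.imp id fun ⟨g, j, h1, h2⟩ => ⟨g, j, h.trans h1, h2⟩⟩
  have inf : ∀ p : Om, (∀ k, ∃ j, k ≤ j ∧ p ∈ (z j).y) → p ∈ lS W := fun p h => by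
    obtain ⟨j, h1, h2⟩ := h (p.1 + 1)
    exact (z4 j p (lt_of_lt_of_le h1 (hN j))).1 h2
  refine ⟨wy q s (q.y ∪ nm (ξ, max M M')) s1.le s2 (hL'.mono
    (union_subset_union_left _ subset_union_left) le_rfl) subset_union_left,
    mem_of_dir hC e (fun a b => ⟨max a b, mono _ _ (le_max_left _ _), mono _ _ (le_max_right _ _)⟩)
      (fun k => IsScott.isLowerSet_of_isClosed hC (show e k ≤ z k from
        ⟨(z3 k).trans s1.le, fun p hp => Or.inl (Or.inr ⟨k, le_rfl, hp⟩), ?_⟩) (z1 k))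
      _ (fun _ => rfl) (fun r hr => ⟨0, hr.le⟩) (fun p hp => ?_) fun b a ha => ?_,
    rfl, fun _ => subset_rfl, le_rfl, fun p hp h => hp.resolve_right fun h' =>
      absurd ((le_max_left _ _).trans h'.2) (not_le.2 h)⟩
  · obtain ⟨Z, hZ⟩ := z2 k
    have um : U x Z ⊆ U (e k) (insert β (insert (ξ, max M M') Z)) :=
      U_mono (fun b a ha => Or.inl (hΦ b ha)) ((subset_insert _ _).trans (subset_insert _ _))
    have n1 : ∀ a ∈ In (z k).y, a ∉ In (lS W) → a ∈ (e k).Φ (ξ, max M M') := fun a h1 h2 =>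
      Or.inr ⟨rfl, k, le_rfl, h1, h2⟩
    have n2 : ∀ a ∈ In (z k).y, a ∉ F → a ∈ U (e k) (insert β (insert (ξ, max M M') Z)) :=
      fun a h1 h2 => by
        by_cases h : a ∈ In (lS W)
        · exact ⟨β, mem_insert _ _, Or.inl (hB ⟨h, h2⟩)⟩
        · exact ⟨_, Or.inr (mem_insert _ _), n1 a h1 h⟩
    refine ⟨insert β (insert (ξ, max M M') Z), fun _ => ?_, fun b a ha _ => ?_⟩
    · by_cases h : .inl (z k).r ∈ F
      · exact (hZ.1 h).imp (fun e => e.trans hr.symm) fun e => um e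
      · exact Or.inr (n2 _ (fun _ e => absurd e Sum.inl_ne_inr) h)
    have lst : ∀ c : On, (c = b ∨ (c.1 < b.1 ∧ nm c ⊆ (z k).y)) → nm c ⊆ (z k).y := by
      rintro c (rfl | h)
      · exact (z k).hn _ a ha
      · exact h.2
    by_cases h : a ∈ F
    · rcases hZ.2 b a ha h with ⟨e1, e2⟩ | ⟨l, hl, e1, e2⟩
      · refine Or.inl ⟨?_, Or.inl (hΦ b e2)⟩
        rintro (rfl | rfl | h)
        · exact hβ a e2
        · exact lt_irrefl _ (hξ _ ((q.hn _ a (hΦ _ e2)).trans subset_union_left))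
        · exact e1 h
      · refine Or.inr ⟨l, Or.inr (Or.inr hl), Or.inl (hΦ l e1), fun c _ hc => ?_⟩
        by_cases g : .inr c ∈ F
        · exact (e2 c g hc).imp id fun e => um e
        · exact Or.inr (n2 _ (In_iff.2 (lst c hc)) g)
    · by_cases g : a ∈ In (lS W)
      · refine Or.inr ⟨β, mem_insert _ _, Or.inl (hB ⟨g, h⟩), fun c _ hc => ?_⟩
        by_cases g' : nm c ⊆ lS W
        · exact Or.inl (hβ' c g')
        · exact Or.inr ⟨_, Or.inr (mem_insert _ _),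
            n1 _ (In_iff.2 (lst c hc)) fun h => g' (In_iff.1 h)⟩
      · exact Or.inr ⟨_, Or.inr (mem_insert _ _), n1 a (In_of ha) g, fun c _ hc =>
          Or.inl (hξ c ((lst c hc).trans (zs k)))⟩
  · by_cases h : p ∈ q.y ∪ nm (ξ, max M M')
    · exact h
    · refine Or.inl (hy (inf p fun k => ?_))
      rcases hp k with (g | g) | g
      · exact absurd (Or.inl g) h
      · exact g
      · exact absurd (Or.inr g) h
  · by_contra h
    have g : ∀ k, ∃ j, k ≤ j ∧ a ∈ In (z j).y \ In (lS W) := fun k => ((ha k).resolve_left h).2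
    obtain ⟨j, -, -, h'⟩ := g 0
    exact h' fun c hc p hp => inf p fun k => (g k).imp fun j h => ⟨h.1, h.2.1 c hc hp⟩

def Nb (x : R) (F : Set At) (N : ℕ) (r : ℝ) : Set R :=
  {w | (∃ Z, RZ F x w Z) ∧ (∀ p ∈ w.y, p.1 < N → p ∈ x.y) ∧ w.t < r}

theorem nb_open (x : R) {F : Set At} (hF : F.Finite) (N : ℕ) (r : ℝ) : IsOpen (Nb x F N r) := by
  refine open_of ?_ ?_
  · rintro w u ⟨h1, h2, Z', h3⟩ ⟨⟨Z, e1⟩, e2, e3⟩
    exact ⟨⟨_, e1.trans h3 h2⟩, fun p hp => e2 p (h2 hp), h1.trans_lt e3⟩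
  rintro D hne hD s ⟨⟨Z, e1⟩, e2, e3⟩ hs
  obtain ⟨d0, h0⟩ := id hne
  obtain ⟨d1, h1, f1⟩ := fin_ev hne hD (d0.hf.prod hF) (fun i d => i.2 ∈ d.Φ i.1 → i.2 ∈ s.Φ i.1)
    (fun i a b h g g' => g (h.2.2.2 _ g')) fun i _ => by
      by_contra hc
      push Not at hc
      exact (hc d0 h0).2 ((hs.2.2.2 _ _).2 fun d hd => (hc d hd).1)
  have yy : ∀ v : Set Om, ∃ d ∈ D, v ⊆ d.y → v ⊆ s.y := fun v => by
    by_contra hc
    push Not at hc
    exact (hc d0 h0).2 fun p hp => (hs.2.2.1 p).2 fun d hd => (hc d hd).1 hp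
  obtain ⟨d2, h2, f2⟩ := fin_ev hne hD (hF.preimage Sum.inr_injective.injOn)
    (fun c d => nm c ⊆ d.y → nm c ⊆ s.y) (fun i a b h g g' => g (g'.trans h.2.1)) fun c _ => yy _
  obtain ⟨d3, h3, f3⟩ := fin_ev hne hD (fin_low N) (fun p d => {p} ⊆ d.y → {p} ⊆ s.y)
    (fun i a b h g g' => g (g'.trans h.2.1)) fun c _ => yy _
  obtain ⟨_, ⟨d4, h4, rfl⟩, f4⟩ := (isGLB_lt_iff hs.2.1).1 e3
  obtain ⟨d, hd, f⟩ := fin_ev hne hD (toFinite {d0, d1, d2, d3, d4}) Pu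
    (fun _ _ _ h g => g.trans h) (by rintro i (rfl | rfl | rfl | rfl | rfl) <;>
      exact ⟨_, ‹_›, Pu.refl _⟩)
  have g0 := f d0 (by simp)
  have g1 := f d1 (by simp)
  have g2 := f d2 (by simp)
  have g3 := f d3 (by simp)
  have g4 := f d4 (by simp)
  refine ⟨d, hd, ⟨Z, fun h => ?_, fun b a ha h => ?_⟩, fun p hp h => e2 p
    (singleton_subset_iff.1 (f3 p h (singleton_subset_iff.2 (g3.2.1 hp)))) h, g4.1.trans_lt f4⟩
  · rw [← hs.1 d hd] at h ⊢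
    exact e1.1 h
  · refine (e1.2 b a (f1 (b, a) ⟨⟨a, g0.2.2.2 b ha⟩, h⟩ (g1.2.2.2 b ha)) h).imp id ?_
    rintro ⟨z, hz, k1, k2⟩
    exact ⟨z, hz, k1, fun c hc g => k2 c hc (g.imp id fun g => ⟨g.1, f2 c hc (g.2.trans g2.2.1)⟩)⟩

theorem self_nb (x : R) (F : Set At) (N : ℕ) {r : ℝ} (h : x.t < r) : x ∈ Nb x F N r :=
  ⟨⟨_, (Pu.refl x).rz F⟩, fun _ h _ => h, h⟩

theorem RZ.monoF {F G : Set At} {x w : R} {Z : Set On} (h : RZ G x w Z) (hF : F ⊆ G) :
    RZ F x w Z :=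
  ⟨fun g => h.1 (hF g), fun b a ha g => (h.2 b a ha (hF g)).imp id
    fun ⟨z, hz, k1, k2⟩ => ⟨z, hz, k1, fun c hc => k2 c (hF hc)⟩⟩

theorem fresh {s0 s : ℝ} (h0 : T / 2 ≤ s0) (hs : s0 < s) (hT : s < T) {w : Set Om} (hw : L s0 w)
    (M0 : ℕ) : ∃ β : On, M0 ≤ β.2 ∧ (∀ c : On, nm c ⊆ w → c.1 < β.1) ∧ L s (w ∪ nm β) := by
  obtain ⟨M, hM⟩ := L_add hs
  obtain ⟨ξ, hξ⟩ := above (hw.mono subset_rfl (hs.trans hT).le)
  exact ⟨(ξ, max M M0), le_max_right _ _, hξ,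
    hM _ _ hw ((nm_lev _).mono subset_rfl h0) fun x hx => (le_max_left _ _).trans hx.2⟩

theorem canon {V : Set R} (hV : IsOpen V) {x : R} (hx : x ∈ V) :
    ∃ F N r, F.Finite ∧ x.t < r ∧ Nb x F N r ⊆ V := by
  by_contra hc
  push Not at hc
  let ι := {i : Set At × ℕ × ℝ // i.1.Finite ∧ x.t < i.2.2}
  have _ : Nonempty ι := ⟨⟨(∅, 0, x.t + 1), finite_empty, lt_add_one _⟩⟩
  have mono : ∀ {F G : Set At} {N M : ℕ} {r s : ℝ}, F ⊆ G → N ≤ M → s ≤ r →
      Nb x G M s \ V ⊆ Nb x F N r \ V := fun h1 h2 h3 w ⟨⟨⟨Z, e1⟩, e2, e3⟩, e4⟩ =>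
    ⟨⟨⟨Z, e1.monoF h1⟩, fun p hp h => e2 p hp (h.trans_le h2), e3.trans_le h3⟩, e4⟩
  have nb : NeBot (⨅ i : ι, 𝓟 (Nb x i.1.1 i.1.2.1 i.1.2.2 \ V)) :=
    iInf_neBot_of_directed' (fun a b => ⟨⟨(a.1.1 ∪ b.1.1, max a.1.2.1 b.1.2.1, min a.1.2.2 b.1.2.2),
      a.2.1.union b.2.1, lt_min a.2.2 b.2.2⟩,
      principal_mono.2 (mono subset_union_left (le_max_left _ _) (min_le_left _ _)),
      principal_mono.2 (mono subset_union_right (le_max_right _ _) (min_le_right _ _))⟩)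
      fun i => principal_neBot_iff.2 (not_subset.1 (hc _ _ _ i.2.1 i.2.2))
  obtain ⟨W, hW⟩ := Ultrafilter.exists_le (⨅ i : ι, 𝓟 (Nb x i.1.1 i.1.2.1 i.1.2.2 \ V))
  have m : ∀ F N r, F.Finite → x.t < r → ∀ᶠ p in (W : Filter R), p ∈ Nb x F N r \ V :=
    fun F N r h1 h2 => le_principal_iff.1 (hW.trans (iInf_le _ (⟨(F, N, r), h1, h2⟩ : ι)))
  have mV : Vᶜ ∈ W := (m ∅ 0 _ finite_empty (lt_add_one _)).mono fun p hp => hp.2
  have my : lS W ⊆ x.y := fun p hp => by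
    obtain ⟨w, e1, e2⟩ := (Eventually.and hp (m ∅ (p.1 + 1) _ finite_empty (lt_add_one _))).exists
    exact e2.1.2.1 p e1 p.1.lt_succ_self
  refine SL hV.isClosed_compl x (fun s s1 s2 M => ?_) hx
  obtain ⟨β, b1, b2, b3⟩ := fresh x.h1 s1 s2 x.hL M
  have ok : ∀ F : Set At, OK x β (In (lS W) \ F) s (x.y ∪ nm β) := fun F =>
    ⟨s1.le, s2, b3, subset_union_left, subset_union_right, fun c hc =>
      ⟨b2 c ((In_iff.1 hc.1).trans my), (In_iff.1 hc.1).trans (my.trans subset_union_left)⟩⟩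
  have _ : Nonempty {F : Set At // F.Finite} := ⟨⟨∅, finite_empty⟩⟩
  have mono : ∀ F G : Set At, F ⊆ G → Pu (ins _ _ _ _ _ (ok F)) (ins _ _ _ _ _ (ok G)) :=
    fun F G h => ⟨le_rfl, subset_rfl, rfl, fun _ _ => Or.imp id
      fun e => ⟨e.1, e.2.1, fun g => e.2.2 (h g)⟩⟩
  refine ⟨wy x s (x.y ∪ nm β) s1.le s2 b3 subset_union_left,
    mem_of_dir hV.isClosed_compl (fun F : {F : Set At // F.Finite} => ins _ _ _ _ _ (ok F.1))
      (fun a b => ⟨⟨a.1 ∪ b.1, a.2.union b.2⟩, mono _ _ subset_union_left,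
        mono _ _ subset_union_right⟩)
      (fun F => conv hV.isClosed_compl W mV ((m F.1 0 s F.2 s1).mono fun p hp => hp.1.1) _ (β := β)
        ((m F.1 0 s F.2 s1).mono fun p hp => hp.1.2.2.le) (my.trans subset_union_left) rfl
        (fun _ _ => Or.inl) (fun a ha => lt_irrefl _ (b2 β (x.hn β a ha)))
        (fun a ha => Or.inr ⟨rfl, ha⟩) fun c hc => b2 c (hc.trans my))
      _ (fun _ => rfl) (fun r hr => ⟨Classical.arbitrary _, hr.le⟩)
      (fun _ h => h (Classical.arbitrary _)) fun b a ha =>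
        (ha ⟨{a}, finite_singleton a⟩).resolve_right fun h => h.2.2 rfl,
    rfl, fun _ => subset_rfl, le_rfl, fun p hp h => hp.resolve_right fun h' =>
      absurd (b1.trans h'.2) (not_le.2 h)⟩

theorem core (x : R) (V : Set R) (hV : IsOpen V) (hx : x ∈ V) :
    ∃ O : Set R, IsOpen O ∧ x ∈ O ∧ O ⊆ V ∧ ∀ 𝒲 : Set (Set R), (∀ W ∈ 𝒲, IsOpen W) → V ⊆ ⋃₀ 𝒲 →
      ∃ 𝒯 ⊆ 𝒲, 𝒯.Finite ∧ O ⊆ ⋃₀ 𝒯 := by
  obtain ⟨F, N, r, hF, hr, hs⟩ := canon hV hx
  have x1 := x.h1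
  obtain ⟨s, s1, s2⟩ := exists_between (lt_min hr x.h2)
  have s3 := (lt_min_iff.1 s2).1
  have s4 := (lt_min_iff.1 s2).2
  obtain ⟨N', -, hU⟩ := L_union (show (2 * x.t + s) / 3 < (x.t + 2 * s) / 3 by linarith)
  refine ⟨Nb x F (max N (N' 0)) ((2 * x.t + s) / 3), nb_open x hF _ _,
    self_nb x F _ (by linarith), fun w hw => hs ⟨hw.1, fun p hp h => hw.2.1 p hp
      (h.trans_le (le_max_left _ _)), by linarith [hw.2.2]⟩, fun 𝒲 hW hc => ?_⟩
  by_contra hn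
  push Not at hn
  have nb : NeBot (𝓟 (Nb x F (max N (N' 0)) ((2 * x.t + s) / 3)) ⊓ generate (compl '' 𝒲)) := by
    rw [inf_comm, ← frequently_mem_iff_neBot]
    intro h
    obtain ⟨t, h1, h2, h3⟩ := mem_generate_iff.1 h
    refine hn (compl '' t) ?_ (h2.image _) fun w hw => ?_
    · rintro _ ⟨a, ha, rfl⟩
      obtain ⟨b, hb, rfl⟩ := h1 ha
      rwa [compl_compl]
    · by_contra g
      exact h3 (fun a ha => not_not.1 fun g' => g ⟨aᶜ, ⟨a, ha, rfl⟩, g'⟩) hw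
  obtain ⟨W, h⟩ := Ultrafilter.exists_le
    (𝓟 (Nb x F (max N (N' 0)) ((2 * x.t + s) / 3)) ⊓ generate (compl '' 𝒲))
  have m : ∀ᶠ p in (W : Filter R), p ∈ Nb x F (max N (N' 0)) ((2 * x.t + s) / 3) :=
    le_principal_iff.1 (h.trans inf_le_left)
  have my : ∀ p ∈ lS W, p.1 < max N (N' 0) → p ∈ x.y := fun p hp g => by
    obtain ⟨w, e1, e2⟩ := (Eventually.and hp m).exists
    exact e2.2.1 p e1 g
  have l1 := lS_L (m.mono fun p hp => hp.2.2.le)
  have l2 : L ((x.t + 2 * s) / 3) (x.y ∪ lS W) :=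
    (hU x.y (fun j => if j = 0 then lS W else x.y) (x.hL.mono subset_rfl (by linarith))
      (fun j => by split_ifs; exacts [l1, x.hL.mono subset_rfl (by linarith)])
      (fun j p hp g => by
        split_ifs at hp with e
        · exact my p hp (g.trans_le (e ▸ le_max_right _ _))
        · exact hp)).mono
      (union_subset_union_right _ (subset_iUnion_of_subset 0 (by simp))) le_rfl
  obtain ⟨β, b1, b2, b3⟩ := fresh (by linarith) (show _ < s by linarith) s4 l2 N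
  have ok : OK x β (In (lS W) \ F) s (x.y ∪ lS W ∪ nm β) :=
    ⟨s1.le, s4, b3, subset_union_left.trans subset_union_left, subset_union_right, fun c hc =>
      ⟨b2 c ((In_iff.1 hc.1).trans subset_union_right),
        (In_iff.1 hc.1).trans (subset_union_right.trans subset_union_left)⟩⟩
  obtain ⟨O, o1, o2⟩ := hc (hs (show ins _ _ _ _ _ ok ∈ Nb x F N r from
    ⟨⟨∅, fun _ => Or.inl rfl, fun b a ha g => Or.inl ⟨notMem_empty _,
      ha.resolve_right fun e => e.2.2 g⟩⟩, by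
      rintro p ((g | g) | g) hp
      · exact g
      · exact my p g (hp.trans_le (le_max_left _ _))
      · exact absurd (b1.trans g.2) (not_le.2 hp), s3⟩))
  exact conv (hW O o1).isClosed_compl W
    ((h.trans inf_le_right) (mem_generate_of_mem ⟨O, o1, rfl⟩)) (m.mono fun p hp => hp.1)
    (ins _ _ _ _ _ ok) (β := β) (m.mono fun p hp => hp.2.2.le.trans (show _ ≤ s by linarith))
    (subset_union_right.trans subset_union_left) rfl (fun _ _ => Or.inl)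
    (fun a ha => lt_irrefl _ (b2 β ((x.hn β a ha).trans subset_union_left)))
    (fun a ha => Or.inr ⟨rfl, ha⟩) (fun c hc => b2 c (hc.trans subset_union_right)) o2

noncomputable def topR (n : ℕ) : R := ⟨n, T / 2, ∅, fun _ => ∅, le_rfl, by linarith [T_pos],
  fun n => by simp [LcS.cnt, Real.exp_nonneg], by simp, fun _ _ h => h.elim, fun _ _ h => h.elim,
  fun _ _ h => h.elim⟩

theorem not_sober : ¬ QuasiSober R := by
  intro h
  have ev : ∀ V : Set R, IsOpen V → V.Nonempty → {n | topR n ∉ V}.Finite := by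
    rintro V hV ⟨x, hx⟩
    obtain ⟨F, N, r, hF, hr, hs⟩ := canon hV hx
    refine (hF.preimage Sum.inl_injective.injOn).subset fun n hn => ?_
    by_contra g
    exact hn (hs ⟨⟨∅, fun e => absurd e g, fun _ _ h => h.elim⟩, fun _ h => h.elim,
      x.h1.trans_lt hr⟩)
  have irr : IsIrreducible (univ : Set R) := ⟨⟨topR 0, trivial⟩, fun V W hV hW h1 h2 => by
    obtain ⟨n, hn⟩ := ((ev V hV (h1.mono inter_subset_right)).union
      (ev W hW (h2.mono inter_subset_right))).exists_notMem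
    simp only [mem_union, mem_ofPred_eq, not_or, not_not] at hn
    exact ⟨topR n, trivial, hn⟩⟩
  obtain ⟨x, hx⟩ := QuasiSober.sober irr isClosed_univ
  have : topR (x.r + 1) ∈ closure {x} := hx.def ▸ trivial
  rw [IsScott.closure_singleton] at this
  obtain ⟨Z, hZ⟩ := this.2.2
  rcases hZ.1 trivial with e | ⟨_, _, e⟩
  · exact absurd e (Nat.succ_ne_self _).symm
  · exact e

theorem meetc (x : R) (D : Set R) (s : R) (hne : D.Nonempty) (hD : DirectedOn (· ≤ ·) D)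
    (hs : IsLUB D s) (hx : x ≤ s) : x ∈ closure {y : R | y ≤ x ∧ ∃ d ∈ D, y ≤ d} := by
  obtain ⟨s', e1, E, e2, e3, e4, e5⟩ := exists_lub hne hD
  obtain rfl := hs.unique e1
  obtain ⟨x1, x2, Z, hZ⟩ := hx
  obtain ⟨C, hC⟩ : ∃ C, C = {y : R | y ≤ x ∧ ∃ d ∈ D, y ≤ d} := ⟨_, rfl⟩
  have mC : ∀ y : R, (y ≤ x ∧ ∃ d ∈ D, y ≤ d) → y ∈ closure C := fun y h => subset_closure (hC ▸ h)
  rw [← hC]
  refine SL isClosed_closure x fun u u1 u2 M => ?_
  obtain ⟨N, -, hU⟩ := L_union (show (2 * x.t + u) / 3 < (x.t + 2 * u) / 3 by linarith)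
  obtain ⟨d0, h0, -, g1, g2⟩ : ∃ d ∈ E, d ∈ Nb s ∅ (N 0) ((2 * x.t + u) / 3) := by
    by_contra hc
    push Not at hc
    exact IsScott.dirSupClosed_of_isClosed (nb_open s finite_empty _ _).isClosed_compl hc e3
      (e4.mono fun _ _ => Pu.le) (e5.isLUB e3 e4) (self_nb s ∅ _ (by linarith))
  have l2 : L ((x.t + 2 * u) / 3) (x.y ∪ d0.y) :=
    (hU x.y (fun j => if j = 0 then d0.y else x.y) (x.hL.mono subset_rfl (by linarith))
      (fun j => by split_ifs; exacts [d0.hL.mono subset_rfl g2.le, x.hL.mono subset_rfl (by linarith)])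
      (fun j p hp g => by
        split_ifs at hp with e
        · exact x2 (g1 p hp (e ▸ g))
        · exact hp)).mono
      (union_subset_union_right _ (subset_iUnion_of_subset 0 (by simp))) le_rfl
  have x0 := x.h1
  obtain ⟨β, b1, b2, b3⟩ := fresh (by linarith) (show _ < u by linarith) u2 l2 M
  let ι := {d : R // d ∈ E ∧ Pu d0 d}
  have _ : Nonempty ι := ⟨⟨d0, h0, Pu.refl _⟩⟩
  have up : ∀ d ∈ E, ∃ c : ι, Pu d c.1 := fun d hd => by
    obtain ⟨c, hc, f1, f2⟩ := e4 d hd d0 h0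
    exact ⟨⟨c, hc, f2⟩, f1⟩
  have rk : ∀ (d : ι) (c : On), nm c ⊆ d.1.y → c.1 < β.1 := fun d c h =>
    b2 c ((h.trans d.2.2.2.1).trans subset_union_right)
  let J : R → Set At := fun d => {a | (∃ b, a ∈ d.Φ b ∧ a ∉ s.Φ b) ∨ a ∈ In d.y \ In s.y}
  have ok : ∀ d : ι, OK x β (J d.1) u (x.y ∪ d.1.y ∪ nm β) := fun d =>
    ⟨u1.le, u2, b3.mono (union_subset_union_left _ (union_subset_union_right _ d.2.2.2.1)) le_rfl,
      subset_union_left.trans subset_union_left, subset_union_right, fun c hc => by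
        have : nm c ⊆ d.1.y := hc.elim (fun ⟨b, h, _⟩ => d.1.hm b c h) fun h => In_iff.1 h.1
        exact ⟨rk d c this, this.trans (subset_union_right.trans subset_union_left)⟩⟩
  have jm : ∀ a b : R, Pu a b → J b ⊆ J a := fun a b h _ => Or.imp
    (fun ⟨c, h1, h2⟩ => ⟨c, h.2.2.2 c h1, h2⟩) fun g => ⟨fun c e => (g.1 c e).trans h.2.1, g.2⟩
  have mono : ∀ a b : ι, Pu a.1 b.1 → Pu (ins _ _ _ _ _ (ok a)) (ins _ _ _ _ _ (ok b)) :=
    fun a b h => ⟨le_rfl, union_subset_union_left _ (union_subset_union_right _ h.2.1), rfl,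
      fun _ _ => Or.imp id fun e => ⟨e.1, jm _ _ h e.2⟩⟩
  have nb : ∀ b, ∀ a ∈ x.Φ b, b ≠ β := fun b a ha e =>
    lt_irrefl _ (b2 β ((e ▸ x.hn b a ha : nm β ⊆ x.y).trans subset_union_left))
  refine ⟨wy x u (x.y ∪ nm β) u1.le u2 (b3.mono (union_subset_union_left _ subset_union_left) le_rfl)
    subset_union_left, mem_of_dir isClosed_closure (fun d : ι => ins _ _ _ _ _ (ok d))
      (fun a b => ?_) (fun d => mC _ ⟨show ins _ _ _ _ _ (ok d) ≤ x from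
        ⟨u1.le, subset_union_left.trans subset_union_left,
        {β}, fun _ => Or.inl rfl, fun b a ha _ => Or.inl ⟨nb b a ha, Or.inl ha⟩⟩, d.1, e2 d.2.1,
        show ins _ _ _ _ _ (ok d) ≤ d.1 from
        ⟨d.2.2.1.trans (show _ ≤ u by linarith), subset_union_right.trans subset_union_left,
          insert β Z, ?_⟩⟩) _ (fun _ => rfl) (fun r hr => ⟨Classical.arbitrary _, hr.le⟩)
      (fun p hp => ?_) fun b a ha => ?_, rfl, fun _ => subset_rfl, le_rfl,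
    fun p hp h => hp.resolve_right fun h' => absurd (b1.trans h'.2) (not_le.2 h)⟩
  · obtain ⟨c, hc, f1, f2⟩ := e4 a.1 a.2.1 b.1 b.2.1
    exact ⟨⟨c, hc, a.2.2.trans f1⟩, mono _ _ f1, mono _ _ f2⟩
  · have um : U x Z ⊆ U (ins _ _ _ _ _ (ok d)) (insert β Z) :=
      U_mono (fun b a ha => Or.inl ha) (subset_insert _ _)
    refine ⟨fun _ => ?_, fun b a ha _ => ?_⟩
    · rw [← e5.1 _ d.2.1]
      exact (hZ.1 trivial).imp id fun e => um e
    by_cases h : a ∈ s.Φ b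
    · rcases hZ.2 b a h trivial with ⟨f1, f2⟩ | ⟨z, hz, f1, f2⟩
      · exact Or.inl ⟨fun g => g.elim (nb b a f2) f1, Or.inl f2⟩
      · refine Or.inr ⟨z, Or.inr hz, Or.inl f1, fun c _ hc => ?_⟩
        by_cases g : c = b ∨ (c.1 < b.1 ∧ nm c ⊆ s.y)
        · exact (f2 c trivial g).imp id fun e => um e
        · have := hc.resolve_left fun e => g (Or.inl e)
          exact Or.inr ⟨β, mem_insert _ _, Or.inr ⟨rfl, Or.inr ⟨In_iff.2 this.2,
            fun k => g (Or.inr ⟨this.1, In_iff.1 k⟩)⟩⟩⟩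
    · refine Or.inr ⟨β, mem_insert _ _, Or.inr ⟨rfl, Or.inl ⟨b, ha, h⟩⟩, fun c _ hc => Or.inl ?_⟩
      rcases hc with rfl | hc
      · exact rk d _ (d.1.hn _ a ha)
      · exact rk d c hc.2
  · by_cases h : p ∈ x.y ∪ nm β
    · exact h
    · refine Or.inl (x2 ((e5.2.2.1 p).2 fun d hd => ?_))
      obtain ⟨c, hc⟩ := up d hd
      rcases hp c with (g | g) | g
      · exact absurd (Or.inl g) h
      · exact hc.2.1 g
      · exact absurd (Or.inr g) h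
  · by_contra h
    obtain ⟨d1, h1, f1⟩ := fin_ev e3 e4 d0.hf (fun i d => a ∈ d.Φ i → a ∈ s.Φ i)
      (fun i a b h g g' => g (h.2.2.2 _ g')) fun i _ => by
        by_contra hc
        push Not at hc
        exact (hc d0 h0).2 ((e5.2.2.2 _ _).2 fun d hd => (hc d hd).1)
    obtain ⟨d2, h2, f2⟩ : ∃ d ∈ E, a ∈ In d.y → a ∈ In s.y := by
      by_contra hc
      push Not at hc
      exact (hc d0 h0).2 fun c e p hp => (e5.2.2.1 p).2 fun d hd => (hc d hd).1 c e hp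
    obtain ⟨d3, h3, k1, k2⟩ := e4 d1 h1 d2 h2
    obtain ⟨c, hc⟩ := up d3 h3
    rcases ((ha c).resolve_left h).2 with ⟨l, g1, g2⟩ | g
    · exact g2 (f1 l ⟨a, c.2.2.2.2.2 l g1⟩ ((k1.trans hc).2.2.2 l g1))
    · exact g.2 (f2 fun c' e => (g.1 c' e).trans (k2.trans hc).2.1)

end Pool.Agent.H29.Jia
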