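import Mathlib

set_option autoImplicit false

open Cardinal Set Topology

namespace Pool.Agent.H29.KDet

def P : ℕ → Type
  | 0 => ℕ
  | (n+1) => Set (Set (P n))

lemma P_lt (n : ℕ) : #(P n) < #(Set (P n)) := by
  rw [mk_set]; exact cantor _

lemma P_succ (n : ℕ) : #(P n) ≤ #(P (n+1)) := by
  have h1 := P_lt n
  have h2 : #(Set (P n)) < #(Set (Set (P n))) := by rw [mk_set (α := Set (P n))]; exact cantor _
  exact (h1.trans h2).le

lemma P_mono {i j : ℕ} (h : i ≤ j) : #(P i) ≤ #(P j) := by
  induction h with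
  | refl => exact le_rfl
  | step _ ih => exact ih.trans (P_succ _)

lemma P_inf (n : ℕ) : ℵ₀ ≤ #(P n) := by
  have h : #(P 0) ≤ #(P n) := P_mono (Nat.zero_le n)
  have h0 : #(P 0) = ℵ₀ := mk_nat
  rwa [h0] at h

def Small (j : ℕ) (s : Set (P j) → Prop) : Prop := #{a // s a} ≤ #(P j)

lemma Small.mono {j : ℕ} {s t : Set (P j) → Prop} (h : Small j t) (hst : ∀ a, s a → t a) :
    Small j s :=
  le_trans (mk_le_mk_of_subset (s := {a | s a}) (t := {a | t a}) hst) h

lemma small_union {j : ℕ} {ι : Type} (hι : #ι ≤ #(P j)) (s : ι → Set (P j) → Prop)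
    (hs : ∀ i, Small j (s i)) : Small j (fun a => ∃ i, s i a) := by
  have h1 : #(⋃ i, {a | s i a}) ≤ #ι * ⨆ i, #{a | s i a} := mk_iUnion_le _
  have h2 : (⨆ i, #{a | s i a}) ≤ #(P j) := ciSup_le' hs
  have h3 : #ι * (⨆ i, #{a | s i a}) ≤ #(P j) * #(P j) := mul_le_mul' hι h2
  rw [mul_eq_self (P_inf j)] at h3
  refine le_trans (le_of_eq ?_) (h1.trans h3)
  apply mk_congr
  apply Equiv.subtypeEquivRight
  intro a; simp

lemma not_small_top (j : ℕ) : ¬ Small j (fun _ => True) := by
  intro h
  have h1 : #{a : Set (P j) // True} = #(Set (P j)) := mk_congr (Equiv.subtypeUnivEquiv (fun _ => trivial))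
  unfold Small at h
  rw [h1] at h
  exact absurd (P_lt j) (not_lt.mpr h)

lemma small_single (j : ℕ) (b : Set (P j)) : Small j (fun a => a = b) := by
  unfold Small
  have : #{a : Set (P j) // a = b} ≤ 1 := by
    rw [le_one_iff_subsingleton]
    exact ⟨fun x y => Subtype.ext (x.2.trans y.2.symm)⟩
  exact this.trans (le_trans one_le_aleph0 (P_inf j))

abbrev X (j : ℕ) : Type := {s : Set (P j) → Prop // Small j s}

abbrev Y : Type := {y : ∀ j, Set (P j) → Prop // {j | ¬ Small j (y j)}.Finite}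

lemma card_X (j : ℕ) : #(X j) ≤ #(P (j+1)) := mk_subtype_le _

lemma prop_spec {p q : Prop} : p ⤳ q ↔ (q → p) := by
  constructor
  · intro h hq
    have := h.mem_open isOpen_singleton_true (by simp [hq])
    simpa using this
  · intro h
    by_cases hq : q
    · have : p = q := propext ⟨fun _ => hq, h⟩
      rw [this]
    · have : q = False := propext ⟨hq, False.elim⟩
      rw [this, specializes_iff_pure]
      simp [nhds_false]

lemma X_ind (j : ℕ) : IsInducing (Subtype.val : X j → _) := ⟨rfl⟩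

lemma Y_ind : IsInducing (Subtype.val : Y → _) := ⟨rfl⟩

lemma X_spec {j : ℕ} {s t : X j} : s ⤳ t ↔ ∀ a, t.1 a → s.1 a := by
  rw [← (X_ind j).specializes_iff, specializes_pi]
  simp only [prop_spec]

lemma Y_spec {s t : Y} : s ⤳ t ↔ ∀ j a, t.1 j a → s.1 j a := by
  rw [← Y_ind.specializes_iff, specializes_pi]
  simp only [specializes_pi, prop_spec]

lemma uniq {Z : Type} [TopologicalSpace Z] [T0Space Z] {B : Set Z} {y : Z}
    (h : B = closure {y}) : ∃! y, B = closure {y} :=
  ⟨y, h, fun _ hz => (inseparable_iff_closure_eq.mpr (hz.symm.trans h)).eq⟩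

lemma sup_mem (i : ℕ) (f : X i → Y) (hf : Continuous f) (A : Set (X i)) :
    {j | ¬ Small j (fun a => ∃ x ∈ A, (f x).1 j a)}.Finite := by
  by_contra hinf
  have hJ : ({j | ¬ Small j (fun a => ∃ x ∈ A, (f x).1 j a)} \ Iic i).Infinite :=
    Set.Infinite.sdiff hinf (finite_Iic i)
  have hx : ∀ j : ℕ, ∃ x : X i, j ∈ ({j | ¬ Small j (fun a => ∃ x ∈ A, (f x).1 j a)} \ Iic i) →
      ¬ Small j ((f x).1 j) := by
    intro j
    by_contra hcon
    push Not at hcon
    have h0 := (hcon ⟨fun a => a = ∅, small_single i ∅⟩).1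
    apply h0.1
    have hij : i + 1 ≤ j := by
      have := h0.2; simp only [mem_Iic, not_le] at this; omega
    have := small_union ((card_X i).trans (P_mono hij)) (fun x => (f x).1 j) (fun x => (hcon x).2)
    exact this.mono (fun a ⟨x, _, hx⟩ => ⟨x, hx⟩)
  choose x hx using hx
  let z : X i := ⟨fun a => ∃ j, (x j).1 a,
    small_union (by rw [mk_nat]; exact P_inf i) (fun j => (x j).1) (fun j => (x j).2)⟩
  apply hJ
  refine (f z).2.subset ?_
  intro j hj hs
  apply hx j hj
  have h1 : z ⤳ x j := X_spec.mpr (fun a ha => ⟨j, ha⟩)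
  exact Small.mono hs (Y_spec.mp (h1.map hf) j)

lemma det_Y (i : ℕ) (f : X i → Y) (hf : Continuous f) (A : Set (X i)) (hA : IsIrreducible A) :
    ∃ y : Y, closure (f '' A) = closure {y} := by
  let y : Y := ⟨fun j a => ∃ x ∈ A, (f x).1 j a, sup_mem i f hf A⟩
  refine ⟨y, Subset.antisymm ?_ ?_⟩
  · apply closure_minimal _ isClosed_closure
    rintro _ ⟨x, hx, rfl⟩
    rw [← specializes_iff_mem_closure]
    exact Y_spec.mpr (fun j a h => ⟨x, hx, h⟩)
  · apply closure_minimal _ isClosed_closure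
    rintro _ rfl
    -- the filter of open sets meeting A, restricted to A
    have key : ∀ U ∈ 𝓝 y, ∃ V : Set (X i), IsOpen V ∧ (A ∩ V).Nonempty ∧ ∀ x ∈ V, f x ∈ U := by
      let F : Filter (X i) :=
        { sets := {W | ∃ V : Set (X i), IsOpen V ∧ (A ∩ V).Nonempty ∧ V ⊆ W}
          univ_sets := ⟨univ, isOpen_univ, by simpa using hA.nonempty, subset_rfl⟩
          sets_of_superset := fun ⟨V, h1, h2, h3⟩ h => ⟨V, h1, h2, h3.trans h⟩
          inter_sets := fun ⟨V, h1, h2, h3⟩ ⟨V', h1', h2', h3'⟩ =>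
            ⟨V ∩ V', h1.inter h1', hA.2 V V' h1 h1' h2 h2', inter_subset_inter h3 h3'⟩ }
      have ht : Filter.Tendsto f F (𝓝 y) := by
        rw [Y_ind.tendsto_nhds_iff, tendsto_pi_nhds]
        intro j
        rw [tendsto_pi_nhds]
        intro a
        by_cases h : y.1 j a
        · rw [propext (iff_true_intro h), tendsto_nhds_true]
          obtain ⟨x, hx, hxa⟩ := h
          refine ⟨{x | (f x).1 j a}, ?_, ⟨x, hx, hxa⟩, subset_rfl⟩
          apply continuous_Prop.mp
          exact (continuous_apply a).comp ((continuous_apply j).comp (continuous_subtype_val.comp hf))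
        · rw [propext (iff_false_intro h), nhds_false]
          exact Filter.tendsto_top
      intro U hU
      obtain ⟨V, h1, h2, h3⟩ := ht hU
      exact ⟨V, h1, h2, fun x hx => h3 hx⟩
    rw [mem_closure_iff_nhds]
    intro U hU
    obtain ⟨V, _, ⟨x, hxA, hxV⟩, h3⟩ := key U hU
    exact ⟨f x, h3 x hxV, x, hxA, rfl⟩

def K (Z : Type) [TopologicalSpace Z] : Prop := (T0Space Z ∧ QuasiSober Z) ∨ Nonempty (Z ≃ₜ Y)

lemma K_T0 (Z : Type) [TopologicalSpace Z] (h : K Z) : T0Space Z := by
  rcases h with h | ⟨⟨e⟩⟩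
  · exact h.1
  · exact e.symm.t0Space

lemma det (i : ℕ) (A : Set (X i)) (hA : IsIrreducible A) (Z : Type) [TopologicalSpace Z]
    (hZ : K Z) (f : X i → Z) (hf : Continuous f) : ∃! y : Z, closure (f '' A) = closure {y} := by
  have := K_T0 Z hZ
  rcases hZ with h | ⟨⟨e⟩⟩
  · have := h.2
    obtain ⟨y, hy⟩ := QuasiSober.sober (hA.image f hf.continuousOn).closure isClosed_closure
    exact uniq hy.symm
  · obtain ⟨y, hy⟩ := det_Y i (e ∘ f) (e.continuous.comp hf) A hA
    apply uniq (y := e.symm y)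
    have h1 := congrArg (fun S => e.symm '' S) hy
    simp only [Homeomorph.image_closure, image_singleton, ← image_comp] at h1
    rw [← h1]
    congr 1
    apply image_congr
    intro a _; simp

def emb (x : ∀ j, X j) : Y := ⟨fun j => (x j).1, by
  have : {j | ¬ Small j (x j).1} = ∅ := by
    ext j; simp [(x j).2]
  rw [this]; exact finite_empty⟩

lemma emb_cont : Continuous emb := by
  apply Continuous.subtype_mk
  exact continuous_pi (fun j => continuous_subtype_val.comp (continuous_apply j))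

lemma irr : IsIrreducible (univ : Set (∀ j, X j)) := by
  refine ⟨⟨fun j => ⟨fun a => a = ∅, small_single j ∅⟩, trivial⟩, ?_⟩
  rintro U V hU hV ⟨x, _, hx⟩ ⟨y, _, hy⟩
  let z : ∀ j, X j := fun j => ⟨fun a => ∃ b : Bool, (if b then (x j).1 else (y j).1) a,
    small_union (by
      have : #Bool ≤ ℵ₀ := mk_le_aleph0
      exact this.trans (P_inf j)) _ (fun b => by cases b <;> simp [(x j).2, (y j).2])⟩
  refine ⟨z, trivial, ?_, ?_⟩
  · refine Specializes.mem_open ?_ hU hx
    rw [specializes_pi]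
    intro j
    exact X_spec.mpr (fun a ha => ⟨true, by simpa using ha⟩)
  · refine Specializes.mem_open ?_ hV hy
    rw [specializes_pi]
    intro j
    exact X_spec.mpr (fun a ha => ⟨false, by simpa using ha⟩)

lemma fail : ¬ ∃ y : Y, closure (emb '' univ) = closure {y} := by
  rintro ⟨y, hy⟩
  have h1 : ∀ x, y ⤳ emb x := fun x => by
    rw [specializes_iff_mem_closure, ← hy]
    exact subset_closure ⟨x, trivial, rfl⟩
  have h2 : ∀ j, ¬ Small j (y.1 j) := by
    intro j hs
    apply not_small_top j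
    refine hs.mono (fun a _ => ?_)
    classical
    have := Y_spec.mp (h1 (Function.update (fun k => ⟨fun a => a = ∅, small_single k ∅⟩) j
      ⟨fun b => b = a, small_single j a⟩)) j a
    apply this
    simp [emb]
  have h3 := y.2
  have : {j | ¬ Small j (y.1 j)} = Set.univ := by ext j; simp [h2 j]
  rw [this] at h3
  exact infinite_univ h3

end Pool.Agent.H29.KDet
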