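import Mathlib

set_option autoImplicit false

namespace Pool.Agent.H29.KW2

open MeasureTheory ProbabilityTheory Filter
open scoped ENNReal

/-- One Kiefer-Wolfowitz step for two servers: workload vector `w`, service `s`, interarrival `t`. -/
noncomputable def step (w : ℝ × ℝ) (s t : ℝ) : ℝ × ℝ :=
  (min (max (w.1 + s - t) 0) (max (w.2 - t) 0), max (max (w.1 + s - t) 0) (max (w.2 - t) 0))

/-- `π` is a stationary law of the two-server workload chain with interarrival law `τ` and
service law `σ`. -/
def Stationary (τ σ : Measure ℝ) (π : Measure (ℝ × ℝ)) : Prop :=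
  IsProbabilityMeasure π ∧ (∀ᵐ w ∂π, 0 ≤ w.1 ∧ w.1 ≤ w.2) ∧
    (π.prod (σ.prod τ)).map (fun p => step p.1 p.2.1 p.2.2) = π

noncomputable def two {α : Type} [MeasurableSpace α] (a b : α) : Measure α :=
  ENNReal.ofReal (1 / 4) • Measure.dirac a + ENNReal.ofReal (3 / 4) • Measure.dirac b

instance {α : Type} [MeasurableSpace α] (a b : α) : IsProbabilityMeasure (two a b) := ⟨by
  simp only [two, Measure.add_apply, Measure.smul_apply, measure_univ, smul_eq_mul, mul_one]
  rw [← ENNReal.ofReal_add (by norm_num) (by norm_num)]; norm_num⟩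

section
variable {α : Type} [MeasurableSpace α] [MeasurableSingletonClass α] (a b : α)

lemma two_integrable (f : α → ℝ) : Integrable f (two a b) :=
  ((integrable_dirac (by simp)).smul_measure (by simp)).add_measure
    ((integrable_dirac (by simp)).smul_measure (by simp))

lemma two_int (f : α → ℝ) : ∫ x, f x ∂two a b = 1 / 4 * f a + 3 / 4 * f b := by
  rw [two, integral_add_measure ((integrable_dirac (by simp)).smul_measure (by simp))
    ((integrable_dirac (by simp)).smul_measure (by simp)), integral_smul_measure,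
    integral_smul_measure]
  simp only [integral_dirac, smul_eq_mul]
  rw [ENNReal.toReal_ofReal (by norm_num), ENNReal.toReal_ofReal (by norm_num)]

lemma two_lint (f : α → ℝ≥0∞) :
    ∫⁻ x, f x ∂two a b = ENNReal.ofReal (1 / 4) * f a + ENNReal.ofReal (3 / 4) * f b := by
  simp [two, lintegral_add_measure, lintegral_smul_measure]

lemma two_ae {p : α → Prop} (ha : p a) (hb : p b) : ∀ᵐ x ∂two a b, p x := by
  rw [two, ae_add_measure_iff]
  exact ⟨Measure.ae_smul_measure (by simpa) _, Measure.ae_smul_measure (by simpa) _⟩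

end

lemma step_cont : Continuous fun p : (ℝ × ℝ) × ℝ × ℝ => step p.1 p.2.1 p.2.2 := by
  unfold step; fun_prop

lemma map_int (π : Measure (ℝ × ℝ)) [IsProbabilityMeasure π] {f : ℝ × ℝ → ℝ≥0∞}
    (hf : Measurable f) :
    ∫⁻ w, f w ∂(π.prod ((two 0 2).prod (Measure.dirac 1))).map (fun p => step p.1 p.2.1 p.2.2) =
      ∫⁻ w, (ENNReal.ofReal (1 / 4) * f (step w 0 1) + ENNReal.ofReal (3 / 4) * f (step w 2 1)) ∂π := by
  have m : Measurable fun p : (ℝ × ℝ) × ℝ × ℝ => f (step p.1 p.2.1 p.2.2) :=
    hf.comp step_cont.measurable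
  rw [lintegral_map hf step_cont.measurable, lintegral_prod _ m.aemeasurable]
  refine lintegral_congr fun w => ?_
  have m' : Measurable fun p : ℝ × ℝ => f (step w p.1 p.2) := m.comp measurable_prodMk_left
  rw [lintegral_prod _ m'.aemeasurable]
  simp only [lintegral_dirac]
  rw [two_lint]

lemma stat_of {π : Measure (ℝ × ℝ)} [IsProbabilityMeasure π]
    (h : ∀ᵐ w ∂π, w.1 = 0 ∧ w.2 ≤ 1) :
    (π.prod ((two 0 2).prod (Measure.dirac 1))).map (fun p => step p.1 p.2.1 p.2.2) =
      two (0, 0) (0, 1) := by
  refine Measure.ext_of_lintegral _ fun f hf => ?_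
  rw [map_int π hf, two_lint, lintegral_congr_ae (g := fun _ => ENNReal.ofReal (1 / 4) * f (0, 0) +
    ENNReal.ofReal (3 / 4) * f (0, 1))]
  · simp
  · filter_upwards [h] with w hw
    have e : max (w.2 - 1) 0 = 0 := max_eq_right (by linarith [hw.2])
    simp only [step, hw.1, e]
    norm_num

lemma stat0 : Stationary (Measure.dirac 1) (two 0 2) (two (0, 0) (0, 1)) :=
  ⟨inferInstance, two_ae _ _ (by simp) (by simp), stat_of (two_ae _ _ (by simp) (by simp))⟩

noncomputable def U (w : ℝ × ℝ) : ℝ := max (max w.1 (w.2 - 1)) 0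

noncomputable def g (u : ℝ) : ℝ := 1 - Real.exp (-u)

lemma g_mono : StrictMono g := fun a b h => by
  have := Real.exp_lt_exp.2 (neg_lt_neg h)
  unfold g; linarith

lemma uniq {π : Measure (ℝ × ℝ)} (h : Stationary (Measure.dirac 1) (two 0 2) π) :
    π = two (0, 0) (0, 1) := by
  obtain ⟨hp, ho, he⟩ := h
  rw [← he]
  apply stat_of
  have g0 : ∀ u, 0 ≤ u → 0 ≤ g u := fun u hu => by
    have := g_mono.monotone hu
    simpa [g] using this
  have U0 : ∀ w, 0 ≤ U w := fun w => le_max_right _ _
  have cg : Continuous g := by unfold g; fun_prop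
  have cU : Continuous U := by unfold U; fun_prop
  have m : Measurable fun w => ENNReal.ofReal (g (U w)) := (cg.comp cU).measurable.ennreal_ofReal
  have e := map_int π m
  rw [he] at e
  let D : ℝ × ℝ → ℝ≥0∞ := fun w => ENNReal.ofReal (1 / 4 * (g (U w) - g (max (U w - 1) 0)))
  have mD : Measurable D := by
    refine Measurable.ennreal_ofReal (Continuous.measurable ?_)
    fun_prop
  have k : ∫⁻ w, D w ∂π + ∫⁻ w, ENNReal.ofReal (g (U w)) ∂π
      ≤ ∫⁻ w, ENNReal.ofReal (g (U w)) ∂π := by
    conv_lhs => rw [e]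
    rw [← lintegral_add_left mD]
    refine lintegral_mono_ae ?_
    filter_upwards [ho] with w hw
    have a1 : U (step w 0 1) ≤ max (U w - 1) 0 := by
      have := hw.1; have := hw.2
      simp only [U, step, max_def, min_def]
      split_ifs <;> linarith
    have a2 : U (step w 2 1) ≤ U w := by
      have := hw.1; have := hw.2
      simp only [U, step, max_def, min_def]
      split_ifs <;> linarith
    have a3 : max (U w - 1) 0 ≤ U w := max_le (by linarith) (U0 w)
    have b1 := g_mono.monotone a1
    have b2 := g_mono.monotone a2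
    have b3 := g_mono.monotone a3
    have c1 := g0 _ (U0 (step w 0 1))
    have c2 := g0 _ (U0 (step w 2 1))
    simp only [D]
    rw [← ENNReal.ofReal_mul (by norm_num), ← ENNReal.ofReal_mul (by norm_num),
      ← ENNReal.ofReal_add (by positivity) (by positivity),
      ← ENNReal.ofReal_add (by linarith) (by positivity)]
    exact ENNReal.ofReal_le_ofReal (by linarith)
  have fin : ∫⁻ w, ENNReal.ofReal (g (U w)) ∂π ≠ ⊤ := by
    refine ne_top_of_le_ne_top (b := ∫⁻ _, 1 ∂π) (by simp) (lintegral_mono fun w => ?_)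
    refine ENNReal.ofReal_le_one.2 ?_
    have := Real.exp_pos (-U w)
    unfold g; linarith
  have z : ∫⁻ w, D w ∂π = 0 := by
    rw [← nonpos_iff_eq_zero, ← ENNReal.add_le_add_iff_right fin]; simpa using k
  rw [lintegral_eq_zero_iff mD] at z
  filter_upwards [z, ho] with w hw ho
  simp only [D, Pi.zero_apply, ENNReal.ofReal_eq_zero] at hw
  have : U w ≤ max (U w - 1) 0 := g_mono.le_iff_le.1 (by linarith)
  have u : U w ≤ 0 := by
    rcases le_max_iff.1 this with h | h
    · linarith
    · exact h
  simp only [U, max_le_iff] at u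
  exact ⟨le_antisymm u.1.1 ho.1, by linarith [u.1.2]⟩

end Pool.Agent.H29.KW2
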