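import Mathlib

set_option autoImplicit false

namespace Pool.Agent.H29.KWk

open MeasureTheory Filter Finset
open scoped ENNReal Topology

variable {k : ℕ}

/-- The unsorted workloads after serving `s` at the least loaded server and waiting `τ`. -/
noncomputable def pre (w : Fin (k + 1) → ℝ) (s τ : ℝ) (l : Fin (k + 1)) : ℝ :=
  max (w l + (if l = 0 then s else 0) - τ) 0

/-- One Kiefer-Wolfowitz step: the increasing rearrangement of `pre w s τ`. -/
noncomputable def step (w : Fin (k + 1) → ℝ) (s τ : ℝ) : Fin (k + 1) → ℝ :=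
  pre w s τ ∘ Tuple.sort (pre w s τ)

/-- `π` is a stationary law of the workload chain with interarrival law `T`, service law `S`. -/
def Stationary (T S : Measure ℝ) (π : Measure (Fin (k + 1) → ℝ)) : Prop :=
  IsProbabilityMeasure π ∧ (∀ᵐ w ∂π, Monotone w ∧ ∀ l, 0 ≤ w l) ∧
    (π.prod (S.prod T)).map (fun p => step p.1 p.2.1 p.2.2) = π

noncomputable def b (w : Fin (k + 1) → ℝ) (t : ℝ) : ℕ := #{l | w l ≤ t}

def Ok (w : Fin (k + 1) → ℝ) : Prop := Monotone w ∧ ∀ l, 0 ≤ w l

lemma ok_step (w : Fin (k + 1) → ℝ) (s τ : ℝ) : Ok (step w s τ) :=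
  ⟨Tuple.monotone_sort _, fun _ => le_max_right _ _⟩

lemma b_step (w : Fin (k + 1) → ℝ) (s τ t : ℝ) : b (step w s τ) t = b (pre w s τ) t :=
  card_bij (fun l _ => Tuple.sort (pre w s τ) l) (by simp [step]) (by simp)
    fun l hl => ⟨(Tuple.sort (pre w s τ)).symm l, by simpa [step] using hl, by simp⟩

lemma lt_b {w : Fin (k + 1) → ℝ} (h : Monotone w) (j : Fin (k + 1)) (t : ℝ) :
    j < b w t ↔ w j ≤ t := Tuple.lt_card_le_iff_apply_le_of_monotone h

lemma b_meas {α : Type} [MeasurableSpace α] {w : α → Fin (k + 1) → ℝ} {t : α → ℝ}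
    (hw : ∀ l, Measurable fun a => w a l) (ht : Measurable t) :
    Measurable fun a => b (w a) (t a) := by
  simp only [b, card_filter]
  exact Finset.measurable_sum _ fun l _ =>
    Measurable.ite (measurableSet_le (hw l) ht) measurable_const measurable_const

lemma step_meas : Measurable fun p : (Fin (k + 1) → ℝ) × ℝ × ℝ => step p.1 p.2.1 p.2.2 := by
  refine measurable_pi_iff.2 fun j => measurable_of_Iic fun a => ?_
  have : (fun p : (Fin (k + 1) → ℝ) × ℝ × ℝ => step p.1 p.2.1 p.2.2 j) ⁻¹' Set.Iic a =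
      {p | (j : ℕ) < b (pre p.1 p.2.1 p.2.2) a} := by
    ext p
    simp only [Set.mem_preimage, Set.mem_Iic, Set.mem_ofPred_eq]
    rw [← b_step, lt_b (ok_step _ _ _).1]
  rw [this]
  refine measurableSet_lt measurable_const (b_meas (fun l => ?_) measurable_const)
  unfold pre
  split_ifs <;> fun_prop

lemma b_le (w : Fin (k + 1) → ℝ) {s : ℝ} (hs : 0 ≤ s) (τ t : ℝ) :
    b (step w s τ) (t - τ) ≤ b w t := by
  rw [b_step]
  refine card_le_card fun l hl => ?_
  simp only [mem_filter, mem_univ, true_and, pre, max_le_iff] at hl ⊢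
  split_ifs at hl <;> linarith [hl.1]

lemma b_lt {w : Fin (k + 1) → ℝ} {s : ℝ} (hs : 0 ≤ s) (τ t : ℝ) (h0 : w 0 ≤ t)
    (h1 : t < w 0 + s) : b (step w s τ) (t - τ) < b w t := by
  rw [b_step]
  refine card_lt_card ⟨fun l hl => ?_, fun h => ?_⟩
  · simp only [mem_filter, mem_univ, true_and, pre, max_le_iff] at hl ⊢
    split_ifs at hl <;> linarith [hl.1]
  · have := h (show (0 : Fin (k + 1)) ∈ _ from by simpa using h0)
    simp only [mem_filter, mem_univ, true_and, pre, max_le_iff, if_true] at this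
    linarith [this.1]

lemma b_neg {w : Fin (k + 1) → ℝ} (h : Ok w) {t : ℝ} (ht : t < 0) : b w t = 0 := by
  simp only [b, card_eq_zero, filter_eq_empty_iff, mem_univ, not_le, true_imp_iff]
  exact fun l => ht.trans_le (h.2 l)

lemma b_ge (w : Fin (k + 1) → ℝ) (s τ t : ℝ) (ht : 0 ≤ t - τ) :
    b w t ≤ b (step w s τ) (t - τ) + 1 := by
  rw [b_step]
  refine (card_le_card (t := insert 0 (univ.filter fun l => pre w s τ l ≤ t - τ)) fun l hl => ?_).trans
    (card_insert_le _ _)
  simp only [mem_filter, mem_univ, true_and, pre, max_le_iff, mem_insert] at hl ⊢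
  by_cases h : l = 0
  · exact Or.inl h
  · right; rw [if_neg h]; exact ⟨by linarith, ht⟩

lemma b_ge' (w : Fin (k + 1) → ℝ) (s τ t : ℝ) (ht : 0 ≤ t - τ) (h1 : w 0 + s ≤ t) :
    b w t ≤ b (step w s τ) (t - τ) := by
  rw [b_step]
  refine card_le_card fun l hl => ?_
  simp only [mem_filter, mem_univ, true_and, pre, max_le_iff] at hl ⊢
  refine ⟨?_, ht⟩
  split_ifs with h
  · subst h; linarith
  · linarith

lemma step_zero {w : Fin (k + 1) → ℝ} (h : Ok w) {s : ℝ} (hs : 0 ≤ s) (τ : ℝ) :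
    w 0 - τ ≤ step w s τ 0 := by
  refine le_trans ?_ (le_max_left _ _)
  have := h.1 (Fin.zero_le (Tuple.sort (pre w s τ) 0))
  split_ifs <;> linarith

variable (T S : Measure ℝ)

noncomputable def Z (m : ℕ) : ℕ → (Fin (k + 1) → ℝ) → ℝ → ℝ≥0∞
  | 0, _, _ => 0
  | N + 1, w, t => (if b w t = m then 1 else 0) +
      ∫⁻ q, Z m N (step w q.1 q.2) (t - q.2) ∂(S.prod T)

variable [IsProbabilityMeasure T] [IsProbabilityMeasure S]

lemma ind_meas (m : ℕ) :
    Measurable fun p : (Fin (k + 1) → ℝ) × ℝ => (if b p.1 p.2 = m then 1 else 0 : ℝ≥0∞) :=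
  Measurable.ite ((b_meas (by fun_prop) measurable_snd) (measurableSet_singleton m))
    measurable_const measurable_const

lemma nxt_meas : Measurable fun p : ((Fin (k + 1) → ℝ) × ℝ) × ℝ × ℝ =>
    (step p.1.1 p.2.1 p.2.2, p.1.2 - p.2.2) :=
  (step_meas.comp (measurable_fst.fst.prodMk measurable_snd)).prodMk (by fun_prop)

lemma Z_meas (m N : ℕ) : Measurable fun p : (Fin (k + 1) → ℝ) × ℝ => Z T S m N p.1 p.2 := by
  induction N with
  | zero => exact measurable_const
  | succ N ih => exact (ind_meas m).add (ih.comp nxt_meas).lintegral_prod_right'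

lemma Z_meas' (m N : ℕ) (w : Fin (k + 1) → ℝ) (t : ℝ) :
    Measurable fun q : ℝ × ℝ => Z T S m N (step w q.1 q.2) (t - q.2) :=
  ((Z_meas T S m N).comp nxt_meas).comp (measurable_prodMk_left (x := (w, t)))

lemma Z_le (m N : ℕ) (w : Fin (k + 1) → ℝ) (t : ℝ) : Z T S m N w t ≤ N := by
  induction N generalizing w t with
  | zero => simp [Z]
  | succ N ih =>
    rw [Z, Nat.cast_succ, add_comm]
    gcongr
    · exact (lintegral_mono fun q => ih _ _).trans (by simp)
    · split_ifs <;> simp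

variable {S}

omit [IsProbabilityMeasure T] [IsProbabilityMeasure S] in
lemma ae_S (hS : ∀ᵐ s ∂S, 0 ≤ s) : ∀ᵐ q ∂(S.prod T), 0 ≤ q.1 :=
  (Measure.quasiMeasurePreserving_fst (μ := S) (ν := T)).ae hS

omit [IsProbabilityMeasure T] [IsProbabilityMeasure S] in
lemma Z_zero (hS : ∀ᵐ s ∂S, 0 ≤ s) (m N : ℕ) (w : Fin (k + 1) → ℝ) (t : ℝ) (h : b w t < m) :
    Z T S m N w t = 0 := by
  induction N generalizing w t with
  | zero => rfl
  | succ N ih =>
    rw [Z, if_neg h.ne, zero_add, lintegral_congr_ae (g := fun _ => 0), lintegral_zero]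
    filter_upwards [ae_S T hS] with q hq using ih _ _ ((b_le w hq _ _).trans_lt h)

def succ (w : Fin (k + 1) → ℝ) (t : ℝ) : Set (ℝ × ℝ) := {q | t < w 0 + q.1}

omit [IsProbabilityMeasure T] [IsProbabilityMeasure S] in
lemma succ_meas (w : Fin (k + 1) → ℝ) (t : ℝ) : MeasurableSet (succ w t) :=
  measurableSet_lt measurable_const (by fun_prop)

omit [IsProbabilityMeasure T] [IsProbabilityMeasure S] in
lemma succ_mono {w : Fin (k + 1) → ℝ} (h : Ok w) {s : ℝ} (hs : 0 ≤ s) (τ t : ℝ) :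
    succ w t ⊆ succ (step w s τ) (t - τ) := fun q hq => by
  have := step_zero h hs τ
  simp only [succ, Set.mem_ofPred_eq] at hq ⊢
  linarith

lemma Z_one (hS : ∀ᵐ s ∂S, 0 ≤ s) {m : ℕ} (hm : 0 < m) (N : ℕ) (w : Fin (k + 1) → ℝ) (t : ℝ)
    (hw : Ok w) (h : b w t ≤ m) : (S.prod T) (succ w t) * Z T S m N w t ≤ 1 := by
  induction N generalizing w t with
  | zero => simp [Z]
  | succ N ih =>
    rcases h.lt_or_eq with h | h
    · simp [Z_zero T hS m _ w t h]
    have h0 : w 0 ≤ t := (lt_b hw.1 0 t).1 (by simpa [h] using hm)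
    rw [Z, if_pos h, mul_add, mul_one, ← lintegral_const_mul _ (Z_meas' T S m N w t),
      ← prob_add_prob_compl (μ := S.prod T) (succ_meas w t)]
    gcongr
    rw [← lintegral_indicator_one (succ_meas w t).compl]
    refine lintegral_mono_ae ?_
    filter_upwards [ae_S T hS] with q hq
    by_cases hs : q ∈ succ w t
    · rw [Z_zero T hS m _ _ _ (h ▸ b_lt hq _ _ h0 hs)]; simp
    · rw [Set.indicator_of_mem (Set.mem_compl hs)]
      exact (mul_le_mul_left (measure_mono (succ_mono hw hq _ _)) _).trans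
        (ih _ _ (ok_step _ _ _) (h ▸ b_le w hq _ _))

lemma Z_cmp (hS : ∀ᵐ s ∂S, 0 ≤ s) {m : ℕ} (hm : 0 < m) (N : ℕ) (w : Fin (k + 1) → ℝ) (t : ℝ)
    (hw : Ok w) (h : m < b w t) : Z T S m N w t ≤ Z T S (m + 1) N w t := by
  induction N generalizing w t with
  | zero => simp [Z]
  | succ N ih =>
    have neg : ∀ q : ℝ × ℝ, t - q.2 < 0 → Z T S m N (step w q.1 q.2) (t - q.2) = 0 := fun q hq =>
      Z_zero T hS m _ _ _ (by rw [b_neg (ok_step _ _ _) hq]; exact hm)
    rw [Z, Z, if_neg h.ne', zero_add]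
    rcases (Nat.succ_le_of_lt h).lt_or_eq with h1 | h1
    · refine le_add_left (lintegral_mono fun q => ?_)
      rcases lt_or_ge (t - q.2) 0 with hq | hq
      · simp [neg q hq]
      · exact ih _ _ (ok_step _ _ _) (by have := b_ge w q.1 q.2 t hq; omega)
    · have h0 : w 0 ≤ t := (lt_b hw.1 0 t).1 (by simp; omega)
      rw [if_pos h1.symm, ← lintegral_add_compl _ (succ_meas w t)]
      refine add_le_add ?_ ?_
      · by_cases hp : (S.prod T) (succ w t) = 0
        · simp [Measure.restrict_eq_zero.2 hp]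
        · rw [← ENNReal.mul_le_mul_iff_right hp (measure_ne_top _ _), mul_one,
            ← lintegral_const_mul _ (Z_meas' T S m N w t)]
          refine le_trans (lintegral_mono_ae (g := fun _ => 1) ?_) (by simp)
          filter_upwards [ae_restrict_of_ae (ae_S T hS), ae_restrict_mem (succ_meas w t)]
            with q hq hs
          exact (mul_le_mul_left (measure_mono (succ_mono hw hq _ _)) _).trans
            (Z_one T hS hm N _ _ (ok_step _ _ _) (by have := b_lt hq q.2 _ h0 hs; omega))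
      · refine (setLIntegral_mono' (succ_meas w t).compl fun q hs => ?_).trans
          (setLIntegral_le_lintegral _ _)
        rcases lt_or_ge (t - q.2) 0 with hq | hq
        · simp [neg q hq]
        · exact ih _ _ (ok_step _ _ _) (h.trans_le (b_ge' w q.1 q.2 t hq (not_lt.1 hs)))

lemma Z_exp (hS : ∀ᵐ s ∂S, 0 ≤ s) {m : ℕ} {C : ℝ≥0∞}
    (hC : 1 + (∫⁻ τ, ENNReal.ofReal (Real.exp (-τ)) ∂T) * C ≤ C) (hm : 0 < m) (N : ℕ)
    (w : Fin (k + 1) → ℝ) (t : ℝ) (hw : Ok w) :
    Z T S m N w t ≤ ENNReal.ofReal (Real.exp t) * C := by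
  induction N generalizing w t with
  | zero => simp [Z]
  | succ N ih =>
    rcases lt_or_ge t 0 with ht | ht
    · simp [Z_zero T hS m _ w t (by rw [b_neg hw ht]; exact hm)]
    have me : Measurable fun τ : ℝ => ENNReal.ofReal (Real.exp (-τ)) := by fun_prop
    rw [Z]
    refine le_trans ?_ (mul_le_mul_right hC _)
    rw [mul_add, mul_one]
    refine add_le_add ?_ ?_
    · refine le_trans ?_ (ENNReal.one_le_ofReal.2 (Real.one_le_exp ht))
      split_ifs <;> simp
    · rw [← lintegral_mul_const _ me, ← lintegral_const_mul _ (me.mul_const _),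
        ← (measurePreserving_snd (μ := S) (ν := T)).lintegral_comp ((me.mul_const _).const_mul _)]
      refine lintegral_mono fun q => (ih _ _ (ok_step _ _ _)).trans (le_of_eq ?_)
      rw [← mul_assoc, ← ENNReal.ofReal_mul (Real.exp_pos _).le, ← Real.exp_add, sub_eq_add_neg]

lemma Z_int {π : Measure (Fin (k + 1) → ℝ)} (h : Stationary T S π) (m N : ℕ) :
    ∫⁻ w, ∫⁻ t, Z T S m N w t ∂volume ∂π =
      N * ∫⁻ w, ∫⁻ t, (if b w t = m then 1 else 0) ∂volume ∂π := by
  obtain ⟨hp, -, he⟩ := h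
  induction N with
  | zero => simp [Z]
  | succ N ih =>
    have mH : Measurable fun w : Fin (k + 1) → ℝ => ∫⁻ t, Z T S m N w t ∂volume :=
      (Z_meas T S m N).lintegral_prod_right'
    have e : ∀ w : Fin (k + 1) → ℝ, ∫⁻ t, Z T S m (N + 1) w t = ∫⁻ t, (if b w t = m then 1 else 0) ∂volume +
        ∫⁻ q, ∫⁻ t, Z T S m N (step w q.1 q.2) t ∂volume ∂(S.prod T) := fun w => by
      simp only [Z]
      have mi : Measurable fun t => (if b w t = m then 1 else 0 : ℝ≥0∞) :=
        (ind_meas m).comp (measurable_prodMk_left (x := w))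
      rw [lintegral_add_left mi, lintegral_lintegral_swap]
      · congr 1
        exact lintegral_congr fun q => lintegral_sub_right_eq_self _ _
      · exact (((Z_meas T S m N).comp nxt_meas).comp
          ((measurable_const.prodMk measurable_fst).prodMk measurable_snd)).aemeasurable
    simp only [e]
    rw [lintegral_add_left (ind_meas m).lintegral_prod_right', Nat.cast_succ, add_mul, one_mul,
      add_comm, ← ih]
    congr 1
    conv_rhs => rw [← he]
    rw [lintegral_map mH step_meas]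
    exact (lintegral_prod _ (mH.comp step_meas).aemeasurable).symm

omit [IsProbabilityMeasure T] [IsProbabilityMeasure S] in
lemma gap {w : Fin (k + 1) → ℝ} (hw : Ok w) {i j : Fin (k + 1)} (h : (i : ℕ) + 1 = j) :
    ENNReal.ofReal (w j) =
      ENNReal.ofReal (w i) + ∫⁻ t, (if b w t = j then 1 else 0) ∂volume := by
  have : (fun t => (if b w t = j then 1 else 0 : ℝ≥0∞)) = (Set.Ico (w i) (w j)).indicator 1 := by
    funext t
    have h1 := lt_b hw.1 i t
    have h2 := lt_b hw.1 j t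
    by_cases e : b w t = j
    · rw [if_pos e, Set.indicator_of_mem]; · rfl
      exact ⟨h1.1 (by omega), not_le.1 fun c => by have := h2.2 c; omega⟩
    · rw [if_neg e, Set.indicator_of_notMem]
      rintro ⟨c1, c2⟩
      have := h1.2 c1
      have := mt h2.1 (not_le.2 c2)
      omega
  have hij : w i ≤ w j := hw.1 (by rw [Fin.le_def]; omega)
  rw [this, lintegral_indicator_one measurableSet_Ico, Real.volume_Ico,
    ← ENNReal.ofReal_add (hw.2 i) (by linarith)]
  congr 1; ring

lemma exp_lt (hT : ∀ᵐ τ ∂T, 0 ≤ τ) (h0 : T ≠ Measure.dirac 0) :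
    ∫⁻ τ, ENNReal.ofReal (Real.exp (-τ)) ∂T < 1 := by
  have le : ∀ᵐ τ ∂T, ENNReal.ofReal (Real.exp (-τ)) ≤ 1 := by
    filter_upwards [hT] with τ h using ENNReal.ofReal_le_one.2 (Real.exp_le_one_iff.2 (by linarith))
  refine lt_of_le_of_ne ((lintegral_mono_ae le).trans (by simp)) fun e => h0 ?_
  have := ae_eq_of_ae_le_of_lintegral_le le (by simp [e]) aemeasurable_const (by simp [e])
  have z : (id : ℝ → ℝ) =ᵐ[T] fun _ => 0 := by
    filter_upwards [this] with τ h
    simpa using h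
  rw [← Measure.map_id (μ := T), Measure.map_congr z]; simp

theorem convex (hS : ∀ᵐ s ∂S, 0 ≤ s) (hT : ∀ᵐ τ ∂T, 0 ≤ τ) (h0 : T ≠ Measure.dirac 0)
    {π : Measure (Fin (k + 1) → ℝ)} (h : Stationary T S π) {i j l : Fin (k + 1)}
    (hij : (i : ℕ) + 1 = j) (hjl : (j : ℕ) + 1 = l) :
    2 * ∫⁻ w, ENNReal.ofReal (w j) ∂π ≤
      ∫⁻ w, ENNReal.ofReal (w i) ∂π + ∫⁻ w, ENNReal.ofReal (w l) ∂π := by
  have ho : ∀ᵐ w ∂π, Ok w := h.2.1
  have hp := h.1
  have G : ∀ {i j : Fin (k + 1)}, (i : ℕ) + 1 = j → ∫⁻ w, ENNReal.ofReal (w j) ∂π =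
      ∫⁻ w, ENNReal.ofReal (w i) ∂π + ∫⁻ w, ∫⁻ t, (if b w t = j then 1 else 0) ∂volume ∂π := by
    intro i j hij
    rw [← lintegral_add_left (by fun_prop)]
    refine lintegral_congr_ae ?_
    filter_upwards [ho] with w hw using gap hw hij
  by_cases fin : ∫⁻ w, ENNReal.ofReal (w j) ∂π = ⊤
  · rw [G hjl, fin]; simp
  rw [G hjl, two_mul, add_comm (∫⁻ w, ENNReal.ofReal (w j) ∂π) (∫⁻ w, ∫⁻ t, _ ∂volume ∂π),
    ← add_assoc]
  gcongr
  rw [G hij, ← hjl]
  refine add_le_add le_rfl ?_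
  set φ := ∫⁻ τ, ENNReal.ofReal (Real.exp (-τ)) ∂T
  have hφ : φ < 1 := exp_lt T hT h0
  have n0 : 1 - φ ≠ 0 := (tsub_pos_of_lt hφ).ne'
  have hC : 1 + φ * (1 - φ)⁻¹ ≤ (1 - φ)⁻¹ := by
    nth_rewrite 1 [← ENNReal.mul_inv_cancel n0 (by simp)]
    rw [← add_mul, tsub_add_cancel_of_le hφ.le, one_mul]
  have hm : 0 < (j : ℕ) := by omega
  let A : Set ((Fin (k + 1) → ℝ) × ℝ) := {p | 0 ≤ p.2 ∧ p.2 < p.1 j}
  have mA : MeasurableSet A :=
    (measurableSet_le measurable_const measurable_snd).inter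
      (measurableSet_lt measurable_snd (by fun_prop))
  let F : ℕ → (Fin (k + 1) → ℝ) × ℝ → ℝ≥0∞ := fun N p =>
    A.indicator (fun p => min 1 (ENNReal.ofReal (Real.exp p.2) * (1 - φ)⁻¹ * (N : ℝ≥0∞)⁻¹)) p
  have mF : ∀ N, Measurable (F N) := fun N => Measurable.indicator (by fun_prop) mA
  have lim : Tendsto (fun N => ∫⁻ p, F N p ∂(π.prod volume)) atTop
      (𝓝 (∫⁻ _, 0 ∂(π.prod (volume : Measure ℝ)))) := by
    refine tendsto_lintegral_of_dominated_convergence (A.indicator 1) mF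
      (fun N => Eventually.of_forall fun p => Set.indicator_le_indicator (min_le_left _ _)) ?_
      (Eventually.of_forall fun p => ?_)
    · rw [lintegral_indicator_one mA, Measure.prod_apply mA]
      convert fin using 2
      funext w
      rw [show Prod.mk w ⁻¹' A = Set.Ico 0 (w j) from rfl, Real.volume_Ico, sub_zero]
    · refine tendsto_of_tendsto_of_tendsto_of_le_of_le tendsto_const_nhds ?_ (fun _ => zero_le)
        fun N => (Set.indicator_le_self _ _ p).trans (min_le_right _ _)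
      have := ENNReal.Tendsto.const_mul (a := ENNReal.ofReal (Real.exp p.2) * (1 - φ)⁻¹)
        ENNReal.tendsto_inv_nat_nhds_zero
        (Or.inr (ENNReal.mul_ne_top (by simp) (ENNReal.inv_ne_top.2 n0)))
      simpa using this
  have lim2 := (tendsto_const_nhds (x := ∫⁻ w, ∫⁻ t,
    (if b w t = (j : ℕ) + 1 then 1 else 0) ∂volume ∂π)).add lim
  rw [lintegral_zero, add_zero] at lim2
  refine ge_of_tendsto lim2 ?_
  filter_upwards [eventually_gt_atTop 0] with N hN
  have N0 : (N : ℝ≥0∞) ≠ 0 := by simpa using hN.ne'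
  rw [← ENNReal.mul_le_mul_iff_right N0 (by simp), mul_add, ← Z_int T h, ← Z_int T h,
    lintegral_prod _ (mF N).aemeasurable,
    ← lintegral_const_mul _ (mF N).lintegral_prod_right',
    ← lintegral_add_left (Z_meas T S _ N).lintegral_prod_right']
  refine lintegral_mono_ae ?_
  filter_upwards [ho] with w hw
  have m1 : Measurable fun t => F N (w, t) := (mF N).comp (measurable_prodMk_left (x := w))
  have m2 : Measurable fun t => Z T S (j + 1) N w t :=
    (Z_meas T S _ N).comp (measurable_prodMk_left (x := w))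
  rw [← lintegral_const_mul _ m1, ← lintegral_add_left m2]
  refine lintegral_mono fun t => ?_
  rcases lt_or_ge (j : ℕ) (b w t) with c | c
  · exact le_add_right (Z_cmp T hS hm N w t hw c)
  rcases lt_or_ge t 0 with ht | ht
  · simp [Z_zero T hS _ N w t (by rw [b_neg hw ht]; exact hm)]
  refine le_add_left ?_
  have : (w, t) ∈ A := ⟨ht, not_le.1 fun d => by have := (lt_b hw.1 j t).2 d; omega⟩
  simp only [F, Set.indicator_of_mem this]
  rw [mul_min, mul_one, mul_comm (N : ℝ≥0∞), mul_assoc, ENNReal.inv_mul_cancel N0 (by simp),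
    mul_one]
  exact le_min (Z_le T S _ N w t) (Z_exp T hS hC hm N w t hw)

end Pool.Agent.H29.KWk
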