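import Mathlib

set_option autoImplicit false
set_option linter.unusedSectionVars false

namespace Pool.Agent.H29.LGrp

universe u

section Quot

variable {G F : Type u} [Group G] [PartialOrder G] [MulLeftMono G] [MulRightMono G]
  [Group F] [Lattice F] [MulLeftMono F] [MulRightMono F] (φ : G →* F)

def Nul : Set F := {u | 1 ≤ u ∧ ∀ x : G, (∀ g, u ≤ φ g → x ≤ g) → x ≤ 1}

lemma one_nul : (1 : F) ∈ Nul φ := ⟨le_rfl, fun _ hx => hx 1 (by simp)⟩

variable {φ}

lemma mul_nul {u v : F} (hu : u ∈ Nul φ) (hv : v ∈ Nul φ) : u * v ∈ Nul φ := by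
  refine ⟨one_le_mul hu.1 hv.1, fun x hx => hu.2 x fun g hg => ?_⟩
  have : g⁻¹ * x ≤ 1 := hv.2 _ fun h hh => by
    rw [inv_mul_le_iff_le_mul]
    exact hx _ (by rw [map_mul]; exact mul_le_mul' hg hh)
  rwa [inv_mul_le_iff_le_mul, mul_one] at this

lemma down_nul {u w : F} (hu : u ∈ Nul φ) (h1 : 1 ≤ w) (h2 : w ≤ u) : w ∈ Nul φ :=
  ⟨h1, fun x hx => hu.2 x fun g hg => hx g (h2.trans hg)⟩

lemma one_le_conj (a : F) {k : F} (hk : 1 ≤ k) : 1 ≤ a * k * a⁻¹ := by
  calc 1 = a * 1 * a⁻¹ := by simp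
    _ ≤ _ := by gcongr

lemma conj_nul (g : G) {u : F} (hu : u ∈ Nul φ) : φ g * u * (φ g)⁻¹ ∈ Nul φ := by
  refine ⟨one_le_conj _ hu.1, fun x hx => ?_⟩
  have h1 : g⁻¹ * x * g ≤ 1 := hu.2 _ fun k hk => by
    have h2 : x ≤ g * k * g⁻¹ := hx _ (by rw [map_mul, map_mul, map_inv]; gcongr)
    calc g⁻¹ * x * g ≤ g⁻¹ * (g * k * g⁻¹) * g := by gcongr
      _ = k := by group
  calc x = g * (g⁻¹ * x * g) * g⁻¹ := by group
    _ ≤ g * 1 * g⁻¹ := by gcongr
    _ = 1 := by simp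

variable (φ)

def Nm : Subgroup F where
  carrier := {a | ∀ k ∈ Nul φ, a * k * a⁻¹ ∈ Nul φ ∧ a⁻¹ * k * a ∈ Nul φ}
  one_mem' := fun k hk => by simpa using hk
  mul_mem' := fun {a b} ha hb k hk => by
    constructor
    · have := (ha _ (hb k hk).1).1
      convert this using 1
      group
    · have := (hb _ (ha k hk).2).2
      convert this using 1
      group
  inv_mem' := fun {a} ha k hk => by
    rw [inv_inv]
    exact ⟨(ha k hk).2, (ha k hk).1⟩

lemma phi_mem (g : G) : φ g ∈ Nm φ := fun k hk => by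
  refine ⟨conj_nul g hk, ?_⟩
  have := conj_nul g⁻¹ hk
  rwa [map_inv, inv_inv] at this

variable {φ}

lemma sup_mem {a b : F} (ha : a ∈ Nm φ) (hb : b ∈ Nm φ) : a ⊔ b ∈ Nm φ := fun k hk => by
  constructor
  · have h1 := (ha k hk).1
    have h2 := (hb k hk).1
    refine down_nul (mul_nul h1 h2) (one_le_conj _ hk.1) ?_
    rw [mul_inv_le_iff_le_mul, sup_mul]
    apply sup_le
    · calc a * k = (a * k * a⁻¹) * 1 * a := by group
        _ ≤ _ := by
          gcongr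
          · exact h2.1
          · exact le_sup_left
    · calc b * k = 1 * (b * k * b⁻¹) * b := by group
        _ ≤ _ := by
          gcongr
          · exact h1.1
          · exact le_sup_right
  · have h1 := (ha k hk).2
    have h2 := (hb k hk).2
    have h0 : 1 ≤ (a ⊔ b)⁻¹ * k * (a ⊔ b) := by
      have := one_le_conj (a ⊔ b)⁻¹ hk.1
      rwa [inv_inv] at this
    refine down_nul (mul_nul h1 h2) h0 ?_
    rw [mul_assoc, inv_mul_le_iff_le_mul, mul_sup]
    apply sup_le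
    · calc k * a = a * ((a⁻¹ * k * a) * 1) := by group
        _ ≤ _ := by
          gcongr
          · exact le_sup_left
          · exact h2.1
    · calc k * b = b * (1 * (b⁻¹ * k * b)) := by group
        _ ≤ _ := by
          gcongr
          · exact le_sup_right
          · exact h1.1

lemma inf_mem {a b : F} (ha : a ∈ Nm φ) (hb : b ∈ Nm φ) : a ⊓ b ∈ Nm φ := by
  have := (Nm φ).inv_mem (sup_mem ((Nm φ).inv_mem ha) ((Nm φ).inv_mem hb))
  rwa [inv_sup, inv_inv, inv_inv] at this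

variable (φ)

def Rel (x y : F) : Prop := ∃ k ∈ Nul φ, x ≤ y * k

variable {φ}

lemma rel_of_le {x y : F} (h : x ≤ y) : Rel φ x y := ⟨1, one_nul φ, by simpa using h⟩

lemma rel_trans {x y z : F} (h1 : Rel φ x y) (h2 : Rel φ y z) : Rel φ x z := by
  obtain ⟨k, hk, h1⟩ := h1
  obtain ⟨l, hl, h2⟩ := h2
  refine ⟨l * k, mul_nul hl hk, h1.trans ?_⟩
  rw [← mul_assoc]
  gcongr

lemma common {k l : F} (hk : k ∈ Nul φ) (hl : l ∈ Nul φ) :
    ∃ m ∈ Nul φ, k ≤ m ∧ l ≤ m :=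
  ⟨k * l, mul_nul hk hl, le_mul_of_one_le_right' hl.1, le_mul_of_one_le_left' hk.1⟩

variable (φ)

def Ker : Subgroup (Nm φ) where
  carrier := {z | ∃ k ∈ Nul φ, (z : F) ≤ k ∧ (z : F)⁻¹ ≤ k}
  one_mem' := ⟨1, one_nul φ, by simp, by simp⟩
  mul_mem' := fun {a b} ⟨k, hk, h1, h2⟩ ⟨l, hl, h3, h4⟩ => by
    obtain ⟨m, hm, h5, h6⟩ := common hk hl
    refine ⟨m * m, mul_nul hm hm, ?_, ?_⟩
    · exact mul_le_mul' (h1.trans h5) (h3.trans h6)
    · rw [Subgroup.coe_mul, mul_inv_rev]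
      exact mul_le_mul' (h4.trans h6) (h2.trans h5)
  inv_mem' := fun {a} ⟨k, hk, h1, h2⟩ => ⟨k, hk, h2, by simpa using h1⟩

instance : (Ker φ).Normal := ⟨fun z ⟨k, hk, h1, h2⟩ a => by
  refine ⟨a * k * (a : F)⁻¹, (a.2 k hk).1, ?_, ?_⟩
  · simp only [Subgroup.coe_mul, Subgroup.coe_inv]
    gcongr
  · simp only [Subgroup.coe_mul, Subgroup.coe_inv]
    calc ((a : F) * z * (a : F)⁻¹)⁻¹ = a * (z : F)⁻¹ * (a : F)⁻¹ := by group
      _ ≤ _ := by gcongr⟩

def Q : Type u := Nm φ ⧸ Ker φ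

instance : Group (Q φ) := inferInstanceAs (Group (Nm φ ⧸ Ker φ))

def mk : Nm φ →* Q φ := QuotientGroup.mk' (Ker φ)

variable {φ}

lemma mk_eq {a b : Nm φ} : mk φ a = mk φ b ↔ Rel φ a b ∧ Rel φ b a := by
  have : mk φ a = mk φ b ↔ a⁻¹ * b ∈ Ker φ := QuotientGroup.eq
  rw [this]
  constructor
  · rintro ⟨k, hk, h1, h2⟩
    simp only [Subgroup.coe_mul, Subgroup.coe_inv, mul_inv_rev, inv_inv,
      inv_mul_le_iff_le_mul] at h1 h2
    exact ⟨⟨k, hk, h2⟩, ⟨k, hk, h1⟩⟩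
  · rintro ⟨⟨k, hk, h1⟩, ⟨l, hl, h2⟩⟩
    obtain ⟨m, hm, h5, h6⟩ := common hk hl
    refine ⟨m, hm, ?_, ?_⟩
    · simp only [Subgroup.coe_mul, Subgroup.coe_inv, inv_mul_le_iff_le_mul]
      exact h2.trans (by gcongr)
    · simp only [Subgroup.coe_mul, Subgroup.coe_inv, mul_inv_rev, inv_inv, inv_mul_le_iff_le_mul]
      exact h1.trans (by gcongr)

lemma mk_surj (q : Q φ) : ∃ a, mk φ a = q := QuotientGroup.mk'_surjective _ q

noncomputable def rep (q : Q φ) : Nm φ := (mk_surj q).choose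

lemma mk_rep (q : Q φ) : mk φ (rep q) = q := (mk_surj q).choose_spec

instance : LE (Q φ) := ⟨fun q r => Rel φ (rep q) (rep r)⟩

lemma mk_le {a b : Nm φ} : mk φ a ≤ mk φ b ↔ Rel φ a b := by
  have h1 := mk_eq.1 (mk_rep (mk φ a))
  have h2 := mk_eq.1 (mk_rep (mk φ b))
  exact ⟨fun h => rel_trans h1.2 (rel_trans h h2.1), fun h => rel_trans h1.1 (rel_trans h h2.2)⟩

noncomputable instance : Lattice (Q φ) where
  le_refl q := rel_of_le le_rfl
  le_trans _ _ _ := rel_trans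
  le_antisymm q r h1 h2 := by
    rw [← mk_rep q, ← mk_rep r]
    exact mk_eq.2 ⟨h1, h2⟩
  sup q r := mk φ ⟨rep q ⊔ rep r, sup_mem (rep q).2 (rep r).2⟩
  inf q r := mk φ ⟨rep q ⊓ rep r, inf_mem (rep q).2 (rep r).2⟩
  le_sup_left q r := by
    conv_lhs => rw [← mk_rep q]
    exact mk_le.2 (rel_of_le le_sup_left)
  le_sup_right q r := by
    conv_lhs => rw [← mk_rep r]
    exact mk_le.2 (rel_of_le le_sup_right)
  sup_le q r s := by
    rintro ⟨k, hk, h1⟩ ⟨l, hl, h2⟩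
    obtain ⟨m, hm, h5, h6⟩ := common hk hl
    rw [← mk_rep s]
    exact mk_le.2 ⟨m, hm, sup_le (h1.trans (by gcongr)) (h2.trans (by gcongr))⟩
  inf_le_left q r := by
    conv_rhs => rw [← mk_rep q]
    exact mk_le.2 (rel_of_le inf_le_left)
  inf_le_right q r := by
    conv_rhs => rw [← mk_rep r]
    exact mk_le.2 (rel_of_le inf_le_right)
  le_inf q r s := by
    rintro ⟨k, hk, h1⟩ ⟨l, hl, h2⟩
    obtain ⟨m, hm, h5, h6⟩ := common hk hl
    conv_lhs => rw [← mk_rep q]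
    refine mk_le.2 ⟨m, hm, ?_⟩
    rw [inf_mul]
    exact le_inf (h1.trans (by gcongr)) (h2.trans (by gcongr))

instance : MulLeftMono (Q φ) := ⟨fun c a b h => by
  obtain ⟨a, rfl⟩ := mk_surj a
  obtain ⟨b, rfl⟩ := mk_surj b
  obtain ⟨c, rfl⟩ := mk_surj c
  obtain ⟨k, hk, h⟩ := mk_le.1 h
  rw [← map_mul, ← map_mul]
  refine mk_le.2 ⟨k, hk, ?_⟩
  simp only [Subgroup.coe_mul, mul_assoc]
  gcongr⟩

instance : MulRightMono (Q φ) := ⟨fun c a b h => by
  obtain ⟨a, rfl⟩ := mk_surj a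
  obtain ⟨b, rfl⟩ := mk_surj b
  obtain ⟨c, rfl⟩ := mk_surj c
  obtain ⟨k, hk, h⟩ := mk_le.1 h
  show mk φ a * mk φ c ≤ mk φ b * mk φ c
  rw [← map_mul, ← map_mul]
  refine mk_le.2 ⟨_, (c.2 k hk).2, ?_⟩
  simp only [Subgroup.coe_mul]
  calc (a : F) * c ≤ b * k * c := by gcongr
    _ = _ := by group⟩

variable (φ)

def psi : G →* Q φ := (mk φ).comp (φ.codRestrict (Nm φ) (phi_mem φ))

variable {φ}

lemma psi_le (hφ : ∀ a b, φ a ≤ φ b ↔ a ≤ b) (a b : G) : psi φ a ≤ psi φ b ↔ a ≤ b := by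
  refine mk_le.trans ⟨?_, fun h => rel_of_le ((hφ a b).2 h)⟩
  rintro ⟨k, hk, h⟩
  have h1 : b⁻¹ * a ≤ 1 := hk.2 _ fun g hg => by
    rw [← hφ, map_mul, map_inv, inv_mul_le_iff_le_mul]
    exact le_trans h (by show φ b * k ≤ φ b * φ g; gcongr)
  rwa [inv_mul_le_iff_le_mul, mul_one] at h1

lemma psi_glb (hφ : ∀ a b, φ a ≤ φ b ↔ a ≤ b) (S : Set G) (s : G) (hs : IsGLB S s) :
    IsGLB (psi φ '' S) (psi φ s) := by
  constructor
  · rintro _ ⟨t, ht, rfl⟩
    exact (psi_le hφ _ _).2 (hs.1 ht)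
  · intro q hq
    obtain ⟨u, rfl⟩ := mk_surj q
    refine mk_le.2 ⟨((φ s)⁻¹ * u) ⊔ 1, ⟨le_sup_right, fun x hx => ?_⟩, ?_⟩
    · have h1 : s * x ≤ s := hs.2 fun t ht => by
        obtain ⟨k, hk, h⟩ := mk_le.1 (hq ⟨t, ht, rfl⟩)
        have h2 : t⁻¹ * (s * x) ≤ 1 := hk.2 _ fun g hg => by
          rw [inv_mul_le_iff_le_mul, ← le_inv_mul_iff_mul_le]
          apply hx
          rw [map_mul, map_mul, map_inv]
          apply sup_le
          · gcongr
            exact le_trans h (by show φ t * k ≤ φ t * φ g; gcongr)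
          · rw [le_inv_mul_iff_mul_le, mul_one]
            exact ((hφ _ _).2 (hs.1 ht)).trans (le_mul_of_one_le_right' (hk.1.trans hg))
        rwa [inv_mul_le_iff_le_mul, mul_one] at h2
      exact (mul_le_iff_le_one_right' s).1 h1
    · show (u : F) ≤ φ s * _
      rw [← inv_mul_le_iff_le_mul]
      exact le_sup_left

lemma psi_lub (hφ : ∀ a b, φ a ≤ φ b ↔ a ≤ b) (S : Set G) (s : G) (hs : IsLUB S s) :
    IsLUB (psi φ '' S) (psi φ s) := by
  have h1 : IsGLB ((fun x => x⁻¹) '' S) s⁻¹ := by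
    constructor
    · rintro _ ⟨t, ht, rfl⟩
      exact inv_le_inv_iff.2 (hs.1 ht)
    · intro x hx
      rw [le_inv']
      apply hs.2
      intro t ht
      rw [le_inv']
      exact hx ⟨t, ht, rfl⟩
  have h2 := psi_glb hφ _ _ h1
  constructor
  · rintro _ ⟨t, ht, rfl⟩
    exact (psi_le hφ _ _).2 (hs.1 ht)
  · intro q hq
    rw [← inv_le_inv_iff, ← map_inv]
    apply h2.2
    rintro _ ⟨_, ⟨t, ht, rfl⟩, rfl⟩
    rw [map_inv, inv_le_inv_iff]
    exact hq ⟨t, ht, rfl⟩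

end Quot

section Aut

def Aut (α : Type u) [LinearOrder α] : Type u := α ≃o α

variable {α : Type u} [LinearOrder α]

instance : Group (Aut α) := inferInstanceAs (Group (α ≃o α))

def Aut.iso (f : Aut α) : α ≃o α := f

noncomputable def Aut.mx (f g : Aut α) : Aut α :=
  StrictMono.orderIsoOfSurjective (fun x => max (f.iso x) (g.iso x))
    (fun _ _ h => max_lt_max (f.iso.strictMono h) (g.iso.strictMono h))
    (fun y => by
      refine ⟨min (f.iso.symm y) (g.iso.symm y), ?_⟩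
      rcases le_total (f.iso.symm y) (g.iso.symm y) with h | h
      · have := g.iso.monotone h
        simp only [min_eq_left h, OrderIso.apply_symm_apply] at this ⊢
        exact max_eq_left this
      · have := f.iso.monotone h
        simp only [min_eq_right h, OrderIso.apply_symm_apply] at this ⊢
        exact max_eq_right this)

noncomputable def Aut.mn (f g : Aut α) : Aut α :=
  StrictMono.orderIsoOfSurjective (fun x => min (f.iso x) (g.iso x))
    (fun _ _ h => min_lt_min (f.iso.strictMono h) (g.iso.strictMono h))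
    (fun y => by
      refine ⟨max (f.iso.symm y) (g.iso.symm y), ?_⟩
      rcases le_total (f.iso.symm y) (g.iso.symm y) with h | h
      · have := f.iso.monotone h
        simp only [max_eq_right h, OrderIso.apply_symm_apply] at this ⊢
        exact min_eq_right this
      · have := g.iso.monotone h
        simp only [max_eq_left h, OrderIso.apply_symm_apply] at this ⊢
        exact min_eq_left this)

noncomputable instance : Lattice (Aut α) where
  le f g := ∀ x, f.iso x ≤ g.iso x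
  le_refl _ _ := le_rfl
  le_trans _ _ _ h1 h2 x := (h1 x).trans (h2 x)
  le_antisymm f g h1 h2 := OrderIso.ext (funext fun x => le_antisymm (h1 x) (h2 x))
  sup := Aut.mx
  inf := Aut.mn
  le_sup_left _ _ _ := le_max_left _ _
  le_sup_right _ _ _ := le_max_right _ _
  sup_le _ _ _ h1 h2 x := max_le (h1 x) (h2 x)
  inf_le_left _ _ _ := min_le_left _ _
  inf_le_right _ _ _ := min_le_right _ _
  le_inf _ _ _ h1 h2 x := le_min (h1 x) (h2 x)

instance : MulLeftMono (Aut α) := ⟨fun c _ _ h x => c.iso.monotone (h x)⟩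

instance : MulRightMono (Aut α) := ⟨fun c _ _ h x => h (c.iso x)⟩

end Aut

end Pool.Agent.H29.LGrp
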