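import Mathlib

set_option autoImplicit false
open Set Filter Topology

namespace Pool.Agent.H29.LcS

noncomputable def bb (n : ℕ) : ℕ := ⌈Real.exp n⌉₊ + 1

abbrev Om : Type := Σ n : ℕ, Fin (bb n)

noncomputable def cnt (y : Set Om) (n : ℕ) : ℕ := {v : Fin (bb n) | (⟨n, v⟩ : Om) ∈ y}.ncard

def L (t : ℝ) (y : Set Om) : Prop := ∀ n : ℕ, (cnt y n : ℝ) ≤ Real.exp (t * n)

theorem cnt_mono {y z : Set Om} {n : ℕ} (h : ∀ v, (⟨n, v⟩ : Om) ∈ y → (⟨n, v⟩ : Om) ∈ z) :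
    cnt y n ≤ cnt z n := ncard_le_ncard h (toFinite _)

theorem exp_mono {t s : ℝ} (h : t ≤ s) (n : ℕ) : Real.exp (t * n) ≤ Real.exp (s * n) :=
  Real.exp_le_exp.2 (mul_le_mul_of_nonneg_right h (Nat.cast_nonneg n))

theorem L.mono {t s : ℝ} {y z : Set Om} (h : L t z) (hs : y ⊆ z) (ht : t ≤ s) : L s y := fun n =>
  ((Nat.cast_le.2 (cnt_mono fun _ hv => hs hv)).trans (h n)).trans (exp_mono ht n)

theorem L_of_gt {t : ℝ} {y : Set Om} (h : ∀ s, t < s → L s y) : L t y := fun n => by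
  have : Tendsto (fun s : ℝ => Real.exp (s * n)) (𝓝[>] t) (𝓝 (Real.exp (t * n))) :=
    tendsto_nhdsWithin_of_tendsto_nhds (Continuous.tendsto (by fun_prop) t)
  exact ge_of_tendsto this (eventually_nhdsWithin_of_forall fun s hs => h s hs n)

theorem cnt_union (y z : Set Om) (n : ℕ) : cnt (y ∪ z) n ≤ cnt y n + cnt z n :=
  ncard_union_le _ _

theorem cnt_fin {t : ℝ} {y : Set Om} {Y : ℕ → Set Om} (hy : L t y) (hY : ∀ j, L t (Y j))
    (n m : ℕ) : (cnt (y ∪ ⋃ j < m, Y j) n : ℝ) ≤ (m + 1) * Real.exp (t * n) := by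
  induction m with
  | zero => simpa using hy n
  | succ m ih =>
    rw [biUnion_lt_succ, ← union_assoc]
    have h1 : (cnt ((y ∪ ⋃ j < m, Y j) ∪ Y m) n : ℝ) ≤ cnt (y ∪ ⋃ j < m, Y j) n + cnt (Y m) n := by
      exact_mod_cast cnt_union _ _ n
    have h2 := hY m n
    push_cast
    linarith

theorem exists_N {t s : ℝ} (h : t < s) (j : ℕ) :
    ∃ N, j ≤ N ∧ ∀ n : ℕ, N ≤ n → ((j : ℝ) + 2) * Real.exp (t * n) ≤ Real.exp (s * n) := by
  refine ⟨max j ⌈((j : ℝ) + 1) / (s - t)⌉₊, le_max_left _ _, fun n hn => ?_⟩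
  have h1 : ((j : ℝ) + 1) / (s - t) ≤ n := Nat.ceil_le.1 ((le_max_right _ _).trans hn)
  rw [div_le_iff₀ (sub_pos.2 h)] at h1
  have h2 := Real.add_one_le_exp ((s - t) * n)
  have h3 : Real.exp (s * n) = Real.exp ((s - t) * n) * Real.exp (t * n) := by
    rw [← Real.exp_add]; ring_nf
  rw [h3]
  exact mul_le_mul_of_nonneg_right (by linarith) (Real.exp_pos _).le

theorem L_union {t s : ℝ} (h : t < s) : ∃ N : ℕ → ℕ, (∀ j, j ≤ N j) ∧
    ∀ (y : Set Om) (Y : ℕ → Set Om), L t y → (∀ j, L t (Y j)) →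
      (∀ j, ∀ p ∈ Y j, p.1 < N j → p ∈ y) → L s (y ∪ ⋃ j, Y j) := by
  classical
  choose N h1 h2 using exists_N h
  refine ⟨N, h1, fun y Y hy hY hp n => ?_⟩
  have ex : ∃ m, ∀ j, m ≤ j → n < N j := ⟨n + 1, fun j hj => lt_of_lt_of_le hj (h1 j)⟩
  have h3 : (cnt (y ∪ ⋃ j, Y j) n : ℝ) ≤ cnt (y ∪ ⋃ j < Nat.find ex, Y j) n := by
    refine Nat.cast_le.2 (cnt_mono ?_)
    rintro v (hv | hv)
    · exact Or.inl hv
    · obtain ⟨j, hj⟩ := mem_iUnion.1 hv
      by_cases hj' : j < Nat.find ex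
      · exact Or.inr (mem_iUnion₂.2 ⟨j, hj', hj⟩)
      · exact Or.inl (hp j _ hj (Nat.find_spec ex j (not_lt.1 hj')))
  refine h3.trans ((cnt_fin hy hY n _).trans ?_)
  rcases hm : Nat.find ex with _ | m
  · simpa using exp_mono h.le n
  · have h4 := Nat.find_min ex (m := m) (by omega)
    have h5 := Nat.find_spec ex
    rw [hm] at h5
    have : N m ≤ n := by
      by_contra h6
      refine h4 fun j hj => ?_
      rcases hj.eq_or_lt with rfl | hj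
      · exact not_le.1 h6
      · exact h5 j hj
    have := h2 m n this
    push_cast
    linarith

def cut (M : ℕ) (y : Set Om) : Set Om := {p | p ∈ y ∧ M ≤ p.1}

theorem L_add {t s : ℝ} (h : t < s) : ∃ M : ℕ, ∀ y z : Set Om, L t y → L t z →
    (∀ p ∈ z, M ≤ p.1) → L s (y ∪ z) := by
  obtain ⟨N, -, hN⟩ := L_union h
  refine ⟨N 0, fun y z hy hz hM => (hN y (fun j => if j = 0 then z else y) hy
    (fun j => by split_ifs <;> assumption) (fun j p hp hj => ?_)).mono ?_ le_rfl⟩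
  · split_ifs at hp with h0
    · subst h0; exact absurd (hM p hp) (not_le.2 hj)
    · exact hp
  · exact union_subset_union_right _ (subset_iUnion_of_subset 0 (by simp))

theorem fin_low (N : ℕ) : {p : Om | p.1 < N}.Finite := by
  have : {p : Om | p.1 < N} ⊆ ⋃ n ∈ Iio N, range (fun v : Fin (bb n) => (⟨n, v⟩ : Om)) :=
    fun p hp => mem_iUnion₂.2 ⟨p.1, hp, p.2, rfl⟩
  exact ((finite_Iio N).biUnion fun n _ => finite_range _).subset this

theorem lim_agree {α : Type} (U : Ultrafilter α) (w : α → Set Om) (N : ℕ) :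
    ∀ᶠ a in (U : Filter α), ∀ p : Om, p.1 < N → (p ∈ w a ↔ ∀ᶠ b in (U : Filter α), p ∈ w b) := by
  have := (eventually_all_finite (l := (U : Filter α)) (fin_low N)
    (p := fun p a => (p ∈ w a ↔ ∀ᶠ b in (U : Filter α), p ∈ w b))).2 fun p _ => by
      by_cases h : ∀ᶠ b in (U : Filter α), p ∈ w b
      · exact h.mono fun a ha => iff_of_true ha h
      · exact (Ultrafilter.eventually_not.2 h).mono fun a ha => iff_of_false ha h
  exact this

theorem lim_L {α : Type} (U : Ultrafilter α) (w : α → Set Om) {s : ℝ}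
    (h : ∀ᶠ a in (U : Filter α), L s (w a)) : L s {p | ∀ᶠ b in (U : Filter α), p ∈ w b} := by
  intro n
  obtain ⟨a, h1, h2⟩ := (h.and (lim_agree U w (n + 1))).exists
  exact (Nat.cast_le.2 (cnt_mono fun v hv => (h2 ⟨n, v⟩ n.lt_succ_self).2 hv)).trans (h1 n)

def Pt : Type := ∀ n : ℕ, Fin (bb n)

def Loc (t : ℝ) (S : Set Pt) : Prop :=
  ∃ y, L t y ∧ ∀ f ∈ S, ∃ N, ∀ n, N ≤ n → (⟨n, f n⟩ : Om) ∈ y

theorem not_loc : ¬ Loc 1 univ := by
  rintro ⟨y, hy, h⟩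
  have : ∀ n, ∃ v : Fin (bb n), (⟨n, v⟩ : Om) ∉ y := fun n => by
    by_contra hc
    push Not at hc
    have h1 := hy n
    rw [cnt, eq_univ_of_forall (s := {v : Fin (bb n) | (⟨n, v⟩ : Om) ∈ y}) hc, ncard_univ,
      Nat.card_fin, bb, one_mul] at h1
    have := Nat.le_ceil (Real.exp n)
    push_cast at h1
    linarith
  choose f hf using this
  obtain ⟨N, hN⟩ := h f trivial
  exact hf N (hN N le_rfl)

theorem L_pt (f : Pt) {t : ℝ} (ht : 0 ≤ t) : L t {p | p.2 = f p.1} := fun n => by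
  have : cnt {p : Om | p.2 = f p.1} n = 1 := by
    rw [cnt, ← ncard_singleton (f n)]; rfl
  rw [this, Nat.cast_one]
  exact Real.one_le_exp (by positivity)

structure Sc where
  Λ : Type
  lo : LinearOrder Λ
  wf : WellFounded lo.lt
  T : ℝ
  x : Λ → Set Om
  pos : 0 < T
  lev : ∀ ξ, L (T / 2) (x ξ)
  bd : ∀ y, L T y → ∃ ξ0, ∀ ξ M, cut M (x ξ) ⊆ y → lo.lt ξ ξ0

theorem exists_sc : Nonempty Sc := by
  obtain ⟨lo, wf⟩ := exists_wellFoundedLT Pt
  obtain ⟨o, ⟨T, hT, ho⟩, hmin⟩ := (wellFounded_lt (α := WithTop Pt)).has_min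
    {w : WithTop Pt | ∃ t : ℝ, 0 < t ∧ ¬ Loc t {f | (f : WithTop Pt) < w}}
    ⟨⊤, 1, one_pos, by simpa using not_loc⟩
  have h1 : ∀ ξ : {f : Pt // (f : WithTop Pt) < o}, Loc (T / 2) {f | f ≤ ξ.1} := fun ξ => by
    have : Loc (T / 4) {f | (f : WithTop Pt) < ξ.1} := by
      by_contra h
      exact hmin _ ⟨T / 4, by positivity, h⟩ ξ.2
    obtain ⟨y, hy, h⟩ := this
    obtain ⟨M, hM⟩ := L_add (show T / 4 < T / 2 by linarith)
    refine ⟨_, hM y (cut M {p | p.2 = ξ.1 p.1}) hy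
      ((L_pt ξ.1 (t := T / 4) (by positivity)).mono (fun p hp => hp.1) le_rfl) fun p hp => hp.2,
      fun f hf => ?_⟩
    rcases (show f ≤ ξ.1 from hf).eq_or_lt with rfl | hf
    · exact ⟨M, fun n hn => Or.inr ⟨rfl, hn⟩⟩
    · obtain ⟨N, hN⟩ := h f (WithTop.coe_lt_coe.2 hf)
      exact ⟨N, fun n hn => Or.inl (hN n hn)⟩
  choose x hx hx' using h1
  refine ⟨⟨{f : Pt // (f : WithTop Pt) < o}, inferInstance, wellFounded_lt, T, x, hT, hx,
    fun y hy => ?_⟩⟩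
  by_contra hc
  push Not at hc
  refine ho ⟨y, hy, fun f hf => ?_⟩
  obtain ⟨ξ, M, h1, h2⟩ := hc ⟨f, hf⟩
  obtain ⟨N, hN⟩ := hx' ξ f h2
  exact ⟨max N M, fun n hn => h1 ⟨hN n ((le_max_left _ _).trans hn), (le_max_right _ _).trans hn⟩⟩

end Pool.Agent.H29.LcS
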