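import Pool.Agent.H29.LcS1

set_option autoImplicit false
open Set Filter Topology

namespace Pool.Agent.H29.LcS

noncomputable def sc : Sc := Classical.choice exists_sc

def Λ : Type := sc.Λ
noncomputable instance : LinearOrder Λ := sc.lo
instance : WellFoundedLT Λ := ⟨sc.wf⟩
noncomputable def T : ℝ := sc.T
noncomputable def xx : Λ → Set Om := sc.x
theorem T_pos : 0 < T := sc.pos
theorem xx_lev (ξ : Λ) : L (T / 2) (xx ξ) := sc.lev ξ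
theorem xx_bd (y : Set Om) (h : L T y) : ∃ ξ0, ∀ ξ M, cut M (xx ξ) ⊆ y → ξ < ξ0 := sc.bd y h

abbrev J : Type := Λ × Λ × ℕ
abbrev Cp : Type := Λ × ℕ × J
abbrev At : Type := Cp ⊕ J

def rk : At → Λ ×ₗ WithTop Λ
  | .inl b => toLex (b.1, ⊤)
  | .inr e => toLex (e.1, (e.2.1 : WithTop Λ))

noncomputable def nm : At → Set Om
  | .inl b => cut b.2.1 (xx b.1)
  | .inr e => cut e.2.2 (xx (max e.1 e.2.1))

theorem nm_lev (a : At) : L (T / 2) (nm a) := by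
  cases a <;> exact (xx_lev _).mono (fun _ h => h.1) le_rfl

theorem rk_J (b : Cp) (ζ : Λ) (M : ℕ) : rk (.inr (b.1, ζ, M)) < rk (.inl b) :=
  Prod.Lex.toLex_lt_toLex.2 (Or.inr ⟨rfl, WithTop.coe_lt_top _⟩)

theorem above {y : Set Om} (h : L T y) : ∃ ξ0 : Λ,
    (∀ a, nm a ⊆ y → ∀ M η, rk a < rk (.inl (ξ0, M, η))) ∧
    ∀ a, nm a ⊆ y → ∀ b : Cp, rk a < rk (.inl b) → ∀ M, rk a < rk (.inr (b.1, ξ0, M)) := by
  obtain ⟨ξ0, h⟩ := xx_bd y h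
  refine ⟨ξ0, fun a ha M η => ?_, fun a ha b hb M => ?_⟩
  · cases a with
    | inl a => exact Prod.Lex.toLex_lt_toLex.2 (Or.inl (h _ _ ha))
    | inr a => exact Prod.Lex.toLex_lt_toLex.2 (Or.inl ((le_max_left _ _).trans_lt (h _ _ ha)))
  · cases a with
    | inl a =>
      rcases Prod.Lex.toLex_lt_toLex.1 hb with h1 | h1
      · exact Prod.Lex.toLex_lt_toLex.2 (Or.inl h1)
      · exact absurd h1.2 (lt_irrefl _)
    | inr a =>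
      rcases Prod.Lex.toLex_lt_toLex.1 hb with h1 | h1
      · exact Prod.Lex.toLex_lt_toLex.2 (Or.inl h1)
      · exact Prod.Lex.toLex_lt_toLex.2 (Or.inr ⟨h1.1,
          WithTop.coe_lt_coe.2 ((le_max_right _ _).trans_lt (h _ _ ha))⟩)

def S (B : Set At) : Set Om := ⋃ a ∈ B, nm a

theorem nm_sub {B : Set At} {a : At} (h : a ∈ B) : nm a ⊆ S B := subset_biUnion_of_mem h
theorem S_sub {B : Set At} {y : Set Om} (h : ∀ a ∈ B, nm a ⊆ y) : S B ⊆ y := iUnion₂_subset h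
theorem S_mono {B B' : Set At} (h : B ⊆ B') : S B ⊆ S B' := S_sub fun _ ha => nm_sub (h ha)

@[ext] structure P : Type where
  β : Cp
  t : ℝ
  A : Set At
  h1 : T / 2 ≤ t
  h2 : t < T
  h3 : ∀ a ∈ A, rk a < rk (.inl β)
  h4 : L t (nm (.inl β) ∪ S A)

def sp (p : P) : Set Om := nm (.inl p.β) ∪ S p.A

def Nm (q : P) (B : Set At) : Prop :=
  .inl q.β ∈ B ∨ (.inr q.β.2.2 ∈ B ∧ ∀ a ∈ q.A, rk a < rk (.inr q.β.2.2))

theorem Nm.ex {q : P} {B : Set At} (h : Nm q B) : ∃ b ∈ B, ∀ a ∈ q.A, rk a < rk b := by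
  rcases h with h | h
  · exact ⟨_, h, q.h3⟩
  · exact ⟨_, h.1, h.2⟩

instance : PartialOrder P where
  le p q := q.t ≤ p.t ∧ q.A ⊆ p.A ∧ (p.β = q.β ∨ Nm q p.A)
  le_refl p := ⟨le_rfl, subset_rfl, Or.inl rfl⟩
  le_trans p q r h h' := by
    refine ⟨h'.1.trans h.1, h'.2.1.trans h.2.1, ?_⟩
    rcases h'.2.2 with e | e | e
    · rcases h.2.2 with f | f | f
      · exact Or.inl (f.trans e)
      · exact Or.inr (Or.inl (e ▸ f))
      · exact Or.inr (Or.inr ⟨e ▸ f.1, fun a ha => e ▸ f.2 a (h'.2.1 ha)⟩)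
    · exact Or.inr (Or.inl (h.2.1 e))
    · exact Or.inr (Or.inr ⟨h.2.1 e.1, e.2⟩)
  le_antisymm p q h h' := by
    refine P.ext ?_ (le_antisymm h'.1 h.1) (subset_antisymm h'.2.1 h.2.1)
    rcases h.2.2 with e | e
    · exact e
    · obtain ⟨b, hb, h1⟩ := e.ex
      exact absurd (h1 b (h'.2.1 hb)) (lt_irrefl _)

theorem le_def {p q : P} : p ≤ q ↔ q.t ≤ p.t ∧ q.A ⊆ p.A ∧ (p.β = q.β ∨ Nm q p.A) := Iff.rfl

theorem pig {D : Set P} (hD : DirectedOn (· ≤ ·) D) {a b : At} {d0 : P} (h0 : d0 ∈ D)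
    (h : ∀ d ∈ D, d0 ≤ d → a ∈ d.A ∨ b ∈ d.A) : (∀ d ∈ D, a ∈ d.A) ∨ ∀ d ∈ D, b ∈ d.A := by
  by_contra hc
  push Not at hc
  obtain ⟨⟨d1, h1, h1'⟩, d2, h2, h2'⟩ := hc
  obtain ⟨d3, h3, e1, e2⟩ := hD d1 h1 d2 h2
  obtain ⟨d4, h4, e3, e4⟩ := hD d3 h3 d0 h0
  rcases h d4 h4 e4 with h | h
  · exact h1' ((e1.trans e3).2.1 h)
  · exact h2' ((e2.trans e3).2.1 h)

theorem isLUB_of {D : Set P} (hD : DirectedOn (· ≤ ·) D) {d0 : P} (h0 : d0 ∈ D) {s : P}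
    (hβ : ∀ d ∈ D, d0 ≤ d → d.β = s.β) (ht : IsGLB (P.t '' D) s.t)
    (hA : ∀ a, a ∈ s.A ↔ ∀ d ∈ D, a ∈ d.A) : IsLUB D s := by
  constructor
  · intro d hd
    obtain ⟨e, he, e1, e2⟩ := hD d hd d0 h0
    exact e1.trans ⟨ht.1 ⟨e, he, rfl⟩, fun a ha => (hA a).1 ha e he, Or.inl (hβ e he e2)⟩
  · intro u hu
    refine ⟨ht.2 (by rintro _ ⟨d, hd, rfl⟩; exact (hu hd).1),
      fun a ha => (hA a).2 fun d hd => (hu hd).2.1 ha, ?_⟩
    by_cases h : s.β = u.β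
    · exact Or.inl h
    have h1 : ∀ d ∈ D, d0 ≤ d → Nm u d.A := fun d hd hd' =>
      (hu hd).2.2.resolve_left (by rw [hβ d hd hd']; exact h)
    by_cases h2 : ∀ d ∈ D, .inl u.β ∈ d.A
    · exact Or.inr (Or.inl ((hA _).2 h2))
    · have h3 := (pig hD h0 fun d hd hd' => (h1 d hd hd').imp id And.left).resolve_left h2
      push Not at h2
      obtain ⟨d, hd, h2⟩ := h2
      obtain ⟨e, he, e1, e2⟩ := hD d hd d0 h0
      exact Or.inr (Or.inr ⟨(hA _).2 h3,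
        ((h1 e he e2).resolve_left fun h => h2 (e1.2.1 h)).2⟩)

theorem exists_lub {D : Set P} (hne : D.Nonempty) (hD : DirectedOn (· ≤ ·) D) :
    ∃ s, IsLUB D s ∧ (∃ d0 ∈ D, ∀ d ∈ D, d0 ≤ d → d.β = s.β) ∧ IsGLB (P.t '' D) s.t ∧
      ∀ a, a ∈ s.A ↔ ∀ d ∈ D, a ∈ d.A := by
  obtain ⟨d1, h1⟩ := hne
  obtain ⟨r, ⟨d0, h0, hr⟩, hmin⟩ := (wellFounded_lt (α := Λ ×ₗ WithTop Λ)).has_min
    {r | ∃ d ∈ D, ∀ a ∈ d.A, rk a < r} ⟨_, d1, h1, d1.h3⟩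
  have hβ : ∀ d ∈ D, d0 ≤ d → d.β = d0.β := fun d hd hd' => by
    rcases hd'.2.2 with e | e
    · exact e.symm
    · obtain ⟨b, hb, h⟩ := e.ex
      exact absurd (hr b hb) (hmin _ ⟨d, hd, h⟩)
  have bd : T / 2 ∈ lowerBounds (P.t '' D) := by rintro _ ⟨d, -, rfl⟩; exact d.h1
  have ht : IsGLB (P.t '' D) (sInf (P.t '' D)) := isGLB_csInf ⟨_, d0, h0, rfl⟩ ⟨_, bd⟩
  let s : P := ⟨d0.β, sInf (P.t '' D), {a | ∀ d ∈ D, a ∈ d.A}, ht.2 bd,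
    (ht.1 ⟨d0, h0, rfl⟩).trans_lt d0.h2, fun a ha => d0.h3 a (ha d0 h0),
    L_of_gt fun u hu => by
      obtain ⟨_, ⟨d, hd, rfl⟩, h⟩ := exists_lt_of_csInf_lt (s := P.t '' D) ⟨_, d0, h0, rfl⟩ hu
      obtain ⟨e, he, e1, e2⟩ := hD d hd d0 h0
      refine e.h4.mono ?_ (e1.1.trans h.le)
      rw [hβ e he e2]
      exact union_subset_union_right _ (S_mono fun a ha => ha e he)⟩
  exact ⟨s, isLUB_of hD h0 hβ ht fun _ => Iff.rfl, ⟨d0, h0, hβ⟩, ht, fun _ => Iff.rfl⟩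

instance : TopologicalSpace P := Topology.scott P univ
instance : Topology.IsScott P univ := ⟨rfl⟩

theorem closed_of {C : Set P} (h1 : IsLowerSet C) (h2 : ∀ D ⊆ C, DirectedOn (· ≤ ·) D →
    ∀ s : P, ∀ d0 ∈ D, (∀ d ∈ D, d0 ≤ d → d.β = s.β) → IsGLB (P.t '' D) s.t →
      (∀ a, a ∈ s.A ↔ ∀ d ∈ D, a ∈ d.A) → s ∈ C) : IsClosed C := by
  refine IsScott.isClosed_iff_isLowerSet_and_dirSupClosed.2 ⟨h1, fun D hD hne hd s hs => ?_⟩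
  obtain ⟨s', e1, ⟨d0, h0, e2⟩, e3, e4⟩ := exists_lub hne hd
  rw [hs.unique e1]
  exact h2 D hD hd s' d0 h0 e2 e3 e4

theorem cl1 (a : At) : IsClosed {p : P | a ∈ p.A} :=
  closed_of (fun _ _ h ha => h.2.1 ha) fun _ hD _ _ _ _ _ _ hA => (hA a).2 fun _ hd => hD hd

theorem cl2 (r : ℝ) : IsClosed {p : P | r ≤ p.t} :=
  closed_of (fun _ _ h ha => le_trans ha h.1) fun _ hD _ _ _ _ _ ht _ =>
    ht.2 (by rintro _ ⟨d, hd, rfl⟩; exact hD hd)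

theorem cl3 (e : Cp) : IsClosed {p : P | p.β = e ∨ .inl e ∈ p.A ∨ .inr e.2.2 ∈ p.A} := by
  refine closed_of ?_ fun D hD hd s d0 h0 hβ _ hA => ?_
  · rintro q p h (rfl | ha | ha)
    · exact h.2.2.imp id (Or.imp id And.left)
    · exact Or.inr (Or.inl (h.2.1 ha))
    · exact Or.inr (Or.inr (h.2.1 ha))
  · by_cases h : s.β = e
    · exact Or.inl h
    · exact Or.inr ((pig hd h0 fun d hd hd' => (hD hd).resolve_left
        (by rw [hβ d hd hd']; exact h)).imp (hA _).2 (hA _).2)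

theorem cl4 (e : Cp) (f : At) (hf : ¬ rk f < rk (.inr e.2.2)) :
    IsClosed {p : P | (p.β = e ∨ .inl e ∈ p.A) ∧ f ∈ p.A} := by
  refine closed_of ?_ fun D hD hd s d0 h0 hβ _ hA => ⟨?_, (hA _).2 fun d hd => (hD hd).2⟩
  · rintro q p h ⟨rfl | ha, hq⟩
    · exact ⟨h.2.2.imp id fun h' => h'.resolve_right fun h'' => hf (h''.2 f hq), h.2.1 hq⟩
    · exact ⟨Or.inr (h.2.1 ha), h.2.1 hq⟩
  · by_cases h : s.β = e
    · exact Or.inl h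
    · refine Or.inr ((hA _).2 fun d hd' => ?_)
      obtain ⟨c, hc, e1, e2⟩ := hd d hd' d0 h0
      exact e1.2.1 ((hD hc).1.resolve_left (by rw [hβ c hc e2]; exact h))

theorem mem_of_dir {C : Set P} (hC : IsClosed C) {ι : Type} [Nonempty ι] (d : ι → P)
    (hd : Directed (· ≤ ·) d) (hm : ∀ i, d i ∈ C) (q : P) (hβ : ∀ i, (d i).β = q.β)
    (ht : ∀ r, q.t < r → ∃ i, (d i).t ≤ r) (hA : ∀ a, (∀ i, a ∈ (d i).A) → a ∈ q.A) : q ∈ C := by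
  obtain ⟨s, e1, ⟨_, ⟨i, rfl⟩, e2⟩, e3, e4⟩ := exists_lub (range_nonempty d) hd.directedOn_range
  have := IsScott.dirSupClosed_of_isClosed hC (range_subset_iff.2 hm) (range_nonempty d)
    hd.directedOn_range e1
  refine IsScott.isLowerSet_of_isClosed hC (show q ≤ s from ⟨?_, ?_, Or.inl ?_⟩) this
  · refine le_of_forall_gt_imp_ge_of_dense fun r hr => ?_
    obtain ⟨j, hj⟩ := ht r hr
    exact (e3.1 ⟨_, ⟨j, rfl⟩, rfl⟩).trans hj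
  · exact fun a ha => hA a fun j => (e4 a).1 ha _ ⟨j, rfl⟩
  · rw [← hβ i, e2 _ ⟨i, rfl⟩ le_rfl]

end Pool.Agent.H29.LcS
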