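import Pool.Agent.H29.LcS2

set_option autoImplicit false
open Set Filter Topology

namespace Pool.Agent.H29.LcS

theorem slack {C : Set P} (hC : IsClosed C) (q : P)
    (h : ∀ p : P, p.β = q.β → p.A = q.A → q.t < p.t → p ∈ C) : q ∈ C := by
  have _ : Nonempty (Ioo q.t T) := (nonempty_Ioo.2 q.h2).to_subtype
  refine mem_of_dir hC (fun s : Ioo q.t T => ⟨q.β, s.1, q.A, q.h1.trans s.2.1.le, s.2.2, q.h3,
    q.h4.mono subset_rfl s.2.1.le⟩) (fun a b => ⟨min a b, ⟨(min_le_left a b : min a b ≤ a),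
      subset_rfl, Or.inl rfl⟩, ⟨(min_le_right a b : min a b ≤ b), subset_rfl, Or.inl rfl⟩⟩)
    (fun s => h _ rfl rfl s.2.1) q (fun _ => rfl) (fun r hr => ?_) fun a ha => ha (Classical.arbitrary _)
  have := q.h2
  exact ⟨⟨min r ((q.t + T) / 2), lt_min hr (by linarith), (min_le_right _ _).trans_lt (by linarith)⟩,
    min_le_left _ _⟩

theorem cap {C : Set P} (hC : IsClosed C) (q : P) (z : ℕ → P) (B : ℕ → Set At)
    (hz : ∀ j, z j ∈ C) (hB : ∀ j, (z j).A ⊆ B j) (hn : ∀ j, q.β = (z j).β ∨ .inl (z j).β ∈ B j)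
    (ht : ∀ j, (z j).t ≤ q.t) (hr : ∀ j, ∀ a ∈ B j, rk a < rk (.inl q.β))
    (hL : L q.t (nm (.inl q.β) ∪ S (⋃ j, B j)))
    (hA : ∀ a, (∀ k, ∃ j, k ≤ j ∧ a ∈ B j) → a ∈ q.A) : q ∈ C := by
  let e : ℕ → P := fun k => ⟨q.β, q.t, {a | ∃ j, k ≤ j ∧ a ∈ B j}, q.h1, q.h2,
    fun a ⟨j, _, h⟩ => hr j a h,
    hL.mono (union_subset_union_right _ (S_mono fun a ⟨j, _, h⟩ => mem_iUnion.2 ⟨j, h⟩)) le_rfl⟩
  refine mem_of_dir hC e (fun a b => ⟨max a b,
    ⟨le_rfl, fun _ ⟨j, h, h'⟩ => ⟨j, (le_max_left _ _).trans h, h'⟩, Or.inl rfl⟩,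
    ⟨le_rfl, fun _ ⟨j, h, h'⟩ => ⟨j, (le_max_right _ _).trans h, h'⟩, Or.inl rfl⟩⟩)
    (fun k => IsScott.isLowerSet_of_isClosed hC (show e k ≤ z k from
      ⟨ht k, fun a ha => ⟨k, le_rfl, hB k ha⟩, (hn k).imp id fun h => Or.inl ⟨k, le_rfl, h⟩⟩) (hz k))
    q (fun _ => rfl) (fun r hr => ⟨0, hr.le⟩) hA

theorem fin_rm {C : Set P} (hC : IsClosed C) (q : P) (B : Set At)
    (hr : ∀ a ∈ B, rk a < rk (.inl q.β)) (hL : L q.t (nm (.inl q.β) ∪ S B))
    (h : ∀ F : Set At, F.Finite → Disjoint F q.A → ∀ p : P, p.β = q.β → p.t = q.t →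
      p.A = B \ F → p ∈ C) : q ∈ C := by
  have _ : Nonempty {F : Set At // F.Finite ∧ Disjoint F q.A} :=
    ⟨⟨∅, finite_empty, empty_disjoint _⟩⟩
  refine mem_of_dir hC (fun F : {F : Set At // F.Finite ∧ Disjoint F q.A} =>
    ⟨q.β, q.t, B \ F.1, q.h1, q.h2, fun a ha => hr a ha.1,
      hL.mono (union_subset_union_right _ (S_mono sdiff_subset)) le_rfl⟩)
    (fun a b => ⟨⟨a.1 ∪ b.1, a.2.1.union b.2.1, disjoint_union_left.2 ⟨a.2.2, b.2.2⟩⟩,
      ⟨le_rfl, sdiff_subset_sdiff_right subset_union_left, Or.inl rfl⟩,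
      ⟨le_rfl, sdiff_subset_sdiff_right subset_union_right, Or.inl rfl⟩⟩)
    (fun F => h F.1 F.2.1 F.2.2 _ rfl rfl rfl) q (fun _ => rfl)
    (fun r hr => ⟨Classical.arbitrary _, hr.le⟩) fun a ha => ?_
  by_contra hc
  exact (ha ⟨{a}, finite_singleton a, disjoint_singleton_left.2 hc⟩).2 rfl

theorem sp_L (p : P) : L T (sp p) := p.h4.mono subset_rfl p.h2.le

theorem transfer {C : Set P} (hC : IsClosed C) (q : P)
    (hE : ∀ s, q.t < s → s < T → ∀ η : J, ∃ p ∈ C, p.β.2.2 = η ∧ p.t ≤ s ∧ p.A ⊆ q.A) :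
    q ∈ C := by
  refine slack hC q fun p hβ hA ht => ?_
  obtain ⟨N, hN, hU⟩ := L_union ht
  obtain ⟨ξ, -, hξ⟩ := above (sp_L q)
  obtain ⟨η, hη⟩ : ∃ η : ℕ → J, ∀ j, η j = (q.β.1, ξ, N j) := ⟨_, fun _ => rfl⟩
  obtain ⟨B, hB⟩ : ∃ B : ℕ → Set At, ∀ j a, a ∈ B j ↔ a = .inr (η j) ∨ a ∈ q.A :=
    ⟨fun j => insert (.inr (η j)) q.A, fun _ _ => Iff.rfl⟩
  have hL : L p.t (nm (.inl p.β) ∪ S (⋃ j, B j)) := by
    refine (hU (sp q) (fun j => nm (.inr (η j))) q.h4 (fun j => (nm_lev _).mono subset_rfl q.h1)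
      fun j x hx h => ?_).mono ?_ le_rfl
    · rw [hη] at hx
      exact absurd hx.2 (not_le.2 h)
    rw [hβ]
    refine union_subset (subset_union_left.trans subset_union_left) (S_sub fun a ha => ?_)
    obtain ⟨j, hj⟩ := mem_iUnion.1 ha
    rcases (hB j a).1 hj with rfl | h
    · exact (subset_iUnion (fun j => nm (.inr (η j))) j).trans subset_union_right
    · exact (nm_sub h).trans (subset_union_right.trans subset_union_left)
  have hr : ∀ j, ∀ a ∈ B j, rk a < rk (.inl p.β) := by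
    intro j a h
    rw [hβ]
    rcases (hB j a).1 h with rfl | h
    · rw [hη]; exact rk_J _ _ _
    · exact q.h3 a h
  let z : ℕ → P := fun j => ⟨p.β, p.t, B j, p.h1, p.h2, hr j,
    hL.mono (union_subset_union_right _ (S_mono (subset_iUnion B j))) le_rfl⟩
  refine cap hC p z B (fun j => ?_) (fun _ => subset_rfl)
    (fun _ => Or.inl rfl) (fun _ => le_rfl) hr hL fun a ha => ?_
  · obtain ⟨u, hu, e1, e2, e3⟩ := hE p.t ht p.h2 (η j)
    refine IsScott.isLowerSet_of_isClosed hC (show z j ≤ u from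
      ⟨e2, fun a ha => (hB j a).2 (Or.inr (e3 ha)),
        Or.inr (Or.inr ⟨(hB j _).2 (Or.inl (by rw [e1])), fun a ha => ?_⟩)⟩) hu
    rw [e1, hη]
    exact hξ a ((nm_sub (e3 ha)).trans subset_union_right) q.β (q.h3 a (e3 ha)) _
  · rw [hA]
    by_contra hc
    obtain ⟨j, -, h⟩ := ha 0
    obtain ⟨i, hi, h'⟩ := ha (N j + 1)
    have e := (((hB _ _).1 h).resolve_right hc).symm.trans (((hB _ _).1 h').resolve_right hc)
    rw [hη, hη] at e
    have : N j = N i := congrArg (fun e : J => e.2.2) (Sum.inr_injective e)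
    have := hN i
    omega

def lA (U : Ultrafilter P) : Set At := {a | ∀ᶠ p in (U : Filter P), a ∈ p.A}
def lS (U : Ultrafilter P) : Set Om := {x | ∀ᶠ p in (U : Filter P), x ∈ sp p}

theorem lS_L {U : Ultrafilter P} {s : ℝ} (h : ∀ᶠ p in (U : Filter P), p.t ≤ s) : L s (lS U) :=
  lim_L U sp (h.mono fun p hp => p.h4.mono subset_rfl hp)

theorem lA_sub {U : Ultrafilter P} {a : At} (h : a ∈ lA U) : nm a ⊆ lS U := fun _ hx =>
  Eventually.mono h fun _ hp => Or.inr (nm_sub hp hx)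

theorem seq (U : Ultrafilter P) {s0 s : ℝ} (hs : s0 < s) (ht : ∀ᶠ p in (U : Filter P), p.t ≤ s0)
    {Q : P → Prop} (hQ : ∀ᶠ p in (U : Filter P), Q p) :
    ∃ z : ℕ → P, (∀ j, Q (z j)) ∧ (∀ j, (z j).t ≤ s0) ∧ L s (lS U ∪ ⋃ j, sp (z j)) ∧
      ∀ y : Set Om, (∀ k, ∃ j, k ≤ j ∧ y ⊆ sp (z j)) → y ⊆ lS U := by
  obtain ⟨N, hN, hU⟩ := L_union hs
  choose z h1 h2 h3 using fun j => (hQ.and (ht.and (lim_agree U sp (N j)))).exists
  refine ⟨z, h1, h2, hU _ _ (lS_L ht) (fun j => (z j).h4.mono subset_rfl (h2 j))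
    fun j x hx h => (h3 j x h).1 hx, fun y hy x hx => ?_⟩
  obtain ⟨j, hj, h⟩ := hy (x.1 + 1)
  exact (h3 j x (lt_of_lt_of_le hj (hN j))).1 (h hx)

theorem key_const {C : Set P} (hC : IsClosed C) (U : Ultrafilter P) (hU : C ∈ U) (q : P)
    (hA : lA U ⊆ q.A) (ht : ∀ s, q.t < s → ∀ᶠ p in (U : Filter P), p.t ≤ s)
    (hβ : ∀ᶠ p in (U : Filter P), p.β = q.β) : q ∈ C := by
  refine slack hC q fun p e1 e2 e3 => ?_
  have n1 : nm (.inl q.β) ⊆ lS U := fun x hx => hβ.mono fun u hu => Or.inl (hu ▸ hx)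
  refine fin_rm hC p {a | nm a ⊆ lS U ∧ rk a < rk (.inl p.β)} (fun a ha => ha.2)
    ((lS_L (ht _ e3)).mono (union_subset (e1 ▸ n1) (S_sub fun a ha => ha.1)) le_rfl)
    fun F hF hd u f1 f2 f3 => ?_
  have h1 : ∀ᶠ p in (U : Filter P), ∀ a ∈ F, a ∉ p.A := (eventually_all_finite hF).2 fun a ha =>
    Ultrafilter.eventually_not.2 fun h => disjoint_left.1 hd ha (e2 ▸ hA h)
  obtain ⟨z, z1, z2, z3, z4⟩ := seq U (show (q.t + p.t) / 2 < p.t by linarith)
    (ht _ (by linarith)) ((show ∀ᶠ p in (U : Filter P), p ∈ C from hU).and (hβ.and h1))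
  have zb : ∀ j, (z j).β = u.β := fun j => (z1 j).2.1.trans (f1.trans e1).symm
  refine cap hC u z (fun j => (z j).A) (fun j => (z1 j).1) (fun _ => subset_rfl)
    (fun j => Or.inl (zb j).symm) (fun j => (z2 j).trans (by linarith))
    (fun j a ha => zb j ▸ (z j).h3 a ha) (z3.mono ?_ f2.ge) fun a ha => ?_
  · refine union_subset ?_ (S_sub fun a ha => ?_)
    · rw [f1, e1]; exact n1.trans subset_union_left
    · obtain ⟨j, hj⟩ := mem_iUnion.1 ha
      exact ((nm_sub hj).trans subset_union_right).trans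
        ((subset_iUnion (fun j => sp (z j)) j).trans subset_union_right)
  · rw [f3]
    obtain ⟨j, -, hj⟩ := ha 0
    refine ⟨⟨z4 _ fun k => (ha k).imp fun j h => ⟨h.1, (nm_sub h.2).trans subset_union_right⟩, ?_⟩,
      fun h => (z1 j).2.2 a h hj⟩
    rw [← f1, ← zb j]
    exact (z j).h3 a hj

theorem fresh {s0 s : ℝ} (h0 : T / 2 ≤ s0) (hs : s0 < s) (hT : s < T) {w : Set Om} (hw : L s0 w)
    (η : J) (M0 : ℕ) : ∃ b : Cp, b.2.2 = η ∧ M0 ≤ b.2.1 ∧ (∀ a, nm a ⊆ w → rk a < rk (.inl b)) ∧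
      L s (w ∪ nm (.inl b)) := by
  obtain ⟨M, hM⟩ := L_add hs
  obtain ⟨ξ, hξ, -⟩ := above (hw.mono subset_rfl (hs.trans hT).le)
  exact ⟨(ξ, max M M0, η), rfl, le_max_right _ _, fun a ha => hξ a ha _ _,
    hM _ _ hw ((nm_lev _).mono subset_rfl h0) fun x hx => (le_max_left _ _).trans hx.2⟩

theorem key_non {C : Set P} (hC : IsClosed C) (U : Ultrafilter P) (hU : C ∈ U) (q : P)
    (hA : lA U ⊆ q.A) (ht : ∀ s, q.t < s → ∀ᶠ p in (U : Filter P), p.t ≤ s)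
    (hβ : ∀ e, ¬ ∀ᶠ p in (U : Filter P), p.β = e) : q ∈ C := by
  have q1 := q.h1
  have step : ∀ F : Set At, F.Finite → Disjoint F q.A → ∀ u : P, q.t ≤ u.t →
      {a | nm a ⊆ lS U} \ F ⊆ u.A → u ∈ C := fun F hF hd u hu hu' => by
    refine transfer hC u fun s h1 h2 η => ?_
    have e1 : ∀ᶠ p in (U : Filter P), ∀ a ∈ F, a ∉ insert (.inl p.β) p.A :=
      (eventually_all_finite hF).2 fun a ha => by
        have f1 : ∀ᶠ p in (U : Filter P), a ∉ p.A :=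
          Ultrafilter.eventually_not.2 fun h => disjoint_left.1 hd ha (hA h)
        have f2 : ∀ᶠ p in (U : Filter P), a ≠ .inl p.β := by
          rcases a with e | e
          · exact (Ultrafilter.eventually_not.2 (hβ e)).mono fun p hp h =>
              hp (Sum.inl_injective h).symm
          · exact Eventually.of_forall fun p => Sum.inr_ne_inl
        exact (f1.and f2).mono fun p hp h => h.elim hp.2 hp.1
    obtain ⟨z, z1, z2, z3, z4⟩ := seq U (show (2 * q.t + s) / 3 < (q.t + 2 * s) / 3 by linarith)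
      (ht _ (by linarith)) ((show ∀ᶠ p in (U : Filter P), p ∈ C from hU).and e1)
    obtain ⟨b, b1, -, b2, b3⟩ := fresh (by linarith) (show (q.t + 2 * s) / 3 < s by linarith) h2
      z3 η 0
    have sub : ∀ j, ∀ a ∈ insert (.inl (z j).β) (z j).A, nm a ⊆ sp (z j) := by
      rintro j a (rfl | h)
      · exact subset_union_left
      · exact (nm_sub h).trans subset_union_right
    have sub' : ∀ j, ∀ a ∈ insert (.inl (z j).β) (z j).A, nm a ⊆ lS U ∪ ⋃ j, sp (z j) :=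
      fun j a h => (sub j a h).trans
        ((subset_iUnion (fun j => sp (z j)) j).trans subset_union_right)
    let p : P := ⟨b, s, {a | nm a ⊆ lS U} \ F, by linarith, h2,
      fun a ha => b2 a (ha.1.trans subset_union_left),
      b3.mono (union_subset subset_union_right (S_sub fun a ha =>
        ha.1.trans (subset_union_left.trans subset_union_left))) le_rfl⟩
    refine ⟨p, cap hC p z (fun j => insert (.inl (z j).β) (z j).A) (fun j => (z1 j).1)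
      (fun _ => subset_insert _ _) (fun _ => Or.inr (mem_insert _ _))
      (fun j => (z2 j).trans (show _ ≤ s by linarith)) (fun j a ha => b2 a (sub' j a ha))
      (b3.mono (union_subset subset_union_right (S_sub fun a ha => ?_)) le_rfl) fun a ha => ?_,
      b1, le_rfl, hu'⟩
    · obtain ⟨j, hj⟩ := mem_iUnion.1 ha
      exact (sub' j a hj).trans subset_union_left
    · obtain ⟨j, -, hj⟩ := ha 0
      exact ⟨z4 _ fun k => (ha k).imp fun j h => ⟨h.1, sub j a h.2⟩, fun h => (z1 j).2 a h hj⟩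
  refine transfer hC q fun s h1 h2 η => ?_
  obtain ⟨b, b1, -, b2, b3⟩ := fresh (by linarith) (show (q.t + s) / 2 < s by linarith) h2
    (lS_L (ht _ (by linarith))) η 0
  have b4 : L s (nm (.inl b) ∪ S {a | nm a ⊆ lS U}) :=
    b3.mono (union_subset subset_union_right (S_sub fun a ha => subset_union_of_subset_left ha _))
      le_rfl
  let p : P := ⟨b, s, {a | nm a ⊆ lS U} ∩ q.A, by linarith, h2, fun a ha => b2 a ha.1,
    b4.mono (union_subset_union_right _ (S_mono inter_subset_left)) le_rfl⟩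
  refine ⟨p, fin_rm hC p _ (fun a ha => b2 a ha) b4 fun F hF hd u f1 f2 f3 => ?_, b1, le_rfl,
    inter_subset_right⟩
  refine step (F \ q.A) (hF.subset sdiff_subset) disjoint_sdiff_left u (f2 ▸ h1.le) fun a ha => ?_
  rw [f3]
  refine ⟨ha.1, fun h => ha.2 ⟨h, fun h' => disjoint_left.1 hd h ⟨ha.1, h'⟩⟩⟩

theorem le_nhds_of {U : Ultrafilter P} {q : P} (h : ∀ C, IsClosed C → C ∈ U → q ∈ C) :
    (U : Filter P) ≤ 𝓝 q := by
  refine le_nhds_iff.2 fun V hq hV => ?_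
  by_contra hc
  exact h Vᶜ hV.isClosed_compl (Ultrafilter.compl_mem_iff_notMem.2 hc) hq

def Good (G : Set P) : Prop := IsOpen G ∧ ∃ M0 : ℕ, ∀ U : Ultrafilter P, G ∈ U → ∀ q : P,
  q.A ⊆ lA U → ((∀ᶠ p in (U : Filter P), p.β = q.β) ∨ M0 ≤ q.β.2.1) → q ∈ G

theorem good_univ : Good univ := ⟨isOpen_univ, 0, fun _ _ _ _ _ => trivial⟩

theorem Good.inter {G H : Set P} (hG : Good G) (hH : Good H) : Good (G ∩ H) := by
  obtain ⟨h1, M, h2⟩ := hG
  obtain ⟨h3, N, h4⟩ := hH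
  exact ⟨h1.inter h3, max M N, fun U hU q hq h =>
    ⟨h2 U (mem_of_superset hU inter_subset_left) q hq (h.imp id (le_max_left _ _).trans),
      h4 U (mem_of_superset hU inter_subset_right) q hq (h.imp id (le_max_right _ _).trans)⟩⟩

theorem good1 (a : At) : Good {p : P | a ∈ p.A}ᶜ :=
  ⟨(cl1 a).isOpen_compl, 0, fun _ hU _ hq _ h => Ultrafilter.compl_mem_iff_notMem.1 hU (hq h)⟩

theorem good3 (e : Cp) : Good {p : P | p.β = e ∨ .inl e ∈ p.A ∨ .inr e.2.2 ∈ p.A}ᶜ := by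
  refine ⟨(cl3 e).isOpen_compl, e.2.1 + 1, fun U hU q hq h h' =>
    Ultrafilter.compl_mem_iff_notMem.1 hU ?_⟩
  rcases h' with rfl | h' | h'
  · exact (h.resolve_right (Nat.not_succ_le_self _)).mono fun p hp => Or.inl hp
  · exact Eventually.mono (hq h') fun p hp => Or.inr (Or.inl hp)
  · exact Eventually.mono (hq h') fun p hp => Or.inr (Or.inr hp)

theorem good4 (e : Cp) (f : At) (hf : ¬ rk f < rk (.inr e.2.2)) :
    Good {p : P | (p.β = e ∨ .inl e ∈ p.A) ∧ f ∈ p.A}ᶜ := by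
  refine ⟨(cl4 e f hf).isOpen_compl, e.2.1 + 1, fun U hU q hq h h' =>
    Ultrafilter.compl_mem_iff_notMem.1 hU (Eventually.and ?_ (hq h'.2))⟩
  rcases h'.1 with rfl | h'
  · exact (h.resolve_right (Nat.not_succ_le_self _)).mono fun p hp => Or.inl hp
  · exact Eventually.mono (hq h') fun p hp => Or.inr hp

theorem exists_const {U : Ultrafilter P} {e : Cp} (he : ∀ᶠ p in (U : Filter P), p.β = e) {s : ℝ}
    (h1 : T / 2 ≤ s) (h2 : s < T) (ht : ∀ r, s < r → ∀ᶠ p in (U : Filter P), p.t ≤ r) :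
    ∃ q : P, q.β = e ∧ q.t = s ∧ q.A = lA U := by
  refine ⟨⟨e, s, lA U, h1, h2, fun a ha => ?_, L_of_gt fun r hr => (lS_L (ht r hr)).mono
    (union_subset (fun x hx => he.mono fun u hu => Or.inl (hu ▸ hx)) (S_sub fun a => lA_sub))
    le_rfl⟩, rfl, rfl, rfl⟩
  obtain ⟨p, e1, e2⟩ := (he.and ha).exists
  exact e1 ▸ p.h3 a e2

theorem canon {V : Set P} (hV : IsOpen V) {y : P} (hy : y ∈ V) :
    ∃ G r, Good G ∧ y ∈ G ∧ y.t < r ∧ r < T ∧ ∀ p ∈ G, p.t ≤ r → p ∈ V := by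
  by_contra hc
  push Not at hc
  have y2 := y.h2
  let ι := {i : Set P × ℝ // Good i.1 ∧ y ∈ i.1 ∧ y.t < i.2 ∧ i.2 < T}
  have _ : Nonempty ι := ⟨⟨(univ, (y.t + T) / 2), good_univ, trivial, by linarith, by linarith⟩⟩
  have nb : NeBot (⨅ i : ι, 𝓟 {p | p ∈ i.1.1 ∧ p.t ≤ i.1.2 ∧ p ∉ V}) :=
    iInf_neBot_of_directed' (fun a b => ⟨⟨(a.1.1 ∩ b.1.1, min a.1.2 b.1.2), a.2.1.inter b.2.1,
      ⟨a.2.2.1, b.2.2.1⟩, lt_min a.2.2.2.1 b.2.2.2.1, (min_le_left _ _).trans_lt a.2.2.2.2⟩,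
      principal_mono.2 fun p hp => ⟨hp.1.1, hp.2.1.trans (min_le_left _ _), hp.2.2⟩,
      principal_mono.2 fun p hp => ⟨hp.1.2, hp.2.1.trans (min_le_right _ _), hp.2.2⟩⟩)
      fun i => principal_neBot_iff.2 (hc i.1.1 i.1.2 i.2.1 i.2.2.1 i.2.2.2.1 i.2.2.2.2)
  obtain ⟨U, hU⟩ := Ultrafilter.exists_le (⨅ i : ι, 𝓟 {p | p ∈ i.1.1 ∧ p.t ≤ i.1.2 ∧ p ∉ V})
  have m : ∀ G r, Good G → y ∈ G → y.t < r → ∀ᶠ p in (U : Filter P), p ∈ G ∧ p.t ≤ r ∧ p ∉ V :=
    fun G r h1 h2 h3 => Eventually.mono (le_principal_iff.1 (hU.trans (iInf_le _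
      (⟨(G, min r ((y.t + T) / 2)), h1, h2, lt_min h3 (by linarith),
        (min_le_right _ _).trans_lt (by linarith)⟩ : ι))))
      fun p hp => ⟨hp.1, hp.2.1.trans (min_le_left _ _), hp.2.2⟩
  have mG : ∀ G : Set P, Good Gᶜ → (∀ᶠ p in (U : Filter P), p ∈ G) → y ∈ G := fun G h1 h2 => by
    by_contra h
    obtain ⟨p, e1, e2⟩ := (h2.and (m _ _ h1 h (lt_add_one _))).exists
    exact e2.1 e1
  have mt : ∀ r, y.t < r → ∀ᶠ p in (U : Filter P), p.t ≤ r := fun r hr =>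
    (m _ r good_univ trivial hr).mono fun p hp => hp.2.1
  have mV : Vᶜ ∈ U := (m _ _ good_univ trivial (lt_add_one _)).mono fun p hp => hp.2.2
  have mA : lA U ⊆ y.A := fun a ha => mG _ (good1 a) ha
  by_cases h : ∃ e, ∀ᶠ p in (U : Filter P), p.β = e
  · obtain ⟨e, he⟩ := h
    obtain ⟨q, rfl, q2, q3⟩ := exists_const he y.h1 y.h2 mt
    refine key_const hV.isClosed_compl U mV q q3.ge (q2 ▸ mt) he
      (IsScott.isUpperSet_of_isOpen (D := univ) hV (show y ≤ q from ⟨q2.le, q3 ▸ mA, ?_⟩) hy)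
    by_cases h1 : y.β = q.β ∨ .inl q.β ∈ y.A
    · exact h1.imp id Or.inl
    · have h2 := mG _ (good3 q.β) (he.mono fun p hp => Or.inl hp)
      refine Or.inr (Or.inr ⟨?_, fun a ha => ?_⟩)
      · rcases h2 with h2 | h2 | h2
        · exact absurd (Or.inl h2) h1
        · exact absurd (Or.inr h2) h1
        · exact h2
      · by_contra h3
        rw [q3] at ha
        exact h1 (mG _ (good4 q.β a h3) ((he.and ha).mono fun p hp => ⟨Or.inl hp.1, hp.2⟩)).1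
  · exact key_non hV.isClosed_compl U mV y mA mt (fun e he => h ⟨e, he⟩) hy

theorem compactK {G : Set P} (hG : Good G) {r s : ℝ} (h0 : T / 2 ≤ r) (h1 : r < s) (h2 : s < T) :
    IsCompact {p : P | p ∈ G ∧ p.t ≤ s ∧ L r (S p.A)} := by
  obtain ⟨-, M, hM⟩ := hG
  refine isCompact_iff_ultrafilter_le_nhds.2 fun U hU => ?_
  have m : ∀ᶠ p in (U : Filter P), p ∈ G ∧ p.t ≤ s ∧ L r (S p.A) := le_principal_iff.1 hU
  have mG : G ∈ U := m.mono fun p hp => hp.1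
  have mt : ∀ u, s < u → ∀ᶠ p in (U : Filter P), p.t ≤ u := fun u hu =>
    m.mono fun p hp => hp.2.1.trans hu.le
  have mL : L r (S (lA U)) := (lim_L U (fun p => S p.A) (m.mono fun p hp => hp.2.2)).mono
    (S_sub fun a ha x hx => Eventually.mono ha fun p hp => nm_sub hp hx) le_rfl
  by_cases h : ∃ e, ∀ᶠ p in (U : Filter P), p.β = e
  · obtain ⟨e, he⟩ := h
    obtain ⟨q, rfl, q2, q3⟩ := exists_const he (h0.trans h1.le) h2 mt
    exact ⟨q, ⟨hM U mG q q3.le (Or.inl he), q2.le, q3 ▸ mL⟩,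
      le_nhds_of fun C hC hU => key_const hC U hU q q3.ge (q2 ▸ mt) he⟩
  · obtain ⟨ξ, -⟩ := xx_bd _ (mL.mono subset_rfl (h1.trans h2).le)
    obtain ⟨b, -, b1, b2, b3⟩ := fresh h0 h1 h2 mL (ξ, ξ, 0) M
    let q : P := ⟨b, s, lA U, h0.trans h1.le, h2, fun a ha => b2 a (nm_sub ha),
      by rwa [union_comm]⟩
    exact ⟨q, ⟨hM U mG q subset_rfl (Or.inr b1), le_rfl, mL⟩,
      le_nhds_of fun C hC hU => key_non hC U hU q subset_rfl mt fun e he => h ⟨e, he⟩⟩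

theorem lcP : LocallyCompactSpace P := by
  refine ⟨fun y n hn => ?_⟩
  obtain ⟨V, h1, hV, hy⟩ := mem_nhds_iff.1 hn
  obtain ⟨G, s, g1, g2, g3, g4, g5⟩ := canon hV hy
  have := y.h1
  refine ⟨_, ?_, fun p hp => h1 (g5 p hp.1 hp.2.1),
    compactK g1 (r := (y.t + s) / 2) (by linarith) (by linarith) g4⟩
  refine mem_of_superset ((g1.1.inter (cl2 ((y.t + s) / 2)).isOpen_compl).mem_nhds
    ⟨g2, show ¬ _ ≤ y.t by linarith⟩) fun p hp => ?_
  have h : p.t < (y.t + s) / 2 := not_le.1 hp.2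
  exact ⟨hp.1, by linarith, p.h4.mono subset_union_right h.le⟩

noncomputable def topP (b : Cp) : P := ⟨b, T / 2, ∅, le_rfl, by linarith [T_pos], fun _ h => h.elim,
  (nm_lev (.inl b)).mono (union_subset subset_rfl (S_sub fun _ h => h.elim)) le_rfl⟩

theorem not_sober : ¬ QuasiSober P := by
  intro h
  obtain ⟨ξ, -⟩ := xx_bd (xx (Classical.choose (xx_bd ∅ fun n => by
    simp [cnt, Real.exp_nonneg]))) ((xx_lev _).mono subset_rfl (by linarith [T_pos]))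
  have ev : ∀ V : Set P, IsOpen V → V.Nonempty → ∃ M, ∀ b : Cp, M ≤ b.2.1 → topP b ∈ V := by
    rintro V hV ⟨y, hy⟩
    obtain ⟨G, s, ⟨-, M, hM⟩, g2, g3, -, g5⟩ := canon hV hy
    exact ⟨M, fun b hb => g5 _ (hM (pure y) g2 _ (empty_subset _) (Or.inr hb))
      (y.h1.trans g3.le)⟩
  have irr : IsIrreducible (univ : Set P) := ⟨⟨topP (ξ, 0, ξ, ξ, 0), trivial⟩, fun V W hV hW h1 h2 => by
    obtain ⟨M, hM⟩ := ev V hV (h1.mono inter_subset_right)
    obtain ⟨N, hN⟩ := ev W hW (h2.mono inter_subset_right)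
    exact ⟨topP (ξ, max M N, ξ, ξ, 0), trivial, hM _ (le_max_left _ _), hN _ (le_max_right _ _)⟩⟩
  obtain ⟨x, hx⟩ := QuasiSober.sober irr isClosed_univ
  have : topP (ξ, x.β.2.1 + 1, ξ, ξ, 0) ∈ closure {x} := hx.def ▸ trivial
  rw [IsScott.closure_singleton] at this
  rcases this.2.2 with e | e
  · exact absurd (congrArg (fun b : Cp => b.2.1) e) (Nat.succ_ne_self _)
  · obtain ⟨_, hb, -⟩ := e.ex
    exact hb

end Pool.Agent.H29.LcS
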