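import Mathlib

open scoped WithZero nonZeroDivisors

namespace Pool.Agent.H29.Log1

section Ext
variable {C A L M : Type*} [CommRing C] [CommRing A] [CommRing L] [Algebra C A] [Algebra C L]
  [Algebra A L] [IsScalarTower C A L] [Algebra.FormallyEtale A L] [AddCommGroup M] [Module L M]
  [Module A M] [Module C M] [IsScalarTower A L M] [IsScalarTower C A M] [IsScalarTower C L M]

theorem ext_der (d : Derivation C A M) :
    ∃ D : Derivation C L M, ∀ a, D (algebraMap A L a) = d a := by
  have h := KaehlerDifferential.isBaseChange_of_formallyEtale C A L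
  refine ⟨(h.lift d.liftKaehlerDifferential).compDer (KaehlerDifferential.D C L), fun a => ?_⟩
  show h.lift d.liftKaehlerDifferential (KaehlerDifferential.D C L (algebraMap A L a)) = _
  rw [← KaehlerDifferential.map_D C C A L, h.lift_eq, Derivation.liftKaehlerDifferential_comp_D]

theorem uniq_der (D1 D2 : Derivation C L M)
    (hD : ∀ a, D1 (algebraMap A L a) = D2 (algebraMap A L a)) : D1 = D2 := by
  have h := KaehlerDifferential.isBaseChange_of_formallyEtale C A L
  have key : D1.liftKaehlerDifferential = D2.liftKaehlerDifferential := by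
    apply h.algHom_ext
    intro x
    have := Derivation.liftKaehlerDifferential_unique
      ((D1.liftKaehlerDifferential.restrictScalars A).comp (KaehlerDifferential.map C C A L))
      ((D2.liftKaehlerDifferential.restrictScalars A).comp (KaehlerDifferential.map C C A L)) (by
        ext a
        show D1.liftKaehlerDifferential
          (KaehlerDifferential.map C C A L (KaehlerDifferential.D C A a)) =
          D2.liftKaehlerDifferential (KaehlerDifferential.map C C A L (KaehlerDifferential.D C A a))
        rw [KaehlerDifferential.map_D, Derivation.liftKaehlerDifferential_comp_D,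
          Derivation.liftKaehlerDifferential_comp_D, hD])
    exact LinearMap.congr_fun this x
  ext x
  rw [← Derivation.liftKaehlerDifferential_comp_D, key, Derivation.liftKaehlerDifferential_comp_D]

end Ext

section Logs
variable {C L : Type*} [CommRing C] [Field L] [Algebra C L]

theorem log_mul (D : Derivation C L L) {x y : L} (hx : x ≠ 0) (hy : y ≠ 0) :
    D (x * y) / (x * y) = D x / x + D y / y := by
  rw [Derivation.leibniz, smul_eq_mul, smul_eq_mul]
  field_simp
  ring

theorem log_div (D : Derivation C L L) {x y : L} (hx : x ≠ 0) (hy : y ≠ 0) :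
    D (x / y) / (x / y) = D x / x - D y / y := by
  have := log_mul D (div_ne_zero hx hy) hy
  rw [div_mul_cancel₀ _ hy] at this
  rw [this]; ring

theorem log_prod (D : Derivation C L L) {ι : Type*} (s : Finset ι) (f : ι → L)
    (h : ∀ i, f i ≠ 0) : D (∏ i ∈ s, f i) / ∏ i ∈ s, f i = ∑ i ∈ s, D (f i) / f i := by
  classical
  induction s using Finset.induction_on with
  | empty => simp
  | insert a s ha ih =>
    rw [Finset.prod_insert ha, Finset.sum_insert ha,
      log_mul D (h a) (Finset.prod_ne_zero_iff.2 fun i _ => h i), ih]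

end Logs

theorem trace_norm {C F L : Type*} [Field C] [Field F] [Field L] [CharZero F] [Algebra C F]
    [Algebra C L] [Algebra F L] [IsScalarTower C F L] [FiniteDimensional F L]
    (d : Derivation C F F) (D : Derivation C L L)
    (hD : ∀ a, D (algebraMap F L a) = algebraMap F L (d a)) {η : L} (hη : η ≠ 0) :
    Algebra.trace F L (D η / η) = d (Algebra.norm F η) / Algebra.norm F η := by
  let E := AlgebraicClosure F
  have : Algebra.FormallyEtale F E := Algebra.FormallyEtale.of_isSeparable F E
  have : Algebra.FormallyEtale F L := Algebra.FormallyEtale.of_isSeparable F L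
  obtain ⟨DE, hDE⟩ := ext_der (L := E) ((Algebra.linearMap F E).compDer d)
  have hcomm : ∀ σ : L →ₐ[F] E, ∀ x, σ (D x) = DE (σ x) := by
    intro σ x
    let _ : Algebra L E := σ.toRingHom.toAlgebra
    have : IsScalarTower F L E := IsScalarTower.of_algebraMap_eq fun a => (σ.commutes a).symm
    have : IsScalarTower C L E := IsScalarTower.of_algebraMap_eq fun a => by
      rw [IsScalarTower.algebraMap_apply C F E, IsScalarTower.algebraMap_apply C F L,
        ← IsScalarTower.algebraMap_apply F L E]
    have := uniq_der (A := F) ((Algebra.linearMap L E).compDer D) (DE.compAlgebraMap L) fun a => by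
      show algebraMap L E (D (algebraMap F L a)) = DE (algebraMap L E (algebraMap F L a))
      rw [hD, ← IsScalarTower.algebraMap_apply, ← IsScalarTower.algebraMap_apply, hDE]
      rfl
    exact DFunLike.congr_fun this x
  apply (algebraMap F E).injective
  rw [trace_eq_sum_embeddings E, map_div₀]
  have h1 : algebraMap F E (d (Algebra.norm F η)) = DE (algebraMap F E (Algebra.norm F η)) :=
    (hDE _).symm
  rw [h1, Algebra.norm_eq_prod_embeddings F E,
    log_prod DE _ _ fun σ => (map_ne_zero σ).2 hη]
  exact Finset.sum_congr rfl fun σ _ => by rw [map_div₀, hcomm]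

section Deg
open MvPolynomial
variable (ι C : Type*) [Field C]

open Classical in
noncomputable def dv : Valuation (MvPolynomial ι C) ℤᵐ⁰ where
  toFun f := if f = 0 then 0 else WithZero.exp (f.totalDegree : ℤ)
  map_zero' := if_pos rfl
  map_one' := by simp
  map_mul' f g := by
    by_cases hf : f = 0
    · simp [hf]
    by_cases hg : g = 0
    · simp [hg]
    rw [if_neg hf, if_neg hg, if_neg (mul_ne_zero hf hg), totalDegree_mul_of_isDomain hf hg,
      ← WithZero.exp_add]
    simp
  map_add_le_max' f g := by
    by_cases hfg : f + g = 0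
    · simp [hfg]
    by_cases hf : f = 0
    · simp [hf]
    by_cases hg : g = 0
    · simp [hg]
    simp only [if_neg hf, if_neg hg, if_neg hfg, le_max_iff, WithZero.exp_le_exp, Nat.cast_le]
    exact le_max_iff.1 (totalDegree_add f g)

variable {ι C}

theorem dv_of_ne {f : MvPolynomial ι C} (hf : f ≠ 0) :
    dv ι C f = WithZero.exp (f.totalDegree : ℤ) := if_neg hf

theorem dv_ne {f : MvPolynomial ι C} (hf : f ≠ 0) : dv ι C f ≠ 0 := by
  rw [dv_of_ne hf]; exact WithZero.exp_ne_zero

variable (ι C)

noncomputable def w : Valuation (FractionRing (MvPolynomial ι C)) ℤᵐ⁰ :=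
  (dv ι C).extendToLocalization (S := (MvPolynomial ι C)⁰)
    (fun _ hr => Set.mem_compl (dv_ne (nonZeroDivisors.ne_zero hr))) _

noncomputable def euler : Derivation C (MvPolynomial ι C) (MvPolynomial ι C) :=
  mkDerivation C fun i => X i

variable {ι C}

theorem w_alg (f : MvPolynomial ι C) : w ι C (algebraMap _ _ f) = dv ι C f :=
  Valuation.extendToLocalization_apply_map_apply _ _ _ _

theorem euler_monomial (m : ι →₀ ℕ) (a : C) :
    euler ι C (monomial m a) = ((m.sum fun _ e => e : ℕ) : C) • monomial m a := by
  classical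
  rw [euler, mkDerivation_monomial]
  have : (m.sum fun i k => monomial (m - Finsupp.single i 1) (k : C) • (X i : MvPolynomial ι C)) =
      m.sum fun _ k => monomial m (k : C) := by
    refine Finsupp.sum_congr fun i hi => ?_
    rw [smul_eq_mul, X, monomial_mul, mul_one, tsub_add_cancel_of_le]
    exact Finsupp.single_le_iff.2 (Nat.one_le_iff_ne_zero.2 (Finsupp.mem_support_iff.1 hi))
  rw [this, Finsupp.sum, Finsupp.sum, ← map_sum, smul_monomial, smul_monomial]
  simp [mul_comm]

theorem coeff_euler (f : MvPolynomial ι C) (m : ι →₀ ℕ) :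
    coeff m (euler ι C f) = ((m.sum fun _ e => e : ℕ) : C) * coeff m f := by
  classical
  induction f using MvPolynomial.induction_on' with
  | monomial u a =>
    rw [euler_monomial, coeff_smul, coeff_monomial]
    split_ifs with h
    · rw [h, smul_eq_mul]
    · simp
  | add p q hp hq => rw [map_add, coeff_add, coeff_add, hp, hq, mul_add]

theorem dv_euler {f : MvPolynomial ι C} (hf : f ≠ 0) :
    dv ι C (euler ι C f - (f.totalDegree : C) • f) < dv ι C f := by
  by_cases h : euler ι C f - (f.totalDegree : C) • f = 0
  · rw [h, map_zero]; exact zero_lt_iff.2 (dv_ne hf)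
  rw [dv_of_ne h, dv_of_ne hf, WithZero.exp_lt_exp, Nat.cast_lt]
  obtain ⟨m, hm, hm2⟩ := Finset.exists_mem_eq_sup _ (support_nonempty.2 h)
    fun s : ι →₀ ℕ => s.sum fun _ e => e
  rw [totalDegree, hm2]
  rw [mem_support_iff, coeff_sub, coeff_euler, coeff_smul, smul_eq_mul, ← sub_mul] at hm
  refine lt_of_le_of_ne (le_totalDegree (mem_support_iff.2 (right_ne_zero_of_mul hm))) fun he => ?_
  exact left_ne_zero_of_mul hm (by rw [he, sub_self])

/-- the degree of a rational function -/
noncomputable def deg (x : FractionRing (MvPolynomial ι C)) : ℤ := WithZero.log (w ι C x)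

theorem deg_mul {x y : FractionRing (MvPolynomial ι C)} (hx : x ≠ 0) (hy : y ≠ 0) :
    deg (x * y) = deg x + deg y := by
  rw [deg, map_mul, WithZero.log_mul ((w ι C).ne_zero_iff.2 hx) ((w ι C).ne_zero_iff.2 hy)]
  rfl

theorem deg_alg {f : MvPolynomial ι C} (hf : f ≠ 0) :
    deg (algebraMap _ (FractionRing (MvPolynomial ι C)) f) = f.totalDegree := by
  rw [deg, w_alg, dv_of_ne hf, WithZero.log_exp]

theorem w_const {c : C} (hc : c ≠ 0) :
    w ι C (algebraMap C (FractionRing (MvPolynomial ι C)) c) = 1 := by
  rw [IsScalarTower.algebraMap_apply C (MvPolynomial ι C), w_alg, algebraMap_eq,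
    dv_of_ne (by simpa using hc), totalDegree_C]
  simp

theorem w_res (e : Derivation C (FractionRing (MvPolynomial ι C)) (FractionRing (MvPolynomial ι C)))
    (he : ∀ p, e (algebraMap _ _ p) = algebraMap _ _ (euler ι C p))
    {x : FractionRing (MvPolynomial ι C)} (hx : x ≠ 0) :
    w ι C (e x / x - algebraMap C _ (deg x : C)) < 1 := by
  have hp : ∀ p : MvPolynomial ι C, p ≠ 0 → w ι C (e (algebraMap _ _ p) / algebraMap _ _ p -
      algebraMap C _ (p.totalDegree : C)) < 1 := by
    intro p hp
    have hp' : algebraMap _ (FractionRing (MvPolynomial ι C)) p ≠ 0 := by simpa using hp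
    have : e (algebraMap _ _ p) / algebraMap _ _ p - algebraMap C _ (p.totalDegree : C) =
        algebraMap _ _ (euler ι C p - (p.totalDegree : C) • p) / algebraMap _ _ p := by
      rw [he, map_sub, Algebra.smul_def, map_mul, ← IsScalarTower.algebraMap_apply]
      field_simp
    rw [this, map_div₀, w_alg, w_alg, div_lt_one₀ (zero_lt_iff.2 (dv_ne hp))]
    exact dv_euler hp
  obtain ⟨p, q, hq, rfl⟩ := IsFractionRing.div_surjective (A := MvPolynomial ι C) x
  have hq0 : q ≠ 0 := nonZeroDivisors.ne_zero hq
  have hp0 : p ≠ 0 := by rintro rfl; simp at hx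
  have hp' : algebraMap _ (FractionRing (MvPolynomial ι C)) p ≠ 0 := by simpa using hp0
  have hq' : algebraMap _ (FractionRing (MvPolynomial ι C)) q ≠ 0 := by simpa using hq0
  have hd := deg_mul hx hq'
  rw [div_mul_cancel₀ _ hq', deg_alg hp0, deg_alg hq0] at hd
  have hd' : deg (algebraMap _ (FractionRing (MvPolynomial ι C)) p / algebraMap _ _ q) =
      (p.totalDegree : ℤ) - q.totalDegree := by linarith
  rw [log_div e hp' hq', hd']
  push_cast
  have := (w ι C).map_sub_lt (hp p hp0) (hp q hq0)
  rw [map_natCast, map_natCast] at this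
  convert this using 2
  ring

end Deg

theorem residue {C L : Type*} [Field C] [CharZero C] [Field L] [Algebra C L]
    [Algebra.EssFiniteType C L] {ξ : L} (hξ : Transcendental C ξ) :
    ∃ v : L → ℤ, (∀ x y, x ≠ 0 → y ≠ 0 → v (x * y) = v x + v y) ∧ v ξ ≠ 0 ∧
      ∃ D : Derivation C L L, ∀ (N : ℕ) (c : Fin N → C) (η : Fin N → L), (∀ i, η i ≠ 0) →
        ∑ i, c i • (D (η i) / η i) = 0 → ∑ i, c i * (v (η i) : C) = 0 := by
  obtain ⟨t, hξt, ht⟩ := exists_isTranscendenceBasis_superset (R := C) (s := {ξ})
    (by
      exact algebraicIndependent_unique_type_iff.2 hξ)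
  let P := MvPolynomial t C
  let F := FractionRing P
  let g : P →ₐ[C] L := MvPolynomial.aeval ((↑) : t → L)
  have hg : Function.Injective g := ht.1
  let _ : Algebra P L := g.toRingHom.toAlgebra
  have : IsScalarTower C P L := IsScalarTower.of_algebraMap_eq fun a => (g.commutes a).symm
  have : FaithfulSMul P L := (faithfulSMul_iff_algebraMap_injective P L).2 hg
  let _ : Algebra F L := FractionRing.liftAlgebra P L
  have : IsScalarTower P F L := FractionRing.isScalarTower_liftAlgebra P L
  have : IsScalarTower C F L := IsScalarTower.of_algebraMap_eq fun a => by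
    rw [IsScalarTower.algebraMap_apply C P F, ← IsScalarTower.algebraMap_apply P F L,
      ← IsScalarTower.algebraMap_apply C P L]
  have : Algebra.IsAlgebraic P L := by
    have h1 := ht.isAlgebraic
    refine Algebra.IsAlgebraic.of_ringHom_of_comp_eq ht.1.aevalEquiv.toRingEquiv (RingHom.id L)
      (EquivLike.surjective _) Function.injective_id ?_
    exact RingHom.ext fun p => ht.1.algebraMap_aevalEquiv p
  have : Algebra.IsAlgebraic F L := Algebra.IsAlgebraic.extendScalars
    (IsFractionRing.injective P F)
  have : Algebra.EssFiniteType F L := Algebra.EssFiniteType.of_comp C F L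
  have : FiniteDimensional F L := Algebra.finite_of_essFiniteType_of_isAlgebraic
  have : CharZero F := algebraRat.charZero F
  have : Algebra.FormallyEtale P F := Algebra.FormallyEtale.of_isLocalization P⁰
  have : Algebra.FormallyEtale F L := Algebra.FormallyEtale.of_isSeparable F L
  obtain ⟨e, he⟩ := ext_der (L := F) ((Algebra.linearMap P F).compDer (euler t C))
  obtain ⟨D, hD⟩ := ext_der (L := L) ((Algebra.linearMap F L).compDer e)
  refine ⟨fun x => deg (Algebra.norm F x), fun x y hx hy => ?_, ?_, D, fun N c η hη h => ?_⟩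
  · show deg (Algebra.norm F (x * y)) = _
    rw [map_mul]
    exact deg_mul (Algebra.norm_ne_zero_iff.2 hx) (Algebra.norm_ne_zero_iff.2 hy)
  · have h1 : ξ = algebraMap F L (algebraMap P F (MvPolynomial.X ⟨ξ, hξt rfl⟩)) := by
      rw [← IsScalarTower.algebraMap_apply]
      exact (MvPolynomial.aeval_X ((↑) : t → L) ⟨ξ, hξt rfl⟩).symm
    show deg (Algebra.norm F ξ) ≠ 0
    rw [h1, Algebra.norm_algebraMap, ← map_pow, deg_alg (pow_ne_zero _ (MvPolynomial.X_ne_zero _)),
      MvPolynomial.totalDegree_X_pow]
    exact_mod_cast Module.finrank_pos.ne'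
  · have h1 := congrArg (Algebra.trace F L) h
    rw [map_sum, map_zero] at h1
    have h2 : ∀ i, Algebra.trace F L (c i • (D (η i) / η i)) =
        algebraMap C F (c i) * (e (Algebra.norm F (η i)) / Algebra.norm F (η i)) := fun i => by
      rw [← algebraMap_smul F (c i), map_smul, trace_norm e D hD (hη i), smul_eq_mul]
    simp only [h2] at h1
    by_contra hne
    have h3 := w_const (ι := t) hne
    have h4 : algebraMap C F (∑ i, c i * (deg (Algebra.norm F (η i)) : C)) =
        - ∑ i, algebraMap C F (c i) * (e (Algebra.norm F (η i)) / Algebra.norm F (η i) -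
          algebraMap C F (deg (Algebra.norm F (η i)) : C)) := by
      simp only [mul_sub, Finset.sum_sub_distrib, h1, map_sum, map_mul]
      ring
    rw [h4, Valuation.map_neg] at h3
    refine absurd h3 (ne_of_lt ((w t C).map_sum_lt one_ne_zero fun i _ => ?_))
    rw [map_mul]
    by_cases hc : c i = 0
    · simp [hc]
    · rw [w_const hc, one_mul]
      exact w_res e he (Algebra.norm_ne_zero_iff.2 (hη i))

end Pool.Agent.H29.Log1
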