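import Mathlib
import Pool.Agent.H29.Log1

open scoped WithZero nonZeroDivisors

namespace Pool.Agent.H29.Log2
open Pool.Agent.H29.Log1

/-- logarithmic derivatives have bounded poles over a discrete valuation ring -/
theorem dvr_bound {C O F L : Type*} [CommRing C] [CommRing O] [IsDomain O]
    [IsDiscreteValuationRing O] [Field F] [CharZero F] [Field L] [Algebra O F] [IsFractionRing O F]
    [Algebra F L] [Algebra O L] [IsScalarTower O F L] [FiniteDimensional F L] [Algebra C L]
    (δ : Derivation C L L) {z1 : O} (hz1 : z1 ≠ 0)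
    (h1 : ∀ o : O, IsIntegral O (z1 • δ (algebraMap O L o))) :
    ∃ z : O, z ≠ 0 ∧ ∀ η : L, η ≠ 0 → IsIntegral O (z • (δ η / η)) := by
  classical
  let B := integralClosure O L
  have : IsDedekindDomain B := integralClosure.isDedekindDomain O F L
  have : Module.Finite O B := IsIntegralClosure.finite O F L B
  have : IsFractionRing B L := IsIntegralClosure.isFractionRing_of_finite_extension O F L B
  have : FaithfulSMul O B := (faithfulSMul_iff_algebraMap_injective O B).2 fun x y h => by
    have h2 : algebraMap O L x = algebraMap O L y := congrArg Subtype.val h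
    rw [IsScalarTower.algebraMap_apply O F L, IsScalarTower.algebraMap_apply O F L y] at h2
    exact IsFractionRing.injective O F ((algebraMap F L).injective h2)
  have hover : ∀ I : Ideal B, I.IsPrime → I ≠ ⊥ →
      I.comap (algebraMap O B) = IsLocalRing.maximalIdeal O := by
    intro I hI h0
    have : I.IsMaximal := hI.isMaximal h0
    exact IsLocalRing.eq_maximalIdeal (Ideal.isMaximal_comap_of_isIntegral_of_isMaximal I)
  have : IsPrincipalIdealRing B := by
    apply IsPrincipalIdealRing.of_finite_primes
    refine ((IsDedekindDomain.primesOver_finite (IsLocalRing.maximalIdeal O) B).insert ⊥).subset ?_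
    intro I hI
    by_cases h0 : I = ⊥
    · exact Or.inl h0
    · exact Or.inr ⟨hI, ⟨(hover I hI h0).symm⟩⟩
  obtain ⟨S, hS⟩ := Module.Finite.fg_top (R := O) (M := B)
  obtain ⟨z2, hz2, h2⟩ := exists_integral_multiples O F (S.image fun β : B => δ β)
  have hB : ∀ b : B, IsIntegral O ((z1 * z2) • δ b) := by
    intro b
    have hb : b ∈ Submodule.span O (S : Set B) := hS ▸ Submodule.mem_top
    induction hb using Submodule.span_induction with
    | mem x hx =>
      rw [mul_smul]
      exact (h2 _ (Finset.mem_image_of_mem _ hx)).smul z1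
    | zero => simpa using isIntegral_zero
    | add x y _ _ hx hy => simpa using hx.add hy
    | smul o x _ hx =>
      have : ((z1 * z2) • δ ((o • x : B) : L)) =
          o • ((z1 * z2) • δ x) + (x : L) * (z2 • (z1 • δ (algebraMap O L o))) := by
        rw [Subalgebra.coe_smul, Algebra.smul_def o, Derivation.leibniz]
        simp only [Algebra.smul_def, map_mul, Algebra.algebraMap_self, RingHom.id_apply]
        ring
      rw [this]
      exact (hx.smul o).add (x.2.mul ((h1 o).smul z2))
  obtain ⟨ϖ, hϖ⟩ := IsDiscreteValuationRing.exists_irreducible O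
  have hB2 : ∀ b : B, b ≠ 0 → IsIntegral O ((ϖ * (z1 * z2)) • (δ b / b)) := by
    intro b
    induction b using UniqueFactorizationMonoid.induction_on_prime with
    | h₁ => exact fun h => absurd rfl h
    | h₂ u hu =>
      intro hu0
      obtain ⟨u', hu'⟩ := hu.exists_right_inv
      have hu'' : (u : L) * u' = 1 := congrArg Subtype.val hu'
      have : (ϖ * (z1 * z2)) • (δ u / u) = ϖ • (((z1 * z2) • δ u) * u') := by
        rw [eq_inv_of_mul_eq_one_right hu'', mul_smul, smul_mul_assoc, div_eq_mul_inv]
      rw [this]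
      exact ((hB u).mul u'.2).smul ϖ
    | h₃ a p ha hp ih =>
      intro _
      have ha' : (a : L) ≠ 0 := fun h => ha (Subtype.ext h)
      have hp' : (p : L) ≠ 0 := fun h => hp.ne_zero (Subtype.ext h)
      rw [Subalgebra.coe_mul, log_mul δ hp' ha', smul_add]
      refine IsIntegral.add ?_ (ih ha)
      have hm : ϖ ∈ (Ideal.span {p}).comap (algebraMap O B) := by
        rw [hover _ ((Ideal.span_singleton_prime hp.ne_zero).2 hp)
          (by simpa using hp.ne_zero)]
        exact hϖ.not_isUnit
      obtain ⟨q, hq⟩ := Ideal.mem_span_singleton.1 (Ideal.mem_comap.1 hm)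
      have hq' : algebraMap O L ϖ = p * q := congrArg Subtype.val hq
      have : (ϖ * (z1 * z2)) • (δ p / p) = ((z1 * z2) • δ p) * q := by
        rw [mul_smul, Algebra.smul_def ϖ, hq', Algebra.smul_def, Algebra.smul_def]
        field_simp
      rw [this]
      exact (hB p).mul q.2
  refine ⟨ϖ * (z1 * z2), mul_ne_zero hϖ.ne_zero (mul_ne_zero hz1 hz2), fun η hη => ?_⟩
  obtain ⟨a, b, hb, rfl⟩ := IsFractionRing.div_surjective (A := B) η
  have hb0 : b ≠ 0 := nonZeroDivisors.ne_zero hb
  have ha0 : a ≠ 0 := by rintro rfl; simp at hη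
  have ha' : algebraMap B L a ≠ 0 := fun h => ha0 (Subtype.ext h)
  have hb' : algebraMap B L b ≠ 0 := fun h => hb0 (Subtype.ext h)
  rw [log_div δ ha' hb', smul_sub]
  exact (hB2 a ha0).sub (hB2 b hb0)

open MvPolynomial in
theorem der_poly {ι C L : Type*} [Fintype ι] [Field C] [Field L] [Algebra C L]
    [Algebra (MvPolynomial ι C) L] [IsScalarTower C (MvPolynomial ι C) L]
    (δ : Derivation C L L) (p : MvPolynomial ι C) :
    δ (algebraMap _ L p) =
      ∑ k, algebraMap _ L (pderiv k p) * δ (algebraMap (MvPolynomial ι C) L (X k)) := by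
  classical
  induction p using MvPolynomial.induction_on with
  | C a =>
    rw [← algebraMap_eq, ← IsScalarTower.algebraMap_apply, Derivation.map_algebraMap]
    simp
  | add p q hp hq => simp only [map_add, hp, hq, add_mul, Finset.sum_add_distrib]
  | mul_X p i hp =>
    simp only [map_mul, Derivation.leibniz, hp, smul_eq_mul, map_add, add_mul,
      Finset.sum_add_distrib, Finset.mul_sum, pderiv_X]
    congr 1
    · rw [Finset.sum_eq_single i]
      · simp
      · intro k _ hk
        simp [Pi.single_eq_of_ne hk.symm]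
      · simp
    · exact Finset.sum_congr rfl fun k _ => by ring

open MvPolynomial in
theorem dv_pderiv {ι C : Type*} [Field C] (k : ι) (p : MvPolynomial ι C) :
    dv ι C (pderiv k p) ≤ dv ι C p := by
  by_cases h : pderiv k p = 0
  · simp [h]
  have hp : p ≠ 0 := by rintro rfl; simp at h
  rw [dv_of_ne h, dv_of_ne hp, WithZero.exp_le_exp, Nat.cast_le, totalDegree]
  refine Finset.sup_le fun m hm => ?_
  rw [mem_support_iff, coeff_pderiv] at hm
  refine le_trans ?_ (le_totalDegree (mem_support_iff.2 (left_ne_zero_of_mul hm)))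
  rw [Finsupp.sum_add_index' (fun _ => rfl) (fun _ _ _ => rfl)]
  exact Nat.le_add_right _ _

open MvPolynomial in
theorem bounded {ι C L : Type*} [Fintype ι] [Field C] [CharZero C] [Field L] [Algebra C L]
    [Algebra (MvPolynomial ι C) L] [IsScalarTower C (MvPolynomial ι C) L]
    [Algebra (FractionRing (MvPolynomial ι C)) L]
    [IsScalarTower (MvPolynomial ι C) (FractionRing (MvPolynomial ι C)) L]
    [FiniteDimensional (FractionRing (MvPolynomial ι C)) L] (δ : Derivation C L L) :
    ∃ V : Submodule C L, Module.Finite C V ∧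
      ∀ η : L, η ≠ 0 → IsIntegral (MvPolynomial ι C) (δ η / η) → δ η / η ∈ V := by
  classical
  let P := MvPolynomial ι C
  let F := FractionRing P
  have : CharZero F := algebraRat.charZero F
  have : IsScalarTower C F L := IsScalarTower.of_algebraMap_eq fun a => by
    rw [IsScalarTower.algebraMap_apply C P F, ← IsScalarTower.algebraMap_apply P F L,
      ← IsScalarTower.algebraMap_apply C P L]
  obtain ⟨s, b, hb⟩ := FiniteDimensional.exists_is_basis_integral P F L
  have hd : ∃ d0 : ℕ, ∀ η : L, η ≠ 0 → ∀ j, ∀ p : P,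
      algebraMap P F p = Algebra.trace F L (b j * (δ η / η)) → p.totalDegree ≤ d0 := by
    rcases isEmpty_or_nonempty ι with hι | ⟨⟨i0⟩⟩
    · exact ⟨0, fun _ _ _ p _ => by rw [eq_C_of_isEmpty p, totalDegree_C]⟩
    have : (w ι C).IsNontrivial := ⟨⟨algebraMap P F (X i0), by
      rw [w_alg]; exact dv_ne (X_ne_zero _), by
      rw [w_alg, dv_of_ne (X_ne_zero _), totalDegree_X]; simp⟩⟩
    let O := (w ι C).valuationSubring
    have : IsDiscreteValuationRing O := inferInstance
    have hOL : ∀ o : O, algebraMap O L o = algebraMap F L o := fun o => rfl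
    obtain ⟨z1, hz1, h1⟩ := exists_integral_multiples O F
      (Finset.univ.image fun k : ι => δ (algebraMap P L (X k)))
    have hlogp : ∀ p : P, p ≠ 0 →
        IsIntegral O (z1 • (δ (algebraMap P L p) / algebraMap P L p)) := by
      intro p hp
      rw [der_poly, Finset.sum_div, Finset.smul_sum]
      refine IsIntegral.sum _ fun k _ => ?_
      have hmem : algebraMap P F (pderiv k p) / algebraMap P F p ∈ O := by
        rw [Valuation.mem_valuationSubring_iff, map_div₀, w_alg, w_alg,
          div_le_one₀ (zero_lt_iff.2 (dv_ne hp))]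
        exact dv_pderiv k p
      have := (h1 _ (Finset.mem_image_of_mem _ (Finset.mem_univ k))).smul (⟨_, hmem⟩ : O)
      have e : (⟨_, hmem⟩ : O) • z1 • δ (algebraMap P L (X k)) =
          z1 • (algebraMap P L (pderiv k p) * δ (algebraMap P L (X k)) / algebraMap P L p) := by
        simp only [Algebra.smul_def, hOL, map_div₀, ← IsScalarTower.algebraMap_apply]
        ring
      rwa [e] at this
    obtain ⟨z, hz, hzη⟩ := dvr_bound (O := O) (F := F) δ hz1 fun o => by
      by_cases ho : o = 0
      · simpa [ho] using isIntegral_zero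
      have ho' : (o : F) ≠ 0 := fun h => ho (Subtype.ext h)
      obtain ⟨p, q, hq, hpq⟩ := IsFractionRing.div_surjective (A := P) (o : F)
      have hq0 : q ≠ 0 := nonZeroDivisors.ne_zero hq
      have hp0 : p ≠ 0 := by rintro rfl; simp [ho'.symm] at hpq
      have hinj : ∀ r : P, r ≠ 0 → algebraMap P L r ≠ 0 := fun r hr => by
        rw [IsScalarTower.algebraMap_apply P F L]
        simpa using hr
      have hL : algebraMap O L o = algebraMap P L p / algebraMap P L q := by
        rw [hOL, ← hpq, map_div₀, ← IsScalarTower.algebraMap_apply,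
          ← IsScalarTower.algebraMap_apply]
      have h2 := log_div δ (hinj p hp0) (hinj q hq0)
      rw [← hL, div_eq_iff (by rw [hL]; exact div_ne_zero (hinj p hp0) (hinj q hq0))] at h2
      rw [h2, ← smul_mul_assoc, smul_sub]
      exact ((hlogp p hp0).sub (hlogp q hq0)).mul isIntegral_algebraMap
    obtain ⟨z', hz', hb'⟩ := exists_integral_multiples O F (Finset.univ.image fun j => b j)
    have hzz : w ι C ((z' * z : O) : F) ≠ 0 :=
      (w ι C).ne_zero_iff.2 fun h => mul_ne_zero hz' hz (Subtype.ext h)
    refine ⟨(- WithZero.log (w ι C ((z' * z : O) : F))).toNat, fun η hη j p hp => ?_⟩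
    by_cases hp0 : p = 0
    · simp [hp0]
    have h3 := Algebra.isIntegral_trace (L := F)
      ((hb' _ (Finset.mem_image_of_mem _ (Finset.mem_univ j))).mul (hzη η hη))
    rw [smul_mul_smul_comm, ← algebraMap_smul F (z' * z), map_smul, ← hp] at h3
    obtain ⟨y, hy⟩ := IsIntegrallyClosed.algebraMap_eq_of_integral h3
    have h4 : w ι C (y : F) ≤ 1 := y.2
    have h5 : (y : F) = ((z' * z : O) : F) * algebraMap P F p := hy
    rw [h5, map_mul, w_alg, dv_of_ne hp0, ← WithZero.exp_log hzz, ← WithZero.exp_add,
      ← WithZero.exp_zero, WithZero.exp_le_exp] at h4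
    rw [← Nat.cast_le (α := ℤ)]
    exact le_trans (by linarith) (Int.self_le_toNat _)
  obtain ⟨d0, hd0⟩ := hd
  let U : Submodule C F := (restrictTotalDegree ι C d0).map (IsScalarTower.toAlgHom C P F).toLinearMap
  let Φ : L →ₗ[C] (s → F) := LinearMap.pi fun j =>
    ((Algebra.trace F L).comp (LinearMap.mulLeft F (b j))).restrictScalars C
  have hΦ : ∀ x j, Φ x j = Algebra.trace F L (b j * x) := fun _ _ => rfl
  have hinj : Function.Injective Φ := by
    rw [injective_iff_map_eq_zero]
    intro x hx
    apply (traceForm_nondegenerate F L).2 x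
    intro y
    have : (Algebra.trace F L).comp (LinearMap.mulRight F x) = 0 :=
      b.ext fun j => congrFun hx j
    exact LinearMap.congr_fun this y
  have hU : (Submodule.pi Set.univ fun _ : s => U).FG :=
    Submodule.fg_pi fun _ => (Module.Finite.iff_fg.1 inferInstance).map _
  refine ⟨(Submodule.pi Set.univ fun _ : s => U).comap Φ, ?_, fun η hη hint j _ => ?_⟩
  · rw [Module.Finite.iff_fg]
    apply Submodule.fg_of_fg_map_injective Φ hinj
    have := Module.Finite.iff_fg.2 hU
    exact Module.Finite.iff_fg.1 (Submodule.finiteDimensional_of_le (Submodule.map_comap_le _ _))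
  · obtain ⟨p, hp⟩ := IsIntegrallyClosed.algebraMap_eq_of_integral
      (Algebra.isIntegral_trace (L := F) ((hb j).mul hint))
    exact ⟨p, (mem_restrictTotalDegree _ _ _).2 (hd0 η hη j p hp), hp⟩

end Pool.Agent.H29.Log2
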