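import Mathlib
import Pool.Agent.H29.Log2

open scoped nonZeroDivisors

namespace Pool.Agent.H29.Log3
open Pool.Agent.H29.Log1 Pool.Agent.H29.Log2

section Abstract
variable {C L : Type*} [Field C] [Field L] [Algebra C L]

theorem indep_of_invariant (δ : Derivation C L L) (hC : ∀ x, δ x = 0 → ∃ c, algebraMap C L c = x)
    {ι : Type*} (ω : ι → Module.Dual L (Derivation C L L))
    (hinv : ∀ i D, δ (ω i D) = ω i ⁅δ, D⁆) (hli : LinearIndependent C ω) :
    LinearIndependent L ω := by
  classical
  rw [linearIndependent_iff']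
  intro s
  induction s using Finset.induction_on with
  | empty => intro _ _ i hi; simp at hi
  | insert j s hj ih =>
    intro a ha
    have haj : a j = 0 := by
      by_contra haj
      have hb : ∑ i ∈ insert j s, (a i / a j) • ω i = 0 := by
        have := congrArg (fun x => (a j)⁻¹ • x) ha
        simpa only [Finset.smul_sum, smul_smul, smul_zero, div_eq_inv_mul] using this
      have hd : ∑ i ∈ insert j s, δ (a i / a j) • ω i = 0 := by
        ext D
        have h1 := congrArg δ (LinearMap.congr_fun hb D)
        have h2 := LinearMap.congr_fun hb ⁅δ, D⁆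
        simp only [LinearMap.coe_sum, Finset.sum_apply, LinearMap.smul_apply, smul_eq_mul,
          LinearMap.zero_apply, map_sum, map_zero, Derivation.leibniz, hinv,
          Finset.sum_add_distrib] at h1 h2 ⊢
        rw [h2, zero_add] at h1
        simpa only [mul_comm] using h1
      rw [Finset.sum_insert hj, div_self haj, Derivation.map_one_eq_zero, zero_smul, zero_add] at hd
      have h0 : ∀ i ∈ insert j s, δ (a i / a j) = 0 := by
        intro i hi
        rcases Finset.mem_insert.1 hi with rfl | hi
        · rw [div_self haj, Derivation.map_one_eq_zero]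
        · exact ih _ hd i hi
      choose! c hc using fun i hi => hC _ (h0 i hi)
      have h3 : ∑ i ∈ insert j s, c i • ω i = 0 := by
        rw [← hb]
        exact Finset.sum_congr rfl fun i hi => by rw [← hc i hi, algebraMap_smul]
      have h4 := linearIndependent_iff'.1 hli _ c h3 j (Finset.mem_insert_self _ _)
      have h5 := hc j (Finset.mem_insert_self _ _)
      rw [h4, map_zero, div_self haj] at h5
      exact zero_ne_one h5
    rw [Finset.sum_insert hj, haj, zero_smul, zero_add] at ha
    intro i hi
    rcases Finset.mem_insert.1 hi with rfl | hi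
    · exact haj
    · exact ih a ha i hi

/-- the logarithmic form -/
def lf (η : L) : Module.Dual L (Derivation C L L) where
  toFun D := D η / η
  map_add' a b := by simp [add_div]
  map_smul' a b := by simp [mul_div_assoc]

theorem lie_log (δ D : Derivation C L L) {η : L} (hη : η ≠ 0) :
    δ (D η / η) = ⁅δ, D⁆ η / η + D (δ η / η) := by
  rw [Derivation.commutator_apply, Derivation.leibniz_div, Derivation.leibniz_div]
  simp only [smul_eq_mul]
  field_simp
  ring

theorem rank_bound (δ : Derivation C L L) (hC : ∀ x, δ x = 0 → ∃ c, algebraMap C L c = x)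
    [Module.Finite L (Derivation C L L)] (V : Submodule C L) [Module.Finite C V] :
    ∃ N : ℕ, ∀ η : Fin N → L, (∀ i, η i ≠ 0) → (∀ i, δ (η i) / η i ∈ V) →
      ∃ c : Fin N → C, c ≠ 0 ∧ ∀ D : Derivation C L L, ∑ i, c i • (D (η i) / η i) = 0 := by
  refine ⟨Module.finrank C V + Module.finrank L (Module.Dual L (Derivation C L L)) + 1,
    fun η hη hV => ?_⟩
  let Φ := Fintype.linearCombination C fun i => (⟨_, hV i⟩ : V)
  let Ψ := Fintype.linearCombination C fun i => (lf (η i) : Module.Dual L (Derivation C L L))
  have hΨ : ∀ c D, Ψ c D = ∑ i, c i • (D (η i) / η i) := fun c D => by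
    simp [Ψ, Fintype.linearCombination_apply, lf]
  by_contra hno
  push Not at hno
  have hinj : LinearMap.ker (Ψ.comp (LinearMap.ker Φ).subtype) = ⊥ := by
    rw [LinearMap.ker_eq_bot']
    intro c hc
    by_contra hc0
    obtain ⟨D, hD⟩ := hno c.1 fun h => hc0 (Subtype.ext h)
    exact hD (by rw [← hΨ]; exact LinearMap.congr_fun hc D)
  let u := Module.finBasis C (LinearMap.ker Φ)
  have hli := indep_of_invariant δ hC _ (fun i D => by
    have h1 : ∑ k, (u i).1 k • (δ (η k) / η k) = 0 := by
      have h0 : Φ (u i).1 = 0 := LinearMap.mem_ker.1 (u i).2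
      rw [Fintype.linearCombination_apply] at h0
      have := congrArg V.subtype h0
      rw [map_sum, map_zero] at this
      exact this
    have h2 := congrArg D h1
    show δ (Ψ (u i).1 D) = Ψ (u i).1 ⁅δ, D⁆
    rw [hΨ, hΨ]
    simp only [map_sum, map_zero, Derivation.map_smul] at h2 ⊢
    simp only [lie_log δ D (hη _), smul_add, Finset.sum_add_distrib, h2, add_zero])
    (u.linearIndependent.map' _ hinj)
  have h1 := hli.fintype_card_le_finrank
  have h2 := Φ.finrank_range_add_finrank_ker
  have h3 := Submodule.finrank_le (LinearMap.range Φ)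
  simp only [Fintype.card_fin, Module.finrank_fin_fun] at h1 h2
  omega

theorem alg_const [CharZero C] (δ : Derivation C L L) {x : L} (hx : IsAlgebraic C x) : δ x = 0 := by
  have h1 := δ.map_aeval (minpoly C x) x
  rw [minpoly.aeval, map_zero] at h1
  have h2 := (minpoly.irreducible hx.isIntegral).separable.aeval_derivative_ne_zero
    (minpoly.aeval C x)
  exact (smul_eq_zero.1 h1.symm).resolve_left h2

theorem fg_logs [CharZero C] [Algebra.EssFiniteType C L] (δ : Derivation C L L)
    (hC : ∀ x, δ x = 0 → ∃ c, algebraMap C L c = x)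
    [Module.Finite L (Derivation C L L)] (V : Submodule C L) [Module.Finite C V] :
    ∃ G : Submodule ℤ L, G.FG ∧ ∀ η : L, η ≠ 0 → δ η / η ∈ V → δ η / η ∈ G := by
  classical
  let good : L × (L → ℤ) → Prop := fun p => p.1 ≠ 0 ∧ δ p.1 / p.1 ∈ V ∧
    (∀ x y, x ≠ 0 → y ≠ 0 → p.2 (x * y) = p.2 x + p.2 y) ∧ p.2 p.1 ≠ 0 ∧
      ∃ D : Derivation C L L, ∀ (N : ℕ) (c : Fin N → C) (η : Fin N → L), (∀ i, η i ≠ 0) →
        ∑ i, c i • (D (η i) / η i) = 0 → ∑ i, c i * (p.2 (η i) : C) = 0
  have hs : ∃ s : Finset (L × (L → ℤ)), (∀ p ∈ s, good p) ∧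
      ∀ η : L, η ≠ 0 → δ η / η ∈ V → (∀ p ∈ s, p.2 η = 0) → δ η = 0 := by
    by_contra hno
    push Not at hno
    obtain ⟨f, hf, hr⟩ := exists_seq_of_forall_finset_exists good (fun p q => p.2 q.1 = 0)
      fun s hs => by
        obtain ⟨η, h1, h2, h3, h4⟩ := hno s hs
        obtain ⟨v, hv⟩ := residue (C := C) (ξ := η) fun h => h4 (alg_const δ h)
        exact ⟨(η, v), ⟨h1, h2, hv⟩, h3⟩
    obtain ⟨N, hN⟩ := rank_bound δ hC V
    obtain ⟨c, hc, hD⟩ := hN (fun i => (f i).1) (fun i => (hf i).1) fun i => (hf i).2.1
    obtain ⟨i, hi, hmin⟩ := WellFounded.has_min (wellFounded_lt (α := Fin N)) {i | c i ≠ 0}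
      (Function.ne_iff.1 hc)
    obtain ⟨D, hD'⟩ := (hf i).2.2.2.2
    have h1 := hD' N c _ (fun i => (hf i).1) (hD D)
    rw [Finset.sum_eq_single i] at h1
    · exact mul_ne_zero hi (Int.cast_ne_zero.2 (hf i).2.2.2.1) h1
    · intro j _ hj
      rcases lt_or_gt_of_ne hj with h | h
      · have : c j = 0 := by by_contra h0; exact hmin j h0 h
        rw [this, zero_mul]
      · rw [hr i j h]; simp
    · simp
  obtain ⟨s, hgood, hs⟩ := hs
  let ψ0 : Additive Lˣ →+ L := AddMonoidHom.mk' (fun u => δ (u.toMul : Lˣ) / (u.toMul : Lˣ))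
    fun a b => by simpa using log_mul δ a.toMul.ne_zero b.toMul.ne_zero
  let φ0 : Additive Lˣ →+ (s → ℤ) := AddMonoidHom.mk' (fun u p => p.1.2 (u.toMul : Lˣ))
    fun a b => by
      ext p
      simpa using (hgood p p.2).2.2.1 _ _ a.toMul.ne_zero b.toMul.ne_zero
  let Γ : Submodule ℤ (Additive Lˣ) := (V.restrictScalars ℤ).comap ψ0.toIntLinearMap
  let ψ := ψ0.toIntLinearMap.comp Γ.subtype
  let φ := φ0.toIntLinearMap.comp Γ.subtype
  have hker : LinearMap.ker φ ≤ LinearMap.ker ψ := by
    intro u hu
    have := hs _ u.1.toMul.ne_zero u.2 fun p hp => congrFun (LinearMap.mem_ker.1 hu) ⟨p, hp⟩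
    show δ (u.1.toMul : Lˣ) / (u.1.toMul : Lˣ) = 0
    rw [this, zero_div]
  have hfin : Module.Finite ℤ (Γ ⧸ LinearMap.ker φ) :=
    Module.Finite.equiv φ.quotKerEquivRange.symm
  refine ⟨LinearMap.range ψ, ?_, fun η hη hV => ⟨⟨Additive.ofMul (Units.mk0 η hη), hV⟩, rfl⟩⟩
  rw [← Submodule.range_liftQ _ ψ hker]
  exact Module.Finite.iff_fg.1 inferInstance

end Abstract

theorem main (K R : Type) [Field K] [CharZero K] [CommRing R] [IsDomain R] [Algebra K R]
    [Algebra.FiniteType K R] (δ : Derivation K R R) :
    (AddSubgroup.closure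
      {r : R | ∃ a b : R, a ≠ 0 ∧ b ≠ 0 ∧ δ a * b - a * δ b = r * a * b}).FG := by
  classical
  let L := FractionRing R
  have : Algebra.FormallyEtale R L := Algebra.FormallyEtale.of_isLocalization R⁰
  obtain ⟨δL, hδL⟩ := ext_der (L := L) ((Algebra.linearMap R L).compDer δ)
  let C : IntermediateField K L :=
    { carrier := {x | δL x = 0}
      mul_mem' := fun {a b} (ha : δL a = 0) (hb : δL b = 0) => by
        show δL (a * b) = 0
        simp [ha, hb]
      one_mem' := δL.map_one_eq_zero
      add_mem' := fun {a b} (ha : δL a = 0) (hb : δL b = 0) => by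
        show δL (a + b) = 0
        simp [ha, hb]
      zero_mem' := map_zero δL
      algebraMap_mem' := fun k => δL.map_algebraMap k
      inv_mem' := fun a (ha : δL a = 0) => by
        show δL a⁻¹ = 0
        simp [Derivation.leibniz_inv, ha] }
  let δC : Derivation C L L := Derivation.mk'
    { toFun := δL
      map_add' := map_add δL
      map_smul' := fun c x => by
        have hc : δL (c : L) = 0 := c.2
        show δL ((c : L) * x) = (c : L) * δL x
        simp [hc] } δL.leibniz
  have hδC : ∀ x, δC x = δL x := fun _ => rfl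
  have : CharZero C := algebraRat.charZero C
  have : Algebra.EssFiniteType R L := Algebra.EssFiniteType.of_isLocalization L R⁰
  have : Algebra.EssFiniteType K L := Algebra.EssFiniteType.comp K R L
  have : Algebra.EssFiniteType C L := Algebra.EssFiniteType.of_comp K C L
  obtain ⟨S, hS⟩ := Algebra.FiniteType.out (R := K) (A := R)
  let A : Subalgebra C L := Algebra.adjoin C (S.image (algebraMap R L) : Set L)
  have hRA : ∀ r : R, algebraMap R L r ∈ A := by
    intro r
    have hr : r ∈ Algebra.adjoin K (S : Set R) := hS ▸ Algebra.mem_top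
    induction hr using Algebra.adjoin_induction with
    | mem x hx => exact Algebra.subset_adjoin (Finset.mem_coe.2 (Finset.mem_image_of_mem _ hx))
    | algebraMap k =>
      rw [← IsScalarTower.algebraMap_apply, IsScalarTower.algebraMap_apply K C L]
      exact A.algebraMap_mem _
    | add x y _ _ hx hy => rw [map_add]; exact A.add_mem hx hy
    | mul x y _ _ hx hy => rw [map_mul]; exact A.mul_mem hx hy
  have : Algebra.FiniteType C A := (Subalgebra.fg_iff_finiteType _).1 ⟨_, rfl⟩
  obtain ⟨n, g, hg, hgf⟩ := exists_finite_inj_algHom_of_fg C A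
  let P := MvPolynomial (Fin n) C
  let F := FractionRing P
  let _ : Algebra P A := g.toRingHom.toAlgebra
  have : Module.Finite P A := hgf
  let _ : Algebra P L := (A.val.comp g).toRingHom.toAlgebra
  have : IsScalarTower P A L := IsScalarTower.of_algebraMap_eq fun _ => rfl
  have : IsScalarTower C P L :=
    IsScalarTower.of_algebraMap_eq fun a => ((A.val.comp g).commutes a).symm
  have : FaithfulSMul P L :=
    (faithfulSMul_iff_algebraMap_injective P L).2 (Subtype.val_injective.comp hg)
  let _ : Algebra F L := FractionRing.liftAlgebra P L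
  have : IsScalarTower P F L := FractionRing.isScalarTower_liftAlgebra P L
  have : IsScalarTower C F L := IsScalarTower.of_algebraMap_eq fun a => by
    rw [IsScalarTower.algebraMap_apply C P F, ← IsScalarTower.algebraMap_apply P F L,
      ← IsScalarTower.algebraMap_apply C P L]
  have hint : ∀ r : R, IsIntegral P (algebraMap R L r) := fun r =>
    (Algebra.IsIntegral.isIntegral (R := P) (⟨_, hRA r⟩ : A)).algebraMap (B := L)
  have : Algebra.IsAlgebraic F L := ⟨fun x => by
    obtain ⟨a, b, -, rfl⟩ := IsFractionRing.div_surjective (A := R) x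
    rw [isAlgebraic_iff_isIntegral, div_eq_mul_inv]
    exact (hint a).tower_top.mul (hint b).tower_top.inv⟩
  have : Algebra.EssFiniteType F L := Algebra.EssFiniteType.of_comp C F L
  have : FiniteDimensional F L := Algebra.finite_of_essFiniteType_of_isAlgebraic
  have : CharZero F := algebraRat.charZero F
  have : Algebra.FormallyEtale P F := Algebra.FormallyEtale.of_isLocalization P⁰
  have : Algebra.FormallyEtale F L := Algebra.FormallyEtale.of_isSeparable F L
  have : Algebra.FormallyEtale P L := Algebra.FormallyEtale.comp P F L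
  have : Module.Finite L (Derivation C L L) := by
    let ev : Derivation C L L →ₗ[L] (Fin n → L) :=
      { toFun := fun D k => D (algebraMap P L (MvPolynomial.X k))
        map_add' := fun _ _ => rfl
        map_smul' := fun _ _ => rfl }
    refine Module.Finite.of_injective ev fun D1 D2 h => uniq_der (A := P) D1 D2 fun p => ?_
    rw [der_poly, der_poly]
    exact Finset.sum_congr rfl fun k _ => congrArg _ (congrFun h k)
  obtain ⟨V, hV, hVm⟩ := bounded (ι := Fin n) δC
  obtain ⟨G, hG, hGm⟩ := fg_logs δC (fun x hx => ⟨⟨x, hx⟩, rfl⟩) V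
  have hinj : Function.Injective (algebraMap R L) := IsFractionRing.injective R L
  rw [← AddSubgroup.toIntSubmodule_toAddSubgroup (AddSubgroup.closure _),
    ← Submodule.fg_iff_addSubgroup_fg]
  apply Submodule.fg_of_fg_map_injective (algebraMap R L).toAddMonoidHom.toIntLinearMap hinj
  have := Module.Finite.iff_fg.2 hG
  refine Submodule.FG.of_le hG ?_
  rw [Submodule.map_le_iff_le_comap]
  intro r hr
  refine (AddSubgroup.closure_le
    (G.comap (algebraMap R L).toAddMonoidHom.toIntLinearMap).toAddSubgroup).2 ?_ hr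
  rintro r ⟨a, b, ha, hb, hr⟩
  have ha' : algebraMap R L a ≠ 0 := by simpa using ha
  have hb' : algebraMap R L b ≠ 0 := by simpa using hb
  have h1 : δC (algebraMap R L a / algebraMap R L b) / (algebraMap R L a / algebraMap R L b) =
      algebraMap R L r := by
    rw [log_div δC ha' hb', hδC, hδC, hδL, hδL]
    have := congrArg (algebraMap R L) hr
    simp only [map_sub, map_mul] at this
    show algebraMap R L (δ a) / _ - algebraMap R L (δ b) / _ = _
    rw [div_sub_div _ _ ha' hb', div_eq_iff (mul_ne_zero ha' hb')]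
    linear_combination this
  have h2 := hGm _ (div_ne_zero ha' hb') (hVm _ (div_ne_zero ha' hb') (by rw [h1]; exact hint r))
  rw [h1] at h2
  exact h2

end Pool.Agent.H29.Log3
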