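import Mathlib

set_option autoImplicit false

open Set Topology Filter

namespace Pool.Agent.H29.MED

def code {S : Type} [Encodable S] (x : ℕ → S) (k : ℕ) : ℕ :=
  Nat.pair k (Encodable.encode ((List.range k).map x))

lemma le_code {S : Type} [Encodable S] (x : ℕ → S) (k : ℕ) : k ≤ code x k := Nat.left_le_pair _ _

lemma code_congr {S : Type} [Encodable S] {x y : ℕ → S} {k : ℕ} (h : ∀ i < k, x i = y i) :
    code x k = code y k := by
  unfold code
  congr 2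
  apply List.map_congr_left
  intro i hi
  exact h i (List.mem_range.mp hi)

lemma code_inj {S : Type} [Encodable S] {x y : ℕ → S} {k l : ℕ} (h : code x k = code y l) :
    k = l ∧ ∀ i < k, x i = y i := by
  unfold code at h
  obtain ⟨h1, h2⟩ := Nat.pair_eq_pair.mp h
  subst h1
  refine ⟨rfl, fun i hi => ?_⟩
  have h3 := Encodable.encode_injective h2
  exact (List.map_inj_left.mp h3) i (List.mem_range.mpr hi)

lemma exists_seq {S : Type} (F : List S → S) :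
    ∃ x : ℕ → S, ∀ m, x m = F ((List.range m).map x) := by
  let L : ℕ → List S := fun m => Nat.rec [] (fun _ l => l ++ [F l]) m
  have hL : ∀ m, (List.range m).map (fun k => F (L k)) = L m := by
    intro m
    induction m with
    | zero => rfl
    | succ m ih => rw [List.range_succ, List.map_append, ih]; rfl
  exact ⟨fun k => F (L k), fun m => by rw [hL]⟩

abbrev B : Type := (ℕ × ℕ) × ℕ × Bool

abbrev Y : Type := ℕ → B

def tau (x : Y) (i : ℕ) : ℕ × ℕ := (x i).1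
def nn (x : Y) (i : ℕ) : ℕ := (x i).1.1
def vv (x : Y) (i : ℕ) : ℕ := (x i).1.2
def ww (x : Y) (i : ℕ) : ℕ := (x i).2.1
def sg (x : Y) (i : ℕ) : Bool := (x i).2.2

def al (x : Y) (v : ℕ) : ℕ := 2 * code x v
def be (x : Y) (n : ℕ) : ℕ := 2 * code x n + 2 + (if sg x n then 1 else 0)

lemma le_al (x : Y) (v : ℕ) : v ≤ al x v := by
  have := le_code x v; unfold al; omega

lemma lt_be (x : Y) (n : ℕ) : n < be x n := by
  have := le_code x n; unfold be; omega

lemma al_inj {x y : Y} {u v : ℕ} (h : al x u = al y v) : u = v ∧ ∀ i < u, x i = y i := by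
  apply code_inj; unfold al at h; omega

lemma be_inj {x y : Y} {u v : ℕ} (h : be x u = be y v) : u = v ∧ ∀ i < u, x i = y i := by
  apply code_inj; unfold be at h; split_ifs at h <;> omega

lemma al_congr {x y : Y} {k : ℕ} (h : ∀ i ≤ k, x i = y i) : al x k = al y k := by
  unfold al; rw [code_congr (fun i hi => h i hi.le)]

lemma be_congr {x y : Y} {k : ℕ} (h : ∀ i ≤ k, x i = y i) : be x k = be y k := by
  unfold be sg; rw [code_congr (fun i hi => h i hi.le), h k le_rfl]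

def Rel (t : ℕ → ℕ × ℕ) (i j : ℕ) : Prop :=
  i < j ∧ ∃ z : Y, be z (t i).1 = (t i).2 ∧ be z (t j).1 = (t j).2

def Err (x : Y) (k : ℕ) : Prop :=
  (∀ i ≤ k, ∀ j ≤ k, (Rel (tau x) i j → 0 < ww x i ∧ ww x i ≤ j) ∧
    (ww x i = j → 0 < j → Rel (tau x) i j)) ∧
  ∀ m ≤ k, 2 * code x m + 2 ≤ k → (sg x m = true ↔ ∃ j ≤ k, vv x j = 2 * code x m + 2)

def Act (x : Y) (i : ℕ) : Prop :=
  (∃ r, nn x i = 4 * Nat.pair (code (tau x) i) r + 1) ∧ i ≤ vv x i ∧ (∀ j < i, vv x j ≠ vv x i) ∧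
    (∀ k, be x k ≠ vv x i) ∧ ww x i = 0 ∧ Err x i

lemma Act.le_nn {x : Y} {i : ℕ} (h : Act x i) : i ≤ nn x i := by
  obtain ⟨r, hr⟩ := h.1
  have h1 := le_code (tau x) i
  have h2 := Nat.left_le_pair (code (tau x) i) r
  omega

lemma Act.nn_inj {x y : Y} {i j : ℕ} (h : Act x i) (h' : Act y j) (e : nn x i = nn y j) :
    i = j ∧ ∀ k < i, tau x k = tau y k := by
  obtain ⟨r, hr⟩ := h.1
  obtain ⟨s, hs⟩ := h'.1
  have : Nat.pair (code (tau x) i) r = Nat.pair (code (tau y) j) s := by omega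
  exact code_inj (Nat.pair_eq_pair.mp this).1

lemma Act.odd {x : Y} {i : ℕ} (h : Act x i) : nn x i % 4 = 1 := by
  obtain ⟨r, hr⟩ := h.1
  omega

def Dm (x : Y) (n : ℕ) : Prop := ∃ i, Act x i ∧ nn x i = n
def Rn (x : Y) (v : ℕ) : Prop := ∃ i, Act x i ∧ vv x i = v

def Cov (x : Y) (v : ℕ) : Prop :=
  ∃ k, be x k = v ∧ ¬ Dm x k ∧ ¬ ∃ u, ∃ _ : u < v, al x u = k ∧ ¬ Rn x u ∧ ¬ Cov x u
termination_by v
decreasing_by assumption

lemma cov_iff (x : Y) (v : ℕ) : Cov x v ↔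
    ∃ k, be x k = v ∧ ¬ Dm x k ∧ ¬ ∃ u, al x u = k ∧ ¬ Rn x u ∧ ¬ Cov x u := by
  rw [Cov]
  constructor
  · rintro ⟨k, h1, h2, h3⟩
    refine ⟨k, h1, h2, fun ⟨u, hu⟩ => h3 ⟨u, ?_, hu⟩⟩
    have := le_al x u
    have := lt_be x k
    omega
  · rintro ⟨k, h1, h2, h3⟩
    exact ⟨k, h1, h2, fun ⟨u, _, hu⟩ => h3 ⟨u, hu⟩⟩

def Ed (x : Y) (n v : ℕ) : Prop :=
  (∃ i, Act x i ∧ nn x i = n ∧ vv x i = v) ∨ (al x v = n ∧ ¬ Rn x v ∧ ¬ Cov x v) ∨
    (be x n = v ∧ ¬ Dm x n ∧ ¬ ∃ u, al x u = n ∧ ¬ Rn x u ∧ ¬ Cov x u)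

lemma ed_total (x : Y) (n : ℕ) : ∃ v, Ed x n v := by
  by_cases h1 : Dm x n
  · obtain ⟨i, hi, e⟩ := h1
    exact ⟨_, Or.inl ⟨i, hi, e, rfl⟩⟩
  by_cases h2 : ∃ u, al x u = n ∧ ¬ Rn x u ∧ ¬ Cov x u
  · obtain ⟨u, hu⟩ := h2
    exact ⟨u, Or.inr (Or.inl hu)⟩
  exact ⟨_, Or.inr (Or.inr ⟨rfl, h1, h2⟩)⟩

lemma ed_surj (x : Y) (v : ℕ) : ∃ n, Ed x n v := by
  by_cases h1 : Rn x v
  · obtain ⟨i, hi, e⟩ := h1
    exact ⟨_, Or.inl ⟨i, hi, rfl, e⟩⟩
  by_cases h2 : Cov x v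
  · obtain ⟨k, hk⟩ := (cov_iff x v).mp h2
    exact ⟨k, Or.inr (Or.inr hk)⟩
  exact ⟨_, Or.inr (Or.inl ⟨rfl, h1, h2⟩)⟩

lemma ed_fun {x : Y} {n u v : ℕ} (h : Ed x n u) (h' : Ed x n v) : u = v := by
  rcases h with ⟨i, hi, e1, e2⟩ | h | h <;> rcases h' with ⟨j, hj, f1, f2⟩ | h' | h'
  · have := (hi.nn_inj hj (e1.trans f1.symm)).1
    subst this; exact e2.symm.trans f2
  · have := hi.odd; have := h'.1; unfold al at this; omega
  · exact absurd ⟨i, hi, e1⟩ h'.2.1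
  · have := hj.odd; have := h.1; unfold al at this; omega
  · exact (al_inj (h.1.trans h'.1.symm)).1
  · exact absurd ⟨u, h⟩ h'.2.2
  · exact absurd ⟨j, hj, f1⟩ h.2.1
  · exact absurd ⟨v, h'⟩ h.2.2
  · exact h.1.symm.trans h'.1

lemma ed_inj {x : Y} {m n v : ℕ} (h : Ed x m v) (h' : Ed x n v) : m = n := by
  rcases h with ⟨i, hi, e1, e2⟩ | h | h <;> rcases h' with ⟨j, hj, f1, f2⟩ | h' | h'
  · have : i = j := by
      rcases lt_trichotomy i j with l | l | l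
      · exact absurd (e2.trans f2.symm) (hj.2.2.1 i l)
      · exact l
      · exact absurd (f2.trans e2.symm) (hi.2.2.1 j l)
    subst this; exact e1.symm.trans f1
  · exact absurd ⟨i, hi, e2⟩ h'.2.1
  · exact absurd (h'.1.trans e2.symm) (hi.2.2.2.1 n)
  · exact absurd ⟨j, hj, f2⟩ h.2.1
  · exact h.1.symm.trans h'.1
  · exact absurd ((cov_iff x v).mpr ⟨n, h'⟩) h.2.2
  · exact absurd (h.1.trans f2.symm) (hj.2.2.2.1 m)
  · exact absurd ((cov_iff x v).mpr ⟨m, h⟩) h'.2.2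
  · exact (be_inj (h.1.trans h'.1.symm)).1

noncomputable def ee (x : Y) (n : ℕ) : ℕ := (ed_total x n).choose

lemma ee_ed (x : Y) (n : ℕ) : Ed x n (ee x n) := (ed_total x n).choose_spec

lemma ee_eq {x : Y} {n v : ℕ} (h : Ed x n v) : ee x n = v := ed_fun (ee_ed x n) h

lemma ee_bij (x : Y) : Function.Bijective (ee x) := by
  constructor
  · intro m n h
    exact ed_inj (ee_ed x m) (h ▸ ee_ed x n)
  · intro v
    obtain ⟨n, hn⟩ := ed_surj x v
    exact ⟨n, ee_eq hn⟩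

lemma ee_odd {x : Y} {n : ℕ} (h : n % 2 = 1) (h' : ¬ Dm x n) : ee x n = be x n := by
  apply ee_eq
  refine Or.inr (Or.inr ⟨rfl, h', ?_⟩)
  rintro ⟨u, hu, _⟩
  unfold al at hu; omega

/-! ### Locality -/

lemma act_congr {x y : Y} {N i : ℕ} (h : ∀ k ≤ N, x k = y k) (hi : i ≤ N) (hv : vv x i ≤ N)
    (ha : Act x i) : Act y i := by
  have hn : ∀ k ≤ i, nn y k = nn x k := fun k hk => by unfold nn; rw [h k (hk.trans hi)]
  have hvv : ∀ k ≤ i, vv y k = vv x k := fun k hk => by unfold vv; rw [h k (hk.trans hi)]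
  have hw : ∀ k ≤ i, ww y k = ww x k := fun k hk => by unfold ww; rw [h k (hk.trans hi)]
  have hs : ∀ k ≤ i, sg y k = sg x k := fun k hk => by unfold sg; rw [h k (hk.trans hi)]
  have ht : ∀ k ≤ i, tau y k = tau x k := fun k hk => by unfold tau; rw [h k (hk.trans hi)]
  have hc : ∀ k ≤ i, code y k = code x k := fun k hk =>
    code_congr (fun l hl => (h l (by omega)).symm)
  have hR : ∀ a ≤ i, ∀ b ≤ i, Rel (tau y) a b ↔ Rel (tau x) a b := fun a ha b hb => by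
    unfold Rel; rw [ht a ha, ht b hb]
  obtain ⟨⟨r, h1⟩, h2, h3, h4, h5, h6, h7⟩ := ha
  refine ⟨⟨r, ?_⟩, ?_, ?_, ?_, ?_, ?_, ?_⟩
  · rw [hn i le_rfl, h1, code_congr (fun l hl => ht l hl.le)]
  · rw [hvv i le_rfl]; exact h2
  · intro j hj; rw [hvv i le_rfl, hvv j hj.le]; exact h3 j hj
  · intro k hk
    rw [hvv i le_rfl] at hk
    have := lt_be y k
    apply h4 k
    rw [← hk]
    exact be_congr (fun l hl => h l (by omega))
  · rw [hw i le_rfl]; exact h5
  · intro a ha b hb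
    rw [hR a ha b hb, hw a ha]
    exact h6 a ha b hb
  · intro m hm
    rw [hc m hm, hs m hm]
    intro hle
    rw [h7 m hm hle]
    constructor
    · rintro ⟨j, hj, e⟩; exact ⟨j, hj, by rw [hvv j hj]; exact e⟩
    · rintro ⟨j, hj, e⟩; exact ⟨j, hj, by rw [← hvv j hj]; exact e⟩

def Ag (x y : Y) (M : ℕ) : Prop :=
  ∃ N, M ≤ N ∧ (∀ k ≤ N, x k = y k) ∧ ∀ i ≤ M, vv x i ≤ N

lemma Ag.symm {x y : Y} {M : ℕ} (h : Ag x y M) : Ag y x M := by
  obtain ⟨N, h1, h2, h3⟩ := h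
  refine ⟨N, h1, fun k hk => (h2 k hk).symm, fun i hi => ?_⟩
  have := h3 i hi
  unfold vv at *
  rwa [← h2 i (hi.trans h1)]

lemma Ag.eq {x y : Y} {M : ℕ} (h : Ag x y M) : ∀ k ≤ M, x k = y k := by
  obtain ⟨N, h1, h2, _⟩ := h
  exact fun k hk => h2 k (hk.trans h1)

lemma Ag.act {x y : Y} {M i : ℕ} (h : Ag x y M) (hi : i ≤ M) (ha : Act x i) : Act y i := by
  obtain ⟨N, h1, h2, h3⟩ := h
  exact act_congr h2 (hi.trans h1) (h3 i hi) ha

lemma Ag.dm {x y : Y} {M n : ℕ} (h : Ag x y M) (hn : n ≤ M) (ha : Dm x n) : Dm y n := by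
  obtain ⟨i, hi, e⟩ := ha
  have := hi.le_nn
  refine ⟨i, h.act (by omega) hi, ?_⟩
  rw [← e]; unfold nn; rw [h.eq i (by omega)]

lemma Ag.rn {x y : Y} {M n : ℕ} (h : Ag x y M) (hn : n ≤ M) (ha : Rn x n) : Rn y n := by
  obtain ⟨i, hi, e⟩ := ha
  have := hi.2.1
  refine ⟨i, h.act (by omega) hi, ?_⟩
  rw [← e]; unfold vv; rw [h.eq i (by omega)]

lemma Ag.cov {M : ℕ} (v : ℕ) : ∀ {x y : Y}, Ag x y M → v ≤ M → Cov x v → Cov y v := by
  induction v using Nat.strong_induction_on with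
  | _ v ih =>
    intro x y h hv hc
    rw [cov_iff] at hc ⊢
    obtain ⟨k, h1, h2, h3⟩ := hc
    have hk := lt_be x k
    refine ⟨k, ?_, fun hd => h2 (h.symm.dm (by omega) hd), ?_⟩
    · rw [← h1]; exact be_congr (fun l hl => (h.eq l (by omega)).symm)
    · rintro ⟨u, e1, e2, e3⟩
      have hu := le_al y u
      refine h3 ⟨u, ?_, fun hr => e2 (h.rn (by omega) hr), fun hc => e3 (ih u (by omega) h (by omega) hc)⟩
      rw [← e1]; exact al_congr (fun l hl => h.eq l (by omega))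

lemma Ag.ed {x y : Y} {M n v : ℕ} (h : Ag x y M) (hn : n ≤ M) (hv : v ≤ M) (he : Ed x n v) :
    Ed y n v := by
  rcases he with ⟨i, hi, e1, e2⟩ | ⟨h1, h2, h3⟩ | ⟨h1, h2, h3⟩
  · have := hi.le_nn
    refine Or.inl ⟨i, h.act (by omega) hi, ?_, ?_⟩
    · rw [← e1]; unfold nn; rw [h.eq i (by omega)]
    · rw [← e2]; unfold vv; rw [h.eq i (by omega)]
  · refine Or.inr (Or.inl ⟨?_, fun hr => h2 (h.symm.rn hv hr), fun hc => h3 (Ag.cov v h.symm hv hc)⟩)
    rw [← h1]; exact al_congr (fun l hl => (h.eq l (by omega)).symm)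
  · refine Or.inr (Or.inr ⟨?_, fun hd => h2 (h.symm.dm hn hd), ?_⟩)
    · rw [← h1]; exact be_congr (fun l hl => (h.eq l (by omega)).symm)
    · rintro ⟨u, e1, e2, e3⟩
      have hu := le_al y u
      refine h3 ⟨u, ?_, fun hr => e2 (h.rn (by omega) hr), fun hc => e3 (Ag.cov u h (by omega) hc)⟩
      rw [← e1]; exact al_congr (fun l hl => h.eq l (by omega))

lemma ee_cont : Continuous ee := by
  apply continuous_pi
  intro n
  rw [continuous_iff_continuousAt]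
  intro x
  apply ContinuousAt.congr (f := fun _ => ee x n) continuousAt_const
  let M := n + ee x n
  let N := M + (Finset.range (M + 1)).sup (vv x)
  have h1 : ∀ᶠ y in 𝓝 x, ∀ k ∈ Finset.range (N + 1), x k = y k := by
    rw [Filter.eventually_all_finset]
    intro k _
    have : IsOpen {y : Y | y k ∈ ({x k} : Set B)} :=
      (isOpen_discrete _).preimage (continuous_apply k)
    filter_upwards [this.mem_nhds (show x k ∈ ({x k} : Set B) from rfl)] with y hy using hy.symm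
  filter_upwards [h1] with y hy
  have hA : Ag x y M := by
    refine ⟨N, by omega, fun k hk => hy k (Finset.mem_range.mpr (by omega)), fun i hi => ?_⟩
    have : vv x i ≤ (Finset.range (M + 1)).sup (vv x) :=
      Finset.le_sup (f := vv x) (Finset.mem_range.mpr (by omega))
    omega
  exact (ee_eq (hA.ed (by omega) (by omega) (ee_ed x n))).symm

lemma ee_closed : IsClosed (range ee) := by
  classical
  let φ : ℕ → ℕ → B := fun k v => if h : ∃ z : Y, be z (4 * k + 3) = v then h.choose k else default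
  have hφ : ∀ x k, φ k (ee x (4 * k + 3)) = x k := by
    intro x k
    have h1 : ee x (4 * k + 3) = be x (4 * k + 3) := by
      apply ee_odd (by omega)
      rintro ⟨i, hi, e⟩
      have := hi.odd; omega
    have h2 : ∃ z : Y, be z (4 * k + 3) = ee x (4 * k + 3) := ⟨x, h1.symm⟩
    simp only [φ, dif_pos h2]
    exact (be_inj (h2.choose_spec.trans h1)).2 k (by omega)
  have hc : Continuous (fun (h : ℕ → ℕ) (k : ℕ) => φ k (h (4 * k + 3))) :=
    continuous_pi (fun k => (continuous_of_discreteTopology (f := φ k)).comp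
      (continuous_apply (4 * k + 3)))
  exact Function.LeftInverse.isClosed_range (f := fun (h : ℕ → ℕ) (k : ℕ) => φ k (h (4 * k + 3)))
    (fun x => funext (hφ x)) hc ee_cont

end Pool.Agent.H29.MED
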