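import Pool.Agent.H29.MED1

set_option autoImplicit false

open Set Topology Filter

namespace Pool.Agent.H29.MED

lemma fin_phi_be (x y : Y) : {n | ∃ i, Act x i ∧ nn x i = n ∧ vv x i = be y n}.Finite := by
  apply Set.Subsingleton.finite
  have key : ∀ i j, Act x i → Act x j → vv x i = be y (nn x i) → vv x j = be y (nn x j) →
      ¬ i < j := by
    intro i j hi hj ei ej hij
    have hR : Rel (tau x) i j := ⟨hij, y, ei.symm, ej.symm⟩
    have := ((hj.2.2.2.2.2.1 i hij.le j le_rfl).1 hR).1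
    have := hi.2.2.2.2.1
    omega
  rintro m ⟨i, hi, rfl, e2⟩ n ⟨j, hj, rfl, f2⟩
  have : i = j := by
    have := key i j hi hj e2 f2
    have := key j i hj hi f2 e2
    omega
  rw [this]

lemma eq_of_act {x y : Y} (h : ∀ N, ∃ i, N ≤ i ∧ Act x i ∧ Act y i ∧ ∀ k < i, tau x k = tau y k) :
    x = y := by
  have ht : tau x = tau y := by
    funext k
    obtain ⟨i, h1, _, _, h2⟩ := h (k + 1)
    exact h2 k (by omega)
  have hv : vv x = vv y := by
    funext k
    exact congrArg Prod.snd (congrFun ht k)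
  have hw : ∀ k, ww x k = ww y k := by
    intro k
    obtain ⟨i, h1, hx, hy, _⟩ := h (k + ww x k + ww y k)
    have ex := hx.2.2.2.2.2.1 k (by omega)
    have ey := hy.2.2.2.2.2.1 k (by omega)
    rw [← ht] at ey
    have a1 := (ex (ww x k) (by omega)).2 rfl
    have a2 := (ey (ww x k) (by omega)).1
    have b1 := (ey (ww y k) (by omega)).2 rfl
    have b2 := (ex (ww y k) (by omega)).1
    by_cases c1 : 0 < ww x k
    · have := a2 (a1 c1)
      have := b2 (b1 this.1)
      omega
    · by_cases c2 : 0 < ww y k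
      · exact absurd (b2 (b1 c2)).1 c1
      · omega
  funext m
  induction m using Nat.strong_induction_on with
  | _ m ih =>
    have hc : code x m = code y m := code_congr ih
    obtain ⟨i, h1, hx, hy, _⟩ := h (m + (2 * code x m + 2))
    have ex := hx.2.2.2.2.2.2 m (by omega) (by omega)
    have ey := hy.2.2.2.2.2.2 m (by omega) (by omega)
    rw [← hc, ← hv, ← ex] at ey
    have hs : sg x m = sg y m := by
      cases hxx : sg x m <;> cases hyy : sg y m <;> simp_all
    exact Prod.ext (congrFun ht m) (Prod.ext (hw m) hs)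

lemma fin_phi_phi {x y : Y} (hne : x ≠ y) :
    {n | ∃ i j, Act x i ∧ Act y j ∧ nn x i = n ∧ nn y j = n}.Finite := by
  by_contra hinf
  apply hne
  apply eq_of_act
  intro N
  by_contra hcon
  push Not at hcon
  apply hinf
  refine ((finite_Iio N).image (nn x)).subset ?_
  rintro n ⟨i, j, hi, hj, e1, e2⟩
  obtain ⟨rfl, h2⟩ := hi.nn_inj hj (e1.trans e2.symm)
  refine ⟨i, ?_, e1⟩
  by_contra hlt
  obtain ⟨k, hk, hk'⟩ := hcon i (by simpa using hlt) hi hj
  exact hk' (h2 k hk)

lemma ee_ed_diff {x y : Y} (hne : x ≠ y) : {n | ee x n = ee y n}.Finite := by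
  obtain ⟨k0, hk0⟩ := Function.ne_iff.mp hne
  refine (((((fin_phi_phi hne).union (fin_phi_be x y)).union (fin_phi_be y x)).union
    ((finite_Iic k0).image (al x))).union (finite_Iic k0)).subset ?_
  intro n hn
  have h1 := ee_ed x n
  have h2 := ee_ed y n
  rw [← (show ee x n = ee y n from hn)] at h2
  generalize ee x n = v at h1 h2
  simp only [mem_union, mem_ofPred_eq, mem_image, mem_Iic]
  rcases h1 with ⟨i, hi, e1, e2⟩ | h | h <;> rcases h2 with ⟨j, hj, f1, f2⟩ | h' | h'
  · exact Or.inl (Or.inl (Or.inl (Or.inl ⟨i, j, hi, hj, e1, f1⟩)))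
  · have := hi.odd; have := h'.1; unfold al at this; omega
  · exact Or.inl (Or.inl (Or.inl (Or.inr ⟨i, hi, e1, e2.trans h'.1.symm⟩)))
  · have := hj.odd; have := h.1; unfold al at this; omega
  · refine Or.inl (Or.inr ⟨v, ?_, h.1⟩)
    by_contra hlt
    exact hk0 ((al_inj (h.1.trans h'.1.symm)).2 k0 (by omega))
  · have := le_al x v; have := lt_be y n; have := h.1; have := h'.1; omega
  · exact Or.inl (Or.inl (Or.inr ⟨j, hj, f1, f2.trans h.1.symm⟩))
  · have := le_al y v; have := lt_be x n; have := h.1; have := h'.1; omega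
  · refine Or.inr ?_
    by_contra hlt
    exact hk0 ((be_inj (h.1.trans h'.1.symm)).2 k0 (by omega))

lemma exists_tau (g : ℕ → ℕ) (hg : Function.Injective g) : ∃ t : ℕ → ℕ × ℕ, ∀ i,
    (∃ r, (t i).1 = 4 * Nat.pair (code t i) r + 1) ∧ (t i).2 = g (t i).1 ∧ i ≤ (t i).2 ∧
      ∀ j < i, (t j).1 < (t i).1 ∧ (t j).2 + 2 ≤ (t i).2 := by
  have step : ∀ l : List (ℕ × ℕ), ∃ p : ℕ × ℕ,
      (∃ r, p.1 = 4 * Nat.pair (Nat.pair l.length (Encodable.encode l)) r + 1) ∧ p.2 = g p.1 ∧
        l.length ≤ p.2 ∧ ∀ q ∈ l, q.1 < p.1 ∧ q.2 + 2 ≤ p.2 := by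
    intro l
    let c := Nat.pair l.length (Encodable.encode l)
    let K := l.length + (l.map Prod.snd).sum + 2
    have hinj : Function.Injective (fun r => g (4 * Nat.pair c r + 1)) := by
      intro r s h
      have h1 := hg h
      have : Nat.pair c r = Nat.pair c s := by omega
      exact (Nat.pair_eq_pair.mp this).2
    have hfin : ((fun r => g (4 * Nat.pair c r + 1)) ⁻¹' Iio K ∪ Iio (l.map Prod.fst).sum).Finite :=
      ((finite_Iio K).preimage hinj.injOn).union (finite_Iio _)
    obtain ⟨r, hr⟩ := hfin.exists_notMem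
    simp only [mem_union, mem_preimage, mem_Iio, not_or, not_lt] at hr
    refine ⟨(4 * Nat.pair c r + 1, g (4 * Nat.pair c r + 1)), ⟨r, rfl⟩, rfl, ?_, ?_⟩
    · have := hr.1; simp only [K] at this ⊢; omega
    · intro q hq
      have a1 : q.1 ≤ (l.map Prod.fst).sum := List.le_sum_of_mem (List.mem_map_of_mem hq)
      have a2 : q.2 ≤ (l.map Prod.snd).sum := List.le_sum_of_mem (List.mem_map_of_mem hq)
      have a3 := Nat.right_le_pair c r
      have := hr.1; have := hr.2
      simp only [K] at *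
      omega
  choose F hF using step
  obtain ⟨t, ht⟩ := exists_seq F
  refine ⟨t, fun i => ?_⟩
  obtain ⟨h1, h2, h3, h4⟩ := hF ((List.range i).map t)
  rw [← ht i] at h1 h2 h3 h4
  simp only [List.length_map, List.length_range] at h1 h3
  exact ⟨h1, h2, h3, fun j hj => h4 _ (List.mem_map_of_mem (List.mem_range.mpr hj))⟩

lemma exists_x (t : ℕ → ℕ × ℕ) : ∃ x : Y, tau x = t ∧
    (∀ i j, (Rel t i j → 0 < ww x i ∧ ww x i ≤ j) ∧ (ww x i = j → 0 < j → Rel t i j)) ∧
    ∀ m, (sg x m = true ↔ ∃ j, (t j).2 = 2 * code x m + 2) := by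
  classical
  let w : ℕ → ℕ := fun i => if h : ∃ j, Rel t i j then Nat.find h else 0
  obtain ⟨x, hx⟩ := exists_seq (S := B) (fun l => (t l.length, w l.length,
    decide (∃ j, (t j).2 = 2 * Nat.pair l.length (Encodable.encode l) + 2)))
  simp only [List.length_map, List.length_range] at hx
  refine ⟨x, ?_, ?_, ?_⟩
  · funext i; unfold tau; rw [hx]
  · intro i j
    have hw : ww x i = w i := by unfold ww; rw [hx]
    rw [hw]
    constructor
    · intro h
      have he : ∃ j, Rel t i j := ⟨j, h⟩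
      simp only [w, dif_pos he]
      exact ⟨lt_of_le_of_lt (Nat.zero_le i) (Nat.find_spec he).1, Nat.find_min' he h⟩
    · intro h h0
      by_cases he : ∃ j, Rel t i j
      · simp only [w, dif_pos he] at h
        rw [← h]; exact Nat.find_spec he
      · simp only [w, dif_neg he] at h
        omega
  · intro m
    unfold sg code
    rw [hx m]
    simp

lemma chain {t : ℕ → ℕ × ℕ} (hmono : ∀ i j, i < j → (t i).1 < (t j).1) (N : ℕ)
    (h : ∀ i, N ≤ i → ∃ j, Rel t i j) :
    ∃ (z : Y) (c : ℕ → ℕ), StrictMono c ∧ ∀ m, be z (t (c m)).1 = (t (c m)).2 := by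
  choose! f hf using h
  let c : ℕ → ℕ := fun m => f^[m] N
  have hc : ∀ m, c (m + 1) = f (c m) := fun m => Function.iterate_succ_apply' f m N
  have hN : ∀ m, N ≤ c m := by
    intro m
    induction m with
    | zero => exact le_rfl
    | succ m ih => rw [hc]; exact ih.trans (hf _ ih).1.le
  have hR : ∀ m, Rel t (c m) (c (m + 1)) := fun m => by rw [hc]; exact hf _ (hN m)
  have hs : StrictMono c := strictMono_nat_of_lt_succ (fun m => (hR m).1)
  have hs2 : StrictMono (fun m => (t (c m)).1) := fun a b hab => hmono _ _ (hs hab)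
  choose z hz using fun m => (hR m).2
  have hag : ∀ m m', m ≤ m' → ∀ k < (t (c (m + 1))).1, z m k = z m' k := by
    intro m m' hm
    induction hm with
    | refl => intro k _; rfl
    | @step m' hm ih =>
      intro k hk
      rw [ih k hk]
      refine (be_inj ((hz m').2.trans (hz (m' + 1)).1.symm)).2 k (lt_of_lt_of_le hk ?_)
      exact hs2.monotone (Nat.succ_le_succ hm)
  refine ⟨fun k => z k k, c, hs, fun m => ?_⟩
  rw [← (hz m).1]
  apply be_congr
  intro k hk
  have h1 : (t (c m)).1 < (t (c (m + 1))).1 := hs2 (Nat.lt_succ_self m)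
  rcases le_total m k with l | l
  · exact (hag m k l k (by omega)).symm
  · have : k + 1 ≤ (t (c (k + 1))).1 := hs2.le_apply
    exact hag k m l k (by omega)

lemma maximal (g : ℕ → ℕ) (hg : Function.Injective g) : ∃ x, {n | ee x n = g n}.Infinite := by
  obtain ⟨t, ht⟩ := exists_tau g hg
  have hmono : ∀ i j, i < j → (t i).1 < (t j).1 := fun i j h => ((ht j).2.2.2 i h).1
  have hsm : StrictMono (fun i => (t i).1) := fun i j h => hmono i j h
  obtain ⟨x, hx1, hx2, hx3⟩ := exists_x t
  have hn : ∀ i, nn x i = (t i).1 := fun i => by rw [← hx1]; rfl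
  have hv : ∀ i, vv x i = (t i).2 := fun i => by rw [← hx1]; rfl
  have hact : ∀ i, ww x i = 0 → Act x i := by
    intro i hi
    refine ⟨?_, ?_, ?_, ?_, hi, ?_, ?_⟩
    · rw [hn, hx1]; exact (ht i).1
    · rw [hv]; exact (ht i).2.2.1
    · intro j hj
      have := ((ht i).2.2.2 j hj).2
      rw [hv, hv]; omega
    · intro k hk
      rw [hv] at hk
      unfold be at hk
      by_cases hs : sg x k = true
      · obtain ⟨j, hj⟩ := (hx3 k).mp hs
        rw [if_pos hs] at hk
        rcases lt_trichotomy i j with l | l | l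
        · have := ((ht j).2.2.2 i l).2; omega
        · subst l; omega
        · have := ((ht i).2.2.2 j l).2; omega
      · rw [if_neg hs] at hk
        exact hs ((hx3 k).mpr ⟨i, by omega⟩)
    · intro a _ b _
      rw [hx1]; exact hx2 a b
    · intro m _ hm
      rw [hx3]
      constructor
      · rintro ⟨j, hj⟩
        have := (ht j).2.2.1
        exact ⟨j, by omega, by rw [hv]; exact hj⟩
      · rintro ⟨j, _, hj⟩
        exact ⟨j, by rw [← hv]; exact hj⟩
  by_cases hinf : {i | ww x i = 0}.Infinite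
  · refine ⟨x, (hinf.image hsm.injective.injOn).mono ?_⟩
    rintro _ ⟨i, hi, rfl⟩
    have := ee_eq (Or.inl ⟨i, hact i hi, hn i, hv i⟩ : Ed x (t i).1 (t i).2)
    simp only [mem_ofPred_eq]
    rw [this, (ht i).2.1]
  · rw [not_infinite] at hinf
    obtain ⟨N, hN⟩ := hinf.bddAbove
    obtain ⟨z, c, hc, hz⟩ := chain hmono (N + 1) (fun i hi => ⟨ww x i, (hx2 i _).2 rfl (by
      by_contra h0
      have := hN (show i ∈ {i | ww x i = 0} by simpa using h0)
      omega)⟩)
    refine ⟨z, ?_⟩
    have hsc : Function.Injective (fun m => (t (c m)).1) := (hsm.comp hc).injective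
    by_cases hD : {m | Dm z (t (c m)).1}.Infinite
    · have hcode : ∀ m, Dm z (t (c m)).1 → Act z (c m) ∧ ∀ k < c m, tau z k = t k := by
        rintro m ⟨i, hi, e⟩
        obtain ⟨r, hr⟩ := hi.1
        obtain ⟨s, hs⟩ := (ht (c m)).1
        have : Nat.pair (code (tau z) i) r = Nat.pair (code t (c m)) s := by omega
        obtain ⟨rfl, h2⟩ := code_inj (Nat.pair_eq_pair.mp this).1
        exact ⟨hi, h2⟩
      have htz : ∀ k, tau z k = t k := by
        intro k
        obtain ⟨m, hm, hkm⟩ := hD.exists_gt k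
        exact (hcode m hm).2 k (lt_of_lt_of_le hkm hc.le_apply)
      refine (hD.image hsc.injOn).mono ?_
      rintro _ ⟨m, hm, rfl⟩
      have := ee_eq (Or.inl ⟨c m, (hcode m hm).1, congrArg Prod.fst (htz _),
        congrArg Prod.snd (htz _)⟩ : Ed z (t (c m)).1 (t (c m)).2)
      simp only [mem_ofPred_eq]
      rw [this, (ht _).2.1]
    · rw [not_infinite] at hD
      refine (hD.infinite_compl.image hsc.injOn).mono ?_
      rintro _ ⟨m, hm, rfl⟩
      obtain ⟨s, hs⟩ := (ht (c m)).1
      simp only [mem_ofPred_eq]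
      rw [ee_odd (by omega) hm, hz, (ht _).2.1]

theorem main : ∃ F : Set (ℕ → ℕ), IsClosed F ∧ (∀ f ∈ F, Function.Bijective f) ∧
    (∀ f ∈ F, ∀ g ∈ F, f ≠ g → {n | f n = g n}.Finite) ∧
    ∀ g : ℕ → ℕ, Function.Bijective g → ∃ f ∈ F, {n | f n = g n}.Infinite := by
  refine ⟨range ee, ee_closed, ?_, ?_, ?_⟩
  · rintro _ ⟨x, rfl⟩; exact ee_bij x
  · rintro _ ⟨x, rfl⟩ _ ⟨y, rfl⟩ h
    exact ee_ed_diff (fun e => h (by rw [e]))
  · intro g hg
    obtain ⟨x, hx⟩ := maximal g hg.1
    exact ⟨_, ⟨x, rfl⟩, hx⟩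

end Pool.Agent.H29.MED
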