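import Mathlib

open Set Filter Topology MeasureTheory

namespace Pool.Agent.H29.Mack1

abbrev T : Type := AddCircle (1 : ℝ)

theorem exists_rep (t : T) : ∃ s : ℝ, (s : T) = t ∧ |s| = ‖t‖ := by
  induction t using QuotientAddGroup.induction_on with
  | H x =>
    refine ⟨x - round x, ?_, ?_⟩
    · rw [AddCircle.coe_sub, sub_eq_self, AddCircle.coe_eq_zero_iff]
      exact ⟨round x, by simp⟩
    · rw [AddCircle.norm_eq]; simp

theorem norm_coe_le (s : ℝ) : ‖(s : T)‖ ≤ |s| := by
  have := QuotientAddGroup.norm_mk_le_norm (S := AddSubgroup.zmultiples (1 : ℝ)) (m := s)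
  simpa using this

theorem norm_le_half (t : T) : ‖t‖ ≤ 1 / 2 := by
  simpa using AddCircle.norm_le_half_period (1 : ℝ) (x := t) one_ne_zero

theorem norm_double {t : T} (h : ‖t‖ < 1 / 4) : ‖t + t‖ = 2 * ‖t‖ := by
  obtain ⟨s, rfl, hs⟩ := exists_rep t
  rw [← AddCircle.coe_add, (AddCircle.norm_coe_eq_abs_iff (1 : ℝ) one_ne_zero).2, ← hs, ← two_mul,
    abs_mul, abs_two]
  rw [← two_mul, abs_mul, abs_two, abs_one, hs]
  linarith

theorem nss (k : ℕ) {t : T} (h : ∀ i ≤ k, ‖(2 ^ i : ℕ) • t‖ < 1 / 4) : ‖t‖ < (1 / 2) ^ k := by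
  have key : ∀ i ≤ k + 1, ‖(2 ^ i : ℕ) • t‖ = 2 ^ i * ‖t‖ := by
    intro i hi
    induction i with
    | zero => simp
    | succ i ih =>
      rw [pow_succ, mul_comm, mul_nsmul', two_nsmul, norm_double (h i (by omega)), ih (by omega)]
      ring
  have h1 := h k le_rfl
  rw [key k (by omega)] at h1
  have h2 : (0 : ℝ) < 2 ^ k := by positivity
  rw [one_div, inv_pow, ← one_div, lt_div_iff₀ h2]
  linarith

theorem cont_hom (θ : T →+ T) (hθ : Continuous θ) : ∃ n : ℤ, ∀ x, θ x = n • x := by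
  let f : C(T, ℂ) := ⟨fun x => (AddCircle.toCircle (θ x) : ℂ),
    continuous_induced_dom.comp (AddCircle.continuous_toCircle.comp hθ)⟩
  have hf : ∀ x, f x = (AddCircle.toCircle (θ x) : ℂ) := fun _ => rfl
  have hex : ∃ n, fourierCoeff f n ≠ 0 := by
    by_contra hno
    push Not at hno
    have h := tsum_sq_fourierCoeff (ContinuousMap.toLp (E := ℂ) 2 AddCircle.haarAddCircle ℂ f)
    simp_rw [fourierCoeff_toLp, hno] at h
    have h2 : ∫ t : T, ‖(ContinuousMap.toLp (E := ℂ) 2 AddCircle.haarAddCircle ℂ f) t‖ ^ 2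
        ∂AddCircle.haarAddCircle = ∫ _t : T, (1 : ℝ) ∂AddCircle.haarAddCircle := by
      apply integral_congr_ae
      filter_upwards [ContinuousMap.coeFn_toLp (p := 2) (𝕜 := ℂ) AddCircle.haarAddCircle f]
        with t ht
      rw [ht, hf]
      simp
    rw [h2] at h
    simp at h
  obtain ⟨n, hn⟩ := hex
  refine ⟨n, fun y => ?_⟩
  have h1 : fourierCoeff f n = (fourier (-n) y * f y) * fourierCoeff f n := by
    unfold fourierCoeff
    rw [← integral_const_mul,
      ← integral_add_left_eq_self (μ := AddCircle.haarAddCircle)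
        (fun t : T => fourier (-n) t • f t) y]
    congr 1
    ext t
    simp only [fourier_apply, hf, smul_add, map_add, AddCircle.toCircle_add, Circle.coe_mul,
      smul_eq_mul]
    ring
  have h2 : fourier (-n) y * f y = 1 := by
    have : (fourier (-n) y * f y - 1) * fourierCoeff f n = 0 := by rw [sub_mul, ← h1]; ring
    exact sub_eq_zero.1 ((mul_eq_zero.1 this).resolve_right hn)
  rw [fourier_apply, hf, ← Circle.coe_mul, ← AddCircle.toCircle_add] at h2
  have h3 : AddCircle.toCircle (-n • y + θ y) = AddCircle.toCircle (0 : T) := by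
    rw [AddCircle.toCircle_zero]
    exact Subtype.ext h2
  have h4 := AddCircle.injective_toCircle one_ne_zero h3
  rw [neg_smul, neg_add_eq_zero] at h4
  exact h4.symm

theorem graph_lemma (Γ : AddSubgroup (T × T)) (hc : IsClosed (Γ : Set (T × T)))
    (h0 : ∀ t, ((0 : T), t) ∈ Γ → t = 0) : ∃ n : ℤ, ∀ p ∈ Γ, p.2 = n • p.1 := by
  have huniq : ∀ p ∈ Γ, ∀ q ∈ Γ, p.1 = q.1 → p.2 = q.2 := by
    intro p hp q hq h
    have := Γ.sub_mem hp hq
    have h2 : p - q = (0, p.2 - q.2) := Prod.ext (by simp [h]) rfl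
    rw [h2] at this
    exact sub_eq_zero.1 (h0 _ this)
  let L : AddSubgroup T := Γ.map (AddMonoidHom.fst T T)
  by_cases hd : Dense (L : Set T)
  · have hLc : IsClosed (L : Set T) := (hc.isCompact.image continuous_fst).isClosed
    have hall : ∀ x : T, ∃ y, (x, y) ∈ Γ := by
      intro x
      have : x ∈ (L : Set T) := by rw [← hLc.closure_eq]; exact hd x
      obtain ⟨p, hp, rfl⟩ := this
      exact ⟨p.2, hp⟩
    choose g hg using hall
    let θ : T →+ T := AddMonoidHom.mk' g fun a b =>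
      huniq _ (hg (a + b)) _ (Γ.add_mem (hg a) (hg b)) rfl
    have hθ : Continuous θ := by
      rw [continuous_iff_isClosed]
      intro C hC
      have : θ ⁻¹' C = Prod.fst '' ((Γ : Set (T × T)) ∩ Prod.snd ⁻¹' C) := by
        ext x
        constructor
        · intro hx
          exact ⟨(x, g x), ⟨hg x, hx⟩, rfl⟩
        · rintro ⟨p, ⟨hp, hpC⟩, rfl⟩
          have : θ p.1 = p.2 := huniq _ (hg p.1) _ hp rfl
          show θ p.1 ∈ C
          rw [this]; exact hpC
      rw [this]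
      exact ((hc.inter (hC.preimage continuous_snd)).isCompact.image continuous_fst).isClosed
    obtain ⟨n, hn⟩ := cont_hom θ hθ
    exact ⟨n, fun p hp => by rw [← hn]; exact huniq _ hp _ (hg p.1) rfl⟩
  · rw [AddCircle.dense_addSubgroup_iff_ne_zmultiples] at hd
    push Not at hd
    obtain ⟨a, ha, hL⟩ := hd
    have haL : a ∈ L := by rw [hL]; exact AddSubgroup.mem_zmultiples a
    obtain ⟨p, hp, hpa⟩ := haL
    have hpa : p.1 = a := hpa
    have hd0 : 0 < addOrderOf a := Nat.pos_of_ne_zero ha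
    have hb : addOrderOf a • p.2 = 0 := by
      apply h0
      have := Γ.nsmul_mem hp (addOrderOf a)
      have h2 : addOrderOf a • p = (0, addOrderOf a • p.2) :=
        Prod.ext (by simp [hpa]) rfl
      rwa [h2] at this
    obtain ⟨k, -, hk⟩ := (AddCircle.nsmul_eq_zero_iff hd0).1 hb
    obtain ⟨m, -, hm, hma⟩ := (AddCircle.addOrderOf_eq_pos_iff hd0).1 rfl
    generalize addOrderOf a = d at *
    obtain ⟨u, v, huv⟩ : IsCoprime (m : ℤ) (d : ℤ) := Nat.isCoprime_iff_coprime.2 hm
    have hn : p.2 = (k * u : ℤ) • a := by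
      rw [← hk, ← hma, ← AddCircle.coe_zsmul, eq_comm, ← sub_eq_zero, ← AddCircle.coe_sub,
        AddCircle.coe_eq_zero_iff]
      refine ⟨-(k * v), ?_⟩
      have hd' : (d : ℝ) ≠ 0 := by positivity
      have huv' : (u : ℝ) * m + v * d = 1 := by exact_mod_cast huv
      simp only [zsmul_eq_mul]
      push_cast
      field_simp
      linear_combination (-(k : ℝ)) * huv'
    refine ⟨k * u, fun q hq => ?_⟩
    have hqL : q.1 ∈ L := ⟨q, hq, rfl⟩
    rw [hL] at hqL
    obtain ⟨j, hj⟩ := AddSubgroup.mem_zmultiples_iff.1 hqL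
    have := huniq _ hq _ (Γ.zsmul_mem hp j) (by simp [hpa, hj])
    rw [this, ← hj, smul_comm, ← hn]
    rfl

variable {G : Type*} [AddCommGroup G]

/-- filters that behave like the neighbourhood filter of zero of a group topology -/
structure GF (F : Filter G) : Prop where
  zero : pure 0 ≤ F
  sub : Tendsto (fun p : G × G => p.1 - p.2) (F ×ˢ F) F

theorem GF.inf {F F' : Filter G} (h : GF F) (h' : GF F') : GF (F ⊓ F') :=
  ⟨le_inf h.zero h'.zero, tendsto_inf.2
    ⟨h.sub.mono_left (prod_mono inf_le_left inf_le_left),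
     h'.sub.mono_left (prod_mono inf_le_right inf_le_right)⟩⟩

theorem GF.comap (h : G →+ T) : GF (comap h (𝓝 0)) := by
  constructor
  · rw [← tendsto_iff_comap, ← map_zero h]
    exact tendsto_pure_nhds _ _
  · rw [tendsto_comap_iff]
    have : Tendsto (fun p : G × G => h p.1 - h p.2) (Filter.comap h (𝓝 0) ×ˢ Filter.comap h (𝓝 0))
        (𝓝 (0 - 0)) :=
      (tendsto_comap.comp tendsto_fst).sub (tendsto_comap.comp tendsto_snd)
    rw [sub_zero] at this
    exact this.congr fun p => (map_sub h _ _).symm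

theorem GF.nhds [TopologicalSpace G] [IsTopologicalAddGroup G] : GF (𝓝 (0 : G)) := by
  refine ⟨pure_le_nhds 0, ?_⟩
  have : Tendsto (fun p : G × G => p.1 - p.2) (𝓝 0 ×ˢ 𝓝 0) (𝓝 (0 - 0)) :=
    tendsto_fst.sub tendsto_snd
  rwa [sub_zero] at this

theorem GF.double {F : Filter G} (h : GF F) : Tendsto (fun x => x + x) F F := by
  have hneg : Tendsto (fun x : G => 0 - x) F F :=
    h.sub.comp ((tendsto_const_pure.mono_right h.zero).prodMk tendsto_id)
  have := h.sub.comp (tendsto_id.prodMk hneg)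
  exact this.congr fun x => by simp

theorem GF.pow {F : Filter G} (h : GF F) (i : ℕ) : Tendsto (fun x => (2 ^ i : ℕ) • x) F F := by
  induction i with
  | zero => exact tendsto_id.congr fun x => by simp
  | succ i ih =>
    exact (h.double.comp ih).congr fun x => by
      simp only [Function.comp]
      rw [pow_succ, mul_comm, mul_nsmul', two_nsmul]

theorem GF.tendsto_of_quarter {F : Filter G} (h : GF F) (φ : G →+ T)
    (hφ : ∀ᶠ x in F, ‖φ x‖ < 1 / 4) : Tendsto φ F (𝓝 0) := by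
  rw [Metric.tendsto_nhds]
  intro ε hε
  obtain ⟨k, hk⟩ := exists_pow_lt_of_lt_one hε (by norm_num : (1 / 2 : ℝ) < 1)
  have : ∀ᶠ x in F, ∀ i ∈ Finset.range (k + 1), ‖φ ((2 ^ i : ℕ) • x)‖ < 1 / 4 :=
    (eventually_all_finset _).2 fun i _ => (h.pow i).eventually hφ
  filter_upwards [this] with x hx
  rw [dist_zero_right]
  refine (nss k fun i hi => ?_).trans hk
  rw [← map_nsmul]
  exact hx i (Finset.mem_range.2 (by omega))

theorem step {F : Filter G} (hF : GF F) (h φ : G →+ T)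
    (hφ : Tendsto φ (F ⊓ Filter.comap h (𝓝 0)) (𝓝 0)) :
    ∃ n : ℤ, Tendsto (φ - n • h) F (𝓝 0) := by
  let g : G →+ T × T := h.prod φ
  let Γ : AddSubgroup (T × T) := AddSubgroup.ofSub {p | MapClusterPt p F g}
    ⟨0, by
      have : Tendsto g (pure 0) (𝓝 0) := by rw [← map_zero g]; exact tendsto_pure_nhds _ _
      exact (MapClusterPt.mono this.mapClusterPt hF.zero)⟩ (by
      intro p hp q hq
      have h1 : MapClusterPt (p, q) (F ×ˢ F) (Prod.map g g) := MapClusterPt.prodMap hp hq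
      have h2 := h1.continuousAt_comp (f := fun z : (T × T) × (T × T) => z.1 + -z.2) (by fun_prop)
      refine MapClusterPt.of_comp hF.sub ?_
      convert h2 using 1
      ext1 z
      simp [sub_eq_add_neg])
  have hΓ : ∀ p, p ∈ Γ ↔ MapClusterPt p F g := fun p => Iff.rfl
  obtain ⟨n, hn⟩ := graph_lemma Γ (isClosed_setOfPred_clusterPt (f := Filter.map g F)) (by
    intro t ht
    obtain ⟨U, hU, hg⟩ := mapClusterPt_iff_ultrafilter.1 ((hΓ _).1 ht)
    have h1 : Tendsto h U (𝓝 0) := (continuous_fst.tendsto _).comp hg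
    have h2 : Tendsto φ U (𝓝 t) := (continuous_snd.tendsto _).comp hg
    have h3 : Tendsto φ U (𝓝 0) := hφ.mono_left (le_inf hU (tendsto_iff_comap.1 h1))
    exact tendsto_nhds_unique h2 h3)
  refine ⟨n, ?_⟩
  rw [tendsto_iff_ultrafilter]
  intro U hU
  obtain ⟨p, -, hp⟩ := isCompact_univ.ultrafilter_le_nhds (U.map g) (by simp)
  have hg : Tendsto g U (𝓝 p) := hp
  have hpΓ : p ∈ Γ := (hΓ p).2 (mapClusterPt_iff_ultrafilter.2 ⟨U, hU, hg⟩)
  have h1 : Tendsto h U (𝓝 p.1) := (continuous_fst.tendsto _).comp hg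
  have h2 : Tendsto φ U (𝓝 p.2) := (continuous_snd.tendsto _).comp hg
  have h3 := h2.sub (h1.const_smul n)
  rw [hn p hpΓ, sub_self] at h3
  exact h3

theorem step_finset {F : Filter G} (hF : GF F) (H : AddSubgroup (G →+ T))
    (s : Finset (G →+ T)) (hs : ∀ h ∈ s, h ∈ H) (φ : G →+ T)
    (hφ : Tendsto φ (F ⊓ ⨅ h ∈ s, Filter.comap h (𝓝 0)) (𝓝 0)) :
    ∃ h ∈ H, Tendsto (φ - h) F (𝓝 0) := by
  classical
  induction s using Finset.induction_on generalizing φ F with
  | empty => exact ⟨0, H.zero_mem, by simpa using hφ⟩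
  | insert a s ha ih =>
    rw [Finset.iInf_insert, ← inf_assoc] at hφ
    obtain ⟨h, hh, h1⟩ := ih (hF.inf (GF.comap a)) (fun h hh => hs h (Finset.mem_insert_of_mem hh))
      φ hφ
    obtain ⟨n, hn⟩ := step hF a (φ - h) h1
    refine ⟨h + n • a, H.add_mem hh (H.zsmul_mem (hs a (Finset.mem_insert_self _ _)) n), ?_⟩
    rwa [← sub_sub]

theorem GF.iInf_finset (s : Finset (G →+ T)) : GF (⨅ h ∈ s, Filter.comap h (𝓝 0)) := by
  classical
  induction s using Finset.induction_on with
  | empty => exact ⟨by simp, by simp⟩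
  | insert a s ha ih => rw [Finset.iInf_insert]; exact (GF.comap a).inf ih

theorem step_all {F : Filter G} (hF : GF F) (H : AddSubgroup (G →+ T)) (φ : G →+ T)
    (hφ : Tendsto φ (F ⊓ ⨅ h : H, Filter.comap (h : G →+ T) (𝓝 0)) (𝓝 0)) :
    ∃ h ∈ H, Tendsto (φ - h) F (𝓝 0) := by
  classical
  have h1 : ∀ᶠ x in F ⊓ ⨅ h : H, Filter.comap (h : G →+ T) (𝓝 0), ‖φ x‖ < 1 / 4 := by
    have := Metric.tendsto_nhds.1 hφ (1 / 4) (by norm_num)
    simpa only [dist_zero_right] using this
  obtain ⟨U, hU, V, hV, hUV⟩ := mem_inf_iff.1 h1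
  rw [mem_iInf_finite] at hV
  obtain ⟨t, ht⟩ := hV
  refine step_finset hF H (t.image Subtype.val) (fun h hh => ?_) φ ?_
  · obtain ⟨x, -, rfl⟩ := Finset.mem_image.1 hh
    exact x.2
  · apply (hF.inf (GF.iInf_finset _)).tendsto_of_quarter
    rw [Finset.iInf_finset_image]
    change {x | ‖φ x‖ < 1 / 4} ∈ _
    rw [hUV]
    exact inter_mem_inf hU ht

/-- characters with a prescribed value -/
theorem ext1 {Q D : Type*} [AddCommGroup Q] [AddCommGroup D] [DivisibleBy D ℤ] (x : Q) (t : D)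
    (h : ∀ n : ℤ, n • x = 0 → n • t = 0) : ∃ κ : Q →+ D, κ x = t := by
  let f : ℤ →+ Q := zmultiplesHom Q x
  let g : ℤ →+ D := zmultiplesHom D t
  have hle : f.ker ≤ g.ker := fun n hn => h n hn
  obtain ⟨κ, hκ⟩ := (Module.Baer.of_divisible D).extension_property_addMonoidHom
    (QuotientAddGroup.kerLift f) (QuotientAddGroup.kerLift_injective f)
    (QuotientAddGroup.lift f.ker g hle)
  refine ⟨κ, ?_⟩
  have := DFunLike.congr_fun hκ (QuotientAddGroup.mk 1)
  simpa [f, g] using this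

end Pool.Agent.H29.Mack1
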