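import Mathlib
import Pool.Agent.H29.MackZ

open Set Filter Topology

namespace Pool.Agent.H29.Mack3
open Pool.Agent.H29.Mack1 Pool.Agent.H29.MackZ

/-- `χ` is a character of `(ℤ, τ)`. -/
def IsChar (τ : TopologicalSpace ℤ) (χ : ℤ →+ AddCircle (1 : ℝ)) : Prop :=
  @Continuous _ _ τ _ χ

/-- Quasi-convex subsets of `(ℤ, τ)`; `‖t‖ ≤ 1 / 4` describes `𝕋₊`. -/
def QC (τ : TopologicalSpace ℤ) (A : Set ℤ) : Prop :=
  ∀ x ∉ A, ∃ χ, IsChar τ χ ∧ (∀ a ∈ A, ‖χ a‖ ≤ 1 / 4) ∧ ¬ ‖χ x‖ ≤ 1 / 4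

/-- Locally quasi-convex topologies. -/
def LQC (τ : TopologicalSpace ℤ) : Prop :=
  ∀ U ∈ @nhds ℤ τ 0, ∃ A ∈ @nhds ℤ τ 0, A ⊆ U ∧ QC τ A

/-- Precompact topologies. -/
def Precompact (τ : TopologicalSpace ℤ) : Prop :=
  ∀ U ∈ @nhds ℤ τ 0, ∃ F : Finset ℤ, ∀ x, ∃ f ∈ F, ∃ u ∈ U, x = f + u

theorem hom_eq (χ : ℤ →+ T) (m : ℤ) : χ m = m • χ 1 := by rw [← map_zsmul]; simp

theorem isChar_iff {τ : TopologicalSpace ℤ} (h : @IsTopologicalAddGroup ℤ τ _) (χ : ℤ →+ T) :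
    IsChar τ χ ↔ Ch (@nhds ℤ τ 0) (χ 1) := by
  have e : (fun m : ℤ => m • χ 1) = χ := funext fun m => (hom_eq χ m).symm
  unfold IsChar Ch
  rw [e]
  exact ⟨fun h => by simpa using @Continuous.tendsto _ _ τ _ _ h 0,
    fun h' => by let _ := τ; exact continuous_of_tendsto_nhds_zero χ h'⟩

theorem semi {F : Filter ℤ} (hF : GF F) (U : ℕ → Set ℤ) (hU : ∀ i, U i ∈ F) :
    ∃ p : ℤ → ℝ, SN F p ∧ p 0 = 0 ∧
      ∀ i m (x : T), (∀ a ∈ U i, ‖a • x‖ ≤ 1 / 4) → (1 / 2) ^ i * ‖m • x‖ ≤ p m := by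
  let I := {z : ℕ × T // ∀ a ∈ U z.1, ‖a • z.2‖ ≤ 1 / 4}
  have : Nonempty I := ⟨⟨(0, 0), by simp⟩⟩
  let w : ℤ → I → ℝ := fun m z => (1 / 2) ^ z.1.1 * ‖m • z.1.2‖
  have hb : ∀ m, BddAbove (range (w m)) := fun m => ⟨1, by
    rintro _ ⟨z, rfl⟩
    exact mul_le_one₀ (pow_le_one₀ (by norm_num) (by norm_num)) (norm_nonneg _)
      (by linarith [norm_le_half (m • z.1.2)])⟩
  refine ⟨fun m => ⨆ z, w m z, ⟨fun a b => ciSup_le fun z => ?_, fun a => ?_, fun ε hε => ?_⟩,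
    by simp [w], fun i m x hx => le_ciSup (hb m) ⟨(i, x), hx⟩⟩
  · refine le_trans ?_ (add_le_add (le_ciSup (hb a) z) (le_ciSup (hb b) z))
    simp only [w, add_smul, ← mul_add]
    exact mul_le_mul_of_nonneg_left (norm_add_le _ _) (by positivity)
  · simp [w]
  · obtain ⟨k, hk⟩ := exists_pow_lt_of_lt_one hε (show (1 / 2 : ℝ) < 1 by norm_num)
    have : ∀ᶠ m in F, ∀ i ∈ Finset.range k, ∀ l ∈ Finset.range (k + 1), (2 ^ l : ℕ) • m ∈ U i :=
      (eventually_all_finset _).2 fun i _ => (eventually_all_finset _).2 fun l _ =>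
        (hF.pow l).eventually (hU i)
    filter_upwards [this] with m hm
    refine ciSup_le fun z => le_trans ?_ hk.le
    rcases lt_or_ge z.1.1 k with h | h
    · refine le_trans (mul_le_of_le_one_left (norm_nonneg _)
        (pow_le_one₀ (by norm_num) (by norm_num))) (nss' k fun l hl => ?_)
      rw [← smul_assoc]
      exact z.2 _ (hm _ (Finset.mem_range.2 h) l (Finset.mem_range.2 (by omega)))
    · exact (mul_le_of_le_one_right (by positivity)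
        (by linarith [norm_le_half (m • z.1.2)])).trans (half_le h)

theorem main (τ : TopologicalSpace ℤ) (hg : @IsTopologicalAddGroup ℤ τ _)
    (hm : @TopologicalSpace.MetrizableSpace ℤ τ) (hp : Precompact τ) (hl : LQC τ) :
    ∃ σ : TopologicalSpace ℤ, @IsTopologicalAddGroup ℤ σ _ ∧ @T2Space ℤ σ ∧ LQC σ ∧
      (∀ χ, IsChar σ χ ↔ IsChar τ χ) ∧ ¬ τ ≤ σ := by
  set F := @nhds ℤ τ 0 with hFdef
  have hF : GF F := @GF.nhds ℤ _ τ hg
  have hT2 : @T2Space ℤ τ := by let _ := τ; infer_instance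
  have hcg : F.IsCountablyGenerated := by let _ := τ; exact inferInstance
  have hgap : ∀ U ∈ F, ∃ g, Gap U g := by
    intro U hU
    obtain ⟨S, hS⟩ := hp U hU
    refine ⟨2 * S.sup Int.natAbs, fun a => ?_⟩
    obtain ⟨f, hf, u, hu, h⟩ := hS (a + (S.sup Int.natAbs : ℕ))
    have : f.natAbs ≤ S.sup Int.natAbs := Finset.le_sup (f := Int.natAbs) hf
    exact ⟨u, hu, by omega, by push_cast; omega⟩
  have hsmall : ∀ δ > 0, ∃ x : T, Ch F x ∧ x ≠ 0 ∧ ‖x‖ ≤ δ := by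
    intro δ hδ
    let H : AddSubgroup T :=
      { carrier := {x | Ch F x}
        zero_mem' := by simpa [Ch] using tendsto_const_nhds
        add_mem' := fun {a b} ha hb => by
          have := Tendsto.add ha hb
          simpa [Ch, smul_add] using this
        neg_mem' := fun {a} ha => by
          have := Tendsto.neg ha
          simpa [Ch] using this }
    have hd : Dense (H : Set T) := by
      rw [AddCircle.dense_addSubgroup_iff_ne_zmultiples]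
      intro a ha hH
      have h1 : ({(addOrderOf a : ℤ)}ᶜ : Set ℤ) ∈ F := by
        let _ := τ
        exact compl_singleton_mem_nhds (by exact_mod_cast ha.symm)
      obtain ⟨A, -, hA, hq⟩ := hl _ h1
      obtain ⟨χ, h2, -, h3⟩ := hq (addOrderOf a) fun h => hA h rfl
      have h4 : χ 1 ∈ H := (isChar_iff hg χ).1 h2
      rw [hH] at h4
      obtain ⟨j, hj⟩ := AddSubgroup.mem_zmultiples_iff.1 h4
      apply h3
      rw [hom_eq, ← hj, smul_comm, natCast_zsmul, addOrderOf_nsmul_eq_zero]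
      simp
    have ho : IsOpen {x : T | x ≠ 0 ∧ ‖x‖ < δ} :=
      isOpen_ne.inter (isOpen_lt continuous_norm continuous_const)
    obtain ⟨x, h1, h2⟩ := hd.exists_mem_open ho ⟨((min (δ / 2) (1 / 2) : ℝ) : T), by
      have h0 : 0 < min (δ / 2) (1 / 2) := by positivity
      have : ‖((min (δ / 2) (1 / 2) : ℝ) : T)‖ = min (δ / 2) (1 / 2) := by
        rw [(AddCircle.norm_coe_eq_abs_iff (1 : ℝ) one_ne_zero).2, abs_of_pos h0]
        rw [abs_of_pos h0]; simp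
      refine ⟨norm_pos_iff.1 (by rw [this]; exact h0), ?_⟩
      rw [this]; linarith [min_le_left (δ / 2) (1 / 2)]⟩
    exact ⟨x, h1, h2.1, h2.2.le⟩
  obtain ⟨V, hV⟩ := F.exists_antitone_basis
  choose U hU hUV hUq using fun i => hl (V i) (hV.mem i)
  obtain ⟨p, hp1, hp0, hp2⟩ := semi hF U hU
  have hpU : ∀ i m, p m ≤ (1 / 2) ^ (i + 2) → m ∈ U i := by
    intro i m h
    by_contra hn
    obtain ⟨χ, -, h1, h2⟩ := hUq i m hn
    have h3 := (hp2 i m (χ 1) fun a ha => by rw [← hom_eq]; exact h1 a ha).trans h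
    rw [pow_add, mul_le_mul_iff_right₀ (by positivity), ← hom_eq] at h3
    exact h2 (by linarith)
  obtain ⟨X, hX, hX0, hX1, hX2⟩ := core hF hgap hsmall hp1 hp0
  let Φ : ℤ →+ BoundedContinuousFunction ℕ T := zmultiplesHom _
    (BoundedContinuousFunction.ofNormedAddCommGroupDiscrete X (1 / 2) fun j => norm_le_half _)
  have hΦ : ∀ m j, Φ m j = m • X j := fun m j => by simp [Φ]
  have hΦn : ∀ m r, 0 ≤ r → (‖Φ m‖ ≤ r ↔ ∀ j, ‖m • X j‖ ≤ r) := fun m r hr => by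
    rw [BoundedContinuousFunction.norm_le hr]; simp only [hΦ]
  let ρ : TopologicalSpace ℤ := TopologicalSpace.induced Φ inferInstance
  have hρ : @IsTopologicalAddGroup ℤ ρ _ := topologicalAddGroup_induced Φ
  have hσ : @IsTopologicalAddGroup ℤ (τ ⊓ ρ) _ := topologicalAddGroup_inf hg hρ
  have hρn : ∀ S, S ∈ @nhds ℤ ρ 0 ↔ ∃ k : ℕ, ∀ m, (∀ j, ‖m • X j‖ ≤ (1 / 2) ^ k) → m ∈ S := by
    intro S
    rw [nhds_induced, map_zero, mem_comap]
    constructor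
    · rintro ⟨t, ht, hS⟩
      obtain ⟨ε, hε, h⟩ := Metric.mem_nhds_iff.1 ht
      obtain ⟨k, hk⟩ := exists_pow_lt_of_lt_one hε (show (1 / 2 : ℝ) < 1 by norm_num)
      exact ⟨k, fun m hm => hS (h (mem_ball_zero_iff.2
        (((hΦn m _ (by positivity)).2 hm).trans_lt hk)))⟩
    · rintro ⟨k, hk⟩
      exact ⟨_, Metric.closedBall_mem_nhds 0 (show (0 : ℝ) < (1 / 2) ^ k by positivity),
        fun m hm => hk m ((hΦn m _ (by positivity)).1 (mem_closedBall_zero_iff.1 hm))⟩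
  have hσn : @nhds ℤ (τ ⊓ ρ) 0 = F ⊓ @nhds ℤ ρ 0 := @nhds_inf _ τ ρ 0
  have hch : ∀ χ, IsChar (τ ⊓ ρ) χ ↔ IsChar τ χ := by
    intro χ
    rw [isChar_iff hg, isChar_iff hσ, hσn]
    refine ⟨fun h => ?_, fun h => h.mono_left inf_le_left⟩
    obtain ⟨A, hA, B, hB, hAB⟩ := mem_inf_iff.1 (h.ev (show (0 : ℝ) < 1 / 16 by norm_num))
    obtain ⟨i, hi⟩ := hV.mem_iff.1 hA
    obtain ⟨k, hk⟩ := (hρn B).1 hB
    refine hX2 _ (i + 2 + k) fun m h1 h2 => ?_
    have : m ∈ A ∩ B := ⟨hi (hUV i (hpU i m (h1.trans (half_le (by omega))))),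
      hk m fun j => (h2 j).trans (half_le (by omega))⟩
    rw [← hAB] at this
    exact this
  refine ⟨τ ⊓ ρ, hσ, t2Space_antitone inf_le_left hT2, fun S hS => ?_, hch, fun hle => ?_⟩
  · rw [hσn] at hS ⊢
    obtain ⟨A, hA, B, hB, rfl⟩ := mem_inf_iff.1 hS
    obtain ⟨k, hk⟩ := (hρn B).1 hB
    obtain ⟨A', h1, h2, h3⟩ := hl A hA
    refine ⟨A' ∩ {m | ∀ j, ∀ i ≤ k, ‖(2 ^ i : ℕ) • m • X j‖ ≤ 1 / 4},
      inter_mem_inf h1 ((hρn _).2 ⟨k + 2, fun m hm j i hi => ?_⟩),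
      inter_subset_inter h2 fun m hm => hk m fun j => nss' k (hm j), fun x hx => ?_⟩
    · refine (norm_nsmul_le).trans ?_
      have h4 : ((2 ^ i : ℕ) : ℝ) ≤ 2 ^ k := by
        push_cast; exact pow_le_pow_right₀ (by norm_num) hi
      refine (mul_le_mul h4 (hm j) (norm_nonneg _) (by positivity)).trans (le_of_eq ?_)
      rw [pow_add, ← mul_assoc, ← mul_pow]; norm_num
    · by_cases hx' : x ∈ A'
      · have : ¬ ∀ j, ∀ i ≤ k, ‖(2 ^ i : ℕ) • x • X j‖ ≤ 1 / 4 := fun h => hx ⟨hx', h⟩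
        push Not at this
        obtain ⟨j, i, hi, h4⟩ := this
        have e : ∀ m : ℤ, zmultiplesHom T ((2 ^ i : ℕ) • X j) m = (2 ^ i : ℕ) • m • X j :=
          fun m => by rw [zmultiplesHom_apply, smul_comm]
        refine ⟨zmultiplesHom T ((2 ^ i : ℕ) • X j), (hch _).2 ((isChar_iff hg _).2 ?_),
          fun a ha => by rw [e]; exact ha.2 j i hi, by rw [e]; exact not_le.2 h4⟩
        have := (hX j).const_smul (2 ^ i : ℕ)
        rw [smul_zero] at this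
        refine this.congr fun m => ?_
        rw [e, one_smul, smul_comm]
      · obtain ⟨χ, a1, a2, a3⟩ := h3 x hx'
        exact ⟨χ, (hch χ).2 a1, fun a ha => a2 a ha.1, a3⟩
  · have h1 : {m : ℤ | ∀ j, ‖m • X j‖ ≤ (1 / 2) ^ 3} ∈ F :=
      nhds_mono (hle.trans inf_le_right) ((hρn _).2 ⟨3, fun m hm => hm⟩)
    obtain ⟨g, hg'⟩ := hgap _ h1
    obtain ⟨j, hj⟩ := exists_pow_lt_of_lt_one (show (0 : ℝ) < 1 / 8 / (g + 1) by positivity)
      (show (1 / 2 : ℝ) < 1 by norm_num)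
    rw [lt_div_iff₀ (by positivity)] at hj
    have hneg : ∀ m ∈ {m : ℤ | ∀ j, ‖m • X j‖ ≤ (1 / 2) ^ 3},
        -m ∈ {m : ℤ | ∀ j, ‖m • X j‖ ≤ (1 / 2) ^ 3} := fun m hm j => by
      rw [neg_smul, norm_neg]; exact hm j
    obtain ⟨m, h2, h3, -⟩ := hit hg' hneg (hX0 j) (t := 1 / 2) (by norm_num)
    have h4 := h2 j
    have h5 := mul_le_mul_of_nonneg_left (hX1 j) (show (0 : ℝ) ≤ g + 1 by positivity)
    have h6 : ‖((1 / 2 : ℝ) : T)‖ = 1 / 2 := by
      rw [(AddCircle.norm_coe_eq_abs_iff (1 : ℝ) one_ne_zero).2] <;> norm_num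
    have h7 := norm_sub_le (m • X j) (m • X j - ((1 / 2 : ℝ) : T))
    rw [sub_sub_cancel] at h7
    norm_num at h4
    linarith

end Pool.Agent.H29.Mack3
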