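import Mathlib
import Pool.Agent.H29.Mack3

open Set Filter Topology

namespace Pool.Agent.H29.MackP
open Pool.Agent.H29.Mack1 Pool.Agent.H29.MackZ

theorem stepP {F : Filter ℤ} (hgap : ∀ U ∈ F, ∃ g, Gap U g)
    {P : ℕ → T → Prop}
    (hsmall : ∀ n, ∀ δ > 0, ∃ x : T, P n x ∧ Ch F x ∧ x ≠ 0 ∧ ‖x‖ ≤ δ) (n : ℕ) {q : ℤ → ℝ} (hq : SN F q)
    {a : ℝ} (ha : 0 < a) : ∃ x, P n x ∧ R F n q a x := by
  obtain ⟨g, hg⟩ := hgap _ (hq.cont ((1 / 2) ^ n) (by positivity))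
  choose L hL using fun k : ℕ => approx {m | q m ≤ (1 / 2) ^ k} (1 / 16)
    (min ((1 / 2) ^ n / (g + 1)) (a / 16)) (by positivity)
  set M := (Finset.range (n + 1)).sup L
  obtain ⟨x, h0, h1, h2, h3⟩ := hsmall n (min ((1 / 2) ^ n * a) ((1 / 2) ^ n / (g + 1 + M))) (by positivity)
  refine ⟨x, h0, h1, h2, h3.trans (min_le_left _ _), g, M, hg, ?_, fun k hk ψ hψ => ?_⟩
  · have := h3.trans (min_le_right _ _)
    rw [le_div_iff₀ (by positivity)] at this; linarith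
  · have h4 : L k ≤ M := Finset.le_sup (f := L) (Finset.mem_range.2 (by omega))
    obtain ⟨y, h5, h6⟩ := hL k ψ fun m hm hm' => hψ m hm (hm'.trans (by exact_mod_cast h4))
    refine ⟨y, h5, ?_, h6.trans (min_le_right _ _)⟩
    have := h6.trans (min_le_left _ _)
    rw [le_div_iff₀ (by positivity)] at this; linarith

theorem seqP {F : Filter ℤ} (hgap : ∀ U ∈ F, ∃ g, Gap U g)
    {P : ℕ → T → Prop}
    (hsmall : ∀ n, ∀ δ > 0, ∃ x : T, P n x ∧ Ch F x ∧ x ≠ 0 ∧ ‖x‖ ≤ δ) {p : ℤ → ℝ} (hp : SN F p) :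
    ∃ (q : ℕ → ℤ → ℝ) (a : ℕ → ℝ) (X : ℕ → T), q 0 = p ∧ a 0 = 1 ∧ ∀ n, P n (X n) ∧ SN F (q n) ∧
      R F n (q n) (a n) (X n) ∧ (q (n + 1) = fun m => max (q n m) ‖m • X n‖) ∧
      a (n + 1) = ‖X n‖ := by
  let S := {z : (ℤ → ℝ) × ℝ // SN F z.1 ∧ 0 < z.2}
  choose f hP hf using fun (n : ℕ) (s : S) => stepP hgap hsmall n s.2.1 s.2.2
  let s : ℕ → S := fun n => Nat.rec ⟨(p, 1), hp, one_pos⟩ (fun n s =>
    ⟨(fun m => max (s.1.1 m) ‖m • f n s‖, ‖f n s‖), s.2.1.max (hf n s).1,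
      norm_pos_iff.2 (hf n s).2.1⟩) n
  exact ⟨fun n => (s n).1.1, fun n => (s n).1.2, fun n => f n (s n), rfl, rfl,
    fun n => ⟨hP n _, (s n).2.1, hf n _, rfl, rfl⟩⟩

theorem coreP {F : Filter ℤ} (hF : GF F) (hgap : ∀ U ∈ F, ∃ g, Gap U g)
    {P : ℕ → T → Prop}
    (hsmall : ∀ n, ∀ δ > 0, ∃ x : T, P n x ∧ Ch F x ∧ x ≠ 0 ∧ ‖x‖ ≤ δ) {p : ℤ → ℝ} (hp : SN F p)
    (hp0 : p 0 = 0) :
    ∃ X : ℕ → T, (∀ j, P j (X j)) ∧ (∀ j, Ch F (X j)) ∧ (∀ j, X j ≠ 0) ∧ (∀ j, ‖X j‖ ≤ (1 / 2) ^ j) ∧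
      ∀ (ψ : T) (k : ℕ), (∀ m : ℤ, p m ≤ (1 / 2) ^ k → (∀ j, ‖m • X j‖ ≤ (1 / 2) ^ k) →
        ‖m • ψ‖ ≤ 1 / 16) → Ch F ψ := by
  obtain ⟨q, a, X, q0, a0, h⟩ := seqP hgap hsmall hp
  choose hP hq hR hq' ha' using h
  have hX1 : ∀ j, ‖X j‖ ≤ (1 / 2) ^ j := by
    intro j
    refine (hR j).2.2.1.trans (mul_le_of_le_one_right (by positivity) ?_)
    cases j with
    | zero => exact a0.le
    | succ j => rw [ha']; linarith [norm_le_half (X j)]
  have hX2 : ∀ n, ‖X (n + 1)‖ ≤ (1 / 2) ^ (n + 1) * ‖X n‖ := fun n => by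
    rw [← ha' n]; exact (hR _).2.2.1
  have anti : Antitone fun n => ‖X n‖ := antitone_nat_of_succ_le fun n =>
    (hX2 n).trans (mul_le_of_le_one_left (norm_nonneg _) (pow_le_one₀ (by norm_num) (by norm_num)))
  have hqp : ∀ n m, p m ≤ q n m ∧ ∀ j < n, ‖m • X j‖ ≤ q n m := by
    intro n m
    induction n with
    | zero => exact ⟨by rw [q0], fun j hj => absurd hj (by omega)⟩
    | succ n ih =>
      rw [hq']
      refine ⟨ih.1.trans (le_max_left _ _), fun j hj => ?_⟩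
      rcases Nat.lt_succ_iff_lt_or_eq.1 hj with h | rfl
      · exact (ih.2 j h).trans (le_max_left _ _)
      · exact le_max_right _ _
  refine ⟨X, hP, fun j => (hR j).1, fun j => (hR j).2.1, hX1, fun ψ k hψ => ?_⟩
  by_contra hnot
  choose g L hg hL hap using fun n => (hR n).2.2.2
  have hy : ∀ n, k ≤ n → ∃ y : T, (∀ m : ℤ, q n m ≤ (1 / 2) ^ k → ‖m • y‖ ≤ 1 / 16) ∧
      (g n + 1) * ‖ψ - y‖ ≤ (1 / 2) ^ n ∧ ‖ψ - y‖ ≤ a n / 16 := by
    intro n hn
    refine hap n k hn ψ fun m h1 h2 => hψ m ((hqp n m).1.trans h1) fun j => ?_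
    rcases lt_or_ge j n with h | h
    · exact ((hqp n m).2 j h).trans h1
    · have h3 : |(m : ℝ)| ≤ L n := by exact_mod_cast h2
      have h4 : ‖X j‖ ≤ ‖X n‖ := anti h
      have h5 := hL n
      have h6 := half_le hn
      have h7 : |(m : ℝ)| * ‖X j‖ ≤ L n * ‖X n‖ := mul_le_mul h3 h4 (norm_nonneg _) (by positivity)
      have h8 : (0 : ℝ) ≤ (g n + 1) * ‖X n‖ := by positivity
      linarith [norm_zs m (X j)]
  choose! y hy1 hy2 hy3 using hy
  have hyH : ∀ n, k ≤ n → Ch F (y n) := by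
    intro n hn
    have := hF.tendsto_of_quarter (zmultiplesHom T (y n)) (by
      filter_upwards [(hq n).cont ((1 / 2) ^ k) (by positivity)] with m hm
      have := hy1 n hn m hm
      simp only [zmultiplesHom_apply]; linarith)
    exact this
  have hfreq : ∀ N0, ∃ N, N0 ≤ N ∧ k ≤ N ∧ ‖X N‖ / 16 ≤ ‖ψ - y N‖ := by
    intro N0
    by_contra! hc
    have h1 : ∀ N, max N0 k ≤ N → y (N + 1) = y N := by
      intro N hN
      have hk : k ≤ N := (le_max_right _ _).trans hN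
      have h2 := hc N ((le_max_left _ _).trans hN) hk
      have h3 := hy3 (N + 1) (by omega)
      rw [ha'] at h3
      refine sub_eq_zero.1 (small_zero (hg N) (hR N).2.1 (r := (1 / 2) ^ N) ?_
        (pow_le_one₀ (by norm_num) (by norm_num)) ?_ fun m hm hm' => ?_)
      · have : (0 : ℝ) ≤ L N * ‖X N‖ := by positivity
        linarith [hL N]
      · have : y (N + 1) - y N = (ψ - y N) - (ψ - y (N + 1)) := by abel
        rw [this]; linarith [norm_sub_le (ψ - y N) (ψ - y (N + 1))]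
      · have h4 := hy1 N hk m (le_trans hm (half_le hk))
        have h5 := hy1 (N + 1) (by omega) m (by
          rw [hq']; exact (max_le hm hm').trans (half_le hk))
        rw [smul_sub]; linarith [norm_sub_le (m • y (N + 1)) (m • y N)]
    have h2 : ∀ N, max N0 k ≤ N → y N = y (max N0 k) := by
      intro N hN
      induction N, hN using Nat.le_induction with
      | base => rfl
      | succ N hN ih => rw [h1 N hN, ih]
    have h3 : ψ = y (max N0 k) := by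
      rw [← sub_eq_zero, ← norm_le_zero_iff]
      refine ge_of_tendsto (tendsto_pow_atTop_nhds_zero_of_lt_one (r := (1 / 2 : ℝ))
        (by norm_num) (by norm_num)) ?_
      filter_upwards [eventually_ge_atTop (max N0 k)] with N hN
      have h4 := hy2 N ((le_max_right _ _).trans hN)
      rw [h2 N hN] at h4
      have : (0 : ℝ) ≤ g N * ‖ψ - y (max N0 k)‖ := by positivity
      linarith
    exact hnot (h3 ▸ hyH _ (le_max_right _ _))
  set u : ℝ := (1 / 2) ^ k with hu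
  have hu0 : 0 < u := by positivity
  have hu1 : u ≤ 1 := pow_le_one₀ (by norm_num) (by norm_num)
  have good : ∀ N0, ∃ N, N0 ≤ N ∧ ∃ m : ℤ, p m ≤ (1 / 2) ^ N ∧
      (∀ j, j ≠ N → ‖m • X j‖ ≤ (1 / 2) ^ N) ∧ ‖m • X N‖ ≤ u / 4 + (1 / 2) ^ N ∧
      ‖m • ψ - ((u / 64 : ℝ) : T)‖ ≤ (1 / 2) ^ N + (1 / 2) ^ (N - k) := by
    intro N0
    obtain ⟨N, h1, hk, h2⟩ := hfreq N0
    have hX0 : 0 < ‖X N‖ := norm_pos_iff.2 (hR N).2.1
    have he : 0 < ‖ψ - y N‖ := by linarith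
    obtain ⟨m, hm, h3, h4⟩ := hit (hg N) (fun m hm => by
      show q N (-m) ≤ _
      rw [(hq N).neg]; exact hm) (norm_pos_iff.1 he) (t := u / 64) (by positivity)
    have hm : q N m ≤ (1 / 2) ^ N := hm
    have h5 : |(m : ℝ)| * ‖X N‖ ≤ u / 4 + (1 / 2) ^ N := by
      have h6 : (g N + 1) * ‖X N‖ ≤ (1 / 2) ^ N := by
        have : (0 : ℝ) ≤ L N * ‖X N‖ := by positivity
        linarith [hL N]
      rcases le_total |(m : ℝ)| (g N + 1) with h7 | h7
      · nlinarith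
      · have h8 : (|(m : ℝ)| - (g N + 1)) * (‖X N‖ / 16) ≤ (|(m : ℝ)| - (g N + 1)) * ‖ψ - y N‖ :=
          mul_le_mul_of_nonneg_left h2 (by linarith)
        nlinarith
    refine ⟨N, h1, m, (hqp N m).1.trans hm, fun j hj => ?_, (norm_zs _ _).trans h5, ?_⟩
    · rcases lt_or_gt_of_ne hj with h | h
      · exact ((hqp N m).2 j h).trans hm
      · have h6 : ‖X j‖ ≤ (1 / 2) ^ (N + 1) * ‖X N‖ := (anti (show N + 1 ≤ j from h)).trans (hX2 N)
        have h7 : (1 / 2 : ℝ) ^ N ≤ 1 := pow_le_one₀ (by norm_num) (by norm_num)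
        have h8 : (0 : ℝ) < (1 / 2) ^ N := by positivity
        have h9 := mul_le_mul_of_nonneg_left h6 (abs_nonneg (m : ℝ))
        rw [pow_succ] at h9
        nlinarith [norm_zs m (X j)]
    · have h6 : ‖m • y N‖ ≤ (1 / 2) ^ (N - k) := by
        refine nss' _ fun i hi => ?_
        rw [← smul_assoc]
        refine (hy1 N hk _ (((hq N).pow m i).trans ?_)).trans (by norm_num)
        have h7 : (2 : ℝ) ^ i * (1 / 2) ^ N ≤ u := by
          obtain ⟨d, hd⟩ : ∃ d, N = i + (k + d) := ⟨N - i - k, by omega⟩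
          rw [hd, pow_add, ← mul_assoc, ← mul_pow]
          simpa [hu] using half_le (Nat.le_add_right k d)
        exact (mul_le_mul_of_nonneg_left hm (by positivity)).trans h7
      have h7 : m • ψ - ((u / 64 : ℝ) : T) = (m • (ψ - y N) - ((u / 64 : ℝ) : T)) + m • y N := by
        rw [smul_sub]; abel
      rw [h7]
      linarith [norm_add_le (m • (ψ - y N) - ((u / 64 : ℝ) : T)) (m • y N), hy2 N hk]
  have sum : ∀ r : ℕ, ∀ δ > 0, ∃ M : ℤ, p M ≤ δ ∧ (∀ j, ‖M • X j‖ ≤ u / 4 + δ) ∧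
      ‖M • ψ - ((r * (u / 64) : ℝ) : T)‖ ≤ δ := by
    intro r
    induction r with
    | zero => exact fun δ hδ => ⟨0, by linarith, fun j => by simp; positivity, by simp; positivity⟩
    | succ r ih =>
      intro δ hδ
      obtain ⟨M, h1, h2, h3⟩ := ih (δ / 3) (by positivity)
      obtain ⟨K, hK⟩ := exists_pow_lt_of_lt_one (show 0 < δ / 3 / (|(M : ℝ)| + 1) by positivity)
        (show (1 / 2 : ℝ) < 1 by norm_num)
      rw [lt_div_iff₀ (by positivity)] at hK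
      obtain ⟨N, hN, m, h4, h5, h6, h7⟩ := good (K + k)
      have a1 := half_le (show K ≤ N by omega)
      have a2 := half_le (show K ≤ N - k by omega)
      have a3 : (0 : ℝ) ≤ (1 / 2) ^ K * |(M : ℝ)| := by positivity
      have a4 : (0 : ℝ) ≤ (1 / 2) ^ K := by positivity
      refine ⟨M + m, by linarith [hp.add M m], fun j => ?_, ?_⟩
      · rw [add_smul]
        refine (norm_add_le _ _).trans ?_
        by_cases hj : j = N
        · subst hj
          have := mul_le_mul_of_nonneg_left ((hX1 j).trans a1) (abs_nonneg (M : ℝ))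
          linarith [norm_zs M (X j)]
        · linarith [h2 j, h5 j hj]
      · have : (M + m) • ψ - ((((r + 1 : ℕ) : ℝ) * (u / 64) : ℝ) : T) =
            (M • ψ - ((r * (u / 64) : ℝ) : T)) + (m • ψ - ((u / 64 : ℝ) : T)) := by
          rw [Nat.cast_succ, add_mul, one_mul, AddCircle.coe_add, add_smul]; abel
        rw [this]
        linarith [norm_add_le (M • ψ - ((r * (u / 64) : ℝ) : T)) (m • ψ - ((u / 64 : ℝ) : T))]
  obtain ⟨M, h1, h2, h3⟩ := sum (16 * 2 ^ k) (u / 16) (by positivity)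
  have h4 := hψ M (by linarith) fun j => by linarith [h2 j]
  have h5 : (((16 * 2 ^ k : ℕ) : ℝ) * (u / 64)) = 1 / 4 := by
    rw [hu]; push_cast; rw [one_div, inv_pow]; field_simp; norm_num
  rw [h5] at h3
  have h6 := norm_quarter (s := 1 / 4) le_rfl (by norm_num)
  have h7 := norm_sub_le (M • ψ) (M • ψ - ((1 / 4 : ℝ) : T))
  rw [sub_sub_cancel] at h7
  linarith

end Pool.Agent.H29.MackP
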