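import Mathlib

set_option autoImplicit false

namespace Pool.Agent.H29.Markov

open Filter Topology

lemma top_exists {G ι : Type} [Group G] [SemilatticeSup ι] [Nonempty ι] (U : ι → Subgroup G)
    (hanti : Antitone U) (hc : ∀ g : G, ∃ i, ∀ u ∈ U i, g * u * g⁻¹ = u)
    (h1 : ∀ u, (∀ i, u ∈ U i) → u = 1) :
    ∃ t : TopologicalSpace G, @IsTopologicalGroup G t _ ∧ @T2Space G t ∧
      ∀ (E : Set G) (x : G), (∀ i, ∃ e ∈ E, x⁻¹ * e ∈ U i) → x ∈ @closure G t E := by
  let B : GroupFilterBasis G :=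
    { sets := Set.range fun i => (U i : Set G)
      nonempty := Set.range_nonempty _
      inter_sets := by
        rintro _ _ ⟨i, rfl⟩ ⟨j, rfl⟩
        exact ⟨_, ⟨i ⊔ j, rfl⟩, fun u hu => ⟨hanti le_sup_left hu, hanti le_sup_right hu⟩⟩
      one' := by
        rintro _ ⟨i, rfl⟩
        exact (U i).one_mem
      mul' := by
        rintro _ ⟨i, rfl⟩
        refine ⟨_, ⟨i, rfl⟩, ?_⟩
        rintro _ ⟨a, ha, b, hb, rfl⟩
        exact (U i).mul_mem ha hb
      inv' := by
        rintro _ ⟨i, rfl⟩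
        exact ⟨_, ⟨i, rfl⟩, fun u hu => (U i).inv_mem hu⟩
      conj' := by
        rintro g _ ⟨i, rfl⟩
        obtain ⟨j, hj⟩ := hc g
        refine ⟨_, ⟨i ⊔ j, rfl⟩, fun u hu => ?_⟩
        show g * u * g⁻¹ ∈ U i
        rw [hj u (hanti le_sup_right hu)]
        exact hanti le_sup_left hu }
  refine ⟨B.topology, B.isTopologicalGroup, ?_, ?_⟩
  · rw [@GroupFilterBasis.t2Space_iff_sInter_subset G _ B.topology B rfl]
    intro u hu
    exact h1 u fun i => hu _ ⟨i, rfl⟩
  · intro E x hx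
    let := B.topology
    rw [mem_closure_iff_nhds_basis (B.nhds_hasBasis x)]
    rintro _ ⟨i, rfl⟩
    obtain ⟨e, he, h⟩ := hx i
    exact ⟨e, he, x⁻¹ * e, h, by simp⟩

abbrev K := ZMod 3
abbrev J := List Bool ⊕ (ℕ → Bool)
abbrev V := J →₀ K

instance : Fact (Nat.Prime 3) := ⟨Nat.prime_three⟩

def seg (r : ℕ → Bool) (n : ℕ) : List Bool := List.ofFn fun i : Fin n => r i

open Classical in
noncomputable def b : J → J → K
  | .inl d, .inl d' => if d = d' then 1 else 0
  | .inl d, .inr r => if d = seg r d.length then 1 else 0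
  | .inr r, .inl d => if d = seg r d.length then 1 else 0
  | .inr r, .inr r' => if r = r' then 1 else 0

lemma b_symm (i j : J) : b i j = b j i := by
  classical
  cases i <;> cases j <;> simp only [b] <;> split_ifs <;> simp_all

noncomputable def bil : V →ₗ[K] V →ₗ[K] K :=
  Finsupp.linearCombination K fun i => Finsupp.linearCombination K (b i)

noncomputable def e (j : J) : V := Finsupp.single j 1

lemma bil_e (i : J) (q : V) : bil (e i) q = ∑ j ∈ q.support, q j * b i j := by
  simp [bil, e, Finsupp.linearCombination_apply, Finsupp.sum]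

lemma bil_e_e (i j : J) : bil (e i) (e j) = b i j := by
  simp [bil, e]

lemma bil_symm (p q : V) : bil p q = bil q p := by
  have : bil = bil.flip := by
    ext i j
    simp [bil, b_symm i j]
  conv_lhs => rw [this]
  rfl

lemma bil_eq_zero (p q : V) (h : ∀ j ∈ q.support, bil p (e j) = 0) : bil p q = 0 := by
  have : q = ∑ j ∈ q.support, q j • e j := by
    conv_lhs => rw [← q.sum_single]
    simp [Finsupp.sum, e]
  rw [this, map_sum]
  exact Finset.sum_eq_zero fun j hj => by rw [map_smul, h j hj, smul_zero]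

lemma sep (q : V) (h : ∀ d, bil (e (.inl d)) q = 0) : q = 0 := by
  classical
  have h1 : ∀ r, q (.inr r) = 0 := by
    intro r
    have ev : ∀ j ∈ q.support, ∀ᶠ n in atTop, j ≠ .inr r → b (.inl (seg r n)) j = 0 := by
      intro j _
      cases j with
      | inl d =>
        filter_upwards [eventually_gt_atTop d.length] with n hn _
        have : seg r n ≠ d := fun h => by
          have := congrArg List.length h
          simp [seg] at this
          omega
        simp [b, this]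
      | inr r' =>
        by_cases hr : r' = r
        · exact Eventually.of_forall fun n hn => (hn (by rw [hr])).elim
        · obtain ⟨m, hm⟩ := Function.ne_iff.1 hr
          filter_upwards [eventually_gt_atTop m] with n hn _
          have : seg r n ≠ seg r' (seg r n).length := fun h => by
            have e1 : (seg r n).length = n := by simp [seg]
            rw [e1] at h
            exact hm (congrFun (List.ofFn_injective h) ⟨m, hn⟩).symm
          simp [b, this]
    obtain ⟨n, hn⟩ := ((eventually_all_finset _).2 ev).exists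
    have h2 := h (seg r n)
    rw [bil_e, Finset.sum_eq_single (Sum.inr r)] at h2
    · have e1 : (seg r n).length = n := by simp [seg]
      simpa [b, e1] using h2
    · intro j hj hne
      rw [hn j hj hne, mul_zero]
    · intro hj
      rw [Finsupp.notMem_support_iff.1 hj, zero_mul]
  ext j
  cases j with
  | inr r => exact h1 r
  | inl d =>
    have h2 := h d
    rw [bil_e, Finset.sum_eq_single (Sum.inl d)] at h2
    · simpa [b] using h2
    · intro j _ hne
      cases j with
      | inr r => rw [h1, zero_mul]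
      | inl d' =>
        have : d ≠ d' := fun h => hne (by rw [h])
        simp [b, this]
    · intro hj
      rw [Finsupp.notMem_support_iff.1 hj, zero_mul]

noncomputable def emb : (List Bool →₀ K) →ₗ[K] V := Finsupp.lmapDomain K K Sum.inl

lemma dens (x : V) (S : Finset J) : ∃ w, ∀ j ∈ S, bil (emb w - x) (e j) = 0 := by
  classical
  let Φ : (List Bool →₀ K) →ₗ[K] (S → K) := LinearMap.pi fun j => (bil.flip (e j)).comp emb
  have hs : LinearMap.range Φ = ⊤ := by
    by_contra hne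
    obtain ⟨φ, hφ, hle⟩ := Submodule.exists_le_ker_of_lt_top _ (lt_top_iff_ne_top.2 hne)
    let c : S → K := fun i => φ fun j => if i = j then 1 else 0
    have hq : (∑ i : S, c i • e i) = 0 := by
      apply sep
      intro d
      have h1 : φ (Φ (Finsupp.single d 1)) = 0 := hle ⟨_, rfl⟩
      rw [LinearMap.pi_apply_eq_sum_univ] at h1
      rw [map_sum, ← h1]
      refine Finset.sum_congr rfl fun i _ => ?_
      rw [map_smul]
      simp [Φ, emb, e, c, mul_comm]
    apply hφ
    have hc : ∀ i, c i = 0 := by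
      intro i
      have := congrArg (fun q : V => q i) hq
      simp only [Finsupp.finsetSum_apply, Finsupp.smul_apply, e, Finsupp.single_apply,
        smul_eq_mul, Finsupp.coe_zero, Pi.zero_apply] at this
      rw [Finset.sum_eq_single i] at this
      · simpa using this
      · intro j _ hj
        rw [if_neg (fun h => hj (Subtype.ext h)), mul_zero]
      · simp
    ext v
    rw [LinearMap.comp_apply, LinearMap.pi_apply_eq_sum_univ]
    exact Finset.sum_eq_zero fun i _ => by
      have := hc i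
      simp only [c] at this
      rw [this, smul_zero]
  obtain ⟨w, hw⟩ := LinearMap.range_eq_top.1 hs (fun j => bil x (e j))
  refine ⟨w, fun j hj => ?_⟩
  have := congrFun hw ⟨j, hj⟩
  simp only [Φ, LinearMap.pi_apply, LinearMap.comp_apply, LinearMap.flip_apply] at this
  rw [map_sub, LinearMap.sub_apply, this, sub_self]

@[ext] structure G where
  p : V
  q : V
  c : K

noncomputable instance : Mul G := ⟨fun x y => ⟨x.p + y.p, x.q + y.q, x.c + y.c + bil x.p y.q⟩⟩
noncomputable instance : One G := ⟨⟨0, 0, 0⟩⟩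
noncomputable instance : Inv G := ⟨fun x => ⟨-x.p, -x.q, -x.c + bil x.p x.q⟩⟩

@[simp] lemma mul_p (x y : G) : (x * y).p = x.p + y.p := rfl
@[simp] lemma mul_q (x y : G) : (x * y).q = x.q + y.q := rfl
@[simp] lemma mul_c (x y : G) : (x * y).c = x.c + y.c + bil x.p y.q := rfl
@[simp] lemma one_p : (1 : G).p = 0 := rfl
@[simp] lemma one_q : (1 : G).q = 0 := rfl
@[simp] lemma one_c : (1 : G).c = 0 := rfl
@[simp] lemma inv_p (x : G) : (x⁻¹).p = -x.p := rfl
@[simp] lemma inv_q (x : G) : (x⁻¹).q = -x.q := rfl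
@[simp] lemma inv_c (x : G) : (x⁻¹).c = -x.c + bil x.p x.q := rfl

noncomputable instance : Group G := Group.ofLeftAxioms
  (fun a b c => by
    ext1
    · simp [add_assoc]
    · simp [add_assoc]
    · simp; ring)
  (fun a => by ext1 <;> simp) (fun a => by ext1 <;> simp)

def U1 (S : Finset J) : Subgroup G where
  carrier := {u | u.q = 0 ∧ u.c = 0 ∧ ∀ j ∈ S, bil u.p (e j) = 0}
  one_mem' := by simp
  mul_mem' := fun {a b} ha hb => ⟨by simp [ha.1, hb.1], by simp [ha.2.1, hb.2.1, hb.1],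
    fun j hj => by simp [ha.2.2 j hj, hb.2.2 j hj]⟩
  inv_mem' := fun {a} ha => ⟨by simp [ha.1], by simp [ha.2.1, ha.1],
    fun j hj => by simp [ha.2.2 j hj]⟩

def U2 (S : Finset J) : Subgroup G where
  carrier := {u | u.p = 0 ∧ u.c = 0 ∧ ∀ j ∈ S, bil u.q (e j) = 0}
  one_mem' := by simp
  mul_mem' := fun {a b} ha hb => ⟨by simp [ha.1, hb.1], by simp [ha.2.1, hb.2.1, ha.1],
    fun j hj => by simp [ha.2.2 j hj, hb.2.2 j hj]⟩
  inv_mem' := fun {a} ha => ⟨by simp [ha.1], by simp [ha.2.1, ha.1],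
    fun j hj => by simp [ha.2.2 j hj]⟩

def E1 : Set G := Set.range fun w => ⟨emb w, 0, 0⟩
def E2 : Set G := Set.range fun w => ⟨0, emb w, 0⟩

lemma top1 : ∃ t : TopologicalSpace G, @IsTopologicalGroup G t _ ∧ @T2Space G t ∧
    ∀ x : V, (⟨x, 0, 0⟩ : G) ∈ @closure G t E1 := by
  classical
  obtain ⟨t, h1, h2, h3⟩ := top_exists U1
    (fun S T h u hu => ⟨hu.1, hu.2.1, fun j hj => hu.2.2 j (Finset.mem_of_subset h hj)⟩)
    (fun g => ⟨g.q.support, fun u hu => by
      have := bil_eq_zero u.p g.q hu.2.2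
      ext1 <;> simp [hu.1, hu.2.1, this]⟩)
    (fun u hu => by
      ext1
      · exact sep _ fun d => by
          rw [bil_symm]; exact (hu {.inl d}).2.2 _ (Finset.mem_singleton_self _)
      · exact (hu ∅).1
      · exact (hu ∅).2.1)
  refine ⟨t, h1, h2, fun x => h3 _ _ fun S => ?_⟩
  obtain ⟨w, hw⟩ := dens x S
  refine ⟨_, ⟨w, rfl⟩, by simp, by simp, fun j hj => ?_⟩
  rw [← hw j hj]
  simp only [mul_p, inv_p]
  rw [neg_add_eq_sub]

lemma top2 : ∃ t : TopologicalSpace G, @IsTopologicalGroup G t _ ∧ @T2Space G t ∧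
    ∀ x : V, (⟨0, x, 0⟩ : G) ∈ @closure G t E2 := by
  classical
  obtain ⟨t, h1, h2, h3⟩ := top_exists U2
    (fun S T h u hu => ⟨hu.1, hu.2.1, fun j hj => hu.2.2 j (Finset.mem_of_subset h hj)⟩)
    (fun g => ⟨g.p.support, fun u hu => by
      have := bil_eq_zero u.q g.p hu.2.2
      rw [bil_symm] at this
      ext1 <;> simp [hu.1, hu.2.1, this]⟩)
    (fun u hu => by
      ext1
      · exact (hu ∅).1
      · exact sep _ fun d => by
          rw [bil_symm]; exact (hu {.inl d}).2.2 _ (Finset.mem_singleton_self _)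
      · exact (hu ∅).2.1)
  refine ⟨t, h1, h2, fun x => h3 _ _ fun S => ?_⟩
  obtain ⟨w, hw⟩ := dens x S
  refine ⟨_, ⟨w, rfl⟩, by simp, by simp, fun j hj => ?_⟩
  rw [← hw j hj]
  simp only [mul_q, inv_q]
  rw [neg_add_eq_sub]

lemma no_top [TopologicalSpace G] [IsTopologicalGroup G] [T2Space G]
    (h1 : ∀ x : V, (⟨x, 0, 0⟩ : G) ∈ closure E1) (h2 : ∀ x : V, (⟨0, x, 0⟩ : G) ∈ closure E2) :
    False := by
  let z : G := ⟨0, 0, 2⟩
  let f : (G × G) × (G × G) → G := fun a =>
    (a.1.1 * a.1.2⁻¹) * (a.2.1 * a.2.2⁻¹) * (a.1.1 * a.1.2⁻¹)⁻¹ * (a.2.1 * a.2.2⁻¹)⁻¹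
  have hf : Continuous f := by fun_prop
  have hz : f ((1, 1), (1, 1)) ∈ ({z}ᶜ : Set G) := by
    intro h
    have h' : (f ((1, 1), (1, 1))).c = z.c := by rw [Set.mem_singleton_iff.1 h]
    simp [f, z] at h'
    exact absurd h' (by decide)
  have h3 : f ⁻¹' {z}ᶜ ∈ 𝓝 ((1, 1), (1, 1)) :=
    hf.continuousAt.preimage_mem_nhds (isOpen_compl_singleton.mem_nhds hz)
  obtain ⟨A, hA, B, hB, hAB⟩ := mem_nhds_prod_iff.1 h3
  obtain ⟨A1, hA1, A2, hA2, hA'⟩ := mem_nhds_prod_iff.1 hA
  obtain ⟨B1, hB1, B2, hB2, hB'⟩ := mem_nhds_prod_iff.1 hB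
  have key : ∀ (x : G) (E W : Set G), x ∈ closure E → W ∈ 𝓝 (1 : G) → ∃ y ∈ E, x⁻¹ * y ∈ W := by
    intro x E W hx hW
    have : (fun y => x⁻¹ * y) ⁻¹' W ∈ 𝓝 x :=
      (continuous_const_mul x⁻¹).continuousAt.preimage_mem_nhds (by simpa using hW)
    obtain ⟨y, hy1, hy2⟩ := mem_closure_iff_nhds.1 hx _ this
    exact ⟨y, hy2, hy1⟩
  have k1 : ∀ r : ℕ → Bool, ∃ w, (⟨e (.inr r), 0, 0⟩ : G)⁻¹ * ⟨emb w, 0, 0⟩ ∈ A1 ∩ A2 := by
    intro r
    obtain ⟨_, ⟨w, rfl⟩, h⟩ := key _ _ _ (h1 (e (.inr r))) (inter_mem hA1 hA2)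
    exact ⟨w, h⟩
  have k2 : ∀ r : ℕ → Bool, ∃ w, (⟨0, e (.inr r), 0⟩ : G)⁻¹ * ⟨0, emb w, 0⟩ ∈ B1 ∩ B2 := by
    intro r
    obtain ⟨_, ⟨w, rfl⟩, h⟩ := key _ _ _ (h2 (e (.inr r))) (inter_mem hB1 hB2)
    exact ⟨w, h⟩
  choose w1 hw1 using k1
  choose w2 hw2 using k2
  have hni : ¬ Function.Injective (fun r => (w1 r, w2 r)) := fun h => by
    have h6 : Cardinal.mk (ℕ → Bool) = Cardinal.continuum := by simp
    have := h.countable
    have h5 : Cardinal.mk (ℕ → Bool) ≤ Cardinal.aleph0 := Cardinal.mk_le_aleph0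
    rw [h6] at h5
    exact absurd h5 (not_le.2 Cardinal.aleph0_lt_continuum)
  obtain ⟨r, r', hrr, hne⟩ := Function.not_injective_iff.1 hni
  simp only [Prod.mk.injEq] at hrr
  have h4 := hAB (Set.mk_mem_prod (hA' (Set.mk_mem_prod (hw1 r).1 (hw1 r').2))
    (hB' (Set.mk_mem_prod (hw2 r).1 (hw2 r').2)))
  apply h4
  rw [Set.mem_singleton_iff]
  ext1
  · simp [f, z]
    abel
  · simp [f, z]
    abel
  · simp [f, z, hrr.1, hrr.2, bil_e_e, b, hne, Ne.symm hne]
    ring

lemma card_G : Cardinal.mk G ≤ 2 ^ Cardinal.continuum := by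
  have hV : Cardinal.mk V ≤ Cardinal.continuum := by
    rw [Cardinal.mk_finsupp_of_infinite]
    refine max_le ?_ ?_
    · simp
    · exact (Cardinal.mk_le_aleph0).trans Cardinal.aleph0_le_continuum
  have h1 : Cardinal.mk G ≤ Cardinal.mk (V × V × K) :=
    Cardinal.mk_le_of_injective (f := fun x : G => (x.p, x.q, x.c)) fun x y h => by
      simp only [Prod.mk.injEq] at h
      exact G.ext h.1 h.2.1 h.2.2
  refine h1.trans (le_trans ?_ (Cardinal.cantor _).le)
  have hK : Cardinal.mk K ≤ Cardinal.continuum :=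
    (Cardinal.mk_le_aleph0).trans Cardinal.aleph0_le_continuum
  simp only [Cardinal.mk_prod, Cardinal.lift_id]
  calc _ ≤ Cardinal.continuum * (Cardinal.continuum * Cardinal.continuum) := by gcongr
    _ = _ := by simp

end Pool.Agent.H29.Markov
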