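import Mathlib

namespace Pool.Agent.H29.Mon3

open MvPolynomial

variable {k : Type} [Field k]

structure Up where
  P : ℕ → ℕ → ℕ → Prop
  mono : ∀ a b c a' b' c', P a b c → P (a + a') (b + b') (c + c')

def Up.at (U : Up) (d : Fin 3 →₀ ℕ) : Prop := U.P (d 0) (d 1) (d 2)

theorem supp_mul {f g : MvPolynomial (Fin 3) k} {d : Fin 3 →₀ ℕ} (h : d ∈ (f * g).support) :
    ∃ u ∈ f.support, ∃ v ∈ g.support, u + v = d := by
  classical
  exact Finset.mem_add.1 (support_mul f g h)

def M (k : Type) [Field k] (U : Up) : Ideal (MvPolynomial (Fin 3) k) where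
  carrier := {f | ∀ d ∈ f.support, U.at d}
  add_mem' := by
    classical
    intro f g hf hg d hd
    rcases Finset.mem_union.1 (support_add hd) with h | h
    · exact hf d h
    · exact hg d h
  zero_mem' := by intro d hd; simp at hd
  smul_mem' := by
    intro c f hf d hd
    obtain ⟨u, -, v, hv, rfl⟩ := supp_mul hd
    have := U.mono _ _ _ (u 0) (u 1) (u 2) (hf v hv)
    simpa [Up.at, add_comm] using this

theorem mem_M {U : Up} {f : MvPolynomial (Fin 3) k} : f ∈ M k U ↔ ∀ d ∈ f.support, U.at d :=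
  Iff.rfl

theorem mul_mem_M {U V W : Up} (h : ∀ a b c a' b' c', U.P a b c → V.P a' b' c' →
    W.P (a + a') (b + b') (c + c')) {f g : MvPolynomial (Fin 3) k} (hf : f ∈ M k U)
    (hg : g ∈ M k V) : f * g ∈ M k W := by
  intro d hd
  obtain ⟨u, hu, v, hv, rfl⟩ := supp_mul hd
  exact h _ _ _ _ _ _ (hf u hu) (hg v hv)

theorem M_le {U V : Up} (h : ∀ a b c, U.P a b c → V.P a b c) : M k U ≤ M k V :=
  fun _ hf d hd => h _ _ _ (hf d hd)

noncomputable def ex (a b c : ℕ) : Fin 3 →₀ ℕ := Finsupp.equivFunOnFinite.symm ![a, b, c]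

@[simp] theorem ex0 (a b c : ℕ) : ex a b c 0 = a := rfl
@[simp] theorem ex1 (a b c : ℕ) : ex a b c 1 = b := rfl
@[simp] theorem ex2 (a b c : ℕ) : ex a b c 2 = c := rfl

theorem ex_eq (d : Fin 3 →₀ ℕ) : d = ex (d 0) (d 1) (d 2) := by
  ext i; fin_cases i <;> rfl

noncomputable def mo (k : Type) [Field k] (a b c : ℕ) : MvPolynomial (Fin 3) k :=
  X 0 ^ a * X 1 ^ b * X 2 ^ c

theorem mo_eq (a b c : ℕ) : mo k a b c = monomial (ex a b c) 1 := by
  unfold mo
  rw [X_pow_eq_monomial, X_pow_eq_monomial, X_pow_eq_monomial, monomial_mul, monomial_mul]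
  congr 2
  · ext i; fin_cases i <;> simp
  · simp

theorem mo_mem {U : Up} {a b c : ℕ} : mo k a b c ∈ M k U ↔ U.P a b c := by
  classical
  rw [mem_M, mo_eq, support_monomial, if_neg one_ne_zero]
  simp [Up.at]

theorem mem_of_mo (J : Ideal (MvPolynomial (Fin 3) k)) (f : MvPolynomial (Fin 3) k)
    (h : ∀ d ∈ f.support, mo k (d 0) (d 1) (d 2) ∈ J) : f ∈ J := by
  rw [f.as_sum]
  refine J.sum_mem fun d hd => ?_
  have : monomial d (coeff d f) = C (coeff d f) * mo k (d 0) (d 1) (d 2) := by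
    rw [mo_eq, ← ex_eq, C_mul_monomial, mul_one]
  rw [this]
  exact J.mul_mem_left _ (h d hd)

theorem mul_mo_mem {U : Up} {f : MvPolynomial (Fin 3) k} {a b c : ℕ} :
    f * mo k a b c ∈ M k U ↔ ∀ d ∈ f.support, U.P (d 0 + a) (d 1 + b) (d 2 + c) := by
  constructor
  · intro h d hd
    have := h (d + ex a b c) (by
      rw [mem_support_iff, mo_eq, coeff_mul_monomial, mul_one]
      exact mem_support_iff.1 hd)
    simpa [Up.at] using this
  · intro h d hd
    obtain ⟨u, hu, v, hv, rfl⟩ := supp_mul hd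
    classical
    rw [mo_eq, support_monomial, if_neg one_ne_zero, Finset.mem_singleton] at hv
    subst hv
    simpa [Up.at] using h u hu

open Classical in
noncomputable def out (U : Up) (f : MvPolynomial (Fin 3) k) : MvPolynomial (Fin 3) k :=
  ∑ d ∈ f.support with ¬ U.at d, monomial d (coeff d f)

open Classical in
theorem coeff_out (U : Up) (f : MvPolynomial (Fin 3) k) (d : Fin 3 →₀ ℕ) :
    coeff d (out U f) = if U.at d then 0 else coeff d f := by
  unfold out
  rw [coeff_sum]
  simp only [coeff_monomial]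
  rw [Finset.sum_ite_eq']
  by_cases h1 : U.at d
  · simp [h1]
  · by_cases h2 : coeff d f = 0
    · simp [h2]
    · simp [h1, h2]

theorem sub_out (U : Up) (f : MvPolynomial (Fin 3) k) : f - out U f ∈ M k U := by
  intro d hd
  by_contra h
  rw [mem_support_iff, coeff_sub, coeff_out, if_neg h, sub_self] at hd
  exact hd rfl

theorem supp_out {U : Up} {f : MvPolynomial (Fin 3) k} {d : Fin 3 →₀ ℕ}
    (hd : d ∈ (out U f).support) : ¬ U.at d := by
  intro h
  rw [mem_support_iff, coeff_out, if_pos h] at hd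
  exact hd rfl

theorem out_ne {U : Up} {f : MvPolynomial (Fin 3) k} (h : f ∉ M k U) : out U f ≠ 0 := by
  intro h0
  have := sub_out U f
  rw [h0, sub_zero] at this
  exact h this

/-- `p a + q b + r c ≥ N`. -/
def lin (p q r N : ℕ) : Up :=
  ⟨fun a b c => N ≤ p * a + q * b + r * c, by intro a b c a' b' c' h; nlinarith [Nat.zero_le (p * a'), Nat.zero_le (q * b'), Nat.zero_le (r * c')]⟩

theorem pow_mem_lin {p q r : ℕ} {t : MvPolynomial (Fin 3) k} (ht : t ∈ M k (lin p q r 1))
    (N : ℕ) : t ^ N ∈ M k (lin p q r N) := by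
  induction N with
  | zero => intro d _; exact Nat.zero_le _
  | succ N ih =>
    rw [pow_succ]
    refine mul_mem_M ?_ ih ht
    intro a b c a' b' c' h1 h2
    simp only [lin] at h1 h2 ⊢
    nlinarith

theorem sat {p q r N : ℕ} {U : Up} (h1 : ∀ a b c, N ≤ p * a + q * b + r * c → U.P a b c)
    (h2 : ∀ a b c a' b' c', p * a' + q * b' + r * c' = 0 →
      U.P (a' + a) (b' + b) (c' + c) → U.P a b c)
    {s f : MvPolynomial (Fin 3) k} (hs : s ∉ M k (lin p q r 1)) (h : s * f ∈ M k U) :
    f ∈ M k U := by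
  by_contra hf
  set s' := out (lin p q r 1) s
  set f' := out U f
  have hs' : s' ≠ 0 := out_ne hs
  have hf' : f' ≠ 0 := out_ne hf
  have e1 : (s' - s) ^ N ∈ M k U := by
    have := (M k (lin p q r 1)).neg_mem (sub_out _ s)
    rw [neg_sub] at this
    exact M_le h1 (pow_mem_lin this N)
  obtain ⟨w, hw⟩ := sub_dvd_pow_sub_pow s' (s' - s) N
  rw [sub_sub_cancel] at hw
  have e2 : s' ^ N * f ∈ M k U := by
    have : s' ^ N * f = (s' - s) ^ N * f + w * (s * f) := by linear_combination f * hw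
    rw [this]
    exact Ideal.add_mem _ (Ideal.mul_mem_right _ _ e1) (Ideal.mul_mem_left _ _ h)
  have e3 : s' ^ N * f' ∈ M k U := by
    have : s' ^ N * f' = s' ^ N * f - s' ^ N * (f - f') := by ring
    rw [this]
    exact Ideal.sub_mem _ e2 (Ideal.mul_mem_left _ _ (sub_out U f))
  let m : MonomialOrder (Fin 3) := MonomialOrder.lex
  have e4 := e3 _ (m.degree_mem_support (mul_ne_zero (pow_ne_zero N hs') hf'))
  rw [m.degree_mul (pow_ne_zero N hs') hf', m.degree_pow] at e4
  have e5 := supp_out (m.degree_mem_support hs')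
  have e6 := supp_out (m.degree_mem_support hf')
  apply e6
  refine h2 _ _ _ (N * m.degree s' 0) (N * m.degree s' 1) (N * m.degree s' 2) ?_ ?_
  · have : p * m.degree s' 0 + q * m.degree s' 1 + r * m.degree s' 2 = 0 := by
      have e7 : ¬ 1 ≤ p * m.degree s' 0 + q * m.degree s' 1 + r * m.degree s' 2 := e5
      omega
    calc _ = N * (p * m.degree s' 0 + q * m.degree s' 1 + r * m.degree s' 2) := by ring
      _ = 0 := by rw [this, mul_zero]
  · simpa [Up.at] using e4

theorem lin_prime (p q r : ℕ) : (M k (lin p q r 1)).IsPrime := by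
  constructor
  · intro h
    have : mo k 0 0 0 ∈ M k (lin p q r 1) := by rw [h]; trivial
    rw [mo_mem] at this
    simp [lin] at this
  · intro s f h
    by_cases hs : s ∈ M k (lin p q r 1)
    · exact Or.inl hs
    · refine Or.inr (sat (N := 1) (fun a b c h => h) ?_ hs h)
      intro a b c a' b' c' h1 h2
      simp only [lin] at h2 ⊢
      nlinarith

end Pool.Agent.H29.Mon3
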