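import Mathlib

set_option autoImplicit false

open Cardinal

namespace Pool.Agent.H29.Om

def Om : Type := (aleph 1).ord.ToType

noncomputable instance : LinearOrder Om := inferInstanceAs (LinearOrder (aleph 1).ord.ToType)

instance : WellFoundedLT Om := inferInstanceAs (WellFoundedLT (aleph 1).ord.ToType)

theorem mk_Om : #Om = aleph 1 := by simp [Om]

theorem Iic_countable (a : Om) : (Set.Iic a).Countable := by
  have h : #(Set.Iio a) < aleph 1 := mk_Iio_toType_ord_lt (c := aleph 1) a
  have h2 : (Set.Iio a).Countable := (countable_iff_lt_aleph_one _).2 h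
  rw [← Set.Iio_insert]
  exact h2.insert a

theorem exists_gt {S : Set Om} (hS : S.Countable) : ∃ b, ∀ a ∈ S, a < b := by
  have h1 : (⋃ a ∈ S, Set.Iic a).Countable := hS.biUnion fun a _ => Iic_countable a
  by_contra hc
  push Not at hc
  have : (⋃ a ∈ S, Set.Iic a) = Set.univ := by
    ext b
    simp only [Set.mem_iUnion, Set.mem_Iic, Set.mem_univ, iff_true]
    obtain ⟨a, ha, hb⟩ := hc b
    exact ⟨a, ha, hb⟩
  rw [this, countable_iff_lt_aleph_one, mk_univ, mk_Om] at h1
  exact lt_irrefl _ h1

instance : Nonempty Om := by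
  obtain ⟨b, -⟩ := exists_gt Set.countable_empty
  exact ⟨b⟩

end Pool.Agent.H29.Om
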