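import Mathlib

set_option autoImplicit false
open Finset Filter Topology

namespace Pool.Agent.H29.OpenMul

noncomputable def W : ℕ → ℝ
  | 0 => 0
  | k + 1 => W k + (40 * W k + 2 ^ k) ^ 2

noncomputable def w (k : ℕ) : ℝ := 40 * W k + 2 ^ k

lemma W_nonneg (k : ℕ) : 0 ≤ W k := by
  induction k with
  | zero => exact le_rfl
  | succ k ih => simp only [W]; positivity

lemma w_ge (k : ℕ) : 2 ^ k ≤ w k := by have := W_nonneg k; unfold w; linarith
lemma one_le_w (k : ℕ) : 1 ≤ w k := (one_le_pow₀ (by norm_num)).trans (w_ge k)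
lemma w_pos (k : ℕ) : 0 < w k := by linarith [one_le_w k]
lemma w_ne (k : ℕ) : (w k : ℂ) ≠ 0 := by exact_mod_cast (w_pos k).ne'
lemma w_zero : w 0 = 1 := by simp [w, W]
lemma W_succ (k : ℕ) : W (k + 1) = W k + w k ^ 2 := rfl
lemma W_mono : Monotone W := monotone_nat_of_le_succ fun k => by rw [W_succ]; nlinarith [sq_nonneg (w k)]
lemma norm_w (k : ℕ) : ‖(w k : ℂ)‖ = w k := by simp [abs_of_pos (w_pos k)]

abbrev P : Type := Option (ℕ × Fin 3)

noncomputable def u (f : P → ℂ) (k : ℕ) (i : Fin 3) : ℂ := w k * (f (some (k, i)) - f none)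

noncomputable def l (f : P → ℂ) (k : ℕ) : ℂ :=
  w k * (u f k 0 + u f k 1) - w (k + 1) * (u f (k + 1) 0 - u f (k + 1) 1)

noncomputable def n (f : P → ℂ) (k : ℕ) : ℝ := 2 * (‖u f k 0‖ + ‖u f k 1‖ + ‖u f k 2‖) + ‖l f k‖

lemma n_nonneg (f : P → ℂ) (k : ℕ) : 0 ≤ n f k := by unfold n; positivity

lemma u_add (f g : P → ℂ) (k : ℕ) (i : Fin 3) : u (f + g) k i = u f k i + u g k i := by
  simp only [u, Pi.add_apply]; ring
lemma u_smul (c : ℂ) (f : P → ℂ) (k : ℕ) (i : Fin 3) : u (c • f) k i = c * u f k i := by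
  simp only [u, Pi.smul_apply, smul_eq_mul]; ring
lemma l_add (f g : P → ℂ) (k : ℕ) : l (f + g) k = l f k + l g k := by
  simp only [l, u_add]; ring
lemma l_smul (c : ℂ) (f : P → ℂ) (k : ℕ) : l (c • f) k = c * l f k := by
  simp only [l, u_smul]; ring

lemma n_add (f g : P → ℂ) (k : ℕ) : n (f + g) k ≤ n f k + n g k := by
  simp only [n, u_add, l_add]
  have := norm_add_le (u f k 0) (u g k 0)
  have := norm_add_le (u f k 1) (u g k 1)
  have := norm_add_le (u f k 2) (u g k 2)
  have := norm_add_le (l f k) (l g k)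
  linarith

lemma u_mul (f g : P → ℂ) (k : ℕ) (i : Fin 3) :
    u (f * g) k i = f none * u g k i + g none * u f k i + u f k i * u g k i / w k := by
  have := w_ne k
  simp only [u, Pi.mul_apply]; field_simp; ring

lemma l_mul (f g : P → ℂ) (k : ℕ) : l (f * g) k = f none * l g k + g none * l f k +
    (u f k 0 * u g k 0 + u f k 1 * u g k 1 -
      (u f (k + 1) 0 * u g (k + 1) 0 - u f (k + 1) 1 * u g (k + 1) 1)) := by
  have := w_ne k
  have := w_ne (k + 1)
  simp only [l, u_mul]; field_simp; ring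

noncomputable def pp (f g : P → ℂ) (k : ℕ) : ℝ :=
  ‖u f k 0‖ * ‖u g k 0‖ + ‖u f k 1‖ * ‖u g k 1‖ + ‖u f k 2‖ * ‖u g k 2‖

lemma pp_le (f g : P → ℂ) (k : ℕ) : 4 * pp f g k ≤ n f k * n g k := by
  unfold pp n
  have a0 := norm_nonneg (u f k 0)
  have a1 := norm_nonneg (u f k 1)
  have a2 := norm_nonneg (u f k 2)
  have b0 := norm_nonneg (u g k 0)
  have b1 := norm_nonneg (u g k 1)
  have b2 := norm_nonneg (u g k 2)
  have c := norm_nonneg (l f k)
  have d := norm_nonneg (l g k)
  have : (2 * (‖u f k 0‖ + ‖u f k 1‖ + ‖u f k 2‖)) * (2 * (‖u g k 0‖ + ‖u g k 1‖ + ‖u g k 2‖)) ≤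
      (2 * (‖u f k 0‖ + ‖u f k 1‖ + ‖u f k 2‖) + ‖l f k‖) *
      (2 * (‖u g k 0‖ + ‖u g k 1‖ + ‖u g k 2‖) + ‖l g k‖) :=
    mul_le_mul (by linarith) (by linarith) (by positivity) (by positivity)
  nlinarith [mul_nonneg a0 b1, mul_nonneg a0 b2, mul_nonneg a1 b0, mul_nonneg a1 b2,
    mul_nonneg a2 b0, mul_nonneg a2 b1]

lemma n_mul (f g : P → ℂ) (k : ℕ) :
    n (f * g) k ≤ ‖f none‖ * n g k + ‖g none‖ * n f k + (3 * pp f g k + pp f g (k + 1)) := by
  have hu : ∀ i, ‖u (f * g) k i‖ ≤ ‖f none‖ * ‖u g k i‖ + ‖g none‖ * ‖u f k i‖ + ‖u f k i‖ * ‖u g k i‖ := by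
    intro i
    rw [u_mul]
    refine norm_add₃_le.trans (add_le_add (by simp) ?_)
    rw [norm_div, norm_mul, norm_w]
    exact div_le_self (by positivity) (one_le_w k)
  have hl : ‖l (f * g) k‖ ≤ ‖f none‖ * ‖l g k‖ + ‖g none‖ * ‖l f k‖ +
      (‖u f k 0‖ * ‖u g k 0‖ + ‖u f k 1‖ * ‖u g k 1‖ +
      (‖u f (k + 1) 0‖ * ‖u g (k + 1) 0‖ + ‖u f (k + 1) 1‖ * ‖u g (k + 1) 1‖)) := by
    rw [l_mul]
    refine norm_add₃_le.trans (add_le_add (by simp) ((norm_sub_le _ _).trans (add_le_add
      ((norm_add_le _ _).trans (by simp)) ((norm_sub_le _ _).trans (by simp)))))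
  have h0 := hu 0
  have h1 := hu 1
  have h2 := hu 2
  have e1 : 0 ≤ ‖u f k 2‖ * ‖u g k 2‖ := by positivity
  have e2 : 0 ≤ ‖u f (k + 1) 2‖ * ‖u g (k + 1) 2‖ := by positivity
  unfold n pp
  linarith

lemma mul_bound {f g : P → ℂ} (hf : Summable (n f)) (hg : Summable (n g)) :
    Summable (n (f * g)) ∧ ∑' k, n (f * g) k ≤
      ‖f none‖ * ∑' k, n g k + ‖g none‖ * ∑' k, n f k + (∑' k, n f k) * ∑' k, n g k := by
  have h0 : ∀ k, 0 ≤ pp f g k := fun k => by unfold pp; positivity
  have h1 : ∀ k, pp f g k ≤ n f k * ((∑' k, n g k) / 4) := fun k => by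
    have := pp_le f g k
    have := mul_le_mul_of_nonneg_left (hg.le_tsum k fun j _ => n_nonneg g j) (n_nonneg f k)
    linarith
  have hp : Summable (pp f g) := (hf.mul_right _).of_nonneg_of_le h0 h1
  have hp' : Summable fun k => pp f g (k + 1) := (summable_nat_add_iff 1).2 hp
  have hs : Summable fun k => ‖f none‖ * n g k + ‖g none‖ * n f k + (3 * pp f g k + pp f g (k + 1)) :=
    ((hg.mul_left _).add (hf.mul_left _)).add ((hp.mul_left 3).add hp')
  have hm := hs.of_nonneg_of_le (n_nonneg _) (n_mul f g)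
  refine ⟨hm, (hm.tsum_le_tsum (n_mul f g) hs).trans ?_⟩
  rw [((hg.mul_left _).add (hf.mul_left _)).tsum_add ((hp.mul_left 3).add hp'),
    (hg.mul_left _).tsum_add (hf.mul_left _), (hp.mul_left 3).tsum_add hp', tsum_mul_left,
    tsum_mul_left, tsum_mul_left]
  have h2 := hp.tsum_le_tsum h1 (hf.mul_right _)
  rw [tsum_mul_right] at h2
  have h3 := hp.tsum_eq_zero_add
  have := h0 0
  linarith

lemma n_const (c : ℂ) (k : ℕ) : n (fun _ => c) k = 0 := by simp [n, l, u]

noncomputable def S : Subalgebra ℂ (P → ℂ) where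
  carrier := {f | Summable (n f)}
  mul_mem' hf hg := (mul_bound hf hg).1
  add_mem' hf hg := (Summable.add hf hg).of_nonneg_of_le (n_nonneg _) (n_add _ _)
  algebraMap_mem' c := by
    have : n (algebraMap ℂ (P → ℂ) c) = fun _ => 0 := funext fun k => n_const c k
    change Summable _
    rw [this]; exact summable_zero

def A : Type := S

noncomputable instance : CommRing A := inferInstanceAs (CommRing S)
noncomputable instance : Algebra ℂ A := inferInstanceAs (Algebra ℂ S)

abbrev V : Type := PiLp 1 fun _ : Fin 4 => ℂ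
abbrev E : Type := WithLp 1 (ℂ × lp (fun _ : ℕ => V) 1)

noncomputable def v (f : P → ℂ) (k : ℕ) : V := WithLp.toLp 1 ![2 * u f k 0, 2 * u f k 1, 2 * u f k 2, l f k]

lemma norm_v (f : P → ℂ) (k : ℕ) : ‖v f k‖ = n f k := by
  rw [PiLp.norm_eq_of_L1, Fin.sum_univ_four]
  simp [v, n]; ring

noncomputable def J : A →ₗ[ℂ] E where
  toFun f := WithLp.toLp 1 (f.1 none, ⟨v f.1, memℓp_gen (by
    have h : Summable (n f.1) := f.2
    simp only [norm_v, ENNReal.toReal_one, Real.rpow_one]
    exact h)⟩)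
  map_add' f g := by
    rw [← WithLp.toLp_add]; congr 1
    refine Prod.ext rfl (Subtype.ext (funext fun k => ?_))
    change v (f.1 + g.1) k = v f.1 k + v g.1 k
    ext i; fin_cases i <;> simp [v, u_add, l_add, mul_add]
  map_smul' c f := by
    rw [← WithLp.toLp_smul]; congr 1
    refine Prod.ext rfl (Subtype.ext (funext fun k => ?_))
    change v (c • f.1) k = c • v f.1 k
    ext i; fin_cases i <;> simp [v, u_smul, l_smul] <;> ring

lemma norm_J (f : A) : ‖J f‖ = ‖f.1 none‖ + ∑' k, n f.1 k := by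
  rw [WithLp.prod_norm_eq_of_L1, lp.norm_eq_tsum_rpow (by simp)]
  simp [J, norm_v]

lemma J_inj : Function.Injective J := by
  rw [injective_iff_map_eq_zero]
  intro f hf
  have h := norm_J f
  rw [hf, norm_zero] at h
  have h0 : 0 ≤ ∑' k, n f.1 k := tsum_nonneg (n_nonneg _)
  have h1 : f.1 none = 0 := norm_eq_zero.1 (by linarith [norm_nonneg (f.1 none)])
  refine Subtype.ext (funext fun p => ?_)
  rcases p with _ | ⟨k, i⟩
  · exact h1
  have h2 : n f.1 k ≤ 0 := ((f.2 : Summable (n f.1)).le_tsum k fun j _ => n_nonneg _ j).trans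
    (by linarith [norm_nonneg (f.1 none)])
  have h3 : ‖u f.1 k i‖ ≤ 0 := by
    have a0 := norm_nonneg (u f.1 k 0)
    have a1 := norm_nonneg (u f.1 k 1)
    have a2 := norm_nonneg (u f.1 k 2)
    have a3 := norm_nonneg (l f.1 k)
    unfold n at h2
    fin_cases i <;> simp only [Fin.zero_eta, Fin.mk_one, Fin.reduceFinMk] <;> linarith
  have h4 := norm_le_zero_iff.1 h3
  rw [u, h1, sub_zero] at h4
  exact (mul_eq_zero.1 h4).resolve_left (w_ne k)

noncomputable instance : NormedAddCommGroup A := NormedAddCommGroup.induced A E J J_inj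

lemma norm_A (f : A) : ‖f‖ = ‖f.1 none‖ + ∑' k, n f.1 k := norm_J f

noncomputable instance : NormedCommRing A :=
  { (inferInstance : NormedAddCommGroup A), (inferInstance : CommRing A) with
    norm_mul_le := fun f g => by
      rw [norm_A, norm_A, norm_A]
      have := (mul_bound f.2 g.2).2
      have e : ‖(f * g).1 none‖ = ‖f.1 none‖ * ‖g.1 none‖ := norm_mul _ _
      change _ + ∑' k, n (f.1 * g.1) k ≤ _
      rw [e]; nlinarith }

noncomputable instance : NormedAlgebra ℂ A :=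
  { (inferInstance : Algebra ℂ A) with
    norm_smul_le := fun c f => by
      change ‖J (c • f)‖ ≤ ‖c‖ * ‖J f‖
      rw [map_smul, norm_smul] }

instance : NormOneClass A := ⟨by
  rw [norm_A]
  have : n (1 : A).1 = fun _ => 0 := funext fun k => n_const 1 k
  rw [this]
  change ‖(1:ℂ)‖ + _ = _
  simp⟩

instance : CompleteSpace A := by
  have hi : Isometry J := AddMonoidHomClass.isometry_of_norm J fun _ => rfl
  rw [completeSpace_iff_isComplete_range hi.isUniformInducing]
  apply IsClosed.isComplete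
  have : Set.range J = {e : E | ∀ k, e.snd k 3 = w k / 2 * (e.snd k 0 + e.snd k 1) -
      w (k + 1) / 2 * (e.snd (k + 1) 0 - e.snd (k + 1) 1)} := by
    ext e
    constructor
    · rintro ⟨f, rfl⟩ k
      change v f.1 k 3 = w k / 2 * (v f.1 k 0 + v f.1 k 1) - w (k + 1) / 2 * (v f.1 (k + 1) 0 - v f.1 (k + 1) 1)
      simp [v, l]; ring
    · intro h
      let f : P → ℂ := fun p => match p with
        | none => e.fst
        | some (k, i) => e.fst + e.snd k i.castSucc / (2 * w k)
      have hu : ∀ k i, u f k i = e.snd k i.castSucc / 2 := by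
        intro k i
        have := w_ne k
        simp only [u, f]; field_simp; ring
      have hv : ∀ k, v f k = e.snd k := by
        intro k
        ext i; fin_cases i
        · simp [v, hu]; ring
        · simp [v, hu]; ring
        · simp [v, hu]; ring_nf
        · simp [v, hu, l, h k]; ring
      have hs : Summable (n f) := by
        have := (memℓp_gen_iff (p := 1) (by simp)).1 (lp.memℓp e.snd)
        simpa [← hv, norm_v] using this
      refine ⟨⟨f, hs⟩, ?_⟩
      apply (WithLp.equiv 1 _).injective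
      exact Prod.ext rfl (Subtype.ext (funext hv))
  rw [this, Set.ofPred_forall]
  have hc : ∀ k i, Continuous fun e : E => e.snd k i := fun k i =>
    (PiLp.continuous_apply 1 _ i).comp ((lp.lipschitzWith_one_eval 1 k).continuous.comp
      (WithLp.continuous_snd 1 _ _))
  refine isClosed_iInter fun k => ?_
  have h1 := (continuous_const (y := ((w k : ℂ) / 2))).mul ((hc k 0).add (hc k 1))
  have h2 := (continuous_const (y := ((w (k + 1) : ℂ) / 2))).mul ((hc (k + 1) 0).sub (hc (k + 1) 1))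
  exact isClosed_eq (hc k 3) (h1.sub h2)

end Pool.Agent.H29.OpenMul
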