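import Pool.Agent.H29.OpenMul1

set_option autoImplicit false
open Finset Filter Topology

namespace Pool.Agent.H29.OpenMul

lemma summable_of_fin {f : P → ℂ} {K : ℕ} (h : ∀ k i, K ≤ k → u f k i = 0) : Summable (n f) := by
  refine summable_of_ne_finset_zero (s := range K) fun k hk => ?_
  have hk' : K ≤ k := by simpa using hk
  simp [n, l, h k _ hk', h (k + 1) _ (by omega)]

noncomputable def e (p : ℕ × Fin 3) : A := ⟨Pi.single (some p) 1, summable_of_fin (K := p.1 + 1)
  fun k i hk => by
    have : (some (k, i) : P) ≠ some p := fun h => by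
      have := congrArg Prod.fst (Option.some.inj h); simp at this; omega
    simp [u, Pi.single_eq_of_ne this]⟩

lemma e_idem (p : ℕ × Fin 3) : IsIdempotentElem (e p) := by
  refine Subtype.ext (funext fun q => ?_)
  change (Pi.single (some p) 1 : P → ℂ) q * (Pi.single (some p) 1 : P → ℂ) q = (Pi.single (some p) 1 : P → ℂ) q
  by_cases h : q = some p
  · simp [h]
  · simp [Pi.single_eq_of_ne h]

noncomputable def ev (p : P) : A →ₐ[ℂ] ℂ := (Pi.evalAlgHom ℂ (fun _ : P => ℂ) p).comp S.val

lemma ev_apply (p : P) (f : A) : ev p f = f.1 p := rfl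

lemma ev_ext {f g : A} (h : ∀ q, ev q f = ev q g) : f = g := Subtype.ext (funext h)

lemma mem_span {h : A} {K : ℕ} (hh : ∀ k i, K ≤ k → u h.1 k i = 0) :
    h ∈ Submodule.span ℂ {x : A | IsIdempotentElem x} := by
  have : h = h.1 none • (1 : A) +
      ∑ p ∈ range K ×ˢ (univ : Finset (Fin 3)), (h.1 (some p) - h.1 none) • e p := by
    refine ev_ext fun q => ?_
    simp only [map_add, map_smul, map_one, map_sum, ev_apply, e, smul_eq_mul, mul_one]
    rcases q with _ | ⟨k, i⟩
    · simp
    rcases lt_or_ge k K with hk | hk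
    · rw [sum_eq_single (k, i)]
      · simp
      · intro b _ hb
        rw [Pi.single_eq_of_ne (fun h => hb (Option.some.inj h).symm), mul_zero]
      · intro hn; exact absurd (by simpa using hk) hn
    · have h0 := hh k i hk
      rw [u, mul_eq_zero, sub_eq_zero] at h0
      rw [sum_eq_zero, add_zero, h0.resolve_left (w_ne k)]
      intro b hb
      rw [Pi.single_eq_of_ne, mul_zero]
      intro h
      have h1 := Option.some.inj h
      subst h1
      simp at hb; omega
  rw [this]
  exact Submodule.add_mem _ (Submodule.smul_mem _ _ (Submodule.subset_span IsIdempotentElem.one))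
    (Submodule.sum_mem _ fun p _ => Submodule.smul_mem _ _ (Submodule.subset_span (e_idem p)))

noncomputable def mk (U : ℕ → Fin 3 → ℂ) : P → ℂ
  | none => 0
  | some (k, i) => U k i / w k

lemma u_mk (U : ℕ → Fin 3 → ℂ) (k : ℕ) (i : Fin 3) : u (mk U) k i = U k i := by
  have := w_ne k
  simp only [u, mk]; field_simp; ring

noncomputable def tl (f : P → ℂ) (K : ℕ) : P → ℂ := mk fun k i =>
  if k < K then 0 else if k = K ∧ i ≠ 2 then (u f k 0 + u f k 1) / 2 else u f k i

lemma n_tl (f : P → ℂ) (K k : ℕ) : n (tl f K) k ≤ if k < K then 0 else n f k := by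
  simp only [n, l, tl, u_mk]
  rcases lt_trichotomy k K with h | h | h
  · rcases (Nat.succ_le_of_lt h).lt_or_eq with h' | h'
    · simp [h, show k + 1 < K from h']
    · simp [h, show k + 1 = K from h']
  · subst h
    have := norm_add_le (u f k 0) (u f k 1)
    simp only [lt_irrefl, if_false, true_and, show ¬ (k + 1 < k) by omega, show k + 1 ≠ k by omega,
      false_and, show (0 : Fin 3) ≠ 2 by decide, show (1 : Fin 3) ≠ 2 by decide, ne_eq,
      not_true_eq_false, not_false_eq_true, if_true, add_halves, norm_div, Complex.norm_ofNat]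
    linarith
  · simp [show ¬ k < K by omega, show ¬ k + 1 < K by omega, show k ≠ K by omega,
      show k + 1 ≠ K by omega]

lemma dense_idem : Dense (Submodule.span ℂ {x : A | IsIdempotentElem x} : Set A) := by
  intro f
  have hf : Summable (n f.1) := f.2
  have hs : ∀ K, Summable fun k => if k < K then 0 else n f.1 k := fun K =>
    hf.of_nonneg_of_le (fun k => by split_ifs; exacts [le_rfl, n_nonneg _ _])
      (fun k => by split_ifs; exacts [n_nonneg _ _, le_rfl])
  have ht : ∀ K, Summable (n (tl f.1 K)) := fun K => (hs K).of_nonneg_of_le (n_nonneg _) (n_tl _ K)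
  let g : ℕ → A := fun K => ⟨tl f.1 K, ht K⟩
  have hg : Tendsto g atTop (𝓝 0) := by
    refine squeeze_zero_norm (fun K => ?_) (tendsto_sum_nat_add (n f.1))
    rw [norm_A]
    change ‖(0:ℂ)‖ + ∑' k, n (tl f.1 K) k ≤ _
    rw [norm_zero, zero_add]
    refine ((ht K).tsum_le_tsum (n_tl _ K) (hs K)).trans_eq ?_
    rw [← (hs K).sum_add_tsum_nat_add K, sum_eq_zero (fun k hk => if_pos (mem_range.1 hk)), zero_add]
    simp
  have h2 : Tendsto (fun K => f - g K) atTop (𝓝 f) := by simpa using tendsto_const_nhds.sub hg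
  refine mem_closure_of_tendsto h2 (Eventually.of_forall fun K => mem_span (K := K + 1) fun k i hk => ?_)
  have : (f - g K).1 = f.1 + (-1 : ℂ) • tl f.1 K := by
    change f.1 - tl f.1 K = _; simp [sub_eq_add_neg]
  rw [this, u_add, u_smul, tl, u_mk, if_neg (by omega), if_neg (by omega)]; ring

lemma zero_dim {B : Type} [NormedCommRing B] [NormedAlgebra ℂ B] [CompleteSpace B]
    (h : Dense (Submodule.span ℂ {x : B | IsIdempotentElem x} : Set B)) :
    TopologicalSpace.IsTopologicalBasis {s : Set (WeakDual.characterSpace ℂ B) | IsClopen s} := by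
  have : TotallySeparatedSpace (WeakDual.characterSpace ℂ B) := by
    refine totallySeparatedSpace_iff_exists_isClopen.2 fun φ ψ hne => ?_
    have : ∃ x : B, IsIdempotentElem x ∧ φ x ≠ ψ x := by
      by_contra hc
      push Not at hc
      apply hne
      have h1 : Set.EqOn φ ψ (Submodule.span ℂ {x : B | IsIdempotentElem x} : Set B) := by
        intro x hx
        induction hx using Submodule.span_induction with
        | mem x hx => exact hc x hx
        | zero => simp
        | add x y _ _ a b => rw [map_add, map_add, a, b]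
        | smul c x _ a => rw [map_smul, map_smul, a]
      exact DFunLike.coe_injective
        (Continuous.ext_on h (map_continuous φ) (map_continuous ψ) h1)
    obtain ⟨x, hx, hne⟩ := this
    have hv : ∀ χ : WeakDual.characterSpace ℂ B, χ x = 0 ∨ χ x = 1 := fun χ =>
      IsIdempotentElem.iff_eq_zero_or_one.1 (hx.map χ)
    have hc : Continuous fun χ : WeakDual.characterSpace ℂ B => χ x :=
      (WeakDual.eval_continuous x).comp continuous_subtype_val
    refine ⟨{χ | χ x = φ x}, ⟨isClosed_eq hc continuous_const, ?_⟩, rfl, fun h => hne h.symm⟩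
    have : {χ : WeakDual.characterSpace ℂ B | χ x = φ x} = {χ | χ x ≠ ψ x} := by
      ext χ
      rcases hv χ with a | a <;> rcases hv φ with b | b <;> rcases hv ψ with c | c <;>
        simp_all
    rw [this]
    exact isOpen_ne_fun hc continuous_const
  exact isTopologicalBasis_isClopen

noncomputable def inn (f : P → ℂ) (k : ℕ) : ℂ := w k * (u f k 0 - u f k 1)
noncomputable def out (f : P → ℂ) (k : ℕ) : ℂ := w k * (u f k 0 + u f k 1)

lemma key {x y : P → ℂ} (hx0 : 9 / 10 ≤ ‖inn x 0‖) (hy0 : 9 / 10 ≤ ‖inn y 0‖)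
    (hxl : ∀ k, ∑ j ∈ range k, ‖l x j‖ ≤ 1 / 10) (hyl : ∀ k, ∑ j ∈ range k, ‖l y j‖ ≤ 1 / 10)
    (hxu : ∀ k i, ‖u x k i‖ ≤ 2) (hy : y none = 0) (hx : x none ≠ 0)
    (hxy : ∀ k i, i ≠ 2 → x (some (k, i)) * y (some (k, i)) = 0) : False := by
  have hz : ∀ k i, i ≠ 2 → u y k i ≠ 0 → u x k i = -(w k * x none) := by
    intro k i hi h
    have h1 : y (some (k, i)) ≠ 0 := fun h' => h (by simp [u, h', hy])
    have h2 := (mul_eq_zero.1 (hxy k i hi)).resolve_right h1
    simp [u, h2]
  have hb : ∀ k i, i ≠ 2 → u y k i ≠ 0 → w k * ‖x none‖ ≤ 2 := by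
    intro k i hi h
    have := hxu k i
    rwa [hz k i hi h, norm_neg, norm_mul, norm_w] at this
  have hα : 0 < ‖x none‖ := norm_pos_iff.2 hx
  have hne : ∀ k, inn y k ≠ 0 → w k * ‖x none‖ ≤ 2 := by
    intro k h
    by_cases h0 : u y k 0 = 0
    · refine hb k 1 (by decide) fun h1 => h ?_
      simp [inn, h0, h1]
    · exact hb k 0 (by decide) h0
  have main : ∀ k, 9 / 10 - ∑ j ∈ range k, ‖l y j‖ ≤ ‖inn y k‖ ∧
      9 / 10 - ∑ j ∈ range k, ‖l x j‖ - 2 * ‖x none‖ * W k ≤ ‖inn x k‖ := by
    intro k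
    induction k with
    | zero => simpa [W] using ⟨hy0, hx0⟩
    | succ k ih =>
      obtain ⟨iy, ix⟩ := ih
      have y0 : inn y k ≠ 0 := norm_pos_iff.1 (by linarith [hyl k])
      have h1 := hne k y0
      have h2 : 40 * W k ≤ w k := by unfold w; linarith [show (0:ℝ) < 2 ^ k by positivity]
      have x0 : inn x k ≠ 0 := norm_pos_iff.1 (by nlinarith [hxl k])
      have ey : inn y (k + 1) = out y k - l y k := by simp only [inn, out, l]; ring
      have ex : inn x (k + 1) = out x k - l x k := by simp only [inn, out, l]; ring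
      have ny := norm_sub_norm_le (out y k) (l y k)
      have nx := norm_sub_norm_le (out x k) (l x k)
      have hw : ‖(2 * (w k : ℂ) * (w k * x none))‖ = 2 * ‖x none‖ * w k ^ 2 := by
        rw [norm_mul, norm_mul, norm_mul, norm_w, Complex.norm_ofNat]; ring
      have goal : ‖out y k‖ = ‖inn y k‖ ∧ ‖inn x k‖ - 2 * ‖x none‖ * w k ^ 2 ≤ ‖out x k‖ := by
        by_cases h0 : u y k 0 = 0
        · have h1 : u y k 1 ≠ 0 := fun h1 => y0 (by simp [inn, h0, h1])
          have h3 := hz k 1 (by decide) h1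
          refine ⟨by simp [out, inn, h0], ?_⟩
          have : out x k = inn x k - 2 * (w k : ℂ) * (w k * x none) := by
            simp only [out, inn, h3]; ring
          rw [this, ← hw]; exact norm_sub_norm_le _ _
        · have h3 := hz k 0 (by decide) h0
          have h1 : u y k 1 = 0 := by
            by_contra h1
            exact x0 (by simp [inn, h3, hz k 1 (by decide) h1])
          refine ⟨by simp [out, inn, h1], ?_⟩
          have : out x k = -(inn x k - (-(2 * (w k : ℂ) * (w k * x none)))) := by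
            simp only [out, inn, h3]; ring
          rw [this, norm_neg, ← hw, ← norm_neg (2 * (w k : ℂ) * (w k * x none))]
          exact norm_sub_norm_le _ _
      rw [sum_range_succ, sum_range_succ, W_succ, ey, ex]
      constructor <;> linarith [goal.1, goal.2]
  obtain ⟨k, hk⟩ := pow_unbounded_of_one_lt (2 / ‖x none‖) (show (1:ℝ) < 2 by norm_num)
  have h1 := hne k (norm_pos_iff.1 (by linarith [(main k).1, hyl k]))
  rw [div_lt_iff₀ hα] at hk
  nlinarith [w_ge k]

lemma sum_winv : Summable fun k => (w k)⁻¹ := by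
  refine summable_geometric_two.of_nonneg_of_le (fun k => (inv_pos.2 (w_pos k)).le) fun k => ?_
  rw [one_div, inv_pow]
  exact inv_anti₀ (by positivity) (w_ge k)

noncomputable def fa : P → ℂ := mk fun k i => if i = 0 then (w k : ℂ)⁻¹ else 0
noncomputable def fb : P → ℂ := mk fun k i => if i = 1 then (-1) ^ k * (w k : ℂ)⁻¹ else 0
noncomputable def fc : P → ℂ := mk fun k i => if i = 2 then (w k : ℂ)⁻¹ else 0

lemma l_fa (k : ℕ) : l fa k = 0 := by
  have := w_ne k
  have := w_ne (k + 1)
  simp [l, fa, u_mk, *]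
lemma l_fb (k : ℕ) : l fb k = 0 := by
  have := w_ne k
  have := w_ne (k + 1)
  simp only [l, fb, u_mk, pow_succ]
  simp; field_simp; ring
lemma l_fc (k : ℕ) : l fc k = 0 := by simp [l, fc, u_mk]

noncomputable def a : A := ⟨fa, (sum_winv.mul_left 2).congr fun k => by
  rw [n, l_fa]; simp [fa, u_mk, abs_of_pos (w_pos k)]⟩
noncomputable def b : A := ⟨fb, (sum_winv.mul_left 2).congr fun k => by
  rw [n, l_fb]; simp [fb, u_mk, abs_of_pos (w_pos k)]⟩
noncomputable def c : A := ⟨fc, (sum_winv.mul_left 2).congr fun k => by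
  rw [n, l_fc]; simp [fc, u_mk, abs_of_pos (w_pos k)]⟩

lemma ab : a * b = 0 := by
  refine Subtype.ext (funext fun q => ?_)
  change fa q * fb q = 0
  rcases q with _ | ⟨k, i⟩
  · simp [fa, mk]
  · fin_cases i <;> simp [fa, fb, mk]

lemma close {x f : A} (h : ‖x - f‖ < 1 / 10) (hl : ∀ k, l f.1 k = 0) (h0 : ‖inn f.1 0‖ = 1)
    (hu : ∀ k i, ‖u f.1 k i‖ ≤ 1) :
    9 / 10 ≤ ‖inn x.1 0‖ ∧ (∀ k, ∑ j ∈ range k, ‖l x.1 j‖ ≤ 1 / 10) ∧ ∀ k i, ‖u x.1 k i‖ ≤ 2 := by
  set d := x - f with hd
  have e : x.1 = f.1 + d.1 := by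
    change x.1 = f.1 + (x.1 - f.1); abel
  have hs : Summable (n d.1) := d.2
  rw [norm_A] at h
  have h1 : ∑' k, n d.1 k ≤ 1 / 10 := by linarith [norm_nonneg (d.1 none)]
  have h2 : ∀ k, n d.1 k ≤ 1 / 10 := fun k => (hs.le_tsum k fun j _ => n_nonneg _ j).trans h1
  refine ⟨?_, fun k => ?_, fun k i => ?_⟩
  · have : inn x.1 0 = inn f.1 0 - -(u d.1 0 0 - u d.1 0 1) := by
      simp only [inn, e, u_add, w_zero]; push_cast; ring
    rw [this]
    have h3 := norm_sub_norm_le (inn f.1 0) (-(u d.1 0 0 - u d.1 0 1))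
    have h4 := norm_sub_le (u d.1 0 0) (u d.1 0 1)
    have h5 := h2 0
    rw [norm_neg] at h3
    unfold n at h5
    linarith [norm_nonneg (u d.1 0 0), norm_nonneg (u d.1 0 1), norm_nonneg (u d.1 0 2),
      norm_nonneg (l d.1 0)]
  · refine le_trans (sum_le_sum fun j _ => ?_) ((hs.sum_le_tsum (range k) fun j _ => n_nonneg _ j).trans h1)
    rw [e, l_add, hl, zero_add]
    unfold n
    exact le_add_of_nonneg_left (by positivity)
  · rw [e, u_add]
    refine (norm_add_le _ _).trans ?_
    have h5 := h2 k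
    have h6 := hu k i
    have a0 := norm_nonneg (u d.1 k 0)
    have a1 := norm_nonneg (u d.1 k 1)
    have a2 := norm_nonneg (u d.1 k 2)
    have a3 := norm_nonneg (l d.1 k)
    unfold n at h5
    fin_cases i <;> simp only [Fin.zero_eta, Fin.mk_one, Fin.reduceFinMk] at h6 ⊢ <;> linarith

lemma winv_le (k : ℕ) : |w k|⁻¹ ≤ 1 := by
  rw [abs_of_pos (w_pos k)]; exact inv_le_one_of_one_le₀ (one_le_w k)

lemma not_prod {x y : A} (hx : ‖x - a‖ < 1 / 10) (hy : ‖y - b‖ < 1 / 10) {δ : ℂ} (hδ : δ ≠ 0) :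
    x * y ≠ δ • c := by
  intro h
  obtain ⟨x1, x2, x3⟩ := close hx l_fa (by simp [a, inn, fa, u_mk, w_zero])
    (fun k i => by
      change ‖u fa k i‖ ≤ 1
      rw [fa, u_mk]; split_ifs <;> simp [winv_le])
  obtain ⟨y1, y2, y3⟩ := close hy l_fb (by simp [b, inn, fb, u_mk, w_zero])
    (fun k i => by
      change ‖u fb k i‖ ≤ 1
      rw [fb, u_mk]; split_ifs <;> simp [winv_le])
  have hp : ∀ p, x.1 p * y.1 p = δ * fc p := fun p => congrArg (fun z : A => z.1 p) h
  have h0 : x.1 none * y.1 none = 0 := by rw [hp]; simp [fc, mk]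
  have hxy : ∀ k i, i ≠ 2 → x.1 (some (k, i)) * y.1 (some (k, i)) = 0 := by
    intro k i hi; rw [hp]; simp [fc, mk, hi]
  by_cases a0 : x.1 none = 0
  · by_cases b0 : y.1 none = 0
    · have h1 : ∀ k, ‖δ‖ ≤ 2 * n x.1 k := by
        intro k
        have := w_ne k
        have e : δ = u x.1 k 2 * u y.1 k 2 := by
          simp only [u, a0, b0, sub_zero]
          rw [mul_mul_mul_comm, hp]; simp only [fc, mk, if_true]; field_simp
        rw [e, norm_mul]
        have := y3 k 2
        have a0 := norm_nonneg (u x.1 k 0)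
        have a1 := norm_nonneg (u x.1 k 1)
        have a2 := norm_nonneg (u x.1 k 2)
        have a3 := norm_nonneg (l x.1 k)
        unfold n; nlinarith
      have h2 : Tendsto (fun k => 2 * n x.1 k) atTop (𝓝 (2 * 0)) :=
        (Summable.tendsto_atTop_zero (x.2 : Summable (n x.1))).const_mul 2
      have := ge_of_tendsto' h2 h1
      exact hδ (norm_le_zero_iff.1 (by linarith))
    · exact key y1 x1 y2 x2 y3 a0 b0 fun k i hi => by rw [mul_comm]; exact hxy k i hi
  · exact key x1 y1 x2 y2 x3 ((mul_eq_zero.1 h0).resolve_left a0) a0 hxy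

end Pool.Agent.H29.OpenMul
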