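import Mathlib

open Set

namespace Pool.Agent.H29.Ord1

variable {Γ : Type} [Group Γ]

/-- `P` is the positive cone of an order on the normal subgroup `N`, invariant under `Γ`. -/
structure ConeIn (N : Subgroup Γ) (P : Set Γ) : Prop where
  sub : ∀ g ∈ P, g ∈ N
  mul : ∀ g ∈ P, ∀ h ∈ P, g * h ∈ P
  conj : ∀ g ∈ P, ∀ t : Γ, t * g * t⁻¹ ∈ P
  tri : ∀ g ∈ N, g ≠ 1 → g ∈ P ∨ g⁻¹ ∈ P
  one : (1 : Γ) ∉ P

theorem ConeIn.not_inv {N : Subgroup Γ} {P : Set Γ} (h : ConeIn N P) {g : Γ} (hg : g ∈ P) :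
    g⁻¹ ∉ P := fun h' => h.one (by simpa using h.mul _ hg _ h')

theorem ConeIn.eq_of_subset {N : Subgroup Γ} {P Q : Set Γ} (h : ConeIn N P) (h' : ConeIn N Q)
    (hs : P ⊆ Q) : P = Q := by
  refine hs.antisymm fun g hg => ?_
  rcases h.tri g (h'.sub g hg) (by rintro rfl; exact h'.one hg) with h1 | h1
  · exact h1
  · exact absurd (hs h1) (h'.not_inv hg)

theorem ConeIn.comm {N : Subgroup Γ} {P : Set Γ} (h : ConeIn N P) {a b : Γ} (hab : a * b ∈ P) :
    b * a ∈ P := by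
  have := h.conj _ hab b
  rwa [← mul_assoc, mul_inv_cancel_right] at this

theorem orders_encard (G : Type) [Group G] :
    {r : G → G → Prop | IsLinearOrder G r ∧
      ∀ a b c d : G, r a b → r (c * a * d) (c * b * d)}.encard =
    {P : Set G | ConeIn ⊤ P}.encard := by
  refine Set.encard_congr (Set.BijOn.equiv (fun r => {g | r 1 g ∧ g ≠ 1}) ⟨?_, ?_, ?_⟩)
  · rintro r ⟨hr, hm⟩
    refine ⟨fun _ _ => trivial, ?_, ?_, ?_, fun h => h.2 rfl⟩
    · rintro g ⟨hg, hg1⟩ h ⟨hh, hh1⟩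
      have h1 : r g (g * h) := by simpa using hm _ _ g 1 hh
      refine ⟨_root_.trans hg h1, fun h0 => hg1 ?_⟩
      rw [h0] at h1
      exact antisymm h1 hg
    · rintro g ⟨hg, hg1⟩ t
      exact ⟨by simpa using hm _ _ t t⁻¹ hg, by simpa using hg1⟩
    · intro g _ hg1
      rcases total_of r 1 g with h | h
      · exact Or.inl ⟨h, hg1⟩
      · exact Or.inr ⟨by simpa using hm _ _ g⁻¹ 1 h, by simpa using hg1⟩
  · have key : ∀ r r' : G → G → Prop, IsLinearOrder G r' →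
        (∀ a b c d : G, r a b → r (c * a * d) (c * b * d)) →
        (∀ a b c d : G, r' a b → r' (c * a * d) (c * b * d)) →
        {g | r 1 g ∧ g ≠ 1} = {g | r' 1 g ∧ g ≠ 1} → ∀ a b, r a b → r' a b := by
      intro r r' hr' hm hm' h a b hab
      by_cases he : a = b
      · rw [he]; exact refl_of r' b
      have h1 : a⁻¹ * b ∈ {g | r 1 g ∧ g ≠ 1} :=
        ⟨by simpa using hm _ _ a⁻¹ 1 hab, fun h0 => he (inv_mul_eq_one.1 h0)⟩
      rw [h] at h1
      simpa using hm' _ _ a 1 h1.1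
    rintro r ⟨hr, hm⟩ r' ⟨hr', hm'⟩ h
    ext a b
    exact ⟨key r r' hr' hm hm' h a b, key r' r hr hm' hm h.symm a b⟩
  · intro P hP
    refine ⟨fun a b => a = b ∨ a⁻¹ * b ∈ P, ⟨?_, ?_⟩, ?_⟩
    · refine { refl := fun a => Or.inl rfl, trans := ?_, antisymm := ?_, total := ?_ }
      · rintro a b c (rfl | h1) (rfl | h2)
        · exact Or.inl rfl
        · exact Or.inr h2
        · exact Or.inr h1
        · exact Or.inr (by simpa [mul_assoc] using hP.mul _ h1 _ h2)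
      · rintro a b (rfl | h1) (h2 | h2)
        · rfl
        · rfl
        · exact h2.symm
        · exact absurd (by simpa using h2) (hP.not_inv h1)
      · intro a b
        by_cases he : a = b
        · exact Or.inl (Or.inl he)
        rcases hP.tri (a⁻¹ * b) trivial (fun h0 => he (inv_mul_eq_one.1 h0)) with h | h
        · exact Or.inl (Or.inr h)
        · exact Or.inr (Or.inr (by simpa using h))
    · rintro a b c d (rfl | h)
      · exact Or.inl rfl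
      · exact Or.inr (by simpa [mul_assoc] using hP.conj _ h d⁻¹)
    · ext g
      simp only [inv_one, one_mul, mem_ofPred_eq]
      constructor
      · rintro ⟨h | h, h1⟩
        · exact absurd h.symm h1
        · exact h
      · exact fun h => ⟨Or.inr h, by rintro rfl; exact hP.one h⟩

theorem cones_sub (N : Subgroup Γ)
    (hN : ∀ g ∈ N, ∀ t : Γ, ∃ t' ∈ N, t' * g * t'⁻¹ = t * g * t⁻¹) :
    {P : Set N | ConeIn ⊤ P}.encard = {P : Set Γ | ConeIn N P}.encard := by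
  refine Set.encard_congr (Set.BijOn.equiv (fun P => Subtype.val '' P) ⟨?_, ?_, ?_⟩)
  · intro P hP
    refine ⟨?_, ?_, ?_, ?_, ?_⟩
    · rintro _ ⟨g, -, rfl⟩; exact g.2
    · rintro _ ⟨g, hg, rfl⟩ _ ⟨h, hh, rfl⟩; exact ⟨_, hP.mul g hg h hh, rfl⟩
    · rintro _ ⟨g, hg, rfl⟩ t
      obtain ⟨t', ht', h⟩ := hN g g.2 t
      exact ⟨_, hP.conj g hg ⟨t', ht'⟩, h⟩
    · intro g hg hg1
      rcases hP.tri ⟨g, hg⟩ trivial (fun h => hg1 (congrArg Subtype.val h)) with h | h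
      · exact Or.inl ⟨_, h, rfl⟩
      · exact Or.inr ⟨_, h, rfl⟩
    · rintro ⟨g, hg, h⟩
      have : g = 1 := Subtype.ext h
      exact hP.one (this ▸ hg)
  · exact fun P _ Q _ h => Subtype.val_injective.image_injective h
  · intro P hP
    refine ⟨Subtype.val ⁻¹' P, ⟨fun _ _ => trivial, fun g hg h hh => hP.mul _ hg _ hh,
      fun g hg t => hP.conj _ hg t, fun g _ hg1 => hP.tri g g.2 fun h => hg1 (Subtype.ext h),
      hP.one⟩, ?_⟩
    ext g
    exact ⟨by rintro ⟨x, hx, rfl⟩; exact hx, fun hg => ⟨⟨g, hP.sub g hg⟩, hg, rfl⟩⟩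

variable {X : Type} [LinearOrder X] (ρ : Γ →* Equiv.Perm X)

def fixL (g : Γ) (c : X) : Prop := ∀ x ≤ c, ρ g x = x
def fixR (g : Γ) (c : X) : Prop := ∀ x, c ≤ x → ρ g x = x

structure Good : Prop where
  inj : Function.Injective ρ
  mono : ∀ g, StrictMono (ρ g)
  bddL : ∀ g, ∃ c, fixL ρ g c
  bddR : ∀ g, ∃ c, fixR ρ g c
  down : ∀ A B x y : X, A < y → x < B → ∃ h, fixL ρ h A ∧ fixR ρ h B ∧ ρ h x < y
  dense : ∀ a b : X, a < b → ∃ c, a < c ∧ c < b
  nomin : ∀ a : X, ∃ b, b < a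
  nomax : ∀ a : X, ∃ b, a < b

variable {ρ}

omit [LinearOrder X] in
theorem act_mul (g h : Γ) (x : X) : ρ (g * h) x = ρ g (ρ h x) := by simp
omit [LinearOrder X] in
theorem act_inv (g : Γ) (x : X) : ρ g⁻¹ (ρ g x) = x := by simp
omit [LinearOrder X] in
theorem act_inv' (g : Γ) (x : X) : ρ g (ρ g⁻¹ x) = x := by simp

theorem fixL.one {c : X} : fixL ρ 1 c := fun x _ => by simp
theorem fixR.one {c : X} : fixR ρ 1 c := fun x _ => by simp
theorem fixL.mul {g h : Γ} {c : X} (hg : fixL ρ g c) (hh : fixL ρ h c) : fixL ρ (g * h) c :=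
  fun x hx => by rw [act_mul, hh x hx, hg x hx]
theorem fixR.mul {g h : Γ} {c : X} (hg : fixR ρ g c) (hh : fixR ρ h c) : fixR ρ (g * h) c :=
  fun x hx => by rw [act_mul, hh x hx, hg x hx]
theorem fixL.inv {g : Γ} {c : X} (hg : fixL ρ g c) : fixL ρ g⁻¹ c :=
  fun x hx => by conv_lhs => rw [← hg x hx, act_inv]
theorem fixR.inv {g : Γ} {c : X} (hg : fixR ρ g c) : fixR ρ g⁻¹ c :=
  fun x hx => by conv_lhs => rw [← hg x hx, act_inv]
theorem fixL.anti {g : Γ} {c d : X} (hg : fixL ρ g c) (h : d ≤ c) : fixL ρ g d :=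
  fun x hx => hg x (hx.trans h)
theorem fixR.mono {g : Γ} {c d : X} (hg : fixR ρ g c) (h : c ≤ d) : fixR ρ g d :=
  fun x hx => hg x (h.trans hx)

theorem Good.dual (G : Good ρ) : Good (X := Xᵒᵈ) ρ where
  inj := G.inj
  mono := fun g _ _ h => G.mono g h
  bddL := G.bddR
  bddR := G.bddL
  down := fun A B x y h1 h2 => by
    obtain ⟨h, h3, h4, h5⟩ := G.down B A y x h2 h1
    refine ⟨h⁻¹, h4.inv, h3.inv, ?_⟩
    have := G.mono h⁻¹ h5
    rwa [act_inv] at this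
  dense := fun a b h => by
    obtain ⟨c, h1, h2⟩ := G.dense b a h
    exact ⟨c, h2, h1⟩
  nomin := G.nomax
  nomax := G.nomin

theorem Good.up (G : Good ρ) (A B x y : X) (h1 : A < x) (h2 : y < B) :
    ∃ h, fixL ρ h A ∧ fixR ρ h B ∧ y < ρ h x := by
  obtain ⟨h, h3, h4, h5⟩ := G.dual.down B A x y h2 h1
  exact ⟨h, h4, h3, h5⟩

theorem Good.conjL (G : Good ρ) {g : Γ} {c : X} (hg : fixL ρ g c) (t : Γ) :
    fixL ρ (t * g * t⁻¹) (ρ t c) := fun x hx => by
  have : ρ t⁻¹ x ≤ c := by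
    have := (G.mono t⁻¹).monotone hx
    rwa [act_inv] at this
  rw [act_mul, act_mul, hg _ this, act_inv']

theorem Good.conjR (G : Good ρ) {g : Γ} {c : X} (hg : fixR ρ g c) (t : Γ) :
    fixR ρ (t * g * t⁻¹) (ρ t c) := G.dual.conjL hg t

theorem Good.comm (G : Good ρ) {a b : Γ} {c : X} (ha : fixR ρ a c) (hb : fixL ρ b c) :
    a * b = b * a := by
  apply G.inj
  ext x
  rw [act_mul, act_mul]
  rcases le_total x c with h | h
  · rw [hb x h, hb]
    rw [← ha c le_rfl]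
    exact (G.mono a).monotone h
  · rw [ha x h, ha]
    rw [← hb c le_rfl]
    exact (G.mono b).monotone h

theorem Good.eq_one (G : Good ρ) {a : Γ} {c : X} (h1 : fixR ρ a c) (h2 : fixL ρ a c) : a = 1 := by
  apply G.inj
  ext x
  rcases le_total x c with h | h
  · simpa using h2 x h
  · simpa using h1 x h

theorem Good.push (G : Good ρ) (x y : X) : ∃ h, y < ρ h x := by
  obtain ⟨A, hA⟩ := G.nomin x
  obtain ⟨B, hB⟩ := G.nomax y
  obtain ⟨h, -, -, h3⟩ := G.up A B x y hA hB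
  exact ⟨h, h3⟩

theorem comm_mem (a b : Γ) : a * b * a⁻¹ * b⁻¹ ∈ commutator Γ :=
  Subgroup.commutator_mem_commutator (Subgroup.mem_top a) (Subgroup.mem_top b)

theorem Good.conj_comm (G : Good ρ) (g t : Γ) :
    ∃ t' ∈ commutator Γ, t' * g * t'⁻¹ = t * g * t⁻¹ := by
  obtain ⟨c, hc⟩ := G.bddL t
  obtain ⟨d, hd⟩ := G.bddR g
  obtain ⟨h, hh⟩ := G.push c d
  have h1 := G.comm hd ((G.conjL hc h).anti hh.le).inv
  refine ⟨t * h * t⁻¹ * h⁻¹, comm_mem t h, ?_⟩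
  have e : t * h * t⁻¹ * h⁻¹ * g * (t * h * t⁻¹ * h⁻¹)⁻¹ =
      t * ((h * t * h⁻¹)⁻¹ * g) * (h * t * h⁻¹) * t⁻¹ := by group
  rw [e, ← h1]
  group

/-- points moved to the right or to the left -/
theorem Good.moved (G : Good ρ) {f : Γ} {x p : X} (hx : ρ f x ≠ x) (hp : x < p) :
    (∃ y, y < ρ f y ∧ ρ f y < p) ∨ ∃ y, y < ρ f⁻¹ y ∧ ρ f⁻¹ y < p := by
  rcases lt_or_gt_of_ne hx with h | h
  · exact Or.inr ⟨ρ f x, by rwa [act_inv], by rwa [act_inv]⟩
  · refine Or.inl ⟨ρ f⁻¹ x, ?_, by rwa [act_inv']⟩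
    rw [act_inv']
    have := G.mono f⁻¹ h
    rwa [act_inv] at this

theorem Good.squeeze (G : Good ρ) {A B c d a b : X} (h1 : A < c) (h2 : d < B) (h3 : a < b)
    (h4 : A ≤ a) (h5 : a < B) : ∃ h, fixL ρ h A ∧ fixR ρ h B ∧ a < ρ h c ∧ ρ h d < b := by
  obtain ⟨k, k1, k2, k3⟩ := G.up A B c a h1 h5
  have : ρ k d < B := by rw [← k2 B le_rfl]; exact G.mono k h2
  obtain ⟨l, l1, l2, l3⟩ := G.down a B (ρ k d) b h3 this
  refine ⟨l * k, (l1.anti h4).mul k1, l2.mul k2, ?_, by rwa [act_mul]⟩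
  rw [act_mul]
  conv_lhs => rw [← l1 a le_rfl]
  exact G.mono l k3

end Pool.Agent.H29.Ord1
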