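import Mathlib
import Pool.Agent.H29.Ord1

open Set

namespace Pool.Agent.H29.Ord1

variable {Γ : Type} [Group Γ] {N : Subgroup Γ} {P : Set Γ}

def lt (P : Set Γ) (x y : Γ) : Prop := x⁻¹ * y ∈ P
def le (P : Set Γ) (x y : Γ) : Prop := x = y ∨ lt P x y

theorem ConeIn.lt_mul (h : ConeIn N P) {x y x' y' : Γ} (h1 : lt P x y) (h2 : le P x' y') :
    lt P (x * x') (y * y') := by
  have e : (x * x')⁻¹ * (y * y') = (x'⁻¹ * (x⁻¹ * y) * x'⁻¹⁻¹) * (x'⁻¹ * y') := by group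
  unfold lt
  rw [e]
  rcases h2 with rfl | h2
  · simpa using h.conj _ h1 x'⁻¹
  · exact h.mul _ (h.conj _ h1 _) _ h2

theorem ConeIn.le_mul (h : ConeIn N P) {x y x' y' : Γ} (h1 : le P x y) (h2 : le P x' y') :
    le P (x * x') (y * y') := by
  rcases h1 with rfl | h1
  · rcases h2 with rfl | h2
    · exact Or.inl rfl
    · exact Or.inr (by simpa [lt, mul_assoc] using h2)
  · exact Or.inr (h.lt_mul h1 h2)

theorem ConeIn.le_pow (h : ConeIn N P) {x y : Γ} (h1 : le P x y) (m : ℕ) :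
    le P (x ^ m) (y ^ m) := by
  induction m with
  | zero => exact Or.inl (by simp)
  | succ m ih => rw [pow_succ, pow_succ]; exact h.le_mul ih h1

theorem ConeIn.lt_of_lt_of_le (h : ConeIn N P) {x y z : Γ} (h1 : lt P x y) (h2 : le P y z) :
    lt P x z := by
  rcases h2 with rfl | h2
  · exact h1
  · simpa [lt, mul_assoc] using h.mul _ h1 _ h2

theorem ConeIn.lt_conj (h : ConeIn N P) {x y : Γ} (h1 : lt P x y) (t : Γ) :
    lt P (t * x * t⁻¹) (t * y * t⁻¹) := by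
  have := h.conj _ h1 t
  unfold lt
  convert this using 1
  group

theorem ConeIn.total (h : ConeIn N P) {x y : Γ} (hx : x ∈ N) (hy : y ∈ N) :
    le P x y ∨ le P y x := by
  by_cases he : x = y
  · exact Or.inl (Or.inl he)
  rcases h.tri _ (N.mul_mem (N.inv_mem hx) hy) (fun h0 => he (inv_mul_eq_one.1 h0)) with h1 | h1
  · exact Or.inl (Or.inr h1)
  · exact Or.inr (Or.inr (by simpa [lt] using h1))

variable {X : Type} [LinearOrder X] {ρ : Γ →* Equiv.Perm X}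

theorem Good.comm_bound (G : Good ρ) (h : ConeIn N P) {f g : Γ} {c : X} (hf : f ∈ P)
    (hfc : fixR ρ f c) (hgc : fixL ρ g c) (hfg : lt P f g) {a b : Γ} {c1 : X} (hc1 : c1 < c)
    (ha : fixR ρ a c1) (hb : fixR ρ b c1) : lt P (a * b * a⁻¹ * b⁻¹) (g * g) := by
  have hS : ∀ t, fixR ρ t c → lt P (t * f * t⁻¹) g := fun t ht => by
    have := h.lt_conj hfg t
    rwa [G.comm ht hgc, mul_inv_cancel_right] at this
  have hS' : ∀ t, le P (t * f * t⁻¹)⁻¹ 1 := fun t => Or.inr (by simpa [lt] using h.conj _ hf t)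
  have key : ∀ f' : Γ, fixR ρ f' c → (∀ t t', fixR ρ t c → fixR ρ t' c →
      lt P (t * f' * t⁻¹ * (t' * f' * t'⁻¹)⁻¹) g) → (∃ y, y < ρ f' y ∧ ρ f' y < c) →
      lt P (a * b * a⁻¹ * b⁻¹) (g * g) := by
    rintro f' hf' hb' ⟨y, hy1, hy2⟩
    obtain ⟨c0, hc0⟩ := G.bddL a
    obtain ⟨A, hA⟩ := G.nomin (min c0 y)
    obtain ⟨k, -, k2, k3, k4⟩ := G.squeeze (A := A) (B := c) (c := c0) (d := c1) (a := y)
      (b := ρ f' y) (hA.trans_le (min_le_left _ _)) hc1 hy1 (hA.le.trans (min_le_right _ _))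
      (hy1.trans hy2)
    have h1 : c1 ≤ ρ (k⁻¹ * f' * k) c0 := by
      have := G.mono k⁻¹ (k4.trans (G.mono f' k3))
      rw [act_inv] at this
      rw [act_mul, act_mul]
      exact this.le
    have h2 := G.comm hb ((G.conjL hc0.inv (k⁻¹ * f' * k)).anti h1)
    have ha' := ha.mono hc1.le
    have hb2 := hb.mono hc1.le
    have e1 := hb' (a * k⁻¹) k⁻¹ (ha'.mul k2.inv) k2.inv
    have e2 := hb' (b * k⁻¹) (b * a * k⁻¹) (hb2.mul k2.inv) ((hb2.mul ha').mul k2.inv)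
    have e3 := h.lt_mul e1 (Or.inr e2)
    have e4 : a * k⁻¹ * f' * (a * k⁻¹)⁻¹ * (k⁻¹ * f' * k⁻¹⁻¹)⁻¹ *
        (b * k⁻¹ * f' * (b * k⁻¹)⁻¹ * (b * a * k⁻¹ * f' * (b * a * k⁻¹)⁻¹)⁻¹) =
        a * (k⁻¹ * f' * k * a⁻¹ * (k⁻¹ * f' * k)⁻¹ * b) *
        (k⁻¹ * f' * k * a⁻¹ * (k⁻¹ * f' * k)⁻¹)⁻¹ * a⁻¹ * b⁻¹ := by group
    rw [e4, ← h2] at e3
    convert e3 using 1
    group
  have hf1 : f ≠ 1 := by rintro rfl; exact h.one hf
  obtain ⟨x, hx⟩ : ∃ x, ρ f x ≠ x := by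
    by_contra hno
    push Not at hno
    exact hf1 (G.inj (by ext x; simpa using hno x))
  have hxc : x < c := lt_of_not_ge fun hle => hx (hfc x hle)
  rcases G.moved hx hxc with h1 | h1
  · refine key f hfc (fun t t' ht _ => ?_) h1
    simpa using h.lt_mul (hS t ht) (hS' t')
  · refine key f⁻¹ hfc.inv (fun t t' _ ht' => ?_) h1
    have e := h.le_mul (hS' t) (Or.inr (hS t' ht'))
    have e2 : t * f⁻¹ * t⁻¹ * (t' * f⁻¹ * t'⁻¹)⁻¹ = (t * f * t⁻¹)⁻¹ * (t' * f * t'⁻¹) := by group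
    rw [e2]
    unfold lt
    have e3 : ((t * f * t⁻¹)⁻¹ * (t' * f * t'⁻¹))⁻¹ * g = (t' * f * t'⁻¹)⁻¹ * (t * f * t⁻¹) *
      (t' * f * t'⁻¹)⁻¹⁻¹ * ((t' * f * t'⁻¹)⁻¹ * g) := by group
    rw [e3]
    exact h.mul _ (h.conj _ (h.conj _ hf t) _) _ (hS t' ht')

theorem Good.comm_small (G : Good ρ) (h : ConeIn N P) {f g : Γ} {c : X} (hf : f ∈ P) (hg : g ∈ P)
    (hfc : fixR ρ f c) (hgc : fixL ρ g c) (hfg : lt P f g) {a b : Γ} {c1 : X} (hc1 : c1 < c)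
    (ha : fixR ρ a c1) (hb : fixR ρ b c1) (m : ℕ) : ¬ lt P g ((a * b * a⁻¹ * b⁻¹) ^ m) := by
  intro hlt
  obtain ⟨ca, hca⟩ := G.bddL a
  obtain ⟨cb, hcb⟩ := G.bddL b
  have ha0 : fixL ρ a (min (min ca cb) c1) := hca.anti ((min_le_left _ _).trans (min_le_left _ _))
  have hb0 : fixL ρ b (min (min ca cb) c1) := hcb.anti ((min_le_left _ _).trans (min_le_right _ _))
  have h01 : min (min ca cb) c1 ≤ c1 := min_le_right _ _
  generalize min (min ca cb) c1 = c0 at ha0 hb0 h01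
  obtain ⟨A0, hA0⟩ := G.nomin c0
  obtain ⟨s, -, s2, s3⟩ := G.up A0 c c0 c1 hA0 hc1
  have hsg := G.comm s2 hgc
  have key : ∀ n : ℕ, ∃ A B : Γ, ∃ c2, c2 < c ∧ fixR ρ A c2 ∧ fixR ρ B c2 ∧ fixL ρ A c0 ∧
      fixL ρ B c0 ∧ lt P (g ^ (n + 1)) ((A * B * A⁻¹ * B⁻¹) ^ m) := by
    intro n
    induction n with
    | zero => exact ⟨a, b, c1, hc1, ha, hb, ha0, hb0, by simpa using hlt⟩
    | succ n ih =>
      obtain ⟨A, B, c2, h1, h2, h3, h4, h5, h6⟩ := ih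
      have hA := (G.conjL h4 s).anti s3.le
      have hB := (G.conjL h5 s).anti s3.le
      have hsc : ρ s c2 < c := by rw [← s2 c le_rfl]; exact G.mono s h1
      refine ⟨a * (s * A * s⁻¹), b * (s * B * s⁻¹), max c1 (ρ s c2), max_lt hc1 hsc,
        (ha.mono (le_max_left _ _)).mul ((G.conjR h2 s).mono (le_max_right _ _)),
        (hb.mono (le_max_left _ _)).mul ((G.conjR h3 s).mono (le_max_right _ _)),
        ha0.mul (hA.anti h01), hb0.mul (hB.anti h01), ?_⟩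
      have h7 := h.lt_conj h6 s
      have e0 : s * g ^ (n + 1) * s⁻¹ = g ^ (n + 1) := by
        rw [← conj_pow, hsg, mul_inv_cancel_right]
      rw [e0, ← conj_pow] at h7
      have e1 : s * (A * B * A⁻¹ * B⁻¹) * s⁻¹ =
          (s * A * s⁻¹) * (s * B * s⁻¹) * (s * A * s⁻¹)⁻¹ * (s * B * s⁻¹)⁻¹ := by group
      rw [e1] at h7
      generalize s * A * s⁻¹ = A' at *
      generalize s * B * s⁻¹ = B' at *
      have hw : fixR ρ (a * b * a⁻¹ * b⁻¹) c1 := ((ha.mul hb).mul ha.inv).mul hb.inv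
      have hW : fixL ρ (A' * B' * A'⁻¹ * B'⁻¹) c1 := ((hA.mul hB).mul hA.inv).mul hB.inv
      have e2 : a * A' * (b * B') * (a * A')⁻¹ * (b * B')⁻¹ =
          (a * b * a⁻¹ * b⁻¹) * (A' * B' * A'⁻¹ * B'⁻¹) := by
        have c1' := G.comm hb hA
        have c2' := G.comm (ha.inv.mul hb.inv) hW
        have c3' := G.comm ha.inv hB.inv
        calc a * A' * (b * B') * (a * A')⁻¹ * (b * B')⁻¹
            = a * (A' * b) * B' * A'⁻¹ * (a⁻¹ * B'⁻¹) * b⁻¹ := by group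
          _ = a * (b * A') * B' * A'⁻¹ * (B'⁻¹ * a⁻¹) * b⁻¹ := by rw [← c1', c3']
          _ = a * b * ((A' * B' * A'⁻¹ * B'⁻¹) * (a⁻¹ * b⁻¹)) := by group
          _ = _ := by rw [← c2']; group
      rw [e2, (show Commute _ _ from G.comm hw hW).mul_pow, pow_succ']
      exact h.lt_mul hlt (Or.inr h7)
  obtain ⟨A, B, c2, h1, h2, h3, -, -, h6⟩ := key (2 * m)
  have h7 := h.le_pow (Or.inr (G.comm_bound h hf hfc hgc hfg h1 h2 h3)) m
  have h8 := h.lt_of_lt_of_le h6 h7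
  rw [← pow_two, ← pow_mul, lt, pow_succ] at h8
  apply h.not_inv hg
  simpa [mul_assoc] using h8

theorem Good.dom (G : Good ρ) (h : ConeIn (commutator Γ) P) {f g : Γ} {c : X} (hf : f ∈ P)
    (hg : g ∈ P) (hfc : fixR ρ f c) (hgc : fixL ρ g c) (hfg : lt P f g) {z : Γ}
    (hz : z ∈ commutator Γ) {c' : X} (hc' : c' < c) (hzc : fixR ρ z c') : ¬ lt P g z := by
  have key : ∀ z ∈ commutator Γ, ∃ M, ∀ k, ρ k M < c → ∀ m : ℕ, ¬ lt P g ((k * z * k⁻¹) ^ m) := by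
    intro z hz
    have hcomm : ∀ a b : Γ, ∃ M, ∀ k, ρ k M < c → ∀ m : ℕ,
        ¬ lt P g ((k * (a * b * a⁻¹ * b⁻¹) * k⁻¹) ^ m) := by
      intro a b
      obtain ⟨ca, hca⟩ := G.bddR a
      obtain ⟨cb, hcb⟩ := G.bddR b
      refine ⟨max ca cb, fun k hk m => ?_⟩
      have e1 : k * (a * b * a⁻¹ * b⁻¹) * k⁻¹ =
          (k * a * k⁻¹) * (k * b * k⁻¹) * (k * a * k⁻¹)⁻¹ * (k * b * k⁻¹)⁻¹ := by group
      rw [e1]
      exact G.comm_small h hf hg hfc hgc hfg hk (G.conjR (hca.mono (le_max_left _ _)) k)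
        (G.conjR (hcb.mono (le_max_right _ _)) k) m
    rw [commutator_eq_closure] at hz
    induction hz using Subgroup.closure_induction'' with
    | mem x hx =>
      obtain ⟨a, b, rfl⟩ := hx
      exact hcomm a b
    | inv_mem x hx =>
      obtain ⟨a, b, rfl⟩ := hx
      rw [commutatorElement_inv]
      exact hcomm b a
    | one =>
      exact ⟨c, fun k _ m hlt => h.not_inv hg (by simpa [lt] using hlt)⟩
    | mul x y hx hy ihx ihy =>
      rw [← commutator_eq_closure] at hx hy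
      obtain ⟨M1, h1⟩ := ihx
      obtain ⟨M2, h2⟩ := ihy
      refine ⟨max M1 M2, fun k hk m hlt => ?_⟩
      have h1' := h1 k (((G.mono k).monotone (le_max_left _ _)).trans_lt hk) (2 * m)
      have h2' := h2 k (((G.mono k).monotone (le_max_right _ _)).trans_lt hk) (2 * m)
      have e1 : k * (x * y) * k⁻¹ = (k * x * k⁻¹) * (k * y * k⁻¹) := by group
      rw [e1] at hlt
      rw [pow_mul, pow_two] at h1' h2'
      have hN : (commutator Γ).Normal := inferInstance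
      rcases h.total (hN.conj_mem x hx k) (hN.conj_mem y hy k) with h3 | h3
      · exact h2' (h.lt_of_lt_of_le hlt (h.le_pow (h.le_mul h3 (Or.inl rfl)) m))
      · exact h1' (h.lt_of_lt_of_le hlt (h.le_pow (h.le_mul (Or.inl rfl) h3) m))
  obtain ⟨M, hM⟩ := key z hz
  obtain ⟨B, hB⟩ := G.nomax M
  obtain ⟨k, k1, -, k3⟩ := G.down c' B M c hc' hB
  have := hM k k3 1
  rwa [← G.comm hzc k1, mul_inv_cancel_right, pow_one] at this

variable (ρ) in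
def TypeL (P : Set Γ) : Prop :=
  ∀ e ∈ P, ∀ k ∈ commutator Γ, ∀ c, fixR ρ e c → fixL ρ k c → e * k ∈ P

theorem Good.not_typeL (G : Good ρ) (h : ConeIn (commutator Γ) P) (hL : ¬ TypeL ρ P) :
    ∃ g ∈ P, ∃ c, fixL ρ g c ∧ ∀ z ∈ commutator Γ, ∀ c' < c, fixR ρ z c' → ¬ lt P g z := by
  unfold TypeL at hL
  push Not at hL
  obtain ⟨e, he, k, hk, c, h1, h2, h3⟩ := hL
  have hne : e * k ≠ 1 := fun h0 => by
    have : e = k⁻¹ := eq_inv_of_mul_eq_one_left h0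
    have h4 : e = 1 := G.eq_one h1 (this ▸ h2.inv)
    exact h.one (h4 ▸ he)
  have h4 := (h.tri _ (Subgroup.mul_mem _ (h.sub e he) hk) hne).resolve_left h3
  rw [mul_inv_rev] at h4
  have h5 : k⁻¹ ∈ P := by simpa using h.mul _ h4 _ he
  exact ⟨k⁻¹, h5, c, h2.inv, fun z hz c' hc' hzc =>
    G.dom h he h5 h1 h2.inv (h.comm h4) hz hc' hzc⟩

theorem Good.dichotomy (G : Good ρ) (h : ConeIn (commutator Γ) P) :
    TypeL ρ P ∨ TypeL (X := Xᵒᵈ) ρ P := by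
  by_contra hno
  push Not at hno
  obtain ⟨g, hg, c, hgc, h1⟩ := G.not_typeL h hno.1
  obtain ⟨f, hf, c2, hfc, h2⟩ := G.dual.not_typeL h hno.2
  obtain ⟨t, ht⟩ := G.dual.push c2 c
  have ht' : ρ t c2 < c := ht
  have hN : (commutator Γ).Normal := inferInstance
  have hfR : fixR ρ (t * f * t⁻¹) (ρ t c2) := G.conjR hfc t
  have h3 := h1 _ (hN.conj_mem f (h.sub f hf) t) _ ht' hfR
  have h4 := h2 _ (hN.conj_mem g (h.sub g hg) t⁻¹) (ρ t⁻¹ c) (by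
    have := G.mono t⁻¹ ht'
    rwa [act_inv] at this) (G.conjL hgc t⁻¹)
  have h5 : ¬ lt P (t * f * t⁻¹) g := fun hlt => h4 (by
    have := h.lt_conj hlt t⁻¹
    convert this using 1
    group)
  have h6 : g = t * f * t⁻¹ := by
    rcases h.total (h.sub g hg) (hN.conj_mem f (h.sub f hf) t) with (h7 | h7) | (h7 | h7)
    · exact h7
    · exact absurd h7 h3
    · exact h7.symm
    · exact absurd h7 h5
  have : g = 1 := G.eq_one (h6 ▸ hfR.mono ht'.le) hgc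
  exact h.one (this ▸ hg)

theorem Good.not_both (G : Good ρ) (h : ConeIn (commutator Γ) P) {g : Γ} (hg : g ∈ P)
    (hL : TypeL ρ P) : ¬ TypeL (X := Xᵒᵈ) ρ P := by
  intro hR
  obtain ⟨c, hc⟩ := G.bddL g
  obtain ⟨d, hd⟩ := G.bddR g
  obtain ⟨t, ht⟩ := G.push c d
  have hk := (G.conjL hc t).anti ht.le
  have hkP := h.conj g hg t
  have h1 := hL g hg _ (Subgroup.inv_mem _ (h.sub _ hkP)) d hd hk.inv
  have h2 := hR _ hkP _ (Subgroup.inv_mem _ (h.sub _ hg)) d hk hd.inv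
  exact h.not_inv h1 (by simpa using h2)

theorem Good.germ (G : Good ρ) (h : ConeIn (commutator Γ) P) (hL : TypeL ρ P) {f k : Γ}
    (hf : f ∈ P) (hk : k ∈ commutator Γ) {x p : X} (hx : ρ f x ≠ x) (hxp : x < p)
    (hkp : fixL ρ k p) : f * k ∈ P := by
  have key : ∀ f' : Γ, (∃ y, y < ρ f' y ∧ ρ f' y < p) → ∃ e : Γ, fixR ρ e p ∧
      fixR ρ (f' * e * f'⁻¹) p ∧ Commute e (f' * e * f'⁻¹) ∧ f' * e * f'⁻¹ ≠ e := by
    rintro f' ⟨y, h1, h2⟩
    have hy : y < min (ρ f' y) (ρ f'⁻¹ p) := lt_min h1 (by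
      have := G.mono f'⁻¹ h2
      rwa [act_inv] at this)
    obtain ⟨y1, h3, h4⟩ := G.dense _ _ hy
    obtain ⟨e, e1, e2, e3⟩ := G.down y _ y1 y1 h3 h4
    have e4 : fixR ρ e (ρ f' y) := e2.mono (min_le_left _ _)
    have e5 := G.conjL e1 f'
    refine ⟨e, e4.mono h2.le, ?_, G.comm e4 e5, fun h0 => ?_⟩
    · have := G.conjR (e2.mono (min_le_right _ _)) f'
      rwa [act_inv'] at this
    · rw [h0] at e5
      rw [G.eq_one e4 e5] at e3
      simp at e3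
  obtain ⟨e, e1, e2, e3, e4⟩ : ∃ e : Γ, fixR ρ e p ∧
      fixR ρ (f * e * f⁻¹) p ∧ Commute e (f * e * f⁻¹) ∧ f * e * f⁻¹ ≠ e := by
    rcases G.moved hx hxp with h1 | h1
    · exact key f h1
    · obtain ⟨e, e1, e2, e3, e4⟩ := key f⁻¹ h1
      have e5 : f * (f⁻¹ * e * f⁻¹⁻¹) * f⁻¹ = e := by group
      exact ⟨f⁻¹ * e * f⁻¹⁻¹, e2, by rwa [e5], by rw [e5]; exact e3.symm, by rw [e5]; exact e4.symm⟩
  have fin : ∀ e : Γ, fixR ρ e p → fixR ρ (f * e * f⁻¹) p → f * e * f⁻¹ * e⁻¹ ∈ P → f * k ∈ P := by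
    intro e e1 e2 he
    have h1 := hL _ he k hk p (e2.mul e1.inv) hkp
    have h2 := h.mul _ (h.conj _ (h.conj _ hf e) (f * e * f⁻¹ * e⁻¹)) _ h1
    convert h2 using 1
    group
  rcases h.tri _ (comm_mem f e) (fun h0 => e4 (mul_inv_eq_one.1 h0)) with h1 | h1
  · exact fin e e1 e2 h1
  · refine fin e⁻¹ e1.inv (by convert e2.inv using 1; group) ?_
    have e5 : f * e⁻¹ * f⁻¹ * e⁻¹⁻¹ = (f * e * f⁻¹)⁻¹ * e := by group
    rw [e5, ← e3.inv_right.eq]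
    convert h1 using 1
    group

variable (ρ) in
/-- germ data at a base point -/
structure Germ (p : X) (H : Type) [Group H] (γ : Γ → H) : Prop where
  mul : ∀ g h, ρ g p = p → ρ h p = p → γ (g * h) = γ g * γ h
  ker : ∀ g, ρ g p = p → (γ g = 1 ↔ ∃ q, p < q ∧ ∀ x, p ≤ x → x ≤ q → ρ g x = x)
  surj : ∀ a : H, ∃ g, fixL ρ g p ∧ γ g = a
  norm : ∀ g, g ≠ 1 → ∃ t, fixL ρ (t * g * t⁻¹) p ∧ γ (t * g * t⁻¹) ≠ 1

variable {p : X} {H : Type} [Group H] {γ : Γ → H}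

theorem Germ.of_fixL (E : Germ ρ p H γ) {g : Γ} {q : X} (hq : p < q) (hg : fixL ρ g q) :
    γ g = 1 := (E.ker g (hg p hq.le)).2 ⟨q, hq, fun x _ hx => hg x hx⟩

theorem Germ.one (E : Germ ρ p H γ) : γ 1 = 1 := by
  have := E.mul 1 1 (by simp) (by simp)
  rw [one_mul] at this
  exact left_eq_mul.1 this

theorem Germ.inv (E : Germ ρ p H γ) {g : Γ} (hg : ρ g p = p) : γ g⁻¹ = (γ g)⁻¹ := by
  have h1 : ρ g⁻¹ p = p := by conv_lhs => rw [← hg, act_inv]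
  have := E.mul g⁻¹ g h1 hg
  rw [inv_mul_cancel, E.one] at this
  exact eq_inv_of_mul_eq_one_left this.symm

theorem Germ.conj (E : Germ ρ p H γ) {g t : Γ} (hg : ρ g p = p) (ht : ρ t p = p) :
    γ (t * g * t⁻¹) = γ t * γ g * (γ t)⁻¹ := by
  have h1 : ρ t⁻¹ p = p := by conv_lhs => rw [← ht, act_inv]
  rw [E.mul _ _ (by rw [act_mul, hg, ht]) h1, E.mul _ _ ht hg, E.inv ht]

theorem Germ.surj' (G : Good ρ) (E : Germ ρ p H γ) (a : H) :
    ∃ g ∈ commutator Γ, fixL ρ g p ∧ γ g = a := by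
  obtain ⟨g, h1, h2⟩ := E.surj a
  obtain ⟨t, ht⟩ := G.push p p
  have h3 := G.conjL h1.inv t
  refine ⟨g * (t * g⁻¹ * t⁻¹), by simpa only [mul_assoc] using comm_mem g t,
    h1.mul (h3.anti ht.le), ?_⟩
  rw [E.mul _ _ (h1 p le_rfl) (h3 p ht.le), E.of_fixL ht h3, mul_one, h2]

theorem Germ.cmp (G : Good ρ) (E : Germ ρ p H γ) {g t s : Γ} (hg : fixL ρ (t * g * t⁻¹) p) :
    ρ (s * t⁻¹) p < p ∨ (ρ (s * t⁻¹) p = p ∧ fixL ρ (s * g * s⁻¹) p ∧
      γ (s * g * s⁻¹) = γ (s * t⁻¹) * γ (t * g * t⁻¹) * (γ (s * t⁻¹))⁻¹) ∨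
    (p < ρ (s * t⁻¹) p ∧ fixL ρ (s * g * s⁻¹) p ∧ γ (s * g * s⁻¹) = 1) := by
  have e : s * g * s⁻¹ = (s * t⁻¹) * (t * g * t⁻¹) * (s * t⁻¹)⁻¹ := by group
  have h1 := G.conjL hg (s * t⁻¹)
  rw [← e] at h1
  rcases lt_trichotomy (ρ (s * t⁻¹) p) p with h | h | h
  · exact Or.inl h
  · refine Or.inr (Or.inl ⟨h, h ▸ h1, ?_⟩)
    rw [e, E.conj (hg p le_rfl) h]
  · exact Or.inr (Or.inr ⟨h, h1.anti h.le, E.of_fixL h h1⟩)

variable (ρ p γ) in
def Phi (Q : Set H) : Set Γ :=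
  {g | g ∈ commutator Γ ∧ ∃ t, fixL ρ (t * g * t⁻¹) p ∧ γ (t * g * t⁻¹) ∈ Q}

theorem Germ.swap (G : Good ρ) {s t : Γ} (h : ρ (s * t⁻¹) p < p) : p < ρ (t * s⁻¹) p := by
  have := G.mono (t * s⁻¹) h
  rw [← act_mul] at this
  simpa using this

theorem Germ.phi_cone (G : Good ρ) (E : Germ ρ p H γ) {Q : Set H} (hQ : ConeIn ⊤ Q) :
    ConeIn (commutator Γ) (Phi ρ p γ Q) ∧ TypeL ρ (Phi ρ p γ Q) := by
  have hN : (commutator Γ).Normal := inferInstance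
  have hmul : ∀ s a b : Γ, fixL ρ (s * a * s⁻¹) p → fixL ρ (s * b * s⁻¹) p →
      fixL ρ (s * (a * b) * s⁻¹) p ∧
      γ (s * (a * b) * s⁻¹) = γ (s * a * s⁻¹) * γ (s * b * s⁻¹) := by
    intro s a b ha hb
    have e : s * (a * b) * s⁻¹ = (s * a * s⁻¹) * (s * b * s⁻¹) := by group
    rw [e]
    exact ⟨ha.mul hb, E.mul _ _ (ha p le_rfl) (hb p le_rfl)⟩
  refine ⟨⟨fun g hg => hg.1, ?_, ?_, ?_, ?_⟩, ?_⟩
  · rintro a ⟨ha, s, hs1, hs2⟩ b ⟨hb, t, ht1, ht2⟩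
    refine ⟨Subgroup.mul_mem _ ha hb, ?_⟩
    rcases E.cmp G (s := s) ht1 with h | ⟨-, h1, h2⟩ | ⟨-, h1, h2⟩
    · rcases E.cmp G (s := t) hs1 with h' | ⟨h', -⟩ | ⟨-, h1, h2⟩
      · exact absurd (Germ.swap G h) (not_lt.2 h'.le)
      · exact absurd (Germ.swap G h) (not_lt.2 h'.le)
      · obtain ⟨h3, h4⟩ := hmul t a b h1 ht1
        exact ⟨t, h3, by rwa [h4, h2, one_mul]⟩
    · obtain ⟨h3, h4⟩ := hmul s a b hs1 h1
      exact ⟨s, h3, by rw [h4, h2]; exact hQ.mul _ hs2 _ (hQ.conj _ ht2 _)⟩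
    · obtain ⟨h3, h4⟩ := hmul s a b hs1 h1
      exact ⟨s, h3, by rwa [h4, h2, mul_one]⟩
  · rintro g ⟨hg, s, hs1, hs2⟩ t
    have e : s * t⁻¹ * (t * g * t⁻¹) * (s * t⁻¹)⁻¹ = s * g * s⁻¹ := by group
    exact ⟨hN.conj_mem g hg t, s * t⁻¹, by rwa [e], by rwa [e]⟩
  · intro g hg hg1
    obtain ⟨t, h1, h2⟩ := E.norm g hg1
    rcases hQ.tri _ trivial h2 with h | h
    · exact Or.inl ⟨hg, t, h1, h⟩
    · have e : t * g⁻¹ * t⁻¹ = (t * g * t⁻¹)⁻¹ := by group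
      exact Or.inr ⟨Subgroup.inv_mem _ hg, t, by rw [e]; exact h1.inv,
        by rwa [e, E.inv (h1 p le_rfl)]⟩
  · rintro ⟨-, t, -, h⟩
    rw [mul_one, mul_inv_cancel, E.one] at h
    exact hQ.one h
  · rintro e ⟨he, t, h1, h2⟩ k hk c hec hkc
    have h3 : p < ρ t c := by
      by_contra hle
      rw [G.eq_one ((G.conjR hec t).mono (not_lt.1 hle)) h1, E.one] at h2
      exact hQ.one h2
    have h4 := G.conjL hkc t
    obtain ⟨h5, h6⟩ := hmul t e k h1 (h4.anti h3.le)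
    exact ⟨Subgroup.mul_mem _ he hk, t, h5, by rwa [h6, E.of_fixL h3 h4, mul_one]⟩

theorem Germ.same (G : Good ρ) (E : Germ ρ p H γ) (h : ConeIn (commutator Γ) P)
    (hL : TypeL ρ P) {g g' : Γ} (hg : g ∈ P) (hg' : g' ∈ commutator Γ) (h1 : fixL ρ g p)
    (h2 : fixL ρ g' p) (h3 : γ g ≠ 1) (h4 : γ g = γ g') : g' ∈ P := by
  have h5 := h1.inv.mul h2
  obtain ⟨q, hq, h6⟩ := (E.ker _ (h5 p le_rfl)).1 (by
    rw [E.mul _ _ (h1.inv p le_rfl) (h2 p le_rfl), E.inv (h1 p le_rfl), h4, inv_mul_cancel])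
  have h7 : fixL ρ (g⁻¹ * g') q := fun x hx => by
    rcases le_total x p with h | h
    · exact h5 x h
    · exact h6 x h hx
  obtain ⟨q', hq1, hq2⟩ := G.dense p q hq
  obtain ⟨x, hx1, hx2⟩ : ∃ x, x ≤ q' ∧ ρ g x ≠ x := by
    by_contra hno
    push Not at hno
    exact h3 (E.of_fixL hq1 hno)
  simpa using G.germ h hL hg (Subgroup.mul_mem _ (Subgroup.inv_mem _ (h.sub g hg)) hg') hx2
    (hx1.trans_lt hq2) h7

theorem Germ.encard (G : Good ρ) (E : Germ ρ p H γ) :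
    {Q : Set H | ConeIn ⊤ Q}.encard =
      {P : Set Γ | ConeIn (commutator Γ) P ∧ TypeL ρ P}.encard := by
  have hN : (commutator Γ).Normal := inferInstance
  refine Set.encard_congr (Set.BijOn.equiv (Phi ρ p γ) ⟨fun Q hQ => E.phi_cone G hQ, ?_, ?_⟩)
  · intro Q hQ Q' hQ' he
    refine ConeIn.eq_of_subset hQ hQ' fun a ha => ?_
    obtain ⟨g, hg, h1, rfl⟩ := E.surj' G a
    have h0 : fixL ρ (1 * g * 1⁻¹) p := by simpa using h1
    have h2 : g ∈ Phi ρ p γ Q := ⟨hg, 1, h0, by simpa using ha⟩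
    rw [he] at h2
    obtain ⟨-, t, h3, h4⟩ := h2
    rcases E.cmp G (s := 1) h3 with h | ⟨-, -, h5⟩ | ⟨-, -, h5⟩
    · rcases E.cmp G (s := t) h0 with h' | ⟨h', -⟩ | ⟨-, -, h5⟩
      · exact absurd (Germ.swap G h) (not_lt.2 h'.le)
      · exact absurd (Germ.swap G h) (not_lt.2 h'.le)
      · exact absurd (h5 ▸ h4) hQ'.one
    · have := hQ'.conj _ h4 (γ (1 * t⁻¹))
      rw [← h5] at this
      simpa using this
    · simp only [one_mul, inv_one, mul_one] at h5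
      exact absurd (h5 ▸ ha) hQ.one
  · rintro P ⟨h, hL⟩
    have hQ : ConeIn ⊤ {a : H | a ≠ 1 ∧ ∃ g ∈ P, fixL ρ g p ∧ γ g = a} := by
      refine ⟨fun _ _ => trivial, ?_, ?_, ?_, fun h => h.1 rfl⟩
      · rintro _ ⟨ha, g, hg, h1, rfl⟩ _ ⟨hb, g', hg', h2, rfl⟩
        refine ⟨fun h0 => ?_, g * g', h.mul _ hg _ hg', h1.mul h2,
          E.mul _ _ (h1 p le_rfl) (h2 p le_rfl)⟩
        refine h.not_inv hg' (E.same G h hL hg (Subgroup.inv_mem _ (h.sub _ hg')) h1 h2.inv ha ?_)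
        rw [E.inv (h2 p le_rfl)]
        exact eq_inv_of_mul_eq_one_left h0
      · rintro _ ⟨ha, g, hg, h1, rfl⟩ b
        obtain ⟨t, ht, rfl⟩ := E.surj b
        exact ⟨by simpa using ha, t * g * t⁻¹, h.conj _ hg t, (ht.mul h1).mul ht.inv,
          E.conj (h1 p le_rfl) (ht p le_rfl)⟩
      · intro a _ ha
        obtain ⟨g, hg, h1, rfl⟩ := E.surj' G a
        rcases h.tri g hg (by rintro rfl; exact ha E.one) with h2 | h2
        · exact Or.inl ⟨ha, g, h2, h1, rfl⟩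
        · exact Or.inr ⟨by simpa using ha, g⁻¹, h2, h1.inv, E.inv (h1 p le_rfl)⟩
    refine ⟨_, hQ, ConeIn.eq_of_subset (E.phi_cone G hQ).1 h ?_⟩
    rintro g ⟨hg, t, h1, ha, g', hg', h2, h3⟩
    have := h.conj _ (E.same G h hL hg' (hN.conj_mem g hg t) h2 h1 (h3 ▸ ha) h3) t⁻¹
    convert this using 1
    group

theorem total_count (G : Good ρ) (E : Germ ρ p H γ) {p' : X} {H' : Type} [Group H'] {γ' : Γ → H'}
    (E' : Germ (X := Xᵒᵈ) ρ p' H' γ') [Nontrivial H] :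
    {P : Set (commutator Γ) | ConeIn ⊤ P}.encard =
      {Q : Set H | ConeIn ⊤ Q}.encard + {Q : Set H' | ConeIn ⊤ Q}.encard := by
  rw [cones_sub _ fun g _ t => G.conj_comm g t, E.encard G, E'.encard G.dual,
    ← Set.encard_union_eq]
  · congr 1
    ext P
    exact ⟨fun h => (G.dichotomy h).imp (fun h' => ⟨h, h'⟩) fun h' => ⟨h, h'⟩,
      fun h => h.elim (·.1) (·.1)⟩
  · rw [Set.disjoint_left]
    rintro P ⟨h, hL⟩ ⟨-, hR⟩
    obtain ⟨a, ha⟩ := exists_ne (1 : H)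
    obtain ⟨g, hg, -, rfl⟩ := E.surj' G a
    rcases h.tri g hg (by rintro rfl; exact ha E.one) with h2 | h2
    · exact G.not_both h h2 hL hR
    · exact G.not_both h h2 hL hR

end Pool.Agent.H29.Ord1
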