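import Mathlib
import Pool.Agent.H29.Ord1

open Set

namespace Pool.Agent.H29.Ord3
open Pool.Agent.H29.Ord1

variable {K : Type} [Field K]

/-- the group of affine maps `x ↦ u ^ n * x + k` -/
@[ext] structure Af (u : Kˣ) where
  k : K
  n : ℤ

variable {u : Kˣ}

instance : Mul (Af u) := ⟨fun a b => ⟨a.k + ((u ^ a.n : Kˣ) : K) * b.k, a.n + b.n⟩⟩
instance : One (Af u) := ⟨⟨0, 0⟩⟩
instance : Inv (Af u) := ⟨fun a => ⟨-(((u ^ (-a.n) : Kˣ) : K) * a.k), -a.n⟩⟩

@[simp] theorem mul_k (a b : Af u) : (a * b).k = a.k + ((u ^ a.n : Kˣ) : K) * b.k := rfl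
@[simp] theorem mul_n (a b : Af u) : (a * b).n = a.n + b.n := rfl
@[simp] theorem one_k : (1 : Af u).k = 0 := rfl
@[simp] theorem one_n : (1 : Af u).n = 0 := rfl
@[simp] theorem inv_k (a : Af u) : (a⁻¹).k = -(((u ^ (-a.n) : Kˣ) : K) * a.k) := rfl
@[simp] theorem inv_n (a : Af u) : (a⁻¹).n = -a.n := rfl

instance : Group (Af u) := Group.ofLeftAxioms
  (fun a b c => by
    ext
    · simp only [mul_k, mul_n, zpow_add, Units.val_mul]; ring
    · simp only [mul_n]; ring)
  (fun a => by ext <;> simp)
  (fun a => by ext <;> simp)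

theorem emb_of_cone [CharZero K] [Module.Finite ℚ K] (hu : Algebra.adjoin ℚ {(u : K)} = ⊤)
    (C : Set K) (hadd : ∀ a ∈ C, ∀ b ∈ C, a + b ∈ C) (htri : ∀ a, a ≠ 0 → a ∈ C ∨ -a ∈ C)
    (h0 : (0 : K) ∉ C) (hmul : ∀ a, (u : K) * a ∈ C ↔ a ∈ C) (h1 : (1 : K) ∈ C) :
    ∃ σ : K →+* ℝ, ∀ a, a ∈ C ↔ 0 < σ a := by
  classical
  have : IsStrictTotalOrder K fun a b => b - a ∈ C :=
    { irrefl := fun a => by simpa using h0
      trans := fun a b c h h' => by simpa using hadd _ h' _ h
      trichotomous := fun a b h h' => by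
        by_contra hne
        rcases htri (b - a) (sub_ne_zero.2 (Ne.symm hne)) with h2 | h2
        · exact h h2
        · exact h' (by simpa using h2) }
  let _ : LinearOrder K := linearOrderOfSTO fun a b => b - a ∈ C
  have hlt : ∀ a b : K, a < b ↔ b - a ∈ C := fun _ _ => Iff.rfl
  have : IsOrderedAddMonoid K := ⟨fun a b h c => by
    rcases h.eq_or_lt with rfl | h
    · exact le_rfl
    · exact le_of_lt ((hlt _ _).2 (by simpa using (hlt _ _).1 h)), fun a b h c => by
    rcases h.eq_or_lt with rfl | h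
    · exact le_rfl
    · exact le_of_lt ((hlt _ _).2 (by simpa using (hlt _ _).1 h))⟩
  have hmono : ∀ a b : K, (u : K) * a < u * b ↔ a < b := fun a b => by
    rw [hlt, hlt, ← mul_sub, hmul]
  have hsm : StrictMono fun a : K => (u : K) * a := fun a b h => (hmono a b).2 h
  have habs : ∀ a : K, |(u : K) * a| = u * |a| := fun a => by
    rcases le_total 0 a with h | h
    · have := hsm.monotone h
      simp only [mul_zero] at this
      rw [abs_of_nonneg h, abs_of_nonneg this]
    · have := hsm.monotone h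
      simp only [mul_zero] at this
      rw [abs_of_nonpos h, abs_of_nonpos this, mul_neg]
  let B : K → Submodule ℚ K := fun y =>
    { carrier := {z | ∃ n : ℕ, |z| ≤ n • |y|}
      zero_mem' := ⟨0, by simp⟩
      add_mem' := by
        rintro a b ⟨n, hn⟩ ⟨m, hm⟩
        exact ⟨n + m, (abs_add_le a b).trans (by rw [add_nsmul]; exact add_le_add hn hm)⟩
      smul_mem' := by
        rintro q z ⟨n, hn⟩
        refine ⟨q.num.natAbs * n, ?_⟩
        have e : q.den • (q • z) = q.num • z := by
          rw [← Nat.cast_smul_eq_nsmul ℚ, smul_smul, mul_comm, Rat.mul_den_eq_num,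
            Int.cast_smul_eq_zsmul]
        calc |q • z| ≤ q.den • |q • z| := by
              conv_lhs => rw [← one_nsmul |q • z|]
              exact nsmul_le_nsmul_left (abs_nonneg _) q.pos
          _ = q.num.natAbs • |z| := by
              rw [← abs_nsmul, e, abs_zsmul, ← natCast_zsmul, Int.natCast_natAbs]
          _ ≤ q.num.natAbs • (n • |y|) := nsmul_le_nsmul_right hn _
          _ = _ := by rw [mul_nsmul'] }
  have hB : ∀ y z, z ∈ B y ↔ ∃ n : ℕ, |z| ≤ n • |y| := fun _ _ => Iff.rfl
  have hBu : ∀ y z, (u : K) * z ∈ B (u * y) ↔ z ∈ B y := fun y z => by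
    rw [hB, hB]
    refine exists_congr fun n => ?_
    rw [habs, habs, ← mul_smul_comm]
    exact hsm.le_iff_le
  have hBle : ∀ y y', |y| ≤ |y'| → B y ≤ B y' := by
    rintro y y' h z ⟨n, hn⟩
    exact ⟨n, hn.trans (nsmul_le_nsmul_right h n)⟩
  have hclosed : ∀ y z, z ∈ B y → (u : K) * z ∈ B y := by
    intro y z hz
    rcases le_total |y| |u * y| with h | h
    · let e : K ≃ₗ[ℚ] K := (LinearEquiv.smulOfUnit u).restrictScalars ℚ
      have he : ∀ x, e x = u * x := fun _ => rfl
      have h2 : (B y).map e.toLinearMap = B (u * y) := by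
        ext w
        constructor
        · rintro ⟨x, hx, rfl⟩
          exact (hBu y x).2 hx
        · intro hw
          refine ⟨e.symm w, (hBu y _).1 ?_, e.apply_symm_apply w⟩
          rwa [← he (e.symm w), e.apply_symm_apply]
      have h3 : B y = B (u * y) := Submodule.eq_of_le_of_finrank_eq (hBle _ _ h)
        (by rw [← h2, LinearEquiv.finrank_map_eq])
      rw [h3]
      exact (hBu y z).2 hz
    · exact hBle _ _ h ((hBu y z).2 hz)
  have hall : ∀ y a, ∀ z ∈ B y, a * z ∈ B y := by
    intro y a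
    have ha : a ∈ Algebra.adjoin ℚ {(u : K)} := hu ▸ Algebra.mem_top
    induction ha using Algebra.adjoin_induction with
    | mem x hx => rw [hx]; exact hclosed y
    | algebraMap q => intro z hz; rw [← Algebra.smul_def]; exact (B y).smul_mem q hz
    | add a b _ _ ha hb => intro z hz; rw [add_mul]; exact (B y).add_mem (ha z hz) (hb z hz)
    | mul a b _ _ ha hb => intro z hz; rw [mul_assoc]; exact ha _ (hb z hz)
  have : Archimedean K := ⟨fun x y hy => by
    obtain ⟨n, hn⟩ := hall y (x / y) y ⟨1, by simp⟩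
    rw [div_mul_cancel₀ _ hy.ne', abs_of_pos hy] at hn
    exact ⟨n, (le_abs_self x).trans hn⟩⟩
  obtain ⟨f, hf⟩ := Archimedean.exists_orderAddMonoidHom_real_injective K
  have hfm : StrictMono f := f.monotone'.strictMono_of_injective hf
  have h1' : (0 : K) < 1 := (hlt _ _).2 (by simpa using h1)
  have hf1 : 0 < f 1 := by rw [← map_zero f]; exact hfm h1'
  have hfu : 0 < f u := by
    rw [← map_zero f]
    simpa using hfm (hsm h1')
  have hq : ∀ (q : ℚ) (a : K), f (q • a) = q * f a := fun q a => by
    rw [map_rat_smul, Rat.smul_def]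
  have hprop : ∀ a, f (u * a) / f u = f a / f 1 := fun a =>
    eq_of_forall_rat_lt_iff_lt fun q => by
      rw [lt_div_iff₀ hfu, lt_div_iff₀ hf1, ← hq, ← hq, hfm.lt_iff_lt, hfm.lt_iff_lt,
        ← hmono (q • 1) a, mul_smul_comm, mul_one]
  have hmult : ∀ a b, f (a * b) / f 1 = f a / f 1 * (f b / f 1) := by
    intro a
    have ha : a ∈ Algebra.adjoin ℚ {(u : K)} := hu ▸ Algebra.mem_top
    induction ha using Algebra.adjoin_induction with
    | mem x hx =>
      intro b
      rw [hx, ← hprop b]
      field_simp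
    | algebraMap q =>
      intro b
      rw [← Algebra.smul_def, Algebra.algebraMap_eq_smul_one, hq, hq]
      field_simp
    | add a b _ _ ha hb => intro z; rw [add_mul, map_add, add_div, ha, hb, map_add]; ring
    | mul a b _ _ ha hb => intro z; rw [mul_assoc, ha, hb, ha]; ring
  refine ⟨{ toFun := fun a => f a / f 1
            map_one' := div_self hf1.ne'
            map_mul' := hmult
            map_zero' := by simp
            map_add' := fun a b => by rw [map_add, add_div] }, fun a => ?_⟩
  show _ ↔ 0 < f a / f 1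
  rw [div_pos_iff_of_pos_right hf1, ← map_zero f, hfm.lt_iff_lt, hlt, sub_zero]

def Psi (u : Kˣ) (x : ℤˣ × ℤˣ × (K →+* ℝ)) : Set (Af u) :=
  {a | 0 < (x.1 : ℤ) * a.n ∨ (a.n = 0 ∧ 0 < ((x.2.1 : ℤ) : ℝ) * x.2.2 a.k)}

theorem af_count [CharZero K] [Module.Finite ℚ K] (hu : Algebra.adjoin ℚ {(u : K)} = ⊤)
    (hu1 : (u : K) ≠ 1) (hpos : ∀ σ : K →+* ℝ, 0 < σ u) :
    {P : Set (Af u) | ConeIn ⊤ P}.encard = (univ : Set (ℤˣ × ℤˣ × (K →+* ℝ))).encard := by
  have hcone : ∀ x, ConeIn ⊤ (Psi u x) := by
    rintro ⟨s, t, σ⟩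
    have hz : ∀ n : ℤ, 0 < σ ((u ^ n : Kˣ) : K) := fun n => by
      rw [Units.val_zpow_eq_zpow_val, map_zpow₀]; exact zpow_pos (hpos σ) n
    refine ⟨fun _ _ => trivial, ?_, ?_, ?_, by simp [Psi]⟩
    · rintro a (ha | ⟨ha, ha'⟩) b (hb | ⟨hb, hb'⟩)
      · left; simp only [mul_n, mul_add]; exact add_pos ha hb
      · left; simpa [hb] using ha
      · left; simpa [ha] using hb
      · right
        refine ⟨by simp [ha, hb], ?_⟩
        simp only [mul_k, ha, zpow_zero, Units.val_one, one_mul, map_add, mul_add]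
        exact add_pos ha' hb'
    · rintro a (ha | ⟨ha, ha'⟩) b
      · left; simpa using ha
      · right
        refine ⟨by simp [ha], ?_⟩
        have e : (b * a * b⁻¹).k = ((u ^ b.n : Kˣ) : K) * a.k := by
          simp only [mul_k, mul_n, inv_k, ha, add_zero, mul_neg, ← mul_assoc, ← Units.val_mul,
            ← zpow_add, add_neg_cancel, zpow_zero, Units.val_one, one_mul]
          ring
        rw [e, map_mul, mul_left_comm]
        exact mul_pos (hz _) ha'
    · intro a _ ha
      by_cases hn : a.n = 0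
      · have hk : a.k ≠ 0 := fun h => ha (Af.ext h hn)
        have : ((t : ℤ) : ℝ) * σ a.k ≠ 0 :=
          mul_ne_zero (by exact_mod_cast t.ne_zero) ((map_ne_zero σ).2 hk)
        rcases lt_or_gt_of_ne this with h | h
        · right; right
          exact ⟨by simp [hn], by simpa [hn] using h⟩
        · exact Or.inl (Or.inr ⟨hn, h⟩)
      · rcases lt_or_gt_of_ne (mul_ne_zero s.ne_zero hn) with h | h
        · right; left; simpa using h
        · exact Or.inl (Or.inl h)
  symm
  refine Set.encard_congr (Set.BijOn.equiv (Psi u) ⟨fun x _ => hcone x, ?_, ?_⟩)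
  · rintro ⟨s, t, σ⟩ - ⟨s', t', σ'⟩ - h
    have h1 := Set.ext_iff.1 h ⟨0, 1⟩
    have h2 : ∀ k : K, 0 < ((t : ℤ) : ℝ) * σ k ↔ 0 < ((t' : ℤ) : ℝ) * σ' k := fun k => by
      simpa [Psi] using Set.ext_iff.1 h ⟨k, 0⟩
    have hs : s = s' := by
      rcases Int.units_eq_one_or s with rfl | rfl <;>
        rcases Int.units_eq_one_or s' with rfl | rfl <;> simp [Psi] at h1 ⊢
    have ht : t = t' := by
      have := h2 1
      rcases Int.units_eq_one_or t with rfl | rfl <;>
        rcases Int.units_eq_one_or t' with rfl | rfl <;> first | rfl | norm_num at this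
    subst hs ht
    have h3 : ∀ k : K, 0 < σ k ↔ 0 < σ' k := fun k => by
      rcases Int.units_eq_one_or t with rfl | rfl
      · simpa using h2 k
      · simpa using h2 (-k)
    have : σ = σ' := RingHom.ext fun k => eq_of_forall_rat_lt_iff_lt fun q => by
      simpa using h3 (k - q)
    rw [this]
  · intro P hP
    have hP : ConeIn ⊤ P := hP
    have htop : ∀ e : ℤ, (e = 1 ∨ e = -1) → (⟨0, e⟩ : Af u) ∈ P → ∀ a : Af u, 0 < e * a.n →
        a ∈ P := by
      intro e he h1
      have hue : ((u ^ e : Kˣ) : K) ≠ 1 := by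
        rcases he with rfl | rfl
        · simpa using hu1
        · simpa using hu1
      have hk : ∀ k : K, (⟨k, e⟩ : Af u) ∈ P := by
        intro k
        by_contra hno
        have h2 := (hP.tri _ trivial (fun h => by
          have := congrArg Af.n h
          rcases he with rfl | rfl <;> simp at this)).resolve_left hno
        have h3 := hP.conj _ h1 ⟨k / (1 - ((u ^ e : Kˣ) : K)), 0⟩
        apply hno
        convert h3 using 1
        ext
        · have := sub_ne_zero.2 hue.symm
          simp only [mul_k, mul_n, inv_k, zpow_zero, neg_zero, Units.val_one, zero_add]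
          field_simp
          ring
        · simp
      have hn : ∀ (m : ℕ) (k : K), (⟨k, (m + 1) * e⟩ : Af u) ∈ P := by
        intro m
        induction m with
        | zero => simpa using hk
        | succ m ih =>
          intro k
          convert hP.mul _ (ih k) _ h1 using 1
          ext
          · simp
          · simp; ring
      intro a ha
      have := hn (e * a.n - 1).toNat a.k
      rw [Int.toNat_of_nonneg (by omega), sub_add_cancel] at this
      convert this using 1
      ext
      · rfl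
      · rcases he with rfl | rfl <;> simp
    obtain ⟨s, hs⟩ : ∃ s : ℤˣ, (⟨0, s⟩ : Af u) ∈ P := by
      rcases hP.tri ⟨0, 1⟩ trivial (fun h => by simpa using congrArg Af.n h) with h | h
      · exact ⟨1, h⟩
      · refine ⟨-1, ?_⟩
        convert h using 1
        ext <;> simp
    have hinv : ∀ k : K, (⟨k, 0⟩ : Af u)⁻¹ = ⟨-k, 0⟩ := fun k => by ext <;> simp
    obtain ⟨t, ht⟩ : ∃ t : ℤˣ, (⟨((t : ℤ) : K), 0⟩ : Af u) ∈ P := by
      rcases hP.tri ⟨1, 0⟩ trivial (fun h => by simpa using congrArg Af.k h) with h | h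
      · exact ⟨1, by simpa using h⟩
      · exact ⟨-1, by simpa [hinv] using h⟩
    have ht0 : ((t : ℤ) : K) ≠ 0 := by exact_mod_cast t.ne_zero
    obtain ⟨σ, hσ⟩ := emb_of_cone hu {k | (⟨((t : ℤ) : K) * k, 0⟩ : Af u) ∈ P}
      (fun a ha b hb => by
        have := hP.mul _ ha _ hb
        show (⟨_, _⟩ : Af u) ∈ P
        convert this using 1
        ext <;> simp [mul_add])
      (fun a ha => by
        have := hP.tri ⟨((t : ℤ) : K) * a, 0⟩ trivial
          (fun h => mul_ne_zero ht0 ha (congrArg Af.k h))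
        rwa [hinv, ← mul_neg] at this)
      (by rw [mem_ofPred_eq, mul_zero]; exact hP.one)
      (fun a => by
        constructor
        · intro h
          have := hP.conj _ h ⟨0, -1⟩
          show (⟨_, _⟩ : Af u) ∈ P
          convert this using 1
          ext
          · simp; field_simp
          · simp
        · intro h
          have := hP.conj _ h ⟨0, 1⟩
          show (⟨_, _⟩ : Af u) ∈ P
          convert this using 1
          ext
          · simp; ring
          · simp)
      (by simpa using ht)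
    refine ⟨(s, t, σ), trivial, (hcone _).eq_of_subset hP ?_⟩
    rintro a (ha | ⟨ha, ha'⟩)
    · exact htop s (by rcases Int.units_eq_one_or s with rfl | rfl <;> simp) hs a ha
    · have := (hσ (((t : ℤ) : K) * a.k)).2 (by simpa using ha')
      have e : ((t : ℤ) : K) * (((t : ℤ) : K) * a.k) = a.k := by
        rcases Int.units_eq_one_or t with rfl | rfl <;> simp
      rw [mem_ofPred_eq, e, ← ha] at this
      exact this

theorem int_count : {P : Set (Multiplicative ℤ) | ConeIn ⊤ P}.encard = 2 := by
  have hcone : ∀ s : ℤ, s ≠ 0 → ConeIn ⊤ {a : Multiplicative ℤ | 0 < s * a.toAdd} := by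
    intro s hs
    refine ⟨fun _ _ => trivial, fun a ha b hb => ?_, fun a ha b => by simpa using ha,
      fun a _ ha => ?_, by simp⟩
    · simp only [mem_ofPred_eq, toAdd_mul, mul_add] at ha hb ⊢
      exact add_pos ha hb
    · rcases lt_or_gt_of_ne (mul_ne_zero hs (show a.toAdd ≠ 0 from ha)) with h | h
      · right; simpa using h
      · exact Or.inl h
  rw [Set.encard_eq_two]
  refine ⟨{a | 0 < 1 * a.toAdd}, {a | 0 < -1 * a.toAdd}, fun h => ?_, ?_⟩
  · simpa using Set.ext_iff.1 h (Multiplicative.ofAdd 1)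
  ext P
  refine ⟨fun hP => ?_, ?_⟩
  · have hP : ConeIn ⊤ P := hP
    have key : ∀ e : ℤ, (e = 1 ∨ e = -1) → Multiplicative.ofAdd e ∈ P →
        P = {a | 0 < e * a.toAdd} := by
      intro e he h1
      refine ((hcone e (by omega)).eq_of_subset hP fun a ha => ?_).symm
      have hn : ∀ m : ℕ, Multiplicative.ofAdd ((m + 1) * e) ∈ P := by
        intro m
        induction m with
        | zero => simpa using h1
        | succ m ih =>
          convert hP.mul _ ih _ h1 using 1
          rw [← ofAdd_add]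
          congr 1
          push_cast
          ring
      have ha : 0 < e * a.toAdd := ha
      have := hn (e * a.toAdd - 1).toNat
      rw [Int.toNat_of_nonneg (by omega), sub_add_cancel] at this
      convert this using 1
      rcases he with rfl | rfl <;> simp
    rcases hP.tri (Multiplicative.ofAdd 1) trivial (by simp) with h | h
    · exact Or.inl (key 1 (Or.inl rfl) h)
    · exact Or.inr (key (-1) (Or.inr rfl) h)
  · rintro (rfl | rfl)
    · exact hcone 1 one_ne_zero
    · exact hcone (-1) (by norm_num)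

open Polynomial IntermediateField in
theorem exists_field (r : ℕ) (hr : 0 < r) : ∃ y : ℝ, 1 < y ∧ IsIntegral ℚ y ∧
    (∀ σ : ℚ⟮y⟯ →+* ℝ, 0 < σ (AdjoinSimple.gen ℚ y)) ∧ Nat.card (ℚ⟮y⟯ →+* ℝ) = r := by
  let g : ℤ[X] := ∏ i ∈ Finset.range r, (X - C (8 * ((i : ℤ) + 1)))
  have hg : g.Monic := monic_prod_of_monic _ _ fun i _ => monic_X_sub_C _
  have hgd : g.natDegree = r := by
    rw [natDegree_prod_of_monic _ _ fun i _ => monic_X_sub_C _]
    simp only [natDegree_X_sub_C, Finset.sum_const, Finset.card_range, smul_eq_mul, mul_one]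
  let f : ℤ[X] := g + C 2
  have hfd : f.natDegree = r := by rw [natDegree_add_C, hgd]
  have hf : f.Monic := hg.add_of_left (by
    refine degree_C_le.trans_lt ?_
    rw [← natDegree_pos_iff_degree_pos, hgd]; exact hr)
  have hmap : ∀ (n : ℕ), (n : ℤ) ∣ 8 → g.map (Int.castRingHom (ZMod n)) = X ^ r := by
    intro n hn
    rw [Polynomial.map_prod, Finset.prod_congr rfl (g := fun _ => X), Finset.prod_const,
      Finset.card_range]
    intro i _
    rw [Polynomial.map_sub, map_X, map_C, eq_intCast,
      (ZMod.intCast_zmod_eq_zero_iff_dvd _ n).2 (hn.mul_right _), map_zero, sub_zero]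
  have hco : ∀ (n : ℕ), (n : ℤ) ∣ 8 → ∀ j < r, (n : ℤ) ∣ g.coeff j := by
    intro n hn j hj
    rw [← ZMod.intCast_zmod_eq_zero_iff_dvd, ← eq_intCast (Int.castRingHom (ZMod n)),
      ← coeff_map, hmap n hn, coeff_X_pow, if_neg hj.ne]
  have hirr : Irreducible f := by
    have hp : (Ideal.span {(2 : ℤ)}).IsPrime :=
      (Ideal.span_singleton_prime two_ne_zero).2 Int.prime_two
    refine IsEisensteinAt.irreducible (𝓟 := Ideal.span {(2 : ℤ)}) ⟨?_, ?_, ?_⟩ hp hf.isPrimitive
      (by rw [hfd]; exact hr)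
    · rw [hf.leadingCoeff, Ideal.mem_span_singleton]; norm_num
    · intro j hj
      rw [hfd] at hj
      rw [Ideal.mem_span_singleton, coeff_add, coeff_C]
      refine dvd_add (hco 2 (by norm_num) j hj) ?_
      split_ifs <;> simp
    · rw [Ideal.span_singleton_pow, Ideal.mem_span_singleton, coeff_add, coeff_C_zero]
      obtain ⟨c, hc⟩ := hco 4 (by norm_num) 0 hr
      rw [hc]
      push_cast
      omega
  let p : ℝ → ℝ := fun x => ∏ i ∈ Finset.range r, (x - 8 * ((i : ℝ) + 1))
  have hev : ∀ x : ℝ, aeval x f = p x + 2 := fun x => by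
    simp [f, g, p, map_prod, map_ofNat]
  have hbig : ∀ x : ℝ, (∀ i : ℕ, 4 ≤ |x - 8 * ((i : ℝ) + 1)|) → 4 ≤ |p x| := by
    intro x hx
    rw [Finset.abs_prod]
    calc (4 : ℝ) ≤ 4 ^ r := le_self_pow₀ (by norm_num) hr.ne'
      _ = ∏ _i ∈ Finset.range r, (4 : ℝ) := by simp
      _ ≤ _ := Finset.prod_le_prod (fun _ _ => by norm_num) fun i _ => hx i
  have hroot : ∀ x : ℝ, aeval x f = 0 → 4 < x := by
    intro x hx
    by_contra hle
    have := hbig x fun i => by
      have : (0 : ℝ) ≤ i := Nat.cast_nonneg i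
      rw [le_abs]; right; linarith
    rw [hev] at hx
    rw [show p x = -2 by linarith] at this
    norm_num at this
  have hmid : ∀ j : ℕ, 4 ≤ |p (8 * j + 4)| := fun j => hbig _ fun i => by
    rw [le_abs]
    rcases le_or_gt j i with h | h
    · have : (j : ℝ) ≤ i := by exact_mod_cast h
      right; linarith
    · have : (i : ℝ) + 1 ≤ j := by exact_mod_cast h
      left; linarith
  have hsign : ∀ j < r, p (8 * j + 4) * p (8 * (j + 1 : ℕ) + 4) < 0 := by
    intro j hj
    rw [← Finset.prod_mul_distrib, ← Finset.mul_prod_erase _ _ (Finset.mem_range.2 hj)]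
    refine mul_neg_of_neg_of_pos (by push_cast; nlinarith) (Finset.prod_pos fun i hi => ?_)
    push_cast
    rcases lt_or_gt_of_ne (Finset.ne_of_mem_erase hi) with h | h
    · have : (i : ℝ) + 1 ≤ j := by exact_mod_cast h
      nlinarith
    · have : (j : ℝ) + 1 ≤ i := by exact_mod_cast h
      nlinarith
  have hcont : Continuous fun x => p x + 2 := by fun_prop
  have hex : ∀ j : Fin r, ∃ x : ℝ, (8 * j + 4 < x ∧ x < 8 * (j + 1 : ℕ) + 4) ∧ p x + 2 = 0 := by
    intro j
    have hle : (8 * j + 4 : ℝ) ≤ 8 * (j + 1 : ℕ) + 4 := by push_cast; linarith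
    have h1 := hmid j
    have h2 := hmid (j + 1)
    have h3 := hsign j j.2
    rcases le_abs.1 h1 with h1 | h1 <;> rcases le_abs.1 h2 with h2 | h2
    · nlinarith
    · exact intermediate_value_Ioo' hle hcont.continuousOn ⟨by linarith, by linarith⟩
    · exact intermediate_value_Ioo hle hcont.continuousOn ⟨by linarith, by linarith⟩
    · nlinarith
  choose x hx hx0 using hex
  have hinj : Function.Injective x := StrictMono.injective fun i j hij => by
    have : ((i + 1 : ℕ) : ℝ) ≤ j := by exact_mod_cast hij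
    linarith [(hx i).2, (hx j).1]
  let y := x ⟨0, hr⟩
  have hy : aeval y f = 0 := by rw [hev, hx0]
  have hyq : aeval y (f.map (algebraMap ℤ ℚ)) = 0 := by rw [aeval_map_algebraMap, hy]
  have hmin : f.map (algebraMap ℤ ℚ) = minpoly ℚ y := minpoly.eq_of_irreducible_of_monic
    ((hf.irreducible_iff_irreducible_map_fraction_map (K := ℚ)).1 hirr) hyq (hf.map _)
  have hint : IsIntegral ℚ y := ⟨_, hf.map _, hyq⟩
  refine ⟨y, by linarith [hroot y hy], hint, fun σ => ?_, ?_⟩
  · have h1 : aeval (AdjoinSimple.gen ℚ y) f = 0 := by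
      apply (algebraMap ℚ⟮y⟯ ℝ).injective
      rw [← aeval_algebraMap_apply, map_zero]
      exact hy
    have h2 : aeval (σ (AdjoinSimple.gen ℚ y)) f = 0 := by
      have := aeval_algHom_apply σ.toIntAlgHom (AdjoinSimple.gen ℚ y) f
      rw [h1, map_zero] at this
      exact this
    linarith [hroot _ h2]
  · refine (Nat.card_congr (RingHom.equivRatAlgHom _ _)).trans
      ((card_algHom_adjoin_integral ℚ (K := ℝ) hint (minpoly.irreducible hint).separable ?_).trans
        (by rw [← hmin, hf.natDegree_map, hfd]))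
    rw [splits_iff_card_roots, ← hmin, (hf.map _).natDegree_map, hf.natDegree_map, hfd]
    refine le_antisymm ((card_roots' _).trans (by
      rw [(hf.map _).natDegree_map, hf.natDegree_map, hfd])) ?_
    classical
    refine le_trans ?_ (Multiset.toFinset_card_le _)
    have := Finset.card_le_card_of_injOn (s := Finset.univ) x
      (t := ((f.map (algebraMap ℤ ℚ)).map (algebraMap ℚ ℝ)).roots.toFinset) (fun j _ => by
        rw [Finset.mem_coe, Multiset.mem_toFinset, mem_roots ((hf.map _).map _).ne_zero, IsRoot,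
          eval_map_algebraMap, aeval_map_algebraMap, hev, hx0]) hinj.injOn
    simpa using this

end Pool.Agent.H29.Ord3
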