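import Mathlib
import Pool.Agent.H29.Ord2
import Pool.Agent.H29.Ord3

open Set Filter Topology

namespace Pool.Agent.H29.Ord4
open Pool.Agent.H29.Ord1 Pool.Agent.H29.Ord3

variable {K : Type} [Field K] {u : Kˣ} (σ : K →+* ℝ)

noncomputable def act (α : Af u) (x : ℝ) : ℝ := σ u ^ α.n * x + σ α.k

theorem map_upow (n : ℤ) : σ ((u ^ n : Kˣ) : K) = σ u ^ n := by
  rw [Units.val_zpow_eq_zpow_val, map_zpow₀]

theorem su_ne : σ u ≠ 0 := (map_ne_zero σ).2 u.ne_zero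

theorem act_one (x : ℝ) : act σ (1 : Af u) x = x := by simp [act]

theorem act_mul' (α β : Af u) (x : ℝ) : act σ (α * β) x = act σ α (act σ β x) := by
  simp only [act, mul_k, mul_n, map_add, map_mul, map_upow, zpow_add₀ (su_ne σ)]
  ring

theorem act_inv_act (α : Af u) (x : ℝ) : act σ α⁻¹ (act σ α x) = x := by
  rw [← act_mul', inv_mul_cancel, act_one]

theorem act_act_inv (α : Af u) (x : ℝ) : act σ α (act σ α⁻¹ x) = x := by
  rw [← act_mul', mul_inv_cancel, act_one]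

theorem act_mem (α : Af u) {x : ℝ} (hx : x ∈ range σ) : act σ α x ∈ range σ := by
  obtain ⟨k, rfl⟩ := hx
  exact ⟨(u ^ α.n : Kˣ) * k + α.k, by rw [map_add, map_mul, map_upow, act]⟩

theorem act_mem_iff (α : Af u) {x : ℝ} : act σ α x ∈ range σ ↔ x ∈ range σ :=
  ⟨fun h => by simpa [act_inv_act] using act_mem σ α⁻¹ h, act_mem σ α⟩

theorem act_cont (α : Af u) : Continuous (act σ α) := by unfold act; fun_prop

def L (u : Kˣ) (j : ℤ) : Af u := ⟨(u ^ (-j) : Kˣ) + (u ^ (-j - 1) : Kˣ), -2 * j - 1⟩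
def L' (u : Kˣ) (j : ℤ) : Af u := ⟨-((u ^ (-j) : Kˣ) + (u ^ (-j - 1) : Kˣ)), -2 * j - 1⟩
def cen (a : K) (n : ℤ) : Af u := ⟨a - (u ^ n : Kˣ) * a, n⟩

theorem act_L (j : ℤ) (x : ℝ) :
    act σ (L u j) x = σ u ^ (-2 * j - 1) * x + σ u ^ (-j) + σ u ^ (-j - 1) := by
  simp only [act, L, map_add, map_upow]; ring

theorem act_L' (j : ℤ) (x : ℝ) : act σ (L' u j) x = - act σ (L u j) (-x) := by
  simp only [act, L, L', map_add, map_neg, map_upow]; ring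

theorem act_cen (a : K) (n : ℤ) (x : ℝ) : act σ (cen (u := u) a n) x = σ a + σ u ^ n * (x - σ a) := by
  simp only [act, cen, map_sub, map_mul, map_upow]; ring

open Classical in
noncomputable def th (u : Kˣ) (x : ℝ) : ℝ :=
  if h : ∃ j : ℤ, -x ∈ Ioc (σ u ^ j) (σ u ^ (j + 1)) then act σ (L u h.choose) x else 0

noncomputable def et (u : Kˣ) (y : ℝ) : ℝ := - th σ u (-y)

def PA (u : Kˣ) (f : ℝ → ℝ) (x : ℝ) : Prop :=
  (∃ α : Af u, ∀ᶠ y in 𝓝[≥] x, f y = act σ α y) ∧ (∃ α : Af u, ∀ᶠ y in 𝓝[≤] x, f y = act σ α y) ∧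
  (x ∉ range σ → ∃ α : Af u, ∀ᶠ y in 𝓝 x, f y = act σ α y)

def LT' (f : ℝ → ℝ) (x : ℝ) (α : Af u) : Prop :=
  ∀ᶠ y in 𝓝[<] x, th σ u (f y - f x) = act σ α (th σ u (y - x))

def GA (u : Kˣ) (f : ℝ → ℝ) (x : ℝ) : Prop :=
  (∃ α : Af u, ∀ᶠ y in 𝓝[≥] x, f y = act σ α y) ∧
  (x ∉ range σ → ∃ α : Af u, ∀ᶠ y in 𝓝 x, f y = act σ α y) ∧
  (x ∈ range σ → ∃ α : Af u, LT' σ f x α)

def PAfun (u : Kˣ) (f : ℝ → ℝ) : Prop :=
  StrictMono f ∧ Function.Surjective f ∧ ∀ x, PA σ u f x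

theorem iso_ge (e : ℝ ≃o ℝ) (x : ℝ) : Tendsto e (𝓝[≥] x) (𝓝[≥] e x) :=
  e.continuous.continuousWithinAt.tendsto_nhdsWithin fun _ h => e.monotone h
theorem iso_le (e : ℝ ≃o ℝ) (x : ℝ) : Tendsto e (𝓝[≤] x) (𝓝[≤] e x) :=
  e.continuous.continuousWithinAt.tendsto_nhdsWithin fun _ h => e.monotone h
theorem iso_lt (e : ℝ ≃o ℝ) (x : ℝ) : Tendsto e (𝓝[<] x) (𝓝[<] e x) :=
  e.continuous.continuousWithinAt.tendsto_nhdsWithin fun _ h => e.strictMono h

variable {σ} (hv : 1 < σ u)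
include hv

theorem vp (n : ℤ) : 0 < σ u ^ n := zpow_pos (by linarith) n

theorem act_mono (α : Af u) : StrictMono (act σ α) := fun x y h => by
  unfold act
  linarith [mul_lt_mul_of_pos_left h (vp hv α.n)]

noncomputable def actIso (α : Af u) : ℝ ≃o ℝ :=
  (act_mono hv α).orderIsoOfSurjective _ fun x => ⟨_, act_act_inv σ α x⟩

theorem act_ext {α β : Af u} {x y : ℝ} (hxy : x ≠ y) (h1 : act σ α x = act σ β x)
    (h2 : act σ α y = act σ β y) : α = β := by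
  unfold act at h1 h2
  have h3 : σ u ^ α.n = σ u ^ β.n := by
    have : (σ u ^ α.n - σ u ^ β.n) * (x - y) = 0 := by linear_combination h1 - h2
    exact sub_eq_zero.1 ((mul_eq_zero.1 this).resolve_right (sub_ne_zero.2 hxy))
  refine Af.ext (σ.injective ?_) (zpow_right_injective₀ (by linarith) hv.ne' h3)
  rw [h3] at h1
  linarith

theorem act_ext' {α β : Af u} {x : ℝ} (hx : x ∉ range σ) (h1 : act σ α x = act σ β x) : α = β := by
  by_cases h3 : σ u ^ α.n = σ u ^ β.n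
  · refine act_ext hv (y := x + 1) (by linarith) h1 ?_
    unfold act at h1 ⊢
    linear_combination h1 + h3
  · refine absurd ⟨(β.k - α.k) / ((u ^ α.n : Kˣ) - (u ^ β.n : Kˣ)), ?_⟩ hx
    unfold act at h1
    rw [map_div₀, map_sub, map_sub, map_upow, map_upow, div_eq_iff (sub_ne_zero.2 h3)]
    linear_combination -h1

theorem uniq {F : Filter ℝ} [NeBot F] {φ : ℝ → ℝ} {α β : Af u} (hne : ∀ c, ∀ᶠ y in F, φ y ≠ c)
    (h : ∀ᶠ y in F, act σ α (φ y) = act σ β (φ y)) : α = β := by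
  obtain ⟨y1, h1⟩ := h.exists
  obtain ⟨y2, h2, h3⟩ := (h.and (hne (φ y1))).exists
  exact act_ext hv h3 h2 h1

omit hv in
theorem ne_ev {F : Filter ℝ} {x : ℝ} (hF : F ≤ 𝓝[≠] x) (c : ℝ) : ∀ᶠ y in F, y ≠ c := by
  by_cases h : x = c
  · exact hF (h ▸ self_mem_nhdsWithin)
  · exact (hF.trans nhdsWithin_le_nhds) (eventually_ne_nhds h)

theorem uniq_ge {x : ℝ} {α β : Af u} (h : ∀ᶠ y in 𝓝[≥] x, act σ α y = act σ β y) : α = β :=
  uniq hv (F := 𝓝[>] x) (φ := id) (ne_ev (nhdsGT_le_nhdsNE x))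
    (h.filter_mono (nhdsWithin_mono x Ioi_subset_Ici_self))

omit hv in
theorem L_left (j : ℤ) : act σ (L u j) (-σ u ^ (j + 1)) = σ u ^ (-j - 1) := by
  rw [act_L, mul_neg, ← zpow_add₀ (su_ne σ), show -2 * j - 1 + (j + 1) = -j by ring]; ring

omit hv in
theorem L_right (j : ℤ) : act σ (L u j) (-σ u ^ j) = σ u ^ (-j) := by
  rw [act_L, mul_neg, ← zpow_add₀ (su_ne σ), show -2 * j - 1 + j = -j - 1 by ring]; ring

theorem th_eq {j : ℤ} {x : ℝ} (h1 : σ u ^ j ≤ -x) (h2 : -x ≤ σ u ^ (j + 1)) :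
    th σ u x = act σ (L u j) x := by
  have hex := exists_mem_Ioc_zpow ((vp hv j).trans_le h1) hv
  rw [th, dif_pos hex]
  obtain ⟨h3, h4⟩ := hex.choose_spec
  generalize hex.choose = J at h3 h4
  have h5 : J < j + 1 := (zpow_lt_zpow_iff_right₀ hv).1 (h3.trans_le h2)
  have h6 : j ≤ J + 1 := (zpow_le_zpow_iff_right₀ hv).1 (h1.trans h4)
  rcases h6.eq_or_lt with rfl | h6
  · have : x = -σ u ^ (J + 1) := by linarith
    rw [this, L_left, L_right]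
    congr 1; ring
  · rw [show J = j by omega]

theorem th_pow (j : ℤ) : th σ u (-σ u ^ j) = σ u ^ (-j) := by
  rw [th_eq hv (j := j) (by simp) (by
    rw [neg_neg]; exact zpow_le_zpow_right₀ hv.le (by omega)), L_right]

theorem th_bounds {j : ℤ} {x : ℝ} (h1 : σ u ^ j ≤ -x) (h2 : -x ≤ σ u ^ (j + 1)) :
    σ u ^ (-j - 1) ≤ th σ u x ∧ th σ u x ≤ σ u ^ (-j) := by
  rw [th_eq hv h1 h2, ← L_left, ← L_right]
  exact ⟨(act_mono hv _).monotone (by linarith), (act_mono hv _).monotone (by linarith)⟩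

theorem th_pos {x : ℝ} (hx : x < 0) : 0 < th σ u x := by
  obtain ⟨j, h1, h2⟩ := exists_mem_Ioc_zpow (neg_pos.2 hx) hv
  exact (vp hv _).trans_le (th_bounds hv h1.le h2).1

theorem et_neg {y : ℝ} (hy : 0 < y) : et σ u y < 0 := neg_neg_of_pos (th_pos hv (by linarith))

theorem et_th {x : ℝ} (hx : x < 0) : et σ u (th σ u x) = x := by
  obtain ⟨j, h1, h2⟩ := exists_mem_Ioc_zpow (neg_pos.2 hx) hv
  obtain ⟨h3, h4⟩ := th_bounds hv h1.le h2
  rw [et, th_eq hv (j := -j - 1) (by rwa [neg_neg]) (by rwa [neg_neg, sub_add_cancel]),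
    th_eq hv h1.le h2, act_L, act_L]
  have h0 := su_ne (u := u) σ
  have e1 : σ u ^ (-2 * (-j - 1) - 1) * σ u ^ (-2 * j - 1) = 1 := by
    rw [← zpow_add₀ h0, show -2 * (-j - 1) - 1 + (-2 * j - 1) = 0 by ring, zpow_zero]
  have e2 : σ u ^ (-2 * (-j - 1) - 1) * σ u ^ (-j) = σ u ^ (-(-j - 1)) := by
    rw [← zpow_add₀ h0]; congr 1; ring
  have e3 : σ u ^ (-2 * (-j - 1) - 1) * σ u ^ (-j - 1) = σ u ^ (-(-j - 1) - 1) := by
    rw [← zpow_add₀ h0]; congr 1; ring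
  linear_combination x * e1 + e2 + e3

theorem th_et {y : ℝ} (hy : 0 < y) : th σ u (et σ u y) = y := by
  have := et_th hv (x := -y) (by linarith)
  rw [et] at this ⊢
  linarith

theorem th_mono {x x' : ℝ} (h : x < x') (hx' : x' < 0) : th σ u x < th σ u x' := by
  obtain ⟨j, h1, h2⟩ := exists_mem_Ioc_zpow (neg_pos.2 (h.trans hx')) hv
  obtain ⟨j', h3, h4⟩ := exists_mem_Ioc_zpow (neg_pos.2 hx') hv
  have h5 : j' < j + 1 := (zpow_lt_zpow_iff_right₀ hv).1 (by linarith)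
  rcases (Int.lt_add_one_iff.1 h5).eq_or_lt with rfl | h6
  · rw [th_eq hv h1.le h2, th_eq hv h3.le h4]
    exact act_mono hv _ h
  · refine lt_of_lt_of_le ?_ ((zpow_le_zpow_right₀ hv.le (by omega : -j ≤ -j' - 1)).trans
      (th_bounds hv h3.le h4).1)
    rw [th_eq hv h1.le h2, ← L_right]
    exact act_mono hv _ (by linarith)

theorem th_scale (n : ℤ) {x : ℝ} (hx : x < 0) : th σ u (σ u ^ n * x) = σ u ^ (-n) * th σ u x := by
  obtain ⟨j, h1, h2⟩ := exists_mem_Ioc_zpow (neg_pos.2 hx) hv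
  have h0 := su_ne (u := u) σ
  rw [th_eq hv h1.le h2, th_eq hv (j := n + j)
    (by rw [zpow_add₀ h0, ← mul_neg]; exact mul_le_mul_of_nonneg_left h1.le (vp hv n).le)
    (by rw [add_assoc, zpow_add₀ h0, ← mul_neg]; exact mul_le_mul_of_nonneg_left h2 (vp hv n).le),
    act_L, act_L]
  have e1 : σ u ^ (-2 * (n + j) - 1) * σ u ^ n = σ u ^ (-n) * σ u ^ (-2 * j - 1) := by
    rw [← zpow_add₀ h0, ← zpow_add₀ h0]; congr 1; ring
  have e2 : σ u ^ (-(n + j)) = σ u ^ (-n) * σ u ^ (-j) := by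
    rw [← zpow_add₀ h0]; congr 1; ring
  have e3 : σ u ^ (-(n + j) - 1) = σ u ^ (-n) * σ u ^ (-j - 1) := by
    rw [← zpow_add₀ h0]; congr 1; ring
  linear_combination x * e1 + e2 + e3

theorem th_top (x : ℝ) : Tendsto (fun y => th σ u (y - x)) (𝓝[<] x) atTop := by
  rw [tendsto_atTop]
  intro M
  obtain ⟨n, hn⟩ := pow_unbounded_of_one_lt M hv
  filter_upwards [Ioo_mem_nhdsLT (show x - σ u ^ (-n : ℤ) < x by linarith [vp hv (-n : ℤ)])]
    with y hy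
  have := th_mono hv (show -σ u ^ (-n : ℤ) < y - x by linarith [hy.1]) (by linarith [hy.2])
  rw [th_pow hv, neg_neg, zpow_natCast] at this
  linarith

omit hv in
theorem PA_pieces {f : ℝ → ℝ} {x a b a' b' : ℝ} {α β : Af u} (h1 : a ≤ x) (h2 : x < b)
    (h3 : a' < x) (h4 : x ≤ b') (ha : a ∈ range σ) (hα : ∀ y, a ≤ y → y ≤ b → f y = act σ α y)
    (hβ : ∀ y, a' ≤ y → y ≤ b' → f y = act σ β y) : PA σ u f x := by
  refine ⟨⟨α, ?_⟩, ⟨β, ?_⟩, fun hx => ⟨α, ?_⟩⟩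
  · filter_upwards [Icc_mem_nhdsGE h2] with y hy using hα y (h1.trans hy.1) hy.2
  · filter_upwards [Icc_mem_nhdsLE h3] with y hy using hβ y hy.1 (hy.2.trans h4)
  · filter_upwards [Icc_mem_nhds (lt_of_le_of_ne h1 (by rintro rfl; exact hx ha)) h2] with y hy
      using hα y hy.1 hy.2

theorem PA_th {x : ℝ} (hx : x < 0) : PA σ u (th σ u) x := by
  obtain ⟨j, h1, h2⟩ := exists_mem_Ioc_zpow (neg_pos.2 hx) hv
  obtain ⟨j', h3, h4⟩ := exists_mem_Ico_zpow (neg_pos.2 hx) hv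
  exact PA_pieces (a := -σ u ^ (j + 1)) (b := -σ u ^ j) (a' := -σ u ^ (j' + 1)) (b' := -σ u ^ j')
    (by linarith) (by linarith) (by linarith) (by linarith)
    ⟨-(u ^ (j + 1) : Kˣ), by rw [map_neg, map_upow]⟩
    (fun y h h' => th_eq hv (j := j) (by linarith) (by linarith))
    (fun y h h' => th_eq hv (j := j') (by linarith) (by linarith))

theorem PA_et {x : ℝ} (hx : 0 < x) : PA σ u (et σ u) x := by
  obtain ⟨j, h1, h2⟩ := exists_mem_Ico_zpow hx hv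
  obtain ⟨j', h3, h4⟩ := exists_mem_Ioc_zpow hx hv
  exact PA_pieces (α := L' u j) (β := L' u j') h1 h2 h3 h4 ⟨(u ^ j : Kˣ), map_upow σ j⟩
    (fun y h h' => by rw [act_L', et, th_eq hv (j := j) (by linarith) (by linarith)])
    (fun y h h' => by rw [act_L', et, th_eq hv (j := j') (by linarith) (by linarith)])

omit hv in
theorem germ_comp {F F' : Filter ℝ} {f g : ℝ → ℝ} {α β : Af u} (hf : ∀ᶠ y in F, f y = act σ α y)
    (ht : Tendsto (act σ α) F F') (hg : ∀ᶠ y in F', g y = act σ β y) :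
    ∀ᶠ y in F, g (f y) = act σ (β * α) y := by
  filter_upwards [hf, ht.eventually hg] with y h1 h2
  rw [h1, h2, act_mul']

theorem PA.comp {f g : ℝ → ℝ} {x : ℝ} (hg : PA σ u g (f x)) (hf : PA σ u f x) :
    PA σ u (fun y => g (f y)) x := by
  obtain ⟨⟨α, h1⟩, ⟨β, h2⟩, h3⟩ := hf
  obtain ⟨⟨α', h1'⟩, ⟨β', h2'⟩, h3'⟩ := hg
  have e1 : f x = act σ α x := h1.self_of_nhdsWithin self_mem_Ici
  have e2 : f x = act σ β x := h2.self_of_nhdsWithin self_mem_Iic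
  refine ⟨⟨_, germ_comp h1 (iso_ge (actIso hv α) x) (by rw [e1] at h1'; exact h1')⟩,
    ⟨_, germ_comp h2 (iso_le (actIso hv β) x) (by rw [e2] at h2'; exact h2')⟩, fun hx => ?_⟩
  obtain ⟨γ, h4⟩ := h3 hx
  obtain ⟨γ', h4'⟩ := h3' (by rwa [e1, act_mem_iff])
  exact ⟨_, germ_comp h4 ((act_cont σ γ).tendsto x) (by rwa [← h4.self_of_nhds])⟩

omit hv in
theorem PA.congr {f g : ℝ → ℝ} {x : ℝ} (hf : PA σ u f x) (h : ∀ᶠ y in 𝓝 x, g y = f y) :
    PA σ u g x := by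
  obtain ⟨⟨α, h1⟩, ⟨β, h2⟩, h3⟩ := hf
  refine ⟨⟨α, ?_⟩, ⟨β, ?_⟩, fun hx => ?_⟩
  · filter_upwards [h1, h.filter_mono nhdsWithin_le_nhds] with y e1 e2 using e2.trans e1
  · filter_upwards [h2, h.filter_mono nhdsWithin_le_nhds] with y e1 e2 using e2.trans e1
  · obtain ⟨γ, h4⟩ := h3 hx
    exact ⟨γ, by filter_upwards [h4, h] with y e1 e2 using e2.trans e1⟩

theorem PA.ga {f : ℝ → ℝ} {x : ℝ} (hf : PA σ u f x) : GA σ u f x := by
  obtain ⟨h1, ⟨β, h2⟩, h3⟩ := hf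
  refine ⟨h1, h3, fun _ => ⟨⟨0, -β.n⟩, ?_⟩⟩
  have e2 : f x = act σ β x := h2.self_of_nhdsWithin self_mem_Iic
  filter_upwards [h2.filter_mono (nhdsWithin_mono x Iio_subset_Iic_self), self_mem_nhdsWithin]
    with y h4 (h5 : y < x)
  have : f y - f x = σ u ^ β.n * (y - x) := by rw [h4, e2, act, act]; ring
  rw [this, th_scale hv _ (by linarith)]
  simp [act]

theorem sign_ev {F : Filter ℝ} {x : ℝ} (hF : F ≤ 𝓝 x)
    (h : (∀ᶠ y in F, x ≤ y) ∨ (∀ᶠ y in F, y ≤ x) ∨ x ∉ range σ) (α β : Af u) :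
    (∀ᶠ y in F, act σ α y ≤ act σ β y) ∨ ∀ᶠ y in F, act σ β y ≤ act σ α y := by
  rcases lt_trichotomy (act σ α x) (act σ β x) with h1 | h1 | h1
  · exact Or.inl (hF (((act_cont σ α).continuousAt.eventually_lt (act_cont σ β).continuousAt
      h1).mono fun _ h => h.le))
  · have e : ∀ y, act σ α y - act σ β y = (σ u ^ α.n - σ u ^ β.n) * (y - x) := fun y => by
      unfold act at h1 ⊢
      linear_combination h1
    rcases h with h | h | h
    · rcases le_total (σ u ^ α.n) (σ u ^ β.n) with h2 | h2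
      · exact Or.inl (h.mono fun y hy => by nlinarith [e y])
      · exact Or.inr (h.mono fun y hy => by nlinarith [e y])
    · rcases le_total (σ u ^ α.n) (σ u ^ β.n) with h2 | h2
      · exact Or.inr (h.mono fun y hy => by nlinarith [e y])
      · exact Or.inl (h.mono fun y hy => by nlinarith [e y])
    · rw [act_ext' hv h h1]
      exact Or.inl (Eventually.of_forall fun _ => le_rfl)
  · exact Or.inr (hF (((act_cont σ β).continuousAt.eventually_lt (act_cont σ α).continuousAt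
      h1).mono fun _ h => h.le))

theorem PA.op (m : ℝ → ℝ → ℝ)
    (hm : ((∀ a b, a ≤ b → m a b = a) ∧ ∀ a b, b ≤ a → m a b = b) ∨
      ((∀ a b, a ≤ b → m a b = b) ∧ ∀ a b, b ≤ a → m a b = a))
    {f g : ℝ → ℝ} {x : ℝ} (hf : PA σ u f x) (hg : PA σ u g x) :
    PA σ u (fun y => m (f y) (g y)) x := by
  have key : ∀ F : Filter ℝ, F ≤ 𝓝 x →
      ((∀ᶠ y in F, x ≤ y) ∨ (∀ᶠ y in F, y ≤ x) ∨ x ∉ range σ) →
      (∃ α : Af u, ∀ᶠ y in F, f y = act σ α y) → (∃ α : Af u, ∀ᶠ y in F, g y = act σ α y) →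
      ∃ α : Af u, ∀ᶠ y in F, m (f y) (g y) = act σ α y := by
    rintro F hF h ⟨α, h1⟩ ⟨β, h2⟩
    rcases sign_ev hv hF h α β with h3 | h3 <;> rcases hm with hm | hm
    · exact ⟨α, by filter_upwards [h1, h2, h3] with y e1 e2 e3; rw [e1, e2, hm.1 _ _ e3]⟩
    · exact ⟨β, by filter_upwards [h1, h2, h3] with y e1 e2 e3; rw [e1, e2, hm.1 _ _ e3]⟩
    · exact ⟨β, by filter_upwards [h1, h2, h3] with y e1 e2 e3; rw [e1, e2, hm.2 _ _ e3]⟩
    · exact ⟨α, by filter_upwards [h1, h2, h3] with y e1 e2 e3; rw [e1, e2, hm.2 _ _ e3]⟩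
  exact ⟨key _ nhdsWithin_le_nhds (Or.inl self_mem_nhdsWithin) hf.1 hg.1,
    key _ nhdsWithin_le_nhds (Or.inr (Or.inl self_mem_nhdsWithin)) hf.2.1 hg.2.1,
    fun hx => key _ le_rfl (Or.inr (Or.inr hx)) (hf.2.2 hx) (hg.2.2 hx)⟩

theorem PAfun.act (α : Af u) : PAfun σ u (act σ α) :=
  ⟨act_mono hv α, fun x => ⟨_, act_act_inv σ α x⟩, fun _ =>
    ⟨⟨α, Eventually.of_forall fun _ => rfl⟩, ⟨α, Eventually.of_forall fun _ => rfl⟩,
      fun _ => ⟨α, Eventually.of_forall fun _ => rfl⟩⟩⟩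

theorem PAfun.id : PAfun σ u (fun x => x) := by
  have := PAfun.act hv (1 : Af u)
  rwa [show Ord4.act σ (1 : Af u) = fun x => x from funext (act_one σ)] at this

theorem PAfun.min {f g : ℝ → ℝ} (hf : PAfun σ u f) (hg : PAfun σ u g) :
    PAfun σ u fun x => min (f x) (g x) := by
  refine ⟨fun _ _ h => min_lt_min (hf.1 h) (hg.1 h), fun z => ?_, fun x =>
    PA.op hv Min.min (Or.inl ⟨fun _ _ => min_eq_left, fun _ _ => min_eq_right⟩) (hf.2.2 x) (hg.2.2 x)⟩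
  obtain ⟨a, ha⟩ := hf.2.1 z
  obtain ⟨b, hb⟩ := hg.2.1 z
  rcases le_total a b with h | h
  · exact ⟨b, by simp only [hb]; exact min_eq_right (ha ▸ hf.1.monotone h)⟩
  · exact ⟨a, by simp only [ha]; exact min_eq_left (hb ▸ hg.1.monotone h)⟩

theorem PAfun.max {f g : ℝ → ℝ} (hf : PAfun σ u f) (hg : PAfun σ u g) :
    PAfun σ u fun x => max (f x) (g x) := by
  refine ⟨fun _ _ h => max_lt_max (hf.1 h) (hg.1 h), fun z => ?_, fun x =>
    PA.op hv Max.max (Or.inr ⟨fun _ _ => max_eq_right, fun _ _ => max_eq_left⟩) (hf.2.2 x) (hg.2.2 x)⟩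
  obtain ⟨a, ha⟩ := hf.2.1 z
  obtain ⟨b, hb⟩ := hg.2.1 z
  rcases le_total a b with h | h
  · exact ⟨a, by simp only [ha]; exact max_eq_left (hb ▸ hg.1.monotone h)⟩
  · exact ⟨b, by simp only [hb]; exact max_eq_right (ha ▸ hf.1.monotone h)⟩

end Pool.Agent.H29.Ord4
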