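import Mathlib
import Pool.Agent.H29.Ord4

open Set Filter Topology

namespace Pool.Agent.H29.Ord4
open Pool.Agent.H29.Ord1 Pool.Agent.H29.Ord3

variable {K : Type} [Field K] {u : Kˣ} {σ : K →+* ℝ}

theorem GA.mem {f : ℝ → ℝ} {x : ℝ} (hf : GA σ u f x) : f x ∈ range σ ↔ x ∈ range σ := by
  obtain ⟨α, h⟩ := hf.1
  rw [h.self_of_nhdsWithin self_mem_Ici, act_mem_iff]

theorem LT'.comp {g h : ℝ ≃o ℝ} {x : ℝ} {α β : Af u} (hh : LT' σ h x α) (hg : LT' σ g (h x) β) :
    LT' σ ⇑(g * h) x (β * α) := by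
  filter_upwards [hh, (iso_lt h x).eventually hg] with y h1 h2
  rw [act_mul', ← h1, ← h2]
  rfl

theorem LT'.inv {g : ℝ ≃o ℝ} {x : ℝ} {α : Af u} (hg : LT' σ g x α) : LT' σ ⇑(g⁻¹) (g x) α⁻¹ := by
  have := iso_lt g⁻¹ (g x)
  rw [RelIso.inv_apply_self] at this
  filter_upwards [this.eventually hg] with y h1
  rw [RelIso.apply_inv_self] at h1
  rw [h1, act_inv_act, RelIso.inv_apply_self]

theorem germ_inv {g : ℝ ≃o ℝ} {F F' : Filter ℝ} {α : Af u} (h : ∀ᶠ y in F, g y = act σ α y)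
    (ht : Tendsto ⇑(g⁻¹) F' F) : ∀ᶠ y in F', g⁻¹ y = act σ α⁻¹ y := by
  filter_upwards [ht.eventually h] with y h1
  rw [RelIso.apply_inv_self] at h1
  conv_rhs => rw [h1, act_inv_act]

theorem germ_mul {g h : ℝ ≃o ℝ} {F F' : Filter ℝ} {α β : Af u} (hh : ∀ᶠ y in F, h y = act σ α y)
    (ht : Tendsto h F F') (hg : ∀ᶠ y in F', g y = act σ β y) :
    ∀ᶠ y in F, (g * h) y = act σ (β * α) y := by
  filter_upwards [hh, ht.eventually hg] with y h1 h2
  rw [act_mul', ← h1, ← h2]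
  rfl

/-- the group -/
def Gam (hv : 1 < σ u) : Subgroup (ℝ ≃o ℝ) where
  carrier := {g | (∃ c, ∀ x ≤ c, g x = x) ∧ (∃ c, ∀ x, c ≤ x → g x = x) ∧ ∀ x, GA σ u g x}
  one_mem' := ⟨⟨0, fun _ _ => rfl⟩, ⟨0, fun _ _ => rfl⟩, fun x => ((PAfun.id hv).2.2 x).ga hv⟩
  mul_mem' := by
    rintro g h ⟨⟨a, ha⟩, ⟨b, hb⟩, hg⟩ ⟨⟨a', ha'⟩, ⟨b', hb'⟩, hh⟩
    refine ⟨⟨min a a', fun x hx => ?_⟩, ⟨max b b', fun x hx => ?_⟩, fun x => ⟨?_, ?_, ?_⟩⟩
    · rw [RelIso.mul_apply, ha' x (hx.trans (min_le_right _ _)), ha x (hx.trans (min_le_left _ _))]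
    · rw [RelIso.mul_apply, hb' x ((le_max_right _ _).trans hx), hb x ((le_max_left _ _).trans hx)]
    · obtain ⟨α, h1⟩ := (hh x).1
      obtain ⟨β, h2⟩ := (hg (h x)).1
      exact ⟨_, germ_mul h1 (iso_ge h x) h2⟩
    · intro hx
      obtain ⟨α, h1⟩ := (hh x).2.1 hx
      obtain ⟨β, h2⟩ := (hg (h x)).2.1 (by rwa [(hh x).mem])
      exact ⟨_, germ_mul h1 (h.continuous.tendsto x) h2⟩
    · intro hx
      obtain ⟨α, h1⟩ := (hh x).2.2 hx
      obtain ⟨β, h2⟩ := (hg (h x)).2.2 (by rwa [(hh x).mem])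
      exact ⟨_, h1.comp h2⟩
  inv_mem' := by
    rintro g ⟨⟨a, ha⟩, ⟨b, hb⟩, hg⟩
    refine ⟨⟨a, fun x hx => ?_⟩, ⟨b, fun x hx => ?_⟩, fun x => ?_⟩
    · conv_lhs => rw [← ha x hx, RelIso.inv_apply_self]
    · conv_lhs => rw [← hb x hx, RelIso.inv_apply_self]
    · refine ⟨?_, fun hx => ?_, fun hx => ?_⟩
      · obtain ⟨α, h1⟩ := (hg (g⁻¹ x)).1
        exact ⟨_, germ_inv h1 (iso_ge g⁻¹ x)⟩
      · obtain ⟨α, h1⟩ := (hg (g⁻¹ x)).2.1 (by rwa [← (hg _).mem, RelIso.apply_inv_self])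
        exact ⟨_, germ_inv h1 ((g⁻¹).continuous.tendsto x)⟩
      · obtain ⟨α, h1⟩ := (hg (g⁻¹ x)).2.2 (by rwa [← (hg _).mem, RelIso.apply_inv_self])
        have := h1.inv
        rw [RelIso.apply_inv_self] at this
        exact ⟨_, this⟩

variable (hv : 1 < σ u)

def rho : Gam hv →* Equiv.Perm ℝ where
  toFun g := g.1.toEquiv
  map_one' := rfl
  map_mul' _ _ := rfl

theorem rho_apply (g : Gam hv) (x : ℝ) : rho hv g x = g.1 x := rfl

theorem mkG {f : ℝ → ℝ} (h1 : StrictMono f) (h2 : Function.Surjective f) (h3 : ∀ x, GA σ u f x)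
    (h4 : ∃ c, ∀ x ≤ c, f x = x) (h5 : ∃ c, ∀ x, c ≤ x → f x = x) :
    ∃ g : Gam hv, ∀ x, rho hv g x = f x :=
  ⟨⟨h1.orderIsoOfSurjective f h2, h4, h5, h3⟩, fun _ => rfl⟩

include hv in
theorem le_cen_left (a : K) {n : ℤ} (hn : n ≤ 0) {x : ℝ} (hx : x ≤ σ a) :
    x ≤ act σ (cen (u := u) a n) x := by
  rw [act_cen]
  nlinarith [zpow_le_one_of_nonpos₀ hv.le hn]

include hv in
theorem le_cen_right (a : K) {n : ℤ} (hn : 0 ≤ n) {x : ℝ} (hx : σ a ≤ x) :
    x ≤ act σ (cen (u := u) a n) x := by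
  rw [act_cen]
  nlinarith [one_le_zpow₀ hv.le hn]

theorem bump (a b : K) {n m : ℤ} (hn : n ≤ 0) (hm : 0 ≤ m) (α : Af u) :
    ∃ g : Gam hv, fixL (rho hv) g (σ a) ∧ fixR (rho hv) g (σ b) ∧ ∀ x, rho hv g x =
      min x (max (act σ (cen (u := u) a n) x) (max (act σ (cen (u := u) b m) x) (act σ α x))) := by
  have hP := PAfun.min hv (PAfun.id hv) (PAfun.max hv (PAfun.act hv (cen a n))
    (PAfun.max hv (PAfun.act hv (cen b m)) (PAfun.act hv α)))
  have h1 : ∀ x ≤ σ a, min x (max (act σ (cen (u := u) a n) x) (max (act σ (cen (u := u) b m) x)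
      (act σ α x))) = x := fun x hx => min_eq_left (le_max_of_le_left (le_cen_left hv a hn hx))
  have h2 : ∀ x, σ b ≤ x → min x (max (act σ (cen (u := u) a n) x)
      (max (act σ (cen (u := u) b m) x) (act σ α x))) = x := fun x hx =>
    min_eq_left (le_max_of_le_right (le_max_of_le_left (le_cen_right hv b hm hx)))
  obtain ⟨g, hg⟩ := mkG hv hP.1 hP.2.1 (fun x => (hP.2.2 x).ga hv) ⟨_, h1⟩ ⟨_, h2⟩
  exact ⟨g, fun x hx => (hg x).trans (h1 x hx), fun x hx => (hg x).trans (h2 x hx), hg⟩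

theorem good : Good (rho hv) where
  inj := fun a b h => Subtype.ext (RelIso.toEquiv_injective h)
  mono := fun g => g.1.strictMono
  bddL := fun g => g.2.1
  bddR := fun g => g.2.2.1
  down := by
    intro A B x y h1 h2
    obtain ⟨a, ha1, ha2⟩ := exists_rat_btwn h1
    obtain ⟨b, hb1, hb2⟩ := exists_rat_btwn h2
    obtain ⟨n, hn⟩ := pow_unbounded_of_one_lt (max ((x - a) / (y - a)) ((b - y) / (b - x))) hv
    obtain ⟨g, g1, g2, g3⟩ := bump hv (a : K) (b : K) (n := -n) (m := n) (by omega) (by omega)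
      (cen (b : K) n)
    rw [map_ratCast] at g1 g2
    refine ⟨g, g1.anti ha1.le, g2.mono hb2.le, ?_⟩
    have e1 := (div_lt_iff₀ (by linarith)).1 ((le_max_left _ _).trans_lt hn)
    have e2 := (div_lt_iff₀ (by linarith)).1 ((le_max_right _ _).trans_lt hn)
    have hp : 0 < σ u ^ n := by positivity
    rw [g3, max_self]
    refine min_lt_of_right_lt (max_lt ?_ ?_)
    · rw [act_cen, map_ratCast, zpow_neg, zpow_natCast, ← lt_sub_iff_add_lt', inv_mul_lt_iff₀ hp]
      linarith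
    · rw [act_cen, map_ratCast, zpow_natCast]
      linarith
  dense := fun _ _ h => exists_between h
  nomin := exists_lt
  nomax := exists_gt

theorem move {p q : K} (h : σ q ≤ σ p) : ∃ t : Gam hv, rho hv t (σ p) = σ q := by
  have h0 : 0 < σ u - 1 := by linarith
  obtain ⟨a, ha⟩ := exists_rat_lt ((σ q * σ u - σ p) / (σ u - 1))
  obtain ⟨b, hb⟩ := exists_rat_gt ((σ u * σ p - σ q) / (σ u - 1))
  rw [lt_div_iff₀ h0] at ha
  rw [div_lt_iff₀ h0] at hb
  obtain ⟨g, -, -, g3⟩ := bump hv (a : K) (b : K) (n := -1) (m := 1) (by omega) (by omega)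
    ⟨q - p, 0⟩
  refine ⟨g, ?_⟩
  have e : act σ (⟨q - p, 0⟩ : Af u) (σ p) = σ q := by simp [act]
  rw [g3, e, max_eq_right (b := σ q), max_eq_right, min_eq_right h]
  · rw [act_cen, map_ratCast, zpow_neg_one, ← le_sub_iff_add_le', inv_mul_le_iff₀ (by linarith)]
    linarith
  · rw [act_cen, map_ratCast, zpow_one]
    linarith

theorem to_zero {p : ℝ} (hp : p ∈ range σ) : ∃ t : Gam hv, rho hv t p = 0 := by
  obtain ⟨p, rfl⟩ := hp
  rcases le_total (σ 0) (σ p) with h | h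
  · simpa using move hv h
  · obtain ⟨t, ht⟩ := move hv h
    exact ⟨t⁻¹, by rw [← ht, act_inv, map_zero]⟩

theorem extreme {g : Gam hv} {p : ℝ} {F : Filter ℝ} [NeBot F] (hF : F ≤ 𝓝[≠] p)
    (h1 : ∀ᶠ y in F, rho hv g y = y) (h2 : ¬ ∀ᶠ y in 𝓝 p, rho hv g y = y) : p ∈ range σ := by
  by_contra hp
  obtain ⟨α, hα⟩ := (g.2.2.2 p).2.1 hp
  have : α = 1 := uniq hv (F := F) (φ := id) (ne_ev hF) (by
    filter_upwards [h1, hα.filter_mono (hF.trans nhdsWithin_le_nhds)] with y e1 e2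
    rw [act_one, id, ← e2]; exact e1)
  exact h2 (hα.mono fun y hy => by rw [rho_apply, hy, this, act_one])

theorem leftmost {g : Gam hv} (hg : g ≠ 1) :
    ∃ p ∈ range σ, fixL (rho hv) g p ∧ ∀ q, p < q → ¬ fixL (rho hv) g q := by
  obtain ⟨x, hx⟩ : ∃ x, rho hv g x ≠ x := by
    by_contra hno
    push Not at hno
    exact hg ((good hv).inj (by ext x; simpa using hno x))
  have hb : BddAbove {c | fixL (rho hv) g c} :=
    ⟨x, fun c hc => le_of_not_ge fun h => hx (hc x h)⟩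
  have hne : {c | fixL (rho hv) g c}.Nonempty := (good hv).bddL g
  have h1 : ∀ y < sSup {c | fixL (rho hv) g c}, rho hv g y = y := fun y hy => by
    obtain ⟨c, hc, hyc⟩ := exists_lt_of_lt_csSup hne hy
    exact hc y hyc.le
  have h2 : ∀ q, sSup {c | fixL (rho hv) g c} < q → ¬ fixL (rho hv) g q := fun q hq h =>
    absurd (le_csSup hb h) (not_le.2 hq)
  generalize sSup {c | fixL (rho hv) g c} = p at h1 h2
  have h3 : fixL (rho hv) g p := fun y hy =>
    (isClosed_eq g.1.continuous continuous_id).closure_subset_iff.2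
      (show Iio p ⊆ _ from h1) (by rwa [closure_Iio])
  refine ⟨p, extreme hv (F := 𝓝[<] p) (nhdsLT_le_nhdsNE p)
    (eventually_nhdsWithin_of_forall h1) fun h => ?_, h3, h2⟩
  obtain ⟨q, hq, h4⟩ := mem_nhdsGE_iff_exists_Icc_subset.1 (h.filter_mono nhdsWithin_le_nhds)
  refine h2 q hq fun y hy => ?_
  rcases le_total y p with h | h
  · exact h3 y h
  · exact h4 ⟨h, hy⟩

theorem rightmost {g : Gam hv} (hg : g ≠ 1) :
    ∃ p ∈ range σ, fixR (rho hv) g p ∧ ∀ q, q < p → ¬ fixR (rho hv) g q := by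
  obtain ⟨x, hx⟩ : ∃ x, rho hv g x ≠ x := by
    by_contra hno
    push Not at hno
    exact hg ((good hv).inj (by ext x; simpa using hno x))
  have hb : BddBelow {c | fixR (rho hv) g c} :=
    ⟨x, fun c hc => le_of_not_ge fun h => hx (hc x h)⟩
  have hne : {c | fixR (rho hv) g c}.Nonempty := (good hv).bddR g
  have h1 : ∀ y, sInf {c | fixR (rho hv) g c} < y → rho hv g y = y := fun y hy => by
    obtain ⟨c, hc, hyc⟩ := exists_lt_of_csInf_lt hne hy
    exact hc y hyc.le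
  have h2 : ∀ q, q < sInf {c | fixR (rho hv) g c} → ¬ fixR (rho hv) g q := fun q hq h =>
    absurd (csInf_le hb h) (not_le.2 hq)
  generalize sInf {c | fixR (rho hv) g c} = p at h1 h2
  have h3 : fixR (rho hv) g p := fun y hy =>
    (isClosed_eq g.1.continuous continuous_id).closure_subset_iff.2
      (show Ioi p ⊆ _ from h1) (by rwa [closure_Ioi])
  refine ⟨p, extreme hv (F := 𝓝[>] p) (nhdsGT_le_nhdsNE p)
    (eventually_nhdsWithin_of_forall h1) fun h => ?_, h3, h2⟩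
  obtain ⟨q, hq, h4⟩ := mem_nhdsLE_iff_exists_Icc_subset.1 (h.filter_mono nhdsWithin_le_nhds)
  refine h2 q hq fun y hy => ?_
  rcases le_total y p with h | h
  · exact h4 ⟨hy, h⟩
  · exact h3 y h

theorem norm_abs {Γ X H : Type} [Group Γ] [LinearOrder X] [Group H] {ρ : Γ →* Equiv.Perm X}
    (G : Good ρ) {p : X} {γ : Γ → H}
    (ker : ∀ g, ρ g p = p → (γ g = 1 ↔ ∃ q, p < q ∧ ∀ x, p ≤ x → x ≤ q → ρ g x = x))
    {g t : Γ} {p' : X} (ht : ρ t p' = p) (h1 : fixL ρ g p') (h2 : ∀ q, p' < q → ¬ fixL ρ g q) :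
    fixL ρ (t * g * t⁻¹) p ∧ γ (t * g * t⁻¹) ≠ 1 := by
  have h3 : fixL ρ (t * g * t⁻¹) p := ht ▸ G.conjL h1 t
  refine ⟨h3, fun h => ?_⟩
  obtain ⟨q, hq, h4⟩ := (ker _ (h3 p le_rfl)).1 h
  have h5 : fixL ρ (t * g * t⁻¹) q := fun x hx => by
    rcases le_total x p with h | h
    · exact h3 x h
    · exact h4 x h hx
  have h6 := G.conjL h5 t⁻¹
  rw [show t⁻¹ * (t * g * t⁻¹) * t⁻¹⁻¹ = g by group] at h6
  refine h2 _ ?_ h6
  have := G.mono t⁻¹ hq
  rwa [← ht, act_inv] at this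

theorem inv_abs {Γ X H : Type} [Group Γ] [Group H] {ρ : Γ →* Equiv.Perm X} {p : X} {γ : Γ → H}
    (mul : ∀ g h, ρ g p = p → ρ h p = p → γ (g * h) = γ g * γ h) {g : Γ} (hg : ρ g p = p) :
    γ g⁻¹ = (γ g)⁻¹ := by
  have h0 := mul 1 1 (by simp) (by simp)
  rw [one_mul] at h0
  have h1 : ρ g⁻¹ p = p := by conv_lhs => rw [← hg, act_inv]
  have := mul g⁻¹ g h1 hg
  rw [inv_mul_cancel, left_eq_mul.1 h0] at this
  exact eq_inv_of_mul_eq_one_left this.symm

theorem germR : ∃ γ : Gam hv → Multiplicative ℤ, Germ (rho hv) 0 (Multiplicative ℤ) γ := by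
  choose A hA using fun g : Gam hv => (g.2.2.2 0).1
  have hA' : ∀ (g : Gam hv) α, (∀ᶠ y in 𝓝[≥] (0 : ℝ), g.1 y = act σ α y) → A g = α :=
    fun g α h => uniq_ge hv (x := 0) (by filter_upwards [hA g, h] with y e1 e2 using e1.symm.trans e2)
  have hmul : ∀ g h : Gam hv, rho hv g 0 = 0 → rho hv h 0 = 0 →
      Multiplicative.ofAdd (A (g * h)).n =
        Multiplicative.ofAdd (A g).n * Multiplicative.ofAdd (A h).n := by
    intro g h _ hh
    have := iso_ge h.1 0
    rw [show h.1 0 = 0 from hh] at this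
    rw [hA' (g * h) _ (germ_mul (hA h) this (hA g))]
    rfl
  have hker : ∀ g : Gam hv, rho hv g 0 = 0 → (Multiplicative.ofAdd (A g).n = 1 ↔
      ∃ q, 0 < q ∧ ∀ x, 0 ≤ x → x ≤ q → rho hv g x = x) := by
    intro g hg
    constructor
    · intro h
      have h1 : (A g).n = 0 := h
      have h2 := (hA g).self_of_nhdsWithin self_mem_Ici
      rw [show g.1 0 = 0 from hg, act, mul_zero, zero_add] at h2
      obtain ⟨q, hq, h4⟩ := mem_nhdsGE_iff_exists_Icc_subset.1 (hA g)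
      refine ⟨q, hq, fun x h5 h6 => (h4 ⟨h5, h6⟩).trans ?_⟩
      rw [act, h1, ← h2]; simp
    · rintro ⟨q, hq, h⟩
      rw [hA' g 1 (by
        filter_upwards [Icc_mem_nhdsGE hq] with y hy
        rw [act_one]; exact h y hy.1 hy.2)]
      rfl
  refine ⟨fun g => Multiplicative.ofAdd (A g).n, hmul, hker, ?_, fun g hg => ?_⟩
  · have key : ∀ n : ℤ, n ≤ 0 → ∃ g, fixL (rho hv) g 0 ∧ (A g).n = n := by
      intro n hn
      obtain ⟨g, g1, -, g3⟩ := bump hv (0 : K) 1 (m := 1) hn (by omega) (cen 1 1)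
      rw [map_zero] at g1
      refine ⟨g, g1, ?_⟩
      rw [hA' g (cen 0 n) ?_]
      · rfl
      have h1 : act σ (cen (u := u) 1 1) 0 < 0 := by
        rw [act_cen]; simp; linarith
      filter_upwards [((act_cont σ (cen (u := u) 1 1)).continuousAt.eventually_lt
        continuousAt_const h1).filter_mono nhdsWithin_le_nhds, self_mem_nhdsWithin] with y h2
        (h3 : 0 ≤ y)
      have h4 : act σ (cen (u := u) 0 n) y = σ u ^ n * y := by rw [act_cen]; simp
      have h5 := vp hv n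
      have h6 := zpow_le_one_of_nonpos₀ hv.le hn
      rw [← rho_apply, g3, max_self, max_eq_left (by rw [h4]; nlinarith),
        min_eq_right (by rw [h4]; nlinarith)]
    intro a
    rcases le_total a.toAdd 0 with h | h
    · obtain ⟨g, h1, h2⟩ := key _ h
      exact ⟨g, h1, by simp [h2]⟩
    · obtain ⟨g, h1, h2⟩ := key (-a.toAdd) (by omega)
      refine ⟨g⁻¹, h1.inv, ?_⟩
      rw [inv_abs (γ := fun g => Multiplicative.ofAdd (A g).n) hmul (h1 0 le_rfl)]
      simp [h2]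
  · obtain ⟨p, hp, h1, h2⟩ := leftmost hv hg
    obtain ⟨t, ht⟩ := to_zero hv hp
    exact ⟨t, norm_abs (good hv) (γ := fun g => Multiplicative.ofAdd (A g).n) hker ht h1 h2⟩

theorem exists_germL (α : Af u) (hα : ∀ᶠ z in atTop, act σ α z ≤ z) :
    ∃ g : Gam hv, fixR (rho hv) g 0 ∧ LT' σ g.1 0 α := by
  have hP := PAfun.min hv (PAfun.id hv) (PAfun.max hv (PAfun.act hv (cen 1 (min α.n 0 - 1)))
    (PAfun.act hv α))
  have h1 : ∀ z ≤ 1, min z (max (act σ (cen (u := u) 1 (min α.n 0 - 1)) z) (act σ α z)) = z :=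
    fun z hz => min_eq_left (le_max_of_le_left (le_cen_left hv 1 (by omega) (by rwa [map_one])))
  have h2 : ∀ᶠ z in atTop, min z (max (act σ (cen (u := u) 1 (min α.n 0 - 1)) z) (act σ α z)) =
      act σ α z := by
    have h3 : 0 < σ u ^ α.n - σ u ^ (min α.n 0 - 1) :=
      sub_pos.2 (zpow_lt_zpow_right₀ hv (by omega))
    filter_upwards [hα, (tendsto_id.const_mul_atTop h3).eventually_ge_atTop
      (1 - σ u ^ (min α.n 0 - 1) - σ α.k)] with z e1 e2
    rw [max_eq_right, min_eq_right e1]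
    rw [act_cen, map_one, act]
    simp only [id] at e2
    linarith
  obtain ⟨β, hβ, h1, h2⟩ : ∃ β, PAfun σ u β ∧ (∀ z ≤ 1, β z = z) ∧
      ∀ᶠ z in atTop, β z = act σ α z := ⟨_, hP, h1, h2⟩
  have hpos : ∀ y, 0 < y → 0 < β y := fun y hy => by
    have := hβ.1 hy
    rwa [h1 0 zero_le_one] at this
  let f : ℝ → ℝ := fun z => if z < 0 then et σ u (β (th σ u z)) else z
  have f1 : ∀ z, z < 0 → f z = et σ u (β (th σ u z)) := fun z hz => if_pos hz
  have f2 : ∀ z, 0 ≤ z → f z = z := fun z hz => if_neg (not_lt.2 hz)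
  have f3 : ∀ z, z < 0 → f z < 0 := fun z hz => by
    rw [f1 z hz]; exact et_neg hv (hpos _ (th_pos hv hz))
  have hLT : LT' σ f 0 α := by
    filter_upwards [(th_top hv 0).eventually h2, self_mem_nhdsWithin] with y e1 (e2 : y < 0)
    rw [f2 0 le_rfl, sub_zero, f1 y e2, th_et hv (hpos _ (th_pos hv e2)), ← e1, sub_zero]
  obtain ⟨g, hg⟩ := mkG hv (f := f) (by
    intro x y hxy
    rcases lt_or_ge y 0 with hy | hy
    · rw [f1 x (hxy.trans hy), f1 y hy, et, et, neg_lt_neg_iff]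
      exact th_mono hv (neg_lt_neg (hβ.1 (th_mono hv hxy hy)))
        (neg_neg_of_pos (hpos _ (th_pos hv (hxy.trans hy))))
    · rw [f2 y hy]
      rcases lt_or_ge x 0 with hx | hx
      · exact (f3 x hx).trans_le hy
      · rwa [f2 x hx]) (by
    intro w
    rcases lt_or_ge w 0 with hw | hw
    · obtain ⟨y, hy⟩ := hβ.2.1 (th σ u w)
      have hy0 : 0 < y := by
        by_contra hle
        rw [h1 y (by linarith)] at hy
        linarith [th_pos hv hw]
      exact ⟨et σ u y, by rw [f1 _ (et_neg hv hy0), th_et hv hy0, hy, et_th hv hw]⟩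
    · exact ⟨w, f2 w hw⟩) (by
    intro x
    rcases lt_trichotomy x 0 with hx | rfl | hx
    · have e1 : PA σ u (fun y => β (th σ u y)) x :=
        PA.comp hv (f := th σ u) (hβ.2.2 _) (PA_th hv hx)
      have e2 : PA σ u (fun y => et σ u (β (th σ u y))) x :=
        PA.comp hv (f := fun y => β (th σ u y)) (PA_et hv (hpos _ (th_pos hv hx))) e1
      refine (e2.congr ?_).ga hv
      filter_upwards [Iio_mem_nhds hx] with y hy using f1 y hy
    · refine ⟨⟨1, ?_⟩, fun h => absurd ⟨0, map_zero σ⟩ h, fun _ => ⟨α, hLT⟩⟩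
      filter_upwards [self_mem_nhdsWithin] with y hy
      rw [act_one, f2 y hy]
    · refine (((PAfun.id hv).2.2 x).congr ?_).ga hv
      filter_upwards [Ioi_mem_nhds hx] with y hy using f2 y (le_of_lt hy))
    ⟨-1, fun z hz => by
      have h3 : th σ u z ≤ 1 := by
        have h4 := th_pow hv 0
        rw [zpow_zero, neg_zero, zpow_zero] at h4
        rcases hz.eq_or_lt with rfl | hz
        · exact h4.le
        · exact h4 ▸ (th_mono hv hz (by norm_num)).le
      rw [f1 z (by linarith), h1 _ h3, et_th hv (by linarith)]⟩ ⟨0, f2⟩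
  refine ⟨g, fun x hx => (hg x).trans (f2 x hx), ?_⟩
  rwa [show ⇑g.1 = f from funext hg]

theorem germL : ∃ γ : Gam hv → Af u, Germ (X := ℝᵒᵈ) (rho hv) (OrderDual.toDual 0) (Af u) γ := by
  choose A hA using fun g : Gam hv => (g.2.2.2 0).2.2 ⟨0, map_zero σ⟩
  have hA' : ∀ (g : Gam hv) α, LT' σ g.1 0 α → A g = α := fun g α h =>
    uniq hv (F := 𝓝[<] (0 : ℝ)) (φ := fun y => th σ u (y - 0))
      (fun c => (th_top hv 0).eventually_ne_atTop c)
      (by filter_upwards [hA g, h] with y e1 e2 using e1.symm.trans e2)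
  have hmul : ∀ g h : Gam hv, rho hv g 0 = 0 → rho hv h 0 = 0 → A (g * h) = A g * A h := by
    intro g h _ hh
    exact hA' (g * h) _ ((hA h).comp (by rw [show h.1 0 = 0 from hh]; exact hA g))
  have hker : ∀ g : Gam hv, rho hv g 0 = 0 → (A g = 1 ↔
      ∃ q, q < 0 ∧ ∀ x, x ≤ 0 → q ≤ x → rho hv g x = x) := by
    intro g hg
    have hg' : g.1 0 = 0 := hg
    constructor
    · intro h
      have h1 : ∀ᶠ y in 𝓝[<] (0 : ℝ), g.1 y = y := by
        filter_upwards [hA g, self_mem_nhdsWithin] with y e1 (e2 : y < 0)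
        rw [h, act_one, hg', sub_zero, sub_zero] at e1
        have e3 : g.1 y < 0 := hg' ▸ g.1.strictMono e2
        rw [← et_th hv e3, e1, et_th hv e2]
      obtain ⟨q, hq, h4⟩ := mem_nhdsLT_iff_exists_Ico_subset.1 h1
      refine ⟨q, hq, fun x h5 h6 => ?_⟩
      rcases h5.eq_or_lt with rfl | h5
      · exact hg
      · exact h4 ⟨h6, h5⟩
    · rintro ⟨q, hq, h⟩
      refine hA' g 1 ?_
      filter_upwards [Ioo_mem_nhdsLT hq] with y hy
      rw [act_one, hg', show g.1 y = y from h y hy.2.le hy.1.le]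
  refine ⟨A, hmul, hker, fun α => ?_, fun g hg => ?_⟩
  · have hc : (∀ᶠ z in atTop, act σ α z ≤ z) ∨ ∀ᶠ z in atTop, z ≤ act σ α z := by
      rcases lt_trichotomy (σ u ^ α.n) 1 with h | h | h
      · left
        filter_upwards [(tendsto_id.const_mul_atTop (sub_pos.2 h)).eventually_ge_atTop (σ α.k)]
          with z hz
        simp only [id, act] at hz ⊢
        linarith
      · rcases le_total (σ α.k) 0 with h' | h'
        · exact Or.inl (Eventually.of_forall fun z => by rw [act, h]; linarith)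
        · exact Or.inr (Eventually.of_forall fun z => by rw [act, h]; linarith)
      · right
        filter_upwards [(tendsto_id.const_mul_atTop (sub_pos.2 h)).eventually_ge_atTop (-σ α.k)]
          with z hz
        simp only [id, act] at hz ⊢
        linarith
    rcases hc with h | h
    · obtain ⟨g, h1, h2⟩ := exists_germL hv α h
      exact ⟨g, h1, hA' g α h2⟩
    · obtain ⟨g, h1, h2⟩ := exists_germL hv α⁻¹ (h.mono fun z hz => by
        have := (act_mono hv α⁻¹).monotone hz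
        rwa [act_inv_act] at this)
      exact ⟨g⁻¹, h1.inv, by rw [inv_abs hmul (h1 0 le_rfl), hA' g _ h2, inv_inv]⟩
  · obtain ⟨p, hp, h1, h2⟩ := rightmost hv hg
    obtain ⟨t, ht⟩ := to_zero hv hp
    exact ⟨t, norm_abs (X := ℝᵒᵈ) (good hv).dual hker ht h1 h2⟩

open IntermediateField in
theorem main (k : ℕ) (hk : 0 < k) : ∃ (G : Type) (_ : Group G),
    {P : Set G | ConeIn ⊤ P}.encard = ((2 * k : ℕ) : ℕ∞) := by
  have key : ∀ r : ℕ, 0 < r → ∃ (K : Type) (_ : Field K) (u : Kˣ) (σ : K →+* ℝ), 1 < σ u ∧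
      {P : Set (Af u) | ConeIn ⊤ P}.encard = ((4 * r : ℕ) : ℕ∞) := by
    intro r hr
    obtain ⟨y, hy, hint, hpos, hcard⟩ := exists_field r hr
    have h0 : AdjoinSimple.gen ℚ y ≠ 0 := fun h => by
      have : y = 0 := congrArg Subtype.val h
      linarith
    have : Module.Finite ℚ ℚ⟮y⟯ := adjoin.finiteDimensional hint
    refine ⟨ℚ⟮y⟯, inferInstance, Units.mk0 _ h0, algebraMap _ ℝ, hy, ?_⟩
    rw [af_count (u := Units.mk0 _ h0) (adjoin.powerBasis hint).adjoin_gen_eq_top (fun h => by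
      have : y = 1 := congrArg Subtype.val h
      linarith) hpos]
    have : Finite (ℚ⟮y⟯ →+* ℝ) := Nat.finite_of_card_ne_zero (by omega)
    rw [Set.encard_univ, ENat.card_eq_coe_natCard, Nat.card_prod, Nat.card_prod, hcard]
    simp only [Nat.card_eq_fintype_card, Fintype.card_units_int]
    congr 1
    ring
  rcases Nat.even_or_odd' k with ⟨r, rfl | rfl⟩
  · obtain ⟨K, _, u, σ, -, h⟩ := key r (by omega)
    exact ⟨Af u, inferInstance, by rw [h]; congr 1; ring⟩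
  · rcases Nat.eq_zero_or_pos r with rfl | hr
    · exact ⟨Multiplicative ℤ, inferInstance, int_count⟩
    · obtain ⟨K, _, u, σ, hv, h⟩ := key r hr
      obtain ⟨γ, E⟩ := germR hv
      obtain ⟨γ', E'⟩ := germL hv
      refine ⟨commutator (Gam hv), inferInstance, ?_⟩
      rw [total_count (good hv) E E', int_count, h]
      push_cast
      ring

end Pool.Agent.H29.Ord4
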