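import Mathlib

set_option autoImplicit false
open Polynomial

namespace Pool.Agent.H29.Pisot

def sg : Fin 2 → List (Fin 2) := ![[0, 0, 1], [1, 0]]

def F (w : List (Fin 2)) : List (Fin 2) := w.flatMap sg

lemma F_app (N : ℕ) (u v : List (Fin 2)) : F^[N] (u ++ v) = F^[N] u ++ F^[N] v := by
  induction N generalizing u v with
  | zero => rfl
  | succ N ih => simp only [Function.iterate_succ_apply, F, List.flatMap_append]; exact ih _ _

def A (j : ℕ) : List (Fin 2) := F^[2 * j] [0]
def B (j : ℕ) : List (Fin 2) := F^[2 * j] [1]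

lemma A_succ (j : ℕ) : A (j + 1) = A j ++ (A j ++ (B j ++ (A j ++ (A j ++ (B j ++ (B j ++ A j)))))) := by
  simp only [A, B, ← F_app]
  rw [show 2 * (j + 1) = 2 * j + 2 by ring, Function.iterate_add_apply]
  rfl

lemma B_succ (j : ℕ) : B (j + 1) = B j ++ (A j ++ (A j ++ (A j ++ B j))) := by
  simp only [A, B, ← F_app]
  rw [show 2 * (j + 1) = 2 * j + 2 by ring, Function.iterate_add_apply]
  rfl

lemma len_A (j : ℕ) : j < (A j).length := by
  induction j with
  | zero => decide
  | succ j ih => rw [A_succ]; simp only [List.length_append]; omega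

def o (ε : ℕ → Bool) : ℕ → ℕ
  | 0 => 0
  | j + 1 => o ε j + if ε j then 3 * (A j).length + (B j).length else 0

lemma left {u : List (Fin 2)} (v : List (Fin 2)) {n : ℕ} {c : Fin 2} (h : u[n]? = some c) :
    (u ++ v)[n]? = some c := by
  rw [List.getElem?_append_left (List.getElem?_eq_some_iff.1 h).1, h]

lemma right (u : List (Fin 2)) {v : List (Fin 2)} {n m : ℕ} {c : Fin 2} (h : v[n]? = some c)
    (e : m = u.length + n) : (u ++ v)[m]? = some c := by
  rw [List.getElem?_append_right (by omega), show m - u.length = n by omega, h]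

lemma up (ε : ℕ → Bool) (j n : ℕ) (c : Fin 2) (h : (A j)[o ε j + n]? = some c) :
    (A (j + 1))[o ε (j + 1) + n]? = some c := by
  rw [A_succ, o]
  cases ε j
  · simpa using left _ h
  · exact right _ (right _ (right _ (right _ (left _ h) rfl) rfl) rfl) (by simp; ring)

lemma base (ε : ℕ → Bool) (j : ℕ) : (A j)[o ε j]? = some 0 ∧ (B j)[o ε j]? = some 1 := by
  induction j with
  | zero => exact ⟨rfl, rfl⟩
  | succ j ih =>
    refine ⟨up ε j 0 0 ih.1, ?_⟩
    rw [B_succ, o]
    cases ε j
    · simpa using left _ ih.2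
    · exact right _ (right _ (right _ (right _ ih.2 rfl) rfl) rfl) (by simp; ring)

lemma pat (ε : ℕ → Bool) (i j : ℕ) (h : i < j) :
    (A j)[o ε j + (A i).length]? = some (if ε i then 1 else 0) := by
  induction j, h using Nat.le_induction with
  | base =>
    rw [Nat.succ_eq_add_one, A_succ, o]
    cases ε i
    · exact right _ (left _ (base ε i).1) (by simp; ring)
    · exact right _ (right _ (right _ (right _ (right _ (left _ (base ε i).2) rfl) rfl) rfl) rfl)
        (by simp; ring)
  | succ j _ ih => exact up ε j _ _ ih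

def z (t : ℤ) : Fin 2 :=
  ((A t.natAbs ++ A t.natAbs)[(((A t.natAbs).length : ℤ) + t).toNat]?).getD 0

lemma z_eq (t : ℤ) (N : ℕ) (h : t.natAbs ≤ N) :
    (A N ++ A N)[(((A N).length : ℤ) + t).toNat]? = some (z t) := by
  induction N, h using Nat.le_induction with
  | base =>
    have := len_A t.natAbs
    have h : (((A t.natAbs).length : ℤ) + t).toNat < (A t.natAbs ++ A t.natAbs).length := by
      rw [List.length_append]; omega
    rw [z, List.getElem?_eq_getElem h]; rfl
  | succ N h ih =>
    have := len_A N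
    have e : A (N + 1) ++ A (N + 1) = (A N ++ (A N ++ (B N ++ (A N ++ (A N ++ (B N ++ B N)))))) ++
        ((A N ++ A N) ++ (A N ++ (B N ++ (A N ++ (A N ++ (B N ++ (B N ++ A N))))))) := by
      rw [A_succ]; simp only [List.append_assoc]
    rw [e]
    refine right _ (left _ ih) ?_
    rw [A_succ]; simp only [List.length_append]; push_cast; omega

lemma z_lang (m : ℤ) (k : ℕ) : ∃ N : ℕ,
    List.IsInfix (List.ofFn (fun i : Fin k => z (m + ((i : ℕ) : ℤ)))) (F^[N] [0]) := by
  set N := m.natAbs + k with hN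
  refine ⟨2 * (N + 1), ?_⟩
  have h1 : A N ++ A N <+: A (N + 1) := by
    rw [A_succ, ← List.append_assoc]; exact List.prefix_append _ _
  have h2 : List.ofFn (fun i : Fin k => z (m + ((i : ℕ) : ℤ))) =
      ((A N ++ A N).drop (((A N).length : ℤ) + m).toNat).take k := by
    have := len_A N
    apply List.ext_getElem?
    intro i
    rcases lt_or_ge i k with hi | hi
    · rw [List.getElem?_take_of_lt hi, List.getElem?_drop, List.getElem?_ofFn, dif_pos hi,
        ← z_eq _ N (by simp only; omega)]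
      congr 1; simp only; omega
    · rw [List.getElem?_eq_none (by simpa using hi), List.getElem?_eq_none (by simp; omega)]
  rw [h2]
  exact ((List.take_prefix _ _).isInfix.trans (List.drop_suffix _ _).isInfix).trans h1.isInfix

lemma z_pat (ε : ℕ → Bool) (i j : ℕ) (h : i < j) :
    z ((A i).length + o ε j) = if ε i then 1 else 0 := by
  have h1 := pat ε i j h
  have h2 : ∀ N, j ≤ N → (A N)[o ε j + (A i).length]? = some (if ε i then 1 else 0) := by
    intro N hN
    induction N, hN using Nat.le_induction with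
    | base => exact h1
    | succ N _ ih => rw [A_succ]; exact left _ ih
  set t : ℤ := (A i).length + o ε j with ht
  have h3 := z_eq t (t.natAbs + j) (by omega)
  rw [right _ (h2 _ (by omega)) (by omega)] at h3
  exact (Option.some.inj h3).symm

lemma cp : (Matrix.of (fun i j : Fin 2 => (((sg j).count i : ℕ) : ℚ))).charpoly = X ^ 2 - C 3 * X + C 1 := by
  rw [Matrix.charpoly_fin_two]
  simp [Matrix.trace_fin_two, Matrix.det_fin_two, sg, map_ofNat]
  norm_num

lemma det : |(Matrix.of (fun i j : Fin 2 => (((sg j).count i : ℕ) : ℚ))).det| = 1 := by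
  simp [Matrix.det_fin_two, sg]; norm_num

lemma irr : Irreducible (X ^ 2 - C 3 * X + C 1 : ℚ[X]) := by
  have hd : (X ^ 2 - C 3 * X + C 1 : ℚ[X]).natDegree = 2 := by compute_degree!
  refine irreducible_of_degree_le_three_of_not_isRoot (by rw [hd]; decide) fun x hx => ?_
  simp only [IsRoot.def, eval_add, eval_sub, eval_pow, eval_X, eval_mul, eval_C] at hx
  have h5 : IsSquare (5 : ℚ) := ⟨2 * x - 3, by linarith⟩
  have : IsSquare (5 : ℕ) := Rat.isSquare_natCast_iff.1 (by exact_mod_cast h5)
  exact absurd this (by decide +kernel)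

lemma pisot : ∃ r : ℝ, 1 < r ∧
    (r : ℂ) ∈ ((X ^ 2 - C 3 * X + C 1 : ℚ[X]).map (algebraMap ℚ ℂ)).roots ∧
    ∀ w ∈ ((X ^ 2 - C 3 * X + C 1 : ℚ[X]).map (algebraMap ℚ ℂ)).roots, w ≠ (r : ℂ) → ‖w‖ < 1 := by
  have h5 : √5 * √5 = 5 := Real.mul_self_sqrt (by norm_num)
  have h1 : 2 < √5 := Real.lt_sqrt_of_sq_lt (by norm_num)
  have h2 : √5 < 3 := (Real.sqrt_lt' (by norm_num)).2 (by norm_num)
  have h5c : ((√5 : ℝ) : ℂ) * (√5 : ℝ) = 5 := by exact_mod_cast h5
  have hne : (X ^ 2 - C 3 * X + C 1 : ℚ[X]).map (algebraMap ℚ ℂ) ≠ 0 :=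
    map_ne_zero irr.ne_zero
  refine ⟨(3 + √5) / 2, by linarith, ?_, fun w hw hr => ?_⟩
  · rw [mem_roots hne]
    simp
    linear_combination (1 / 4 : ℂ) * h5c
  · rw [mem_roots hne] at hw
    simp at hw
    have : (w - (((3 + √5) / 2 : ℝ) : ℂ)) * (w - (((3 - √5) / 2 : ℝ) : ℂ)) = 0 := by
      push_cast
      linear_combination hw - (1 / 4 : ℂ) * h5c
    rw [sub_eq_zero.1 ((mul_eq_zero.1 this).resolve_left (sub_ne_zero.2 hr)), Complex.norm_real,
      Real.norm_eq_abs, abs_lt]
    constructor <;> linarith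

end Pool.Agent.H29.Pisot
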