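import Mathlib

set_option autoImplicit false

namespace Pool.Agent.H29.Precomp

open Filter Topology Pointwise

def Good {G : Type} [Group G] (t : TopologicalSpace G) : Prop :=
  @IsTopologicalGroup G t _ ∧ @T2Space G t ∧
    ∀ U ∈ @nhds G t 1, ∃ F : Finset G, (F : Set G) * U = Set.univ

lemma top_exists {G : Type} [Group G] (U : ℕ → Subgroup G)
    (hanti : Antitone U) (hc : ∀ i, (U i).Normal) (hf : ∀ i, (U i).FiniteIndex)
    (h1 : ∀ u, (∀ i, u ∈ U i) → u = 1) :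
    ∃ t : TopologicalSpace G, Good t ∧
      ∀ (E : Set G) (x : G), (∀ i, ∃ e ∈ E, x⁻¹ * e ∈ U i) → x ∈ @closure G t E := by
  let B : GroupFilterBasis G :=
    { sets := Set.range fun i => (U i : Set G)
      nonempty := Set.range_nonempty _
      inter_sets := by
        rintro _ _ ⟨i, rfl⟩ ⟨j, rfl⟩
        exact ⟨_, ⟨i ⊔ j, rfl⟩, fun u hu => ⟨hanti le_sup_left hu, hanti le_sup_right hu⟩⟩
      one' := by
        rintro _ ⟨i, rfl⟩
        exact (U i).one_mem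
      mul' := by
        rintro _ ⟨i, rfl⟩
        refine ⟨_, ⟨i, rfl⟩, ?_⟩
        rintro _ ⟨a, ha, b, hb, rfl⟩
        exact (U i).mul_mem ha hb
      inv' := by
        rintro _ ⟨i, rfl⟩
        exact ⟨_, ⟨i, rfl⟩, fun u hu => (U i).inv_mem hu⟩
      conj' := by
        rintro g _ ⟨i, rfl⟩
        exact ⟨_, ⟨i, rfl⟩, fun u hu => (hc i).conj_mem u hu g⟩ }
  refine ⟨B.topology, ⟨B.isTopologicalGroup, ?_, ?_⟩, ?_⟩
  · rw [@GroupFilterBasis.t2Space_iff_sInter_subset G _ B.topology B rfl]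
    intro u hu
    exact h1 u fun i => hu _ ⟨i, rfl⟩
  · intro W hW
    obtain ⟨_, ⟨i, rfl⟩, h⟩ := B.nhds_one_hasBasis.mem_iff.1 hW
    have := hf i
    refine ⟨(Set.finite_range fun q : G ⧸ U i => q.out).toFinset, Set.eq_univ_of_forall fun g => ?_⟩
    refine ⟨(g : G ⧸ U i).out, by simp, ((g : G ⧸ U i).out)⁻¹ * g, h ?_, by simp⟩
    exact QuotientGroup.eq.1 (by simp)
  · intro E x hx
    let := B.topology
    rw [mem_closure_iff_nhds_basis (B.nhds_hasBasis x)]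
    rintro _ ⟨i, rfl⟩
    obtain ⟨e, he, h⟩ := hx i
    exact ⟨e, he, x⁻¹ * e, h, by simp⟩

lemma comm_small {G : Type} [Group G] [t : TopologicalSpace G] (h : Good t) {W : Set G}
    (hW : W ∈ 𝓝 (1 : G)) (x : G) : ∃ k : ℕ, 0 < k ∧ ∀ g, x ^ k * g * (x ^ k)⁻¹ * g⁻¹ ∈ W := by
  obtain ⟨h1, -, h3⟩ := h
  have c : Continuous fun p : Fin 4 → G => p 0 * ((p 1)⁻¹ * (p 2)⁻¹ * p 3) := by fun_prop
  have := c.continuousAt.preimage_mem_nhds (x := 1) (by simpa using hW)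
  rw [nhds_pi, mem_pi'] at this
  obtain ⟨I, s, hs, hI⟩ := this
  have hV : (⋂ i, s i) ∈ 𝓝 (1 : G) := iInter_mem.2 hs
  obtain ⟨F, hF⟩ := h3 _ hV
  have hU : (⋂ i, s i) ∩ ⋂ f ∈ F, (fun u => f⁻¹ * u * f) ⁻¹' ⋂ i, s i ∈ 𝓝 (1 : G) :=
    inter_mem hV ((biInter_finset_mem F).2 fun f _ =>
      (by fun_prop : Continuous fun u => f⁻¹ * u * f).continuousAt.preimage_mem_nhds
        (by simpa using hs))
  have c2 : Continuous fun p : G × G => p.1⁻¹ * p.2 := by fun_prop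
  obtain ⟨A, hA, B, hB, hAB⟩ := mem_nhds_prod_iff.1
    (c2.continuousAt.preimage_mem_nhds (x := (1, 1)) (by simpa only [inv_one, one_mul] using hU))
  obtain ⟨F', hF'⟩ := h3 _ (inter_mem hA hB)
  have : ∀ n : ℕ, ∃ f ∈ F', ∃ u ∈ A ∩ B, f * u = x ^ n := fun n => by
    have : x ^ n ∈ (F' : Set G) * (A ∩ B) := hF' ▸ Set.mem_univ _
    exact this
  choose f hf u hu e using this
  obtain ⟨i, j, hij, hfij⟩ : ∃ i j, i < j ∧ f i = f j := by
    obtain ⟨i, j, n, q⟩ := Finite.exists_ne_map_eq_of_infinite fun n => (⟨f n, hf n⟩ : F')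
    have q' : f i = f j := congrArg Subtype.val q
    rcases lt_or_gt_of_ne n with l | l
    exacts [⟨i, j, l, q'⟩, ⟨j, i, l, q'.symm⟩]
  have hk : x ^ (j - i) = (u i)⁻¹ * u j := by
    have : x ^ j = x ^ i * x ^ (j - i) := by rw [← pow_add]; congr 1; omega
    rw [← e j, ← e i, hfij] at this
    rw [eq_inv_mul_iff_mul_eq, ← mul_left_cancel_iff (a := f j), this, mul_assoc]
  have hm := hAB (Set.mk_mem_prod (hu i).1 (hu j).2)
  simp only [Set.mem_preimage, ← hk] at hm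
  refine ⟨j - i, by omega, fun g => ?_⟩
  obtain ⟨a, ha, w, hw, e2⟩ : g⁻¹ ∈ (F : Set G) * ⋂ i, s i := hF ▸ Set.mem_univ _
  have := hI (a := ![x ^ (j - i), w, a⁻¹ * x ^ (j - i) * a, w]) fun i _ => by
    fin_cases i
    · exact Set.mem_iInter.1 hm.1 _
    · exact Set.mem_iInter.1 hw _
    · exact Set.mem_iInter.1 (Set.mem_iInter₂.1 hm.2 a ha) _
    · exact Set.mem_iInter.1 hw _
  have e3 : g = (a * w)⁻¹ := by rw [show a * w = g⁻¹ from e2, inv_inv]
  rw [e3]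
  convert this using 1
  simp [mul_assoc]

@[ext] structure H (R : Type) where
  a : R
  b : R
  c : R

variable {R : Type} [CommRing R]

instance : Mul (H R) := ⟨fun x y => ⟨x.a + y.a, x.b + y.b, x.c + y.c + x.a * y.b⟩⟩
instance : One (H R) := ⟨⟨0, 0, 0⟩⟩
instance : Inv (H R) := ⟨fun x => ⟨-x.a, -x.b, -x.c + x.a * x.b⟩⟩

@[simp] lemma mul_a (x y : H R) : (x * y).a = x.a + y.a := rfl
@[simp] lemma mul_b (x y : H R) : (x * y).b = x.b + y.b := rfl
@[simp] lemma mul_c (x y : H R) : (x * y).c = x.c + y.c + x.a * y.b := rfl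
@[simp] lemma one_a : (1 : H R).a = 0 := rfl
@[simp] lemma one_b : (1 : H R).b = 0 := rfl
@[simp] lemma one_c : (1 : H R).c = 0 := rfl
@[simp] lemma inv_a (x : H R) : (x⁻¹).a = -x.a := rfl
@[simp] lemma inv_b (x : H R) : (x⁻¹).b = -x.b := rfl
@[simp] lemma inv_c (x : H R) : (x⁻¹).c = -x.c + x.a * x.b := rfl

instance : Group (H R) := Group.ofLeftAxioms
  (fun a b c => by ext1 <;> simp <;> ring)
  (fun a => by ext1 <;> simp) (fun a => by ext1 <;> simp)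

instance [Finite R] : Finite (H R) :=
  Finite.of_injective (fun x : H R => (x.a, x.b, x.c)) fun x y h => by
    simp only [Prod.mk.injEq] at h; exact H.ext h.1 h.2.1 h.2.2

instance [Countable R] : Countable (H R) :=
  Function.Injective.countable (f := fun x : H R => (x.a, x.b, x.c)) fun x y h => by
    simp only [Prod.mk.injEq] at h; exact H.ext h.1 h.2.1 h.2.2

def red (Q : ℕ) : H ℤ →* H (ZMod Q) where
  toFun x := ⟨x.a, x.b, x.c⟩
  map_one' := by ext1 <;> simp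
  map_mul' x y := by ext1 <;> simp

lemma mem_ker (Q : ℕ) (x : H ℤ) :
    x ∈ (red Q).ker ↔ (Q : ℤ) ∣ x.a ∧ (Q : ℤ) ∣ x.b ∧ (Q : ℤ) ∣ x.c := by
  simp [MonoidHom.mem_ker, red, H.ext_iff, ZMod.intCast_zmod_eq_zero_iff_dvd]

def E (m : ℕ) : Set (H ℤ) := Set.range fun j : ℤ => ⟨0, 0, (m + 1) * j⟩

lemma dense (m : ℕ) : ∃ t : TopologicalSpace (H ℤ), Good t ∧
    (⟨0, 0, 1⟩ : H ℤ) ∈ @closure _ t (E m) := by
  obtain ⟨t, h, h2⟩ := top_exists (fun n => (red ((m + 2) ^ n)).ker)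
    (fun i j hij x hx => by
      have : (((m + 2) ^ i : ℕ) : ℤ) ∣ (((m + 2) ^ j : ℕ) : ℤ) := by
        exact_mod_cast pow_dvd_pow _ hij
      rw [mem_ker] at hx ⊢
      exact ⟨this.trans hx.1, this.trans hx.2.1, this.trans hx.2.2⟩)
    (fun i => inferInstance) (fun i => inferInstance)
    (fun u hu => by
      have z : ∀ y : ℤ, (∀ i, (((m + 2) ^ i : ℕ) : ℤ) ∣ y) → y = 0 := fun y hy =>
        Int.eq_zero_of_dvd_of_natAbs_lt_natAbs (hy y.natAbs) (by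
          rw [Int.natAbs_natCast]; exact Nat.lt_pow_self (by omega))
      simp only [mem_ker] at hu
      exact H.ext (z _ fun i => (hu i).1) (z _ fun i => (hu i).2.1) (z _ fun i => (hu i).2.2))
  refine ⟨t, h, h2 _ _ fun i => ?_⟩
  have : IsCoprime ((m : ℤ) + 1) (((m + 2) ^ i : ℕ) : ℤ) := by
    push_cast
    exact IsCoprime.pow_right ⟨-1, 1, by ring⟩
  obtain ⟨a, b, hab⟩ := this
  refine ⟨_, ⟨a, rfl⟩, (mem_ker _ _).2 ⟨by simp, by simp, -b, ?_⟩⟩
  simp only [mul_c, inv_c, inv_a]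
  linear_combination hab

lemma no_top [t : TopologicalSpace (H ℤ)] (h : Good t)
    (hz : ∀ m, (⟨0, 0, 1⟩ : H ℤ) ∈ closure (E m)) : False := by
  have := h.1
  have := h.2.1
  have n : (1 : H ℤ) ∈ ({⟨0, 0, 1⟩}ᶜ : Set (H ℤ)) := fun c => by
    simpa using congrArg H.c (Set.mem_singleton_iff.1 c)
  obtain ⟨W, hW, cW, sW⟩ := exists_mem_nhds_isClosed_subset (isOpen_compl_singleton.mem_nhds n)
  obtain ⟨k, k0, hk⟩ := comm_small h hW (⟨1, 0, 0⟩ : H ℤ)
  have p : ∀ k : ℕ, (⟨1, 0, 0⟩ : H ℤ) ^ k = ⟨k, 0, 0⟩ := fun k => by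
    induction k with
    | zero => rfl
    | succ k ih => rw [pow_succ, ih]; ext1 <;> simp
  refine sW (cW.closure_subset_iff.2 ?_ (hz (k - 1))) rfl
  rintro _ ⟨j, rfl⟩
  convert hk ⟨0, j, 0⟩ using 1
  rw [p]
  have : ((k - 1 : ℕ) : ℤ) + 1 = k := by omega
  ext1 <;> simp [this]

end Pool.Agent.H29.Precomp
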