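import Mathlib

namespace Pool.Agent.H29.Psi

open MvPolynomial

section generic
variable {A B : Type} [CommRing A] [CommRing B]

def val (L : List (List (Fin 5))) (x : Fin 5 → A) : A := (L.map fun m => (m.map x).prod).sum

theorem val_map (φ : A →+* B) (L : List (List (Fin 5))) (x : Fin 5 → A) :
    φ (val L x) = val L (φ ∘ x) := by
  unfold val
  rw [map_list_sum, List.map_map]
  congr 1
  apply List.map_congr_left
  intro m _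
  simp [map_list_prod]

def srt (m : List (Fin 5)) : List (Fin 5) := m.insertionSort (· ≤ ·)

theorem val_comp (s : Fin 5 → Fin 5) (L : List (List (Fin 5))) (x : Fin 5 → A) :
    val L (x ∘ s) = val (L.map fun m => srt (m.map s)) x := by
  unfold val
  rw [List.map_map]
  congr 1
  apply List.map_congr_left
  intro m _
  have h := ((List.perm_insertionSort (· ≤ ·) (m.map s)).map x).prod_eq
  simp only [Function.comp_apply, srt]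
  rw [h, List.map_map]

theorem val_perm {L M : List (List (Fin 5))} (h : L.Perm M) (x : Fin 5 → A) :
    val L x = val M x := (h.map _).sum_eq

theorem val_append (L M : List (List (Fin 5))) (x : Fin 5 → A) :
    val (L ++ M) x = val L x + val M x := by
  simp [val]

theorem val_hom {k : Type} [CommRing k] (n : ℕ) (L : List (List (Fin 5)))
    (h : ∀ m ∈ L, m.length = n) :
    (val L (X : Fin 5 → MvPolynomial (Fin 5) k)).IsHomogeneous n := by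
  have h1 : ∀ m : List (Fin 5),
      ((m.map (X : Fin 5 → MvPolynomial (Fin 5) k)).prod).IsHomogeneous m.length := by
    intro m
    induction m with
    | nil => exact isHomogeneous_one _ _
    | cons a m ih =>
      rw [List.map_cons, List.prod_cons, List.length_cons, add_comm]
      exact (isHomogeneous_X k a).mul ih
  induction L with
  | nil => exact isHomogeneous_zero _ _ _
  | cons m L ih =>
    have : val (m :: L) (X : Fin 5 → MvPolynomial (Fin 5) k) = (m.map X).prod + val L X := by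
      simp [val]
    rw [this]
    refine IsHomogeneous.add ?_ (ih fun m' hm' => h m' (List.mem_cons_of_mem _ hm'))
    rw [← h m (List.mem_cons_self ..)]
    exact h1 m

def E2 (y : Fin 6 → A) : A :=
  y 0 * y 1 + y 0 * y 2 + y 0 * y 3 + y 0 * y 4 + y 0 * y 5 + y 1 * y 2 + y 1 * y 3 + y 1 * y 4
    + y 1 * y 5 + y 2 * y 3 + y 2 * y 4 + y 2 * y 5 + y 3 * y 4 + y 3 * y 5 + y 4 * y 5

theorem E2_swap (y : Fin 6 → A) (i j : Fin 6) : E2 (y ∘ Equiv.swap i j) = E2 y := by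
  fin_cases i <;> fin_cases j <;> simp [E2, Equiv.swap_apply_def] <;> ring

theorem E2_perm (π : Equiv.Perm (Fin 6)) : ∀ y : Fin 6 → A, E2 (y ∘ π) = E2 y := by
  induction π using Equiv.Perm.swap_induction_on with
  | one => intro y; rfl
  | swap_mul f i j _ ih =>
    intro y
    have : y ∘ ⇑(Equiv.swap i j * f) = (y ∘ Equiv.swap i j) ∘ f := rfl
    rw [this, ih, E2_swap]

theorem E2_map (φ : A →+* B) (y : Fin 6 → A) : φ (E2 y) = E2 (φ ∘ y) := by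
  simp [E2]

theorem E2_hom {k : Type} [CommRing k] (n : ℕ) (y : Fin 6 → MvPolynomial (Fin 5) k)
    (h : ∀ o, (y o).IsHomogeneous n) : (E2 y).IsHomogeneous (n + n) := by
  unfold E2
  repeat' apply IsHomogeneous.add
  all_goals exact (h _).mul (h _)

def V (z : Fin 6 → A) (o : Fin 6) : A := z o * z o + E2 z

def Bf (z w : Fin 6 → A) : A :=
  V z 0 * w 0 + V z 1 * w 1 + V z 2 * w 2 + V z 3 * w 3 + V z 4 * w 4 + V z 5 * w 5

def F (z w : Fin 6 → A) (o : Fin 6) : A := Bf z w * w o + E2 w * V z o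

theorem Bf_eq (z w : Fin 6 → A) : Bf z w = ∑ a, V z a * w a := by
  simp [Bf, Fin.sum_univ_six]

theorem F_perm (π : Equiv.Perm (Fin 6)) (z w : Fin 6 → A) (o : Fin 6) :
    F (z ∘ π) (w ∘ π) o = F z w (π o) := by
  have hV : ∀ o, V (z ∘ π) o = V z (π o) := fun o => by simp [V, E2_perm]
  have hB : Bf (z ∘ π) (w ∘ π) = Bf z w := by
    rw [Bf_eq, Bf_eq, ← Equiv.sum_comp π (fun a => V z a * w a)]
    simp [hV]
  simp [F, hV, hB, E2_perm]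

theorem F_map (φ : A →+* B) (z w : Fin 6 → A) (o : Fin 6) :
    φ (F z w o) = F (φ ∘ z) (φ ∘ w) o := by
  simp [F, Bf, V, E2_map]

theorem E2_F (h2 : (2 : A) = 0) (z w : Fin 6 → A)
    (hz : z 0 + z 1 + z 2 + z 3 + z 4 + z 5 = 0) : E2 (F z w) = 0 := by
  have hT : V z 0 + V z 1 + V z 2 + V z 3 + V z 4 + V z 5 = 0 := by
    unfold V
    have : z 0 * z 0 + z 1 * z 1 + z 2 * z 2 + z 3 * z 3 + z 4 * z 4 + z 5 * z 5 =
        (z 0 + z 1 + z 2 + z 3 + z 4 + z 5) ^ 2 - 2 * E2 z := by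
      unfold E2; ring
    rw [hz] at this
    linear_combination this + 2 * E2 z * h2
  haveI : CharP A 2 ∨ Subsingleton A := by
    rcases subsingleton_or_nontrivial A with h | h
    · exact Or.inr h
    · exact Or.inl (CharTwo.of_one_ne_zero_of_two_eq_zero one_ne_zero h2)
  have hsq : E2 (fun o => z o * z o) = E2 z * E2 z := by
    rcases this with h | h
    · unfold E2
      simp only [CharTwo.add_mul_self]
      ring
    · exact Subsingleton.elim _ _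
  have hE : E2 (V z) = 0 := by
    have e1 : E2 (V z) = E2 (fun o => z o * z o) + 5 * E2 z *
        (V z 0 + V z 1 + V z 2 + V z 3 + V z 4 + V z 5) - 15 * E2 z * E2 z := by
      generalize he : E2 z = e
      unfold E2 V
      rw [he]
      ring
    rw [e1, hsq, hT]
    linear_combination (-7 * E2 z * E2 z) * h2
  have e2 : E2 (F z w) = Bf z w * Bf z w * E2 w + E2 w * E2 w * E2 (V z) + Bf z w * E2 w *
      ((w 0 + w 1 + w 2 + w 3 + w 4 + w 5) * (V z 0 + V z 1 + V z 2 + V z 3 + V z 4 + V z 5)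
        - (V z 0 * w 0 + V z 1 * w 1 + V z 2 * w 2 + V z 3 * w 3 + V z 4 * w 4 + V z 5 * w 5)) := by
    generalize hb : Bf z w = b
    generalize he : E2 w = e
    have : E2 (F z w) = E2 (fun o => b * w o + e * V z o) := by
      unfold F; rw [hb, he]
    rw [this, ← he]
    generalize V z = v
    conv_lhs => unfold E2
    conv_rhs => rw [he]
    have he' := he
    unfold E2 at he'
    simp only [E2]
    rw [he']
    linear_combination (b * b) * he'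
  rw [e2, hE, hT]
  change _ + _ + Bf z w * E2 w * (_ - Bf z w) = 0
  ring

end generic

def Z : Fin 6 → List (List (Fin 5)) := ![
  [[0,0,1,4], [0,0,2,3], [0,1,1,2], [0,1,3,3], [0,2,2,4], [0,3,4,4], [1,1,3,4], [1,2,2,3], [1,2,4,4], [2,3,3,4]],
  [[0,0,1,3], [0,0,2,4], [0,1,1,2], [0,1,4,4], [0,2,2,3], [0,3,3,4], [1,1,3,4], [1,2,2,4], [1,2,3,3], [2,3,4,4]],
  [[0,0,1,4], [0,0,2,3], [0,1,1,3], [0,1,2,2], [0,2,4,4], [0,3,3,4], [1,1,2,4], [1,2,3,3], [1,3,4,4], [2,2,3,4]],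
  [[0,0,1,2], [0,0,3,4], [0,1,1,3], [0,1,4,4], [0,2,2,4], [0,2,3,3], [1,1,2,4], [1,2,2,3], [1,3,3,4], [2,3,4,4]],
  [[0,0,1,3], [0,0,2,4], [0,1,1,4], [0,1,2,2], [0,2,3,3], [0,3,4,4], [1,1,2,3], [1,2,4,4], [1,3,3,4], [2,2,3,4]],
  [[0,0,1,2], [0,0,3,4], [0,1,1,4], [0,1,3,3], [0,2,2,3], [0,2,4,4], [1,1,2,3], [1,2,2,4], [1,3,4,4], [2,3,3,4]]]

def W : Fin 6 → List (List (Fin 5)) := ![
  [[0,0,0,0,1,1,1,2,2,3], [0,0,0,0,1,1,3,3,3,4], [0,0,0,0,1,2,2,2,4,4], [0,0,0,0,2,3,3,4,4,4], [0,0,0,1,1,1,1,3,4,4], [0,0,0,1,1,2,4,4,4,4], [0,0,0,1,2,2,2,2,3,3], [0,0,0,2,2,3,3,3,3,4], [0,0,1,1,1,1,2,3,3,3], [0,0,1,1,1,2,2,2,2,4], [0,0,1,3,3,3,3,4,4,4], [0,0,2,2,2,3,4,4,4,4], [0,1,1,1,1,2,2,4,4,4], [0,1,1,1,3,3,4,4,4,4], [0,1,1,2,2,2,3,3,3,3], [0,2,2,2,2,3,3,3,4,4], [1,1,1,1,2,2,2,3,3,4], [1,1,1,2,3,3,3,3,4,4], [1,1,2,2,2,2,3,4,4,4], [1,2,2,3,3,3,4,4,4,4]],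
  [[0,0,0,0,1,1,1,2,2,4], [0,0,0,0,1,1,3,4,4,4], [0,0,0,0,1,2,2,2,3,3], [0,0,0,0,2,3,3,3,4,4], [0,0,0,1,1,1,1,3,3,4], [0,0,0,1,1,2,3,3,3,3], [0,0,0,1,2,2,2,2,4,4], [0,0,0,2,2,3,4,4,4,4], [0,0,1,1,1,1,2,4,4,4], [0,0,1,1,1,2,2,2,2,3], [0,0,1,3,3,3,4,4,4,4], [0,0,2,2,2,3,3,3,3,4], [0,1,1,1,1,2,2,3,3,3], [0,1,1,1,3,3,3,3,4,4], [0,1,1,2,2,2,4,4,4,4], [0,2,2,2,2,3,3,4,4,4], [1,1,1,1,2,2,2,3,4,4], [1,1,1,2,3,3,4,4,4,4], [1,1,2,2,2,2,3,3,3,4], [1,2,2,3,3,3,3,4,4,4]],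
  [[0,0,0,0,1,1,1,2,3,3], [0,0,0,0,1,1,2,2,2,4], [0,0,0,0,1,3,3,3,4,4], [0,0,0,0,2,2,3,4,4,4], [0,0,0,1,1,1,1,2,4,4], [0,0,0,1,1,3,4,4,4,4], [0,0,0,1,2,2,3,3,3,3], [0,0,0,2,2,2,2,3,3,4], [0,0,1,1,1,1,2,2,2,3], [0,0,1,1,1,3,3,3,3,4], [0,0,1,2,2,2,2,4,4,4], [0,0,2,3,3,3,4,4,4,4], [0,1,1,1,1,3,3,4,4,4], [0,1,1,1,2,2,4,4,4,4], [0,1,1,2,2,2,2,3,3,3], [0,2,2,2,3,3,3,3,4,4], [1,1,1,1,2,2,3,3,3,4], [1,1,1,2,2,2,2,3,4,4], [1,1,2,3,3,3,3,4,4,4], [1,2,2,2,3,3,4,4,4,4]],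
  [[0,0,0,0,1,1,1,3,3,4], [0,0,0,0,1,1,2,4,4,4], [0,0,0,0,1,2,2,3,3,3], [0,0,0,0,2,2,2,3,4,4], [0,0,0,1,1,1,1,2,2,4], [0,0,0,1,1,2,2,2,2,3], [0,0,0,1,3,3,3,3,4,4], [0,0,0,2,3,3,4,4,4,4], [0,0,1,1,1,1,3,4,4,4], [0,0,1,1,1,2,3,3,3,3], [0,0,1,2,2,2,4,4,4,4], [0,0,2,2,2,2,3,3,3,4], [0,1,1,1,1,2,2,2,3,3], [0,1,1,1,2,2,2,2,4,4], [0,1,1,3,3,3,4,4,4,4], [0,2,2,3,3,3,3,4,4,4], [1,1,1,1,2,3,3,3,4,4], [1,1,1,2,2,3,4,4,4,4], [1,1,2,2,2,3,3,3,3,4], [1,2,2,2,2,3,3,4,4,4]],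
  [[0,0,0,0,1,1,1,2,4,4], [0,0,0,0,1,1,2,2,2,3], [0,0,0,0,1,3,3,4,4,4], [0,0,0,0,2,2,3,3,3,4], [0,0,0,1,1,1,1,2,3,3], [0,0,0,1,1,3,3,3,3,4], [0,0,0,1,2,2,4,4,4,4], [0,0,0,2,2,2,2,3,4,4], [0,0,1,1,1,1,2,2,2,4], [0,0,1,1,1,3,4,4,4,4], [0,0,1,2,2,2,2,3,3,3], [0,0,2,3,3,3,3,4,4,4], [0,1,1,1,1,3,3,3,4,4], [0,1,1,1,2,2,3,3,3,3], [0,1,1,2,2,2,2,4,4,4], [0,2,2,2,3,3,4,4,4,4], [1,1,1,1,2,2,3,4,4,4], [1,1,1,2,2,2,2,3,3,4], [1,1,2,3,3,3,4,4,4,4], [1,2,2,2,3,3,3,3,4,4]],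
  [[0,0,0,0,1,1,1,3,4,4], [0,0,0,0,1,1,2,3,3,3], [0,0,0,0,1,2,2,4,4,4], [0,0,0,0,2,2,2,3,3,4], [0,0,0,1,1,1,1,2,2,3], [0,0,0,1,1,2,2,2,2,4], [0,0,0,1,3,3,4,4,4,4], [0,0,0,2,3,3,3,3,4,4], [0,0,1,1,1,1,3,3,3,4], [0,0,1,1,1,2,4,4,4,4], [0,0,1,2,2,2,3,3,3,3], [0,0,2,2,2,2,3,4,4,4], [0,1,1,1,1,2,2,2,4,4], [0,1,1,1,2,2,2,2,3,3], [0,1,1,3,3,3,3,4,4,4], [0,2,2,3,3,3,4,4,4,4], [1,1,1,1,2,3,3,4,4,4], [1,1,1,2,2,3,3,3,3,4], [1,1,2,2,2,3,4,4,4,4], [1,2,2,2,2,3,3,3,4,4]]]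

def Pi : Fin 5 → Fin 5 → Fin 6 → Fin 6 := ![
  ![![0,1,2,3,4,5], ![5,3,4,1,2,0], ![1,0,5,4,3,2], ![4,5,3,2,0,1], ![3,2,1,0,5,4]],
  ![![5,3,4,1,2,0], ![0,1,2,3,4,5], ![4,2,1,5,0,3], ![3,4,5,0,1,2], ![2,5,0,4,3,1]],
  ![![1,0,5,4,3,2], ![4,2,1,5,0,3], ![0,1,2,3,4,5], ![2,3,0,1,5,4], ![5,4,3,2,1,0]],
  ![![4,5,3,2,0,1], ![3,4,5,0,1,2], ![2,3,0,1,5,4], ![0,1,2,3,4,5], ![1,0,4,5,2,3]],
  ![![3,2,1,0,5,4], ![2,5,0,4,3,1], ![5,4,3,2,1,0], ![1,0,4,5,2,3], ![0,1,2,3,4,5]]]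

def tab : Fin 6 → Fin 6 → List (Fin 5 × Fin 5) := ![
  ![[], [], [(0,1),(2,4)], [(0,3),(1,2)], [(1,4),(2,3)], [(0,4),(1,3)]],
  ![[(0,2)], [], [(0,1),(1,3)], [(1,2),(1,4)], [(0,1),(0,4)], [(1,2),(2,3)]],
  ![[(0,1),(0,3)], [(1,3),(2,4)], [], [(2,3)], [(0,1),(1,2)], [(1,4)]],
  ![[(1,2),(2,4)], [(0,3),(1,4)], [(0,4)], [], [(1,3)], [(0,1),(0,2)]],
  ![[(0,1),(1,4)], [(0,1),(2,3)], [(1,2)], [(0,2),(1,3)], [], [(0,3)]],
  ![[(1,2),(1,3)], [(0,4),(1,2)], [(0,2),(1,4)], [(0,1)], [(2,4)], []]]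

def Zh : List (List (Fin 5)) := [[0,0,1,2], [0,0,1,3], [0,0,1,4], [0,0,2,3], [0,0,2,4], [0,0,3,4], [0,1,1,2], [0,1,1,3], [0,1,1,4], [0,1,2,2], [0,1,3,3], [0,1,4,4], [0,2,2,3], [0,2,2,4], [0,2,3,3], [0,2,4,4], [0,3,3,4], [0,3,4,4], [1,1,2,3], [1,1,2,4], [1,1,3,4], [1,2,2,3], [1,2,2,4], [1,2,3,3], [1,2,4,4], [1,3,3,4], [1,3,4,4], [2,2,3,4], [2,3,3,4], [2,3,4,4]]

theorem chk : ∀ i j : Fin 5, ∀ o : Fin 6,
    ((Z o).map fun m => srt (m.map (Equiv.swap i j))).Perm (Z (Pi i j o)) ∧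
    ((W o).map fun m => srt (m.map (Equiv.swap i j))).Perm (W (Pi i j o)) := by
  decide +kernel

theorem Pi_inv : ∀ i j : Fin 5, ∀ o : Fin 6, Pi i j (Pi i j o) = o := by decide +kernel

def PiE (i j : Fin 5) : Equiv.Perm (Fin 6) := Function.Involutive.toPerm (Pi i j) (Pi_inv i j)

def f {A : Type} [CommRing A] (x : Fin 5 → A) : Fin 6 → A :=
  F (fun o => val (Z o) x) (fun o => val (W o) x)

theorem f_swap {A : Type} [CommRing A] (x : Fin 5 → A) (i j : Fin 5) (o : Fin 6) :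
    f (x ∘ Equiv.swap i j) o = f x (Pi i j o) := by
  have h1 : (fun o => val (Z o) (x ∘ Equiv.swap i j)) = (fun o => val (Z o) x) ∘ PiE i j := by
    funext o
    rw [val_comp, val_perm (chk i j o).1]
    rfl
  have h2 : (fun o => val (W o) (x ∘ Equiv.swap i j)) = (fun o => val (W o) x) ∘ PiE i j := by
    funext o
    rw [val_comp, val_perm (chk i j o).2]
    rfl
  unfold f
  rw [h1, h2, F_perm]
  rfl

theorem f_map {A B : Type} [CommRing A] [CommRing B] (φ : A →+* B) (x : Fin 5 → A) (o : Fin 6) :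
    φ (f x o) = f (φ ∘ x) o := by
  unfold f
  rw [F_map]
  congr 1 <;> funext o <;> exact val_map φ _ x

theorem chkZ : (Z 0 ++ Z 1 ++ Z 2 ++ Z 3 ++ Z 4 ++ Z 5).Perm (Zh ++ Zh) := by decide +kernel

theorem E2_f {A : Type} [CommRing A] (h2 : (2 : A) = 0) (x : Fin 5 → A) : E2 (f x) = 0 := by
  apply E2_F h2
  have := val_perm chkZ x
  simp only [val_append] at this
  linear_combination this + val Zh x * h2

theorem lenZ : ∀ o, ∀ m ∈ Z o, m.length = 4 := by decide +kernel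
theorem lenW : ∀ o, ∀ m ∈ W o, m.length = 10 := by decide +kernel

theorem f_hom {k : Type} [CommRing k] (o : Fin 6) :
    (f (X : Fin 5 → MvPolynomial (Fin 5) k) o).IsHomogeneous 28 := by
  have hz : ∀ o, (val (Z o) (X : Fin 5 → MvPolynomial (Fin 5) k)).IsHomogeneous 4 :=
    fun o => val_hom 4 _ (lenZ o)
  have hw : ∀ o, (val (W o) (X : Fin 5 → MvPolynomial (Fin 5) k)).IsHomogeneous 10 :=
    fun o => val_hom 10 _ (lenW o)
  have hV : ∀ o, (V (fun o => val (Z o) (X : Fin 5 → MvPolynomial (Fin 5) k)) o).IsHomogeneous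
      8 := fun o => ((hz o).mul (hz o)).add (E2_hom 4 _ hz)
  have hB : (Bf (fun o => val (Z o) (X : Fin 5 → MvPolynomial (Fin 5) k))
      (fun o => val (W o) X)).IsHomogeneous 18 := by
    unfold Bf
    repeat' apply IsHomogeneous.add
    all_goals exact (hV _).mul (hw _)
  exact (hB.mul (hw o)).add ((E2_hom 10 _ hw).mul (hV o))

@[ext] structure F8 where
  a : ZMod 2
  b : ZMod 2
  c : ZMod 2
  deriving DecidableEq

instance : Add F8 := ⟨fun x y => ⟨x.a + y.a, x.b + y.b, x.c + y.c⟩⟩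
instance : Neg F8 := ⟨fun x => ⟨-x.a, -x.b, -x.c⟩⟩
instance : Zero F8 := ⟨⟨0, 0, 0⟩⟩
instance : One F8 := ⟨⟨1, 0, 0⟩⟩
instance : Mul F8 := ⟨fun x y => ⟨x.a * y.a + x.b * y.c + x.c * y.b,
  x.a * y.b + x.b * y.a + x.b * y.c + x.c * y.b + x.c * y.c,
  x.a * y.c + x.b * y.b + x.c * y.a + x.c * y.c⟩⟩

theorem add_def (x y : F8) : x + y = ⟨x.a + y.a, x.b + y.b, x.c + y.c⟩ := rfl
theorem neg_def (x : F8) : -x = ⟨-x.a, -x.b, -x.c⟩ := rfl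
theorem zero_def : (0 : F8) = ⟨0, 0, 0⟩ := rfl
theorem one_def : (1 : F8) = ⟨1, 0, 0⟩ := rfl
theorem mul_def (x y : F8) : x * y = ⟨x.a * y.a + x.b * y.c + x.c * y.b,
  x.a * y.b + x.b * y.a + x.b * y.c + x.c * y.b + x.c * y.c,
  x.a * y.c + x.b * y.b + x.c * y.a + x.c * y.c⟩ := rfl

instance : CommRing F8 where
  add_assoc x y z := by ext <;> simp only [add_def] <;> ring
  zero_add x := by ext <;> simp [add_def, zero_def]
  add_zero x := by ext <;> simp [add_def, zero_def]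
  add_comm x y := by ext <;> simp only [add_def] <;> ring
  neg_add_cancel x := by ext <;> simp only [add_def, neg_def, zero_def] <;> ring
  mul_assoc x y z := by ext <;> simp only [mul_def] <;> ring
  one_mul x := by ext <;> simp [mul_def, one_def]
  mul_one x := by ext <;> simp [mul_def, one_def]
  zero_mul x := by ext <;> simp [mul_def, zero_def]
  mul_zero x := by ext <;> simp [mul_def, zero_def]
  mul_comm x y := by ext <;> simp only [mul_def] <;> ring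
  left_distrib x y z := by ext <;> simp only [mul_def, add_def] <;> ring
  right_distrib x y z := by ext <;> simp only [mul_def, add_def] <;> ring
  nsmul := nsmulRec
  zsmul := zsmulRec

def ι : ZMod 2 →+* F8 where
  toFun a := ⟨a, 0, 0⟩
  map_one' := rfl
  map_zero' := rfl
  map_mul' a b := by ext <;> simp [mul_def]
  map_add' a b := by ext <;> simp [add_def]

def pt : Fin 5 → F8 := ![⟨0,0,0⟩, ⟨1,0,0⟩, ⟨0,1,0⟩, ⟨1,1,0⟩, ⟨0,0,1⟩]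
def yv : Fin 6 → F8 := ![⟨0,1,1⟩, ⟨1,1,1⟩, ⟨0,0,0⟩, ⟨0,1,1⟩, ⟨1,1,0⟩, ⟨0,0,0⟩]

theorem f_pt : ∀ o, f pt o = yv o := by decide +kernel

theorem indep0 : ∀ a : Fin 6 → ZMod 2, (∀ i j : Fin 5,
    ι (a 0) * yv (Pi i j 0) + ι (a 1) * yv (Pi i j 1) + ι (a 2) * yv (Pi i j 2) +
    ι (a 3) * yv (Pi i j 3) + ι (a 4) * yv (Pi i j 4) + ι (a 5) * yv (Pi i j 5) = 0) →
    ∀ o, a o = 0 := by
  decide +kernel

abbrev R := MvPolynomial (Fin 5) (ZMod 2)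

noncomputable def g : Fin 6 → R := f X

theorem g_swap (i j : Fin 5) (o : Fin 6) : rename (Equiv.swap i j) (g o) = g (Pi i j o) := by
  have := f_map (rename (Equiv.swap i j) : R →ₐ[ZMod 2] R).toRingHom X o
  unfold g
  rw [← f_swap]
  refine this.trans ?_
  congr 1
  funext a
  simp

theorem indep (a : Fin 6 → ZMod 2) (h : ∑ o, C (a o) * g o = 0) : ∀ o, a o = 0 := by
  apply indep0
  intro i j
  have h1 := congrArg (eval₂Hom ι (pt ∘ Equiv.swap i j)) h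
  rw [map_sum, map_zero] at h1
  have h2 : ∀ o, eval₂Hom ι (pt ∘ Equiv.swap i j) (C (a o) * g o) =
      ι (a o) * yv (Pi i j o) := by
    intro o
    rw [map_mul, eval₂Hom_C, ← f_pt, ← f_swap]
    unfold g
    rw [f_map]
    congr 2
    funext t
    simp
  simp only [h2, Fin.sum_univ_six] at h1
  exact h1

end Pool.Agent.H29.Psi
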