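import Mathlib

set_option autoImplicit false
open Finset

namespace Pool.Agent.H29.QIdeal

section step
variable {A : Type} [CommRing A] [Algebra ℝ A]

lemma pow_bd (p : Seminorm ℝ A) (u : A) (C : ℝ) (hC : 0 ≤ C) (h : ∀ v, p (u * v) ≤ C * p v)
    (k : ℕ) (v : A) : p (u ^ k * v) ≤ C ^ k * p v := by
  induction k with
  | zero => simp
  | succ k ih =>
    rw [pow_succ', mul_assoc, pow_succ', mul_assoc]
    exact (h _).trans (mul_le_mul_of_nonneg_left ih hC)

lemma pow_in (E : A →ₗ[ℝ] A) (u : A) (h : ∀ v, E (u * v) = u * E v) (k : ℕ) (v : A) :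
    E (u ^ k * v) = u ^ k * E v := by
  induction k with
  | zero => simp
  | succ k ih => rw [pow_succ', mul_assoc, h, ih, mul_assoc]

lemma step (p : Seminorm ℝ A) (E : A →ₗ[ℝ] A) (x y s : A) (N b : ℕ) (c δ W : ℝ)
    (hx : ∀ v, E (x * v) = x * E v) (hs : ∀ v, E (s * v) = s * E v)
    (hy : ∀ l < b, E (y ^ l) = ((-c⁻¹) • s) ^ l) (hyb : y ^ b = x)
    (hN : ∀ v, p (x ^ N * v) = 0) (hxs : x ∣ s) (ps : ∀ v, p (s * v) ≤ 1 * p v)
    (px : ∀ v, p (x * v) ≤ W * p v) (p1 : p 1 ≤ 1) (hNb : N ≤ b) (hb : 0 < b) (hW : 1 ≤ W)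
    (hδ : 0 < δ) (hδ1 : δ ≤ 1) (hc : c = (δ / 2) ^ 2 / W) (j : ℕ) :
    p (E ((s + c • y) ^ j)) ≤ δ ^ j := by
  have hc0 : 0 < c := by rw [hc]; positivity
  have hsN : ∀ m, N ≤ m → ∀ v, p (s ^ m * v) = 0 := by
    intro m hm v
    obtain ⟨h, rfl⟩ := hxs
    obtain ⟨k, rfl⟩ := Nat.exists_eq_add_of_le hm
    rw [pow_add, mul_pow, mul_assoc, mul_assoc, hN]
  rcases Nat.eq_zero_or_pos j with rfl | hj
  · have := hy 0 hb
    simp only [pow_zero] at this ⊢
    rw [this]; exact p1
  have h0 : (s + c • ((-c⁻¹) • s)) ^ j = 0 := by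
    rw [smul_smul, mul_neg, mul_inv_cancel₀ hc0.ne', neg_smul, one_smul, add_neg_cancel,
      zero_pow hj.ne']
  have hE : ∀ i, E (y ^ i) = x ^ (i / b) * ((-c⁻¹) • s) ^ (i % b) := by
    intro i
    conv_lhs => rw [← Nat.div_add_mod i b, pow_add, pow_mul, hyb]
    rw [pow_in E x hx, hy _ (Nat.mod_lt _ hb)]
  have e1 : E ((s + c • y) ^ j) = ∑ i ∈ range (j + 1), ((j.choose i : ℝ) * c ^ i) •
      (s ^ (j - i) * (x ^ (i / b) * ((-c⁻¹) • s) ^ (i % b)) - s ^ (j - i) * ((-c⁻¹) • s) ^ i) := by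
    rw [← sub_zero (E _), ← h0, add_comm s, add_comm s, add_pow, add_pow, map_sum, ← sum_sub_distrib]
    refine sum_congr rfl fun i _ => ?_
    have a : (c • y) ^ i * s ^ (j - i) * (j.choose i : A) =
        ((j.choose i : ℝ) * c ^ i) • (s ^ (j - i) * y ^ i) := by
      rw [smul_pow, mul_smul, Nat.cast_smul_eq_nsmul, nsmul_eq_mul, smul_mul_assoc]; 
      simp only [mul_smul_comm, smul_mul_assoc]; congr 1; ring
    have a' : (c • ((-c⁻¹) • s)) ^ i * s ^ (j - i) * (j.choose i : A) =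
        ((j.choose i : ℝ) * c ^ i) • (s ^ (j - i) * ((-c⁻¹) • s) ^ i) := by
      rw [smul_pow c, mul_smul, Nat.cast_smul_eq_nsmul, nsmul_eq_mul, smul_mul_assoc]; 
      simp only [mul_smul_comm, smul_mul_assoc]; congr 1; ring
    rw [a, a', map_smul, pow_in E s hs, hE, smul_sub]
  have e2 : δ ^ j = ∑ i ∈ range (j + 1), (j.choose i : ℝ) * (δ / 2) ^ j := by
    rw [← sum_mul, ← Nat.cast_sum, Nat.sum_range_choose]; push_cast
    rw [← mul_pow]; congr 1; ring
  rw [e1, e2]
  refine (Finset.le_sum_of_subadditive p (map_zero p).le (map_add_le_add p) _ _).trans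
    (sum_le_sum fun i hi => ?_)
  have hij : i ≤ j := Nat.lt_succ_iff.1 (mem_range.1 hi)
  rw [map_smul_eq_mul, Real.norm_of_nonneg (by positivity), mul_assoc]
  refine mul_le_mul_of_nonneg_left ?_ (by positivity)
  rcases lt_or_ge i b with hib | hib
  · rw [Nat.div_eq_of_lt hib, Nat.mod_eq_of_lt hib]
    simp only [pow_zero, one_mul, sub_self, map_zero, mul_zero]; positivity
  have z : p (s ^ (j - i) * ((-c⁻¹) • s) ^ i) = 0 := by
    rw [smul_pow, mul_smul_comm, ← pow_add, map_smul_eq_mul, Nat.sub_add_cancel hij,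
      ← mul_one (s ^ j), hsN j (by omega), mul_zero]
  refine (mul_le_mul_of_nonneg_left (map_sub_le_add p _ _) (by positivity)).trans ?_
  rw [z, add_zero]
  set k := i / b with hk
  set l := i % b with hl
  have hikl : i = b * k + l := (Nat.div_add_mod i b).symm
  have hk1 : 1 ≤ k := Nat.div_pos hib hb
  have e3 : s ^ (j - i) * (x ^ k * ((-c⁻¹) • s) ^ l) = (-c⁻¹) ^ l • (s ^ (j - i + l) * (x ^ k * 1)) := by
    rw [smul_pow, mul_smul_comm, mul_smul_comm]; congr 1; ring
  rw [e3, map_smul_eq_mul]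
  rcases le_or_gt N (j - i + l) with h1 | h1
  · rw [hsN _ h1]; simp only [mul_zero]; positivity
  have b1 := pow_bd p s 1 zero_le_one ps (j - i + l) (x ^ k * 1)
  have b2 := pow_bd p x W (by linarith) px k 1
  rw [one_pow, one_mul] at b1
  have b3 : p (s ^ (j - i + l) * (x ^ k * 1)) ≤ W ^ k :=
    b1.trans (b2.trans (by
      have : 0 ≤ W ^ k := by positivity
      nlinarith))
  have e4 : c ^ i * ‖(-c⁻¹) ^ l‖ = c ^ (b * k) := by
    rw [norm_pow, norm_neg, norm_inv, Real.norm_of_nonneg hc0.le, hikl, pow_add, mul_assoc,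
      ← mul_pow, mul_inv_cancel₀ hc0.ne', one_pow, mul_one]
  rw [← mul_assoc, e4]
  have hbk : b ≤ b * k := Nat.le_mul_of_pos_right _ hk1
  have hkk : k ≤ b * k := Nat.le_mul_of_pos_left _ hb
  calc c ^ (b * k) * p (s ^ (j - i + l) * (x ^ k * 1)) ≤ c ^ (b * k) * W ^ (b * k) :=
        mul_le_mul_of_nonneg_left (b3.trans (pow_le_pow_right₀ hW hkk)) (by positivity)
    _ = (δ / 2) ^ (2 * (b * k)) := by
        rw [← mul_pow, pow_mul _ 2, hc]; congr 1; field_simp
    _ ≤ (δ / 2) ^ j := pow_le_pow_of_le_one (by positivity) (by linarith) (by omega)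

noncomputable def next (p : Seminorm ℝ A) (E : A →ₗ[ℝ] A) (r : A) (δ : ℝ) (J : ℕ) : Seminorm ℝ A :=
  (range J).sup fun j => p.comp ((δ ^ j)⁻¹ • E.comp (LinearMap.mulLeft ℝ (r ^ j)))

lemma next_le {p : Seminorm ℝ A} {E : A →ₗ[ℝ] A} {r : A} {δ : ℝ} {J : ℕ} (hδ : 0 < δ) {v : A} {a : ℝ}
    (ha : 0 ≤ a) (h : ∀ j, p (E (r ^ j * v)) ≤ a * δ ^ j) : next p E r δ J v ≤ a := by
  refine Seminorm.finset_sup_apply_le ha fun j _ => ?_
  simp only [Seminorm.comp_apply, LinearMap.smul_apply, LinearMap.comp_apply,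
    LinearMap.mulLeft_apply, map_smul_eq_mul]
  rw [Real.norm_of_nonneg (by positivity), inv_mul_le_iff₀ (by positivity), mul_comm (δ ^ j)]
  exact h j

lemma le_next {p : Seminorm ℝ A} {E : A →ₗ[ℝ] A} {r : A} {δ : ℝ} {J : ℕ} (hδ : 0 < δ)
    (hJ : ∀ v, p (E (r ^ J * v)) = 0) (v : A) (j : ℕ) :
    p (E (r ^ j * v)) ≤ next p E r δ J v * δ ^ j := by
  rcases lt_or_ge j J with h | h
  · have := Seminorm.le_finset_sup_apply (x := v) (s := range J) (i := j)
      (p := fun j => p.comp ((δ ^ j)⁻¹ • E.comp (LinearMap.mulLeft ℝ (r ^ j)))) (mem_range.2 h)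
    simp only [Seminorm.comp_apply, LinearMap.smul_apply, LinearMap.comp_apply,
      LinearMap.mulLeft_apply, map_smul_eq_mul] at this
    rw [Real.norm_of_nonneg (by positivity), inv_mul_le_iff₀ (by positivity), mul_comm (δ ^ j)] at this
    exact this
  · obtain ⟨k, rfl⟩ := Nat.exists_eq_add_of_le h
    rw [pow_add r, mul_assoc, hJ]; positivity

end step

abbrev A : Type := AddMonoidAlgebra ℝ NNRat

noncomputable def X (t : NNRat) : A := AddMonoidAlgebra.single t 1

lemma X_add (s t : NNRat) : X (s + t) = X s * X t := by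
  simp [X, AddMonoidAlgebra.single_mul_single]

lemma X_zero : X 0 = 1 := rfl

lemma X_pow (t : NNRat) (k : ℕ) : X t ^ k = X (k * t) := by
  simp [X, AddMonoidAlgebra.single_pow]

def N : ℕ → ℕ
  | 0 => 2
  | n + 1 => N n * (N n * (n + 1))

def b (n : ℕ) : ℕ := N n * (n + 1)

lemma N_pos (n : ℕ) : 0 < N n := by
  induction n with
  | zero => decide
  | succ n ih => simp only [N]; positivity

lemma b_pos (n : ℕ) : 0 < b n := by have := N_pos n; unfold b; positivity

lemma N_succ (n : ℕ) : N (n + 1) = N n * b n := rfl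

def q (n : ℕ) : NNRat := 1 / (N n : NNRat)

lemma q_succ (n : ℕ) : (b n : NNRat) * q (n + 1) = q n := by
  have h1 : (N n : NNRat) ≠ 0 := by exact_mod_cast (N_pos n).ne'
  have h2 : (b n : NNRat) ≠ 0 := by exact_mod_cast (b_pos n).ne'
  simp only [q, N_succ]; push_cast; field_simp

lemma N_q (n : ℕ) : (N n : NNRat) * q n = 1 := by
  have h1 : (N n : NNRat) ≠ 0 := by exact_mod_cast (N_pos n).ne'
  simp only [q]; field_simp

noncomputable def δ (n : ℕ) : ℝ := (1 / 2) ^ n

lemma δ_pos (n : ℕ) : 0 < δ n := by unfold δ; positivity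
lemma δ_le (n : ℕ) : δ n ≤ 1 := pow_le_one₀ (by norm_num) (by norm_num)

noncomputable def c : ℕ → ℝ
  | 0 => 1
  | n + 1 => (δ (n + 1) / 2) ^ 2 / (2 / c n)

lemma c_pos (n : ℕ) : 0 < c n := by
  induction n with
  | zero => simp [c]
  | succ n ih => have := δ_pos (n + 1); simp only [c]; positivity

lemma c_le (n : ℕ) : c n ≤ δ n := by
  induction n with
  | zero => simp [c, δ]
  | succ n ih =>
    have h1 := δ_pos (n + 1)
    have h2 := δ_le (n + 1)
    have h3 := δ_le n
    have h4 := c_pos n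
    simp only [c]
    rw [div_div_eq_mul_div, div_le_iff₀ (by norm_num)]
    have : (δ (n + 1) / 2) ^ 2 ≤ δ (n + 1) := by nlinarith
    nlinarith

noncomputable def s (n : ℕ) : A := ∑ k ∈ range (n + 1), c k • X (q k)

lemma s_succ (n : ℕ) : s (n + 1) = s n + c (n + 1) • X (q (n + 1)) := sum_range_succ _ _

noncomputable def E (n : ℕ) : A →ₗ[ℝ] A :=
  (AddMonoidAlgebra.basis NNRat ℝ).constr ℝ fun t =>
    X (q n) ^ (⌊t * N (n + 1)⌋₊ / b n) * ((-(c (n + 1))⁻¹) • s n) ^ (⌊t * N (n + 1)⌋₊ % b n)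

lemma E_X (n : ℕ) (t : NNRat) : E n (X t) =
    X (q n) ^ (⌊t * N (n + 1)⌋₊ / b n) * ((-(c (n + 1))⁻¹) • s n) ^ (⌊t * N (n + 1)⌋₊ % b n) :=
  (AddMonoidAlgebra.basis NNRat ℝ).constr_basis ℝ _ t

lemma E_x (n : ℕ) (v : A) : E n (X (q n) * v) = X (q n) * E n v := by
  induction v using AddMonoidAlgebra.induction_linear with
  | zero => simp
  | add u v hu hv => rw [mul_add, map_add, map_add, hu, hv, mul_add]
  | single t a =>
    have : (AddMonoidAlgebra.single t a : A) = a • X t := by simp [X]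
    rw [this, mul_smul_comm, map_smul, map_smul, mul_smul_comm, ← X_add, E_X, E_X]
    have e : (q n + t) * (N (n + 1) : NNRat) = t * N (n + 1) + (b n : ℕ) := by
      rw [add_mul, N_succ, add_comm]; push_cast
      rw [← mul_assoc (q n), mul_comm (q n), N_q, one_mul]
    rw [e, Nat.floor_add_natCast (by positivity), Nat.add_div_right _ (b_pos n), Nat.add_mod_right,
      pow_succ', mul_assoc]

lemma X_q_pow {k n : ℕ} (h : k ≤ n) : ∃ m, 0 < m ∧ X (q k) = X (q n) ^ m := by
  induction n, h using Nat.le_induction with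
  | base => exact ⟨1, one_pos, by simp⟩
  | succ n _ ih =>
    obtain ⟨m, hm, e⟩ := ih
    exact ⟨b n * m, Nat.mul_pos (b_pos n) hm, by rw [pow_mul, X_pow (q (n + 1)), q_succ, e]⟩

lemma E_s {k n : ℕ} (h : k ≤ n) (v : A) : E n (s k * v) = s k * E n v := by
  simp only [s, sum_mul, map_sum]
  refine sum_congr rfl fun i hi => ?_
  obtain ⟨m, -, e⟩ := X_q_pow (show i ≤ n by have := mem_range.1 hi; omega)
  rw [smul_mul_assoc, map_smul, e, pow_in _ _ (E_x n), smul_mul_assoc]

lemma x_dvd_s (n : ℕ) : X (q n) ∣ s n := by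
  refine Finset.dvd_sum fun i hi => ?_
  obtain ⟨m, hm, e⟩ := X_q_pow (show i ≤ n by have := mem_range.1 hi; omega)
  rw [e, Algebra.smul_def]
  exact Dvd.dvd.mul_left (dvd_pow_self _ hm.ne') _

lemma E_y (n l : ℕ) (hl : l < b n) : E n (X (q (n + 1)) ^ l) = ((-(c (n + 1))⁻¹) • s n) ^ l := by
  rw [X_pow, E_X, mul_assoc, mul_comm (q _), N_q, mul_one, Nat.floor_natCast, Nat.div_eq_of_lt hl,
    Nat.mod_eq_of_lt hl, pow_zero, one_mul]

lemma E_one (n : ℕ) : E n 1 = 1 := by simpa using E_y n 0 (b_pos n)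

noncomputable def co (t : NNRat) : A →ₗ[ℝ] ℝ := (AddMonoidAlgebra.basis NNRat ℝ).coord t

lemma co_X (t u : NNRat) : co t (X u) = if u = t then 1 else 0 := by
  have := (AddMonoidAlgebra.basis NNRat ℝ).repr_self u
  change ((AddMonoidAlgebra.basis NNRat ℝ).repr ((AddMonoidAlgebra.basis NNRat ℝ) u)) t = _
  rw [this, Finsupp.single_apply]

lemma co_mul (t u : NNRat) (v : A) : co (u + t) (X u * v) = co t v := by
  induction v using AddMonoidAlgebra.induction_linear with
  | zero => simp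
  | add u v hu hv => rw [mul_add, map_add, map_add, hu, hv]
  | single r a =>
    have : (AddMonoidAlgebra.single r a : A) = a • X r := by simp [X]
    rw [this, mul_smul_comm, map_smul, map_smul, ← X_add, co_X, co_X]
    simp

lemma co_mul_lt (t u : NNRat) (h : t < u) (v : A) : co t (X u * v) = 0 := by
  induction v using AddMonoidAlgebra.induction_linear with
  | zero => simp
  | add u v hu hv => rw [mul_add, map_add, hu, hv, add_zero]
  | single r a =>
    have : (AddMonoidAlgebra.single r a : A) = a • X r := by simp [X]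
    rw [this, mul_smul_comm, map_smul, ← X_add, co_X, if_neg, smul_zero]
    exact (h.trans_le le_self_add).ne'

noncomputable def φ : ℕ → (A →ₗ[ℝ] ℝ)
  | 0 => co (q 0)
  | n + 1 => (φ n).comp (E n)

noncomputable def p : ℕ → Seminorm ℝ A
  | 0 => (normSeminorm ℝ ℝ).comp (co 0) ⊔ (normSeminorm ℝ ℝ).comp (co (q 0))
  | n + 1 => next (p n) (E n) (s (n + 1)) (δ (n + 1)) (N (n + 1))

lemma p0 (v : A) : p 0 v = max |co 0 v| |co (q 0) v| := rfl

lemma q0 : q 0 = 1 / 2 := by simp [q, N]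

lemma X_one (n : ℕ) : X 1 = X (q n) ^ N n := by rw [X_pow, N_q]

lemma p_null (n : ℕ) : ∀ v, p n (X 1 * v) = 0 := by
  induction n with
  | zero =>
    intro v
    rw [p0, co_mul_lt _ _ one_pos, co_mul_lt _ _ (by rw [q0]; norm_num)]; simp
  | succ n ih =>
    intro v
    refine le_antisymm (next_le (δ_pos _) le_rfl fun j => ?_) (apply_nonneg _ _)
    rw [mul_left_comm, X_one n, pow_in _ _ (E_x n), ← X_one, ih, zero_mul]

lemma le_p (n : ℕ) (v : A) (j : ℕ) : p n (E n (s (n + 1) ^ j * v)) ≤ p (n + 1) v * δ (n + 1) ^ j := by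
  refine le_next (δ_pos _) (fun v => ?_) v j
  obtain ⟨h, e⟩ := x_dvd_s (n + 1)
  rw [e, mul_pow, ← X_one, mul_assoc, X_one n, pow_in _ _ (E_x n), ← X_one, p_null]

lemma φ_le (n : ℕ) : ∀ v, |φ n v| ≤ p n v := by
  induction n with
  | zero => intro v; rw [p0]; exact le_max_right _ _
  | succ n ih =>
    intro v
    have := le_p n v 0
    simp only [pow_zero, one_mul, mul_one] at this
    exact (ih _).trans this

lemma bd_succ {n : ℕ} {u : A} {C : ℝ} (hC : 0 ≤ C) (hu : ∀ v, E n (u * v) = u * E n v)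
    (h : ∀ v, p n (u * v) ≤ C * p n v) (v : A) : p (n + 1) (u * v) ≤ C * p (n + 1) v := by
  refine next_le (δ_pos _) (by positivity) fun j => ?_
  rw [mul_left_comm, hu, mul_assoc]
  exact (h _).trans (mul_le_mul_of_nonneg_left (le_p n v j) hC)

lemma bd_s {k n : ℕ} (h : k ≤ n) : ∀ v, p n (s k * v) ≤ δ k * p n v := by
  induction n, h using Nat.le_induction with
  | base =>
    intro v
    cases k with
    | zero =>
      have e : s 0 = X (q 0) := by simp [s, c]
      have := co_mul 0 (q 0) v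
      rw [add_zero] at this
      rw [e, p0, p0, this, co_mul_lt _ _ (by rw [q0]; norm_num)]
      simp [δ]
    | succ k =>
      have := δ_pos (k + 1)
      refine next_le (δ_pos _) (by positivity) fun j => ?_
      have := le_p k v (j + 1)
      rw [← mul_assoc, ← pow_succ]
      refine this.trans_eq ?_
      ring
  | succ n h ih => exact bd_succ (δ_pos k).le (E_s h) ih

noncomputable def d : ℕ → ℝ
  | 0 => 1
  | n + 1 => δ (n + 1) + δ n

lemma d_pos (n : ℕ) : 0 < d n := by
  cases n with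
  | zero => exact one_pos
  | succ n => exact add_pos (δ_pos _) (δ_pos _)

lemma d_le (n : ℕ) : d n ≤ 3 * δ n := by
  cases n with
  | zero => simp [d, δ]
  | succ n => simp only [d, δ, pow_succ]; linarith

lemma d_le2 (n : ℕ) : d n ≤ 2 := by
  cases n with
  | zero => simp [d]
  | succ n => have := δ_le n; have := δ_le (n + 1); simp only [d]; linarith

lemma bd_x {k n : ℕ} (h : k ≤ n) (v : A) : p n (X (q k) * v) ≤ d k / c k * p n v := by
  cases k with
  | zero =>
    have e : s 0 = X (q 0) := by simp [s, c]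
    have := bd_s h v
    rw [e] at this
    simpa [d, c, δ] using this
  | succ k =>
    have hc := c_pos (k + 1)
    have e : X (q (k + 1)) * v = (c (k + 1))⁻¹ • (s (k + 1) * v - s k * v) := by
      rw [← sub_mul, s_succ, add_sub_cancel_left, smul_mul_assoc, smul_smul, inv_mul_cancel₀ hc.ne',
        one_smul]
    rw [e, map_smul_eq_mul, Real.norm_of_nonneg (by positivity), div_mul_eq_mul_div, div_eq_inv_mul]
    refine mul_le_mul_of_nonneg_left ((map_sub_le_add _ _ _).trans ?_) (by positivity)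
    have := bd_s h v
    have := bd_s (show k ≤ n by omega) v
    simp only [d]; linarith

lemma p_one (n : ℕ) : p n 1 ≤ 1 := by
  induction n with
  | zero =>
    rw [p0, ← X_zero, co_X, co_X, if_pos rfl, if_neg (by rw [q0]; norm_num)]; simp
  | succ n ih =>
    refine next_le (δ_pos _) zero_le_one fun j => ?_
    rw [mul_one, one_mul, s_succ]
    have hc := c_pos n
    refine step (p n) (E n) (X (q n)) (X (q (n + 1))) (s n) (N n) (b n) _ _ (2 / c n) (E_x n)
      (E_s le_rfl) (E_y n) (by rw [X_pow, q_succ]) (fun v => by rw [← X_one, p_null]) (x_dvd_s n)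
      (fun v => (bd_s le_rfl v).trans (mul_le_mul_of_nonneg_right (δ_le n) (apply_nonneg _ _)))
      (fun v => (bd_x le_rfl v).trans (mul_le_mul_of_nonneg_right
        (div_le_div_of_nonneg_right (d_le2 n) hc.le) (apply_nonneg _ _))) ih
      (Nat.le_mul_of_pos_right _ (Nat.succ_pos n)) (b_pos n) ?_ (δ_pos _) (δ_le _) rfl j
    rw [le_div_iff₀ hc]
    linarith [c_le n, δ_le n]

end Pool.Agent.H29.QIdeal
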