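import Pool.Agent.H29.QIdeal1

set_option autoImplicit false
open Finset Filter Topology

namespace Pool.Agent.H29.QIdeal

lemma den_dvd (n : ℕ) (hn : 0 < n) : n ∣ N n := by
  obtain ⟨m, rfl⟩ := Nat.exists_eq_succ_of_ne_zero hn.ne'
  exact Dvd.dvd.mul_left (Dvd.intro_left _ rfl) _

lemma X_rep (t : NNRat) {n : ℕ} (h : t.den ≤ n) : ∃ m : ℕ, X t = X (q n) ^ m := by
  obtain ⟨k, hk⟩ := den_dvd t.den t.den_pos
  obtain ⟨m, -, e⟩ := X_q_pow h
  refine ⟨m * (t.num * k), ?_⟩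
  rw [pow_mul, ← e, X_pow]
  congr 1
  have h1 : (t.den : NNRat) ≠ 0 := by exact_mod_cast t.den_ne_zero
  have h2 : (k : NNRat) ≠ 0 := by
    have := N_pos t.den
    rw [hk] at this
    exact_mod_cast (Nat.pos_of_mul_pos_left this).ne'
  rw [q, hk]; push_cast
  conv_lhs => rw [← NNRat.num_div_den t]
  field_simp

def Bd (t : NNRat) (C : ℝ) : Prop := 1 ≤ C ∧ ∀ᶠ n in atTop, ∀ v, p n (X t * v) ≤ C * p n v

lemma Bd_q (k : ℕ) : Bd (q k) (1 + d k / c k) := by
  have := d_pos k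
  have := c_pos k
  refine ⟨le_add_of_nonneg_right (by positivity), (eventually_ge_atTop k).mono fun n hn v => ?_⟩
  refine (bd_x hn v).trans (mul_le_mul_of_nonneg_right (by linarith) (apply_nonneg _ _))

lemma Bd_ex (t : NNRat) : ∃ C, Bd t C := by
  obtain ⟨m, e⟩ := X_rep t le_rfl
  obtain ⟨h1, h2⟩ := Bd_q t.den
  refine ⟨(1 + d t.den / c t.den) ^ m, one_le_pow₀ h1, h2.mono fun n hn v => ?_⟩
  rw [e]
  exact pow_bd _ _ _ (by linarith) hn m v

lemma Bd_mul {s t : NNRat} {C D : ℝ} (h1 : Bd s C) (h2 : Bd t D) : Bd (s + t) (C * D) := by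
  refine ⟨one_le_mul_of_one_le_of_one_le h1.1 h2.1, (h1.2.and h2.2).mono fun n hn v => ?_⟩
  rw [X_add, mul_assoc, mul_assoc]
  exact (hn.1 _).trans (mul_le_mul_of_nonneg_left (hn.2 v) (by linarith [h1.1]))

noncomputable def w0 (t : NNRat) : ℝ := sInf {C | Bd t C}

lemma bddB (t : NNRat) : BddBelow {C | Bd t C} := ⟨1, fun _ h => h.1⟩

lemma one_le_w0 (t : NNRat) : 1 ≤ w0 t := le_csInf (Bd_ex t) fun _ h => h.1

lemma w0_le {t : NNRat} {C : ℝ} (h : Bd t C) : w0 t ≤ C := csInf_le (bddB t) h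

lemma w0_add (s t : NNRat) : w0 (s + t) ≤ w0 s * w0 t := by
  have h1 : ∀ D, Bd t D → w0 (s + t) ≤ w0 s * D := by
    intro D hD
    have hD0 : 0 < D := by linarith [hD.1]
    rw [← div_le_iff₀ hD0]
    exact le_csInf (Bd_ex s) fun C hC => (div_le_iff₀ hD0).2 (w0_le (Bd_mul hC hD))
  have hs : 0 < w0 s := by linarith [one_le_w0 s]
  rw [← div_le_iff₀' hs]
  exact le_csInf (Bd_ex t) fun D hD => (div_le_iff₀' hs).2 (h1 D hD)

lemma X_null {t : NNRat} (h : 1 ≤ t) (n : ℕ) (v : A) : p n (X t * v) = 0 := by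
  rw [← add_tsub_cancel_of_le h, X_add, mul_assoc, p_null]

lemma w0_big {t : NNRat} (h : 1 ≤ t) : w0 t = 1 :=
  le_antisymm (w0_le ⟨le_rfl, Eventually.of_forall fun n v => by
    rw [X_null h]; positivity⟩) (one_le_w0 t)

noncomputable def g (t : NNRat) : ℝ := φ t.den (X t)

lemma φ_X (t : NNRat) {n : ℕ} (h : t.den ≤ n) : φ n (X t) = g t := by
  induction n, h using Nat.le_induction with
  | base => rfl
  | succ n h ih =>
    obtain ⟨m, e⟩ := X_rep t h
    change φ n (E n (X t)) = _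
    rw [← ih, e, ← mul_one (X (q n) ^ m), pow_in _ _ (E_x n), E_one]

lemma g_le (t : NNRat) : |g t| ≤ w0 t := by
  refine le_csInf (Bd_ex t) fun C hC => ?_
  obtain ⟨n, h1, h2⟩ := (hC.2.and (eventually_ge_atTop t.den)).exists
  have := h1 1
  rw [mul_one] at this
  rw [← φ_X t h2]
  refine (φ_le n _).trans (this.trans ?_)
  have := p_one n
  nlinarith [hC.1]

lemma g_big {t : NNRat} (h : 1 ≤ t) : g t = 0 := by
  have := φ_le t.den (X t)
  rw [← mul_one (X t), X_null h, mul_one] at this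
  exact abs_nonpos_iff.1 this

lemma g_half : g (q 0) = 1 := by
  have h : ∀ n, φ n (X (q 0)) = 1 := by
    intro n
    induction n with
    | zero => change co _ _ = _; rw [co_X, if_pos rfl]
    | succ n ih =>
      obtain ⟨m, -, e⟩ := X_q_pow (Nat.zero_le n)
      change φ n (E n (X (q 0))) = _
      rw [← ih, e, ← mul_one (X (q n) ^ m), pow_in _ _ (E_x n), E_one]
  exact h _

lemma part (t : NNRat) : ∃ C : ℝ, ∀ m, |∑ k ∈ range (m + 1), c k * g (q k + t)| ≤ C * δ m := by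
  obtain ⟨C, hC⟩ := Bd_ex t
  refine ⟨C, fun m => ?_⟩
  have h3 : ∀ᶠ n in atTop, ∀ k ∈ range (m + 1), (q k + t).den ≤ n :=
    (eventually_all_finset _).2 fun k _ => eventually_ge_atTop _
  obtain ⟨n, ⟨h1, h2⟩, h3⟩ := ((hC.2.and (eventually_ge_atTop m)).and h3).exists
  have e : ∑ k ∈ range (m + 1), c k * g (q k + t) = φ n (X t * (s m * 1)) := by
    rw [mul_one, s, mul_sum, map_sum]
    refine sum_congr rfl fun k hk => ?_
    rw [mul_smul_comm, map_smul, ← X_add, add_comm t, φ_X _ (h3 k hk), smul_eq_mul]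
  rw [e]
  refine (φ_le n _).trans ((h1 _).trans (mul_le_mul_of_nonneg_left ((bd_s h2 1).trans ?_)
    (by linarith [hC.1])))
  have := p_one n
  have := δ_pos m
  nlinarith

lemma sum_cw : Summable fun k => c k * w0 (q k) := by
  have hg : Summable fun k => 4 * δ k := (summable_geometric_two).mul_left 4
  refine hg.of_nonneg_of_le (fun k => mul_nonneg (c_pos k).le (by linarith [one_le_w0 (q k)]))
    fun k => ?_
  have h1 := mul_le_mul_of_nonneg_left (w0_le (Bd_q k)) (c_pos k).le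
  rw [mul_add, mul_one, mul_div_cancel₀ _ (c_pos k).ne'] at h1
  linarith [c_le k, d_le k]

lemma annih (t : NNRat) : HasSum (fun k => c k * g (q k + t)) 0 := by
  have hs : Summable fun k => c k * g (q k + t) := by
    refine (sum_cw.mul_right (w0 t)).of_norm_bounded fun k => ?_
    rw [norm_mul, Real.norm_of_nonneg (c_pos k).le, mul_assoc]
    exact mul_le_mul_of_nonneg_left ((g_le _).trans (w0_add _ _)) (c_pos k).le
  rw [hs.hasSum_iff_tendsto_nat, ← tendsto_add_atTop_iff_nat 1]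
  obtain ⟨C, hC⟩ := part t
  refine squeeze_zero_norm hC ?_
  simpa [δ] using (tendsto_pow_atTop_nhds_zero_of_lt_one (r := (1 / 2 : ℝ)) (by norm_num)
    (by norm_num)).const_mul C

noncomputable def ω (r : ℚ) : ℝ := Real.exp (-(r:ℝ) ^ 2) * w0 r.toNNRat

noncomputable def G (r : ℚ) : ℂ := (g r.toNNRat : ℝ)

lemma ω_pos (r : ℚ) : 0 < ω r := mul_pos (Real.exp_pos _) (by linarith [one_le_w0 r.toNNRat])

lemma ω_add (s t : ℚ) (hs : 0 ≤ s) (ht : 0 ≤ t) : ω (s + t) ≤ ω s * ω t := by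
  unfold ω
  rw [Rat.toNNRat_add hs ht, mul_mul_mul_comm, ← Real.exp_add]
  have hs' : (0:ℝ) ≤ s := by exact_mod_cast hs
  have ht' : (0:ℝ) ≤ t := by exact_mod_cast ht
  refine mul_le_mul (Real.exp_le_exp.2 ?_) (w0_add _ _) (by linarith [one_le_w0 (s.toNNRat + t.toNNRat)])
    (Real.exp_pos _).le
  push_cast; nlinarith

lemma one_le_toNN {r : ℚ} (h : 1 ≤ r) : 1 ≤ r.toNNRat := by
  have := NNRat.toNNRat_mono h
  simpa using this

lemma ω_rad (t : ℚ) (ht : 0 < t) :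
    Tendsto (fun n : ℕ => ω ((n : ℚ) * t) ^ ((1 : ℝ) / (n : ℝ))) atTop (𝓝 0) := by
  have ht' : (0:ℝ) < t := by exact_mod_cast ht
  have h1 : Tendsto (fun n : ℕ => Real.exp (-((n:ℝ) * (t:ℝ) ^ 2))) atTop (𝓝 0) :=
    Real.tendsto_exp_neg_atTop_nhds_zero.comp
      (tendsto_natCast_atTop_atTop.atTop_mul_const (by positivity))
  refine h1.congr' ?_
  obtain ⟨m, hm⟩ := exists_nat_ge (1 / t)
  filter_upwards [eventually_ge_atTop m, eventually_gt_atTop 0] with n hn hn0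
  have : 1 ≤ (n:ℚ) * t := by
    rw [div_le_iff₀ ht] at hm
    have : (m:ℚ) ≤ n := by exact_mod_cast hn
    nlinarith
  have hn' : (n:ℝ) ≠ 0 := by positivity
  rw [ω, w0_big (one_le_toNN this), mul_one, ← Real.exp_mul]
  congr 1; push_cast; field_simp

lemma G_le (r : ℚ) (hr : 0 ≤ r) : ‖G r‖ ≤ Real.exp 1 * ω r := by
  rw [G, Complex.norm_real, Real.norm_eq_abs]
  rcases le_total 1 r with h | h
  · rw [g_big (one_le_toNN h), abs_zero]; exact (mul_pos (Real.exp_pos _) (ω_pos r)).le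
  · rw [ω, ← mul_assoc, ← Real.exp_add]
    have h1 : (r:ℝ) ≤ 1 := by exact_mod_cast h
    have h0 : (0:ℝ) ≤ r := by exact_mod_cast hr
    have : 1 ≤ Real.exp (1 + -(r:ℝ) ^ 2) := Real.one_le_exp (by nlinarith)
    have := g_le r.toNNRat
    have := one_le_w0 r.toNNRat
    nlinarith

def L (f : ℚ → ℂ) : Prop := (∀ q : ℚ, q < 0 → f q = 0) ∧ Summable (fun q : ℚ => ‖f q‖ * ω q)

lemma term_le {f : ℚ → ℂ} (hf : ∀ q : ℚ, q < 0 → f q = 0) {t : ℚ} (ht : 0 ≤ t) (r : ℚ) :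
    ‖f r * G (r + t)‖ ≤ (Real.exp 1 * ω t) * (‖f r‖ * ω r) := by
  rcases lt_or_ge r 0 with h | h
  · simp [hf r h]
  rw [norm_mul]
  have h1 := G_le (r + t) (add_nonneg h ht)
  have h2 := mul_le_mul_of_nonneg_left (ω_add r t h ht) (Real.exp_pos 1).le
  calc ‖f r‖ * ‖G (r + t)‖ ≤ ‖f r‖ * (Real.exp 1 * (ω r * ω t)) :=
        mul_le_mul_of_nonneg_left (h1.trans h2) (norm_nonneg _)
    _ = _ := by ring

lemma L.sum {f : ℚ → ℂ} (hf : L f) {t : ℚ} (ht : 0 ≤ t) : Summable fun r => f r * G (r + t) :=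
  (hf.2.mul_left _).of_norm_bounded (term_le hf.1 ht)

lemma L.add {f g : ℚ → ℂ} (hf : L f) (hg : L g) : L (f + g) := by
  refine ⟨fun q h => by simp [hf.1 q h, hg.1 q h], (hf.2.add hg.2).of_nonneg_of_le
    (fun r => mul_nonneg (norm_nonneg _) (ω_pos r).le) fun r => ?_⟩
  rw [← add_mul]
  exact mul_le_mul_of_nonneg_right (norm_add_le _ _) (ω_pos r).le

lemma L.smul {f : ℚ → ℂ} (hf : L f) (a : ℂ) : L (a • f) := by
  refine ⟨fun q h => by simp [hf.1 q h], (hf.2.mul_left ‖a‖).congr fun r => ?_⟩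
  simp [mul_assoc]

def I : Set (ℚ → ℂ) := {f | L f ∧ ∀ t : ℚ, 0 ≤ t → ∑' r, f r * G (r + t) = 0}

lemma I_add {f g : ℚ → ℂ} (hf : f ∈ I) (hg : g ∈ I) : f + g ∈ I := by
  refine ⟨hf.1.add hg.1, fun t ht => ?_⟩
  simp only [Pi.add_apply, add_mul]
  rw [(hf.1.sum ht).tsum_add (hg.1.sum ht), hf.2 t ht, hg.2 t ht, add_zero]

lemma I_smul (a : ℂ) {f : ℚ → ℂ} (hf : f ∈ I) : a • f ∈ I := by
  refine ⟨hf.1.smul a, fun t ht => ?_⟩
  simp only [Pi.smul_apply, smul_eq_mul, mul_assoc]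
  rw [tsum_mul_left, hf.2 t ht, mul_zero]

def sh : ℚ × ℚ ≃ ℚ × ℚ where
  toFun x := (x.2, x.1 - x.2)
  invFun x := (x.2 + x.1, x.1)
  left_inv x := by simp
  right_inv x := by simp

lemma I_conv {a f : ℚ → ℂ} (ha : L a) (hf : f ∈ I) : (fun t : ℚ => ∑' s : ℚ, a s * f (t - s)) ∈ I := by
  have hF : Summable fun x : ℚ × ℚ => (‖a x.1‖ * ω x.1) * (‖f x.2‖ * ω x.2) :=
    ha.2.mul_of_nonneg hf.1.2 (fun r => mul_nonneg (norm_nonneg _) (ω_pos r).le)
      (fun r => mul_nonneg (norm_nonneg _) (ω_pos r).le)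
  have hb : ∀ s r : ℚ, ‖a s * f r‖ * ω (r + s) ≤ (‖a s‖ * ω s) * (‖f r‖ * ω r) := by
    intro s r
    rcases lt_or_ge s 0 with h | h
    · simp [ha.1 s h]
    rcases lt_or_ge r 0 with h' | h'
    · simp [hf.1.1 r h']
    rw [norm_mul]
    calc _ ≤ ‖a s‖ * ‖f r‖ * (ω r * ω s) :=
          mul_le_mul_of_nonneg_left (ω_add r s h' h) (by positivity)
      _ = _ := by ring
  have hK : Summable fun x : ℚ × ℚ => ‖a x.2 * f (x.1 - x.2)‖ * ω x.1 := by
    refine (sh.summable_iff.2 hF).of_nonneg_of_le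
      (fun x => mul_nonneg (norm_nonneg _) (ω_pos _).le) fun x => ?_
    have := hb x.2 (x.1 - x.2)
    rw [sub_add_cancel] at this
    exact this
  obtain ⟨k1, k2⟩ := (summable_prod_of_nonneg
    (fun x => mul_nonneg (norm_nonneg _) (ω_pos _).le)).1 hK
  refine ⟨⟨fun t ht => ?_, k2.of_nonneg_of_le (fun r => mul_nonneg (norm_nonneg _) (ω_pos r).le)
    fun t => ?_⟩, fun u hu => ?_⟩
  · have : ∀ s, a s * f (t - s) = 0 := by
      intro s
      rcases lt_or_ge s 0 with h | h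
      · simp [ha.1 s h]
      · simp [hf.1.1 (t - s) (by linarith)]
    simp [this]
  · simp only
    rw [tsum_mul_right]
    exact mul_le_mul_of_nonneg_right
      (norm_tsum_le_tsum_norm ((summable_mul_right_iff (ω_pos t).ne').1 (k1 t))) (ω_pos t).le
  · have hH : Summable fun x : ℚ × ℚ => a x.1 * (f x.2 * G (x.2 + (x.1 + u))) := by
      refine (hF.mul_left (Real.exp 1 * ω u)).of_norm_bounded fun x => ?_
      rcases lt_or_ge x.1 0 with h | h
      · simp [ha.1 _ h]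
      have h1 := term_le hf.1.1 (add_nonneg h hu) x.2
      have h2 := ω_add x.1 u h hu
      have h3 : 0 ≤ ‖f x.2‖ * ω x.2 := mul_nonneg (norm_nonneg _) (ω_pos _).le
      rw [norm_mul]
      calc _ ≤ ‖a x.1‖ * (Real.exp 1 * (ω x.1 * ω u) * (‖f x.2‖ * ω x.2)) := by
            refine mul_le_mul_of_nonneg_left (h1.trans ?_) (norm_nonneg _)
            gcongr
        _ = _ := by ring
    have e1 : ∑' x : ℚ × ℚ, a x.1 * (f x.2 * G (x.2 + (x.1 + u))) = 0 := by
      rw [hH.tsum_prod]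
      have : ∀ s : ℚ, ∑' r : ℚ, a s * (f r * G (r + (s + u))) = 0 := by
        intro s
        rcases lt_or_ge s 0 with h | h
        · simp [ha.1 s h]
        · rw [tsum_mul_left, hf.2 _ (add_nonneg h hu), mul_zero]
      simp [this]
    have hH' : Summable fun x : ℚ × ℚ => a (sh x).1 * (f (sh x).2 * G ((sh x).2 + ((sh x).1 + u))) :=
      sh.summable_iff.2 hH
    rw [← sh.tsum_eq, hH'.tsum_prod] at e1
    rw [← e1]
    refine tsum_congr fun t => ?_
    rw [← tsum_mul_right]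
    refine tsum_congr fun s => ?_
    simp only [sh, Equiv.coe_fn_mk, Function.comp]
    rw [mul_assoc]; congr 3; ring

lemma I_closed {f : ℚ → ℂ} (hf : L f)
    (h : ∀ ε : ℝ, 0 < ε → ∃ g ∈ I, ∑' q : ℚ, ‖f q - g q‖ * ω q < ε) : f ∈ I := by
  refine ⟨hf, fun t ht => ?_⟩
  have hK : 0 < Real.exp 1 * ω t := mul_pos (Real.exp_pos _) (ω_pos t)
  refine norm_le_zero_iff.1 (le_of_forall_pos_le_add fun ε hε => ?_)
  obtain ⟨g, hg, hlt⟩ := h (ε / (Real.exp 1 * ω t)) (by positivity)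
  have hd : L (f + (-1 : ℂ) • g) := hf.add (hg.1.smul _)
  have e0 : f + (-1 : ℂ) • g = fun r => f r - g r := by funext r; simp [sub_eq_add_neg]
  rw [e0] at hd
  have e : ∑' r, f r * G (r + t) = ∑' r, (f r - g r) * G (r + t) := by
    simp only [sub_mul]
    rw [(hf.sum ht).tsum_sub (hg.1.sum ht), hg.2 t ht, sub_zero]
  rw [e, zero_add]
  refine (tsum_of_norm_bounded (hd.2.mul_left _).hasSum (term_le hd.1 ht)).trans ?_
  rw [tsum_mul_left, ← le_div_iff₀' hK]
  exact hlt.le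

def qq (k : ℕ) : ℚ := q k

lemma N_lt (n : ℕ) : N n < N (n + 1) := by
  have h2 : ∀ n, 2 ≤ N n := by
    intro n
    induction n with
    | zero => exact le_rfl
    | succ n ih => exact ih.trans (Nat.le_mul_of_pos_right _ (b_pos n))
  have := h2 n
  simp only [N]; nlinarith [Nat.zero_le (N n * n)]

lemma qq_eq (k : ℕ) : qq k = 1 / (N k : ℚ) := by simp [qq, q]

lemma qq_inj : Function.Injective qq := by
  intro a b h
  rw [qq_eq, qq_eq, one_div, one_div, inv_inj, Nat.cast_inj] at h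
  exact (strictMono_nat_of_lt_succ N_lt).injective h

noncomputable def f0 : ℚ → ℂ := Function.extend qq (fun k => (c k : ℂ)) 0

lemma f0_q (k : ℕ) : f0 (qq k) = c k := qq_inj.extend_apply _ _ k

lemma f0_out {r : ℚ} (h : r ∉ Set.range qq) : f0 r = 0 :=
  Function.extend_apply' _ _ _ h

lemma f0_mem : f0 ∈ I := by
  refine ⟨⟨fun r hr => f0_out ?_, ?_⟩, fun t ht => ?_⟩
  · rintro ⟨k, rfl⟩
    exact absurd hr (not_lt.2 (q k).2)
  · rw [← qq_inj.summable_iff (fun r hr => by simp [f0_out hr])]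
    refine sum_cw.of_nonneg_of_le (fun k => mul_nonneg (norm_nonneg _) (ω_pos _).le) fun k => ?_
    simp only [Function.comp, f0_q, Complex.norm_real, Real.norm_of_nonneg (c_pos k).le]
    refine mul_le_mul_of_nonneg_left ?_ (c_pos k).le
    rw [ω, qq, NNRat.toNNRat_coe]
    have := Real.exp_le_one_iff.2 (show -((q k : ℚ) : ℝ) ^ 2 ≤ 0 by
      simp only [Left.neg_nonpos_iff]; positivity)
    have := one_le_w0 (q k)
    nlinarith
  · rw [← qq_inj.tsum_eq (fun r hr => by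
      by_contra h; exact hr (by simp [f0_out h]))]
    have := (Complex.hasSum_ofReal.2 (annih t.toNNRat)).tsum_eq
    rw [Complex.ofReal_zero] at this
    rw [← this]
    refine tsum_congr fun k => ?_
    rw [f0_q, G, qq, Rat.toNNRat_add (q k).coe_nonneg ht, NNRat.toNNRat_coe]
    push_cast; rfl

lemma single_not_mem : (Pi.single (qq 0) 1 : ℚ → ℂ) ∉ I := by
  intro h
  have := h.2 0 le_rfl
  rw [tsum_eq_single (qq 0) (fun r hr => by simp [Pi.single_eq_of_ne hr])] at this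
  simp [G, qq, g_half] at this

lemma single_L : L (Pi.single (qq 0) 1 : ℚ → ℂ) := by
  refine ⟨fun r hr => Pi.single_eq_of_ne (fun h => ?_) _, summable_of_ne_finset_zero
    (s := {qq 0}) fun r hr => ?_⟩
  · rw [h] at hr; exact absurd hr (not_lt.2 (q 0).2)
  · simp [Pi.single_eq_of_ne (by simpa using hr : r ≠ qq 0)]

lemma alpha_zero {α : ℝ} (h0 : 0 ≤ α) (h : ∀ r : ℚ, (r : ℝ) < α → f0 r = 0) : α = 0 := by
  by_contra hne
  have hpos : 0 < α := lt_of_le_of_ne h0 (Ne.symm hne)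
  obtain ⟨k, hk⟩ := exists_nat_gt (1 / α)
  have hk' : (k:ℝ) ≤ N k := by exact_mod_cast (strictMono_nat_of_lt_succ N_lt).le_apply
  have hN : (0:ℝ) < N k := by exact_mod_cast N_pos k
  have := h (qq k) (by
    rw [qq_eq]; push_cast
    rw [div_lt_iff₀ hN]; rw [div_lt_iff₀ hpos] at hk; nlinarith)
  rw [f0_q] at this
  exact (c_pos k).ne' (by exact_mod_cast this)

end Pool.Agent.H29.QIdeal
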