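import Mathlib

set_option autoImplicit false

namespace Pool.Agent.H29.Queue

open MeasureTheory ProbabilityTheory Filter
open scoped ENNReal

noncomputable def nu : Measure Bool :=
  ENNReal.ofReal (1 / 20) • Measure.dirac true + ENNReal.ofReal (19 / 20) • Measure.dirac false

instance : IsProbabilityMeasure nu := ⟨by
  simp only [nu, Measure.add_apply, Measure.smul_apply, measure_univ, smul_eq_mul, mul_one]
  rw [← ENNReal.ofReal_add (by norm_num) (by norm_num)]; norm_num⟩

lemma nu_int (f : Bool → ℝ) : ∫ b, f b ∂nu = 1 / 20 * f true + 19 / 20 * f false := by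
  rw [nu, integral_add_measure, integral_smul_measure, integral_smul_measure]
  · simp only [integral_dirac, smul_eq_mul]
    rw [ENNReal.toReal_ofReal (by norm_num), ENNReal.toReal_ofReal (by norm_num)]
  · exact (Integrable.of_finite).smul_measure (by simp)
  · exact (Integrable.of_finite).smul_measure (by simp)

abbrev Om : Type := ℕ ⊕ ℕ → Bool

noncomputable def mu : Measure Om := Measure.infinitePi fun _ => nu

instance : IsProbabilityMeasure mu := by unfold mu; infer_instance

lemma mp (i : ℕ ⊕ ℕ) : MeasurePreserving (fun ω : Om => ω i) mu nu :=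
  measurePreserving_eval_infinitePi (fun _ => nu) i

lemma mu_int (i : ℕ ⊕ ℕ) (f : Bool → ℝ) :
    ∫ ω, f (ω i) ∂mu = 1 / 20 * f true + 19 / 20 * f false := by
  rw [← nu_int, ← (mp i).map_eq, integral_map (mp i).measurable.aemeasurable
    (measurable_of_finite f).aestronglyMeasurable]

lemma mu_integrable (i : ℕ ⊕ ℕ) (f : Bool → ℝ) : Integrable (fun ω : Om => f (ω i)) mu :=
  (mp i).integrable_comp_of_integrable (Integrable.of_finite)

def Y : ℕ → Om → ℕ
  | 0, _ => 0
  | n + 1, ω => if ω (.inr n) then Y n ω + 1 else Y n ω - 1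

lemma Y_le (n : ℕ) (ω : Om) : Y n ω ≤ n := by
  induction n with
  | zero => simp [Y]
  | succ n ih => simp only [Y]; split_ifs <;> omega

lemma Y_congr (n : ℕ) (ω ω' : Om) (h : ∀ i < n, ω (.inr i) = ω' (.inr i)) : Y n ω = Y n ω' := by
  induction n with
  | zero => simp [Y]
  | succ n ih => simp only [Y]; rw [h n (by omega), ih fun i hi => h i (by omega)]

lemma Y_fac (n : ℕ) : ∃ Φ : ((Finset.range n).image (Sum.inr : ℕ → ℕ ⊕ ℕ) → Bool) → ℕ,
    Y n = Φ ∘ fun (ω : Om) i => ω i := by
  refine ⟨fun x => Y n fun i => if h : i ∈ (Finset.range n).image Sum.inr then x ⟨i, h⟩ else false,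
    funext fun ω => Y_congr n _ _ fun i hi => ?_⟩
  rw [dif_pos (by simpa using hi)]

lemma Y_meas (n : ℕ) : Measurable (Y n) := by
  obtain ⟨Φ, h⟩ := Y_fac n
  rw [h]; exact (measurable_of_finite Φ).comp (by fun_prop)

lemma Y_indep (n : ℕ) : IndepFun (Y n) (fun ω : Om => ω (.inr n)) mu := by
  obtain ⟨Φ, h⟩ := Y_fac n
  have h0 : iIndepFun (fun i (ω : Om) => ω i) mu :=
    iIndepFun_infinitePi (X := fun _ ω => ω) (by fun_prop)
  have := (h0.indepFun_finset ((Finset.range n).image Sum.inr) {Sum.inr n} (by simp)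
    (by fun_prop)).comp (measurable_of_finite Φ)
    (measurable_pi_apply (⟨Sum.inr n, by simp⟩ : ({Sum.inr n} : Finset (ℕ ⊕ ℕ))))
  rw [h]; exact this

lemma psi_meas (n : ℕ) : Measurable fun ω => (3 : ℝ) ^ Y n ω :=
  (measurable_of_countable fun k : ℕ => (3 : ℝ) ^ k).comp (Y_meas n)

lemma psi_int (n : ℕ) : Integrable (fun ω => (3 : ℝ) ^ Y n ω) mu :=
  Integrable.of_bound (psi_meas n).aestronglyMeasurable (3 ^ n) (Eventually.of_forall fun ω => by
    rw [Real.norm_of_nonneg (by positivity)]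
    exact pow_le_pow_right₀ (by norm_num) (Y_le n ω))

lemma psi_le (n : ℕ) : ∫ ω, (3 : ℝ) ^ Y n ω ∂mu ≤ 19 / 16 := by
  induction n with
  | zero => simp [Y]; norm_num
  | succ n ih =>
    let A : Bool → ℝ := fun b => if b then 3 else 1 / 3
    let B : Bool → ℝ := fun b => if b then 0 else 2 / 3
    have hi : IndepFun (fun ω => (3 : ℝ) ^ Y n ω) (fun ω : Om => A (ω (.inr n))) mu :=
      (Y_indep n).comp (measurable_of_countable fun k : ℕ => (3 : ℝ) ^ k) (measurable_of_finite A)
    have h1 : Integrable (fun ω => (3 : ℝ) ^ Y n ω * A (ω (.inr n))) mu := hi.integrable_mul (psi_int n) (mu_integrable _ A)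
    have h2 := hi.integral_fun_mul_eq_mul_integral (psi_int n).1 (mu_integrable _ A).1
    calc _ ≤ ∫ ω, ((3 : ℝ) ^ Y n ω * A (ω (.inr n)) + B (ω (.inr n))) ∂mu := by
          refine integral_mono (psi_int _) (h1.add (mu_integrable _ B)) fun ω => ?_
          simp only [Y, A, B]
          split_ifs
          · rw [pow_succ]; linarith
          · cases Y n ω with
            | zero => norm_num
            | succ k => rw [Nat.add_sub_cancel, pow_succ]; linarith
      _ = (∫ ω, (3 : ℝ) ^ Y n ω ∂mu) * (1 / 20 * 3 + 19 / 20 * (1 / 3)) + 19 / 20 * (2 / 3) := by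
          rw [integral_add h1 (mu_integrable _ B), h2, mu_int, mu_int]; simp [A, B]
      _ ≤ _ := by linarith

lemma U_le (n : ℕ) :
    ∫⁻ ω, ENNReal.ofReal ((Y n ω : ℝ) / 2) ∂mu ≤ ENNReal.ofReal (3 / 64) := by
  have h : Integrable (fun ω => ((3 : ℝ) ^ Y n ω - 1) / 4) mu :=
    ((psi_int n).sub (integrable_const _)).div_const _
  have b : ∀ ω, (Y n ω : ℝ) / 2 ≤ ((3 : ℝ) ^ Y n ω - 1) / 4 := fun ω => by
    have := one_add_mul_le_pow (a := (2 : ℝ)) (by norm_num) (Y n ω)
    norm_num at this; linarith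
  calc _ ≤ ∫⁻ ω, ENNReal.ofReal (((3 : ℝ) ^ Y n ω - 1) / 4) ∂mu :=
        lintegral_mono fun ω => ENNReal.ofReal_le_ofReal (b ω)
    _ = ENNReal.ofReal (∫ ω, ((3 : ℝ) ^ Y n ω - 1) / 4 ∂mu) :=
        (ofReal_integral_eq_lintegral_ofReal h (Eventually.of_forall fun ω =>
          le_trans (by positivity) (b ω))).symm
    _ ≤ _ := by
        apply ENNReal.ofReal_le_ofReal
        rw [integral_div, integral_sub (psi_int n) (integrable_const _)]
        have := psi_le n
        simp only [integral_const, probReal_univ, smul_eq_mul, mul_one]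
        linarith

noncomputable def sv (b : Bool) : ℝ := if b then 5 else 3

noncomputable def V : ℕ → Om → Fin 2 → ℝ
  | 0, _, _ => 0
  | n + 1, ω, j => max 0 (V n ω j +
      (if j = (if V n ω 0 ≤ V n ω 1 then 0 else 1) then sv (ω (.inr n)) else 0) - 2)

lemma V_low : ENNReal.ofReal (1 / 20) ≤ ∫⁻ ω, ENNReal.ofReal (⨅ j, V 2 ω j) ∂mu := by
  let B : Bool → ℝ := fun b => if b then 1 else 0
  have : ENNReal.ofReal (1 / 20) = ∫⁻ ω, ENNReal.ofReal (B (ω (.inr 0))) ∂mu := by
    rw [← ofReal_integral_eq_lintegral_ofReal (mu_integrable _ B) (Eventually.of_forall fun ω => by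
      simp only [B]; split_ifs <;> norm_num), mu_int]
    simp [B]
  rw [this]
  refine lintegral_mono fun ω => ?_
  cases h : ω (.inr 0)
  · simp [B]
  · refine ENNReal.ofReal_le_ofReal (le_ciInf fun j => ?_)
    have h1 : V 1 ω 0 = 3 := by simp [V, h, sv]; norm_num
    have h2 : V 1 ω 1 = 0 := by simp [V]
    have h3 : 3 ≤ sv (ω (.inr 1)) := by unfold sv; split_ifs <;> norm_num
    rw [show V 2 ω j = max 0 (V 1 ω j +
      (if j = (if V 1 ω 0 ≤ V 1 ω 1 then 0 else 1) then sv (ω (.inr 1)) else 0) - 2) from rfl,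
      h1, h2, if_neg (by norm_num : ¬ (3 : ℝ) ≤ 0)]
    refine le_max_of_le_right ?_
    fin_cases j
    · simp [h1, B]; norm_num
    · simp [h2, B]; linarith

end Pool.Agent.H29.Queue
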