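import Pool.Agent.H29.Queue

set_option autoImplicit false

namespace Pool.Agent.H29.Queue

open MeasureTheory ProbabilityTheory Filter
open scoped ENNReal

noncomputable def sw (b : Bool) : ℝ := if b then 10 else 7

noncomputable def step (v : Fin 2 → ℝ) (s : ℝ) (j : Fin 2) : ℝ :=
  max 0 (v j + (if j = (if v 0 ≤ v 1 then 0 else 1) then s else 0) - 4)

noncomputable def V2 : ℕ → Om → Fin 2 → ℝ
  | 0, _ => fun _ => 0
  | n + 1, ω => step (V2 n ω) (sw (ω (.inr n)))

lemma step_eq (a b s : ℝ) : step ![a, b] s =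
    if a ≤ b then ![max 0 (a + s - 4), max 0 (b - 4)] else ![max 0 (a - 4), max 0 (b + s - 4)] := by
  funext j
  unfold step
  split_ifs with h1 h2 h3 <;> fin_cases j <;> simp_all

lemma V2_low (ω : Om) (j : Fin 2) :
    (if ω (.inr 2) then 2 else 0) + (if ω (.inr 0) then 1 else 0) ≤ V2 4 ω j := by
  have h0 : V2 0 ω = ![0, 0] := by funext j; fin_cases j <;> rfl
  have e : V2 4 ω = step (step (step (step ![0, 0] (sw (ω (.inr 0)))) (sw (ω (.inr 1))))
      (sw (ω (.inr 2)))) (sw (ω (.inr 3))) := by rw [← h0]; rfl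
  rw [e]
  cases ω (.inr 0) <;> cases ω (.inr 1) <;> cases ω (.inr 2) <;> cases ω (.inr 3) <;>
    fin_cases j <;> norm_num [step_eq, sw]

lemma V2_int : ENNReal.ofReal (3 / 20) ≤ ∫⁻ ω, ENNReal.ofReal (⨅ j, V2 4 ω j) ∂mu := by
  let A : Bool → ℝ := fun b => if b then 2 else 0
  let B : Bool → ℝ := fun b => if b then 1 else 0
  have : ENNReal.ofReal (3 / 20) =
      ∫⁻ ω, ENNReal.ofReal (A (ω (.inr 2)) + B (ω (.inr 0))) ∂mu := by
    have hi : Integrable (fun ω : Om => A (ω (.inr 2)) + B (ω (.inr 0))) mu :=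
      (mu_integrable _ A).add (mu_integrable _ B)
    rw [← ofReal_integral_eq_lintegral_ofReal hi
      (Eventually.of_forall fun ω => by
        simp only [A, B, Pi.zero_apply]; split_ifs <;> norm_num)]
    rw [integral_add (mu_integrable _ A) (mu_integrable _ B), mu_int, mu_int]
    norm_num [A, B]
  rw [this]
  exact lintegral_mono fun ω => ENNReal.ofReal_le_ofReal (le_ciInf fun j => V2_low ω j)

lemma sw_var : variance (fun ω : Om => sw (ω (.inr 0))) mu = 171 / 400 := by
  have hm : Measurable fun ω : Om => sw (ω (.inr 0)) :=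
    (measurable_of_finite sw).comp (measurable_pi_apply _)
  rw [variance_eq_integral hm.aemeasurable]
  have e : ∫ ω : Om, sw (ω (.inr 0)) ∂mu = 143 / 20 := by rw [mu_int]; norm_num [sw]
  rw [e, mu_int (.inr 0) fun b => (sw b - 143 / 20) ^ 2]
  norm_num [sw]

end Pool.Agent.H29.Queue
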