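import Mathlib

set_option autoImplicit false

namespace Pool.Agent.H29.RAlt

def R : Type := ZMod 2 × ZMod 2 × ZMod 2

instance : AddCommGroup R := inferInstanceAs (AddCommGroup (ZMod 2 × ZMod 2 × ZMod 2))
instance : Fintype R := inferInstanceAs (Fintype (ZMod 2 × ZMod 2 × ZMod 2))
instance : DecidableEq R := inferInstanceAs (DecidableEq (ZMod 2 × ZMod 2 × ZMod 2))
instance : Mul R := ⟨fun x y => (x.1 * y.1 + x.2.1 * y.2.2 + x.2.2 * y.2.1, x.2.1 * y.1, 0)⟩

instance : NonUnitalNonAssocRing R where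
  left_distrib := by decide
  right_distrib := by decide
  zero_mul := by decide
  mul_zero := by decide

def e0 : R := ((1, 0, 0) : ZMod 2 × ZMod 2 × ZMod 2)
def e1 : R := ((0, 1, 0) : ZMod 2 × ZMod 2 × ZMod 2)
def e2 : R := ((0, 0, 1) : ZMod 2 × ZMod 2 × ZMod 2)

def I : TwoSidedIdeal R :=
  TwoSidedIdeal.mk' {x | x.2.2 = 0} rfl
    (fun {x y} => by revert x y; simp only [Set.mem_ofPred_eq]; decide)
    (fun {x} => by revert x; simp only [Set.mem_ofPred_eq]; decide)
    (fun {_ _} _ => rfl) (fun {_ _} _ => rfl)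

theorem mem_I {x : R} : x ∈ I ↔ x.2.2 = 0 := by
  unfold I; rw [TwoSidedIdeal.mem_mk']; rfl

theorem ralt : ∀ x y : R, (x * y) * y = x * (y * y) := by decide

theorem cases_I : ∀ x : R, x.2.2 = 0 → x = 0 ∨ x = e0 ∨ x = e1 ∨ x = e0 + e1 := by decide

theorem minimal (J : TwoSidedIdeal R) (hJ : J ≤ I) : J = ⊥ ∨ J = I := by
  by_cases h : ∀ x ∈ J, x = 0
  · left
    exact eq_bot_iff.mpr fun x hx => by rw [h x hx]; exact zero_mem _
  right
  push Not at h
  obtain ⟨x, hx, hx0⟩ := h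
  have h0 : e0 ∈ J := by
    rcases cases_I x (mem_I.mp (hJ hx)) with h | rfl | rfl | rfl
    · exact absurd h hx0
    · exact hx
    · have := J.mul_mem_right _ e2 hx
      rwa [show e1 * e2 = e0 by decide] at this
    · have := J.mul_mem_right _ e2 hx
      rwa [show (e0 + e1) * e2 = e0 by decide] at this
  have h1 : e1 ∈ J := by
    have := J.mul_mem_left e1 _ h0
    rwa [show e1 * e0 = e1 by decide] at this
  refine le_antisymm hJ fun y hy => ?_
  rcases cases_I y (mem_I.mp hy) with rfl | rfl | rfl | rfl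
  exacts [zero_mem _, h0, h1, add_mem h0 h1]

def J : AddSubgroup R where
  carrier := {x | x.1 = 0 ∧ x.2.2 = 0}
  zero_mem' := ⟨rfl, rfl⟩
  add_mem' := fun {x y} => by revert x y; simp only [Set.mem_ofPred_eq]; decide
  neg_mem' := fun {x} => by revert x; simp only [Set.mem_ofPred_eq]; decide

theorem mem_J {x : R} : x ∈ J ↔ x.1 = 0 ∧ x.2.2 = 0 := Iff.rfl

end Pool.Agent.H29.RAlt
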