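import Mathlib

set_option autoImplicit false

namespace Pool.Agent.H29.RAlt2

abbrev G : Type := ℕ → ZMod 2
abbrev C : Type := AddMonoidAlgebra (ZMod 2) G

lemma two (u : C) : u + u = 0 := by
  rw [← two_smul (ZMod 2) u, show (2 : ZMod 2) = 0 from rfl, zero_smul]

def A : Type := C × C × (C →+ C)

noncomputable instance : AddCommGroup A := inferInstanceAs (AddCommGroup (C × C × (C →+ C)))

noncomputable def act (q : C →+ C) (c : C) : C →+ C :=
  AddMonoidHom.mk' (fun u => q u * c + q (u * c)) fun a b => by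
    simp only [map_add, add_mul]; ring

@[simp] lemma act_apply (q : C →+ C) (c u : C) : act q c u = q u * c + q (u * c) := rfl

noncomputable instance : Mul A :=
  ⟨fun x y => (x.1 * y.2.1, x.2.1 * y.2.1 + y.2.2 x.1 + x.2.2 y.1, act x.2.2 y.2.1)⟩

lemma ext {x y : A} (h1 : x.1 = y.1) (h2 : x.2.1 = y.2.1) (h3 : ∀ u, x.2.2 u = y.2.2 u) : x = y :=
  Prod.ext h1 (Prod.ext h2 (AddMonoidHom.ext h3))

@[simp] lemma mul1 (x y : A) : (x * y).1 = x.1 * y.2.1 := rfl
@[simp] lemma mul2 (x y : A) : (x * y).2.1 = x.2.1 * y.2.1 + y.2.2 x.1 + x.2.2 y.1 := rfl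
@[simp] lemma mul3 (x y : A) (u : C) :
    (x * y).2.2 u = x.2.2 u * y.2.1 + x.2.2 (u * y.2.1) := rfl
@[simp] lemma add1 (x y : A) : (x + y).1 = x.1 + y.1 := rfl
@[simp] lemma add2 (x y : A) : (x + y).2.1 = x.2.1 + y.2.1 := rfl
@[simp] lemma add3 (x y : A) (u : C) : (x + y).2.2 u = x.2.2 u + y.2.2 u := rfl
@[simp] lemma zero1 : (0 : A).1 = 0 := rfl
@[simp] lemma zero2 : (0 : A).2.1 = 0 := rfl
@[simp] lemma zero3 (u : C) : (0 : A).2.2 u = 0 := rfl

noncomputable instance : NonUnitalNonAssocRing A where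
  left_distrib x y z := ext (by simp [mul_add]) (by simp [mul_add]; ring)
    fun u => by simp [mul_add]; ring
  right_distrib x y z := ext (by simp [add_mul]) (by simp [add_mul]; ring)
    fun u => by simp [add_mul]; ring
  zero_mul x := ext (by simp) (by simp) fun u => by simp
  mul_zero x := ext (by simp) (by simp) fun u => by simp

lemma ralt (x y : A) : (x * y) * y = x * (y * y) := by
  have e : (y * y).2.1 = y.2.1 * y.2.1 := by rw [mul2, add_assoc, two, add_zero]
  refine ext ?_ ?_ fun u => ?_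
  · rw [mul1, mul1, mul1, e, mul_assoc]
  · rw [mul2 x (y * y), e]
    simp only [mul1, mul2, mul3]
    linear_combination two (x.2.2 y.1 * y.2.1)
  · rw [mul3 x (y * y), e]
    simp only [mul3, mul_assoc]
    linear_combination two (x.2.2 (u * y.2.1) * y.2.1)

lemma sq_add {a b : C} (ha : a * a = 0) (hb : b * b = 0) : (a + b) * (a + b) = 0 := by
  linear_combination ha + hb + two (a * b)

lemma sq_mul {a : C} (ha : a * a = 0) (b : C) : (a * b) * (a * b) = 0 := by
  linear_combination b * b * ha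

noncomputable def S : NonUnitalSubring A where
  carrier := {x | x.2.1 * x.2.1 = 0 ∧ ∀ u, x.2.2 u * x.2.2 u = 0}
  add_mem' ha hb := ⟨sq_add ha.1 hb.1, fun u => sq_add (ha.2 u) (hb.2 u)⟩
  zero_mem' := by simp
  neg_mem' := fun {x} h => ⟨by
    change (-x.2.1) * (-x.2.1) = 0
    rw [neg_mul_neg, h.1], fun u => by
    change (-x.2.2 u) * (-x.2.2 u) = 0
    rw [neg_mul_neg, h.2]⟩
  mul_mem' ha hb := ⟨sq_add (sq_add (sq_mul ha.1 _) (hb.2 _)) (ha.2 _),
    fun u => sq_add (sq_mul (ha.2 u) _) (ha.2 _)⟩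

lemma nil {x : A} (h : x ∈ S) : x * x * x * x = 0 := by
  have h1 : x.2.1 * x.2.1 = 0 := h.1
  have e : (x * x).2.1 = 0 := by rw [mul2, add_assoc, two, add_zero, h1]
  have e2 : x * x * x * x = (x * x) * (x * x) := ralt _ _
  rw [e2]
  refine ext ?_ ?_ fun u => ?_
  · rw [mul1, e]; simp
  · rw [mul2, e, add_assoc, two]; simp
  · rw [mul3, e]; simp

noncomputable def g (v : G) : C := AddMonoidAlgebra.single v 1

lemma g_add (v w : G) : g (v + w) = g v * g w := by simp [g, AddMonoidAlgebra.single_mul_single]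

lemma g_zero : g 0 = 1 := rfl

lemma g_sq (v : G) : g v * g v = 1 := by
  rw [← g_add, ← g_zero]; congr 1; funext i; exact CharTwo.add_self_eq_zero _

noncomputable def x (i : ℕ) : C := 1 + g (Pi.single i 1)

lemma one_add_sq (v : G) : (1 + g v) * (1 + g v) = 0 := by
  linear_combination g_sq v + two (g v) + two 1

def sh (v : G) : G := fun n => Nat.casesOn n 0 v

noncomputable def bl : C →ₗ[ZMod 2] C :=
  (AddMonoidAlgebra.basis G (ZMod 2)).constr (ZMod 2) fun v => x 0 + (1 + g (sh v))

lemma bl_g (v : G) : bl (g v) = x 0 + (1 + g (sh v)) := by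
  have := (AddMonoidAlgebra.basis G (ZMod 2)).constr_basis (ZMod 2)
    (fun v => x 0 + (1 + g (sh v))) v
  rwa [AddMonoidAlgebra.basis_apply] at this

lemma bl_sq (u : C) : bl u * bl u = 0 := by
  induction u using AddMonoidAlgebra.induction_on with
  | of v => erw [bl_g]; exact sq_add (one_add_sq _) (one_add_sq _)
  | add a b ha hb => rw [map_add]; exact sq_add ha hb
  | smul r a ha => rw [map_smul, smul_mul_smul_comm, ha, smul_zero]

lemma bl_one : bl 1 = x 0 := by
  have : sh 0 = 0 := by funext n; cases n <;> rfl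
  rw [← g_zero, bl_g, this, g_zero, two, add_zero]

lemma bl_x (i : ℕ) : bl (x i) = x (i + 1) := by
  have : sh (Pi.single i 1) = Pi.single (i + 1) 1 := by
    funext n; cases n <;> simp [sh, Pi.single_apply]
  rw [x, map_add, bl_one, bl_g, this, ← add_assoc, two, zero_add, x]

lemma prod_ne (s : Finset ℕ) : ∏ i ∈ s, x i ≠ 0 := by
  intro h
  have key : ∀ s : Finset ℕ, (∏ i ∈ s, x i).coeff 0 = 1 ∧
      ∀ v, (∏ i ∈ s, x i).coeff v ≠ 0 → ∀ j ∉ s, v j = 0 := by
    intro s
    induction s using Finset.induction_on with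
    | empty =>
      refine ⟨by simp, fun v hv j _ => ?_⟩
      have : v = 0 := by
        by_contra c
        apply hv
        simp [AddMonoidAlgebra.one_def, Ne.symm c]
      simp [this]
    | insert a s ha ih =>
      have e : ∀ v, (∏ i ∈ insert a s, x i).coeff v =
          (∏ i ∈ s, x i).coeff v + (∏ i ∈ s, x i).coeff (-Pi.single a 1 + v) := fun v => by
        rw [Finset.prod_insert ha, x, add_mul, one_mul, g]
        simp [AddMonoidAlgebra.coeff_single_mul_apply]
      refine ⟨?_, fun v hv j hj => ?_⟩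
      · rw [e, ih.1]
        have : (∏ i ∈ s, x i).coeff (-Pi.single a 1 + 0) = 0 := by
          by_contra c
          simpa using ih.2 _ c a ha
        rw [this, add_zero]
      · rw [Finset.mem_insert, not_or] at hj
        rw [e] at hv
        by_cases c : (∏ i ∈ s, x i).coeff v = 0
        · rw [c, zero_add] at hv
          simpa [Pi.single_apply, hj.1] using ih.2 _ hv j hj.2
        · exact ih.2 _ c j hj.2
  have := (key s).1
  rw [h] at this
  simp at this

noncomputable def a : A := ((1, 0, 0) : C × C × (C →+ C))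
noncomputable def b : A := ((0, 0, bl.toAddMonoidHom) : C × C × (C →+ C))
noncomputable def z (c : C) : A := ((0, c, 0) : C × C × (C →+ C))

noncomputable def R : NonUnitalSubring A := NonUnitalSubring.closure {a, b}

lemma R_le : R ≤ S := NonUnitalSubring.closure_le.2 (by
  rintro _ (rfl | rfl)
  · exact ⟨by simp [a], fun u => by simp [a]⟩
  · exact ⟨by simp [b], bl_sq⟩)

lemma a_mem : a ∈ R := NonUnitalSubring.subset_closure (by simp)
lemma b_mem : b ∈ R := NonUnitalSubring.subset_closure (by simp)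

lemma z_mul (c d : C) : z c * z d = z (c * d) :=
  ext (by simp [z]) (by simp [z]) fun u => by simp [z]

lemma z_mem (i : ℕ) : z (x i) ∈ R := by
  induction i with
  | zero =>
    have : z (x 0) = a * b := ext (by simp [z, a, b]) (by simp [z, a, b, bl_one])
      fun u => by simp [z, a, b]
    rw [this]; exact R.mul_mem a_mem b_mem
  | succ i ih =>
    have : z (x (i + 1)) = a * z (x i) * b := ext (by simp [z, a, b]) (by simp [z, a, b, bl_x])
      fun u => by simp [z, a, b]
    rw [this]; exact R.mul_mem (R.mul_mem a_mem ih) b_mem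

lemma fg_gen {B : Type} [NonUnitalNonAssocRing B] (a b : B) :
    ∃ s : Finset (NonUnitalSubring.closure ({a, b} : Set B)),
      NonUnitalSubring.closure (s : Set (NonUnitalSubring.closure ({a, b} : Set B))) = ⊤ := by
  classical
  refine ⟨{⟨a, NonUnitalSubring.subset_closure (by simp)⟩,
    ⟨b, NonUnitalSubring.subset_closure (by simp)⟩}, eq_top_iff.2 fun ⟨y, hy⟩ _ => ?_⟩
  induction hy using NonUnitalSubring.closure_induction with
  | mem y hy =>
    refine NonUnitalSubring.subset_closure ?_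
    rw [Finset.coe_pair]
    exact hy.imp Subtype.ext Subtype.ext
  | zero => exact zero_mem _
  | add u v hu hv h1 h2 => exact add_mem (h1 trivial) (h2 trivial)
  | neg u hu h => exact neg_mem (h trivial)
  | mul u v hu hv h1 h2 =>
    have := mul_mem (h1 trivial) (h2 trivial)
    exact this

lemma R_fg : ∃ s : Finset R, NonUnitalSubring.closure (s : Set R) = ⊤ := fg_gen a b

lemma der (D : ℕ → AddSubgroup R) (h0 : D 0 = ⊤) (hs : ∀ k : ℕ, D (k + 1) =
    AddSubgroup.closure {w : R | ∃ a ∈ D k, ∃ b ∈ D k, w = a * b}) (k n : ℕ) :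
    ∃ y ∈ D k, y.1 = z (∏ i ∈ Finset.Ico n (n + 2 ^ k), x i) := by
  induction k generalizing n with
  | zero => exact ⟨⟨_, z_mem n⟩, by simp [h0], by simp⟩
  | succ k ih =>
    obtain ⟨u, hu, e1⟩ := ih n
    obtain ⟨v, hv, e2⟩ := ih (n + 2 ^ k)
    refine ⟨u * v, hs k ▸ AddSubgroup.subset_closure ⟨u, hu, v, hv, rfl⟩, ?_⟩
    rw [NonUnitalSubring.val_mul, e1, e2, z_mul,
      Finset.prod_Ico_consecutive _ (by simp) (by simp), pow_succ, mul_two, add_assoc]

end Pool.Agent.H29.RAlt2
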