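import Mathlib

open Polynomial IntermediateField

namespace Pool.Agent.H29.RCF

lemma quad {C : Type*} [Field C] [CharZero C] (q : C[X]) (hq : q.natDegree = 2)
    (h : IsSquare (discrim (q.coeff 2) (q.coeff 1) (q.coeff 0))) : ∃ x, q.IsRoot x := by
  have h2 : q.coeff 2 ≠ 0 := by
    rw [← hq]; exact leadingCoeff_ne_zero.2 (by rintro rfl; simp at hq)
  obtain ⟨x, hx⟩ := exists_quadratic_eq_zero h2 h
  refine ⟨x, ?_⟩
  rw [IsRoot, eval_eq_sum_range, hq]
  simp only [Finset.sum_range_succ, Finset.range_zero, Finset.sum_empty]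
  linear_combination hx

variable {K : Type*} [Field K] [LinearOrder K] [IsStrictOrderedRing K] [IsRealClosed K]

lemma sq {L : Type*} [Field L] [Algebra K L] (i : L) (hi : i * i = -1) (z : K⟮i⟯) :
    IsSquare z := by
  have h1 : ∀ z ∈ K⟮i⟯, ∃ u v : K, z = algebraMap K L u + algebraMap K L v * i := by
    intro z hz
    induction hz using adjoin_induction with
    | mem x hx => exact ⟨0, 1, by rw [hx]; simp⟩
    | algebraMap x => exact ⟨x, 0, by simp⟩
    | add x y _ _ h1 h2 =>
      obtain ⟨u, v, rfl⟩ := h1; obtain ⟨u', v', rfl⟩ := h2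
      exact ⟨u + u', v + v', by simp only [map_add]; ring⟩
    | mul x y _ _ h1 h2 =>
      obtain ⟨u, v, rfl⟩ := h1; obtain ⟨u', v', rfl⟩ := h2
      exact ⟨u * u' - v * v', u * v' + v * u', by
        simp only [map_add, map_sub, map_mul]
        linear_combination (algebraMap K L v * algebraMap K L v') * hi⟩
    | inv x _ h =>
      obtain ⟨u, v, rfl⟩ := h
      by_cases h0 : u * u + v * v = 0
      · obtain ⟨rfl, rfl⟩ := mul_self_add_mul_self_eq_zero.1 h0
        exact ⟨0, 0, by simp⟩
      · refine ⟨u / (u * u + v * v), -v / (u * u + v * v), inv_eq_of_mul_eq_one_right ?_⟩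
        have : algebraMap K L u * algebraMap K L u + algebraMap K L v * algebraMap K L v ≠ 0 := by
          simpa only [← map_mul, ← map_add, _root_.map_ne_zero] using h0
        simp only [map_div₀, map_add, map_mul, map_neg]
        rw [div_mul_eq_mul_div, ← add_div, ← mul_div_assoc, div_eq_one_iff_eq this]
        linear_combination (-(algebraMap K L v) ^ 2) * hi
  obtain ⟨u, v, e⟩ := h1 z.1 z.2
  obtain ⟨r0, hr⟩ := IsRealClosed.nonneg_iff_isSquare.1 (add_nonneg (mul_self_nonneg u)
    (mul_self_nonneg v))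
  have hr' : u * u + v * v = |r0| * |r0| := by rw [abs_mul_abs_self, hr]
  have hu : |u| ≤ |r0| := sq_le_sq.1 (by nlinarith [mul_self_nonneg v])
  obtain ⟨x, hx⟩ := IsRealClosed.nonneg_iff_isSquare.1
    (show 0 ≤ (|r0| + u) / 2 by linarith [(abs_le.1 hu).1])
  obtain ⟨y, hy⟩ := IsRealClosed.nonneg_iff_isSquare.1
    (show 0 ≤ (|r0| - u) / 2 by linarith [(abs_le.1 hu).2])
  obtain ⟨y', h2, h3⟩ : ∃ y', y' * y' = y * y ∧ 2 * x * y' = v := by
    have : (2 * x * y) * (2 * x * y) = v * v := by
      have : (2 * x * y) * (2 * x * y) = 4 * (x * x) * (y * y) := by ring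
      rw [this, ← hx, ← hy]; linear_combination -hr'
    rcases mul_self_eq_mul_self_iff.1 this with h | h
    · exact ⟨y, rfl, h⟩
    · exact ⟨-y, by ring, by linear_combination -h⟩
  have hm : algebraMap K L x + algebraMap K L y' * i ∈ K⟮i⟯ :=
    add_mem (IntermediateField.algebraMap_mem _ _)
      (mul_mem (IntermediateField.algebraMap_mem _ _) (mem_adjoin_simple_self K i))
  refine ⟨⟨_, hm⟩, Subtype.ext ?_⟩
  have h4 : u = x * x - y' * y' := by rw [h2, ← hx, ← hy]; ring
  rw [e, h4, ← h3]
  simp only [map_sub, map_mul, map_ofNat, MulMemClass.coe_mul]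
  linear_combination (-(algebraMap K L y') ^ 2) * hi

lemma deg_le (q : K[X]) (hq : Irreducible q) : q.natDegree ≤ 2 := by
  classical
  let L := SplittingField (q * (X ^ 2 + 1))
  haveI : IsGalois K L := ⟨⟩
  have hne : q * (X ^ 2 + 1) ≠ 0 := mul_ne_zero hq.ne_zero (by
    have : (X ^ 2 + C 1 : K[X]) ≠ 0 := X_pow_add_C_ne_zero (by norm_num) 1
    simpa using this)
  have hs := SplittingField.splits (q * (X ^ 2 + 1))
  rw [Polynomial.map_mul] at hs
  have hne' : q.map (algebraMap K L) * (X ^ 2 + 1 : K[X]).map (algebraMap K L) ≠ 0 := by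
    rw [← Polynomial.map_mul]; exact Polynomial.map_ne_zero hne
  obtain ⟨s1, s2⟩ := (splits_mul (left_ne_zero_of_mul hne') (right_ne_zero_of_mul hne')).1 hs
  obtain ⟨i, hi⟩ := s2.exists_eval_eq_zero (by
    rw [degree_map]
    have : (X ^ 2 + C 1 : K[X]).degree = 2 := degree_X_pow_add_C (by norm_num) 1
    rw [C_1] at this; rw [this]; norm_num)
  have hi' : i * i = -1 := by
    simp only [Polynomial.map_add, Polynomial.map_pow, map_X, Polynomial.map_one, eval_add,
      eval_pow, eval_X, eval_one] at hi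
    linear_combination hi
  obtain ⟨α, hα⟩ := s1.exists_eval_eq_zero (by
    rw [degree_map]; exact (degree_pos_of_irreducible hq).ne')
  haveI : Fact (Nat.Prime 2) := ⟨Nat.prime_two⟩
  obtain ⟨P⟩ : Nonempty (Sylow 2 (L ≃ₐ[K] L)) := inferInstance
  obtain ⟨n, hn⟩ := IsPGroup.iff_card.1 P.isPGroup'
  have h1 : Module.finrank K (fixedField (P : Subgroup (L ≃ₐ[K] L))) =
      (P : Subgroup (L ≃ₐ[K] L)).index := by
    have a1 := Module.finrank_mul_finrank K (fixedField (P : Subgroup (L ≃ₐ[K] L))) L
    rw [finrank_fixedField_eq_card, ← IsGalois.card_aut_eq_finrank K L,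
      ← (P : Subgroup (L ≃ₐ[K] L)).index_mul_card] at a1
    exact Nat.eq_of_mul_eq_mul_right Nat.card_pos a1
  have h2 : fixedField (P : Subgroup (L ≃ₐ[K] L)) = ⊥ := by
    refine eq_bot_iff.2 fun x hx => ?_
    have hx' : IsIntegral K x := Algebra.IsIntegral.isIntegral x
    have d := finrank_dvd_of_le_right (adjoin_simple_le_iff.2 hx)
    rw [h1, adjoin.finrank hx'] at d
    have o : Odd (minpoly K x).natDegree := by
      rw [← Nat.not_even_iff_odd, even_iff_two_dvd]
      exact fun h => P.not_dvd_index (h.trans d)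
    obtain ⟨r, hr⟩ := IsRealClosed.exists_isRoot_of_odd_natDegree o
    rw [← finrank_adjoin_simple_eq_one_iff, adjoin.finrank hx']
    exact natDegree_eq_of_degree_eq_some (degree_eq_one_of_irreducible_of_root
      (minpoly.irreducible hx') hr)
  have h3 : Module.finrank K L = 2 ^ n := by
    rw [← hn, ← finrank_fixedField_eq_card, h2, finrank_bot']
  have h4 := Module.finrank_mul_finrank K K⟮i⟯ L
  obtain ⟨k, -, hk⟩ := (Nat.dvd_prime_pow Nat.prime_two).1 (h3 ▸ Dvd.intro_left _ h4)
  have h5 : k = 0 := by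
    by_contra h0
    obtain ⟨k, rfl⟩ : ∃ j, k = j + 1 := ⟨k - 1, by omega⟩
    obtain ⟨H, hH⟩ := Sylow.exists_subgroup_card_pow_prime (G := L ≃ₐ[K⟮i⟯] L) 2 (n := k)
      (by rw [IsGalois.card_aut_eq_finrank, hk]; exact pow_dvd_pow 2 (Nat.le_succ k))
    have a1 := Module.finrank_mul_finrank K⟮i⟯ (fixedField H) L
    rw [finrank_fixedField_eq_card, hH, hk, pow_succ' 2 k] at a1
    have a2 := Nat.eq_of_mul_eq_mul_right (by positivity) a1
    have a3 : fixedField H = ⊥ := by
      refine eq_bot_iff.2 fun x hx => ?_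
      have hx' : IsIntegral K⟮i⟯ x := Algebra.IsIntegral.isIntegral x
      have d := finrank_dvd_of_le_right (adjoin_simple_le_iff.2 hx)
      rw [a2] at d
      rw [← finrank_adjoin_simple_eq_one_iff]
      refine ((Nat.dvd_prime Nat.prime_two).1 d).resolve_right fun e => ?_
      rw [adjoin.finrank hx'] at e
      haveI : CharZero K⟮i⟯ := charZero_of_injective_algebraMap (algebraMap K _).injective
      obtain ⟨r, hr⟩ := quad _ e (sq i hi' _)
      have : (minpoly K⟮i⟯ x).natDegree = 1 := natDegree_eq_of_degree_eq_some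
        (degree_eq_one_of_irreducible_of_root (minpoly.irreducible hx') hr)
      omega
    rw [a3, IntermediateField.finrank_bot] at a2
    omega
  rw [hk, h5, pow_zero, mul_one, adjoin.finrank (Algebra.IsIntegral.isIntegral i)] at h4
  have h6 : (minpoly K i).natDegree ≤ 2 := by
    have m : (X ^ 2 + C 1 : K[X]).Monic := monic_X_pow_add_C 1 (by norm_num)
    have := natDegree_le_natDegree (minpoly.min K i m (by simp [_root_.sq, hi']))
    rwa [natDegree_X_pow_add_C] at this
  have h7 := minpoly.eq_of_irreducible hq (x := α) (by rw [aeval_def, ← eval_map]; exact hα)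
  have h8 := minpoly.natDegree_le (A := K) α
  rw [← h7, natDegree_mul_leadingCoeff_inv _ hq.ne_zero] at h8
  omega

theorem ivt (p : K[X]) {a b : K} (hab : a < b) :
    p.eval a * p.eval b < 0 → ∃ c, a < c ∧ c < b ∧ p.eval c = 0 := by
  induction p using WfDvdMonoid.induction_on_irreducible with
  | zero => simp
  | unit u hu =>
    obtain ⟨r, -, rfl⟩ := Polynomial.isUnit_iff.1 hu
    intro h
    simp only [eval_C] at h
    exact absurd h (not_lt.2 (mul_self_nonneg r))
  | mul r q _ hq ih =>
    intro h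
    simp only [eval_mul] at h ⊢
    by_cases hr : r.eval a * r.eval b < 0
    · obtain ⟨c, h1, h2, h3⟩ := ih hr
      exact ⟨c, h1, h2, by rw [h3, mul_zero]⟩
    have h1 : q.eval a * q.eval b < 0 := by
      by_contra h1
      have := mul_nonneg (not_lt.1 h1) (not_lt.1 hr)
      nlinarith
    have h2 := deg_le q hq
    have ev : ∀ x, q.eval x = q.coeff 0 + q.coeff 1 * x + q.coeff 2 * x ^ 2 := fun x => by
      rw [eval_eq_sum_range' (Nat.lt_succ_of_le h2)]
      simp [Finset.sum_range_succ]
    have h3 : q.coeff 2 = 0 := by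
      by_contra h3
      have e : q.natDegree = 2 := le_antisymm h2 (le_natDegree_of_ne_zero h3)
      obtain ⟨x, hx⟩ := quad q e (IsRealClosed.nonneg_iff_isSquare.1 (by
        by_contra hd
        rw [discrim, not_le] at hd
        have k : ∀ x, 0 < q.coeff 2 * q.eval x := fun x => by
          rw [ev]; nlinarith [sq_nonneg (2 * q.coeff 2 * x + q.coeff 1)]
        nlinarith [mul_pos (k a) (k b), mul_self_pos.2 h3]))
      have : q.natDegree = 1 :=
        natDegree_eq_of_degree_eq_some (degree_eq_one_of_irreducible_of_root hq hx)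
      omega
    simp only [ev, h3, zero_mul, add_zero] at h1 ⊢
    have h4 : q.coeff 1 ≠ 0 := by
      intro h4
      rw [h4] at h1
      nlinarith [mul_self_nonneg (q.coeff 0)]
    obtain ⟨c, hc⟩ : ∃ c, q.coeff 0 = -(q.coeff 1 * c) := ⟨-q.coeff 0 / q.coeff 1, by field_simp⟩
    rw [hc] at h1 ⊢
    have h5 : (a - c) * (b - c) < 0 := by
      by_contra h5
      nlinarith [mul_nonneg (mul_self_nonneg (q.coeff 1)) (not_lt.1 h5)]
    refine ⟨c, ?_, ?_, by ring⟩ <;> by_contra h6 <;> nlinarith

end Pool.Agent.H29.RCF
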