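import Mathlib

set_option autoImplicit false

namespace Pool.Agent.H29.REP

open MeasureTheory Set Filter Real
open scoped ENNReal

lemma int_bdd {u : ℝ → ℝ} (mu : Measurable u) {L C : ℝ} (hC : ∀ x ∈ Icc (-L) L, |u x| ≤ C)
    (h0 : ∀ x ∉ Icc (-L) L, u x = 0) : Integrable u := by
  have : u = (Icc (-L) L).indicator u := by
    ext x; by_cases h : x ∈ Icc (-L) L <;> simp [h, h0]
  rw [this, integrable_indicator_iff measurableSet_Icc]
  exact Measure.integrableOn_of_bounded (by simp) mu.aestronglyMeasurable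
    (ae_restrict_of_forall_mem measurableSet_Icc hC)

structure Dens (f : ℝ → ℝ) (L M : ℝ) : Prop where
  m : Measurable f
  n : ∀ x, 0 ≤ f x
  b : ∀ x, f x ≤ M
  z : ∀ x ∉ Icc (-L) L, f x = 0

lemma Dens.ent {f : ℝ → ℝ} {L M : ℝ} (h : Dens f L M) : Integrable fun x => negMulLog (f x) := by
  obtain ⟨C, hC⟩ := (isCompact_Icc (a := (0 : ℝ)) (b := M)).exists_bound_of_continuousOn
    continuous_negMulLog.continuousOn
  exact int_bdd (continuous_negMulLog.measurable.comp h.m) (L := L) (C := C)
    (fun x _ => hC _ ⟨h.n x, h.b x⟩) fun x hx => by simp [h.z x hx]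

lemma Dens.mul {f : ℝ → ℝ} {L M : ℝ} (h : Dens f L M) {G : ℝ → ℝ} (hG : Continuous G) :
    Integrable fun x => f x * G x := by
  obtain ⟨C, hC⟩ := (isCompact_Icc (a := -L) (b := L)).exists_bound_of_continuousOn
    hG.continuousOn
  refine int_bdd (h.m.mul hG.measurable) (L := L) (C := M * C) (fun x hx => ?_)
    fun x hx => by simp [h.z x hx]
  rw [abs_mul, abs_of_nonneg (h.n x)]
  exact mul_le_mul (h.b x) (hC x hx) (abs_nonneg _) ((h.n x).trans (h.b x))

lemma Dens.gibbs {f : ℝ → ℝ} {L M : ℝ} (h : Dens f L M) (h1 : ∫ x, f x = 1) {g : ℝ → ℝ}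
    (hg : Continuous g) (g0 : ∀ x, 0 < g x) (g1 : ∫ x in Icc (-L) L, g x ≤ 1) :
    ∫ x, negMulLog (f x) ≤ ∫ x, f x * -log (g x) := by
  have c : Continuous fun x => -log (g x) := (hg.log fun x => (g0 x).ne').neg
  have i1 : Integrable f := by simpa using h.mul (G := fun _ => 1) continuous_const
  have i2 : Integrable ((Icc (-L) L).indicator g) :=
    (integrable_indicator_iff measurableSet_Icc).2 hg.integrableOn_Icc
  have i3 : Integrable fun x => (Icc (-L) L).indicator g x - f x := i2.sub i1
  calc _ ≤ ∫ x, (f x * -log (g x) + ((Icc (-L) L).indicator g x - f x)) := by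
        refine integral_mono h.ent ((h.mul c).add i3) fun x => ?_
        by_cases hx : x ∈ Icc (-L) L
        · simp only [indicator_of_mem hx]
          rcases (h.n x).eq_or_lt with e | e
          · rw [← e]; simpa using (g0 x).le
          · have := log_le_sub_one_of_pos (div_pos (g0 x) e)
            rw [log_div (g0 x).ne' e.ne'] at this
            have k := mul_le_mul_of_nonneg_left this e.le
            rw [mul_sub (f x) (g x / f x), mul_div_cancel₀ _ e.ne'] at k
            simp only [negMulLog]; nlinarith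
        · simp [h.z x hx, hx]
    _ ≤ _ := by
        rw [integral_add (h.mul c) i3, integral_sub i2 i1, integral_indicator measurableSet_Icc, h1]
        linarith

lemma Dens.lower {f : ℝ → ℝ} {L M : ℝ} (h : Dens f L M) {F : ℝ → ℝ}
    (hF : Continuous F) (F0 : ∀ x, 0 < F x) (hle : ∀ x, f x ≤ F x) :
    ∫ x, f x * -log (F x) ≤ ∫ x, negMulLog (f x) := by
  refine integral_mono (h.mul (hF.log fun x => (F0 x).ne').neg) h.ent fun x => ?_
  rcases (h.n x).eq_or_lt with e | e
  · simp [← e]
  · have := mul_le_mul_of_nonneg_left (log_le_log e (hle x)) e.le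
    simp only [negMulLog]; linarith

lemma transfer {μ : Measure (ℝ × ℝ)} {X : ℝ × ℝ → ℝ} (hX : Measurable X) {f : ℝ → ℝ}
    (mf : Measurable f) (f0 : ∀ x, 0 ≤ f x)
    (e : μ.map X = volume.withDensity fun x => ENNReal.ofReal (f x)) {G : ℝ → ℝ}
    (hG : Continuous G) : ∫ x, f x * G x = ∫ p, G (X p) ∂μ := by
  rw [← integral_map hX.aemeasurable hG.aestronglyMeasurable, e,
    integral_withDensity_eq_integral_toReal_smul (by fun_prop) (by simp)]
  simp only [ENNReal.toReal_ofReal (f0 _), smul_eq_mul]

lemma cauchy {u : ℝ → ℝ} {m β x0 : ℝ} (m0 : 0 < m) (b0 : 0 < β)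
    (h : ∀ x, u x ≤ 2 / (m ^ 2 + (β * (x - x0)) ^ 2)) :
    ∫⁻ x, ENNReal.ofReal (u x) ≤ ENNReal.ofReal (8 / (m * β)) := by
  have c0 : β / m ≠ 0 := by positivity
  have i1 : Integrable fun x : ℝ => (1 + (β / m * (x - x0)) ^ 2)⁻¹ :=
    (integrable_inv_one_add_sq.comp_mul_left' c0).comp_sub_right x0
  have e1 : ∫ x : ℝ, (1 + (β / m * (x - x0)) ^ 2)⁻¹ = m / β * π := by
    rw [integral_sub_right_eq_self (fun x : ℝ => (1 + (β / m * x) ^ 2)⁻¹) x0,
      Measure.integral_comp_mul_left (fun x : ℝ => (1 + x ^ 2)⁻¹), integral_univ_inv_one_add_sq,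
      abs_of_pos (by positivity), inv_div, smul_eq_mul]
  calc _ ≤ ∫⁻ x, ENNReal.ofReal (2 / m ^ 2 * (1 + (β / m * (x - x0)) ^ 2)⁻¹) := by
        refine lintegral_mono fun x => ENNReal.ofReal_le_ofReal ((h x).trans (le_of_eq ?_))
        field_simp
    _ = ENNReal.ofReal (2 / m ^ 2 * (m / β * π)) := by
        rw [← ofReal_integral_eq_lintegral_ofReal (i1.const_mul _)
          (Eventually.of_forall fun x => by positivity), integral_const_mul, e1]
    _ ≤ _ := by
        apply ENNReal.ofReal_le_ofReal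
        have := pi_le_four
        calc _ = 2 * π / (m * β) := by field_simp
          _ ≤ _ := by gcongr; linarith

noncomputable def bad (s w : ℝ) : ℝ := max 0 (log ((1 + |s|) / (2 * (1 + |w|))))

lemma bad_cont {X Y : ℝ × ℝ → ℝ} (hX : Continuous X) (hY : Continuous Y) :
    Continuous fun p => bad (X p) (Y p) := by
  unfold bad
  refine continuous_const.max (Continuous.log (Continuous.div (by fun_prop) (by fun_prop)
    fun p => by positivity) fun p => by positivity)

lemma bad_int (s : ℝ) : ∫⁻ t, ENNReal.ofReal (bad s (s + t)) ≤ ENNReal.ofReal (1 + |s|) := by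
  rw [lintegral_add_left_eq_self (fun w => ENNReal.ofReal (bad s w)) s,
    lintegral_eq_lintegral_meas_lt (f := bad s) _ (Eventually.of_forall fun w => le_max_left _ _)
      ((bad_cont (X := fun _ => s) continuous_const continuous_fst).comp
        (Continuous.prodMk_left (0 : ℝ))).measurable.aemeasurable]
  calc _ ≤ ∫⁻ r in Ioi (0 : ℝ), ENNReal.ofReal ((1 + |s|) * exp (-r)) := by
        refine setLIntegral_mono' measurableSet_Ioi fun r hr => ?_
        have hr' : 0 < r := hr
        calc _ ≤ volume (Ioo (-((1 + |s|) * exp (-r) / 2)) ((1 + |s|) * exp (-r) / 2)) := by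
              refine measure_mono fun w hw => ?_
              have h1 : r < log ((1 + |s|) / (2 * (1 + |w|))) :=
                (lt_max_iff.1 hw).resolve_left (by linarith)
              rw [lt_log_iff_exp_lt (by positivity), lt_div_iff₀ (by positivity)] at h1
              rw [mem_Ioo, ← abs_lt, exp_neg, ← div_eq_mul_inv, div_div,
                lt_div_iff₀ (by positivity)]
              nlinarith [exp_pos r]
          _ = _ := by rw [Real.volume_Ioo]; congr 1; ring
    _ = _ := by
        have i : Integrable (fun r => (1 + |s|) * exp (-r)) (volume.restrict (Ioi 0)) :=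
          Integrable.const_mul (integrableOn_exp_neg_Ioi 0) _
        rw [← ofReal_integral_eq_lintegral_ofReal i
          (Eventually.of_forall fun x => by positivity), integral_const_mul,
          integral_exp_neg_Ioi_zero, mul_one]

lemma bad_pos {s w : ℝ} (h : bad s w ≠ 0) : 2 * (1 + |w|) < 1 + |s| := by
  by_contra hc
  apply h
  refine max_eq_left (log_nonpos (by positivity) ?_)
  rw [div_le_one (by positivity)]; linarith

lemma bad_gen {r : ℝ → ℝ → ℝ} {k : ℝ → ℝ} {L : ℝ}
    (h : ∀ s t, 1 < |s| → |s| / 2 ≤ |t| → (1 + |s|) * r s t ≤ k s)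
    (h0 : ∀ s ∉ Icc (-L) L, ∀ t, r s t = 0) :
    ∫⁻ s, ∫⁻ t, ENNReal.ofReal (r s t) * ENNReal.ofReal (bad s (s + t))
      ≤ ∫⁻ s in Icc (-L) L, ENNReal.ofReal (k s) := by
  rw [← lintegral_indicator measurableSet_Icc]
  refine lintegral_mono fun s => ?_
  by_cases hs : s ∈ Icc (-L) L
  · rw [indicator_of_mem hs]
    calc _ ≤ ∫⁻ t, ENNReal.ofReal (k s / (1 + |s|)) * ENNReal.ofReal (bad s (s + t)) := by
          refine lintegral_mono fun t => ?_
          by_cases hb : bad s (s + t) = 0
          · simp [hb]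
          · have h1 := bad_pos hb
            have h2 : |s| ≤ |s + t| + |t| := by simpa using abs_sub (s + t) t
            have h3 := abs_nonneg (s + t)
            gcongr
            rw [le_div_iff₀' (by positivity)]
            exact h s t (by linarith) (by linarith)
      _ ≤ ENNReal.ofReal (k s / (1 + |s|)) * ENNReal.ofReal (1 + |s|) := by
          rw [lintegral_const_mul' _ _ (by simp)]; gcongr; exact bad_int s
      _ = _ := by
          rw [← ENNReal.ofReal_mul' (by positivity), div_mul_cancel₀ _ (by positivity)]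
  · simp [h0 s hs]

lemma good_gen {r : ℝ → ℝ → ℝ≥0∞} {a b c δ : ℝ} (a0 : 0 < a) (ab : a ≤ b) (c0 : 0 < c)
    (d0 : 0 < δ) (h : ∀ s t, a ≤ s → s ≤ b → |t| ≤ δ * s → ENNReal.ofReal (c / s ^ 2) ≤ r s t) :
    ENNReal.ofReal (2 * δ * c * log (b / a)) ≤ ∫⁻ s, ∫⁻ t, r s t := by
  have e : ∫ s in Icc a b, 2 * δ * c * s⁻¹ = 2 * δ * c * log (b / a) := by
    rw [integral_const_mul, integral_Icc_eq_integral_Ioc, ← intervalIntegral.integral_of_le ab,
      integral_inv_of_pos a0 (a0.trans_le ab)]
  have ct : ContinuousOn (fun s : ℝ => 2 * δ * c * s⁻¹) (Icc a b) :=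
    continuousOn_const.mul (continuousOn_id.inv₀ fun s hs => (a0.trans_le hs.1).ne')
  rw [← e, ofReal_integral_eq_lintegral_ofReal ct.integrableOn_Icc
    (ae_restrict_of_forall_mem measurableSet_Icc fun s hs => by
      have := a0.trans_le hs.1; positivity), ← lintegral_indicator measurableSet_Icc]
  refine lintegral_mono fun s => ?_
  by_cases hs : s ∈ Icc a b
  · have s0 := a0.trans_le hs.1
    rw [indicator_of_mem hs]
    calc _ = ENNReal.ofReal (c / s ^ 2) * volume (Icc (-(δ * s)) (δ * s)) := by
          rw [Real.volume_Icc, ← ENNReal.ofReal_mul (by positivity)]; congr 1; field_simp; ring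
      _ = ∫⁻ t, (Icc (-(δ * s)) (δ * s)).indicator (fun _ => ENNReal.ofReal (c / s ^ 2)) t := by
          rw [lintegral_indicator_const measurableSet_Icc]
      _ ≤ _ := lintegral_mono fun t => indicator_apply_le' (fun ht => h s t hs.1 hs.2 (abs_le.2 ht))
          fun _ => zero_le
  · simp [hs]

lemma map_fst {ρ : ℝ × ℝ → ℝ≥0∞} (mρ : Measurable ρ) :
    (volume.withDensity ρ).map Prod.fst = volume.withDensity fun x => ∫⁻ y, ρ (x, y) := by
  ext s hs
  rw [Measure.map_apply measurable_fst hs, withDensity_apply _ (measurable_fst hs),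
    withDensity_apply _ hs, ← lintegral_indicator (measurable_fst hs), ← lintegral_indicator hs,
    Measure.volume_eq_prod, lintegral_prod _ (mρ.indicator (measurable_fst hs)).aemeasurable]
  refine lintegral_congr fun x => ?_
  by_cases hx : x ∈ s <;> simp [indicator, hx]

lemma map_comp {ρ : ℝ × ℝ → ℝ≥0∞} (mρ : Measurable ρ) {e : ℝ × ℝ → ℝ × ℝ}
    (he : MeasurePreserving e volume volume) :
    (volume.withDensity (ρ ∘ e)).map e = volume.withDensity ρ := by
  ext s hs
  rw [Measure.map_apply he.measurable hs, withDensity_apply _ (he.measurable hs),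
    withDensity_apply _ hs]
  exact he.setLIntegral_comp_preimage hs mρ

lemma map_snd {ρ : ℝ × ℝ → ℝ≥0∞} (mρ : Measurable ρ) :
    (volume.withDensity ρ).map Prod.snd = volume.withDensity fun y => ∫⁻ x, ρ (x, y) := by
  have := map_comp (ρ := ρ ∘ Prod.swap) (by fun_prop)
    (Measure.measurePreserving_swap (μ := volume) (ν := volume))
  have e := map_fst (ρ := ρ ∘ Prod.swap) (by fun_prop)
  rw [← this, Measure.map_map measurable_fst measurable_swap] at e
  exact e

lemma map_add {ρ : ℝ × ℝ → ℝ≥0∞} (mρ : Measurable ρ) :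
    (volume.withDensity ρ).map (fun x => x.1 + x.2)
      = volume.withDensity fun w => ∫⁻ x, ρ (x, w - x) := by
  have := map_comp (ρ := fun p => ρ (p.1, p.2 - p.1)) (by fun_prop)
    (measurePreserving_prod_add (μ := volume) (ν := volume))
  have e := map_snd (ρ := fun p => ρ (p.1, p.2 - p.1)) (by fun_prop)
  rw [← this, Measure.map_map measurable_snd (by fun_prop)] at e
  simpa [Function.comp_def] using e

end Pool.Agent.H29.REP
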