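import Pool.Agent.H29.REP1
import Pool.Agent.H29.BBL

set_option autoImplicit false

namespace Pool.Agent.H29.REP

open MeasureTheory Set Filter Real Pointwise
open scoped ENNReal

structure Par where
  δ : ℝ
  T : ℝ
  R : ℝ
  d0 : 0 < δ
  d1 : δ ≤ 1 / 100
  hT : 4 ≤ T
  hR : T ≤ R

namespace Par

variable (P : Par)

noncomputable def φ (p : ℝ × ℝ) : ℝ :=
  max (max 1 |p.1|) (max ((|p.1| - P.T) / P.δ ^ 2) (|p.2| / P.δ))

def box : Set (ℝ × ℝ) := Icc (-P.R) P.R ×ˢ Icc (-P.R) P.R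

noncomputable def ρ (p : ℝ × ℝ) : ℝ := P.box.indicator (fun p => 1 / P.φ p ^ 2) p

noncomputable def q (w : ℝ) : ℝ := (P.δ ^ 2 + P.T / (P.T + |w|)) / (1 + |w|)

lemma φ_le {p : ℝ × ℝ} {a : ℝ} : P.φ p ≤ a ↔
    1 ≤ a ∧ |p.1| ≤ a ∧ |p.1| ≤ P.T + P.δ ^ 2 * a ∧ |p.2| ≤ P.δ * a := by
  have := P.d0
  simp only [φ, max_le_iff, and_assoc]
  rw [div_le_iff₀' (by positivity), div_le_iff₀' this, sub_le_iff_le_add']

lemma φ_facts (p : ℝ × ℝ) :
    1 ≤ P.φ p ∧ |p.1| ≤ P.φ p ∧ |p.1| ≤ P.T + P.δ ^ 2 * P.φ p ∧ |p.2| ≤ P.δ * P.φ p :=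
  P.φ_le.1 le_rfl

lemma box_meas : MeasurableSet P.box := measurableSet_Icc.prod measurableSet_Icc

lemma ρ_meas : Measurable P.ρ := by
  refine Measurable.indicator ?_ P.box_meas
  unfold φ; fun_prop

lemma ρ_nonneg (p : ℝ × ℝ) : 0 ≤ P.ρ p := indicator_nonneg (fun _ _ => by positivity) p

lemma ρ_le (p : ℝ × ℝ) : P.ρ p ≤ 1 / P.φ p ^ 2 :=
  indicator_apply_le' (fun _ => le_rfl) fun _ => by positivity

lemma ρ_le' (p : ℝ × ℝ) {m : ℝ} (m0 : 0 < m) (h : m ≤ P.φ p) : P.ρ p ≤ 1 / m ^ 2 :=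
  (P.ρ_le p).trans (by gcongr)

lemma ρ_ge {p : ℝ × ℝ} (hp : p ∈ P.box) {m : ℝ} (h : P.φ p ≤ m) : 1 / m ^ 2 ≤ P.ρ p := by
  have := (P.φ_facts p).1
  rw [ρ, indicator_of_mem hp]; gcongr

lemma ρ_zero {p : ℝ × ℝ} (h : P.R < |p.1| ∨ P.R < |p.2|) : P.ρ p = 0 := by
  refine indicator_of_notMem (fun hp => ?_) _
  have h1 := abs_le.2 hp.1
  have h2 := abs_le.2 hp.2
  rcases h with h | h <;> linarith

lemma ρ_neg (p : ℝ × ℝ) : P.ρ (-p) = P.ρ p := by
  have : -p ∈ P.box ↔ p ∈ P.box := by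
    simp only [box, mem_prod, mem_Icc, ← abs_le, Prod.fst_neg, Prod.snd_neg, abs_neg]
  by_cases h : p ∈ P.box
  · rw [ρ, ρ, indicator_of_mem h, indicator_of_mem (this.2 h)]; simp [φ]
  · rw [ρ, ρ, indicator_of_notMem h, indicator_of_notMem (mt this.1 h)]

lemma ρ_cauchy (p : ℝ × ℝ) {m y : ℝ} (m0 : 0 < m) (h : m ≤ P.φ p) (hy : |y| ≤ P.φ p) :
    P.ρ p ≤ 2 / (m ^ 2 + y ^ 2) := by
  refine (P.ρ_le p).trans ?_
  have := (P.φ_facts p).1
  rw [div_le_div_iff₀ (by positivity) (by positivity)]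
  have h1 : m ^ 2 ≤ P.φ p ^ 2 := by gcongr
  have h2 : y ^ 2 ≤ P.φ p ^ 2 := by rw [← sq_abs y]; gcongr
  linarith

lemma q_pos (w : ℝ) : 0 < P.q w := by
  have := P.d0; have := P.hT; unfold q; positivity

lemma q_cont : Continuous P.q := by
  have := P.hT
  unfold q
  refine Continuous.div (continuous_const.add (Continuous.div continuous_const (by fun_prop)
    fun w => by positivity)) (by fun_prop) fun w => by positivity

lemma q_small {w : ℝ} (h : |w| ≤ 4 * P.T) : 1 / 5 / (1 + |w|) ≤ P.q w := by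
  have := P.hT; have := P.d0
  unfold q
  gcongr
  have : 1 / 5 ≤ P.T / (P.T + |w|) := by
    rw [div_le_div_iff₀ (by norm_num) (by positivity)]; linarith
  nlinarith

lemma q_big (w : ℝ) : P.δ ^ 2 / (1 + |w|) ≤ P.q w := by
  have := P.hT
  unfold q
  gcongr
  have : 0 ≤ P.T / (P.T + |w|) := by positivity
  linarith

lemma conc (A B : Set (ℝ × ℝ)) (hA : IsCompact A) (hB : IsCompact B) {t : ℝ} (t0 : 0 < t)
    (t1 : t < 1) :
    min (volume.withDensity (fun p => ENNReal.ofReal (P.ρ p)) A)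
      (volume.withDensity (fun p => ENNReal.ofReal (P.ρ p)) B)
      ≤ volume.withDensity (fun p => ENNReal.ofReal (P.ρ p)) (t • A + (1 - t) • B) := by
  have hC : IsCompact (t • A + (1 - t) • B) := (hA.smul t).add (hB.smul _)
  have e : ∀ S : Set (ℝ × ℝ), IsCompact S → volume.withDensity (fun p => ENNReal.ofReal (P.ρ p)) S
      = ∫⁻ p, ENNReal.ofReal (S.indicator P.ρ p) := fun S hS => by
    rw [withDensity_apply _ hS.measurableSet, ← lintegral_indicator hS.measurableSet]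
    exact lintegral_congr fun p => by by_cases h : p ∈ S <;> simp [h]
  have b : ∀ (S : Set (ℝ × ℝ)) p, 0 ≤ S.indicator P.ρ p ∧
      S.indicator P.ρ p ≤ (Icc (-P.R) P.R).indicator 1 p.2 := fun S p => by
    refine ⟨indicator_nonneg (fun _ _ => P.ρ_nonneg _) p, le_trans
      (indicator_apply_le' (fun _ => le_rfl) fun _ => P.ρ_nonneg _) ?_⟩
    by_cases h : p.2 ∈ Icc (-P.R) P.R
    · simpa [h] using P.ρ_le' p one_pos (P.φ_facts p).1
    · rw [P.ρ_zero (Or.inr (not_le.1 (mt abs_le.1 h)))]; simp [h]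
  have k : ∀ (S : Set (ℝ × ℝ)) a p, 0 < a → 1 ≤ a ^ 2 * S.indicator P.ρ p →
      p ∈ S ∧ p ∈ P.box ∧ P.φ p ≤ a := fun S a p a0 h => by
    have h1 : p ∈ S := by by_contra hc; simp [hc] at h; linarith
    rw [indicator_of_mem h1] at h
    have h2 : p ∈ P.box := by by_contra hc; simp [ρ, hc] at h; linarith
    have := (P.φ_facts p).1
    rw [ρ, indicator_of_mem h2, mul_one_div, one_le_div (by positivity)] at h
    exact ⟨h1, h2, (pow_le_pow_iff_left₀ (by linarith) a0.le two_ne_zero).1 h⟩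
  rw [e A hA, e B hB, e _ hC]
  refine BBL.bbl2 (P.ρ_meas.indicator hA.measurableSet) (P.ρ_meas.indicator hB.measurableSet)
    (P.ρ_meas.indicator hC.measurableSet) (b _) (b _) (b _) t0 t1 fun a c x y a0 c0 h1 h2 => ?_
  obtain ⟨x1, x2, x3⟩ := k A a x a0 h1
  obtain ⟨y1, y2, y3⟩ := k B c y c0 h2
  have t2 : 0 < 1 - t := by linarith
  rw [indicator_of_mem (Set.add_mem_add (smul_mem_smul_set x1) (smul_mem_smul_set y1)),
    ← div_le_iff₀' (by positivity)]
  refine P.ρ_ge (((convex_Icc _ _).prod (convex_Icc _ _)) x2 y2 t0.le t2.le (by ring)) ?_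
  rw [φ_le] at x3 y3 ⊢
  have ab : ∀ u v : ℝ, |t * u + (1 - t) * v| ≤ t * |u| + (1 - t) * |v| := fun u v => by
    simpa [abs_mul, abs_of_pos t0, abs_of_pos t2] using abs_add_le (t * u) ((1 - t) * v)
  have s1 := ab x.1 y.1
  have s2 := ab x.2 y.2
  obtain ⟨a1, a2, a3, a4⟩ := x3
  obtain ⟨c1, c2, c3, c4⟩ := y3
  simp only [Prod.fst_add, Prod.snd_add, Prod.smul_fst, Prod.smul_snd, smul_eq_mul]
  refine ⟨by nlinarith, by nlinarith, by nlinarith, by nlinarith⟩

lemma secW (w : ℝ) :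
    ∫⁻ x, ENNReal.ofReal (P.ρ (x, w - x)) ≤ ENNReal.ofReal (120 * P.δ * P.q w) := by
  have d0 := P.d0; have d1 := P.d1; have hT := P.hT
  have tri : ∀ x, |w| ≤ |x| + |w - x| := fun x => by simpa using abs_add_le x (w - x)
  by_cases h : |w| ≤ 4 * P.T
  · refine (cauchy (m := (1 + |w|) / 3) (β := 1 / P.δ) (x0 := w) (by positivity) (by positivity)
      fun x => ?_).trans (ENNReal.ofReal_le_ofReal ?_)
    · obtain ⟨a1, a2, -, a4⟩ := P.φ_facts (x, w - x)
      refine P.ρ_cauchy _ (by positivity) ?_ ?_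
      · have := tri x
        simp only at a2 a4; nlinarith
      · rw [abs_mul, abs_sub_comm, abs_of_pos (by positivity), one_div_mul_eq_div,
          div_le_iff₀' d0]; exact a4
    · calc _ = 120 * P.δ * (1 / 5 / (1 + |w|)) := by field_simp; ring
        _ ≤ _ := by gcongr; exact P.q_small h
  · push Not at h
    have w0 : 0 < |w| := by linarith
    refine (cauchy (m := |w| / (2 * P.δ)) (β := 1 / (P.δ ^ 2 + 2 * P.δ * P.T / |w|)) (x0 := 0)
      (by positivity) (by positivity) fun x => ?_).trans (ENNReal.ofReal_le_ofReal ?_)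
    · obtain ⟨a1, a2, a3, a4⟩ := P.φ_facts (x, w - x)
      simp only at a2 a3 a4
      have m : |w| / (2 * P.δ) ≤ P.φ (x, w - x) := by
        rw [div_le_iff₀' (by positivity)]
        have := tri x
        have : P.δ ^ 2 * P.φ (x, w - x) ≤ P.δ / 100 * P.φ (x, w - x) := by gcongr; nlinarith
        nlinarith
      refine P.ρ_cauchy _ (by positivity) m ?_
      rw [sub_zero, abs_mul, abs_of_pos (by positivity), one_div_mul_eq_div,
        div_le_iff₀' (by positivity), add_mul]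
      have : P.T ≤ 2 * P.δ * P.T / |w| * P.φ (x, w - x) := by
        calc P.T = 2 * P.δ * P.T / |w| * (|w| / (2 * P.δ)) := by field_simp
          _ ≤ _ := by gcongr
      linarith
    · have h1 : 1 / |w| ≤ 2 / (1 + |w|) := by
        rw [div_le_div_iff₀ w0 (by positivity)]; linarith
      have h2 : 2 * P.δ * P.T / |w| ≤ P.T / (P.T + |w|) := by
        rw [div_le_div_iff₀ w0 (by positivity)]
        have : 2 * P.δ * (P.T + |w|) ≤ |w| := by nlinarith
        nlinarith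
      calc _ = 16 * P.δ * ((P.δ ^ 2 + 2 * P.δ * P.T / |w|) * (1 / |w|)) := by field_simp; ring
        _ ≤ 16 * P.δ * ((P.δ ^ 2 + P.T / (P.T + |w|)) * (2 / (1 + |w|))) := by gcongr
        _ = 32 * P.δ * P.q w := by unfold q; ring
        _ ≤ _ := by have := P.q_pos w; gcongr; norm_num

lemma badρ {p : ℝ × ℝ} {s : ℝ} (hs : 1 < |s|) (h1 : |s| / 2 ≤ |p.1|) (h2 : |s| / 2 ≤ |p.2|) :
    (1 + |s|) * P.ρ p ≤ P.δ * P.q s := by
  have d0 := P.d0; have d1 := P.d1; have hT := P.hT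
  obtain ⟨a1, a2, a3, a4⟩ := P.φ_facts p
  have s1 : 1 / |s| ≤ 2 / (1 + |s|) := by
    rw [div_le_div_iff₀ (by linarith) (by positivity)]; linarith
  have s2 : (1 + |s|) / |s| ≤ 2 := by rw [div_le_iff₀ (by linarith)]; linarith
  by_cases h : |s| ≤ 4 * P.T
  · have := P.ρ_le' p (m := |s| / (2 * P.δ)) (by positivity)
      (by rw [div_le_iff₀' (by positivity)]; linarith)
    calc _ ≤ (1 + |s|) * (1 / (|s| / (2 * P.δ)) ^ 2) := by gcongr
      _ = 4 * P.δ ^ 2 * ((1 + |s|) / |s| * (1 / |s|)) := by field_simp; ring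
      _ ≤ 4 * P.δ ^ 2 * (2 * (2 / (1 + |s|))) := by gcongr
      _ = P.δ * (80 * P.δ * (1 / 5 / (1 + |s|))) := by ring
      _ ≤ P.δ * (1 * P.q s) := by gcongr; linarith; exact P.q_small h
      _ = _ := by ring
  · have := P.ρ_le' p (m := |s| / (4 * P.δ ^ 2)) (by positivity)
      (by rw [div_le_iff₀' (by positivity)]; linarith)
    calc _ ≤ (1 + |s|) * (1 / (|s| / (4 * P.δ ^ 2)) ^ 2) := by gcongr
      _ = 16 * P.δ ^ 4 * ((1 + |s|) / |s| * (1 / |s|)) := by field_simp; ring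
      _ ≤ 16 * P.δ ^ 4 * (2 * (2 / (1 + |s|))) := by gcongr
      _ = P.δ * (64 * P.δ * (P.δ ^ 2 / (1 + |s|))) := by ring
      _ ≤ P.δ * (1 * P.q s) := by gcongr; linarith; exact P.q_big s
      _ = _ := by ring

lemma q_ratio (u w : ℝ) : log (P.q w) - log (P.q u) ≤ 2 * log 2 + 2 * bad u w ∧
    (1 + |u| ≤ 4 * P.δ * (1 + |w|) → log (P.q w) - log (P.q u) ≤ log (4 * P.δ)) := by
  have d0 := P.d0; have d1 := P.d1; have hT := P.hT
  have l2 : 0 ≤ log 2 := log_nonneg (by norm_num)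
  have b0 : 0 ≤ bad u w := le_max_left _ _
  have u0 := abs_nonneg u; have w0 := abs_nonneg w
  rw [← log_div (P.q_pos w).ne' (P.q_pos u).ne']
  have k1 : |u| ≤ |w| → P.q w / P.q u ≤ (1 + |u|) / (1 + |w|) := fun h => by
    rw [div_le_iff₀ (P.q_pos u)]
    calc _ ≤ (P.δ ^ 2 + P.T / (P.T + |u|)) / (1 + |w|) := by unfold q; gcongr
      _ = _ := by unfold q; field_simp
  have pos := div_pos (P.q_pos w) (P.q_pos u)
  constructor
  · rcases le_total |u| |w| with h | h
    · have : log (P.q w / P.q u) ≤ 0 :=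
        log_nonpos pos.le ((k1 h).trans (by rw [div_le_one (by positivity)]; linarith))
      linarith
    · have r1 : 1 ≤ (1 + |u|) / (1 + |w|) := by rw [one_le_div (by positivity)]; linarith
      have k2 : P.q w / P.q u ≤ ((1 + |u|) / (1 + |w|)) ^ 2 := by
        rw [div_le_iff₀ (P.q_pos u)]
        have e1 : P.T / (P.T + |w|) ≤ (1 + |u|) / (1 + |w|) * (P.T / (P.T + |u|)) := by
          rw [div_mul_div_comm, div_le_div_iff₀ (by positivity) (by positivity)]
          have : (1 + |w|) * (P.T + |u|) ≤ (1 + |u|) * (P.T + |w|) := by nlinarith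
          nlinarith
        have e2 : P.δ ^ 2 ≤ (1 + |u|) / (1 + |w|) * P.δ ^ 2 :=
          le_mul_of_one_le_left (by positivity) r1
        calc _ ≤ ((1 + |u|) / (1 + |w|) * P.δ ^ 2
              + (1 + |u|) / (1 + |w|) * (P.T / (P.T + |u|))) / (1 + |w|) := by unfold q; gcongr
          _ = _ := by unfold q; field_simp
      have k3 := log_le_log pos k2
      rw [log_pow, show (1 + |u|) / (1 + |w|) = 2 * ((1 + |u|) / (2 * (1 + |w|))) by field_simp,
        log_mul (by norm_num) (by positivity)] at k3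
      have : log ((1 + |u|) / (2 * (1 + |w|))) ≤ bad u w := le_max_right _ _
      push_cast at k3
      linarith
  · intro h
    refine log_le_log pos ((k1 (by nlinarith)).trans ?_)
    rwa [div_le_iff₀ (by positivity)]

lemma q_int {L : ℝ} (L0 : 0 ≤ L) :
    ∫ w in Icc (-L) L, P.q w ≤ 2 * P.δ ^ 2 * log (1 + L) + 4 * log P.T := by
  have d0 := P.d0; have hT := P.hT
  have ii := P.q_cont.intervalIntegrable (μ := volume)
  rw [integral_Icc_eq_integral_Ioc, ← intervalIntegral.integral_of_le (by linarith),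
    ← intervalIntegral.integral_add_adjacent_intervals (ii (-L) 0) (ii 0 L)]
  have e : ∫ w in (-L)..0, P.q w = ∫ w in (0 : ℝ)..L, P.q w := by
    have := intervalIntegral.integral_comp_neg (a := 0) (b := L) P.q
    simp only [neg_zero] at this
    rw [← this]; simp [q]
  have c : ContinuousOn (fun w : ℝ => (P.δ ^ 2 + 2) * (1 + w)⁻¹ - 2 * (P.T + w)⁻¹) (uIcc 0 L) := by
    rw [uIcc_of_le L0]
    refine (continuousOn_const.mul (ContinuousOn.inv₀ (by fun_prop) fun w hw => ?_)).sub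
      (continuousOn_const.mul (ContinuousOn.inv₀ (by fun_prop) fun w hw => ?_)) <;>
    · have := hw.1; positivity
  have f := intervalIntegral.integral_eq_sub_of_hasDerivAt (a := 0) (b := L)
    (f := fun w => (P.δ ^ 2 + 2) * log (1 + w) - 2 * log (P.T + w))
    (f' := fun w : ℝ => (P.δ ^ 2 + 2) * (1 + w)⁻¹ - 2 * (P.T + w)⁻¹) (fun w hw => by
      rw [uIcc_of_le L0] at hw
      have := hw.1
      have h1 := (((hasDerivAt_id w).const_add 1).log (by simp only [id]; positivity)).const_mul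
        (P.δ ^ 2 + 2)
      have h2 := (((hasDerivAt_id w).const_add P.T).log (by simp only [id]; positivity)).const_mul 2
      simpa using h1.fun_sub h2) c.intervalIntegrable
  have m := intervalIntegral.integral_mono_on L0 (ii 0 L) c.intervalIntegrable fun w hw => by
    have := hw.1
    rw [q, abs_of_nonneg this]
    have : (P.δ ^ 2 + 2) * (1 + w)⁻¹ - 2 * (P.T + w)⁻¹ - (P.δ ^ 2 + P.T / (P.T + w)) / (1 + w)
        = (P.T - 2) / ((1 + w) * (P.T + w)) := by field_simp; ring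
    have : 0 ≤ (P.T - 2) / ((1 + w) * (P.T + w)) := div_nonneg (by linarith) (by positivity)
    linarith
  rw [f] at m
  have : log (1 + L) ≤ log (P.T + L) := log_le_log (by positivity) (by linarith)
  simp only [add_zero, log_one] at m
  rw [e]; linarith

end Par

end Pool.Agent.H29.REP
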