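import Pool.Agent.H29.REP2

set_option autoImplicit false

namespace Pool.Agent.H29.REP

open MeasureTheory Set Filter Real Pointwise
open scoped ENNReal

lemma sec_le {r : ℝ → ℝ} {R : ℝ} (h1 : ∀ y, r y ≤ 1) (h0 : ∀ y, R < |y| → r y = 0) :
    ∫⁻ y, ENNReal.ofReal (r y) ≤ ENNReal.ofReal (R - -R) := by
  rw [← Real.volume_Icc, ← lintegral_indicator_one measurableSet_Icc]
  refine lintegral_mono fun y => ?_
  by_cases hy : y ∈ Icc (-R) R
  · simpa [hy] using h1 y
  · simp [h0 y (not_le.1 (mt abs_le.1 hy))]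

namespace Par

variable (P : Par)

noncomputable def μ0 : Measure (ℝ × ℝ) := volume.withDensity fun p => ENNReal.ofReal (P.ρ p)

noncomputable def μ : Measure (ℝ × ℝ) := (P.μ0 univ)⁻¹ • P.μ0

noncomputable def den (s : ℝ → ℝ≥0∞) (x : ℝ) : ℝ := ((P.μ0 univ)⁻¹ * s x).toReal

lemma ρ_one (p : ℝ × ℝ) : P.ρ p ≤ 1 := by simpa using P.ρ_le' p one_pos (P.φ_facts p).1

lemma mρ : Measurable fun p => ENNReal.ofReal (P.ρ p) := P.ρ_meas.ennreal_ofReal

lemma out {x : ℝ} (hx : x ∉ Icc (-(2 * P.R)) (2 * P.R)) : 2 * P.R < |x| :=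
  not_le.1 (mt abs_le.1 hx)

lemma outW {w : ℝ} (hw : w ∉ Icc (-(2 * P.R)) (2 * P.R)) (x : ℝ) : P.ρ (x, w - x) = 0 := by
  have h := P.out hw
  have : |w| ≤ |x| + |w - x| := by simpa using abs_add_le x (w - x)
  refine P.ρ_zero ?_
  by_contra hc
  push Not at hc
  linarith [hc.1, hc.2]

lemma lint_q {c S : ℝ} (c0 : 0 ≤ c) (hq : ∫ w in Icc (-(2 * P.R)) (2 * P.R), P.q w ≤ 7 * S) :
    ∫⁻ w in Icc (-(2 * P.R)) (2 * P.R), ENNReal.ofReal (c * P.q w)
      ≤ ENNReal.ofReal (c * (7 * S)) := by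
  rw [← ofReal_integral_eq_lintegral_ofReal (P.q_cont.integrableOn_Icc.const_mul c)
    (Eventually.of_forall fun w => mul_nonneg c0 (P.q_pos w).le), integral_const_mul]
  exact ENNReal.ofReal_le_ofReal (by gcongr)

lemma Z_le {S : ℝ} (hq : ∫ w in Icc (-(2 * P.R)) (2 * P.R), P.q w ≤ 7 * S) :
    P.μ0 univ ≤ ENNReal.ofReal (120 * P.δ * (7 * S)) := by
  have := P.d0
  refine le_trans ?_ (P.lint_q (by positivity) hq)
  have e := congrArg (fun m : Measure ℝ => m univ) (map_add P.mρ)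
  simp only [Measure.map_apply (by fun_prop : Measurable fun x : ℝ × ℝ => x.1 + x.2) MeasurableSet.univ,
    preimage_univ, withDensity_apply _ MeasurableSet.univ, Measure.restrict_univ] at e
  rw [μ0, withDensity_apply _ MeasurableSet.univ, Measure.restrict_univ, e,
    ← lintegral_indicator measurableSet_Icc]
  refine lintegral_mono fun w => ?_
  by_cases hw : w ∈ Icc (-(2 * P.R)) (2 * P.R)
  · rw [indicator_of_mem hw]; exact P.secW w
  · simp [P.outW hw]

lemma prob (z0 : P.μ0 univ ≠ 0) (z1 : P.μ0 univ ≠ ⊤) : IsProbabilityMeasure P.μ :=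
  ⟨by simp [μ, ENNReal.inv_mul_cancel z0 z1]⟩

lemma pack (z0 : P.μ0 univ ≠ 0) (z1 : P.μ0 univ ≠ ⊤) {X : ℝ × ℝ → ℝ} (mX : Measurable X)
    {s : ℝ → ℝ≥0∞} (ms : Measurable s) (e : P.μ0.map X = volume.withDensity s)
    (sb : ∀ x, s x ≤ ENNReal.ofReal (P.R - -P.R))
    (s0 : ∀ x ∉ Icc (-(2 * P.R)) (2 * P.R), s x = 0) :
    (∃ M, Dens (P.den s) (2 * P.R) M) ∧
      P.μ.map X = volume.withDensity (fun x => ENNReal.ofReal (P.den s x)) ∧
      ∫ x, P.den s x = 1 := by
  have zi : (P.μ0 univ)⁻¹ ≠ ⊤ := by simpa using z0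
  have m : Measurable (P.den s) := (ms.const_mul _).ennreal_toReal
  have e' : P.μ.map X = volume.withDensity (fun x => ENNReal.ofReal (P.den s x)) := by
    rw [μ, Measure.map_smul, e, ← withDensity_smul _ ms]
    congr 1; ext x
    rw [den, ENNReal.ofReal_toReal (ENNReal.mul_ne_top zi (ne_top_of_le_ne_top (by simp) (sb x)))]
    rfl
  refine ⟨⟨((P.μ0 univ)⁻¹ * ENNReal.ofReal (P.R - -P.R)).toReal, m,
    fun _ => ENNReal.toReal_nonneg, fun x => ENNReal.toReal_mono
      (ENNReal.mul_ne_top zi (by simp)) (by gcongr; exact sb x),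
    fun x hx => by simp [den, s0 x hx]⟩, e', ?_⟩
  have := P.prob z0 z1
  simpa using transfer mX m (fun _ => ENNReal.toReal_nonneg) e' (G := fun _ => 1) continuous_const

lemma int_cont (z0 : P.μ0 univ ≠ 0) (z1 : P.μ0 univ ≠ ⊤) {G : ℝ × ℝ → ℝ} (hG : Continuous G) :
    Integrable G P.μ := by
  have := P.prob z0 z1
  obtain ⟨C, hC⟩ := (isCompact_Icc.prod isCompact_Icc : IsCompact P.box).exists_bound_of_continuousOn
    hG.continuousOn
  refine Integrable.of_bound hG.aestronglyMeasurable C ?_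
  have : ∀ᵐ p ∂P.μ, p ∈ P.box := by
    refine Measure.ae_smul_measure ?_ _
    rw [μ0, ae_withDensity_iff P.mρ]
    exact Eventually.of_forall fun p hp => by
      by_contra hc; exact hp (by simp [ρ, hc])
  filter_upwards [this] with p hp using hC p hp

lemma gap {S : ℝ} (S0 : 0 < S) (hq : ∫ w in Icc (-(2 * P.R)) (2 * P.R), P.q w ≤ 7 * S)
    (hδ : log (4 * P.δ) ≤ -900000) {X : ℝ × ℝ → ℝ} (cX : Continuous X) {G : Set (ℝ × ℝ)}
    (mG : MeasurableSet G) (G1 : ENNReal.ofReal (P.δ * S) ≤ P.μ0 G)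
    (G2 : ∀ p ∈ G, 1 + |X p| ≤ 4 * P.δ * (1 + |p.1 + p.2|))
    (hB : ∫⁻ p, ENNReal.ofReal (P.ρ p) * ENNReal.ofReal (bad (X p) (p.1 + p.2))
      ≤ ENNReal.ofReal (P.δ * (7 * S)))
    {f g : ℝ → ℝ} {M M' : ℝ} (df : Dens f (2 * P.R) M) (dg : Dens g (2 * P.R) M')
    (ef : P.μ.map X = volume.withDensity (fun x => ENNReal.ofReal (f x))) (f1 : ∫ x, f x = 1)
    (eg : P.μ.map (fun p => p.1 + p.2) = volume.withDensity (fun x => ENNReal.ofReal (g x)))
    (gle : ∀ w, g w ≤ 120 * P.δ * P.q w / (P.μ0 univ).toReal) :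
    ∫ x, negMulLog (f x) ≤ (∫ x, negMulLog (g x)) - 1 := by
  have d0 := P.d0
  have zl := G1.trans (measure_mono (subset_univ G))
  have zu := P.Z_le hq
  have z1 : P.μ0 univ ≠ ⊤ := ne_top_of_le_ne_top (by simp) zu
  have z0 : P.μ0 univ ≠ 0 := fun e => by
    rw [e, nonpos_iff_eq_zero, ENNReal.ofReal_eq_zero] at zl
    have : 0 < P.δ * S := by positivity
    linarith
  have := P.prob z0 z1
  set z := (P.μ0 univ).toReal with hz
  have zl' : P.δ * S ≤ z := (ENNReal.ofReal_le_iff_le_toReal z1).1 zl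
  have zu' : z ≤ 120 * P.δ * (7 * S) := ENNReal.toReal_le_of_le_ofReal (by positivity) zu
  have zp : 0 < z := lt_of_lt_of_le (by positivity) zl'
  have cq := P.q_cont
  have c1 : Continuous fun x => P.q x / (7 * S) := by fun_prop
  have c2 : Continuous fun x => 120 * P.δ * P.q x / z := by fun_prop
  have p1 : ∀ x, 0 < P.q x / (7 * S) := fun x => by have := P.q_pos x; positivity
  have p2 : ∀ x, 0 < 120 * P.δ * P.q x / z := fun x => by have := P.q_pos x; positivity
  have l1 : Continuous fun x => -log (P.q x / (7 * S)) := (c1.log fun x => (p1 x).ne').neg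
  have l2 : Continuous fun x => -log (120 * P.δ * P.q x / z) :=
    (c2.log fun x => (p2 x).ne').neg
  have h1 := df.gibbs f1 c1 p1 (by rw [integral_div, div_le_one (by positivity)]; exact hq)
  have h2 := dg.lower c2 p2 gle
  rw [transfer cX.measurable df.m df.n ef l1] at h1
  rw [transfer (by fun_prop) dg.m dg.n eg l2] at h2
  have cb : Continuous fun p : ℝ × ℝ => bad (X p) (p.1 + p.2) := bad_cont cX (by fun_prop)
  have ib := P.int_cont z0 z1 cb
  have i1 := P.int_cont z0 z1 (l1.comp cX)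
  have i2 := P.int_cont z0 z1 (l2.comp (by fun_prop : Continuous fun p : ℝ × ℝ => p.1 + p.2))
  have i3 : Integrable (G.indicator fun _ => log (4 * P.δ)) P.μ :=
    (integrable_const _).indicator mG
  have i4 : Integrable (fun p => 841 + 2 * bad (X p) (p.1 + p.2)) P.μ :=
    (integrable_const _).add (ib.const_mul 2)
  have b7 : ∫ p, bad (X p) (p.1 + p.2) ∂P.μ ≤ 7 := by
    have e := lintegral_withDensity_eq_lintegral_mul volume P.mρ cb.measurable.ennreal_ofReal
    rw [← μ0] at e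
    rw [integral_eq_lintegral_of_nonneg_ae (f := fun p => bad (X p) (p.1 + p.2))
      (Eventually.of_forall fun p => le_max_left _ _) ib.1,
      μ, lintegral_smul_measure, e, smul_eq_mul,
      ENNReal.toReal_mul, ENNReal.toReal_inv, ← hz, inv_mul_le_iff₀ zp]
    exact (ENNReal.toReal_le_of_le_ofReal (by positivity) hB).trans (by linarith)
  have g1 : 1 / 840 ≤ P.μ.real G := by
    rw [μ, measureReal_def, Measure.smul_apply, smul_eq_mul, ENNReal.toReal_mul,
      ENNReal.toReal_inv, ← hz, le_inv_mul_iff₀ zp]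
    have := (ENNReal.ofReal_le_iff_le_toReal
      (ne_top_of_le_ne_top z1 (measure_mono (subset_univ G)))).1 G1
    linarith
  have key : ∫ p, (-log (P.q (X p) / (7 * S)) - -log (120 * P.δ * P.q (p.1 + p.2) / z)) ∂P.μ
      ≤ ∫ p, (841 + 2 * bad (X p) (p.1 + p.2) + G.indicator (fun _ => log (4 * P.δ)) p) ∂P.μ := by
    refine integral_mono (i1.sub i2) (i4.add i3) fun p => ?_
    have q1 := P.q_pos (X p)
    have q2 := P.q_pos (p.1 + p.2)
    obtain ⟨r1, r2⟩ := P.q_ratio (X p) (p.1 + p.2)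
    have e : -log (P.q (X p) / (7 * S)) - -log (120 * P.δ * P.q (p.1 + p.2) / z)
        = log (120 * P.δ * (7 * S) / z) + (log (P.q (p.1 + p.2)) - log (P.q (X p))) := by
      rw [log_div q1.ne' (by positivity), log_div (by positivity) zp.ne',
        log_div (by positivity) zp.ne', log_mul (by positivity) q2.ne',
        log_mul (x := 120 * P.δ) (by positivity) (by positivity)]
      ring
    have a1 : log (120 * P.δ * (7 * S) / z) ≤ 839 := by
      have := log_le_sub_one_of_pos (show 0 < 120 * P.δ * (7 * S) / z by positivity)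
      have : 120 * P.δ * (7 * S) / z ≤ 840 := by rw [div_le_iff₀ zp]; linarith
      linarith
    have a2 : log 2 ≤ 1 := by linarith [log_le_sub_one_of_pos (show (0 : ℝ) < 2 by norm_num)]
    have a3 : 0 ≤ bad (X p) (p.1 + p.2) := le_max_left _ _
    simp only [e]
    by_cases hp : p ∈ G
    · rw [indicator_of_mem hp]; linarith [r2 (G2 p hp)]
    · rw [indicator_of_notMem hp]; linarith
  have i1' : Integrable (fun p => -log (P.q (X p) / (7 * S))) P.μ := i1
  have i2' : Integrable (fun p : ℝ × ℝ => -log (120 * P.δ * P.q (p.1 + p.2) / z)) P.μ := i2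
  rw [integral_sub i1' i2', integral_add i4 i3, integral_add (integrable_const _) (ib.const_mul 2),
    integral_const_mul, integral_indicator_const _ mG, integral_const, probReal_univ] at key
  simp only [smul_eq_mul, one_mul] at key
  nlinarith

lemma mV : MeasurableSet {p : ℝ × ℝ | 1 / P.δ ≤ p.1 ∧ |p.2| ≤ P.δ * p.1} := by measurability

lemma mU : MeasurableSet {p : ℝ × ℝ | 1 / P.δ ≤ p.2 ∧ |p.1| ≤ P.δ * p.2} := by measurability

lemma goodV (h : 1 / P.δ ≤ P.T) :
    ENNReal.ofReal (2 * P.δ * 1 * log (P.T / (1 / P.δ)))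
      ≤ P.μ0 {p | 1 / P.δ ≤ p.1 ∧ |p.2| ≤ P.δ * p.1} := by
  have d0 := P.d0; have d1 := P.d1; have hT := P.hT; have hR := P.hR
  have mG := P.mV
  rw [μ0, withDensity_apply _ mG, ← lintegral_indicator mG, Measure.volume_eq_prod,
    lintegral_prod _ (P.mρ.indicator mG).aemeasurable]
  refine good_gen (by positivity) h one_pos d0 fun s t h1 h2 h3 => ?_
  rw [indicator_of_mem (by exact ⟨h1, h3⟩)]
  have s1 : 1 ≤ s := by rw [div_le_iff₀ d0] at h1; nlinarith
  have : |t| ≤ P.R := by nlinarith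
  refine ENNReal.ofReal_le_ofReal (P.ρ_ge ⟨⟨by linarith, by linarith⟩, abs_le.1 this⟩ ?_)
  rw [φ_le, abs_of_pos (by linarith : 0 < s)]
  exact ⟨s1, le_rfl, by nlinarith [sq_nonneg P.δ], h3⟩

lemma goodU (h : 1 / P.δ ≤ P.R) :
    ENNReal.ofReal (2 * P.δ * P.δ ^ 2 * log (P.R / (1 / P.δ)))
      ≤ P.μ0 {p | 1 / P.δ ≤ p.2 ∧ |p.1| ≤ P.δ * p.2} := by
  have d0 := P.d0; have d1 := P.d1; have hT := P.hT; have hR := P.hR
  have mG := P.mU
  rw [μ0, withDensity_apply _ mG, ← lintegral_indicator mG, Measure.volume_eq_prod,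
    lintegral_prod_symm _ (P.mρ.indicator mG).aemeasurable]
  refine good_gen (by positivity) h (by positivity) d0 fun s t h1 h2 h3 => ?_
  rw [indicator_of_mem (by exact ⟨h1, h3⟩)]
  have s1 : 1 ≤ s := by rw [div_le_iff₀ d0] at h1; nlinarith
  have : |t| ≤ P.R := by nlinarith
  have k : s ≤ s / P.δ := by rw [le_div_iff₀ d0]; nlinarith
  refine ENNReal.ofReal_le_ofReal (le_trans (le_of_eq (by field_simp))
    (P.ρ_ge (m := s / P.δ) ⟨abs_le.1 this, ⟨by linarith, by linarith⟩⟩ ?_))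
  rw [φ_le, abs_of_pos (by linarith : 0 < s), show P.δ ^ 2 * (s / P.δ) = P.δ * s by field_simp,
    mul_div_cancel₀ _ d0.ne']
  exact ⟨by linarith, by nlinarith, by linarith, le_rfl⟩

lemma good_ineq {a b : ℝ} (h1 : 1 / P.δ ≤ a) (h2 : |b| ≤ P.δ * a) :
    1 + |b| ≤ 4 * P.δ * (1 + |a + b|) := by
  have d0 := P.d0; have d1 := P.d1
  rw [div_le_iff₀ d0] at h1
  have a0 : 0 < a := by nlinarith
  have : a - P.δ * a ≤ |a + b| := by linarith [le_abs_self (a + b), neg_abs_le b]
  nlinarith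

end Par

noncomputable def P0 : Par where
  δ := exp (-1000000)
  T := exp 2000000
  R := exp (2000000 / exp (-1000000) ^ 2)
  d0 := exp_pos _
  d1 := by
    rw [exp_neg, one_div]
    exact inv_anti₀ (by norm_num) (by linarith [add_one_le_exp (1000000 : ℝ)])
  hT := by linarith [add_one_le_exp (2000000 : ℝ)]
  hR := by
    rw [exp_le_exp, le_div_iff₀ (by positivity)]
    have : exp (-1000000 : ℝ) ^ 2 ≤ 1 := pow_le_one₀ (exp_pos _).le (by simp)
    linarith

lemma P0_facts : (∫ w in Icc (-(2 * P0.R)) (2 * P0.R), P0.q w ≤ 7 * 2000000) ∧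
    log (4 * P0.δ) ≤ -900000 ∧ 1 / P0.δ ≤ P0.T ∧
    P0.δ * 2000000 ≤ 2 * P0.δ * 1 * log (P0.T / (1 / P0.δ)) ∧
    P0.δ * 2000000 ≤ 2 * P0.δ * P0.δ ^ 2 * log (P0.R / (1 / P0.δ)) := by
  have d0 := P0.d0; have d1 := P0.d1; have hT := P0.hT; have hR := P0.hR
  have lδ : log P0.δ = -1000000 := log_exp _
  have lT : log P0.T = 2000000 := log_exp _
  have lR : log P0.R = 2000000 / P0.δ ^ 2 := log_exp _
  have d2 : P0.δ ^ 2 ≤ 1 := by nlinarith
  refine ⟨(P0.q_int (by linarith)).trans ?_, ?_, ?_, ?_, ?_⟩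
  · have h1 : log (1 + 2 * P0.R) ≤ log (3 * P0.R) := log_le_log (by linarith) (by linarith)
    rw [log_mul (by norm_num) (by linarith), lR] at h1
    have h2 := log_le_sub_one_of_pos (show (0 : ℝ) < 3 by norm_num)
    have h3 : P0.δ ^ 2 * log (1 + 2 * P0.R) ≤ P0.δ ^ 2 * (2 + 2000000 / P0.δ ^ 2) := by
      gcongr; linarith
    rw [mul_add, mul_div_cancel₀ _ (by positivity)] at h3
    rw [lT]; linarith
  · rw [log_mul (by norm_num) d0.ne', lδ]
    linarith [log_le_sub_one_of_pos (show (0 : ℝ) < 4 by norm_num)]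
  · rw [← log_le_log_iff (by positivity) (by linarith), one_div, log_inv, lδ, lT]; norm_num
  · rw [log_div (by linarith) (by positivity), one_div, log_inv, lδ, lT]; linarith
  · rw [log_div (by linarith) (by positivity), one_div, log_inv, lδ, lR]
    have : 2 * P0.δ * P0.δ ^ 2 * (2000000 / P0.δ ^ 2 - - -1000000)
        = P0.δ * (4000000 - 2000000 * P0.δ ^ 2) := by field_simp; ring
    rw [this]; gcongr; linarith

end Pool.Agent.H29.REP
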