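import Pool.Agent.H29.REP3

set_option autoImplicit false

namespace Pool.Agent.H29.REP

open MeasureTheory Set Filter Real Pointwise
open scoped ENNReal

lemma main : P0.μ0 univ ≠ 0 ∧ P0.μ0 univ ≠ ⊤ ∧ ∃ fU fV fW : ℝ → ℝ,
    Measurable fU ∧ Measurable fV ∧ Measurable fW ∧
    (∀ x, 0 ≤ fU x) ∧ (∀ x, 0 ≤ fV x) ∧ (∀ x, 0 ≤ fW x) ∧
    P0.μ.map Prod.fst = volume.withDensity (fun x => ENNReal.ofReal (fU x)) ∧
    P0.μ.map Prod.snd = volume.withDensity (fun x => ENNReal.ofReal (fV x)) ∧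
    P0.μ.map (fun x => x.1 + x.2) = volume.withDensity (fun x => ENNReal.ofReal (fW x)) ∧
    exp (∫ x, negMulLog (fU x)) + exp (∫ x, negMulLog (fV x)) < exp (∫ x, negMulLog (fW x)) := by
  obtain ⟨hq, hδ, hT, gV, gU⟩ := P0_facts
  have d0 := P0.d0
  have hR := P0.hR
  have hT' := P0.hT
  have GV := (ENNReal.ofReal_le_ofReal gV).trans (P0.goodV hT)
  have GU := (ENNReal.ofReal_le_ofReal gU).trans (P0.goodU (hT.trans hR))
  have z1 : P0.μ0 univ ≠ ⊤ := ne_top_of_le_ne_top (by simp) (P0.Z_le hq)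
  have z0 : P0.μ0 univ ≠ 0 := fun e => by
    have zl := GV.trans (measure_mono (subset_univ _))
    rw [e, nonpos_iff_eq_zero, ENNReal.ofReal_eq_zero] at zl
    linarith
  have m := P0.mρ
  obtain ⟨⟨M1, d1⟩, e1, i1⟩ := P0.pack z0 z1 measurable_fst m.lintegral_prod_right' (map_fst m)
    (fun x => sec_le (fun _ => P0.ρ_one _) fun y hy => P0.ρ_zero (Or.inr hy))
    (fun x hx => by
      have : ∀ y, P0.ρ (x, y) = 0 := fun y => P0.ρ_zero (Or.inl (by linarith [P0.out hx]))
      simp [this])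
  obtain ⟨⟨M2, d2⟩, e2, i2⟩ := P0.pack z0 z1 measurable_snd m.lintegral_prod_left' (map_snd m)
    (fun x => sec_le (fun _ => P0.ρ_one _) fun y hy => P0.ρ_zero (Or.inl hy))
    (fun x hx => by
      have : ∀ y, P0.ρ (y, x) = 0 := fun y => P0.ρ_zero (Or.inr (by linarith [P0.out hx]))
      simp [this])
  obtain ⟨⟨M3, d3⟩, e3, -⟩ := P0.pack z0 z1 (by fun_prop)
    (Measurable.lintegral_prod_left' (f := fun p : ℝ × ℝ => ENNReal.ofReal (P0.ρ (p.1, p.2 - p.1)))
      (m.comp (by fun_prop))) (map_add m)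
    (fun x => sec_le (fun _ => P0.ρ_one _) fun y hy => P0.ρ_zero (Or.inl hy))
    (fun x hx => by simp [P0.outW hx])
  have gle : ∀ w, P0.den (fun w => ∫⁻ x, ENNReal.ofReal (P0.ρ (x, w - x))) w
      ≤ 120 * P0.δ * P0.q w / (P0.μ0 univ).toReal := fun w => by
    have := P0.q_pos w
    rw [Par.den, ENNReal.toReal_mul, ENNReal.toReal_inv, div_eq_inv_mul]
    gcongr
    exact ENNReal.toReal_le_of_le_ofReal (by positivity) (P0.secW w)
  have mb : ∀ X : ℝ × ℝ → ℝ, Continuous X → AEMeasurable (fun p : ℝ × ℝ =>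
      ENNReal.ofReal (P0.ρ p) * ENNReal.ofReal (bad (X p) (p.1 + p.2))) (volume.prod volume) :=
    fun X cX => (m.mul (bad_cont cX (by fun_prop)).measurable.ennreal_ofReal).aemeasurable
  have k1 := P0.gap (by norm_num) hq hδ continuous_fst P0.mU GU
    (fun p hp => by rw [add_comm p.1]; exact P0.good_ineq hp.1 hp.2)
    (by
      rw [Measure.volume_eq_prod, lintegral_prod _ (mb _ continuous_fst)]
      exact (bad_gen (r := fun s t => P0.ρ (s, t)) (fun s t h1 h2 => P0.badρ h1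
        (by simp only; linarith) h2) fun s hs t => P0.ρ_zero
          (Or.inl (by linarith [P0.out hs]))).trans (P0.lint_q d0.le hq))
    d1 d3 e1 i1 e3 gle
  have k2 := P0.gap (by norm_num) hq hδ continuous_snd P0.mV GV
    (fun p hp => P0.good_ineq hp.1 hp.2)
    (by
      rw [Measure.volume_eq_prod, lintegral_prod_symm _ (mb _ continuous_snd)]
      refine le_trans (le_of_eq ?_) ((bad_gen (r := fun s t => P0.ρ (t, s))
        (fun s t h1 h2 => P0.badρ h1 h2 (by simp only; linarith)) fun s hs t => P0.ρ_zero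
          (Or.inr (by linarith [P0.out hs]))).trans (P0.lint_q d0.le hq))
      simp only [add_comm])
    d2 d3 e2 i2 e3 gle
  refine ⟨z0, z1, _, _, _, d1.m, d2.m, d3.m, d1.n, d2.n, d3.n, e1, e2, e3, ?_⟩
  have a1 := Real.exp_le_exp.2 k1
  have a2 := Real.exp_le_exp.2 k2
  rw [Real.exp_sub] at a1 a2
  have a3 : 2 < Real.exp 1 := by linarith [Real.add_one_lt_exp (one_ne_zero)]
  have a4 := div_lt_div_of_pos_left (Real.exp_pos (∫ x, Real.negMulLog
    (P0.den (fun w => ∫⁻ x, ENNReal.ofReal (P0.ρ (x, w - x))) x))) (by norm_num) a3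
  linarith

lemma dens_of {ν : Measure ℝ} [IsFiniteMeasure ν] {C : ℝ≥0∞} (hC : C ≠ ⊤) {L : ℝ}
    (h : ∀ E, MeasurableSet E → ν E ≤ C * volume E) (h0 : ν (Icc (-L) L)ᶜ = 0) :
    ∃ f M, Dens f L M ∧ ν = volume.withDensity fun x => ENNReal.ofReal (f x) := by
  have ac : ν ≪ volume := Measure.AbsolutelyContinuous.mk fun E mE hE => by
    simpa [hE] using h E mE
  have mg := ν.measurable_rnDeriv volume
  have b1 : ∀ᵐ x, ν.rnDeriv volume x ≤ C :=
    ae_le_of_forall_setLIntegral_le_of_sigmaFinite mg fun E mE _ => by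
      rw [Measure.setLIntegral_rnDeriv ac]; simpa using h E mE
  have b2 : ∀ᵐ x, x ∈ (Icc (-L) L)ᶜ → ν.rnDeriv volume x = 0 := by
    rw [← ae_restrict_iff' measurableSet_Icc.compl]
    refine (lintegral_eq_zero_iff mg).1 ?_
    rw [Measure.setLIntegral_rnDeriv ac, h0]
  refine ⟨(Icc (-L) L).indicator fun x => (min C (ν.rnDeriv volume x)).toReal, C.toReal,
    ⟨(measurable_const.min mg).ennreal_toReal.indicator measurableSet_Icc,
      indicator_nonneg fun _ _ => ENNReal.toReal_nonneg,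
      fun x => indicator_apply_le' (fun _ => ENNReal.toReal_mono hC (min_le_left _ _))
        fun _ => ENNReal.toReal_nonneg, fun x hx => indicator_of_notMem hx _⟩, ?_⟩
  conv_lhs => rw [← Measure.withDensity_rnDeriv_eq _ _ ac]
  refine withDensity_congr_ae ?_
  filter_upwards [b1, b2] with x h1 h2
  by_cases hx : x ∈ Icc (-L) L
  · rw [indicator_of_mem hx, min_eq_right h1, ENNReal.ofReal_toReal (ne_top_of_le_ne_top hC h1)]
  · simp [hx, h2 hx]

lemma box_le (R a b : ℝ) (ha : a ≠ 0) (E : Set ℝ) (mE : MeasurableSet E) :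
    volume ((Icc (-R) R ×ˢ univ) ∩ (fun p : ℝ × ℝ => b * p.1 + a * p.2) ⁻¹' E) ≤
      ENNReal.ofReal (R - -R) * ENNReal.ofReal |a⁻¹| * volume E := by
  have m : MeasurableSet ((Icc (-R) R ×ˢ univ) ∩ (fun p : ℝ × ℝ => b * p.1 + a * p.2) ⁻¹' E) :=
    (measurableSet_Icc.prod MeasurableSet.univ).inter (mE.preimage (by fun_prop))
  rw [Measure.volume_eq_prod, Measure.prod_apply m, mul_assoc, mul_comm, ← Real.volume_Icc,
    ← setLIntegral_const, ← lintegral_indicator measurableSet_Icc]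
  refine lintegral_mono fun x => ?_
  by_cases hx : x ∈ Icc (-R) R
  · rw [indicator_of_mem hx, ← measure_preimage_add volume (b * x) E,
      ← Real.volume_preimage_mul_left ha]
    exact measure_mono fun y hy => hy.2
  · have : Prod.mk x ⁻¹' ((Icc (-R) R ×ˢ univ) ∩ (fun p : ℝ × ℝ => b * p.1 + a * p.2) ⁻¹' E) = ∅ :=
      eq_empty_of_forall_notMem fun y hy => hx hy.1.1
    simp [this]

lemma μ0_le (P : Par) (E : Set (ℝ × ℝ)) (mE : MeasurableSet E) :
    P.μ0 E ≤ volume (P.box ∩ E) := by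
  rw [Par.μ0, withDensity_apply _ mE, ← lintegral_indicator mE,
    ← lintegral_indicator_one (P.box_meas.inter mE)]
  refine lintegral_mono fun p => ?_
  by_cases h1 : p ∈ E
  · by_cases h2 : p ∈ P.box
    · rw [indicator_of_mem h1, indicator_of_mem (mem_inter h2 h1)]
      exact ENNReal.ofReal_le_one.2 (P.ρ_one p)
    · simp [h1, Par.ρ, h2]
  · simp [h1]

lemma all_dens (P : Par) (z0 : P.μ0 univ ≠ 0) (z1 : P.μ0 univ ≠ ⊤) (a b : ℝ)
    (h : a ≠ 0 ∨ b ≠ 0) : ∃ f L M, Dens f L M ∧ P.μ.map (fun p => a * p.1 + b * p.2) =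
      volume.withDensity fun x => ENNReal.ofReal (f x) := by
  have := P.prob z0 z1
  have mX : Measurable fun p : ℝ × ℝ => a * p.1 + b * p.2 := by fun_prop
  obtain ⟨C, hC, hb⟩ : ∃ C : ℝ≥0∞, C ≠ ⊤ ∧ ∀ E, MeasurableSet E →
      volume (P.box ∩ (fun p : ℝ × ℝ => a * p.1 + b * p.2) ⁻¹' E) ≤ C * volume E := by
    rcases h with h | h
    · refine ⟨_, ENNReal.mul_ne_top ENNReal.ofReal_ne_top ENNReal.ofReal_ne_top,
        fun E mE => le_trans ?_ (box_le P.R a b h E mE)⟩
      have sw : MeasurePreserving (MeasurableEquiv.prodComm : ℝ × ℝ ≃ᵐ ℝ × ℝ) volume volume :=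
        Measure.measurePreserving_swap
      rw [← sw.measure_preimage_equiv (_ ×ˢ _ ∩ _)]
      refine measure_mono fun p hp => ⟨⟨hp.1.2, trivial⟩, ?_⟩
      have := hp.2
      simp only [mem_preimage] at this ⊢
      rw [add_comm]; exact this
    · exact ⟨_, ENNReal.mul_ne_top ENNReal.ofReal_ne_top ENNReal.ofReal_ne_top,
        fun E mE => le_trans (measure_mono fun p hp => by exact ⟨⟨hp.1.1, trivial⟩, hp.2⟩)
          (box_le P.R b a h E mE)⟩
  obtain ⟨f, M, hf⟩ := dens_of (ν := P.μ.map fun p => a * p.1 + b * p.2)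
    (C := (P.μ0 univ)⁻¹ * C) (L := |a| * P.R + |b| * P.R)
    (ENNReal.mul_ne_top (by simpa using z0) hC) (fun E mE => by
      rw [Measure.map_apply mX mE, Par.μ, Measure.smul_apply, smul_eq_mul, mul_assoc]
      gcongr
      exact (μ0_le P _ (mE.preimage mX)).trans (hb E mE)) (by
      rw [Measure.map_apply mX measurableSet_Icc.compl, Par.μ, Measure.smul_apply]
      have := μ0_le P _ ((measurableSet_Icc (a := -(|a| * P.R + |b| * P.R))
        (b := |a| * P.R + |b| * P.R)).compl.preimage mX)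
      have e : P.box ∩ (fun p : ℝ × ℝ => a * p.1 + b * p.2) ⁻¹'
          (Icc (-(|a| * P.R + |b| * P.R)) (|a| * P.R + |b| * P.R))ᶜ = ∅ :=
        eq_empty_of_forall_notMem fun p hp => hp.2 (by
          have h1 := abs_le.2 hp.1.1
          have h2 := abs_le.2 hp.1.2
          refine abs_le.1 ((abs_add_le _ _).trans ?_)
          rw [abs_mul, abs_mul]; gcongr)
      rw [e, measure_empty, nonpos_iff_eq_zero] at this
      rw [this, smul_zero])
  exact ⟨f, _, M, hf⟩

lemma conc' (P : Par) (z0 : P.μ0 univ ≠ 0) (z1 : P.μ0 univ ≠ ⊤) {A B : Set (ℝ × ℝ)}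
    (mA : MeasurableSet A) (mB : MeasurableSet B) (nA : A.Nonempty) (nB : B.Nonempty) {t : ℝ}
    (t0 : 0 ≤ t) (t1 : t ≤ 1) : min (P.μ A) (P.μ B) ≤ P.μ (t • A + (1 - t) • B) := by
  have := P.prob z0 z1
  rcases t0.eq_or_lt with rfl | t0
  · simp [Set.zero_smul_set nA]
  rcases t1.eq_or_lt with rfl | t1
  · simp [Set.zero_smul_set nB]
  refine le_of_forall_lt fun c hc => ?_
  obtain ⟨K, hK, cK, lK⟩ := mA.exists_lt_isCompact (hc.trans_le (min_le_left _ _))
  obtain ⟨L, hL, cL, lL⟩ := mB.exists_lt_isCompact (hc.trans_le (min_le_right _ _))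
  refine (lt_min lK lL).trans_le (le_trans ?_
    (measure_mono (add_subset_add (smul_set_mono hK) (smul_set_mono hL))))
  simp only [Par.μ, Measure.smul_apply, smul_eq_mul]
  rw [← mul_min]
  gcongr
  exact P.conc K L cK cL t0 t1

lemma ent_eq {f g : ℝ → ℝ} (mf : Measurable f) (mg : Measurable g) (f0 : ∀ x, 0 ≤ f x)
    (g0 : ∀ x, 0 ≤ g x) (e : (volume.withDensity fun x => ENNReal.ofReal (f x)) =
      volume.withDensity fun x => ENNReal.ofReal (g x)) :
    ∫ x, negMulLog (f x) = ∫ x, negMulLog (g x) := by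
  rw [withDensity_eq_iff_of_sigmaFinite mf.ennreal_ofReal.aemeasurable
    mg.ennreal_ofReal.aemeasurable] at e
  refine integral_congr_ae ?_
  filter_upwards [e] with x hx
  rw [(ENNReal.ofReal_eq_ofReal_iff (f0 x) (g0 x)).1 hx]

end Pool.Agent.H29.REP
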