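import Mathlib

set_option autoImplicit false

open Encodable Part

namespace Pool.Agent.H29.RecIn

variable {α β γ σ : Type} [Primcodable α] [Primcodable β] [Primcodable γ] [Primcodable σ]
variable {O : Set (ℕ →. ℕ)}

theorem nsome : Nat.RecursiveIn O Part.some := Nat.Partrec.some.recursiveIn

theorem rpair {f : α → β} {g : α → γ} (hf : ComputableIn O f) (hg : ComputableIn O g) :
    ComputableIn O fun a => (f a, g a) :=
  (Nat.RecursiveIn.pair hf hg).of_eq fun n => by cases decode (α := α) n <;> simp [Seq.seq]

theorem rbind {f : α →. β} {g : α → β →. σ} (hf : RecursiveIn O f) (hg : RecursiveIn₂ O g) :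
    RecursiveIn O fun a => (f a).bind (g a) :=
  (Nat.RecursiveIn.comp hg (nsome.pair hf)).of_eq fun n => by
    rcases e : decode (α := α) n <;> simp [Seq.seq, e, encodek]

theorem rmap {f : α →. β} {g : α → β → σ} (hf : RecursiveIn O f) (hg : ComputableIn₂ O g) :
    RecursiveIn O fun a => (f a).map (g a) := by
  simpa [bind_some_eq_map] using rbind (g := fun a x => some (g a x)) hf hg

theorem rcomp {f : β →. σ} {g : α → β} (hf : RecursiveIn O f) (hg : ComputableIn O g) :
    RecursiveIn O fun a => f (g a) :=
  (Nat.RecursiveIn.comp hf hg).of_eq fun n => by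
    simp only [map_some, bind_eq_bind]
    rcases e : decode (α := α) n with - | a <;> simp [encodek]

theorem ccomp {f : β → σ} {g : α → β} (hf : ComputableIn O f) (hg : ComputableIn O g) :
    ComputableIn O fun a => f (g a) := rcomp (f := fun b => Part.some (f b)) hf hg

theorem nprec {f g h : ℕ →. ℕ} (hf : Nat.RecursiveIn O f) (hg : Nat.RecursiveIn O g)
    (hh : Nat.RecursiveIn O h) :
    Nat.RecursiveIn O fun a => (f a).bind fun n => n.rec (g a)
      fun y IH => do {let i ← IH; h (Nat.pair a (Nat.pair y i))} :=
  ((Nat.RecursiveIn.prec hg hh).comp (nsome.pair hf)).of_eq fun a =>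
    Part.ext fun s => by simp [Seq.seq]

theorem rnat_rec {f : α → ℕ} {g : α →. σ} {h : α → ℕ × σ →. σ} (hf : ComputableIn O f)
    (hg : RecursiveIn O g) (hh : RecursiveIn₂ O h) :
    RecursiveIn O fun a => (f a).rec (g a) fun y IH => IH.bind fun i => h a (y, i) :=
  (nprec hf hg hh).of_eq fun n => by
    rcases e : decode (α := α) n with - | a
    · simp
    · simp only [coe_some, bind_some, map_some, encode_nat]
      induction f a <;> simp_all

theorem cnat_rec {f : α → ℕ} {g : α → σ} {h : α → ℕ × σ → σ} (hf : ComputableIn O f)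
    (hg : ComputableIn O g) (hh : ComputableIn₂ O h) :
    ComputableIn O fun a => Nat.rec (motive := fun _ => σ) (g a) (fun y IH => h a (y, IH)) (f a) :=
  (rnat_rec (h := fun a p => Part.some (h a p)) hf hg hh).of_eq fun a => by
    simp only []
    induction f a <;> simp [*]

theorem rrfind {p : α → ℕ →. Bool} (hp : RecursiveIn₂ O p) :
    RecursiveIn O fun a => Nat.rfind (p a) :=
  (Nat.RecursiveIn.rfind <|
        rmap (g := fun (_ : α × ℕ) (b : Bool) => (cond b 0 1 : ℕ)) hp
          ((Primrec.dom_bool fun b => cond b 0 1).comp Primrec.snd).computableIn).of_eq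
    fun n => by
    rcases e : decode (α := α) n <;> simp [e, Nat.rfind_zero_none, Part.map_map, map_id']

theorem rofOption {f : α → Option β} (hf : ComputableIn O f) :
    RecursiveIn O fun a => (f a : Part β) :=
  rcomp (f := fun o : Option β => (o : Part β)) (Computable.ofOption Computable.id).recursiveIn hf

theorem rrfindOpt {f : α → ℕ → Option σ} (hf : ComputableIn₂ O f) :
    RecursiveIn O fun a => Nat.rfindOpt (f a) :=
  rbind (rrfind (p := fun a n => Part.some (f a n).isSome)
    (ccomp Primrec.option_isSome.computableIn hf)) (rofOption hf)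

theorem oracle_tot (w : ℕ → ℕ) : ComputableIn {fun n => Part.some (w n)} w :=
  RecursiveIn.oracle _ rfl

theorem prefix_in {w : ℕ → ℕ} (hw : ComputableIn O w) :
    ComputableIn O fun n => (List.range n).map w := by
  have h1 : ComputableIn₂ O (fun (_ : ℕ) (p : ℕ × List ℕ) => p.2 ++ [w p.1]) :=
    ccomp (f := fun q : List ℕ × ℕ => q.1 ++ [q.2]) Primrec.list_concat.computableIn
      (rpair (Primrec.snd.comp Primrec.snd).computableIn
        (ccomp hw (Primrec.fst.comp Primrec.snd).computableIn))
  refine RecursiveIn.of_eq (cnat_rec ComputableIn.id (ComputableIn.const []) h1) fun n => ?_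
  congr 1
  induction n with
  | zero => rfl
  | succ n ih => simp only [id] at ih ⊢; rw [List.range_succ, List.map_append, ← ih]; rfl

/-- search with oracle prefixes -/
theorem master {w t : ℕ → ℕ} (hw : ComputableIn O w) (H : ℕ × ℕ × List ℕ → Option ℕ)
    (hH : Computable H) (h1 : ∀ x, ∃ n v, H (x, n, (List.range n).map w) = Option.some v)
    (h2 : ∀ x n v, H (x, n, (List.range n).map w) = Option.some v → v = t x) : ComputableIn O t := by
  have h3 : ComputableIn₂ O (fun x n => H (x, n, (List.range n).map w)) :=
    ccomp hH.computableIn (rpair ComputableIn.fst (rpair ComputableIn.snd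
      (ccomp (f := fun n => (List.range n).map w) (prefix_in hw) ComputableIn.snd)))
  refine (rrfindOpt h3).of_eq fun x => ?_
  obtain ⟨n, v, h⟩ := h1 x
  have hd : (Nat.rfindOpt (fun n => H (x, n, (List.range n).map w))).Dom :=
    Nat.rfindOpt_dom.mpr ⟨n, v, h⟩
  obtain ⟨m, hm⟩ := Nat.rfindOpt_spec (Part.get_mem hd)
  rw [eq_some_iff, ← h2 x m _ hm]
  exact Part.get_mem hd

end Pool.Agent.H29.RecIn
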