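import Mathlib

set_option autoImplicit false

namespace Pool.Agent.H29.SFT
open Set

/-- `X` is the set of sequences avoiding a set of words of length `M + 1`. -/
def MStep {A : Type} (M : ℕ) (X : Set (ℤ → A)) : Prop :=
  ∃ F : Set (Fin (M + 1) → A), X = {x | ∀ i : ℤ, (fun j : Fin (M + 1) => x (i + (j : ℕ))) ∉ F}

/-- The minimum step. -/
noncomputable def minStep {A : Type} (X : Set (ℤ → A)) : ℕ := sInf {M | MStep M X}

/-- Label sequences of bi-infinite walks; `E p a q` means an edge from `p` to `q` labelled `a`. -/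
def shift {V A : Type} (E : V → A → V → Prop) : Set (ℤ → A) :=
  {x | ∃ v : ℤ → V, ∀ i, E (v i) (x i) (v (i + 1))}

/-- Deterministic presentations. -/
def Det {V A : Type} (E : V → A → V → Prop) : Prop := ∀ p a q r, E p a q → E p a r → q = r

theorem step_iff {A : Type} {M : ℕ} {X : Set (ℤ → A)} : MStep M X ↔
    ∀ x : ℤ → A, (∀ i : ℤ, ∃ y ∈ X, ∃ k : ℤ, ∀ j : ℕ, j ≤ M → y (k + j) = x (i + j)) → x ∈ X := by
  constructor
  · rintro ⟨F, rfl⟩ x h i hi
    obtain ⟨y, hy, k, hk⟩ := h i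
    refine hy k ?_
    convert hi using 2 with j
    exact hk j (Nat.lt_succ_iff.1 j.2)
  · intro h
    refine ⟨{u | ∀ y ∈ X, ∀ k : ℤ, u ≠ fun j : Fin (M + 1) => y (k + (j : ℕ))},
      Subset.antisymm (fun x hx i hi => hi x hx i rfl) fun x hx => h x fun i => ?_⟩
    have := hx i
    simp only [mem_ofPred_eq, not_forall, not_not] at this
    obtain ⟨y, hy, k, hk⟩ := this
    exact ⟨y, hy, k, fun j hj => (congrFun hk ⟨j, Nat.lt_succ_iff.2 hj⟩).symm⟩

theorem le_minStep {A : Type} {L : ℕ} {X : Set (ℤ → A)} (h : ∃ M, MStep M X) (z : ℤ → A)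
    (hz : z ∉ X) (hw : ∀ i : ℤ, ∃ y ∈ X, ∀ j : ℕ, j < L → y (i + j) = z (i + j)) :
    L ≤ minStep X := by
  by_contra hc
  refine hz (step_iff.1 (Nat.sInf_mem h) z fun i => ?_)
  obtain ⟨y, hy, h2⟩ := hw i
  exact ⟨y, hy, i, fun j hj => h2 j (hj.trans_lt (not_le.1 hc))⟩

def Definite {V A : Type} (L : ℕ) (E : V → A → V → Prop) : Prop :=
  ∀ (c : ℕ → A) (v v' : ℕ → V), (∀ i < L, E (v i) (c i) (v (i + 1))) →
    (∀ i < L, E (v' i) (c i) (v' (i + 1))) → v L = v' L

theorem def_step {V A : Type} {L : ℕ} {E : V → A → V → Prop} (h : Definite L E) :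
    MStep L (shift E) := by
  refine step_iff.2 fun x hx => ?_
  have : ∀ i : ℤ, ∃ u : ℕ → V, ∀ j ≤ L, E (u j) (x (i + j)) (u (j + 1)) := fun i => by
    obtain ⟨y, ⟨v, hv⟩, k, hk⟩ := hx i
    refine ⟨fun j => v (k + j), fun j hj => ?_⟩
    have := hv (k + j)
    rw [hk j hj] at this
    simpa [add_assoc] using this
  choose u hu using this
  refine ⟨fun t => u (t - L) L, fun t => ?_⟩
  have h1 := hu (t - L) L le_rfl
  rw [sub_add_cancel] at h1
  convert h1 using 1
  refine h (fun j => x (t + 1 - L + j)) _ (fun j => u (t - L) (j + 1))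
    (fun j hj => hu _ j hj.le) fun j hj => ?_
  have := hu (t - L) (j + 1) hj
  convert this using 2
  push_cast; ring

theorem pump {V A : Type} {E : V → A → V → Prop} (v : ℤ → V) (c : A) (i j : ℤ) (hij : i < j)
    (h : ∀ t, i ≤ t → t < j → E (v t) c (v (t + 1))) (he : v i = v j) :
    (fun _ => c) ∈ shift E := by
  refine ⟨fun t => v (i + t % (j - i)), fun t => ?_⟩
  have h0 : 0 < j - i := by omega
  have h1 := Int.emod_nonneg t h0.ne'
  have h2 := Int.emod_lt_of_pos t h0
  have h3 := h (i + t % (j - i)) (by omega) (by omega)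
  convert h3 using 1
  have h4 : (t + 1) % (j - i) = (t % (j - i) + 1) % (j - i) := (Int.emod_add_emod _ _ _).symm
  rcases lt_or_eq_of_le (show t % (j - i) + 1 ≤ j - i by omega) with h5 | h5
  · show v _ = _
    rw [h4, Int.emod_eq_of_lt (by omega) h5, add_assoc]
  · show v _ = _
    rw [h4, h5, Int.emod_self, add_zero, he, add_assoc, h5, add_sub_cancel]

end Pool.Agent.H29.SFT
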