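import Mathlib

set_option autoImplicit false
open Set Topology

namespace Pool.Agent.H29.Smyth

abbrev C : Type := unitInterval

def X : Type := C × ℕ

def pt (t : C) (k : ℕ) : X := (t, k)

instance : TopologicalSpace X where
  IsOpen U := (∀ k, IsOpen {t : C | pt t k ∈ U}) ∧ ∀ t k, pt t k ∈ U → {j | pt t j ∉ U}.Finite
  isOpen_univ := ⟨fun _ => isOpen_univ, fun t k _ => by simp⟩
  isOpen_inter U V hU hV := ⟨fun k => (hU.1 k).inter (hV.1 k), fun t k h =>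
    ((hU.2 t k h.1).union (hV.2 t k h.2)).subset fun j hj => by
      by_contra h'
      simp only [mem_union, mem_ofPred_eq, not_or, not_not] at h'
      exact hj h'⟩
  isOpen_sUnion S hS := ⟨fun k => by
      have : {t : C | pt t k ∈ ⋃₀ S} = ⋃ U ∈ S, {t : C | pt t k ∈ U} := by
        ext t; simp
      rw [this]
      exact isOpen_biUnion fun U hU => (hS U hU).1 k,
    fun t k ⟨U, hU, h⟩ => ((hS U hU).2 t k h).subset fun j hj h' => hj ⟨U, hU, h'⟩⟩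

theorem open_iff {U : Set X} : IsOpen U ↔
    (∀ k, IsOpen {t : C | pt t k ∈ U}) ∧ ∀ t k, pt t k ∈ U → {j | pt t j ∉ U}.Finite := Iff.rfl

theorem pt_eta (x : X) : pt x.1 x.2 = x := rfl

theorem closed_of {S : Set X} (h1 : ∀ k, IsClosed {t : C | pt t k ∈ S})
    (h2 : ∀ t, {j | pt t j ∈ S}.Finite) : IsClosed S :=
  ⟨⟨fun k => (h1 k).isOpen_compl, fun t _ _ => (h2 t).subset fun _ hj => not_not.1 hj⟩⟩

theorem closed_match {S : Set X} (h1 : InjOn (fun x : X => x.1) S)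
    (h2 : InjOn (fun x : X => x.2) S) : IsClosed S := by
  refine closed_of (fun k => Set.Finite.isClosed (Set.Subsingleton.finite ?_))
    fun t => Set.Subsingleton.finite ?_
  · intro a ha b hb
    exact congrArg (fun x : X => x.1) (h2 ha hb rfl)
  · intro a ha b hb
    exact congrArg (fun x : X => x.2) (h1 ha hb rfl)

instance : T1Space X := ⟨fun _ => closed_match (injOn_singleton _ _) (injOn_singleton _ _)⟩

theorem cont_fst : Continuous fun x : X => x.1 :=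
  ⟨fun _ hV => ⟨fun _ => hV, fun _ _ h => Set.finite_empty.subset fun _ hj => hj h⟩⟩

theorem cont_pt (k : ℕ) : Continuous fun t : C => pt t k := ⟨fun _ hU => hU.1 k⟩

theorem closed_row (k : ℕ) : IsClosed {x : X | x.2 = k} := by
  refine closed_of (fun j => ?_) fun t => (Set.finite_singleton k).subset fun j hj => hj
  show IsClosed {_t : C | j = k}
  exact isClosed_const

theorem row_closed {L : Set X} (hL : IsCompact L) (k : ℕ) : IsClosed {t : C | pt t k ∈ L} := by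
  have := ((hL.inter_right (closed_row k)).image cont_fst).isClosed
  convert this using 1
  ext t
  constructor
  · exact fun h => ⟨pt t k, ⟨h, rfl⟩, rfl⟩
  · rintro ⟨x, ⟨h1, rfl⟩, rfl⟩
    exact h1

theorem struct {L : Set X} (hL : IsCompact L) :
    ∃ (R : Set ℕ) (T : Set C), R.Finite ∧ T.Finite ∧ ∀ x ∈ L, x.2 ∈ R ∨ x.1 ∈ T := by
  obtain ⟨M, hM⟩ := zorn_subset
    {M : Set X | M ⊆ L ∧ InjOn (fun x : X => x.1) M ∧ InjOn (fun x : X => x.2) M} (by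
      intro c hc hch
      refine ⟨⋃₀ c, ⟨sUnion_subset fun s hs => (hc hs).1, ?_, ?_⟩, fun s hs => subset_sUnion_of_mem hs⟩
      · rintro a ⟨s, hs, ha⟩ b ⟨s', hs', hb⟩ h
        rcases hch.total hs hs' with h' | h'
        · exact (hc hs').2.1 (h' ha) hb h
        · exact (hc hs).2.1 ha (h' hb) h
      · rintro a ⟨s, hs, ha⟩ b ⟨s', hs', hb⟩ h
        rcases hch.total hs hs' with h' | h'
        · exact (hc hs').2.2 (h' ha) hb h
        · exact (hc hs).2.2 ha (h' hb) h)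
  obtain ⟨⟨m1, m2, m3⟩, hmax⟩ := hM
  have hc : IsCompact M := hL.of_isClosed_subset (closed_match m2 m3) m1
  have hf : M.Finite := by
    obtain ⟨s, hs⟩ := hc.elim_finite_subcover (fun m : X => (M \ {m})ᶜ)
      (fun m => (closed_match (m2.mono sdiff_subset) (m3.mono sdiff_subset)).isOpen_compl)
      (fun m _ => mem_iUnion.2 ⟨m, fun h => h.2 rfl⟩)
    refine s.finite_toSet.subset fun m hm => ?_
    obtain ⟨i, hi, h⟩ := mem_iUnion₂.1 (hs hm)
    have : m = i := by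
      by_contra h'
      exact h ⟨hm, h'⟩
    exact this ▸ hi
  refine ⟨_, _, hf.image fun x : X => x.2, hf.image fun x : X => x.1, fun x hx => ?_⟩
  by_contra h
  push Not at h
  have hx' : x ∉ M := fun h' => h.1 ⟨x, h', rfl⟩
  have := hmax (y := insert x M) ⟨insert_subset hx m1, (injOn_insert hx').2 ⟨m2, h.2⟩,
    (injOn_insert hx').2 ⟨m3, h.1⟩⟩ (subset_insert _ _)
  exact hx' (this (mem_insert _ _))

theorem fin_lb {α ι : Type} {S : Set (Set α)} (hne : S.Nonempty)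
    (hd : ∀ a ∈ S, ∀ b ∈ S, ∃ c ∈ S, c ⊆ a ∩ b) {s : Set ι} (hs : s.Finite)
    (P : ι → Set α → Prop) (anti : ∀ i L M, M ⊆ L → P i L → P i M)
    (ex : ∀ i ∈ s, ∃ L ∈ S, P i L) : ∃ L ∈ S, ∀ i ∈ s, P i L := by
  induction s, hs using Set.Finite.induction_on with
  | empty => obtain ⟨L, hL⟩ := hne; exact ⟨L, hL, by simp⟩
  | insert _ _ ih =>
    obtain ⟨L, hL, h⟩ := ih fun i hi => ex i (mem_insert_of_mem _ hi)
    obtain ⟨M, hM, h'⟩ := ex _ (mem_insert _ _)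
    obtain ⟨N, hN, hs⟩ := hd L hL M hM
    refine ⟨N, hN, ?_⟩
    rintro i (rfl | hi)
    · exact anti _ _ _ (hs.trans inter_subset_right) h'
    · exact anti _ _ _ (hs.trans inter_subset_left) (h i hi)

def Full (K : Set X) : Prop := IsCompact K ∧ ∀ t, ∃ k, pt t k ∈ K

theorem key1 {S : Set (Set X)} (hne : S.Nonempty)
    (hd : ∀ a ∈ S, ∀ b ∈ S, ∃ c ∈ S, c ⊆ a ∩ b) (hf : ∀ L ∈ S, Full L) (t : C) :
    ∃ k, pt t k ∈ ⋂₀ S := by
  obtain ⟨L0, h0⟩ := hne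
  obtain ⟨R, T, hR, hT, h⟩ := struct (hf L0 h0).1
  by_contra hc
  push Not at hc
  obtain ⟨L, hL, h1⟩ := fin_lb ⟨L0, h0⟩ hd hR (fun k L => pt t k ∉ L)
    (fun i L M hM h1 h2 => h1 (hM h2)) (fun k _ => by simpa using hc k)
  obtain ⟨N, hN, hs⟩ := hd L hL L0 h0
  have cl : IsClosed (⋃ k ∈ R, {t : C | pt t k ∈ N}) :=
    hR.isClosed_biUnion fun k _ => row_closed (hf N hN).1 k
  have dn : Dense (⋃ k ∈ R, {t : C | pt t k ∈ N}) := by
    refine (dense_univ.sdiff_finite hT).mono fun u hu => ?_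
    obtain ⟨k, hk⟩ := (hf N hN).2 u
    rcases h _ (hs hk).2 with h' | h'
    · exact mem_iUnion₂.2 ⟨k, h', hk⟩
    · exact absurd h' hu.2
  have : t ∈ ⋃ k ∈ R, {t : C | pt t k ∈ N} := by
    rw [← cl.closure_eq]; exact dn t
  obtain ⟨k, hk, h'⟩ := mem_iUnion₂.1 this
  exact h1 k hk (hs h').1

theorem key2 {S : Set (Set X)} (hne : S.Nonempty)
    (hd : ∀ a ∈ S, ∀ b ∈ S, ∃ c ∈ S, c ⊆ a ∩ b) (hf : ∀ L ∈ S, Full L) {U : Set X}
    (hU : IsOpen U) (hs : ⋂₀ S ⊆ U) : ∃ L ∈ S, L ⊆ U := by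
  obtain ⟨L0, h0⟩ := hne
  obtain ⟨R, T, hR, hT, h⟩ := struct (hf L0 h0).1
  have fin : ∀ t, {j | pt t j ∉ U}.Finite := fun t => by
    obtain ⟨k, hk⟩ := key1 ⟨L0, h0⟩ hd hf t
    exact hU.2 t k (hs hk)
  have hR' : (R ∪ ⋃ t ∈ T, {j | pt t j ∉ U}).Finite := hR.union (hT.biUnion fun t _ => fin t)
  obtain ⟨L, hL, h1⟩ := fin_lb ⟨L0, h0⟩ hd hR' (fun k L => ∀ t, pt t k ∈ L → pt t k ∈ U)
    (fun i L M hM h1 t h2 => h1 t (hM h2)) (fun k _ => by
      have _ : Nonempty S := ⟨⟨L0, h0⟩⟩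
      obtain ⟨i, hi⟩ := (hU.1 k).isClosed_compl.isCompact.elim_directed_family_closed
        (fun i : S => {t : C | pt t k ∈ i.1}) (fun i => row_closed (hf i.1 i.2).1 k)
        (by
          refine eq_empty_of_forall_notMem fun t ⟨h1, h2⟩ => h1 (hs fun L hL => ?_)
          exact mem_iInter.1 h2 ⟨L, hL⟩)
        (fun a b => by
          obtain ⟨c, hc, h⟩ := hd a.1 a.2 b.1 b.2
          exact ⟨⟨c, hc⟩, fun t ht => (h ht).1, fun t ht => (h ht).2⟩)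
      refine ⟨i.1, i.2, fun t ht => ?_⟩
      by_contra h'
      exact (eq_empty_iff_forall_notMem.1 hi t) ⟨h', ht⟩)
  obtain ⟨N, hN, hs'⟩ := hd L hL L0 h0
  refine ⟨N, hN, fun x hx => ?_⟩
  by_contra hx'
  refine hx' (h1 x.2 ?_ x.1 (hs' hx).1)
  rcases h _ (hs' hx).2 with h' | h'
  · exact Or.inl h'
  · exact Or.inr (mem_iUnion₂.2 ⟨x.1, h', hx'⟩)

theorem key3 {S : Set (Set X)} (hne : S.Nonempty)
    (hd : ∀ a ∈ S, ∀ b ∈ S, ∃ c ∈ S, c ⊆ a ∩ b) (hf : ∀ L ∈ S, Full L) : Full (⋂₀ S) := by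
  refine ⟨isCompact_of_finite_subcover fun {ι} U hU hc => ?_, key1 hne hd hf⟩
  obtain ⟨L, hL, h⟩ := key2 hne hd hf (isOpen_iUnion hU) hc
  obtain ⟨s, hs⟩ := (hf L hL).1.elim_finite_subcover U hU h
  exact ⟨s, (sInter_subset_of_mem hL).trans hs⟩

theorem exists_full {U : Set X} (hU : IsOpen U) (h : ∀ t, ∃ k, pt t k ∈ U) :
    ∃ K, Full K ∧ K ⊆ U := by
  choose k hk using h
  have : ∀ t : C, ∃ N ∈ 𝓝 t, IsClosed N ∧ N ⊆ {u : C | pt u (k t) ∈ U} := fun t =>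
    exists_mem_nhds_isClosed_subset ((hU.1 (k t)).mem_nhds (hk t))
  choose N h1 h2 h3 using this
  obtain ⟨s, -, hs⟩ := isCompact_univ.elim_nhds_subcover N fun t _ => h1 t
  refine ⟨⋃ t ∈ s, (fun u => pt u (k t)) '' N t, ⟨s.isCompact_biUnion fun t _ =>
    (h2 t).isCompact.image (cont_pt _), fun u => ?_⟩, ?_⟩
  · obtain ⟨t, ht, hu⟩ := mem_iUnion₂.1 (hs (mem_univ u))
    exact ⟨k t, mem_iUnion₂.2 ⟨t, ht, u, hu, rfl⟩⟩
  · refine iUnion₂_subset fun t _ => ?_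
    rintro _ ⟨u, hu, rfl⟩
    exact h3 t hu

def Y : Type := {K : Set X // K = ∅ ∨ Full K}

instance : TopologicalSpace Y where
  IsOpen W := ∀ K ∈ W, ∃ U : Set X, IsOpen U ∧ K.1 ⊆ U ∧ ∀ M : Y, M.1 ⊆ U → M ∈ W
  isOpen_univ := fun _ _ => ⟨univ, isOpen_univ, subset_univ _, fun _ _ => mem_univ _⟩
  isOpen_inter V W hV hW K hK := by
    obtain ⟨U, h1, h2, h3⟩ := hV K hK.1
    obtain ⟨U', h1', h2', h3'⟩ := hW K hK.2
    exact ⟨U ∩ U', h1.inter h1', subset_inter h2 h2', fun M hM =>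
      ⟨h3 M (hM.trans inter_subset_left), h3' M (hM.trans inter_subset_right)⟩⟩
  isOpen_sUnion S hS K := by
    rintro ⟨W, hW, hK⟩
    obtain ⟨U, h1, h2, h3⟩ := hS W hW K hK
    exact ⟨U, h1, h2, fun M hM => ⟨W, hW, h3 M hM⟩⟩

theorem box_open {U : Set X} (hU : IsOpen U) : IsOpen {K : Y | K.1 ⊆ U} :=
  fun _ hK => ⟨U, hU, hK, fun _ h => h⟩

theorem dia_closed (x : X) : IsClosed {K : Y | x ∈ K.1} := by
  refine ⟨?_⟩
  convert box_open (isOpen_compl_singleton (x := x)) using 1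
  ext K; simp

theorem compY (K : Y) : IsCompact K.1 := by
  rcases K.2 with h | h
  · rw [h]; exact isCompact_empty
  · exact h.1

instance : T0Space Y := t0Space_iff_inseparable Y |>.2 fun K M h => by
  apply Subtype.ext
  ext x
  exact h.mem_closed_iff (dia_closed x)

theorem union_compact {W : Set Y} (hW : IsCompact W) : IsCompact (⋃ K ∈ W, K.1) := by
  classical
  refine isCompact_of_finite_subcover fun {ι} U hU hc => ?_
  obtain ⟨s, hs⟩ := hW.elim_directed_cover (fun s : Finset ι => {K : Y | K.1 ⊆ ⋃ i ∈ s, U i})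
    (fun s => box_open (isOpen_biUnion fun i _ => hU i))
    (fun K hK => mem_iUnion.2 ((compY K).elim_finite_subcover U hU
      ((subset_biUnion_of_mem (u := fun K : Y => K.1) hK).trans hc)))
    (fun a b => ⟨a ∪ b, fun K hK => hK.trans (biUnion_subset_biUnion_left Finset.subset_union_left),
      fun K hK => hK.trans (biUnion_subset_biUnion_left Finset.subset_union_right)⟩)
  exact ⟨s, iUnion₂_subset fun K hK => hs hK⟩

theorem wfY (𝒦 : Set (Set Y)) (U : Set Y)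
    (hK : ∀ K ∈ 𝒦, IsCompact K ∧ ∀ y : Y, (∀ V : Set Y, IsOpen V → K ⊆ V → y ∈ V) → y ∈ K)
    (hne : 𝒦.Nonempty) (hd : ∀ K₁ ∈ 𝒦, ∀ K₂ ∈ 𝒦, ∃ K₃ ∈ 𝒦, K₃ ⊆ K₁ ∩ K₂)
    (hU : IsOpen U) (hs : ⋂₀ 𝒦 ⊆ U) : ∃ K ∈ 𝒦, K ⊆ U := by
  by_contra hc
  push Not at hc
  have up : ∀ K ∈ 𝒦, ∀ a ∈ K, ∀ b : Y, b.1 ⊆ a.1 → b ∈ K := fun K h a ha b hb =>
    (hK K h).2 b fun V hV hKV => by
      obtain ⟨W, -, h2, h3⟩ := hV a (hKV ha)
      exact h3 b (hb.trans h2)
  have e0 : (⟨∅, Or.inl rfl⟩ : Y) ∈ U := hs fun K h => by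
    obtain ⟨a, ha, -⟩ := not_subset.1 (hc K h)
    exact up K h a ha _ (empty_subset _)
  obtain ⟨D, hD, ⟨dc, dm⟩, hmin⟩ := zorn_superset_nonempty
    {D : Set Y | IsClosed D ∧ ∀ K ∈ 𝒦, (K ∩ D).Nonempty} (by
      intro c hc hch hcn
      refine ⟨⋂₀ c, ⟨isClosed_sInter fun s hs => (hc hs).1, fun K h => ?_⟩,
        fun s hs => sInter_subset_of_mem hs⟩
      by_contra h'
      have _ : Nonempty c := hcn.to_subtype
      obtain ⟨i, hi⟩ := (hK K h).1.elim_directed_family_closed (fun i : c => i.1)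
        (fun i => (hc i.2).1)
        (by rw [← sInter_eq_iInter]; exact Set.not_nonempty_iff_eq_empty.1 h')
        (fun a b => by
          rcases hch.total a.2 b.2 with h | h
          · exact ⟨a, subset_rfl, h⟩
          · exact ⟨b, h, subset_rfl⟩)
      exact ((hc i.2).2 K h).ne_empty hi)
    Uᶜ ⟨hU.isClosed_compl, fun K h => not_subset.1 (hc K h)⟩
  have full : ∀ a ∈ D, Full a.1 := fun a ha => a.2.resolve_left fun h =>
    hD ha (by rw [show a = ⟨∅, Or.inl rfl⟩ from Subtype.ext h]; exact e0)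
  let L : Set Y → Set X := fun K => ⋃ a ∈ K ∩ D, a.1
  have Lm : ∀ K K', K ⊆ K' → L K ⊆ L K' := fun K K' h =>
    biUnion_subset_biUnion_left (inter_subset_inter_left _ h)
  have sub : ∀ K, ∀ a ∈ K ∩ D, a.1 ⊆ L K := fun K a ha =>
    subset_biUnion_of_mem (u := fun K : Y => K.1) ha
  have s1 : (L '' 𝒦).Nonempty := hne.image _
  have s2 : ∀ a ∈ L '' 𝒦, ∀ b ∈ L '' 𝒦, ∃ c ∈ L '' 𝒦, c ⊆ a ∩ b := by
    rintro _ ⟨a, ha, rfl⟩ _ ⟨b, hb, rfl⟩
    obtain ⟨c, hc, h⟩ := hd a ha b hb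
    exact ⟨L c, ⟨c, hc, rfl⟩, subset_inter (Lm _ _ (h.trans inter_subset_left))
      (Lm _ _ (h.trans inter_subset_right))⟩
  have s3 : ∀ a ∈ L '' 𝒦, Full a := by
    rintro _ ⟨K, h, rfl⟩
    refine ⟨union_compact ((hK K h).1.inter_right dc), fun t => ?_⟩
    obtain ⟨a, ha⟩ := dm K h
    obtain ⟨k, hk⟩ := (full a ha.2).2 t
    exact ⟨k, sub K a ha hk⟩
  let Z : Y := ⟨⋂₀ (L '' 𝒦), Or.inr (key3 s1 s2 s3)⟩
  have zD : Z ∈ D := by
    by_contra h
    obtain ⟨W, h1, h2, h3⟩ := dc.isOpen_compl Z h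
    obtain ⟨_, ⟨K, hK', rfl⟩, h4⟩ := key2 s1 s2 s3 h1 h2
    obtain ⟨a, ha⟩ := dm K hK'
    exact h3 a ((sub K a ha).trans h4) ha.2
  refine hD zD (hs fun K h => ?_)
  obtain ⟨a, ha⟩ := dm K h
  refine up K h a ha.1 Z fun x hx => ?_
  have := hmin (y := D ∩ {K : Y | x ∈ K.1}) ⟨dc.inter (dia_closed x), fun K' h' => by
    obtain ⟨b, hb, hxb⟩ := mem_iUnion₂.1 (hx (L K') ⟨K', h', rfl⟩)
    exact ⟨b, hb.1, hb.2, hxb⟩⟩ inter_subset_left
  exact (this ha.2).2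

theorem wfdX (A : Set X) (hA : IsClosed A) (hi : IsIrreducible A) (Z : Type) [TopologicalSpace Z]
    (f : X → Z) (wf : ∀ (𝒦 : Set (Set Z)) (U : Set Z),
      (∀ K ∈ 𝒦, IsCompact K ∧ ∀ y : Z, (∀ V : Set Z, IsOpen V → K ⊆ V → y ∈ V) → y ∈ K) →
      𝒦.Nonempty → (∀ K₁ ∈ 𝒦, ∀ K₂ ∈ 𝒦, ∃ K₃ ∈ 𝒦, K₃ ⊆ K₁ ∩ K₂) →
      IsOpen U → ⋂₀ 𝒦 ⊆ U → ∃ K ∈ 𝒦, K ⊆ U) (hf : Continuous f) :
    ∃ y : Z, closure (f '' A) = closure {y} := by
  obtain ⟨a, ha⟩ := hi.nonempty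
  have fib : ∀ b ∈ A, b.1 = a.1 := fun b hb =>
    (hi.image _ cont_fst.continuousOn).isPreirreducible.subsingleton ⟨b, hb, rfl⟩ ⟨a, ha, rfl⟩
  by_cases hfin : {j | pt a.1 j ∈ A}.Finite
  · have hAf : A.Finite := (hfin.image (pt a.1)).subset fun b hb =>
      ⟨b.2, by show pt a.1 b.2 ∈ A; rw [← fib b hb]; exact hb, by rw [← fib b hb]; rfl⟩
    have : A = {a} := by
      refine eq_singleton_iff_unique_mem.2 ⟨ha, fun b hb => ?_⟩
      by_contra h
      obtain ⟨c, hc, h1, h2⟩ := hi.isPreirreducible _ _ (hAf.subset (sdiff_subset (t := {a}))).isClosed.isOpen_compl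
        (isOpen_compl_singleton (x := a)) ⟨a, ha, fun h => h.2 rfl⟩ ⟨b, hb, h⟩
      exact h1 ⟨hc, h2⟩
    exact ⟨f a, by rw [this, image_singleton]⟩
  · have all : ∀ B : Set X, IsClosed B → ¬ {j | pt a.1 j ∈ B}.Finite → ∀ j, pt a.1 j ∈ B :=
      fun B hB h j => by
        by_contra h'
        exact h ((hB.isOpen_compl.2 a.1 j h').subset fun i hi h'' => h'' hi)
    let T : ℕ → Set X := fun n => pt a.1 '' Ici n
    have Tc : ∀ n, IsCompact (T n) := fun n => by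
      classical
      refine isCompact_of_finite_subcover fun {ι} U hU hc => ?_
      obtain ⟨i, hi⟩ := mem_iUnion.1 (hc ⟨n, self_mem_Ici, rfl⟩)
      have h1 := ((hU i).2 _ _ hi).inter_of_left (Ici n)
      obtain ⟨s, hs⟩ := (h1.image (pt a.1)).isCompact.elim_finite_subcover U hU
        ((image_mono inter_subset_right).trans hc)
      refine ⟨insert i s, ?_⟩
      rintro _ ⟨j, hj, rfl⟩
      by_cases h : pt a.1 j ∈ U i
      · exact mem_iUnion₂.2 ⟨i, Finset.mem_insert_self _ _, h⟩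
      · obtain ⟨l, hl, h'⟩ := mem_iUnion₂.1 (hs ⟨j, ⟨h, hj⟩, rfl⟩)
        exact mem_iUnion₂.2 ⟨l, Finset.mem_insert_of_mem hl, h'⟩
    let K : ℕ → Set Z := fun n => nhdsKer (f '' T n)
    have Ka : Antitone K := fun m n h => nhdsKer_mono (image_mono (image_mono (Ici_subset_Ici.2 h)))
    by_contra hc
    obtain ⟨_, ⟨n, rfl⟩, hn⟩ := wf (range K) (closure (f '' A))ᶜ
      (by
        rintro _ ⟨n, rfl⟩
        refine ⟨((Tc n).image hf).nhdsKer, fun y hy => ?_⟩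
        show y ∈ nhdsKer _
        rw [nhdsKer_def]
        rintro V ⟨h1, h2⟩
        exact hy V h1 (h1.nhdsKer_subset.2 h2))
      (range_nonempty _)
      (by
        rintro _ ⟨m, rfl⟩ _ ⟨n, rfl⟩
        exact ⟨K (max m n), ⟨_, rfl⟩, subset_inter (Ka (le_max_left _ _)) (Ka (le_max_right _ _))⟩)
      isClosed_closure.isOpen_compl
      (by
        intro y hy hy'
        refine hc ⟨y, subset_antisymm (closure_minimal ?_ isClosed_closure)
          (closure_minimal (singleton_subset_iff.2 hy') isClosed_closure)⟩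
        rintro _ ⟨b, hb, rfl⟩
        have := all (f ⁻¹' closure {y}) (isClosed_closure.preimage hf) (fun h => by
          obtain ⟨n, hn⟩ := h.bddAbove
          obtain ⟨_, ⟨_, ⟨j, hj, rfl⟩, rfl⟩, h2⟩ := mem_nhdsKer_iff_specializes.1 (hy _ ⟨n + 1, rfl⟩)
          have : j ≤ n := hn (specializes_iff_mem_closure.1 h2)
          have : n + 1 ≤ j := hj
          omega) b.2
        rw [← fib b hb] at this
        exact this)
    exact hn (subset_nhdsKer ⟨_, ⟨n, self_mem_Ici, rfl⟩, rfl⟩)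
      (subset_closure ⟨_, all A hA hfin n, rfl⟩)

abbrev P : Type := {K : Set X // K.Nonempty ∧ IsCompact K ∧
  ∀ x : X, (∀ V : Set X, IsOpen V → K ⊆ V → x ∈ V) → x ∈ K}

instance tP : TopologicalSpace P :=
  TopologicalSpace.generateFrom {S | ∃ U : Set X, IsOpen U ∧ S = {K | K.1 ⊆ U}}

theorem boxP {U : Set X} (hU : IsOpen U) : IsOpen[tP] {K : P | K.1 ⊆ U} :=
  TopologicalSpace.GenerateOpen.basic _ ⟨U, hU, rfl⟩

theorem openP {W : Set P} : IsOpen[tP] W ↔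
    ∀ K ∈ W, ∃ U : Set X, IsOpen U ∧ K.1 ⊆ U ∧ ∀ M : P, M.1 ⊆ U → M ∈ W := by
  constructor
  · intro h
    induction h with
    | basic s hs =>
      obtain ⟨U, hU, rfl⟩ := hs
      exact fun _ hK => ⟨U, hU, hK, fun _ h => h⟩
    | univ => exact fun _ _ => ⟨univ, isOpen_univ, subset_univ _, fun _ _ => mem_univ _⟩
    | inter V W _ _ hV hW =>
      intro K hK
      obtain ⟨U, h1, h2, h3⟩ := hV K hK.1
      obtain ⟨U', h1', h2', h3'⟩ := hW K hK.2
      exact ⟨U ∩ U', h1.inter h1', subset_inter h2 h2', fun M hM =>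
        ⟨h3 M (hM.trans inter_subset_left), h3' M (hM.trans inter_subset_right)⟩⟩
    | sUnion S _ hS =>
      rintro K ⟨W, hW, hK⟩
      obtain ⟨U, h1, h2, h3⟩ := hS W hW K hK
      exact ⟨U, h1, h2, fun M hM => ⟨W, hW, h3 M hM⟩⟩
  · intro h
    refine @isOpen_iff_forall_mem_open _ tP _ |>.2 fun K hK => ?_
    obtain ⟨U, h1, h2, h3⟩ := h K hK
    exact ⟨_, h3, boxP h1, h2⟩

def mkP (K : Set X) (h : Full K) : P := ⟨K, ⟨_, (h.2 0).choose_spec⟩, h.1, fun x hx => by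
  by_contra h'
  exact hx {x}ᶜ isOpen_compl_singleton (subset_compl_singleton_iff.2 h') rfl⟩

def AA : Set P := {K | Full K.1}

theorem notA {K : P} (h : K ∉ AA) :
    ∃ U : Set X, IsOpen U ∧ K.1 ⊆ U ∧ ∀ M : P, M.1 ⊆ U → M ∉ AA := by
  have : ¬ ∀ t, ∃ k, pt t k ∈ K.1 := fun h' => h ⟨K.2.2.1, h'⟩
  push Not at this
  obtain ⟨t, ht⟩ := this
  refine ⟨(fun x : X => x.1) ⁻¹' {t}ᶜ, isOpen_compl_singleton.preimage cont_fst,
    fun x hx h' => ht x.2 (by rw [← show x.1 = t from h']; exact hx), fun M hM h' => ?_⟩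
  obtain ⟨k, hk⟩ := h'.2 t
  exact hM hk rfl

theorem closedA : IsClosed[tP] AA := @IsClosed.mk _ tP _ (openP.2 fun _ h => notA h)

theorem irrA : @IsIrreducible P tP AA := by
  obtain ⟨K, hK, -⟩ := exists_full isOpen_univ fun _ => ⟨0, mem_univ _⟩
  refine ⟨⟨mkP K hK, hK⟩, ?_⟩
  rintro V W hV hW ⟨a, ha, haV⟩ ⟨b, hb, hbW⟩
  obtain ⟨U, h1, h2, h3⟩ := openP.1 hV a haV
  obtain ⟨U', h1', h2', h3'⟩ := openP.1 hW b hbW
  obtain ⟨M, hM, h⟩ := exists_full (h1.inter h1') fun t => by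
    obtain ⟨k, hk⟩ := ha.2 t
    obtain ⟨l, hl⟩ := hb.2 t
    obtain ⟨j, hj⟩ := ((h1.2 t k (h2 hk)).union (h1'.2 t l (h2' hl))).exists_notMem
    simp only [mem_union, mem_ofPred_eq, not_or, not_not] at hj
    exact ⟨j, hj⟩
  exact ⟨mkP M hM, hM, h3 _ (h.trans inter_subset_left), h3' _ (h.trans inter_subset_right)⟩

open Classical in
noncomputable def ff (K : P) : Y := if h : Full K.1 then ⟨K.1, Or.inr h⟩ else ⟨∅, Or.inl rfl⟩

theorem ff_pos {K : P} (h : Full K.1) : (ff K).1 = K.1 := by rw [ff, dif_pos h]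
theorem ff_neg {K : P} (h : ¬ Full K.1) : ff K = ⟨∅, Or.inl rfl⟩ := by rw [ff, dif_neg h]

theorem contf : @Continuous P Y tP _ ff := by
  refine @Continuous.mk _ _ tP _ _ fun W hW => openP.2 fun K hK => ?_
  by_cases h : Full K.1
  · obtain ⟨U, h1, h2, h3⟩ := hW _ hK
    rw [ff_pos h] at h2
    refine ⟨U, h1, h2, fun M hM => h3 _ ?_⟩
    by_cases h' : Full M.1
    · rwa [ff_pos h']
    · rw [ff_neg h']; exact empty_subset _
  · obtain ⟨U, h1, h2, h3⟩ := notA h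
    refine ⟨U, h1, h2, fun M hM => ?_⟩
    show ff M ∈ W
    rw [ff_neg (h3 M hM), ← ff_neg h]
    exact hK

theorem nopt : ¬ ∃ y : Y, closure (ff '' AA) = closure {y} := by
  rintro ⟨y, hy⟩
  have y1 : y ∈ closure (ff '' AA) := hy ▸ subset_closure rfl
  have y2 : y.1.Nonempty := by
    by_contra h
    obtain ⟨_, h1, K, hK, rfl⟩ := mem_closure_iff.1 y1 _ (box_open isOpen_empty)
      (not_nonempty_iff_eq_empty.1 h).subset
    have h1' : (ff K).1 ⊆ ∅ := h1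
    rw [ff_pos hK] at h1'
    obtain ⟨x, hx⟩ := K.2.1
    exact h1' hx
  obtain ⟨x, hx⟩ := y2
  obtain ⟨K, hK, h⟩ := exists_full (isOpen_compl_singleton (x := x)) fun t =>
    ⟨x.2 + 1, fun h => by
      have : x.2 + 1 = x.2 := congrArg (fun z : X => z.2) h
      omega⟩
  have : ff (mkP K hK) ∈ closure {y} := hy ▸ subset_closure ⟨_, hK, rfl⟩
  have h2 := closure_minimal (singleton_subset_iff.2 (show y ∈ {K : Y | x ∈ K.1} from hx))
    (dia_closed x) this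
  have h3 : x ∈ (ff (mkP K hK)).1 := h2
  rw [ff_pos hK] at h3
  exact h h3 rfl

end Pool.Agent.H29.Smyth
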