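import Mathlib
import Pool.Agent.H29.Foln

open Filter Topology Set

namespace Pool.Agent.H29.Tdc
open Pool.Agent.H29.Foln

/-- right invariant finitely additive probabilities -/
structure Mean {Γ : Type} [Group Γ] (m : Set Γ → ℝ) : Prop where
  nonneg : ∀ S, 0 ≤ m S
  add : ∀ S T, Disjoint S T → m (S ∪ T) = m S + m T
  univ : m univ = 1
  inv : ∀ S γ, m ((· * γ) ⁻¹' S) = m S

section
variable {Γ : Type} [Group Γ] {m : Set Γ → ℝ}

theorem Mean.empty (h : Mean m) : m ∅ = 0 := by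
  have := h.add ∅ ∅ (by simp)
  rw [union_self] at this; linarith

theorem Mean.mono (h : Mean m) {S T : Set Γ} (hST : S ⊆ T) : m S ≤ m T := by
  have := h.add S (T \ S) disjoint_sdiff_right
  rw [union_diff_cancel hST] at this
  linarith [h.nonneg (T \ S)]

theorem Mean.union_le (h : Mean m) (S T : Set Γ) : m (S ∪ T) ≤ m S + m T := by
  have := h.add S (T \ S) disjoint_sdiff_right
  rw [union_diff_self] at this
  linarith [h.mono (diff_subset (s := T) (t := S))]

theorem Mean.sum_le (h : Mean m) {ι : Type} (s : Finset ι) (f : ι → Set Γ) :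
    m (⋃ i ∈ s, f i) ≤ ∑ i ∈ s, m (f i) := by
  classical
  induction s using Finset.induction_on with
  | empty => simp [h.empty]
  | insert i s hi ih =>
    rw [Finset.set_biUnion_insert, Finset.sum_insert hi]
    linarith [h.union_le (f i) (⋃ i ∈ s, f i)]

theorem Mean.sum_eq (h : Mean m) {ι : Type} (s : Finset ι) (f : ι → Set Γ)
    (hd : ∀ i ∈ s, ∀ j ∈ s, i ≠ j → Disjoint (f i) (f j)) :
    m (⋃ i ∈ s, f i) = ∑ i ∈ s, m (f i) := by
  classical
  induction s using Finset.induction_on with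
  | empty => simp [h.empty]
  | insert i s hi ih =>
    rw [Finset.set_biUnion_insert, Finset.sum_insert hi, h.add, ih]
    · exact fun a ha b hb => hd a (Finset.mem_insert_of_mem ha) b (Finset.mem_insert_of_mem hb)
    · simp only [disjoint_iUnion_right]
      exact fun j hj => hd i (Finset.mem_insert_self _ _) j (Finset.mem_insert_of_mem hj)
        (fun e => hi (e ▸ hj))

theorem Mean.pre (h : Mean m) {Q : Type} [Group Q] [Finite Q] (π : Γ →* Q)
    (hπ : Function.Surjective π) (T : Set Q) : m (π ⁻¹' T) = T.ncard / Nat.card Q := by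
  classical
  have h1 : ∀ q, m (π ⁻¹' {q}) = m (π ⁻¹' {1}) := by
    intro q
    obtain ⟨γ, rfl⟩ := hπ q
    rw [← h.inv _ γ]
    congr 1; ext x; simp
  have h2 : ∀ T : Set Q, m (π ⁻¹' T) = T.ncard * m (π ⁻¹' {1}) := by
    intro T
    have e : π ⁻¹' T = ⋃ q ∈ (toFinite T).toFinset, π ⁻¹' {q} := by ext x; simp
    rw [e, h.sum_eq _ _ (fun i _ j _ hij => Disjoint.preimage _ (by simpa using hij)),
      Finset.sum_congr rfl fun q _ => h1 q, Finset.sum_const, nsmul_eq_mul,
      ncard_eq_toFinset_card T (toFinite T)]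
  have h3 := h2 Set.univ
  rw [preimage_univ, h.univ, ncard_univ] at h3
  have h4 : (0 : ℝ) < Nat.card Q := by exact_mod_cast Nat.card_pos
  rw [h2, eq_div_iff h4.ne', mul_assoc, mul_comm (m _), ← h3, mul_one]

end

variable {G : Type} [Group G]

/-- The degree of twisted commutativity. -/
noncomputable def tdc (X : Finset G) (φ : G →* G) : ℝ :=
  limsup (fun n : ℕ => ({p : G × G | p.1 ∈ ball X n ∧ p.2 ∈ ball X n ∧
    p.1 * p.2 = p.2 * φ p.1}.ncard : ℝ) / ((ball X n).ncard : ℝ) ^ 2) atTop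

/-- The degree of twisted commutativity of a finite group. -/
noncomputable def tdcF {F : Type} [Group F] (ψ : F →* F) : ℝ :=
  ({p : F × F | p.1 * p.2 = p.2 * ψ p.1}.ncard : ℝ) / (Nat.card F : ℝ) ^ 2

/-- The infimum over finite quotients. -/
noncomputable def I (φ : G →* G) : ℝ :=
  sInf {r | ∃ (N : Subgroup G) (_ : N.Normal) (h : N ≤ N.comap φ), N.FiniteIndex ∧
    r = tdcF (QuotientGroup.map N N φ h)}

/-- subgroups generated by powers -/
def P (G : Type) [Group G] (n : ℕ) : Subgroup G := Subgroup.closure (range fun g : G => g ^ n)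

theorem P_le (f : G →* G) (n : ℕ) : P G n ≤ (P G n).comap f := by
  rw [P, Subgroup.closure_le]
  rintro _ ⟨g, rfl⟩
  exact Subgroup.subset_closure ⟨f g, (map_pow f g n).symm⟩

instance (n : ℕ) : (P G n).Normal := ⟨fun x hx g => P_le (MulAut.conj g).toMonoidHom n hx⟩

theorem struct [Group.FG G] (H : Subgroup G) [H.Normal] [H.FiniteIndex] [IsMulCommutative H] :
    ∃ k : ℕ, 0 < k ∧ P G k ≤ H ∧ (∀ n, 0 < n → (P G n).FiniteIndex) ∧
      ∀ c ∈ P G k, c ≠ 1 → ∀ J : ℕ, ∀ᶠ n in atTop, ∀ i, 0 < i → i ≤ J → c ^ i ∉ P G (k * n) := by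
  let _ : CommGroup H := { (inferInstance : Group H) with mul_comm := fun a b => mul_comm' a b }
  have h1 : ∀ n, P G (H.index * n) ≤ (powMonoidHom (α := H) n).range.map H.subtype := by
    intro n
    rw [P, Subgroup.closure_le]
    rintro _ ⟨g, rfl⟩
    exact ⟨_, ⟨⟨_, H.pow_index_mem g⟩, rfl⟩, by simp [pow_mul]⟩
  obtain ⟨ι, j, _, _, p, hp, e, ⟨ψ⟩⟩ := CommGroup.equiv_free_prod_prod_multiplicative_zmod H
  have : ∀ i, NeZero (p i ^ e i) := fun i => ⟨pow_ne_zero _ (hp i).ne_zero⟩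
  set E := Nat.card ((i : ι) → Multiplicative (ZMod (p i ^ e i)))
  have hE : 0 < E := Nat.card_pos
  refine ⟨H.index * E, Nat.mul_pos (Nat.pos_of_ne_zero Subgroup.FiniteIndex.index_ne_zero) hE,
    (h1 E).trans (Subgroup.map_subtype_le _), fun n hn => ?_, fun c hc hc1 J => ?_⟩
  · have h2 := Subgroup.finiteIndex_range_powMonoidHom_of_fg H hn.ne'
    have h3 : ((powMonoidHom (α := H) n).range.map H.subtype).FiniteIndex :=
      ⟨by rw [Subgroup.index_map_subtype]
          exact mul_ne_zero h2.index_ne_zero Subgroup.FiniteIndex.index_ne_zero⟩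
    refine Subgroup.finiteIndex_of_le (H := (powMonoidHom (α := H) n).range.map H.subtype) ?_
    rintro _ ⟨_, ⟨x, rfl⟩, rfl⟩
    exact Subgroup.subset_closure ⟨x, rfl⟩
  · obtain ⟨_, ⟨d, rfl⟩, rfl⟩ := h1 E hc
    have h2 : (ψ (d ^ E)).1 ≠ 1 := by
      intro h
      apply hc1
      have : ψ (d ^ E) = 1 := Prod.ext h (by rw [map_pow]; exact pow_card_eq_one')
      rw [map_eq_one_iff _ ψ.injective] at this
      exact congrArg Subtype.val this
    obtain ⟨a, ha⟩ := Function.ne_iff.1 h2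
    set r := Multiplicative.toAdd ((ψ (d ^ E)).1 a) with hr
    have hr0 : r ≠ 0 := ha
    filter_upwards [eventually_gt_atTop (J * r.natAbs)] with n hn i hi hiJ hmem
    rw [mul_assoc] at hmem
    obtain ⟨_, ⟨d', rfl⟩, h3⟩ := h1 _ hmem
    have h4 : (d' ^ E) ^ n = (d ^ E) ^ i := by
      apply Subtype.ext
      rw [← pow_mul]; exact h3
    have h5 := congrArg (fun z => Multiplicative.toAdd ((ψ z).1 a)) h4
    simp only [map_pow ψ (d' ^ E), map_pow ψ (d ^ E), Prod.pow_fst, Pi.pow_apply, toAdd_pow,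
      nsmul_eq_mul, ← hr] at h5
    have h6 : n ∣ i * r.natAbs := by
      have := congrArg Int.natAbs h5
      simp only [Int.natAbs_mul, Int.natAbs_natCast] at this
      exact ⟨_, this.symm⟩
    have h7 := Nat.le_of_dvd (Nat.mul_pos hi (Int.natAbs_pos.2 hr0)) h6
    have := Nat.mul_le_mul_right r.natAbs hiJ
    omega

theorem mean_eq [Group.FG G] (H : Subgroup G) [H.Normal] [H.FiniteIndex] [IsMulCommutative H]
    (φ : G →* G) {m : Set (G × G) → ℝ} (hm : Mean m) :
    m {p | p.1 * p.2 = p.2 * φ p.1} = I φ := by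
  classical
  let w : G × G → G := fun p => (p.2 * φ p.1)⁻¹ * (p.1 * p.2)
  have hV : {p : G × G | p.1 * p.2 = p.2 * φ p.1} = {p | w p = 1} := by
    ext p; simp only [mem_ofPred_eq, w, inv_mul_eq_one]; exact eq_comm
  have hδ : ∀ (N : Subgroup G) [N.Normal] (h : N ≤ N.comap φ) [N.FiniteIndex],
      tdcF (QuotientGroup.map N N φ h) = m {p | w p ∈ N} := by
    intro N _ h _
    have := hm.pre ((QuotientGroup.mk' N).prodMap (QuotientGroup.mk' N))
      ((QuotientGroup.mk'_surjective N).prodMap (QuotientGroup.mk'_surjective N))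
      {p | p.1 * p.2 = p.2 * QuotientGroup.map N N φ h p.1}
    rw [tdcF, sq, ← Nat.cast_mul, ← Nat.card_prod, ← this]
    congr 1
    ext p
    simp only [mem_preimage, mem_ofPred_eq, w, ← QuotientGroup.eq]
    exact eq_comm
  obtain ⟨k, hk, hkH, hfi, hsep⟩ := struct H
  set A := P G k
  have hcomm : ∀ a ∈ A, ∀ b ∈ A, a * b = b * a := fun a ha b hb =>
    Subgroup.mul_comm_of_mem_isMulCommutative H (hkH ha) (hkH hb)
  have hn : A.Normal := inferInstance
  have hφ : ∀ a ∈ A, φ a ∈ A := fun a ha => P_le φ k ha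
  let L : G × G → G × G → G := fun p z =>
    (φ z.1)⁻¹ * ((φ p.1)⁻¹ * z.2⁻¹ * φ p.1) * ((p.2⁻¹ * z.1 * p.2) * z.2)
  have hL1 : ∀ p z : G × G, z.1 ∈ A → z.2 ∈ A → w p ∈ A → w (p * z) = w p * L p z := by
    intro p z h1 h2 h3
    have a1 : (φ z.1)⁻¹ * ((φ p.1)⁻¹ * z.2⁻¹ * φ p.1) ∈ A :=
      A.mul_mem (A.inv_mem (hφ _ h1)) (hn.conj_mem' _ (A.inv_mem h2) _)
    have := hcomm _ a1 _ h3
    simp only [L]
    rw [← mul_assoc (w p), ← this]
    simp only [w, Prod.fst_mul, Prod.snd_mul, map_mul]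
    group
  have hLA : ∀ p z : G × G, z.1 ∈ A → z.2 ∈ A → L p z ∈ A := fun p z h1 h2 =>
    A.mul_mem (A.mul_mem (A.inv_mem (hφ _ h1)) (hn.conj_mem' _ (A.inv_mem h2) _))
      (A.mul_mem (hn.conj_mem' _ h1 _) h2)
  have hconj : ∀ g a x, a ∈ A → x ∈ A → (g * a)⁻¹ * x * (g * a) = g⁻¹ * x * g := by
    intro g a x ha hx
    have := hcomm _ ha _ (hn.conj_mem' _ hx g)
    calc _ = a⁻¹ * (g⁻¹ * x * g * a) := by group
      _ = _ := by rw [← this]; group
  have hL2 : ∀ p y z : G × G, y.1 ∈ A → y.2 ∈ A → z.1 ∈ A → z.2 ∈ A → L (p * y) z = L p z := by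
    intro p y z h1 h2 h3 h4
    simp only [L, Prod.fst_mul, Prod.snd_mul, map_mul]
    rw [hconj _ _ _ (hφ _ h1) (A.inv_mem h4), hconj _ _ _ h2 h3]
  have hNA : ∀ n, P G (k * n) ≤ A := by
    intro n
    rw [P, Subgroup.closure_le]
    rintro _ ⟨g, rfl⟩
    exact Subgroup.subset_closure ⟨g ^ n, by simp only [← pow_mul, mul_comm]⟩
  let π : G × G → (G ⧸ A) × (G ⧸ A) := fun p => (p.1, p.2)
  have hπ : ∀ p p', π p = π p' → (p⁻¹ * p').1 ∈ A ∧ (p⁻¹ * p').2 ∈ A := fun p p' h =>
    ⟨QuotientGroup.eq.1 (congrArg Prod.fst h), QuotientGroup.eq.1 (congrArg Prod.snd h)⟩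
  have hE : ∀ (J : ℕ), 0 < J → ∀ q, ∀ᶠ n in atTop,
      m {p | π p = q ∧ w p ∈ P G (k * n) ∧ w p ≠ 1} ≤ 1 / J := by
    intro J hJ q
    have hJ' : (0 : ℝ) < J := by exact_mod_cast hJ
    by_cases h0 : ∃ p0, π p0 = q ∧ w p0 ∈ A ∧ w p0 ≠ 1
    swap
    · refine Eventually.of_forall fun n => ?_
      rw [show {p | π p = q ∧ w p ∈ P G (k * n) ∧ w p ≠ 1} = ∅ from
        eq_empty_of_forall_notMem fun p hp => h0 ⟨p, hp.1, hNA n hp.2.1, hp.2.2⟩, hm.empty]
      positivity
    obtain ⟨p0, rfl, h1, h2⟩ := h0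
    by_cases h3 : ∃ z : G × G, z.1 ∈ A ∧ z.2 ∈ A ∧ L p0 z ≠ 1
    · obtain ⟨z, z1, z2, hz⟩ := h3
      filter_upwards [hsep _ (hLA p0 z z1 z2) hz J] with n hn'
      set S := {p | π p = π p0 ∧ w p ∈ P G (k * n) ∧ w p ≠ 1}
      have h4 : ∀ p, π p0 = π p → w p ∈ A → ∀ i : ℕ, w (p * z ^ i) = w p * L p0 z ^ i := by
        intro p hp hw i
        have h5 : L p z = L p0 z := by
          rw [← hL2 p0 _ z (hπ _ _ hp).1 (hπ _ _ hp).2 z1 z2, mul_inv_cancel_left]
        induction i with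
        | zero => simp
        | succ i ih =>
          rw [pow_succ, ← mul_assoc, hL1 _ _ z1 z2
            (ih ▸ A.mul_mem hw (A.pow_mem (hLA p0 z z1 z2) i)), ih,
            hL2 p _ z (A.pow_mem z1 i) (A.pow_mem z2 i) z1 z2, h5, pow_succ, mul_assoc]
      have h5 : ∀ i j : ℕ, i < j → j < J → Disjoint ((· * z ^ i) ⁻¹' S) ((· * z ^ j) ⁻¹' S) := by
        intro i j hij hj
        rw [Set.disjoint_left]
        intro p a1 a2
        obtain ⟨d, rfl⟩ := Nat.exists_eq_add_of_lt hij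
        have a3 := h4 _ a1.1.symm (hNA n a1.2.1) (d + 1)
        have a4 : w (p * z ^ (i + d + 1)) ∈ P G (k * n) := a2.2.1
        rw [add_assoc, pow_add, ← mul_assoc, a3] at a4
        exact hn' (d + 1) (by omega) (by omega) ((Subgroup.mul_mem_cancel_left _ a1.2.1).1 a4)
      have h6 := hm.sum_eq (Finset.range J) (fun i => (· * z ^ i) ⁻¹' S) (fun i hi j hj hij => by
        rcases lt_or_gt_of_ne hij with h | h
        · exact h5 i j h (Finset.mem_range.1 hj)
        · exact (h5 j i h (Finset.mem_range.1 hi)).symm)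
      simp only [hm.inv, Finset.sum_const, Finset.card_range, nsmul_eq_mul] at h6
      rw [le_div_iff₀ hJ', mul_comm, ← h6, ← hm.univ]
      exact hm.mono (subset_univ _)
    · push Not at h3
      filter_upwards [hsep _ h1 h2 1] with n hn'
      rw [show {p | π p = π p0 ∧ w p ∈ P G (k * n) ∧ w p ≠ 1} = ∅ from
        eq_empty_of_forall_notMem fun p hp => ?_, hm.empty]
      · positivity
      have h4 := hπ _ _ hp.1.symm
      have h5 := hL1 p0 _ h4.1 h4.2 h1
      rw [h3 _ h4.1 h4.2, mul_inv_cancel_left, mul_one] at h5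
      exact hn' 1 one_pos le_rfl (by rw [pow_one, ← h5]; exact hp.2.1)
  rw [hV, I]
  symm
  refine csInf_eq_of_forall_ge_of_forall_gt_exists_lt
    ⟨_, ⊤, inferInstance, fun _ _ => trivial, inferInstance, rfl⟩ ?_ fun t ht => ?_
  · rintro _ ⟨N, _, h, _, rfl⟩
    rw [hδ]
    exact hm.mono fun p hp => by rw [mem_ofPred_eq, show w p = 1 from hp]; exact N.one_mem
  · have := hfi k hk
    let _ : Fintype ((G ⧸ A) × (G ⧸ A)) := Fintype.ofFinite _
    obtain ⟨J, hJ⟩ := exists_nat_gt (Fintype.card ((G ⧸ A) × (G ⧸ A)) / (t - m {p | w p = 1}))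
    have hJ0 : (0 : ℝ) < J := lt_of_le_of_lt (div_nonneg (Nat.cast_nonneg _) (by linarith)) hJ
    obtain ⟨n, hn1, hn2⟩ := ((eventually_gt_atTop 0).and
      (eventually_all.2 (hE J (by exact_mod_cast hJ0)))).exists
    have := hfi (k * n) (Nat.mul_pos hk hn1)
    refine ⟨_, ⟨P G (k * n), inferInstance, P_le φ _, this, rfl⟩, ?_⟩
    rw [hδ]
    have h1 : {p | w p ∈ P G (k * n)} ⊆ {p | w p = 1} ∪
        ⋃ q ∈ Finset.univ, {p | π p = q ∧ w p ∈ P G (k * n) ∧ w p ≠ 1} := by
      intro p hp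
      by_cases h : w p = 1
      · exact Or.inl h
      · exact Or.inr (mem_iUnion₂.2 ⟨π p, Finset.mem_univ _, rfl, hp, h⟩)
    have h2 := (hm.mono h1).trans (hm.union_le _ _)
    have h3 := (hm.sum_le Finset.univ _).trans (Finset.sum_le_sum fun q _ => hn2 q)
    rw [Finset.sum_const, nsmul_eq_mul, Finset.card_univ] at h3
    rw [div_lt_iff₀ (by linarith)] at hJ
    have h4 : (Fintype.card ((G ⧸ A) × (G ⧸ A)) : ℝ) * (1 / J) < t - m {p | w p = 1} := by
      rw [mul_one_div, div_lt_iff₀ hJ0]; linarith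
    linarith

theorem main (X : Finset G) (hX : Subgroup.closure (X : Set G) = ⊤) (H : Subgroup G)
    (hH : H.FiniteIndex) (hc : ∀ a ∈ H, ∀ b ∈ H, a * b = b * a) (φ : G →* G) : tdc X φ = I φ := by
  have : Group.FG G := ⟨⟨X, hX⟩⟩
  have : IsMulCommutative H.normalCore :=
    ⟨⟨fun a b => Subtype.ext (hc _ (H.normalCore_le a.2) _ (H.normalCore_le b.2))⟩⟩
  obtain ⟨C, hC⟩ := doubling hX H.normalCore
  have hr := ratio' (ratio hC)
  let D : ℕ → Set (G × G) := fun n => ball X n ×ˢ ball X n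
  have hD : ∀ n, (D n).Finite := fun n => (ball_fin n).prod (ball_fin n)
  have hDc : ∀ n, ((D n).ncard : ℝ) = b X n ^ 2 := fun n => by
    simp only [D, ncard_prod, b]; push_cast; ring
  let μ : Set (G × G) → ℕ → ℝ := fun S n => (D n ∩ S).ncard / b X n ^ 2
  have hb : ∀ n, 0 < b X n ^ 2 := fun n => pow_pos (b_pos n) 2
  have key : Tendsto (μ {p | p.1 * p.2 = p.2 * φ p.1}) atTop (𝓝 (I φ)) := by
    rw [tendsto_iff_ultrafilter]
    intro U hU
    have h1 : ∀ S, ∃ r, Tendsto (μ S) U (𝓝 r) := fun S => by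
      obtain ⟨r, -, h⟩ := (isCompact_Icc (a := (0 : ℝ)) (b := 1)).ultrafilter_le_nhds (U.map (μ S))
        (le_principal_iff.2 (Filter.mem_map.2 (Eventually.of_forall fun n => ⟨by positivity, by
          rw [div_le_one (hb n), ← hDc]
          exact_mod_cast ncard_le_ncard inter_subset_left (hD n)⟩)))
      exact ⟨r, h⟩
    choose m hm using h1
    have h2 : ∀ S γ, m ((· * γ) ⁻¹' S) ≤ m S := by
      intro S γ
      obtain ⟨k1, a1⟩ := exists_ball hX γ.1
      obtain ⟨k2, a2⟩ := exists_ball hX γ.2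
      have a3 := ((hr (k1 + k2)).pow 2).sub_const 1
      rw [one_pow, sub_self] at a3
      have a4 := (hm S).add (a3.mono_left hU)
      rw [add_zero] at a4
      refine le_of_tendsto_of_tendsto' (hm _) a4 fun n => ?_
      have a5 : D n ⊆ D (n + (k1 + k2)) := prod_mono (ball_mono (by omega)) (ball_mono (by omega))
      have a6 := ncard_le_ncard_of_injOn (s := D n ∩ (· * γ) ⁻¹' S)
        (t := (D n ∩ S) ∪ (D (n + (k1 + k2)) \ D n)) (· * γ) (fun p hp => by
          by_cases h : p * γ ∈ D n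
          · exact Or.inl ⟨h, hp.2⟩
          · exact Or.inr ⟨⟨ball_mono (by omega) (mul_mem hp.1.1 a1),
              ball_mono (by omega) (mul_mem hp.1.2 a2)⟩, h⟩)
        (mul_left_injective γ).injOn
        (((hD n).subset inter_subset_left).union ((hD _).subset diff_subset))
      have a7 := a6.trans (ncard_union_le _ _)
      rw [ncard_diff a5 (hD n)] at a7
      have a8 : ((D n ∩ (· * γ) ⁻¹' S).ncard : ℝ) ≤
          (D n ∩ S).ncard + (b X (n + (k1 + k2)) ^ 2 - b X n ^ 2) := by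
        rw [← hDc, ← hDc, ← Nat.cast_sub (ncard_le_ncard a5 (hD _))]; exact_mod_cast a7
      simp only [μ]
      rw [div_pow, div_sub_one (hb n).ne', ← add_div]
      exact div_le_div_of_nonneg_right a8 (hb n).le
    have hM : Mean m := by
      refine ⟨fun S => ge_of_tendsto' (hm S) fun n => by positivity, fun S T h => ?_, ?_,
        fun S γ => le_antisymm (h2 S γ) ?_⟩
      · refine tendsto_nhds_unique (hm _) (((hm S).add (hm T)).congr fun n => ?_)
        simp only [μ]
        rw [← add_div, inter_union_distrib_left, ncard_union_eq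
          (h.mono inter_subset_right inter_subset_right) ((hD n).subset inter_subset_left)
          ((hD n).subset inter_subset_left), Nat.cast_add]
      · refine tendsto_nhds_unique (hm _) (tendsto_const_nhds.congr fun n => ?_)
        simp only [μ, inter_univ, hDc, div_self (hb n).ne']
      · have := h2 ((· * γ) ⁻¹' S) γ⁻¹
        rwa [preimage_preimage, show (fun x : G × G => x * γ⁻¹ * γ) = id from
          funext fun x => by simp, preimage_id] at this
    rw [← mean_eq H.normalCore φ hM]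
    exact hm _
  refine Tendsto.limsup_eq (key.congr fun n => ?_)
  simp only [μ, b]
  congr 3
  ext p
  simp [D, and_assoc]

end Pool.Agent.H29.Tdc
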