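import Mathlib

open Matrix Finset

namespace Pool.Agent.H29.Twist

variable {F : Type} [Field F] {n : ℕ}

abbrev Mat (n : ℕ) (F : Type) := Matrix (Fin n) (Fin n) F

lemma fact (M : Mat n F) :
    (∃ (A : Matrix (Fin M.rank) (Fin n) F) (B : Matrix (Fin n) (Fin M.rank) F), A * M * B = 1) ∧
    ∃ (C : Matrix (Fin n) (Fin M.rank) F) (D : Matrix (Fin M.rank) (Fin n) F), M = C * D := by
  classical
  obtain ⟨V, U, e, ⟨V, rfl⟩, ⟨U, rfl⟩, h⟩ := exists_rank_normal_form M
  let J : Matrix (Fin n) (Fin M.rank) F := (fromRows 1 0).submatrix e id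
  let K : Matrix (Fin M.rank) (Fin n) F := (fromCols 1 0).submatrix id e
  have h1 : J * K = (fromBlocks 1 0 0 0).submatrix e e := by
    have := submatrix_mul_equiv (fromRows (1 : Matrix (Fin M.rank) (Fin M.rank) F)
      (0 : Matrix (Fin (Fintype.card (Fin n) - M.rank)) (Fin M.rank) F))
      (fromCols (1 : Matrix (Fin M.rank) (Fin M.rank) F)
      (0 : Matrix (Fin M.rank) (Fin (Fintype.card (Fin n) - M.rank)) F)) e (Equiv.refl _) e
    rw [fromRows_mul_fromCols] at this
    simpa using this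
  have h2 : K * J = 1 := by
    have := submatrix_mul_equiv (fromCols (1 : Matrix (Fin M.rank) (Fin M.rank) F)
      (0 : Matrix (Fin M.rank) (Fin (Fintype.card (Fin n) - M.rank)) F))
      (fromRows (1 : Matrix (Fin M.rank) (Fin M.rank) F)
      (0 : Matrix (Fin (Fintype.card (Fin n) - M.rank)) (Fin M.rank) F)) id e id
    rw [fromCols_mul_fromRows] at this
    exact this.trans (by simp)
  rw [← h1] at h
  refine ⟨⟨K * V.val, U.val * J, ?_⟩, (V⁻¹).val * J, K * (U⁻¹).val, ?_⟩
  · calc _ = K * (V.val * M * U.val) * J := by simp only [Matrix.mul_assoc]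
      _ = K * J * (K * J) := by rw [h]; simp only [Matrix.mul_assoc]
      _ = 1 := by rw [h2, Matrix.mul_one]
  · calc M = (V⁻¹).val * (V.val * M * U.val) * (U⁻¹).val := by
          rw [← mul_assoc, ← mul_assoc, Units.inv_mul, one_mul, mul_assoc, Units.mul_inv, mul_one]
      _ = _ := by rw [h]; simp only [Matrix.mul_assoc]

lemma rank_pos {M : Mat n F} (h : M ≠ 0) : 0 < M.rank := by
  obtain ⟨C, D, e⟩ := (fact M).2
  by_contra h0
  haveI : IsEmpty (Fin M.rank) := ⟨fun i => h0 i.pos⟩
  apply h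
  rw [e]; ext i j; simp [Matrix.mul_apply]

lemma lmul {z : Mat n F} {h : Mat n F}
    (hh : h ∈ AddSubmonoid.closure {y | ∃ a b : (Mat n F)ˣ, y = a.val * z * b.val})
    (a b : (Mat n F)ˣ) :
    a.val * h * b.val ∈ AddSubmonoid.closure {y | ∃ a b : (Mat n F)ˣ, y = a.val * z * b.val} := by
  induction hh using AddSubmonoid.closure_induction with
  | mem y hy =>
    obtain ⟨a', b', rfl⟩ := hy
    exact AddSubmonoid.subset_closure ⟨a * a', b' * b, by simp only [Units.val_mul, mul_assoc]⟩
  | zero => simp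
  | add x y _ _ h1 h2 => rw [mul_add, add_mul]; exact add_mem h1 h2

lemma sing (C : AddSubmonoid (Mat n F)) (m : Mat n F → Mat n F → Mat n F)
    (m1 : ∀ a : (Mat n F)ˣ, ∀ h ∈ C, m a.val h ∈ C) (m2 : ∀ a b h, m (a + b) h = m a h + m b h)
    (m3 : ∀ i k c h, m (single i i c) h = m (single i k c) (m (single k i 1) h) ∨
      m (single i i c) h = m (single k i 1) (m (single i k c) h)) (m4 : ∀ h, m 0 h = 0)
    (i j : Fin n) (c : F) : ∀ h ∈ C, m (single i j c) h ∈ C := by
  classical
  have off : ∀ i j c, i ≠ j → ∀ h ∈ C, m (single i j c) h ∈ C := by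
    intro i j c hij h hh
    obtain ⟨u, hu⟩ : IsUnit (transvection i j c) := by
      rw [isUnit_iff_isUnit_det, det_transvection_of_ne _ _ hij]; exact isUnit_one
    have : single i j c = u.val + (-1 : (Mat n F)ˣ).val := by
      rw [hu, transvection]; simp
    rw [this, m2]
    exact add_mem (m1 _ _ hh) (m1 _ _ hh)
  by_cases hij : i = j
  · subst hij
    intro h hh
    by_cases hk : ∃ k, k ≠ i
    · obtain ⟨k, hk⟩ := hk
      rcases m3 i k c h with e | e <;> rw [e]
      · exact off _ _ _ hk.symm _ (off _ _ _ hk _ hh)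
      · exact off _ _ _ hk _ (off _ _ _ hk.symm _ hh)
    · push Not at hk
      by_cases hc : c = 0
      · rw [hc, single_zero, m4]; exact zero_mem _
      · obtain ⟨u, hu⟩ : IsUnit (single i i c) := by
          have : single i i c = diagonal fun _ => c := by
            ext a b; rw [hk a, hk b]; simp
          rw [this, isUnit_iff_isUnit_det, det_diagonal]
          exact IsUnit.mk0 _ (prod_ne_zero_iff.2 fun _ _ => hc)
        rw [← hu]; exact m1 _ _ hh
  · exact off i j c hij

lemma span {z : Mat n F} (hz : z ≠ 0) (y : Mat n F) :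
    y ∈ AddSubmonoid.closure {y | ∃ a b : (Mat n F)ˣ, y = a.val * z * b.val} := by
  classical
  obtain ⟨p, r, h⟩ : ∃ p r, z p r ≠ 0 := by
    by_contra h; push Not at h; exact hz (by ext p r; exact h p r)
  rw [matrix_eq_sum_single y]
  refine sum_mem fun i _ => sum_mem fun j _ => ?_
  have e : single i j (y i j) = single i p (y i j / z p r) * z * single r j 1 := by
    rw [single_mul_mul_single]; congr 1; field_simp
  rw [e]
  refine sing _ (fun a h => h * a) (fun a h hh => by simpa using lmul hh 1 a)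
    (fun a b h => mul_add _ _ _) (fun i k c h => Or.inr (by
      simp only [mul_assoc, single_mul_single_same, mul_one])) (fun h => mul_zero _) r j 1 _ ?_
  refine sing _ (fun a h => a * h) (fun a h hh => by simpa using lmul hh a 1)
    (fun a b h => add_mul _ _ _) (fun i k c h => Or.inl (by
      simp only [← mul_assoc, single_mul_single_same, mul_one])) (fun h => zero_mul _) i p _ _ ?_
  exact AddSubmonoid.subset_closure ⟨1, 1, by simp⟩

def SS {μ : ℕ} (X : Fin μ → Set (Mat n F)) (a b : Fin μ → (Mat n F)ˣ) : Set (Mat n F) :=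
  {y | ∃ x : Fin μ → Mat n F, (∀ i, x i ∈ X i) ∧ ∑ i, (a i).val * x i * (b i).val = y}

lemma grow [Finite F] (μ : ℕ) : ∀ X : Fin μ → Set (Mat n F), (∀ i, 1 < (X i).ncard) →
    ∃ a b, SS X a b = Set.univ ∨ μ < (SS X a b).ncard := by
  induction μ with
  | zero =>
    intro X _
    refine ⟨1, 1, Or.inr ((Set.ncard_pos (Set.toFinite _)).2 ⟨0, 0, fun i => i.elim0, by simp⟩)⟩
  | succ μ ih =>
    intro X hX
    obtain ⟨a, b, h⟩ := ih (fun i => X i.succ) fun i => hX _
    obtain ⟨x, x', hx, hx', hne⟩ := (Set.one_lt_ncard_iff (Set.toFinite _)).1 (hX 0)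
    have step : ∀ (a0 b0 : (Mat n F)ˣ), ∀ v ∈ X 0, ∀ s ∈ SS (fun i => X i.succ) a b,
        a0.val * v * b0.val + s ∈ SS X (Fin.cons a0 a) (Fin.cons b0 b) := by
      rintro a0 b0 v hv _ ⟨y, hy, rfl⟩
      refine ⟨Fin.cons v y, fun i => Fin.cases hv (fun i => hy i) i, ?_⟩
      rw [Fin.sum_univ_succ]; simp
    by_cases hu : SS (fun i => X i.succ) a b = Set.univ
    · refine ⟨Fin.cons 1 a, Fin.cons 1 b, Or.inl (Set.eq_univ_of_forall fun y => ?_)⟩
      simpa using step 1 1 x hx (y - x) (by rw [hu]; trivial)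
    · have h := h.resolve_left hu
      obtain ⟨s0, hs0⟩ := (Set.ncard_pos (Set.toFinite _)).1 (Nat.zero_lt_of_lt h)
      have : ∃ a0 b0 : (Mat n F)ˣ, ∃ s ∈ SS (fun i => X i.succ) a b,
          a0.val * (x - x') * b0.val + s ∉ SS (fun i => X i.succ) a b := by
        by_contra hc
        push Not at hc
        apply hu
        have all : ∀ y, ∀ s ∈ SS (fun i => X i.succ) a b, y + s ∈ SS (fun i => X i.succ) a b := by
          intro y
          have hy := span (sub_ne_zero.2 hne) y
          induction hy using AddSubmonoid.closure_induction with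
          | mem y hy => obtain ⟨a', b', rfl⟩ := hy; exact hc a' b'
          | zero => simp
          | add y y' _ _ h1 h2 => intro s hs; rw [add_assoc]; exact h1 _ (h2 s hs)
        exact Set.eq_univ_of_forall fun y => by simpa using all (y - s0) s0 hs0
      obtain ⟨a0, b0, s, hs, hn⟩ := this
      refine ⟨Fin.cons a0 a, Fin.cons b0 b, Or.inr ?_⟩
      have hsub : insert (a0.val * x * b0.val + s)
          ((fun t => a0.val * x' * b0.val + t) '' SS (fun i => X i.succ) a b) ⊆
          SS X (Fin.cons a0 a) (Fin.cons b0 b) := by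
        rintro _ (rfl | ⟨t, ht, rfl⟩)
        · exact step _ _ _ hx _ hs
        · exact step _ _ _ hx' _ ht
      have := Set.ncard_le_ncard hsub (Set.toFinite _)
      rw [Set.ncard_insert_of_notMem _ (Set.toFinite _),
        Set.ncard_image_of_injective _ (add_right_injective _)] at this
      · omega
      · rintro ⟨t, ht, e⟩
        apply hn
        have : a0.val * (x - x') * b0.val + s = t := by
          simp only at e
          rw [mul_sub, sub_mul, sub_add_eq_add_sub, ← e]; abel
        rwa [this]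

variable [Fintype F]

lemma card_mat (r s : ℕ) :
    Fintype.card (Matrix (Fin r) (Fin s) F) = Fintype.card F ^ (r * s) := by
  rw [Fintype.card_congr (Matrix.of (m := Fin r) (n := Fin s) (α := F)).symm]
  simp [← pow_mul, mul_comm]

open Classical in
lemma cnt (s : ℕ) : (univ.filter fun z : Mat n F => z.rank ≤ s).card ≤
    Fintype.card F ^ (2 * n * s) := by
  have : (univ.filter fun z : Mat n F => z.rank ≤ s) ⊆ univ.image
      fun p : Matrix (Fin n) (Fin s) F × Matrix (Fin s) (Fin n) F => p.1 * p.2 := by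
    intro z hz
    have hs := (mem_filter.1 hz).2
    obtain ⟨C, D, e⟩ := (fact z).2
    have h1 := submatrix_mul_equiv (1 : Matrix (Fin s) (Fin s) F) (1 : Matrix (Fin s) (Fin s) F)
      (Fin.castLE hs) (Equiv.refl _) (Fin.castLE hs)
    rw [Matrix.mul_one, submatrix_one _ (Fin.castLE_injective hs)] at h1
    refine mem_image.2 ⟨(C * (1 : Matrix (Fin s) (Fin s) F).submatrix (Fin.castLE hs) (Equiv.refl _),
      (1 : Matrix (Fin s) (Fin s) F).submatrix (Equiv.refl _) (Fin.castLE hs) * D), mem_univ _, ?_⟩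
    simp only
    rw [Matrix.mul_assoc, ← Matrix.mul_assoc _ _ D, h1, Matrix.one_mul, ← e]
  refine (card_le_card this).trans (card_image_le.trans (le_of_eq ?_))
  rw [card_univ, Fintype.card_prod, card_mat, card_mat, ← pow_add]
  congr 1; ring

open Classical in
lemma ker (M z : Mat n F) : (univ.filter fun a : Mat n F => M * a * z = 0).card *
    Fintype.card F ^ (M.rank * z.rank) ≤ Fintype.card (Mat n F) := by
  obtain ⟨A, B, h⟩ := (fact M).1
  obtain ⟨A', B', h'⟩ := (fact z).1
  rw [← card_mat, ← card_univ, ← card_product, ← card_univ]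
  refine card_le_card_of_injOn (fun p => p.1 + B * p.2 * A') (fun _ _ => mem_coe.2 (mem_univ _)) ?_
  rintro ⟨a, c⟩ ha ⟨a', c'⟩ ha' e
  have k : ∀ (a : Mat n F) (c : Matrix (Fin M.rank) (Fin z.rank) F), M * a * z = 0 →
      A * (M * (a + B * c * A') * z) * B' = c := fun a c h0 => by
    rw [mul_add, add_mul, h0, zero_add]
    calc _ = (A * M * B) * c * (A' * z * B') := by simp only [Matrix.mul_assoc]
      _ = c := by rw [h, h', Matrix.one_mul, Matrix.mul_one]
  have h1 := k a c (mem_filter.1 (mem_product.1 ha).1).2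
  have h2 := k a' c' (mem_filter.1 (mem_product.1 ha').1).2
  simp only at e
  rw [e, h2] at h1
  subst h1
  rw [add_right_cancel e]

lemma prod_low (k : ℕ) :
    (1 / 4 : ℝ) + (1 / 2) ^ (k + 2) ≤ ∏ i ∈ range (k + 1), (1 - (1 / 2 : ℝ) ^ (i + 1)) := by
  induction k with
  | zero => norm_num
  | succ k ih =>
    rw [prod_range_succ]
    have h1 : (1 / 2 : ℝ) ^ (k + 2) ≤ 1 / 4 := by
      rw [pow_add]
      have : (1 / 2 : ℝ) ^ k ≤ 1 := pow_le_one₀ (by norm_num) (by norm_num)
      linarith
    have h2 : (0 : ℝ) < (1 / 2 : ℝ) ^ (k + 2) := by positivity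
    refine le_trans ?_ (mul_le_mul_of_nonneg_right ih (by linarith))
    rw [pow_succ _ (k + 2)]
    nlinarith

open Classical in
lemma gl (hn : 1 ≤ n) : (Fintype.card (Mat n F) : ℝ) ≤ 4 * Fintype.card (Mat n F)ˣ := by
  have h := card_GL_field (𝔽 := F) n
  rw [Nat.card_eq_fintype_card] at h
  have h' : Fintype.card (Mat n F)ˣ = ∏ i : Fin n, (Fintype.card F ^ n - Fintype.card F ^ (i : ℕ)) := by
    rw [← h]
  have hq : (2 : ℝ) ≤ Fintype.card F := by exact_mod_cast Fintype.one_lt_card
  obtain ⟨k, rfl⟩ : ∃ k, n = k + 1 := ⟨n - 1, by omega⟩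
  have h1 := prod_low k
  rw [← prod_range_reflect] at h1
  rw [h', card_mat, Fin.prod_univ_eq_prod_range
    (fun i => Fintype.card F ^ (k + 1) - Fintype.card F ^ i), Nat.cast_prod]
  have h2 : ∏ i ∈ range (k + 1), ((Fintype.card F : ℝ) ^ (k + 1) *
      (1 - (1 / 2 : ℝ) ^ (k + 1 - 1 - i + 1))) ≤
      ∏ i ∈ range (k + 1), ((Fintype.card F ^ (k + 1) - Fintype.card F ^ i : ℕ) : ℝ) := by
    refine prod_le_prod (fun i _ => mul_nonneg (by positivity) (sub_nonneg.2
      (pow_le_one₀ (by norm_num) (by norm_num)))) fun i hi => ?_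
    have hi' := mem_range.1 hi
    rw [Nat.cast_sub (Nat.pow_le_pow_right Fintype.card_pos hi'.le)]
    push_cast
    obtain ⟨j, rfl⟩ : ∃ j, k = i + j := ⟨k - i, by omega⟩
    have e : i + j - i + 1 = j + 1 := by omega
    rw [e, add_assoc, pow_add]
    have h3 : 1 ≤ (Fintype.card F : ℝ) ^ (j + 1) * (1 / 2) ^ (j + 1) := by
      rw [← mul_pow]; exact one_le_pow₀ (by linarith)
    have h4 : (0 : ℝ) < (Fintype.card F : ℝ) ^ i := by positivity
    nlinarith
  rw [prod_mul_distrib, prod_const, card_range, ← pow_mul] at h2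
  have h5 : (0 : ℝ) < (Fintype.card F : ℝ) ^ ((k + 1) * (k + 1)) := by positivity
  have h6 : (0 : ℝ) < (1 / 2 : ℝ) ^ (k + 2) := by positivity
  rw [Nat.cast_pow] at *
  nlinarith

end Pool.Agent.H29.Twist
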