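import Mathlib

set_option autoImplicit false

namespace Pool.Agent.H29.UAdd

open Filter

abbrev H := Lex (ℤ × ℚ)

def lvl (x : H) : ℤ := (ofLex x).1

lemma lvl_mono : Monotone lvl := fun x y h => by
  rcases (Prod.Lex.le_iff).1 h with h | h
  · exact h.le
  · exact h.1.le

lemma lt_of_lvl_lt {x y : H} (h : lvl x < lvl y) : x < y :=
  (Prod.Lex.lt_iff).2 (Or.inl h)

lemma lvl_add (x y : H) : lvl (x + y) = lvl x + lvl y := rfl

lemma lvl_mk (a : ℤ) (q : ℚ) : lvl (toLex (a, q)) = a := rfl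

lemma lt_mk (x : H) (q : ℚ) (h : (ofLex x).2 < q) : x < toLex (lvl x, q) :=
  (Prod.Lex.lt_iff).2 (Or.inr ⟨rfl, h⟩)

lemma mk_lt (x : H) (q : ℚ) (h : q < (ofLex x).2) : toLex (lvl x, q) < x :=
  (Prod.Lex.lt_iff).2 (Or.inr ⟨rfl, h⟩)

lemma fibDense (p : ℤ → Prop) : DenselyOrdered {x : H // p (lvl x)} := ⟨by
  rintro ⟨x, hx⟩ ⟨y, hy⟩ h
  have h' : x < y := h
  rcases (Prod.Lex.lt_iff).1 h' with h1 | h1
  · exact ⟨⟨toLex (lvl x, (ofLex x).2 + 1), hx⟩, lt_mk x _ (by linarith), lt_of_lvl_lt h1⟩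
  · refine ⟨⟨toLex (lvl x, ((ofLex x).2 + (ofLex y).2) / 2), hx⟩, lt_mk x _ (by linarith [h1.2]), ?_⟩
    have e : lvl x = lvl y := h1.1
    have := mk_lt y (((ofLex x).2 + (ofLex y).2) / 2) (by linarith [h1.2])
    rw [← e] at this
    exact this⟩

lemma fibNoMax (p : ℤ → Prop) : NoMaxOrder {x : H // p (lvl x)} := ⟨by
  rintro ⟨x, hx⟩
  exact ⟨⟨toLex (lvl x, (ofLex x).2 + 1), hx⟩, lt_mk x _ (by linarith)⟩⟩

lemma fibNoMin (p : ℤ → Prop) : NoMinOrder {x : H // p (lvl x)} := ⟨by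
  rintro ⟨x, hx⟩
  exact ⟨⟨toLex (lvl x, (ofLex x).2 - 1), hx⟩, mk_lt x _ (by linarith)⟩⟩

instance : Countable H := inferInstanceAs (Countable (ℤ × ℚ))

lemma glue {T : Type} (f g : ℤ → T) (h1 : ∀ a, ∃ b, g b = f a) (h2 : ∀ b, ∃ a, f a = g b)
    (hm : ∀ a a' b b', a < a' → f a ≠ f a' → g b = f a → g b' = f a' → b < b') :
    ∃ φ : H ≃o H, ∀ x, g (lvl (φ x)) = f (lvl x) := by
  classical
  have key : ∀ t : T, ∃ E : H → H, (∀ x, f (lvl x) = t → g (lvl (E x)) = t) ∧
      (∀ x y, f (lvl x) = t → f (lvl y) = t → x < y → E x < E y) ∧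
      (∀ y, g (lvl y) = t → ∃ x, f (lvl x) = t ∧ E x = y) := by
    intro t
    by_cases ht : ∃ a, f a = t
    · obtain ⟨a, ha⟩ := ht
      obtain ⟨b, hb⟩ := h1 a
      have : Nonempty {x : H // (fun a => f a = t) (lvl x)} := ⟨⟨toLex (a, 0), ha⟩⟩
      have : Nonempty {x : H // (fun a => g a = t) (lvl x)} := ⟨⟨toLex (b, 0), hb.trans ha⟩⟩
      have := fibDense (fun a => f a = t)
      have := fibNoMax (fun a => f a = t)
      have := fibNoMin (fun a => f a = t)
      have := fibDense (fun a => g a = t)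
      have := fibNoMax (fun a => g a = t)
      have := fibNoMin (fun a => g a = t)
      obtain ⟨e⟩ := Order.iso_of_countable_dense {x : H // (fun a => f a = t) (lvl x)}
        {x : H // (fun a => g a = t) (lvl x)}
      refine ⟨fun x => if h : f (lvl x) = t then (e ⟨x, h⟩).1 else x, ?_, ?_, ?_⟩
      · intro x hx
        simp only [dif_pos hx]
        exact (e ⟨x, hx⟩).2
      · intro x y hx hy hxy
        simp only [dif_pos hx, dif_pos hy]
        exact e.strictMono (show (⟨x, hx⟩ : {x : H // (fun a => f a = t) (lvl x)}) < ⟨y, hy⟩ from hxy)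
      · intro y hy
        refine ⟨(e.symm ⟨y, hy⟩).1, (e.symm ⟨y, hy⟩).2, ?_⟩
        have h3 : f (lvl (e.symm ⟨y, hy⟩).1) = t := (e.symm ⟨y, hy⟩).2
        simp only [dif_pos h3]
        have : (⟨(e.symm ⟨y, hy⟩).1, h3⟩ : {x : H // (fun a => f a = t) (lvl x)}) =
          e.symm ⟨y, hy⟩ := rfl
        rw [this, e.apply_symm_apply]
    · refine ⟨id, fun x hx => (ht ⟨_, hx⟩).elim, fun x y hx => (ht ⟨_, hx⟩).elim, fun y hy => ?_⟩
      obtain ⟨a, ha⟩ := h2 (lvl y)
      exact (ht ⟨a, ha.trans hy⟩).elim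
  choose E hE1 hE2 hE3 using key
  have hs : StrictMono (fun x => E (f (lvl x)) x) := by
    intro x y hxy
    by_cases h : f (lvl x) = f (lvl y)
    · show E (f (lvl x)) x < E (f (lvl y)) y
      rw [← h]
      exact hE2 _ x y rfl h.symm hxy
    · apply lt_of_lvl_lt
      have h3 : lvl x < lvl y := lt_of_le_of_ne (lvl_mono hxy.le) (fun e => h (by rw [e]))
      exact hm _ _ _ _ h3 h (hE1 _ x rfl) (hE1 _ y rfl)
  have hsurj : Function.Surjective (fun x => E (f (lvl x)) x) := by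
    intro y
    obtain ⟨x, hx1, hx2⟩ := hE3 _ y rfl
    exact ⟨x, by show E (f (lvl x)) x = y; rw [hx1, hx2]⟩
  exact ⟨hs.orderIsoOfSurjective _ hsurj, fun x => hE1 _ x rfl⟩

def Gap (S : Finset H) (u : H → ℤ) : Prop := ∀ x ∈ S, ∀ y ∈ S, x < y → u x + 2 ≤ u y

lemma match_lvl (S : Finset H) (u v : H → ℤ) (hu : Gap S u) (hv : Gap S v) (a : ℤ) :
    ∃ b, ∀ x ∈ S, (u x < a ↔ v x < b) ∧ (a < u x ↔ b < v x) := by
  classical
  by_cases h : ∃ z ∈ S, u z = a
  · obtain ⟨z, hz, rfl⟩ := h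
    refine ⟨v z, fun x hx => ?_⟩
    rcases lt_trichotomy x z with h | rfl | h
    · have := hu x hx z hz h
      have := hv x hx z hz h
      omega
    · omega
    · have := hu z hz x hx h
      have := hv z hz x hx h
      omega
  · push Not at h
    by_cases hL : (S.filter (fun x => u x < a)).Nonempty
    · set z := (S.filter (fun x => u x < a)).max' hL with hz
      have hz1 := Finset.mem_filter.1 ((S.filter (fun x => u x < a)).max'_mem hL)
      rw [← hz] at hz1
      refine ⟨v z + 1, fun x hx => ?_⟩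
      have hxa := h x hx
      rcases lt_trichotomy x z with h' | rfl | h'
      · have := hu x hx z hz1.1 h'
        have := hv x hx z hz1.1 h'
        omega
      · omega
      · have := hv z hz1.1 x hx h'
        have h4 : ¬ u x < a := fun h5 => by
          have := (S.filter (fun x => u x < a)).le_max' x (Finset.mem_filter.2 ⟨hx, h5⟩)
          rw [← hz] at this
          exact absurd h' (not_lt.2 this)
        omega
    · obtain ⟨b, hb⟩ := (S.image v).bddBelow
      refine ⟨b - 1, fun x hx => ?_⟩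
      have h1 : b ≤ v x := hb (Finset.mem_coe.2 (Finset.mem_image_of_mem v hx))
      have h2 : ¬ u x < a := fun h5 => hL ⟨x, Finset.mem_filter.2 ⟨hx, h5⟩⟩
      have hxa := h x hx
      omega

lemma child_exists (σ : H ≃o H) (S : Finset H) (u : H → ℤ) (hu : Gap S u) :
    ∃ φ : H ≃o H, ∀ z ∈ S, σ z ∈ S → ∀ x, (lvl x = u z ↔ lvl (φ x) = u (σ z)) := by
  classical
  set S' := S.filter (fun z => σ z ∈ S) with hS'
  have g1 : Gap S' u := fun x hx y hy h =>
    hu x (Finset.mem_filter.1 hx).1 y (Finset.mem_filter.1 hy).1 h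
  have g2 : Gap S' (fun z => u (σ z)) := fun x hx y hy h =>
    hu _ (Finset.mem_filter.1 hx).2 _ (Finset.mem_filter.1 hy).2 (σ.strictMono h)
  let F : (H → ℤ) → ℤ → (H → Prop) × (H → Prop) := fun w a =>
    (fun z => z ∈ S' ∧ w z < a, fun z => z ∈ S' ∧ a < w z)
  have hF : ∀ w w' a b, F w a = F w' b ↔
      ∀ x ∈ S', (w x < a ↔ w' x < b) ∧ (a < w x ↔ b < w' x) := by
    intro w w' a b
    simp only [F, Prod.mk.injEq, funext_iff, eq_iff_iff, and_congr_right_iff]
    exact ⟨fun h x hx => ⟨h.1 x hx, h.2 x hx⟩, fun h => ⟨fun x hx => (h x hx).1, fun x hx => (h x hx).2⟩⟩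
  obtain ⟨φ, hφ⟩ := glue (F u) (F (fun z => u (σ z)))
    (fun a => by
      obtain ⟨b, hb⟩ := match_lvl S' _ _ g1 g2 a
      exact ⟨b, ((hF _ _ _ _).2 hb).symm⟩)
    (fun a => by
      obtain ⟨b, hb⟩ := match_lvl S' _ _ g2 g1 a
      exact ⟨b, ((hF _ _ _ _).2 hb).symm⟩)
    (fun a a' b b' haa hne hb hb' => by
      rw [Ne, hF] at hne
      push Not at hne
      obtain ⟨x, hx, hx2⟩ := hne
      have e1 := (hF _ _ _ _).1 hb x hx
      have e2 := (hF _ _ _ _).1 hb' x hx
      omega)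
  refine ⟨φ, fun z hz hz' x => ?_⟩
  have := (hF _ _ _ _).1 (hφ x) z (Finset.mem_filter.2 ⟨hz, hz'⟩)
  omega

lemma lam_exists (S : Finset H) : ∃ u : H → ℤ, Gap S u ∧
    ∀ x ∈ S, ∀ y ∈ S, u (x + y) = u x + u y := by
  classical
  let N : ℕ := ∏ x ∈ S, (ofLex x).2.den
  have hN : 0 < N := Finset.prod_pos fun x _ => (ofLex x).2.den_pos
  have hint : ∀ x ∈ S, ∃ m : ℤ, (N : ℚ) * (ofLex x).2 = m := by
    intro x hx
    obtain ⟨c, hc⟩ : (ofLex x).2.den ∣ N := Finset.dvd_prod_of_mem _ hx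
    refine ⟨c * (ofLex x).2.num, ?_⟩
    rw [hc]
    push_cast
    rw [mul_comm ((ofLex x).2.den : ℚ), mul_assoc, Rat.den_mul_eq_num]
  obtain ⟨B, hB⟩ := (S.image (fun x => |(ofLex x).2|)).bddAbove
  obtain ⟨K, hK⟩ := exists_nat_gt (2 * B)
  let w : H → ℚ := fun x => (N : ℚ) * (K * (lvl x : ℚ) + (ofLex x).2)
  have hw : ∀ x ∈ S, ∃ m : ℤ, w x = m := by
    intro x hx
    obtain ⟨m, hm⟩ := hint x hx
    refine ⟨N * K * lvl x + m, ?_⟩
    simp only [w]
    push_cast
    rw [← hm]; ring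
  have hadd : ∀ x y, w (x + y) = w x + w y := by
    intro x y
    simp only [w, lvl_add]
    have : (ofLex (x + y)).2 = (ofLex x).2 + (ofLex y).2 := rfl
    rw [this]; push_cast; ring
  refine ⟨fun x => 2 * ⌊w x⌋, ?_, ?_⟩
  · intro x hx y hy hxy
    obtain ⟨m, hm⟩ := hw x hx
    obtain ⟨m', hm'⟩ := hw y hy
    have hlt : w x < w y := by
      have hN' : (0 : ℚ) < N := by exact_mod_cast hN
      apply mul_lt_mul_of_pos_left _ hN'
      rcases (Prod.Lex.lt_iff).1 hxy with h | h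
      · have h1 : lvl x + 1 ≤ lvl y := h
        have h2 : (lvl x : ℚ) + 1 ≤ lvl y := by exact_mod_cast h1
        have h3 : |(ofLex x).2| ≤ B := hB (Finset.mem_coe.2 (Finset.mem_image_of_mem _ hx))
        have h4 : |(ofLex y).2| ≤ B := hB (Finset.mem_coe.2 (Finset.mem_image_of_mem _ hy))
        have h5 := abs_le.1 h3
        have h6 := abs_le.1 h4
        have h7 : (0 : ℚ) ≤ K := Nat.cast_nonneg K
        nlinarith
      · have h1 : lvl x = lvl y := h.1
        rw [h1]
        linarith [h.2]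
    rw [hm, hm'] at hlt
    have h8 : m < m' := by exact_mod_cast hlt
    simp only [hm, hm', Int.floor_intCast]
    omega
  · intro x hx y hy
    obtain ⟨m, hm⟩ := hw x hx
    obtain ⟨m', hm'⟩ := hw y hy
    simp only [hadd, hm, hm', Int.floor_intCast, ← Int.cast_add]
    ring

noncomputable def lam (S : Finset H) : H → ℤ := (lam_exists S).choose

lemma lam_gap (S : Finset H) : Gap S (lam S) := (lam_exists S).choose_spec.1

lemma lam_add (S : Finset H) : ∀ x ∈ S, ∀ y ∈ S, lam S (x + y) = lam S x + lam S y :=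
  (lam_exists S).choose_spec.2

lemma ev_mem (x : H) : ∀ᶠ S : Finset H in atTop, x ∈ S := by
  classical
  filter_upwards [eventually_ge_atTop ({x} : Finset H)] with S hS
  exact hS (Finset.mem_singleton_self x)

lemma lam_zero (S : Finset H) (h : 0 ∈ S) : lam S 0 = 0 := by
  have := lam_add S 0 h 0 h
  rw [add_zero] at this
  omega

lemma lam_mono (S : Finset H) {x y : H} (hx : x ∈ S) (hy : y ∈ S) (h : x ≤ y) :
    lam S x ≤ lam S y := by
  rcases h.eq_or_lt with rfl | h
  · exact le_rfl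
  · have := lam_gap S x hx y hy h
    omega

abbrev I := List (Finset H)

def G : AddSubgroup (I → H) where
  carrier := {g | ∀ j, ∀ᶠ S : Finset H in atTop, lvl (g (S :: j)) = lam S (g j)}
  zero_mem' := fun j => by
    filter_upwards [ev_mem 0] with S hS
    exact (lam_zero S hS).symm
  add_mem' := fun {g h} hg hh j => by
    filter_upwards [hg j, hh j, ev_mem (g j), ev_mem (h j)] with S h1 h2 h3 h4
    simp only [Pi.add_apply]
    rw [lvl_add, lam_add S _ h3 _ h4, h1, h2]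
  neg_mem' := fun {g} hg j => by
    filter_upwards [hg j, ev_mem (g j), ev_mem (-g j), ev_mem 0] with S h1 h2 h3 h4
    simp only [Pi.neg_apply]
    have e1 := lam_add S _ h2 _ h3
    rw [add_neg_cancel, lam_zero S h4] at e1
    have e2 : lvl (-g (S :: j)) = - lvl (g (S :: j)) := rfl
    omega

lemma mem_G {g : I → H} :
    g ∈ G ↔ ∀ j, ∀ᶠ S : Finset H in atTop, lvl (g (S :: j)) = lam S (g j) := Iff.rfl

lemma sup_mem {g h : I → H} (hg : g ∈ G) (hh : h ∈ G) : g ⊔ h ∈ G := fun j => by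
  filter_upwards [hg j, hh j, ev_mem (g j), ev_mem (h j)] with S h1 h2 h3 h4
  simp only [Pi.sup_apply]
  rw [lvl_mono.map_sup, h1, h2]
  rcases le_total (g j) (h j) with e | e
  · rw [sup_eq_right.2 e, sup_eq_right.2 (lam_mono S h3 h4 e)]
  · rw [sup_eq_left.2 e, sup_eq_left.2 (lam_mono S h4 h3 e)]

lemma inf_mem {g h : I → H} (hg : g ∈ G) (hh : h ∈ G) : g ⊓ h ∈ G := fun j => by
  filter_upwards [hg j, hh j, ev_mem (g j), ev_mem (h j)] with S h1 h2 h3 h4
  simp only [Pi.inf_apply]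
  rw [lvl_mono.map_inf, h1, h2]
  rcases le_total (g j) (h j) with e | e
  · rw [inf_eq_left.2 e, inf_eq_left.2 (lam_mono S h3 h4 e)]
  · rw [inf_eq_right.2 e, inf_eq_right.2 (lam_mono S h4 h3 e)]

lemma eq_of_lvl {g h : I → H} (hg : g ∈ G) (hh : h ∈ G) (e : ∀ j, lvl (g j) = lvl (h j)) :
    g = h := by
  funext j
  obtain ⟨S, h1, h2, h3, h4⟩ :=
    ((hg j).and ((hh j).and ((ev_mem (g j)).and (ev_mem (h j))))).exists
  have e1 := e (S :: j)
  rcases lt_trichotomy (g j) (h j) with h5 | h5 | h5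
  · have := lam_gap S _ h3 _ h4 h5
    omega
  · exact h5
  · have := lam_gap S _ h4 _ h3 h5
    omega

open Classical in
noncomputable def pt (j0 : I) (z : H) : I → H
  | [] => if j0 = [] then z else 0
  | S :: j => if j0 = S :: j then z else toLex (lam S (pt j0 z j), 0)

lemma pt_self (j0 : I) (z : H) : pt j0 z j0 = z := by
  cases j0 <;> simp [pt]

lemma pt_mem (j0 : I) (z : H) : pt j0 z ∈ G := fun j => by
  classical
  have h : ∀ᶠ S : Finset H in atTop, j0 ≠ S :: j := by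
    cases j0 with
    | nil => exact Eventually.of_forall fun S => by simp
    | cons S0 j1 =>
      obtain ⟨x, hx⟩ := Infinite.exists_notMem_finset S0
      filter_upwards [ev_mem x] with S hS h
      rw [(List.cons.inj h).1] at hx
      exact hx hS
  filter_upwards [h] with S hS
  simp only [pt, if_neg hS, lvl_mk]

noncomputable def sig0 : H ≃o H :=
  StrictMono.orderIsoOfRightInverse
    (fun x => toLex (lvl x, (ofLex x).2 + if lvl x = 1 then 1 else 0))
    (fun x y h => by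
      rcases (Prod.Lex.lt_iff).1 h with h | h
      · exact lt_of_lvl_lt h
      · have e : lvl x = lvl y := h.1
        refine (Prod.Lex.lt_iff).2 (Or.inr ⟨e, ?_⟩)
        show (ofLex x).2 + _ < (ofLex y).2 + _
        rw [e]
        linarith [h.2])
    (fun x => toLex (lvl x, (ofLex x).2 - if lvl x = 1 then 1 else 0))
    (fun x => by
      show toLex (lvl x, (ofLex x).2 - (if lvl x = 1 then 1 else 0) + if lvl x = 1 then 1 else 0) = x
      rw [sub_add_cancel]
      rfl)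

noncomputable def sig : I → (H ≃o H)
  | [] => sig0
  | S :: j => (child_exists (sig j) S (lam S) (lam_gap S)).choose

lemma sig_spec (S : Finset H) (j : I) : ∀ z ∈ S, sig j z ∈ S → ∀ x,
    (lvl x = lam S z ↔ lvl (sig (S :: j) x) = lam S (sig j z)) :=
  (child_exists (sig j) S (lam S) (lam_gap S)).choose_spec

noncomputable def Phi : G ≃o G where
  toFun g := ⟨fun j => sig j (g.1 j), fun j => by
    filter_upwards [g.2 j, ev_mem (g.1 j), ev_mem (sig j (g.1 j))] with S h1 h2 h3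
    exact (sig_spec S j _ h2 h3 _).1 h1⟩
  invFun g := ⟨fun j => (sig j).symm (g.1 j), fun j => by
    filter_upwards [g.2 j, ev_mem (g.1 j), ev_mem ((sig j).symm (g.1 j))] with S h1 h2 h3
    apply (sig_spec S j _ h3 (by rwa [OrderIso.apply_symm_apply]) _).2
    rw [OrderIso.apply_symm_apply, OrderIso.apply_symm_apply]
    exact h1⟩
  left_inv g := Subtype.ext (funext fun j => (sig j).symm_apply_apply _)
  right_inv g := Subtype.ext (funext fun j => (sig j).apply_symm_apply _)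
  map_rel_iff' := fun {a b} => by
    show (fun j => sig j (a.1 j)) ≤ (fun j => sig j (b.1 j)) ↔ a.1 ≤ b.1
    simp only [Pi.le_def, OrderIso.le_iff_le]

lemma Phi_not_affine : ∃ x : G, Phi (x + x) ≠ Phi x + Phi x - Phi 0 := by
  refine ⟨⟨pt [] (toLex (1, 0)), pt_mem _ _⟩, fun h => ?_⟩
  have h1 := congrArg (fun g : G => (ofLex (g.1 [])).2) h
  have h2 : pt [] (toLex (1, 0)) [] = toLex (1, 0) := pt_self _ _
  change (ofLex (sig0 (pt [] (toLex (1, 0)) [] + pt [] (toLex (1, 0)) []))).2 =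
    (ofLex (sig0 (pt [] (toLex (1, 0)) []) + sig0 (pt [] (toLex (1, 0)) []) - sig0 0)).2 at h1
  rw [h2] at h1
  change (0 : ℚ) + 0 + (if (1 : ℤ) + 1 = 1 then 1 else 0) =
    (0 + if (1 : ℤ) = 1 then 1 else 0) + (0 + if (1 : ℤ) = 1 then 1 else 0) -
      (0 + if (0 : ℤ) = 1 then 1 else 0) at h1
  norm_num at h1

end Pool.Agent.H29.UAdd
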