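import Mathlib

set_option autoImplicit false
open Set Filter Topology

namespace Pool.Agent.H29.WOTStab

section general
variable {X : Type} [NormedAddCommGroup X] [NormedSpace ℂ X]

noncomputable def Phi (T : {T : X →L[ℂ] X // ‖T‖ ≤ 1}) (p : X × (X →L[ℂ] ℂ)) : ℂ := p.2 (T.1 p.1)

lemma range_Phi (hr : Function.Surjective (NormedSpace.inclusionInDoubleDual ℂ X)) :
    range (Phi (X := X)) = {B | (∀ x y f, B (x + y, f) = B (x, f) + B (y, f)) ∧
      (∀ (c : ℂ) x f, B (c • x, f) = c * B (x, f)) ∧ (∀ x f g, B (x, f + g) = B (x, f) + B (x, g)) ∧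
      (∀ (c : ℂ) x f, B (x, c • f) = c * B (x, f)) ∧ ∀ x f, ‖B (x, f)‖ ≤ ‖x‖ * ‖f‖} := by
  ext B
  constructor
  · rintro ⟨T, rfl⟩
    refine ⟨fun x y f => by simp [Phi], fun c x f => by simp [Phi], fun x f g => by simp [Phi],
      fun c x f => by simp [Phi], fun x f => ?_⟩
    calc ‖f (T.1 x)‖ ≤ ‖f‖ * ‖T.1 x‖ := f.le_opNorm _
      _ ≤ ‖f‖ * (1 * ‖x‖) := by
        gcongr; exact (T.1.le_opNorm x).trans (by gcongr; exact T.2)
      _ = ‖x‖ * ‖f‖ := by ring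
  · rintro ⟨h1, h2, h3, h4, h5⟩
    have ex : ∀ x : X, ∃ y : X, ∀ f : X →L[ℂ] ℂ, f y = B (x, f) := by
      intro x
      let L : (X →L[ℂ] ℂ) →ₗ[ℂ] ℂ := ⟨⟨fun f => B (x, f), h3 x⟩, fun c f => h4 c x f⟩
      obtain ⟨y, hy⟩ := hr (L.mkContinuous ‖x‖ (h5 x))
      exact ⟨y, fun f => congrArg (fun Ψ : (X →L[ℂ] ℂ) →L[ℂ] ℂ => Ψ f) hy⟩
    choose t ht using ex
    let L : X →ₗ[ℂ] X := ⟨⟨t, fun x y => (SeparatingDual.eq_iff_forall_dual_eq (R := ℂ)).2
        fun f => by rw [map_add, ht, ht, ht, h1]⟩,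
      fun c x => (SeparatingDual.eq_iff_forall_dual_eq (R := ℂ)).2
        fun f => by simp only [map_smul, ht, h2, RingHom.id_apply, smul_eq_mul]⟩
    have hL : ∀ x, ‖L x‖ ≤ 1 * ‖x‖ := fun x =>
      NormedSpace.norm_le_dual_bound ℂ (t x) (by positivity) fun f => by
        rw [ht, one_mul]; exact h5 x f
    refine ⟨⟨L.mkContinuous 1 hL, L.mkContinuous_norm_le zero_le_one hL⟩, ?_⟩
    funext p
    exact ht p.1 p.2

lemma baire (hr : Function.Surjective (NormedSpace.inclusionInDoubleDual ℂ X)) :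
    @BaireSpace {T : X →L[ℂ] X // ‖T‖ ≤ 1}
      (TopologicalSpace.induced (Phi (X := X)) Pi.topologicalSpace) := by
  let : TopologicalSpace {T : X →L[ℂ] X // ‖T‖ ≤ 1} :=
    TopologicalSpace.induced (Phi (X := X)) Pi.topologicalSpace
  have hi : IsInducing (Phi (X := X)) := ⟨rfl⟩
  have hc : IsClosed (range (Phi (X := X))) := by
    rw [range_Phi hr]
    simp only [ofPred_and, ofPred_forall]
    refine IsClosed.inter ?_ (IsClosed.inter ?_ (IsClosed.inter ?_ (IsClosed.inter ?_ ?_)))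
    · exact isClosed_iInter fun _ => isClosed_iInter fun _ => isClosed_iInter fun _ =>
        isClosed_eq (by fun_prop) (by fun_prop)
    · exact isClosed_iInter fun _ => isClosed_iInter fun _ => isClosed_iInter fun _ =>
        isClosed_eq (by fun_prop) (by fun_prop)
    · exact isClosed_iInter fun _ => isClosed_iInter fun _ => isClosed_iInter fun _ =>
        isClosed_eq (by fun_prop) (by fun_prop)
    · exact isClosed_iInter fun _ => isClosed_iInter fun _ => isClosed_iInter fun _ =>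
        isClosed_eq (by fun_prop) (by fun_prop)
    · exact isClosed_iInter fun _ => isClosed_iInter fun _ =>
        isClosed_le (by fun_prop) (by fun_prop)
  have hk : IsCompact (range (Phi (X := X))) := by
    refine (isCompact_univ_pi fun p : X × (X →L[ℂ] ℂ) =>
      isCompact_closedBall (0:ℂ) (‖p.1‖ * ‖p.2‖)).of_isClosed_subset hc ?_
    rw [range_Phi hr]
    rintro B ⟨-, -, -, -, h⟩ p -
    simpa using h p.1 p.2
  have : CompactSpace {T : X →L[ℂ] X // ‖T‖ ≤ 1} :=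
    ⟨hi.isCompact_iff.2 (by rwa [image_univ])⟩
  have : R1Space {T : X →L[ℂ] X // ‖T‖ ≤ 1} := hi.r1Space
  infer_instance

lemma stable (T : X →L[ℂ] X) (hT : ‖T‖ ≤ 1) (f g : X →L[ℂ] ℂ) (q : ℝ) (hq : q < 1)
    (h : ∀ y, ‖T y‖ ≤ ‖f y‖ + ‖g y‖ + q * ‖y‖) (x : X) (F : Filter ℕ) [F.NeBot] (hF : F ≤ atTop)
    (hf : Tendsto (fun n => f ((T ^ n) x)) F (𝓝 0)) (hg : Tendsto (fun n => g ((T ^ n) x)) F (𝓝 0)) :
    Tendsto (fun n => (T ^ n) x) atTop (𝓝 0) := by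
  have hs : ∀ n, (T ^ (n + 1)) x = T ((T ^ n) x) := fun n => by rw [pow_succ']; rfl
  have ha : Antitone fun n => ‖(T ^ n) x‖ := antitone_nat_of_succ_le fun n => by
    rw [hs]
    exact (T.le_opNorm _).trans (by simpa using mul_le_mul_of_nonneg_right hT (norm_nonneg _))
  have hb : BddBelow (range fun n => ‖(T ^ n) x‖) := ⟨0, by rintro _ ⟨n, rfl⟩; positivity⟩
  have hl := tendsto_atTop_ciInf ha hb
  set L := ⨅ n, ‖(T ^ n) x‖
  have hL0 : 0 ≤ L := le_ciInf fun n => norm_nonneg _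
  have h1 : Tendsto (fun n => ‖f ((T ^ n) x)‖ + ‖g ((T ^ n) x)‖ + q * ‖(T ^ n) x‖) F
      (𝓝 (‖(0:ℂ)‖ + ‖(0:ℂ)‖ + q * L)) :=
    (hf.norm.add hg.norm).add ((hl.mono_left hF).const_mul q)
  have h2 : L ≤ ‖(0:ℂ)‖ + ‖(0:ℂ)‖ + q * L :=
    ge_of_tendsto' h1 fun n => (ciInf_le hb (n + 1)).trans (by rw [hs]; exact h _)
  simp only [norm_zero, zero_add] at h2
  have : L = 0 := by nlinarith
  rw [tendsto_zero_iff_norm_tendsto_zero, ← this]
  exact hl

lemma neBot_of_density (J : Set ℕ)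
    (h : Tendsto (fun N : ℕ => (Nat.card (J ∩ Set.Iio N : Set ℕ) : ℝ) / (N : ℝ)) atTop (𝓝 1)) :
    (atTop ⊓ 𝓟 J).NeBot := by
  rw [← frequently_mem_iff_neBot, Nat.frequently_atTop_iff_infinite]
  intro hfin
  have hfin' : J.Finite := hfin
  have h2 : Tendsto (fun N : ℕ => (Nat.card J : ℝ) / (N : ℝ)) atTop (𝓝 0) :=
    tendsto_const_div_atTop_nhds_zero_nat _
  have := le_of_tendsto_of_tendsto' h h2 fun N => by
    have : Nat.card (J ∩ Set.Iio N : Set ℕ) ≤ Nat.card J := Nat.card_mono hfin' inter_subset_left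
    gcongr
  linarith

lemma refl_of_equiv {Y : Type} [NormedAddCommGroup Y] [InnerProductSpace ℂ Y] [CompleteSpace Y]
    (e : X ≃L[ℂ] Y) : Function.Surjective (NormedSpace.inclusionInDoubleDual ℂ X) := by
  intro Ψ
  let L : Y →ₗ[ℂ] ℂ :=
    { toFun := fun y => (starRingEnd ℂ) (Ψ ((innerSL ℂ y).comp (e : X →L[ℂ] Y)))
      map_add' := fun a b => by simp [ContinuousLinearMap.add_comp]
      map_smul' := fun c a => by simp [ContinuousLinearMap.smul_comp] }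
  have hL : ∀ y, ‖L y‖ ≤ (‖Ψ‖ * ‖(e : X →L[ℂ] Y)‖) * ‖y‖ := fun y => by
    change ‖(starRingEnd ℂ) (Ψ ((innerSL ℂ y).comp (e : X →L[ℂ] Y)))‖ ≤ _
    rw [Complex.norm_conj]
    calc _ ≤ ‖Ψ‖ * ‖(innerSL ℂ y).comp (e : X →L[ℂ] Y)‖ := Ψ.le_opNorm _
      _ ≤ ‖Ψ‖ * (‖innerSL ℂ y‖ * ‖(e : X →L[ℂ] Y)‖) := by
        gcongr; exact ContinuousLinearMap.opNorm_comp_le _ _
      _ = _ := by rw [innerSL_apply_norm]; ring
  obtain ⟨y0, hy0⟩ := (InnerProductSpace.toDual ℂ Y).surjective (L.mkContinuous _ hL)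
  refine ⟨e.symm y0, ?_⟩
  ext f
  obtain ⟨y, hy⟩ := (InnerProductSpace.toDual ℂ Y).surjective (f.comp (e.symm : Y →L[ℂ] X))
  have hf : f = (innerSL ℂ y).comp (e : X →L[ℂ] Y) := by
    ext x
    have := congrArg (fun g => g (e x)) hy
    simpa using this.symm
  have h1 : inner ℂ y0 y = (starRingEnd ℂ) (Ψ ((innerSL ℂ y).comp (e : X →L[ℂ] Y))) := by
    have := congrArg (fun g => g y) hy0
    simpa [L] using this
  rw [NormedSpace.dual_def, hf]
  have h2 := congrArg (starRingEnd ℂ) h1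
  rw [inner_conj_symm, Complex.conj_conj] at h2
  rw [← h2]
  simp
end general

abbrev H : Type := lp (fun _ : ℕ => ℂ) 2
abbrev X : Type := WithLp 1 (ℂ × H)

noncomputable def hb : HilbertBasis ℕ ℂ H := default

instance : TopologicalSpace.SeparableSpace H := by
  have h1 : TopologicalSpace.IsSeparable (range (hb : ℕ → H)) := (countable_range _).isSeparable
  have h2 := (h1.span (R := ℂ)).closure
  have h3 := congrArg (fun S : Submodule ℂ H => (S : Set H)) hb.dense_span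
  simp only [Submodule.topologicalClosure_coe, Submodule.top_coe] at h3
  rw [h3] at h2
  exact TopologicalSpace.isSeparable_univ_iff.1 h2

instance : SecondCountableTopology H := UniformSpace.secondCountable_of_separable H

lemma X_inf : ¬ FiniteDimensional ℂ X := by
  intro h
  have : FiniteDimensional ℂ H :=
    Module.Finite.of_surjective (WithLp.sndₗ 1 ℂ ℂ H) fun y => ⟨WithLp.toLp 1 (0, y), rfl⟩
  have := hb.orthonormal.linearIndependent.finite_of_isNoetherian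
  exact not_finite ℕ

lemma X_refl : Function.Surjective (NormedSpace.inclusionInDoubleDual ℂ X) :=
  refl_of_equiv ((WithLp.prodContinuousLinearEquiv 1 ℂ ℂ H).trans
    (WithLp.prodContinuousLinearEquiv 2 ℂ ℂ H).symm)

noncomputable def inr : H →L[ℂ] X :=
  ((WithLp.prodContinuousLinearEquiv 1 ℂ ℂ H).symm : ℂ × H →L[ℂ] X).comp
    (ContinuousLinearMap.inr ℂ ℂ H)
noncomputable def inl : ℂ →L[ℂ] X :=
  ((WithLp.prodContinuousLinearEquiv 1 ℂ ℂ H).symm : ℂ × H →L[ℂ] X).comp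
    (ContinuousLinearMap.inl ℂ ℂ H)
noncomputable def p1 : X →L[ℂ] ℂ := WithLp.fstL 1 ℂ ℂ H
noncomputable def p2 : X →L[ℂ] H := WithLp.sndL 1 ℂ ℂ H

lemma norm_X (x : X) : ‖x‖ = ‖p1 x‖ + ‖p2 x‖ := WithLp.prod_norm_eq_of_L1 x
lemma norm_inr (h : H) : ‖inr h‖ = ‖h‖ := WithLp.norm_toLp_snd 1 ℂ H h
lemma norm_inl (a : ℂ) : ‖inl a‖ = ‖a‖ := WithLp.norm_toLp_fst 1 ℂ H a
lemma decomp (x : X) : x = inl (p1 x) + inr (p2 x) := by
  apply (WithLp.prodContinuousLinearEquiv 1 ℂ ℂ H).injective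
  ext <;> simp [inl, inr, p1, p2]

lemma key (T : X →L[ℂ] X) (hT : ‖T‖ ≤ 1) (e : H) (he : p1 (T (inr e)) ≠ 0) :
    ∃ q : ℝ, q < 1 ∧ ∀ y, ‖T y‖ ≤ ‖p1 y‖ + ‖(p1.comp (T.comp (inr.comp p2))) y‖ + q * ‖y‖ := by
  have hT' : ∀ x, ‖T x‖ ≤ ‖x‖ := fun x =>
    (T.le_opNorm _).trans (by simpa using mul_le_mul_of_nonneg_right hT (norm_nonneg _))
  set φ : H →L[ℂ] ℂ := p1.comp (T.comp inr) with hφ
  set S : H →L[ℂ] H := p2.comp (T.comp inr) with hS
  have hb : ∀ h, ‖φ h‖ + ‖S h‖ ≤ ‖h‖ := fun h => by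
    have := hT' (inr h)
    rwa [norm_X, norm_inr] at this
  have he' : φ e ≠ 0 := he
  set u : H := (φ e)⁻¹ • e with hu
  have hφu : φ u = 1 := by rw [hu, map_smul, smul_eq_mul, inv_mul_cancel₀ he']
  set M := ‖u‖ with hM
  have hM1 : 1 ≤ M := by
    have := hb u
    rw [hφu, norm_one] at this
    linarith [norm_nonneg (S u)]
  have hSq : ∀ h, ‖S h‖ ≤ (1 - 1 / (2 * M ^ 2)) * ‖h‖ := by
    intro h
    set t : ℝ := ‖h‖ / M ^ 2 with ht
    have ht0 : 0 ≤ t := by positivity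
    have a := hb (h + (t:ℂ) • u)
    have b := hb (h - (t:ℂ) • u)
    have c : 2 * ‖S h‖ ≤ ‖S (h + (t:ℂ) • u)‖ + ‖S (h - (t:ℂ) • u)‖ := by
      have := norm_add_le (S (h + (t:ℂ) • u)) (S (h - (t:ℂ) • u))
      rw [← map_add, show h + (t:ℂ) • u + (h - (t:ℂ) • u) = (2:ℂ) • h by
        rw [two_smul]; abel, map_smul, norm_smul] at this
      simpa using this
    have d : 2 * t ≤ ‖φ (h + (t:ℂ) • u)‖ + ‖φ (h - (t:ℂ) • u)‖ := by
      have := norm_sub_le (φ (h + (t:ℂ) • u)) (φ (h - (t:ℂ) • u))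
      rw [← map_sub, show h + (t:ℂ) • u - (h - (t:ℂ) • u) = (2 * t:ℂ) • u by
        rw [two_mul, add_smul]; abel, map_smul, hφu] at this
      simpa [abs_of_nonneg ht0] using this
    have p := parallelogram_law_with_norm ℂ h ((t:ℂ) • u)
    have nt : ‖(t:ℂ) • u‖ = t * M := by rw [norm_smul]; simp [abs_of_nonneg ht0, hM]
    rw [nt] at p
    have htM : t * M ^ 2 = ‖h‖ := by rw [ht]; field_simp
    have f : ‖h + (t:ℂ) • u‖ + ‖h - (t:ℂ) • u‖ ≤ 2 * ‖h‖ + t := by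
      apply abs_le_of_sq_le_sq' _ (by positivity) |>.2
      nlinarith [sq_nonneg (‖h + (t:ℂ) • u‖ - ‖h - (t:ℂ) • u‖), norm_nonneg h, sq_nonneg t]
    have g : (1 - 1 / (2 * M ^ 2)) * ‖h‖ = ‖h‖ - t / 2 := by rw [ht]; field_simp
    rw [g]; linarith
  have hq0 : 0 ≤ 1 - 1 / (2 * M ^ 2) := by
    rw [sub_nonneg, div_le_one (by positivity)]; nlinarith
  refine ⟨1 - 1 / (2 * M ^ 2), by have : 0 < 1 / (2 * M ^ 2) := by positivity
                                  linarith, fun y => ?_⟩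
  conv_lhs => rw [decomp y, map_add]
  have a := hT' (inl (p1 y))
  rw [norm_inl] at a
  have b : ‖T (inr (p2 y))‖ = ‖φ (p2 y)‖ + ‖S (p2 y)‖ := norm_X _
  have c := hSq (p2 y)
  have d : ‖p2 y‖ ≤ ‖y‖ := by rw [norm_X]; linarith [norm_nonneg (p1 y)]
  have e' := mul_le_mul_of_nonneg_left d hq0
  have f := norm_add_le (T (inl (p1 y))) (T (inr (p2 y)))
  change _ ≤ _ + ‖φ (p2 y)‖ + _
  linarith

lemma exists_T : ∃ T : X →L[ℂ] X, ‖T‖ ≤ 1 ∧ p1 (T (inr (hb 0))) ≠ 0 := by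
  have h1 : ‖hb 0‖ = 1 := hb.orthonormal.1 0
  refine ⟨inl.comp ((innerSL ℂ (hb 0)).comp p2), ?_, ?_⟩
  · refine ContinuousLinearMap.opNorm_le_bound _ zero_le_one fun y => ?_
    change ‖inl (inner ℂ (hb 0) (p2 y))‖ ≤ _
    rw [norm_inl, one_mul, norm_X]
    have := norm_inner_le_norm (𝕜 := ℂ) (hb 0) (p2 y)
    rw [h1] at this
    linarith [norm_nonneg (p1 y)]
  · change inner ℂ (hb 0) (hb 0) ≠ 0
    rw [inner_self_ne_zero]
    intro h; rw [h] at h1; simp at h1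

end Pool.Agent.H29.WOTStab
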