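import Mathlib

open Filter Topology

namespace Pool.Agent.H29.Walk

/-- non-hitting probabilities -/
noncomputable def hit (α : ℝ) : ℕ → ℤ → ℝ
  | 0, _ => 1
  | n + 1, j => if j = 0 then 0 else α * hit α n j + (1 - α) / 2 * (hit α n (j + 1) + hit α n (j - 1))

theorem hit_tendsto {α : ℝ} (h0 : 0 ≤ α) (h1 : α < 1) (j : ℤ) :
    Tendsto (fun n => hit α n j) atTop (𝓝 0) := by
  have h2 : 0 ≤ (1 - α) / 2 := by linarith
  have hb : ∀ n j, 0 ≤ hit α n j ∧ hit α n j ≤ 1 := by
    intro n
    induction n with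
    | zero => intro j; simp [hit]
    | succ n ih =>
      intro j
      rw [hit]
      split_ifs
      · simp
      · have := ih j; have := ih (j + 1); have := ih (j - 1)
        constructor <;> nlinarith
  have hm : ∀ n j, hit α (n + 1) j ≤ hit α n j := by
    intro n
    induction n with
    | zero => exact fun j => (hb 1 j).2
    | succ n ih =>
      intro j
      have := ih j; have := ih (j + 1); have := ih (j - 1)
      calc hit α (n + 1 + 1) j = if j = 0 then 0 else α * hit α (n + 1) j +
            (1 - α) / 2 * (hit α (n + 1) (j + 1) + hit α (n + 1) (j - 1)) := rfl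
        _ ≤ if j = 0 then 0 else α * hit α n j + (1 - α) / 2 * (hit α n (j + 1) + hit α n (j - 1)) := by
            split_ifs
            · rfl
            · gcongr
        _ = hit α (n + 1) j := rfl
  have hl : ∀ j, ∃ r, Tendsto (fun n => hit α n j) atTop (𝓝 r) := fun j =>
    ⟨_, tendsto_atTop_ciInf (antitone_nat_of_succ_le fun n => hm n j)
      ⟨0, by rintro _ ⟨n, rfl⟩; exact (hb n j).1⟩⟩
  choose H hH using hl
  have b0 : ∀ j, 0 ≤ H j := fun j => ge_of_tendsto' (hH j) fun n => (hb n j).1
  have b1 : ∀ j, H j ≤ 1 := fun j => le_of_tendsto' (hH j) fun n => (hb n j).2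
  have z : H 0 = 0 := tendsto_nhds_unique ((hH 0).comp (tendsto_add_atTop_nat 1))
    (tendsto_const_nhds.congr fun n => by simp [hit])
  have r : ∀ j, j ≠ 0 → H (j + 1) + H (j - 1) = 2 * H j := by
    intro j hj
    have := tendsto_nhds_unique ((hH j).comp (tendsto_add_atTop_nat 1))
      ((((hH j).const_mul α).add (((hH (j + 1)).add (hH (j - 1))).const_mul ((1 - α) / 2))).congr
        fun n => by simp [hit, hj])
    have h3 : (1 - α) * (H (j + 1) + H (j - 1) - 2 * H j) = 0 := by linarith
    have := (mul_eq_zero.1 h3).resolve_left (by linarith)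
    linarith
  have lin : ∀ e : ℤ, (e = 1 ∨ e = -1) → ∀ k : ℕ, H (k * e) = k * H e ∧
      H ((k + 1) * e) = (k + 1) * H e := by
    intro e he k
    induction k with
    | zero => simp [z]
    | succ k ih =>
      refine ⟨by push_cast; exact ih.2, ?_⟩
      have := r ((k + 1) * e) (by rcases he with rfl | rfl <;> omega)
      push_cast
      rcases he with rfl | rfl
      · rw [show ((k : ℤ) + 1) * 1 - 1 = k * 1 by ring,
          show ((k : ℤ) + 1) * 1 + 1 = (k + 1 + 1) * 1 by ring] at this
        linarith [ih.1, ih.2]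
      · rw [show ((k : ℤ) + 1) * -1 + 1 = k * -1 by ring,
          show ((k : ℤ) + 1) * -1 - 1 = (k + 1 + 1) * -1 by ring] at this
        linarith [ih.1, ih.2]
  have one : ∀ e : ℤ, (e = 1 ∨ e = -1) → H e = 0 := by
    intro e he
    by_contra hne
    have hp : 0 < H e := lt_of_le_of_ne (b0 e) (Ne.symm hne)
    obtain ⟨k, hk⟩ := exists_nat_gt (1 / H e)
    rw [div_lt_iff₀ hp] at hk
    linarith [(lin e he k).1, b1 (k * e)]
  have : H j = 0 := by
    obtain ⟨k, rfl | rfl⟩ := Int.eq_nat_or_neg j
    · simpa [one 1 (Or.inl rfl)] using (lin 1 (Or.inl rfl) k).1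
    · simpa [one (-1) (Or.inr rfl)] using (lin (-1) (Or.inr rfl) k).1
  exact this ▸ hH j

/-- the lazy walk on the integers -/
noncomputable def Q (φ : ℤ → ℝ) (j : ℤ) : ℝ := φ j / 2 + (φ (j + 1) + φ (j - 1)) / 4

theorem Q_diff {φ : ℤ → ℝ} (h : ∀ i j, φ i - φ j ≤ 1) (n : ℕ) (i j : ℤ) :
    Q^[n] φ i - Q^[n] φ j ≤ hit 0 n (i - j) := by
  induction n generalizing i j with
  | zero => exact h i j
  | succ n ih =>
    rw [Function.iterate_succ_apply', hit]
    split_ifs with h1
    · rw [sub_eq_zero.1 h1, sub_self]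
    · have a1 := ih (i + 1) j
      have a2 := ih (i - 1) j
      have a3 := ih i (j + 1)
      have a4 := ih i (j - 1)
      rw [show i + 1 - j = i - j + 1 by ring] at a1
      rw [show i - 1 - j = i - j - 1 by ring] at a2
      rw [show i - (j + 1) = i - j - 1 by ring] at a3
      rw [show i - (j - 1) = i - j + 1 by ring] at a4
      simp only [Q]; linarith

theorem Q_shift (φ : ℤ → ℝ) (c : ℤ) (n : ℕ) (j : ℤ) :
    Q^[n] (fun i => φ (i + c)) j = Q^[n] φ (j + c) := by
  induction n generalizing j with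
  | zero => rfl
  | succ n ih =>
    simp only [Function.iterate_succ_apply', Q, ih]
    rw [add_right_comm j 1, show j - 1 + c = j + c - 1 by ring]

theorem Q_sum {ι : Type} (s : Finset ι) (φ : ι → ℤ → ℝ) (h : ∀ j, ∑ i ∈ s, φ i j ≤ 1) (n : ℕ)
    (j : ℤ) : ∑ i ∈ s, Q^[n] (φ i) j ≤ 1 := by
  induction n generalizing j with
  | zero => exact h j
  | succ n ih =>
    simp only [Function.iterate_succ_apply', Q, Finset.sum_add_distrib, ← Finset.sum_div]
    linarith [ih j, ih (j + 1), ih (j - 1)]

theorem Q_nonneg {φ : ℤ → ℝ} (h : ∀ j, 0 ≤ φ j) (n : ℕ) (j : ℤ) : 0 ≤ Q^[n] φ j := by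
  induction n generalizing j with
  | zero => exact h j
  | succ n ih =>
    simp only [Function.iterate_succ_apply', Q]
    linarith [ih j, ih (j + 1), ih (j - 1)]

theorem anti (K : ℕ) : Tendsto (fun n => Q^[n] (fun j => if |j| ≤ K then 1 else 0) 0) atTop (𝓝 0) := by
  set φ : ℤ → ℝ := fun j => if |j| ≤ K then 1 else 0 with hφ
  have h1 : ∀ i j, φ i - φ j ≤ 1 := fun i j => by simp only [φ]; split_ifs <;> norm_num
  rw [Metric.tendsto_atTop]
  intro ε hε
  obtain ⟨M, hM⟩ := exists_nat_gt (2 / ε)
  rw [div_lt_iff₀ hε] at hM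
  have h2 := tendsto_finsetSum (Finset.range M) fun (i : ℕ) _ =>
    hit_tendsto le_rfl one_pos (0 - (0 + i * (2 * K + 1)))
  rw [Finset.sum_const_zero] at h2
  obtain ⟨N, hN⟩ := eventually_atTop.1 (h2.eventually (gt_mem_nhds one_pos))
  refine ⟨N, fun n hn => ?_⟩
  have h3 := Q_sum (Finset.range M) (fun (i : ℕ) j => φ (j + i * (2 * K + 1))) (fun j => by
    rw [hφ, Finset.sum_boole]
    have : ((Finset.range M).filter fun i : ℕ => |j + i * (2 * K + 1)| ≤ K).card ≤ 1 := by
      rw [Finset.card_le_one]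
      intro a ha b hb
      have ha := abs_le.1 (Finset.mem_filter.1 ha).2
      have hb := abs_le.1 (Finset.mem_filter.1 hb).2
      by_contra hab
      rcases lt_or_gt_of_ne hab with h | h
      · have : (a : ℤ) + 1 ≤ b := by exact_mod_cast h
        nlinarith
      · have : (b : ℤ) + 1 ≤ a := by exact_mod_cast h
        nlinarith
    exact_mod_cast this) n 0
  simp only [Q_shift] at h3
  have h4 := Finset.sum_le_sum fun (i : ℕ) (_ : i ∈ Finset.range M) =>
    Q_diff h1 n 0 (0 + i * (2 * K + 1))
  rw [Finset.sum_sub_distrib, Finset.sum_const, Finset.card_range, nsmul_eq_mul] at h4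
  have h5 := hN n hn
  have h6 := Q_nonneg (φ := φ) (fun j => by simp only [φ]; split_ifs <;> norm_num) n 0
  rw [Real.dist_eq, sub_zero, abs_of_nonneg h6]
  by_contra! h
  have := mul_le_mul_of_nonneg_left h (Nat.cast_nonneg (α := ℝ) M)
  linarith

section
variable {G : Type} [Group G] {ι : Type} [Fintype ι]

/-- right averaging operator -/
noncomputable def R (σ : ι → G) (f : G → ℝ) (g : G) : ℝ := (∑ i, f (g * σ i)) / Fintype.card ι

/-- left averaging operator -/
noncomputable def L (σ : ι → G) (f : G → ℝ) (g : G) : ℝ := (∑ i, f (σ i * g)) / Fintype.card ι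

theorem RL (σ τ : ι → G) (f : G → ℝ) : R σ (L τ f) = L τ (R σ f) := by
  funext g
  simp only [R, L, ← Finset.sum_div, mul_assoc]
  rw [Finset.sum_comm]

theorem R_eq_L (σ : ι → G) (n : ℕ) (f : G → ℝ) : (R σ)^[n] f 1 = (L σ)^[n] f 1 := by
  induction n generalizing f with
  | zero => rfl
  | succ n ih =>
    have hc : Function.Commute (R σ) (L σ) := RL σ σ
    rw [Function.iterate_succ_apply, ih, ← (hc.iterate_right n) f, Function.iterate_succ_apply']
    simp [R, L]

theorem R_inv (σ : ι → G) (n : ℕ) (f : G → ℝ) :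
    (R σ)^[n] (fun g => f g⁻¹) 1 = (R fun i => (σ i)⁻¹)^[n] f 1 := by
  rw [R_eq_L]
  have : ∀ g, (L σ)^[n] (fun g => f g⁻¹) g = (R fun i => (σ i)⁻¹)^[n] f g⁻¹ := by
    induction n with
    | zero => intro g; rfl
    | succ n ih => intro g; simp only [Function.iterate_succ_apply', L, R, ih, mul_inv_rev]
  rw [this, inv_one]

theorem R_hom {H : Type} [Group H] (π : G →* H) (σ : ι → G) (n : ℕ) (f : H → ℝ) (g : G) :
    (R σ)^[n] (fun g => f (π g)) g = (R fun i => π (σ i))^[n] f (π g) := by
  induction n generalizing g with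
  | zero => rfl
  | succ n ih => simp only [Function.iterate_succ_apply', R, ih, map_mul]

theorem R_left (σ : ι → G) (n : ℕ) (f : G → ℝ) (u g : G) :
    (R σ)^[n] (fun x => f (u * x)) g = (R σ)^[n] f (u * g) := by
  induction n generalizing g with
  | zero => rfl
  | succ n ih => simp only [Function.iterate_succ_apply', R, ih, mul_assoc]

theorem R_mono (σ : ι → G) (n : ℕ) {f f' : G → ℝ} (h : ∀ g, f g ≤ f' g) (g : G) :
    (R σ)^[n] f g ≤ (R σ)^[n] f' g := by
  induction n generalizing g with
  | zero => exact h g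
  | succ n ih =>
    simp only [Function.iterate_succ_apply', R]
    exact div_le_div_of_nonneg_right (Finset.sum_le_sum fun i _ => ih _) (Nat.cast_nonneg _)

theorem R_lin (σ : ι → G) (n : ℕ) {κ : Type} (s : Finset κ) (c : κ → ℝ) (f : κ → G → ℝ) (g : G) :
    (R σ)^[n] (fun x => ∑ k ∈ s, c k * f k x) g = ∑ k ∈ s, c k * (R σ)^[n] (f k) g := by
  induction n generalizing g with
  | zero => rfl
  | succ n ih =>
    simp only [Function.iterate_succ_apply', R, ih, ← mul_div_assoc, ← Finset.sum_div,
      Finset.mul_sum]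
    rw [Finset.sum_comm]

theorem R_const [Nonempty ι] (σ : ι → G) (n : ℕ) (c : ℝ) (g : G) :
    (R σ)^[n] (fun _ => c) g = c := by
  induction n generalizing g with
  | zero => rfl
  | succ n ih =>
    have : (Fintype.card ι : ℝ) ≠ 0 := by simp
    simp only [Function.iterate_succ_apply', R, ih, Finset.sum_const, Finset.card_univ, nsmul_eq_mul]
    field_simp

theorem R_add (σ : ι → G) (n : ℕ) (f f' : G → ℝ) (g : G) :
    (R σ)^[n] (fun x => f x + f' x) g = (R σ)^[n] f g + (R σ)^[n] f' g := by
  induction n generalizing g with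
  | zero => rfl
  | succ n ih => simp only [Function.iterate_succ_apply', R, ih, Finset.sum_add_distrib, add_div]

theorem R_mul (σ : ι → G) (n : ℕ) (c : ℝ) (f : G → ℝ) (g : G) :
    (R σ)^[n] (fun x => c * f x) g = c * (R σ)^[n] f g := by
  simpa using R_lin σ n {()} (fun _ => c) (fun _ => f) g

/-- convolution -/
noncomputable def conv (a b : G →₀ ℝ) : G →₀ ℝ :=
  a.sum fun g x => b.sum fun h y => Finsupp.single (g * h) (x * y)

/-- convolution powers -/
noncomputable def cpow (μ : G →₀ ℝ) : ℕ → G →₀ ℝ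
  | 0 => Finsupp.single 1 1
  | n + 1 => conv (cpow μ n) μ

/-- the step distribution of a family -/
noncomputable def unif (σ : ι → G) : G →₀ ℝ := ∑ i, Finsupp.single (σ i) (1 / Fintype.card ι)

theorem lc_unif (σ : ι → G) (f : G → ℝ) :
    Finsupp.linearCombination ℝ f (unif σ) = (∑ i, f (σ i)) / Fintype.card ι := by
  simp [unif, Finset.sum_div, div_eq_inv_mul, Finset.mul_sum]

theorem lc_cpow (σ : ι → G) (n : ℕ) (f : G → ℝ) :
    Finsupp.linearCombination ℝ f (cpow (unif σ) n) = (R σ)^[n] f 1 := by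
  induction n generalizing f with
  | zero => simp [cpow]
  | succ n ih =>
    rw [Function.iterate_succ_apply, ← ih, cpow, conv, map_finsuppSum,
      Finsupp.linearCombination_apply]
    refine Finsupp.sum_congr fun g _ => ?_
    rw [R, ← lc_unif σ fun h => f (g * h), map_finsuppSum, Finsupp.linearCombination_apply,
      Finsupp.smul_sum]
    simp only [Finsupp.linearCombination_single, smul_eq_mul, mul_assoc]

theorem unif_apply (σ : ι → G) (g : G) [DecidableEq G] :
    unif σ g = (∑ i, if σ i = g then 1 else 0) / Fintype.card ι := by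
  rw [← lc_unif σ fun h => if h = g then 1 else 0, Finsupp.linearCombination_apply]
  simp [Finsupp.sum]

end

end Pool.Agent.H29.Walk
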