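import Mathlib

set_option autoImplicit false

namespace Pool.Agent.H29.Wedge

open ExteriorAlgebra

abbrev V := Fin 8 → ℤ

def ev (n : ℕ) : V := fun i => if (i : ℕ) = n then 1 else 0

noncomputable def mon (l : List ℕ) : ExteriorAlgebra ℤ V := (l.map fun n => ι ℤ (ev n)).prod

def ins (i : ℕ) : List ℕ → ℤ × List ℕ
  | [] => (1, [i])
  | j :: l => if i < j then (1, i :: j :: l) else if i = j then (0, [])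
      else (-(ins i l).1, j :: (ins i l).2)

def nf : List ℕ → ℤ × List ℕ
  | [] => (1, [])
  | i :: l => ((nf l).1 * (ins i (nf l).2).1, (ins i (nf l).2).2)

theorem mon_cons (i : ℕ) (l : List ℕ) : mon (i :: l) = ι ℤ (ev i) * mon l := by simp [mon]

theorem ins_spec (i : ℕ) (l : List ℕ) : ι ℤ (ev i) * mon l = (ins i l).1 • mon (ins i l).2 := by
  induction l with
  | nil => simp [ins, mon]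
  | cons j l ih =>
    unfold ins
    split_ifs with h1 h2
    · simp [mon_cons]
    · subst h2; rw [mon_cons, ← mul_assoc, ι_sq_zero]; simp
    · have h := ι_add_mul_swap (R := ℤ) (ev i) (ev j)
      rw [mon_cons, ← mul_assoc, eq_neg_of_add_eq_zero_left h, neg_mul, mul_assoc, ih, mon_cons,
        mul_smul_comm, neg_smul]

theorem nf_spec (l : List ℕ) : mon l = (nf l).1 • mon (nf l).2 := by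
  induction l with
  | nil => simp [nf]
  | cons i l ih =>
    rw [mon_cons, ih, mul_smul_comm, ins_spec, smul_smul]; rfl

def omL : List (ℤ × List ℕ) := [(2, [0,1,2,3]), (1, [1,2,3,4]), (-1, [0,1,2,5]), (1, [0,1,4,5]), (-1, [0,2,4,5]), (-1, [0,3,4,5]), (1, [0,1,3,6]), (-1, [0,2,4,6]), (2, [0,3,4,6]), (-1, [0,1,5,6]), (1, [2,3,5,6]), (-2, [0,2,3,7]), (-1, [0,1,4,7]), (-1, [1,2,5,7]), (1, [1,3,5,7]), (-1, [2,4,5,7]), (1, [1,3,6,7]), (1, [2,3,6,7]), (-1, [0,5,6,7]), (1, [4,5,6,7])]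

def prL : List (ℕ × ℕ) := [(0, 1), (0, 2), (0, 3), (0, 4), (0, 5), (0, 6), (0, 7), (1, 2), (1, 3), (1, 4), (1, 5), (1, 6), (1, 7), (2, 3), (2, 4), (2, 5), (2, 6), (2, 7), (3, 4), (3, 5), (3, 6), (3, 7), (4, 5), (4, 6), (4, 7), (5, 6), (5, 7), (6, 7)]

def pr (a : Fin 28) : ℕ × ℕ := prL.getD a (0, 0)

def AL : List (List ℤ) :=
  [[0,0,0,0,0,0,0,0,0,0,0,0,0,1,0,0,0,0,0,0,-1,0,1,0,1,0,0,0],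
   [0,0,0,0,0,0,0,0,-1,0,0,0,0,0,0,0,0,0,0,0,0,0,-1,1,0,0,0,0],
   [0,0,0,0,0,0,0,1,0,0,0,1,0,0,0,0,0,0,0,0,0,0,0,1,0,0,0,0],
   [0,0,0,0,0,0,0,0,0,0,-1,0,-1,0,0,1,-1,0,0,0,-1,0,0,0,0,0,0,0],
   [0,0,0,0,0,0,0,0,0,1,0,0,0,0,-1,0,0,0,0,0,0,0,0,0,0,0,0,1],
   [0,0,0,0,0,0,0,0,-1,0,0,0,0,0,1,0,0,0,1,0,0,0,0,0,0,0,-1,0],
   [0,0,0,0,0,0,0,0,0,1,0,0,0,0,0,0,0,0,0,0,0,0,0,0,0,1,0,0],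
   [0,0,1,0,0,0,0,0,0,0,0,0,0,0,0,0,0,0,-1,0,0,0,0,0,0,0,-2,-1],
   [0,-1,0,0,0,-1,0,0,0,0,0,0,0,0,1,0,0,0,0,0,0,0,0,0,0,0,-1,1],
   [0,0,0,0,1,0,1,0,0,0,0,0,0,-1,0,0,0,0,0,0,0,0,0,0,0,-2,0,0],
   [0,0,0,-1,0,0,0,0,0,0,0,0,0,0,0,0,0,2,0,0,0,1,0,2,0,0,0,0],
   [0,0,1,0,0,0,0,0,0,0,0,0,0,0,0,0,0,1,0,0,0,-1,-2,0,0,0,0,0],
   [0,0,0,-1,0,0,0,0,0,0,0,0,0,0,0,-2,-1,0,0,-1,1,0,0,0,0,0,0,0],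
   [1,0,0,0,0,0,0,0,0,-1,0,0,0,0,0,0,0,0,0,0,0,0,0,0,-1,-1,0,1],
   [0,0,0,0,-1,1,0,0,1,0,0,0,0,0,0,0,0,0,0,0,0,1,0,0,0,0,1,0],
   [0,0,0,1,0,0,0,0,0,0,0,0,-2,0,0,0,0,0,0,0,1,0,0,0,-1,0,0,0],
   [0,0,0,-1,0,0,0,0,0,0,0,0,-1,0,0,0,0,0,0,-1,0,-1,0,0,0,0,0,0],
   [0,0,0,0,0,0,0,0,0,0,2,1,0,0,0,0,0,0,-1,0,1,0,1,0,0,0,0,0],
   [0,0,0,0,0,1,0,-1,0,0,0,0,0,0,0,0,0,-1,0,0,0,0,0,0,0,0,0,-1],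
   [0,0,0,0,0,0,0,0,0,0,0,0,-1,0,0,0,-1,0,0,0,0,0,0,0,0,0,0,0],
   [-1,0,0,-1,0,0,0,0,0,0,0,0,1,0,0,1,0,1,0,0,0,0,0,0,1,0,0,0],
   [0,0,0,0,0,0,0,0,0,0,1,-1,0,0,1,0,-1,0,0,0,0,0,0,-1,0,0,0,0],
   [1,-1,0,0,0,0,0,0,0,0,0,-2,0,0,0,0,0,1,0,0,0,0,0,0,0,0,0,2],
   [0,1,1,0,0,0,0,0,0,0,2,0,0,0,0,0,0,0,0,0,0,-1,0,0,0,0,-2,0],
   [1,0,0,0,0,0,0,0,0,0,0,0,0,-1,0,-1,0,0,0,0,1,0,0,0,0,2,0,0],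
   [0,0,0,0,0,0,1,0,0,-2,0,0,0,-1,0,0,0,0,0,0,0,0,0,0,2,0,0,0],
   [0,0,0,0,0,-1,0,-2,-1,0,0,0,0,0,1,0,0,0,0,0,0,0,0,-2,0,0,0,0],
   [0,0,0,0,1,0,0,-1,1,0,0,0,0,1,0,0,0,0,-1,0,0,0,2,0,0,0,0,0]]

def PL : List (List ℤ) :=
  [[1,0,0,0,0,0,0,0,0,0,0,0,0,0,0,0,0,0,0,0,0,0,0,0,0,0,0,0],
   [0,0,0,0,0,0,0,0,0,0,0,0,0,1,0,0,0,0,0,0,0,0,0,0,0,0,0,0],
   [0,1,0,0,0,0,0,0,0,0,0,0,0,0,0,0,0,0,0,0,0,0,0,0,0,0,0,0],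
   [0,0,0,0,0,0,0,0,-1,0,0,0,0,0,0,0,0,0,0,0,0,0,0,0,0,0,0,0],
   [0,0,1,0,0,0,0,0,0,0,0,0,0,0,0,0,0,0,0,0,0,0,0,0,0,0,0,0],
   [0,0,0,0,0,0,0,1,0,0,0,0,0,0,0,0,0,0,0,0,0,0,0,0,0,0,0,0],
   [0,0,0,1,0,0,0,0,0,0,0,0,0,0,0,0,0,0,0,0,0,0,0,0,0,0,0,0],
   [0,0,0,0,0,0,0,0,0,0,-1,0,0,0,0,0,0,0,0,0,0,0,0,0,0,0,0,0],
   [0,0,0,0,1,0,0,0,0,0,0,0,0,0,0,0,0,0,0,0,0,0,0,0,0,0,0,0],
   [0,-1,0,0,0,0,0,0,0,0,0,0,0,0,-1,0,0,0,0,0,0,0,0,0,0,0,0,0],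
   [0,0,0,0,0,0,1,0,0,0,0,0,0,0,0,0,0,0,0,0,0,0,0,0,0,0,0,0],
   [1,1,0,0,0,0,0,0,0,1,0,0,0,0,1,0,0,0,0,0,0,0,0,0,0,0,0,0],
   [0,0,0,0,0,0,0,0,0,0,-1,0,1,0,0,0,0,0,0,0,0,0,0,0,0,0,0,0],
   [0,0,0,0,0,0,0,0,0,0,1,0,0,0,0,0,-1,0,0,0,0,0,0,0,0,0,0,0],
   [0,0,0,0,0,0,0,-1,0,0,0,1,0,0,0,0,0,0,0,0,0,0,0,0,0,0,0,0],
   [0,0,1,0,0,0,0,0,0,0,0,0,0,0,0,0,0,0,1,0,0,0,0,0,0,0,0,0],
   [0,0,0,0,0,0,1,0,0,0,0,0,-1,1,0,0,0,0,0,1,1,0,0,0,0,0,0,0],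
   [0,0,-1,-1,-1,0,1,0,0,0,-1,0,1,0,0,0,0,0,-1,1,0,-1,0,0,0,0,0,0],
   [0,-1,0,0,1,1,0,1,0,0,0,-1,-1,1,0,0,0,0,0,1,1,0,0,0,0,0,0,0],
   [0,1,1,1,0,-1,0,-1,0,0,0,1,1,0,0,1,0,0,1,-3,0,1,0,0,0,0,0,0],
   [0,-1,2,0,0,0,-1,0,-1,0,0,0,0,-1,0,0,0,0,0,0,0,0,1,0,0,0,1,0],
   [1,-1,0,0,-1,-1,1,0,0,0,-1,0,2,0,-1,1,0,0,1,-2,0,0,0,0,0,0,0,-1],
   [-1,1,0,0,-1,-1,1,-1,0,0,0,1,1,0,0,0,0,0,0,-1,-1,0,0,0,-1,0,0,0],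
   [-1,0,-3,0,0,3,0,1,0,0,0,-1,-2,0,1,-2,0,1,-2,4,0,-2,0,0,0,0,-1,1],
   [0,-3,9,-2,3,-3,0,1,-1,-1,2,-1,-1,1,-2,2,0,-3,4,-1,1,4,1,0,-1,1,3,-1],
   [0,1,3,0,-1,-2,0,-1,0,0,-1,0,2,-1,0,1,0,-1,1,-2,0,0,1,1,0,0,1,0],
   [-5,-4,9,-3,3,0,2,1,-3,-3,2,0,-1,-1,-2,-1,1,-2,2,1,-3,3,2,-1,-4,3,3,1],
   [10,10,-29,9,-6,4,-4,-3,7,6,-3,3,1,2,5,0,-2,8,-8,-3,4,-7,-7,0,9,-6,-10,-1]]

def CL : List (List ℤ) :=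
  [[0,0,0,0,0,0,0,0,0,0,0,0,0,1,0,0,0,0,0,0,-1,0,1,0,1,0,0,0],
   [1,0,0,0,0,0,0,0,0,-1,0,0,0,0,0,0,0,0,0,0,0,0,0,0,-1,-1,0,1],
   [0,0,0,0,0,0,0,0,-1,0,0,0,0,0,0,0,0,0,0,0,0,0,-1,1,0,0,0,0],
   [0,1,0,0,0,1,0,0,0,0,0,0,0,0,-1,0,0,0,0,0,0,0,0,0,0,0,1,-1],
   [0,0,0,0,0,0,0,1,0,0,0,1,0,0,0,0,0,0,0,0,0,0,0,1,0,0,0,0],
   [0,0,1,0,0,0,0,0,0,0,0,0,0,0,0,0,0,0,-1,0,0,0,0,0,0,0,-2,-1],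
   [0,0,0,0,0,0,0,0,0,0,-1,0,-1,0,0,1,-1,0,0,0,-1,0,0,0,0,0,0,0],
   [0,0,0,1,0,0,0,0,0,0,0,0,0,0,0,0,0,-2,0,0,0,-1,0,-2,0,0,0,0],
   [0,0,0,0,0,0,0,0,0,1,0,0,0,0,-1,0,0,0,0,0,0,0,0,0,0,0,0,1],
   [0,0,0,0,1,-1,0,0,0,0,0,0,0,0,0,0,0,0,0,0,0,-1,1,-1,0,0,-1,0],
   [0,0,0,0,0,0,0,0,0,1,0,0,0,0,0,0,0,0,0,0,0,0,0,0,0,1,0,0],
   [0,0,0,0,0,1,1,0,0,0,0,0,0,0,0,0,0,0,0,0,-1,1,0,1,1,-2,1,0],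
   [0,0,0,0,0,0,0,0,0,0,0,0,0,0,0,-2,-1,-2,0,-1,1,-1,0,-2,0,0,0,0],
   [0,0,0,0,0,0,0,0,0,0,0,0,1,0,0,0,0,2,0,1,0,2,0,2,0,0,0,0],
   [0,0,0,0,0,0,0,0,0,0,0,0,0,0,0,0,0,1,1,0,0,-1,-2,0,0,0,2,1],
   [0,0,0,0,0,1,0,0,0,0,0,1,0,0,0,0,0,-1,0,0,0,0,0,1,0,0,0,-1],
   [0,0,0,0,0,0,0,0,0,0,0,0,0,0,0,3,0,1,0,1,-1,0,0,0,0,0,0,1],
   [0,0,0,0,0,-1,0,0,0,0,0,0,0,0,0,-3,0,-1,0,-1,2,-1,0,-2,0,1,0,0],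
   [0,0,0,0,0,0,0,0,0,0,0,0,0,0,0,3,0,0,0,1,-1,1,3,-1,0,-1,-3,1],
   [0,0,0,0,0,1,0,0,0,0,0,0,0,0,0,-1,0,0,0,-1,1,-1,-3,1,-1,0,3,0],
   [0,0,0,0,0,0,0,0,0,0,0,0,0,0,0,0,0,1,0,0,0,0,1,-1,1,0,1,0],
   [0,0,0,0,0,0,0,0,0,0,0,0,0,0,0,-4,0,-3,0,-2,2,-2,0,-3,0,1,0,-2],
   [0,0,0,0,0,0,0,0,0,0,0,0,0,0,0,-2,0,0,0,-1,1,-1,-4,1,-2,-1,3,0],
   [0,0,0,0,0,0,0,0,0,0,0,0,0,0,0,4,0,1,0,2,-2,2,4,1,1,0,-4,1],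
   [0,0,0,0,0,0,0,0,0,0,0,0,0,0,0,2,0,1,0,1,-1,1,0,0,0,-1,0,0],
   [0,0,0,0,0,0,0,0,0,0,0,0,0,0,0,-4,0,-2,0,-2,2,-2,-2,0,0,1,2,0],
   [0,0,0,0,0,0,0,0,0,0,0,0,0,0,0,0,0,1,0,0,0,0,-1,0,0,1,1,0],
   [0,0,0,0,0,0,0,0,0,0,0,0,0,0,0,2,0,2,0,1,-1,1,0,2,0,0,0,0]]

def QL : List (List ℤ) :=
  [[1,0,0,0,0,0,0,0,0,0,0,0,0,0,0,0,0,0,0,0,0,0,0,0,0,0,0,0],
   [0,0,1,0,0,0,0,0,0,0,0,0,0,0,0,0,0,0,0,0,0,0,0,0,0,0,0,0],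
   [0,0,0,0,1,0,0,0,0,0,0,0,0,0,0,0,0,0,0,0,0,0,0,0,0,0,0,0],
   [0,0,0,0,0,0,1,0,0,0,0,0,0,0,0,0,0,0,0,0,0,0,0,0,0,0,0,0],
   [0,0,0,0,0,0,0,0,1,0,0,0,0,0,0,0,0,0,0,0,0,0,0,0,0,0,0,0],
   [0,0,1,0,0,0,0,0,-1,0,1,0,0,0,1,0,-1,0,1,0,0,0,0,0,0,0,0,0],
   [0,0,0,0,0,0,0,0,0,0,1,0,0,0,0,0,0,0,0,0,0,0,0,0,0,0,0,0],
   [0,0,0,0,0,1,0,0,0,0,0,0,0,0,0,0,0,0,0,0,0,0,0,0,0,0,0,0],
   [0,0,0,-1,0,0,0,0,0,0,0,0,0,0,0,0,0,0,0,0,0,0,0,0,0,0,0,0],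
   [-1,0,0,0,0,0,0,0,0,1,0,1,0,0,0,0,0,0,0,0,0,0,0,0,0,0,0,0],
   [0,0,0,0,0,0,0,-1,0,0,0,0,0,0,0,0,0,0,0,0,0,0,0,0,0,0,0,0],
   [0,0,0,0,0,1,0,0,0,0,0,0,0,0,1,0,0,0,0,0,0,0,0,0,0,0,0,0],
   [0,0,0,0,0,0,0,-1,0,0,0,0,1,0,0,0,0,0,0,0,0,0,0,0,0,0,0,0],
   [0,1,0,0,0,0,0,0,0,0,0,0,0,0,0,0,0,0,0,0,0,0,0,0,0,0,0,0],
   [0,0,-1,0,0,0,0,0,0,-1,0,0,0,0,0,0,0,0,0,0,0,0,0,0,0,0,0,0],
   [0,0,0,0,0,0,0,1,0,0,0,0,0,-2,0,0,-3,3,-1,3,2,2,4,8,6,2,2,2],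
   [0,0,0,0,0,0,0,-1,0,0,0,0,0,-1,0,0,0,0,0,0,0,0,0,0,0,0,0,0],
   [0,0,0,0,0,0,-2,0,0,0,0,0,2,-2,-1,1,-1,1,0,0,3,2,5,7,6,4,4,3],
   [0,0,0,0,-1,0,0,0,0,0,0,0,0,0,0,1,0,0,0,0,0,0,0,0,0,0,0,0],
   [0,0,0,0,0,0,0,0,0,0,0,0,1,-1,0,0,-1,1,-1,1,1,1,2,4,3,1,1,1],
   [0,-1,0,0,0,0,0,-1,0,0,-1,0,0,1,0,0,2,-1,1,-1,-1,-1,-2,-4,-3,-1,-1,-1],
   [0,0,0,0,0,0,-1,0,-1,0,1,0,2,-1,0,-1,-1,0,-1,1,1,1,2,4,3,1,1,1],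
   [0,1,0,-1,0,0,0,0,1,0,0,0,0,0,0,-2,0,0,-3,3,0,1,-1,2,0,-2,-2,-1],
   [0,0,0,1,0,1,-2,0,-1,0,1,0,2,-2,1,0,-2,0,1,-1,2,2,5,7,6,5,4,3],
   [-1,1,0,0,0,0,0,0,0,0,1,0,0,0,0,0,0,0,-1,0,0,0,-1,0,0,0,0,0],
   [-1,0,0,0,0,0,0,0,0,0,-2,1,0,0,0,0,1,0,0,-1,0,1,0,1,1,2,2,1],
   [0,0,1,0,-2,0,0,0,-1,0,1,0,0,0,0,2,0,0,3,-3,1,-1,1,-2,0,2,2,1],
   [1,0,-1,0,-1,0,0,0,0,1,0,0,0,0,-1,1,0,1,0,1,0,-1,0,0,0,0,0,0]]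

abbrev J := (Fin 10 × Fin 2) ⊕ Fin 8

def idx : J → ℕ
  | .inl p => 2 * p.1 + p.2
  | .inr j => 20 + j

def gt (L : List (List ℤ)) (i j : ℕ) : ℤ := (L.getD i []).getD j 0

def full : List ℕ := [0, 1, 2, 3, 4, 5, 6, 7]

def ok (a b : Fin 28) (q : ℤ × List ℕ) : Bool :=
  (nf ((pr a).1 :: (pr a).2 :: (pr b).1 :: (pr b).2 :: q.2)).1 == 0 ||
  (nf ((pr a).1 :: (pr a).2 :: (pr b).1 :: (pr b).2 :: q.2)).2 == full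

theorem chk1 : ∀ a b : Fin 28, omL.all (ok a b) = true ∧
    (omL.map fun q => q.1 * (nf ((pr a).1 :: (pr a).2 :: (pr b).1 :: (pr b).2 :: q.2)).1).sum
      = gt AL a b := by decide +kernel

theorem chk2 : ∀ (k : J) (b : Fin 28), ∑ a : Fin 28, gt PL (idx k) a * gt AL a b
    = gt CL (idx k) b := by decide +kernel

theorem chk3 : ∀ k l : J, ∑ b : Fin 28, gt CL (idx k) b * gt PL (idx l) b =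
    Matrix.fromBlocks (Matrix.of fun p q : Fin 10 × Fin 2 => if p.1 = q.1 ∧ p.2 ≠ q.2 then 1 else 0)
      0 0 CartanMatrix.E₈ k l := by decide +kernel

theorem chk4 : ∀ a b : Fin 28, ∑ k : J, gt QL a (idx k) * gt PL (idx k) b =
    if a = b then 1 else 0 := by decide +kernel

theorem chk5 : ∀ i j : Fin 8, i < j → ∃ a, pr a = (i.1, j.1) := by decide +kernel

noncomputable def om : ExteriorAlgebra ℤ V := (omL.map fun q => q.1 • mon q.2).sum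

theorem mon_mem (l : List ℕ) : mon l ∈ ⋀[ℤ]^l.length V := by
  induction l with
  | nil => simp only [mon, List.map_nil, List.prod_nil, List.length_nil, pow_zero]
           exact Submodule.one_le.mp le_rfl
  | cons i l ih =>
    rw [mon_cons, List.length_cons, ExteriorAlgebra.exteriorPower, pow_succ']
    exact Submodule.mul_mem_mul ⟨_, rfl⟩ ih

theorem om_mem : om ∈ ⋀[ℤ]^4 V := by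
  refine list_sum_mem fun x hx => ?_
  obtain ⟨q, hq, rfl⟩ := List.mem_map.mp hx
  have h : ∀ q ∈ omL, q.2.length = 4 := by decide
  exact Submodule.smul_mem _ _ (h q hq ▸ mon_mem q.2)

noncomputable def e2 (a : Fin 28) : ⋀[ℤ]^2 V := ⟨mon [(pr a).1, (pr a).2], mon_mem [(pr a).1, (pr a).2]⟩

theorem e2_mul (a b : Fin 28) :
    (e2 a : ExteriorAlgebra ℤ V) * e2 b * om = gt AL a b • mon full := by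
  obtain ⟨h1, h2⟩ := chk1 a b
  rw [← h2, om]
  rw [List.all_eq_true] at h1
  generalize omL = L at h1
  induction L with
  | nil => simp
  | cons q L ih =>
    rw [List.map_cons, List.sum_cons, List.map_cons, List.sum_cons, mul_add, add_smul,
      ih fun x hx => h1 x (List.mem_cons_of_mem _ hx)]
    congr 1
    have h3 : (e2 a : ExteriorAlgebra ℤ V) * e2 b * mon q.2 =
        mon ((pr a).1 :: (pr a).2 :: (pr b).1 :: (pr b).2 :: q.2) := by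
      simp [e2, mon, mul_assoc]
    rw [mul_smul_comm, h3, nf_spec, smul_smul]
    have h4 := h1 q List.mem_cons_self
    simp only [ok, Bool.or_eq_true, beq_iff_eq] at h4
    rcases h4 with h4 | h4
    · rw [h4]; simp
    · rw [h4]

noncomputable def bb (k : J) : ⋀[ℤ]^2 V := ∑ a : Fin 28, gt PL (idx k) a • e2 a

theorem bb_mul (k l : J) : (bb k : ExteriorAlgebra ℤ V) * bb l * om =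
    Matrix.fromBlocks (Matrix.of fun p q : Fin 10 × Fin 2 => if p.1 = q.1 ∧ p.2 ≠ q.2 then 1 else 0)
      0 0 CartanMatrix.E₈ k l • mon full := by
  rw [← chk3]
  simp only [bb, Submodule.coe_sum, Submodule.coe_smul_of_tower, Finset.sum_mul, Finset.mul_sum,
    smul_mul_assoc, mul_smul_comm, e2_mul, ← chk2, Finset.sum_smul, Finset.smul_sum, smul_smul]
  refine Finset.sum_congr rfl fun b _ => Finset.sum_congr rfl fun a _ => ?_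
  congr 1; ring

theorem e2_span (a : Fin 28) : e2 a ∈ Submodule.span ℤ (Set.range bb) := by
  have : e2 a = ∑ k : J, gt QL a (idx k) • bb k := by
    simp only [bb, Finset.smul_sum, smul_smul]
    rw [Finset.sum_comm]
    simp only [← Finset.sum_smul, chk4]
    simp
  rw [this]
  exact Submodule.sum_mem _ fun k _ => Submodule.smul_mem _ _ (Submodule.subset_span ⟨k, rfl⟩)

theorem span_top : ⊤ ≤ Submodule.span ℤ (Set.range bb) := by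
  set S := Submodule.span ℤ (Set.range bb) with hS
  have h1 : ∀ i j : Fin 8, ι ℤ (ev i) * ι ℤ (ev j) ∈ S.map (⋀[ℤ]^2 V).subtype := by
    have h0 : ∀ i j : Fin 8, i < j → ι ℤ (ev i) * ι ℤ (ev j) ∈ S.map (⋀[ℤ]^2 V).subtype := by
      intro i j hij
      obtain ⟨a, ha⟩ := chk5 i j hij
      exact ⟨e2 a, e2_span a, by simp [e2, mon, ha]⟩
    intro i j
    rcases lt_trichotomy i j with h | rfl | h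
    · exact h0 i j h
    · rw [ι_sq_zero]; exact zero_mem _
    · rw [eq_neg_of_add_eq_zero_left (ι_add_mul_swap (R := ℤ) (ev i) (ev j))]
      exact neg_mem (h0 j i h)
  have h2 : ∀ v : V, v = ∑ i : Fin 8, v i • ev i := by
    intro v; ext j; simp [ev, Fin.val_inj]
  have h3 : ⋀[ℤ]^2 V ≤ S.map (⋀[ℤ]^2 V).subtype := by
    conv_lhs => rw [← ιMulti_span_fixedDegree]
    rw [Submodule.span_le]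
    rintro _ ⟨v, rfl⟩
    have : ιMulti ℤ 2 v = ι ℤ (v 0) * ι ℤ (v 1) := by simp [ιMulti_apply]; rfl
    rw [this, h2 (v 0), h2 (v 1)]
    simp only [map_sum, map_smul, Finset.sum_mul, Finset.mul_sum, smul_mul_assoc, mul_smul_comm]
    exact Submodule.sum_mem _ fun j _ => Submodule.smul_mem _ _ (Submodule.sum_mem _ fun i _ =>
      Submodule.smul_mem _ _ (h1 i j))
  rintro x -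
  obtain ⟨y, hy, hxy⟩ := h3 x.2
  rwa [← Subtype.ext hxy]

theorem card_eq : Fintype.card J = Module.finrank ℤ (⋀[ℤ]^2 V) := by
  rw [exteriorPower.finrank_eq]; simp; rfl

theorem mon_full : mon full = ιMulti ℤ 8 (fun i : Fin 8 => (Pi.single i 1 : V)) := by
  have : ∀ i : Fin 8, (Pi.single i 1 : V) = ev i := fun i => by
    ext j; simp [ev, Pi.single_apply, Fin.val_inj]
  simp only [this, ιMulti_apply, mon, full]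
  rfl

end Pool.Agent.H29.Wedge
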