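import Mathlib

/-! Zassenhaus-type realization: a countable order spanned by nilpotents and idempotents is,
up to rational multiples, the endomorphism ring of an additive subgroup of its rational hull. -/

namespace Pool.Agent.H29.Zass

open Filter

variable {S : Type} [Ring S] [Algebra ℚ S]

/-- The localization of `R` at the prime `p`, inside `S`. -/
def O (R : Subring S) (p : Nat.Primes) : Subring S where
  carrier := {x | ∃ n : ℕ, ¬ (p : ℕ) ∣ n ∧ n • x ∈ R}
  one_mem' := ⟨1, p.2.not_dvd_one, by simpa using R.one_mem⟩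
  zero_mem' := ⟨1, p.2.not_dvd_one, by simpa using R.zero_mem⟩
  mul_mem' := by
    rintro x y ⟨n, hn, hx⟩ ⟨m, hm, hy⟩
    refine ⟨n * m, fun h => ((Nat.Prime.dvd_mul p.2).1 h).elim hn hm, ?_⟩
    have := R.mul_mem hx hy
    rwa [smul_mul_smul_comm] at this
  add_mem' := by
    rintro x y ⟨n, hn, hx⟩ ⟨m, hm, hy⟩
    refine ⟨n * m, fun h => ((Nat.Prime.dvd_mul p.2).1 h).elim hn hm, ?_⟩
    have := R.add_mem (nsmul_mem hx m) (nsmul_mem hy n)
    rwa [smul_smul, smul_smul, mul_comm m n, ← smul_add] at this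
  neg_mem' := by
    rintro x ⟨n, hn, hx⟩
    exact ⟨n, hn, by rw [smul_neg]; exact R.neg_mem hx⟩

theorem mem_O_of_mem {R : Subring S} (p : Nat.Primes) {x : S} (hx : x ∈ R) : x ∈ O R p :=
  ⟨1, p.2.not_dvd_one, by simpa using hx⟩

theorem inv_smul_mem {R : Subring S} {p q : Nat.Primes} (h : p ≠ q) {x : S} (hx : x ∈ O R q) :
    ((p : ℕ) : ℚ)⁻¹ • x ∈ O R q := by
  obtain ⟨n, hn, hx⟩ := hx
  refine ⟨n * p, fun hd => ((Nat.Prime.dvd_mul q.2).1 hd).elim hn fun h' => h ?_, ?_⟩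
  · exact (Subtype.ext ((Nat.prime_dvd_prime_iff_eq q.2 p.2).1 h')).symm
  · have hp : ((p : ℕ) : ℚ) ≠ 0 := Nat.cast_ne_zero.2 p.2.ne_zero
    rw [mul_smul, ← Nat.cast_smul_eq_nsmul ℚ (p : ℕ), smul_smul, mul_inv_cancel₀ hp, one_smul]
    exact hx

theorem fin_le (N : ℕ) : ∀ᶠ p : Nat.Primes in cofinite, N < (p : ℕ) := by
  rw [eventually_cofinite]
  refine Set.Finite.subset ((Set.finite_le_nat N).preimage
    (f := fun p : Nat.Primes => (p : ℕ)) Subtype.val_injective.injOn) ?_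
  intro p hp
  simpa using hp

theorem ev_mem {R : Subring S} (hR : ∀ x : S, ∃ n : ℕ, n ≠ 0 ∧ n • x ∈ R) (x : S) :
    ∀ᶠ p in cofinite, x ∈ O R p := by
  obtain ⟨n, hn, hx⟩ := hR x
  filter_upwards [fin_le n] with p hp
  exact ⟨n, fun h => absurd (Nat.le_of_dvd (Nat.pos_of_ne_zero hn) h) (by omega), hx⟩

theorem eq_zero_of_freq {R : Subring S} (hR : ∀ x : S, ∃ n : ℕ, n ≠ 0 ∧ n • x ∈ R)
    (hdiv : ∀ x ∈ R, x ≠ 0 → ∃ N : ℕ, ∀ p : ℕ, N < p → ∀ y ∈ R, x ≠ p • y) {x : S}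
    (h : ∃ᶠ p : Nat.Primes in cofinite, ((p : ℕ) : ℚ)⁻¹ • x ∈ O R p) : x = 0 := by
  by_contra hx
  obtain ⟨n, hn, hxn⟩ := hR x
  have hne : n • x ≠ 0 := by
    rw [← Nat.cast_smul_eq_nsmul ℚ]
    exact smul_ne_zero (Nat.cast_ne_zero.2 hn) hx
  obtain ⟨N, hN⟩ := hdiv _ hxn hne
  obtain ⟨p, ⟨m, hm, hmx⟩, hp⟩ := (h.and_eventually (fin_le N)).exists
  have hp0 : ((p : ℕ) : ℚ) ≠ 0 := Nat.cast_ne_zero.2 p.2.ne_zero
  have hc : IsCoprime ((p : ℕ) : ℤ) (m : ℤ) :=
    Nat.isCoprime_iff_coprime.2 ((Nat.Prime.coprime_iff_not_dvd p.2).2 hm)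
  obtain ⟨a, b, hab⟩ := hc
  refine hN p hp (a • (n • x) + (b * n) • (m • (((p : ℕ) : ℚ)⁻¹ • x)))
    (R.add_mem (zsmul_mem hxn a) (zsmul_mem hmx _)) ?_
  have hab' : (a : ℚ) * (p : ℕ) + b * m = 1 := by exact_mod_cast hab
  simp only [← Nat.cast_smul_eq_nsmul ℚ, ← Int.cast_smul_eq_zsmul ℚ, smul_smul, ← add_smul]
  congr 1
  push_cast
  field_simp
  linear_combination (-1 : ℚ) * hab'

theorem exists_mul_mem {R : Subring S} {T : Set S} (hT : ∀ e ∈ T, e ∈ R)
    (hspan : Submodule.span ℚ T = ⊤) (x : S) : ∃ n : ℕ, n ≠ 0 ∧ n • x ∈ R := by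
  have hx : x ∈ Submodule.span ℚ T := hspan ▸ Submodule.mem_top
  induction hx using Submodule.span_induction with
  | mem e he => exact ⟨1, one_ne_zero, by simpa using hT e he⟩
  | zero => exact ⟨1, one_ne_zero, by simpa using R.zero_mem⟩
  | add x y _ _ hx hy =>
    obtain ⟨n, hn, hx⟩ := hx
    obtain ⟨m, hm, hy⟩ := hy
    refine ⟨n * m, mul_ne_zero hn hm, ?_⟩
    have := R.add_mem (nsmul_mem hx m) (nsmul_mem hy n)
    rwa [smul_smul, smul_smul, mul_comm m n, ← smul_add] at this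
  | smul c x _ hx =>
    obtain ⟨n, hn, hx⟩ := hx
    refine ⟨c.den * n, mul_ne_zero c.den_nz hn, ?_⟩
    have := zsmul_mem hx c.num
    convert this using 1
    simp only [← Nat.cast_smul_eq_nsmul ℚ, ← Int.cast_smul_eq_zsmul ℚ, smul_smul]
    congr 1
    push_cast
    rw [mul_right_comm, Rat.den_mul_eq_num]

/-- The group. -/
def Grp (R : Subring S) (E : Nat.Primes → S) : AddSubgroup S where
  carrier := {x | ∀ p : Nat.Primes, x * (((p : ℕ) : S) + E p) ∈ O R p}
  zero_mem' := fun p => by simpa using (O R p).zero_mem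
  add_mem' := fun hx hy p => by rw [add_mul]; exact (O R p).add_mem (hx p) (hy p)
  neg_mem' := fun hx p => by rw [neg_mul]; exact (O R p).neg_mem (hx p)

theorem mem_Grp {R : Subring S} {E : Nat.Primes → S} (hE : ∀ p, E p ∈ R) {x : S}
    (p : Nat.Primes) (h1 : x * (((p : ℕ) : S) + E p) ∈ O R p) (h2 : ∀ q, p ≠ q → x ∈ O R q) :
    x ∈ Grp R E := by
  intro q
  by_cases h : p = q
  · subst h; exact h1
  · exact (O R q).mul_mem (h2 q h) (mem_O_of_mem q (R.add_mem (natCast_mem R _) (hE q)))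

theorem left_mul {R : Subring S} (hR : ∀ x : S, ∃ n : ℕ, n ≠ 0 ∧ n • x ∈ R)
    (hdiv : ∀ x ∈ R, x ≠ 0 → ∃ N : ℕ, ∀ p : ℕ, N < p → ∀ y ∈ R, x ≠ p • y)
    {E : Nat.Primes → S} (hE : ∀ p, E p ∈ R)
    (hfr : ∀ e ∈ R, (IsNilpotent e ∨ IsIdempotentElem e) → ∃ᶠ p in cofinite, E p = e)
    (hspan : Submodule.span ℚ {e | e ∈ R ∧ (IsNilpotent e ∨ IsIdempotentElem e)} = ⊤)
    (F : S →ₗ[ℚ] S) (hF : ∀ a ∈ Grp R E, F a ∈ Grp R E) (x : S) : F x = F 1 * x := by
  set ψ : S →ₗ[ℚ] S := F - LinearMap.mulLeft ℚ (F 1) with hψ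
  have hψa : ∀ x, ψ x = F x - F 1 * x := fun x => rfl
  have hψ1 : ψ 1 = 0 := by rw [hψa, mul_one, sub_self]
  have key : ∀ᶠ p : Nat.Primes in cofinite, ∀ a ∈ Grp R E,
      ψ a * (((p : ℕ) : S) + E p) ∈ O R p := by
    filter_upwards [ev_mem hR (F 1)] with p hp a ha
    rw [hψa, sub_mul, mul_assoc]
    exact (O R p).sub_mem (hF a ha p) ((O R p).mul_mem hp (ha p))
  have hnil : ∀ d : ℕ, ∀ e ∈ R, e ^ (d + 1) = 0 → ψ e = 0 := by
    intro d
    induction d with
    | zero => intro e _ he; rw [zero_add, pow_one] at he; rw [he, map_zero]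
    | succ d ih =>
      intro e heR he
      have hpow : ∀ i, ψ (e ^ (i + 1 + 1)) = 0 := fun i => ih _ (R.pow_mem heR _) (by
        rw [← pow_mul]
        exact pow_eq_zero_of_le (by nlinarith) he)
      have h1 : ∃ᶠ p : Nat.Primes in cofinite,
          ((p : ℕ) : ℚ)⁻¹ • (ψ e + ((p : ℕ) : ℚ)⁻¹ • (ψ e * e)) ∈ O R p := by
        refine ((hfr e heR (Or.inl ⟨_, he⟩)).and_eventually key).mono ?_
        rintro p ⟨hp, hk⟩
        have hp0 : ((p : ℕ) : ℚ) ≠ 0 := Nat.cast_ne_zero.2 p.2.ne_zero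
        set c : ℚ := ((p : ℕ) : ℚ)⁻¹ with hc
        have hcp : c • (((p : ℕ) : S) + e) = 1 - (-c) • e := by
          rw [smul_add, neg_smul, sub_neg_eq_add, ← nsmul_one,
            ← Nat.cast_smul_eq_nsmul ℚ, smul_smul, hc, inv_mul_cancel₀ hp0, one_smul]
        have hmem : c • ∑ i ∈ Finset.range (d + 1 + 1), ((-c) • e) ^ i ∈ Grp R E := by
          refine mem_Grp hE p ?_ fun q hq => inv_smul_mem hq ((O R q).sum_mem fun i _ =>
            (O R q).pow_mem ?_ _)
          · rw [hp, smul_mul_assoc, ← mul_smul_comm, hcp, geom_sum_mul_neg, smul_pow, he,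
              smul_zero, sub_zero]
            exact (O R p).one_mem
          · rw [neg_smul]
            exact (O R q).neg_mem (inv_smul_mem hq (mem_O_of_mem q heR))
        have h2 := hk _ hmem
        rw [hp, map_smul, map_sum, Finset.sum_range_succ', Finset.sum_range_succ'] at h2
        simp only [smul_pow, map_smul, hpow, smul_zero, Finset.sum_const_zero, zero_add, pow_zero,
          hψ1, add_zero, pow_one] at h2
        rw [smul_mul_assoc, ← mul_smul_comm, hcp] at h2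
        convert (O R p).neg_mem h2 using 1
        simp only [mul_add, mul_one, neg_smul, smul_add, neg_mul, smul_mul_assoc,
          mul_smul_comm, neg_neg, sub_neg_eq_add, smul_neg, neg_add]
      have h3 : ψ e * e = 0 := by
        refine eq_zero_of_freq hR hdiv ((h1.and_eventually (ev_mem hR (ψ e))).mono ?_)
        rintro p ⟨h, h'⟩
        have hp0 : ((p : ℕ) : ℚ) ≠ 0 := Nat.cast_ne_zero.2 p.2.ne_zero
        have := (O R p).sub_mem (nsmul_mem h (p : ℕ)) h'
        rwa [← Nat.cast_smul_eq_nsmul ℚ, smul_smul, mul_inv_cancel₀ hp0, one_smul,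
          add_sub_cancel_left] at this
      rw [h3] at h1
      simp only [smul_zero, add_zero] at h1
      exact eq_zero_of_freq hR hdiv h1
  have hid : ∀ e ∈ R, IsIdempotentElem e → ψ e * e = 0 := by
    intro e heR he
    refine eq_zero_of_freq hR hdiv ((((hfr e heR (Or.inr he)).and_eventually key).and_eventually
      (ev_mem hR (ψ e))).mono ?_)
    rintro p ⟨⟨hp, hk⟩, h'⟩
    have hp0 : ((p : ℕ) : ℚ) ≠ 0 := Nat.cast_ne_zero.2 p.2.ne_zero
    set c : ℚ := ((p : ℕ) : ℚ)⁻¹ with hc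
    have hcp : ∀ y : S, c • (y * ((p : ℕ) : S)) = y := fun y => by
      rw [← nsmul_eq_mul', ← Nat.cast_smul_eq_nsmul ℚ, smul_smul, hc, inv_mul_cancel₀ hp0, one_smul]
    have hmem : (1 + c • (1 - e)) ∈ Grp R E := by
      refine mem_Grp hE p ?_ fun q hq => (O R q).add_mem (O R q).one_mem
        (inv_smul_mem hq (mem_O_of_mem q (R.sub_mem R.one_mem heR)))
      rw [hp, add_mul, smul_mul_assoc, mul_add (1 - e), he.one_sub_mul_self, add_zero, hcp]
      exact mem_O_of_mem p (R.add_mem (R.mul_mem R.one_mem (R.add_mem (natCast_mem R _) heR))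
        (R.sub_mem R.one_mem heR))
    have h2 := hk _ hmem
    rw [hp, map_add, map_smul, map_sub, hψ1, zero_add, zero_sub, smul_mul_assoc, mul_add, smul_add,
      hcp] at h2
    have := (O R p).neg_mem ((O R p).add_mem h2 h')
    convert this using 1
    rw [neg_mul, smul_neg]
    abel
  have hall : ψ = 0 := by
    refine LinearMap.ext_on hspan ?_
    rintro e ⟨heR, ⟨d, hd⟩ | he⟩
    · exact hnil d e heR (by rw [pow_succ, hd, zero_mul])
    · have h1 := hid e heR he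
      have h2 := hid (1 - e) (R.sub_mem R.one_mem heR) he.one_sub
      rw [map_sub, hψ1, zero_sub, neg_mul, neg_eq_zero, mul_sub, h1, mul_one, sub_zero] at h2
      exact h2
  have := hψa x
  rw [hall] at this
  exact (sub_eq_zero.1 this.symm)

theorem realize (R : Subring S) (hc : (R : Set S).Countable)
    (hspan : Submodule.span ℚ {e | e ∈ R ∧ (IsNilpotent e ∨ IsIdempotentElem e)} = ⊤)
    (hdiv : ∀ x ∈ R, x ≠ 0 → ∃ N : ℕ, ∀ p : ℕ, N < p → ∀ y ∈ R, x ≠ p • y) :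
    ∃ (A : AddSubgroup S) (ρ : AddMonoid.End A →+* S), Function.Injective ρ ∧
      (∀ r ∈ R, ∃ φ, ρ φ = r) ∧ (∀ φ (a : A), (φ a : S) = ρ φ * a) ∧ (∀ r ∈ R, r ∈ A) ∧
      ∀ x : S, ∃ n : ℕ, n ≠ 0 ∧ n • x ∈ R := by
  have hR := exists_mul_mem (R := R) (fun e he => he.1) hspan
  haveI : Countable R := hc.to_subtype
  obtain ⟨e⟩ : Nonempty (Nat.Primes ≃ R × ℕ) := nonempty_equiv_of_countable
  let E : Nat.Primes → S := fun p => (e p).1
  have hE : ∀ p, E p ∈ R := fun p => (e p).1.2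
  have hfr : ∀ x ∈ R, (IsNilpotent x ∨ IsIdempotentElem x) → ∃ᶠ p in cofinite, E p = x := by
    intro x hx _
    rw [frequently_cofinite_iff_infinite]
    refine Set.infinite_of_injective_forall_mem (f := fun k : ℕ => e.symm (⟨x, hx⟩, k)) ?_ ?_
    · intro k l h
      exact (Prod.ext_iff.1 (e.symm.injective h)).2
    · intro k
      simp [E]
  have hRA : ∀ r ∈ R, r ∈ Grp R E := fun r hr q =>
    mem_O_of_mem q (R.mul_mem hr (R.add_mem (natCast_mem R _) (hE q)))
  have hmul : ∀ r ∈ R, ∀ a ∈ Grp R E, r * a ∈ Grp R E := fun r hr a ha q => by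
    rw [mul_assoc]; exact (O R q).mul_mem (mem_O_of_mem q hr) (ha q)
  letI : DivisibleBy S ℤ :=
    { div := fun a n => (n : ℚ)⁻¹ • a
      div_zero := fun a => by simp
      div_cancel := fun {n} a hn => by
        rw [← Int.cast_smul_eq_zsmul ℚ, smul_smul, mul_inv_cancel₀ (Int.cast_ne_zero.2 hn),
          one_smul] }
  let o : Grp R E := ⟨1, hRA 1 R.one_mem⟩
  have main : ∀ (φ : AddMonoid.End (Grp R E)) (a : Grp R E), (φ a : S) = φ o * a := by
    intro φ a
    obtain ⟨F, hF⟩ := (Module.Baer.of_divisible S).extension_property_addMonoidHom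
      (Grp R E).subtype Subtype.val_injective ((Grp R E).subtype.comp φ)
    have hF' : ∀ a : Grp R E, F a = φ a := fun a => DFunLike.congr_fun hF a
    have := left_mul hR hdiv hE hfr hspan (F.toRatLinearMap)
      (fun a ha => by
        have := hF' ⟨a, ha⟩
        simp only [AddMonoidHom.coe_toRatLinearMap] at this ⊢
        rw [this]; exact (φ _).2) a
    simp only [AddMonoidHom.coe_toRatLinearMap] at this
    rw [← hF', ← hF', this]
  let ρ : AddMonoid.End (Grp R E) →+* S :=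
    { toFun := fun φ => φ o
      map_one' := rfl
      map_mul' := fun φ χ => main φ (χ o)
      map_zero' := rfl
      map_add' := fun φ χ => rfl }
  refine ⟨Grp R E, ρ, ?_, ?_, main, hRA, hR⟩
  · intro φ χ h
    ext a
    rw [main φ, main χ]
    exact congrArg (· * (a : S)) h
  · intro r hr
    exact ⟨(AddMonoidHom.mk' (fun a : Grp R E => (⟨r * a, hmul r hr a a.2⟩ : Grp R E))
      fun a b => Subtype.ext (mul_add r a b)), mul_one r⟩

/-- Centrally essential passes from the rational hull to the endomorphism ring. -/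
theorem ce {B : Type} [Ring B] (R : Subring S) (ρ : B →+* S) (hρ : Function.Injective ρ)
    (hs : ∀ r ∈ R, ∃ φ, ρ φ = r) (hR : ∀ x : S, ∃ n : ℕ, n ≠ 0 ∧ n • x ∈ R)
    (hS : ∀ a : S, a ≠ 0 → ∃ x ∈ Subring.center S, a * x ∈ Subring.center S ∧ a * x ≠ 0)
    (a : B) (ha : a ≠ 0) : ∃ x ∈ Subring.center B, ∃ y ∈ Subring.center B,
      x ≠ 0 ∧ y ≠ 0 ∧ a * x = y := by
  have hcen : ∀ b : B, ρ b ∈ Subring.center S → b ∈ Subring.center B := fun b hb =>
    Subring.mem_center_iff.2 fun g => hρ (by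
      rw [map_mul, map_mul]; exact Subring.mem_center_iff.1 hb _)
  obtain ⟨x, hx, hy, hne⟩ := hS (ρ a) (fun h => ha (hρ (by rw [h, map_zero])))
  obtain ⟨n, hn, hnx⟩ := hR x
  obtain ⟨X, hX⟩ := hs _ hnx
  have h1 : ρ (a * X) = n • (ρ a * x) := by rw [map_mul, hX, mul_smul_comm]
  have h2 : a * X ≠ 0 := fun h => by
    rw [h, map_zero, ← Nat.cast_smul_eq_nsmul ℚ] at h1
    exact smul_ne_zero (Nat.cast_ne_zero.2 hn) hne h1.symm
  refine ⟨X, hcen X (hX ▸ nsmul_mem hx n), a * X, hcen _ (h1 ▸ nsmul_mem hy n), ?_, h2, rfl⟩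
  rintro rfl
  exact h2 (mul_zero a)

end Pool.Agent.H29.Zass
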