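import Mathlib
import Pool.Agent.H29.Zass

/-! Realizing integral monoid rings of countable aperiodic monoids, and a monoid whose rational
monoid algebra is centrally essential, satisfies no identity and has no minimal idempotents. -/

namespace Pool.Agent.H29.ZMon

open MonoidAlgebra

theorem realize (N : Type) [Monoid N] [Countable N] (hN : ∀ g : N, ∃ k, g ^ (k + 1) = g ^ k) :
    ∃ (R : Subring (MonoidAlgebra ℚ N)) (A : AddSubgroup (MonoidAlgebra ℚ N))
      (ρ : AddMonoid.End A →+* MonoidAlgebra ℚ N), (∀ g, single g 1 ∈ R) ∧ Function.Injective ρ ∧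
      (∀ r ∈ R, ∃ φ, ρ φ = r) ∧ (∀ φ (a : A), (φ a : MonoidAlgebra ℚ N) = ρ φ * a) ∧
      (∀ r ∈ R, r ∈ A) ∧ ∀ x : MonoidAlgebra ℚ N, ∃ n : ℕ, n ≠ 0 ∧ n • x ∈ R := by
  let R := (mapRingHom N (Int.castRingHom ℚ)).range
  have hg : ∀ g, single g 1 ∈ R := fun g => ⟨single g 1, by simp⟩
  haveI : Countable (MonoidAlgebra ℚ N) := coeff_injective.countable
  obtain ⟨A, ρ, h⟩ := Pool.Agent.H29.Zass.realize R (Set.to_countable _) (by
    rw [eq_top_iff]
    intro x hx
    clear hx
    induction x using MonoidAlgebra.induction_linear with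
    | zero => exact zero_mem _
    | add x y hx hy => exact add_mem hx hy
    | single g c =>
      obtain ⟨k, hk⟩ := hN g
      have h1 : ∀ j, g ^ j * g ^ k = g ^ k := by
        intro j
        induction j with
        | zero => simp
        | succ j ih => rw [pow_succ, mul_assoc, ← pow_succ', hk, ih]
      have h2 : g ^ k * g = g ^ k := by rw [← pow_succ, hk]
      have h3 : ∀ j, (single g 1 - single (g ^ k) 1 : MonoidAlgebra ℚ N) ^ (j + 1) =
          single (g ^ (j + 1)) 1 - single (g ^ k) 1 := by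
        intro j
        induction j with
        | zero => simp
        | succ j ih =>
          rw [pow_succ, ih]
          simp only [sub_mul, mul_sub, single_mul_single, h1, h2, mul_one, ← pow_succ]
          abel
      have : (single g c : MonoidAlgebra ℚ N) =
          c • ((single g 1 - single (g ^ k) 1) + single (g ^ k) 1) := by simp
      rw [this]
      refine Submodule.smul_mem _ _ (add_mem (Submodule.subset_span ⟨sub_mem (hg _) (hg _),
        Or.inl ⟨k + 1, by rw [h3, hk, sub_self]⟩⟩) (Submodule.subset_span ⟨hg _, Or.inr ?_⟩))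
      rw [IsIdempotentElem, single_mul_single, h1, mul_one]) (by
    rintro _ ⟨x, rfl⟩ hne
    obtain ⟨g, hg⟩ : ∃ g, x.coeff g ≠ 0 := by
      by_contra h
      push Not at h
      exact hne (by rw [coeff_eq_zero.1 (Finsupp.ext h), map_zero])
    refine ⟨(x.coeff g).natAbs, ?_⟩
    rintro p hp _ ⟨y, rfl⟩ h
    have h1 := congrArg (fun z : MonoidAlgebra ℚ N => z.coeff g) h
    simp only [coeff_smul_apply, coeff_mapRingHom, eq_intCast] at h1
    rw [nsmul_eq_mul] at h1
    have h2 : x.coeff g = p * y.coeff g := by exact_mod_cast h1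
    have := Int.natAbs_le_of_dvd_ne_zero (⟨_, h2⟩ : (p : ℤ) ∣ x.coeff g) hg
    simp at this
    omega)
  exact ⟨R, A, ρ, hg, h⟩

theorem central {N : Type} [Monoid N] (a : MonoidAlgebra ℚ N) (x : N)
    (h : ∀ g ∈ a.coeff.support, ∀ y, y * (g * x) = g * x * y) :
    a * single x 1 ∈ Subring.center (MonoidAlgebra ℚ N) := by
  have : a * single x 1 = ∑ g ∈ a.coeff.support, single (g * x) (a.coeff g) := by
    conv_lhs => rw [← sum_coeff_single a, Finsupp.sum, Finset.sum_mul]
    simp [single_mul_single]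
  rw [this]
  refine Subring.sum_mem _ fun g hg => Subring.mem_center_iff.2 fun b => ?_
  induction b using MonoidAlgebra.induction_linear with
  | zero => simp
  | add x y hx hy => rw [add_mul, mul_add, hx, hy]
  | single y c => rw [single_mul_single, single_mul_single, h g hg, mul_comm c]

/-- Truncated graded words with an identity and a zero. -/
inductive M
  | one : M
  | zero : M
  | el : ℕ → ℕ → List ℕ → M
  deriving DecidableEq, Countable

/-- The product. -/
def M.mul : M → M → M
  | .one, y => y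
  | .zero, _ => .zero
  | .el n j w, .one => .el n j w
  | .el _ _ _, .zero => .zero
  | .el n j w, .el n' j' w' => if n = n' ∧ j + j' + 1 ≤ n then .el n (j + j' + 1) (w ++ w') else .zero

instance : Monoid M where
  mul := M.mul
  one := M.one
  one_mul _ := rfl
  mul_one x := by cases x <;> rfl
  mul_assoc x y z := by
    show M.mul (M.mul x y) z = M.mul x (M.mul y z)
    rcases x with _ | _ | ⟨n, j, w⟩ <;> rcases y with _ | _ | ⟨n', j', w'⟩ <;>
      rcases z with _ | _ | ⟨n'', j'', w''⟩ <;> simp only [M.mul]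
    · split_ifs <;> rfl
    · split_ifs <;> rfl
    · split_ifs <;> simp only [M.mul] <;> split_ifs <;>
        first | rfl | (exfalso; omega) | (simp only [List.append_assoc]; congr 1; omega)

theorem el_mul (n j : ℕ) (w : List ℕ) (n' j' : ℕ) (w' : List ℕ) : M.el n j w * M.el n' j' w' =
    if n = n' ∧ j + j' + 1 ≤ n then .el n (j + j' + 1) (w ++ w') else .zero := rfl
theorem zero_mul' (x : M) : M.zero * x = M.zero := rfl
theorem mul_zero' (x : M) : x * M.zero = M.zero := by cases x <;> rfl
theorem one_mul' (x : M) : M.one * x = x := rfl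
theorem mul_one' (x : M) : x * M.one = x := by cases x <;> rfl

theorem el_pow (n j : ℕ) (w : List ℕ) (k : ℕ) : M.el n j w ^ (k + 1) = .zero ∨
    ∃ i v, k ≤ i ∧ M.el n j w ^ (k + 1) = .el n i v := by
  induction k with
  | zero => exact Or.inr ⟨j, w, Nat.zero_le _, pow_one _⟩
  | succ k ih =>
    rw [pow_succ]
    rcases ih with h | ⟨i, v, hi, h⟩
    · rw [h]; exact Or.inl rfl
    · rw [h, el_mul]
      split_ifs
      · exact Or.inr ⟨_, _, by omega, rfl⟩
      · exact Or.inl rfl

theorem cen_top {n j : ℕ} (w : List ℕ) (h : n ≤ j) (y : M) : y * M.el n j w = M.el n j w * y := by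
  rcases y with _ | _ | ⟨n', j', w'⟩
  · rfl
  · rfl
  · rw [el_mul, el_mul, if_neg (by omega), if_neg (by omega)]

theorem cen_nil (n j : ℕ) (y : M) : y * M.el n j [] = M.el n j [] * y := by
  rcases y with _ | _ | ⟨n', j', w'⟩
  · rfl
  · rfl
  · rw [el_mul, el_mul]
    split_ifs with h1 h2 h2
    · obtain ⟨rfl, _⟩ := h1
      simp [add_comm]
    · exfalso; omega
    · exfalso; omega
    · rfl

/-- Non-negative rationals under `max`. -/
def Lam : Type := ℚ≥0

instance : LinearOrder Lam := inferInstanceAs (LinearOrder ℚ≥0)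
instance : OrderBot Lam := inferInstanceAs (OrderBot ℚ≥0)
instance : DenselyOrdered Lam := inferInstanceAs (DenselyOrdered ℚ≥0)
instance : NoMaxOrder Lam := inferInstanceAs (NoMaxOrder ℚ≥0)
instance : Countable Lam := inferInstanceAs (Countable ℚ≥0)
instance : CommMonoid Lam where
  mul := max
  one := ⊥
  mul_assoc := max_assoc
  one_mul _ := max_eq_right bot_le
  mul_one _ := max_eq_left bot_le
  mul_comm := max_comm

theorem lam_mul (a b : Lam) : a * b = max a b := rfl

theorem aper (g : M × Lam) : ∃ k, g ^ (k + 1) = g ^ k := by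
  obtain ⟨g, l⟩ := g
  have hl : ∀ k, l ^ (k + 1) = l := fun k => by
    induction k with
    | zero => simp
    | succ k ih => rw [pow_succ, ih, lam_mul, max_self]
  rcases g with _ | _ | ⟨n, j, w⟩
  · exact ⟨1, Prod.ext rfl (by simp [hl 1])⟩
  · exact ⟨1, Prod.ext rfl (by simp [hl 1])⟩
  · have hz : M.el n j w ^ (n + 1 + 1) = .zero := by
      rw [pow_succ]
      rcases el_pow n j w n with h | ⟨i, v, hi, h⟩
      · rw [h]; rfl
      · rw [h, el_mul, if_neg (by omega)]
    refine ⟨n + 1 + 1, Prod.ext ?_ (by simp only [Prod.pow_snd, hl])⟩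
    simp only [Prod.pow_fst]
    rw [pow_succ, hz]; rfl

theorem ceS (a : MonoidAlgebra ℚ (M × Lam)) (ha : a ≠ 0) :
    ∃ x ∈ Subring.center (MonoidAlgebra ℚ (M × Lam)),
      a * x ∈ Subring.center (MonoidAlgebra ℚ (M × Lam)) ∧ a * x ≠ 0 := by
  classical
  by_cases h : ∃ n j, j < n ∧ ∃ w l, (M.el n j w, l) ∈ a.coeff.support
  · obtain ⟨n, h⟩ := h
    obtain ⟨hj, w, l, hw⟩ := Nat.find_spec h
    set j := Nat.find h
    have hmin : ∀ j' w' l', (M.el n j' w', l') ∈ a.coeff.support → j ≤ j' := fun j' w' l' h' => by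
      by_contra hlt
      exact Nat.find_min h (not_le.1 hlt) ⟨by omega, w', l', h'⟩
    refine ⟨single (M.el n (n - j - 1) [], 1) 1, ?_, central a _ ?_, fun h0 => ?_⟩
    · simpa using central 1 (M.el n (n - j - 1) [], (1 : Lam)) fun g hg y => by
        have : g = 1 := by
          rw [one_def, coeff_single] at hg
          exact Finset.mem_singleton.1 (Finsupp.support_single_subset hg)
        rw [this, one_mul]
        exact Prod.ext (cen_nil _ _ _) (mul_comm _ _)
    · rintro ⟨g, l'⟩ hg y
      refine Prod.ext ?_ (mul_comm _ _)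
      simp only [Prod.fst_mul]
      rcases g with _ | _ | ⟨n', j', w'⟩
      · exact cen_nil _ _ _
      · rw [zero_mul', zero_mul', mul_zero']
      · rw [el_mul]
        split_ifs with h1
        · obtain ⟨rfl, h1⟩ := h1
          have := hmin _ _ _ hg
          exact cen_top _ (by omega) _
        · rw [zero_mul', mul_zero']
    · have := coeff_mul_single_eq_coeff_mul (x := a) (m := (M.el n (n - j - 1) [], 1)) (r := 1)
        (m₁ := (M.el n n w, l)) (M.el n j w, l) (by
          rintro ⟨g, l'⟩ hg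
          simp only [Prod.mk_mul_mk, mul_one, Prod.mk.injEq]
          refine and_congr_left fun _ => ?_
          rcases g with _ | _ | ⟨n', j', w'⟩
          · rw [one_mul']; simp; omega
          · rw [zero_mul']; simp
          · rw [el_mul]
            split_ifs with h1
            · simp; omega
            · simp; omega)
      rw [h0, mul_one] at this
      exact Finsupp.mem_support_iff.1 hw this.symm
  · refine ⟨single 1 1, Subring.one_mem _, central a 1 ?_, by rwa [← one_def, mul_one]⟩
    rintro ⟨g, l⟩ hg y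
    refine Prod.ext ?_ (mul_comm _ _)
    simp only [mul_one, Prod.fst_mul]
    rcases g with _ | _ | ⟨n, j, w⟩
    · rw [mul_one', one_mul']
    · rw [zero_mul', mul_zero']
    · exact cen_top _ (not_lt.1 fun hj => h ⟨n, j, hj, w, l, hg⟩) _

theorem split (b : MonoidAlgebra ℚ (M × Lam)) (hb : b ≠ 0) :
    ∃ l : Lam, b * single (1, l) 1 ≠ 0 ∧ b * single (1, l) 1 ≠ b := by
  classical
  obtain ⟨⟨g, m⟩, hg, hmin⟩ := b.coeff.support.exists_min_image Prod.snd
    (Finsupp.support_nonempty_iff.2 fun h => hb (coeff_eq_zero.1 h))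
  obtain ⟨t, ht⟩ := exists_gt m
  obtain ⟨m', hm', hmin'⟩ := (insert t ((b.coeff.support.image Prod.snd).filter (m < ·))).exists_min_image
    id ⟨t, Finset.mem_insert_self _ _⟩
  have hlt : m < m' := by
    rcases Finset.mem_insert.1 hm' with rfl | h
    · exact ht
    · exact (Finset.mem_filter.1 h).2
  obtain ⟨l, h1, h2⟩ := exists_between hlt
  refine ⟨l, fun h0 => ?_, fun h0 => ?_⟩
  · have := coeff_mul_single_eq_coeff_mul (x := b) (m := (1, l)) (r := 1) (m₁ := (g, l)) (g, m) (by
      rintro ⟨g', k⟩ hk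
      simp only [Prod.mk_mul_mk, mul_one, Prod.mk.injEq, lam_mul, max_eq_right_iff]
      refine and_congr_right fun _ => ⟨fun h => ?_, fun h => h ▸ h1.le⟩
      by_contra hne
      have h3 : m < k := lt_of_le_of_ne (hmin _ hk) (Ne.symm hne)
      have h4 : m' ≤ k := hmin' k (Finset.mem_insert_of_mem
        (Finset.mem_filter.2 ⟨Finset.mem_image_of_mem _ hk, h3⟩))
      exact absurd (h2.trans_le (h4.trans h)) (lt_irrefl _))
    rw [h0, mul_one] at this
    exact Finsupp.mem_support_iff.1 hg this.symm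
  · refine Finsupp.mem_support_iff.1 hg ?_
    rw [← h0, coeff_mul]
    refine Finset.sum_eq_zero fun x _ => ?_
    beta_reduce
    rw [coeff_single, Finsupp.sum_single_index (by simp), if_neg]
    intro h
    have : max x.2 l = m := congrArg Prod.snd h
    exact absurd (h1.trans_le ((le_max_right _ _).trans this.le)) (lt_irrefl _)

theorem word (n : ℕ) (v : List ℕ) : ∀ i, v.length ≤ n →
    ((i :: v).map fun i => M.el n 0 [i]).prod = M.el n v.length (i :: v) := by
  induction v with
  | nil => intro i _; rfl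
  | cons k v ih =>
    intro i h
    rw [List.map_cons, List.prod_cons, ih k (by simp at h; omega), el_mul,
      if_pos ⟨rfl, by simpa using h⟩]
    simp

theorem word_inj (n : ℕ) {v w : List ℕ} (hv : v.length ≤ n) (hw : w.length ≤ n)
    (h : (v.map fun i => M.el n 0 [i]).prod = (w.map fun i => M.el n 0 [i]).prod) : v = w := by
  rcases v with _ | ⟨i, v⟩ <;> rcases w with _ | ⟨k, w⟩
  · rfl
  · rw [word n w k (by simp at hw; omega)] at h; cases h
  · rw [word n v i (by simp at hv; omega)] at h; cases h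
  · rw [word n w k (by simp at hw; omega), word n v i (by simp at hv; omega)] at h
    exact (M.el.inj h).2.2

theorem main : ∃ (A : Type) (_ : AddCommGroup A), Nontrivial A ∧
    (∀ a : AddMonoid.End A, a ≠ 0 → ∃ x ∈ Subring.center (AddMonoid.End A),
      ∃ y ∈ Subring.center (AddMonoid.End A), x ≠ 0 ∧ y ≠ 0 ∧ a * x = y) ∧
    (∀ f : List ℕ →₀ ℤ, (∀ r : ℕ → AddMonoid.End A,
      (f.sum fun v c => c • (v.map r).prod) = 0) → f = 0) ∧
    ∀ B C : AddSubgroup A, IsCompl B C → B ≠ ⊥ →
      ∃ H K : AddSubgroup B, IsCompl H K ∧ H ≠ ⊥ ∧ K ≠ ⊥ := by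
  classical
  obtain ⟨R, A, ρ, hg, hρ, hs, hap, hRA, hR⟩ := realize (M × Lam) aper
  refine ⟨A, inferInstance, ⟨⟨⟨1, hRA 1 R.one_mem⟩, 0, fun h =>
    one_ne_zero (congrArg Subtype.val h)⟩⟩, Pool.Agent.H29.Zass.ce R ρ hρ hs hR ceS, ?_, ?_⟩
  · intro f hf
    ext w
    by_contra hw
    obtain ⟨n, hn⟩ : ∃ n, ∀ v ∈ f.support, v.length ≤ n :=
      ⟨f.support.sup List.length, fun v hv => Finset.le_sup hv⟩
    choose r hr using fun i => hs _ (hg (M.el n 0 [i], 1))
    have hp : ∀ v : List ℕ, ρ (v.map r).prod =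
        single ((v.map fun i => M.el n 0 [i]).prod, 1) 1 := fun v => by
      induction v with
      | nil => simp [one_def, Prod.mk_one_one]
      | cons i v ih => simp [ih, hr, single_mul_single]
    have h1 := congrArg (fun z => (ρ z).coeff ((w.map fun i => M.el n 0 [i]).prod, 1)) (hf r)
    simp only [Finsupp.sum, map_sum, map_zsmul, hp, coeff_sum, Finsupp.finset_sum_apply,
      coeff_smul_apply, coeff_single_apply, map_zero, coeff_zero, Finsupp.zero_apply] at h1
    rw [Finset.sum_eq_single w] at h1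
    · simp at h1; exact hw h1
    · intro v hv hne
      rw [if_neg, smul_zero]
      intro h
      exact hne (word_inj n (hn v hv) (hn w (Finsupp.mem_support_iff.2 hw)) (Prod.ext_iff.1 h).1)
    · intro h; exact absurd (Finsupp.mem_support_iff.2 hw) h
  · intro B C hBC hB
    obtain ⟨b, hb, hb0⟩ : ∃ b ∈ B, b ≠ 0 := by
      by_contra h
      push Not at h
      exact hB (eq_bot_iff.2 fun b hb => AddSubgroup.mem_bot.2 (h b hb))
    have hd : ∀ b ∈ B, ∀ c ∈ C, b + c = 0 → b = 0 := by
      intro b hb c hc h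
      have : b ∈ B ⊓ C := ⟨hb, by rw [eq_neg_of_add_eq_zero_left h]; exact C.neg_mem hc⟩
      rwa [hBC.inf_eq_bot, AddSubgroup.mem_bot] at this
    choose f hf g hg' hfg using fun a : A =>
      AddSubgroup.mem_sup.1 (hBC.sup_eq_top ▸ AddSubgroup.mem_top a : a ∈ B ⊔ C)
    have huniq : ∀ a, ∀ b ∈ B, ∀ c ∈ C, b + c = a → f a = b := by
      intro a b hb c hc h
      refine sub_eq_zero.1 (hd _ (B.sub_mem (hf a) hb) (g a - c) (C.sub_mem (hg' a) hc) ?_)
      rw [sub_add_sub_comm, hfg, h, sub_self]
    let π : AddMonoid.End A := AddMonoidHom.mk' f fun a a' =>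
      huniq _ _ (B.add_mem (hf a) (hf a')) _ (C.add_mem (hg' a) (hg' a')) (by
        rw [add_add_add_comm, hfg, hfg])
    obtain ⟨l, hl1, hl2⟩ := split b (fun h => hb0 (Subtype.ext h))
    obtain ⟨φ, hφ⟩ := hs _ (hg (1, l))
    have hcen : ∀ z, z * ρ φ = ρ φ * z := by
      rw [hφ]
      refine Subring.mem_center_iff.1 ?_
      simpa using central 1 ((1 : M), l) fun g hg y => by
        have : g = 1 := by
          rw [one_def, coeff_single] at hg
          exact Finset.mem_singleton.1 (Finsupp.support_single_subset hg)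
        rw [this, one_mul]
        exact Prod.ext (by simp) (mul_comm _ _)
    have hid : φ * φ = φ := hρ (by rw [map_mul, hφ, single_mul_single]; simp [lam_mul])
    have hcomm : φ * π = π * φ := hρ (by rw [map_mul, map_mul, hcen])
    have hmap : ∀ x ∈ B, φ x ∈ B := fun x hx => by
      have h1 : π x = x := huniq x x hx 0 C.zero_mem (add_zero _)
      have h2 : φ (π x) = π (φ x) := DFunLike.congr_fun hcomm x
      rw [← h1, h2]
      exact hf _
    let γ : B →+ B := AddMonoidHom.mk' (fun x => ⟨φ x, hmap x x.2⟩) fun x y =>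
      Subtype.ext (map_add φ _ _)
    have hγ : ∀ x, γ (γ x) = γ x := fun x => Subtype.ext (DFunLike.congr_fun hid (x : A))
    have hγb : ((γ ⟨b, hb⟩ : A) : MonoidAlgebra ℚ (M × Lam)) =
        (b : MonoidAlgebra ℚ (M × Lam)) * single (1, l) 1 := by
      rw [← hφ, hcen, ← hap]; rfl
    refine ⟨γ.range, γ.ker, ⟨?_, ?_⟩, fun h => hl1 ?_, fun h => hl2 ?_⟩
    · rw [AddSubgroup.disjoint_def]
      rintro _ ⟨y, rfl⟩ h
      rw [← hγ]; exact h
    · rw [codisjoint_iff, eq_top_iff]
      intro x _
      exact AddSubgroup.mem_sup.2 ⟨γ x, ⟨x, rfl⟩, x - γ x, by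
        rw [AddMonoidHom.mem_ker, map_sub, hγ, sub_self], by abel⟩
    · have : γ ⟨b, hb⟩ ∈ γ.range := ⟨_, rfl⟩
      rw [h, AddSubgroup.mem_bot] at this
      rw [← hγb, this]; rfl
    · have : ⟨b, hb⟩ - γ ⟨b, hb⟩ ∈ γ.ker := by rw [AddMonoidHom.mem_ker, map_sub, hγ, sub_self]
      rw [h, AddSubgroup.mem_bot, sub_eq_zero] at this
      rw [← hγb, ← this]

end Pool.Agent.H29.ZMon
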